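import Pool.Agent.MaxTerm8.Defs

/-! The maximum modulus of the theta functions. -/

namespace Pool.Agent.MaxTerm8

open Complex ComplexConjugate Filter

/-- the maximum modulus of the theta function on the unit circle -/
noncomputable def Kq (q : ℂ) : ℝ := ⨆ t : ℝ, ‖Th q t‖

/-- the minimum of the maxima -/
noncomputable def Kstar : ℝ := ⨅ q : {q : ℂ // ‖q‖ < 1}, Kq q.1

private theorem ek_tri_ge (j : ℕ) : j ≤ tri j := by
  unfold tri
  rw [Nat.le_div_iff_mul_le (by norm_num)]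
  rcases Nat.eq_zero_or_pos j with h | h
  · subst h
    simp
  · exact Nat.mul_le_mul_left j (by omega)

private theorem ek_summ (q : ℂ) (hq : ‖q‖ < 1) : Summable fun j : ℕ => 2 * ‖q‖ ^ tri j := by
  apply Summable.mul_left
  refine Summable.of_nonneg_of_le (fun j => by positivity) (fun j => ?_)
    (summable_geometric_of_lt_one (norm_nonneg q) hq)
  exact pow_le_pow_of_le_one (norm_nonneg q) hq.le (ek_tri_ge j)

private theorem ek_term (q : ℂ) (t : ℝ) (j : ℕ) : ‖ThT q t j‖ ≤ 2 * ‖q‖ ^ tri j := by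
  unfold ThT
  rw [norm_mul, norm_mul, norm_pow, Complex.norm_real, Real.norm_eq_abs]
  have h1 : ‖(2 : ℂ)‖ = 2 := by simp
  rw [h1]
  have h2 : |Real.cos ((2 * (j : ℝ) + 1) * t)| ≤ 1 := Real.abs_cos_le_one _
  calc 2 * ‖q‖ ^ tri j * |Real.cos ((2 * (j : ℝ) + 1) * t)|
      ≤ 2 * ‖q‖ ^ tri j * 1 := mul_le_mul_of_nonneg_left h2 (by positivity)
    _ = 2 * ‖q‖ ^ tri j := mul_one _

private theorem ek_term_cont (q : ℂ) (j : ℕ) : Continuous fun t : ℝ => ThT q t j := by
  unfold ThT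
  fun_prop

private theorem ek_period (q : ℂ) : Function.Periodic (Th q) (2 * Real.pi) := by
  intro t
  unfold Th
  refine tsum_congr fun j => ?_
  unfold ThT
  have h : (2 * (j : ℝ) + 1) * (t + 2 * Real.pi) =
      (2 * (j : ℝ) + 1) * t + ((2 * j + 1 : ℕ) : ℝ) * (2 * Real.pi) := by
    push_cast
    ring
  rw [h, Real.cos_add_nat_mul_two_pi]

private theorem ek_int (n : ℕ) (hn : 0 < n) : ∫ t in (0 : ℝ)..(2 * Real.pi), Real.cos (n * t) = 0 := by
  have hn' : (n : ℝ) ≠ 0 := by exact_mod_cast hn.ne'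
  have e : (n : ℝ) * (2 * Real.pi) = ((2 * n : ℕ) : ℝ) * Real.pi := by
    push_cast
    ring
  rw [intervalIntegral.integral_comp_mul_left (fun t => Real.cos t) hn', integral_cos, mul_zero,
    Real.sin_zero, sub_zero, e, Real.sin_nat_mul_pi, smul_zero]

private theorem ek_int_term (j : ℕ) : ∫ t in (0 : ℝ)..(2 * Real.pi),
    Real.cos ((2 * (j : ℝ) + 1) * t) * Real.cos t = if j = 0 then Real.pi else 0 := by
  have h : ∀ t : ℝ, Real.cos ((2 * (j : ℝ) + 1) * t) * Real.cos t =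
      (1 / 2) * Real.cos (((2 * j + 2 : ℕ) : ℝ) * t) + (1 / 2) * Real.cos (((2 * j : ℕ) : ℝ) * t) := by
    intro t
    have e1 : ((2 * j + 2 : ℕ) : ℝ) * t = (2 * (j : ℝ) + 1) * t + t := by push_cast; ring
    have e2 : ((2 * j : ℕ) : ℝ) * t = (2 * (j : ℝ) + 1) * t - t := by push_cast; ring
    rw [e1, e2, Real.cos_add, Real.cos_sub]
    ring
  simp only [h]
  have c1 : ∀ n : ℕ, IntervalIntegrable (fun t : ℝ => (1 / 2) * Real.cos ((n : ℝ) * t))
      MeasureTheory.volume 0 (2 * Real.pi) := fun n =>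
    (Continuous.mul continuous_const (Real.continuous_cos.comp
      (continuous_const.mul continuous_id))).intervalIntegrable _ _
  rw [intervalIntegral.integral_add (c1 _) (c1 _), intervalIntegral.integral_const_mul,
    intervalIntegral.integral_const_mul, ek_int _ (by omega)]
  split_ifs with hj
  · subst hj
    have : ∫ t in (0 : ℝ)..(2 * Real.pi), Real.cos (((2 * 0 : ℕ) : ℝ) * t) = 2 * Real.pi := by
      simp
    rw [this]
    ring
  · rw [ek_int _ (by omega)]
    ring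

/-- `Th q` is continuous in `t` (uniform convergence), bounded by `∑ 2 ‖q‖^(tri j)`. -/
theorem th_cont (q : ℂ) (hq : ‖q‖ < 1) : Continuous (Th q) ∧ BddAbove (Set.range fun t : ℝ => ‖Th q t‖) := by
  constructor
  · unfold Th
    exact continuous_tsum (ek_term_cont q) (ek_summ q hq) fun j t => ek_term q t j
  · refine ⟨∑' j : ℕ, 2 * ‖q‖ ^ tri j, ?_⟩
    rintro _ ⟨t, rfl⟩
    exact tsum_of_norm_bounded (ek_summ q hq).hasSum fun j => ek_term q t j

/-- `‖Th q (t + π)‖ = ‖Th q t‖`; the maximum over `[0, π]` is attained. -/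
theorem kq_attained (q : ℂ) (hq : ‖q‖ < 1) : ∃ t : ℝ, ‖Th q t‖ = Kq q := by
  obtain ⟨hc, hb⟩ := th_cont q hq
  have hp : (0 : ℝ) < 2 * Real.pi := by positivity
  obtain ⟨t, -, ht⟩ := (isCompact_Icc (a := (0 : ℝ)) (b := 2 * Real.pi)).exists_isMaxOn
    ⟨0, by constructor <;> linarith⟩ hc.norm.continuousOn
  refine ⟨t, le_antisymm (le_ciSup hb t) (ciSup_le fun s => ?_)⟩
  obtain ⟨s', hs', he⟩ := (ek_period q).exists_mem_Ico₀ hp s
  rw [he]
  exact ht ⟨hs'.1, hs'.2.le⟩

/-- `∫_0^π ‖Th q t‖^2 dt = 2 π ∑ ‖q‖^(2 tri j) ≥ 2 π` would do; simpler: `Kq q ≥ 1`, because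
`∫_0^{2π} Th q t cos t dt = 2 π`, and `|cos| ≤ 1`. -/
theorem kq_ge_one (q : ℂ) (hq : ‖q‖ < 1) : 1 ≤ Kq q := by
  obtain ⟨hc, hb⟩ := th_cont q hq
  have h1 : HasSum (fun j : ℕ => ∫ t in (0 : ℝ)..(2 * Real.pi), ThT q t j * ((Real.cos t : ℝ) : ℂ))
      (∫ t in (0 : ℝ)..(2 * Real.pi), Th q t * ((Real.cos t : ℝ) : ℂ)) := by
    refine intervalIntegral.hasSum_integral_of_dominated_convergence
      (fun j _ => 2 * ‖q‖ ^ tri j) ?_ ?_ ?_ ?_ ?_
    · intro j
      exact ((ek_term_cont q j).mul (Complex.continuous_ofReal.comp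
        Real.continuous_cos)).aestronglyMeasurable
    · intro j
      refine Filter.Eventually.of_forall fun t _ => ?_
      rw [norm_mul, Complex.norm_real, Real.norm_eq_abs]
      calc ‖ThT q t j‖ * |Real.cos t| ≤ (2 * ‖q‖ ^ tri j) * 1 :=
            mul_le_mul (ek_term q t j) (Real.abs_cos_le_one t) (abs_nonneg _) (by positivity)
        _ = _ := mul_one _
    · exact Filter.Eventually.of_forall fun t _ => ek_summ q hq
    · exact intervalIntegrable_const
    · refine Filter.Eventually.of_forall fun t _ => ?_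
      have : Summable fun j => ThT q t j :=
        Summable.of_norm_bounded (ek_summ q hq) fun j => ek_term q t j
      exact this.hasSum.mul_right _
  have h2 : ∀ j : ℕ, ∫ t in (0 : ℝ)..(2 * Real.pi), ThT q t j * ((Real.cos t : ℝ) : ℂ) =
      if j = 0 then 2 * (Real.pi : ℂ) else 0 := by
    intro j
    have e1 : ∀ t : ℝ, ThT q t j * ((Real.cos t : ℝ) : ℂ) =
        (2 * q ^ tri j) * ((Real.cos ((2 * (j : ℝ) + 1) * t) * Real.cos t : ℝ) : ℂ) := by
      intro t
      unfold ThT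
      push_cast
      ring
    simp only [e1]
    rw [intervalIntegral.integral_const_mul, intervalIntegral.integral_ofReal, ek_int_term]
    split_ifs with hj
    · subst hj
      have : tri 0 = 0 := rfl
      rw [this]
      simp
    · simp
  have h3 : ∫ t in (0 : ℝ)..(2 * Real.pi), Th q t * ((Real.cos t : ℝ) : ℂ) = 2 * (Real.pi : ℂ) := by
    rw [← h1.tsum_eq]
    simp only [h2]
    exact tsum_ite_eq 0 _
  have h4 : ‖∫ t in (0 : ℝ)..(2 * Real.pi), Th q t * ((Real.cos t : ℝ) : ℂ)‖ ≤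
      Kq q * |2 * Real.pi - 0| := by
    refine intervalIntegral.norm_integral_le_of_norm_le_const fun t _ => ?_
    rw [norm_mul, Complex.norm_real, Real.norm_eq_abs]
    have h5 : ‖Th q t‖ ≤ Kq q := le_ciSup hb t
    calc ‖Th q t‖ * |Real.cos t| ≤ Kq q * 1 :=
          mul_le_mul h5 (Real.abs_cos_le_one t) (abs_nonneg _) ((norm_nonneg _).trans h5)
      _ = _ := mul_one _
  have hp := Real.pi_pos
  rw [h3, sub_zero, abs_of_pos (by positivity), norm_mul, Complex.norm_ofNat, Complex.norm_real,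
    Real.norm_of_nonneg hp.le] at h4
  have h6 : (2 * Real.pi) * 1 ≤ (2 * Real.pi) * Kq q := by linarith
  exact le_of_mul_le_mul_left h6 (by positivity)

end Pool.Agent.MaxTerm8
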