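import Pool.Agent.MaxTerm8.LowerC

/-! The lower bound: the lower limit. -/

namespace Pool.Agent.MaxTerm8

open Complex ComplexConjugate Filter Pool.Agent.MaxTerm59

private theorem tri_ge (j : ℕ) : j ≤ tri j := by
  unfold tri
  rw [Nat.le_div_iff_mul_le (by norm_num)]
  rcases Nat.eq_zero_or_pos j with rfl | hj
  · simp
  · nlinarith

private theorem tri_mono {i j : ℕ} (h : i ≤ j) : tri i ≤ tri j := by
  unfold tri
  exact Nat.div_le_div_right (Nat.mul_le_mul h (by omega))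

private theorem tri_summable {ρ : ℝ} (h0 : 0 < ρ) (h1 : ρ < 1) :
    Summable fun j : ℕ => ρ ^ tri j := by
  refine Summable.of_nonneg_of_le (fun j => by positivity) (fun j => ?_)
    (summable_geometric_of_lt_one h0.le h1)
  exact pow_le_pow_of_le_one h0.le h1.le (tri_ge j)

private theorem tail_anti {ρ : ℝ} (h0 : 0 < ρ) (h1 : ρ < 1) {M N : ℕ} (h : M ≤ N) :
    ∑' j : ℕ, ρ ^ tri (j + (N + 1)) ≤ ∑' j : ℕ, ρ ^ tri (j + (M + 1)) := by
  refine Summable.tsum_le_tsum (fun j => ?_) ?_ ?_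
  · exact pow_le_pow_of_le_one h0.le h1.le (tri_mono (by omega))
  · exact (summable_nat_add_iff (f := fun j : ℕ => ρ ^ tri j) (N + 1)).2 (tri_summable h0 h1)
  · exact (summable_nat_add_iff (f := fun j : ℕ => ρ ^ tri j) (M + 1)).2 (tri_summable h0 h1)

private theorem tail_nonneg {ρ : ℝ} (h0 : 0 < ρ) (M : ℕ) :
    0 ≤ ∑' j : ℕ, ρ ^ tri (j + (M + 1)) :=
  tsum_nonneg fun j => by positivity

/-- Maximum principle for `fq q z / z^(N+1)` on the annulus, `fq_corner` for `N` and `N + 1` (at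
`‖z‖ = ‖q‖^(-(N+1))` one has `‖q‖^te (N+2) ‖z‖^(N+2) = ‖q‖^te (N+1) ‖z‖^(N+1)`; the tail for `N + 1` is
smaller). -/
theorem fq_annulus (q : ℂ) (hq : ‖q‖ < 1) (h0 : q ≠ 0) (A : ℝ) (hA : ∀ t, ‖Th q t‖ ≤ A) (N : ℕ)
    (z : ℂ) (h1 : ‖q‖⁻¹ ^ N ≤ ‖z‖) (h2 : ‖z‖ ≤ ‖q‖⁻¹ ^ (N + 1)) :
    ‖fq q z‖ ≤ (A + ∑' j : ℕ, ‖q‖ ^ tri (j + (N + 1))) * (‖q‖ ^ te (N + 1) * ‖z‖ ^ (N + 1)) := by
  have hρ : 0 < ‖q‖ := norm_pos_iff.2 h0
  have hρi : 0 < ‖q‖⁻¹ := inv_pos.2 hρ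
  set C : ℝ := (A + ∑' j : ℕ, ‖q‖ ^ tri (j + (N + 1))) * ‖q‖ ^ te (N + 1) with hC
  -- the bound on the inner circle
  have hin : ∀ w : ℂ, ‖w‖ = ‖q‖⁻¹ ^ N → ‖fq q w‖ ≤ C * ‖w‖ ^ (N + 1) := by
    intro w hw
    have := fq_corner q hq h0 A hA N w hw
    rw [hC, mul_assoc]
    exact this
  have hout : ∀ w : ℂ, ‖w‖ = ‖q‖⁻¹ ^ (N + 1) → ‖fq q w‖ ≤ C * ‖w‖ ^ (N + 1) := by
    intro w hw
    have h3 := fq_corner q hq h0 A hA (N + 1) w hw
    have h4 : ‖q‖ ^ te (N + 1 + 1) * ‖w‖ ^ (N + 1 + 1) = ‖q‖ ^ te (N + 1) * ‖w‖ ^ (N + 1) := by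
      have h5 : ‖q‖ ^ (N + 1) * ‖w‖ = 1 := by
        rw [hw, ← mul_pow, mul_inv_cancel₀ hρ.ne', one_pow]
      calc ‖q‖ ^ te (N + 1 + 1) * ‖w‖ ^ (N + 1 + 1)
          = ‖q‖ ^ te (N + 1) * ‖w‖ ^ (N + 1) * (‖q‖ ^ (N + 1) * ‖w‖) := by
            rw [te_succ (N + 1), pow_add, pow_succ ‖w‖ (N + 1)]; ring
        _ = ‖q‖ ^ te (N + 1) * ‖w‖ ^ (N + 1) := by rw [h5, mul_one]
    rw [h4] at h3
    rw [hC, mul_assoc]
    refine h3.trans (mul_le_mul_of_nonneg_right ?_ (by positivity))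
    have := tail_anti hρ hq (Nat.le_succ N)
    simp only [Nat.succ_eq_add_one] at this
    linarith
  have hgoal : ‖fq q z‖ ≤ C * ‖z‖ ^ (N + 1) → ‖fq q z‖ ≤
      (A + ∑' j : ℕ, ‖q‖ ^ tri (j + (N + 1))) * (‖q‖ ^ te (N + 1) * ‖z‖ ^ (N + 1)) := by
    intro h
    rw [hC, mul_assoc] at h
    exact h
  apply hgoal
  rcases h1.eq_or_lt with h1 | h1
  · exact hin z h1.symm
  rcases h2.eq_or_lt with h2 | h2
  · exact hout z h2
  -- the interior
  set U : Set ℂ := {w : ℂ | ‖q‖⁻¹ ^ N < ‖w‖ ∧ ‖w‖ < ‖q‖⁻¹ ^ (N + 1)} with hU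
  have hUo : IsOpen U :=
    (isOpen_lt continuous_const continuous_norm).inter (isOpen_lt continuous_norm continuous_const)
  have hUc : closure U ⊆ {w : ℂ | ‖q‖⁻¹ ^ N ≤ ‖w‖ ∧ ‖w‖ ≤ ‖q‖⁻¹ ^ (N + 1)} := by
    refine closure_minimal (fun w hw => ⟨hw.1.le, hw.2.le⟩) ?_
    exact (isClosed_le continuous_const continuous_norm).inter
      (isClosed_le continuous_norm continuous_const)
  have hUb : Bornology.IsBounded U := by
    refine (Metric.isBounded_closedBall (x := (0 : ℂ)) (r := ‖q‖⁻¹ ^ (N + 1))).subset ?_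
    intro w hw
    rw [mem_closedBall_zero_iff]
    exact hw.2.le
  have hne : ∀ w ∈ closure U, w ≠ 0 := by
    intro w hw h
    have := (hUc hw).1
    rw [h, norm_zero] at this
    exact absurd this (not_le.2 (pow_pos hρi N))
  have hdiff : DiffContOnCl ℂ (fun w => fq q w / w ^ (N + 1)) U := by
    refine DifferentiableOn.diffContOnCl ?_
    intro w hw
    refine DifferentiableAt.differentiableWithinAt ?_
    exact ((fq_coeff q hq).1 w).div (differentiableAt_pow (N + 1)) (pow_ne_zero _ (hne w hw))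
  have hzU : z ∈ U := ⟨h1, h2⟩
  have hfr : ∀ w ∈ frontier U, ‖fq q w / w ^ (N + 1)‖ ≤ C := by
    intro w hw
    have hwc : w ∈ closure U := frontier_subset_closure hw
    have hwU : w ∉ U := by
      rw [hUo.frontier_eq] at hw
      exact hw.2
    have hpos : 0 < ‖w‖ ^ (N + 1) := pow_pos (norm_pos_iff.2 (hne w hwc)) _
    rw [norm_div, norm_pow, div_le_iff₀ hpos]
    obtain ⟨ha, hb⟩ := hUc hwc
    rcases ha.eq_or_lt with ha | ha
    · exact hin w ha.symm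
    rcases hb.eq_or_lt with hb | hb
    · exact hout w hb
    exact absurd ⟨ha, hb⟩ hwU
  have hmain := Complex.norm_le_of_forall_mem_frontier_norm_le hUb hdiff hfr (subset_closure hzU)
  have hpos : 0 < ‖z‖ ^ (N + 1) := pow_pos (norm_pos_iff.2 (hne z (subset_closure hzU))) _
  rwa [norm_div, norm_pow, div_le_iff₀ hpos] at hmain

/-- `maxMod ≤ (A + tail_N) maxTerm` for `r ≥ ‖q‖^(-N)`, the tail tends to `0`. (`A ≥ 0`, in fact `A > 0`
because `maxTerm ≤ maxMod`.) -/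
theorem fq_liminf (q : ℂ) (hq : ‖q‖ < 1) (h0 : q ≠ 0) (A : ℝ) (hA : ∀ t, ‖Th q t‖ ≤ A) :
    1 / A ≤ liminf (fun r : ℝ => maxTerm (fq q) r / maxMod (fq q) r) atTop := by
  have hρ : 0 < ‖q‖ := norm_pos_iff.2 h0
  have hρi : 1 < ‖q‖⁻¹ := (one_lt_inv₀ hρ).2 hq
  have hA0 : 0 ≤ A := (norm_nonneg _).trans (hA 0)
  have hT := fq_trans q hq h0
  have hle : ∀ r : ℝ, 0 < r → maxTerm (fq q) r / maxMod (fq q) r ≤ 1 := by
    intro r hr
    have h1 := maxTerm_pos (fq q) hT r hr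
    have h2 := maxTerm_le_maxMod (fq q) hT r hr
    exact div_le_one_of_le₀ h2 (h1.le.trans h2)
  have hcob : IsCoboundedUnder (· ≥ ·) atTop
      (fun r : ℝ => maxTerm (fq q) r / maxMod (fq q) r) := by
    refine IsBoundedUnder.isCoboundedUnder_ge ?_
    refine ⟨1, ?_⟩
    rw [eventually_map]
    filter_upwards [eventually_gt_atTop (0 : ℝ)] with r hr
    exact hle r hr
  -- the bound from the annuli
  have hmod : ∀ (N : ℕ) (r : ℝ), ‖q‖⁻¹ ^ N ≤ r →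
      maxMod (fq q) r ≤ (A + ∑' j : ℕ, ‖q‖ ^ tri (j + (N + 1))) * maxTerm (fq q) r := by
    intro N r hr
    have hr1 : 1 ≤ r := (one_le_pow₀ hρi.le).trans hr
    obtain ⟨n, hn1, hn2⟩ := exists_nat_pow_near hr1 hρi
    have hNn : N ≤ n := by
      have h3 : ‖q‖⁻¹ ^ N < ‖q‖⁻¹ ^ (n + 1) := hr.trans_lt hn2
      have := (pow_lt_pow_iff_right₀ hρi).1 h3
      omega
    have hr0 : 0 < r := by linarith
    have hmt := fq_maxTerm q hq h0 n r hn1 hn2.le
    refine csSup_le ?_ ?_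
    · refine ⟨_, (r : ℂ), ?_, rfl⟩
      rw [mem_sphere_zero_iff_norm, Complex.norm_real, Real.norm_of_nonneg hr0.le]
    · rintro _ ⟨z, hz, rfl⟩
      rw [mem_sphere_zero_iff_norm] at hz
      have h4 := fq_annulus q hq h0 A hA n z (by rw [hz]; exact hn1) (by rw [hz]; exact hn2.le)
      rw [hz, ← hmt] at h4
      refine h4.trans (mul_le_mul_of_nonneg_right ?_ (maxTerm_pos (fq q) hT r hr0).le)
      have := tail_anti hρ hq hNn
      linarith
  rcases hA0.eq_or_lt with hA0 | hA0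
  · rw [← hA0, div_zero]
    refine le_liminf_of_le hcob ?_
    filter_upwards [eventually_gt_atTop (0 : ℝ)] with r hr
    have h1 := maxTerm_pos (fq q) hT r hr
    have h2 := maxTerm_le_maxMod (fq q) hT r hr
    exact div_nonneg h1.le (h1.le.trans h2)
  · have hN : ∀ N : ℕ, 1 / (A + ∑' j : ℕ, ‖q‖ ^ tri (j + (N + 1))) ≤
        liminf (fun r : ℝ => maxTerm (fq q) r / maxMod (fq q) r) atTop := by
      intro N
      refine le_liminf_of_le hcob ?_
      filter_upwards [eventually_ge_atTop (‖q‖⁻¹ ^ N)] with r hr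
      have hr0 : 0 < r := (pow_pos (by linarith) N).trans_le hr
      have h1 := maxTerm_pos (fq q) hT r hr0
      have h2 := maxTerm_le_maxMod (fq q) hT r hr0
      have h3 := hmod N r hr
      have h4 := tail_nonneg hρ N
      rw [div_le_div_iff₀ (by linarith) (by linarith)]
      linarith
    have hlim : Tendsto (fun N : ℕ => 1 / (A + ∑' j : ℕ, ‖q‖ ^ tri (j + (N + 1)))) atTop
        (nhds (1 / A)) := by
      have h5 : Tendsto (fun N : ℕ => ∑' j : ℕ, ‖q‖ ^ tri (j + (N + 1))) atTop (nhds 0) :=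
        (tendsto_sum_nat_add (fun j : ℕ => ‖q‖ ^ tri j)).comp (tendsto_add_atTop_nat 1)
      have h6 : Tendsto (fun N : ℕ => A + ∑' j : ℕ, ‖q‖ ^ tri (j + (N + 1))) atTop
          (nhds (A + 0)) := h5.const_add A
      rw [add_zero] at h6
      exact Tendsto.div tendsto_const_nhds h6 hA0.ne'
    exact le_of_tendsto' hlim hN

end Pool.Agent.MaxTerm8
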