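import Pool.Agent.MaxTerm8.SysC
import Pool.Agent.MaxTerm8.LowerD
import Pool.Agent.MaxTerm8.ExactK
import Pool.Agent.MaxTerm59.Sys

/-! The exact value of `L`, given the theorem on chains of vertices. -/

namespace Pool.Agent.MaxTerm8

open Complex ComplexConjugate Filter Pool.Agent.MaxTerm59

/-- the constant of the problem -/
noncomputable def Lconst : ℝ := sSup {l : ℝ | ∃ f : ℂ → ℂ, TransEntire f ∧
  l = liminf (fun r : ℝ => maxTerm f r / maxMod f r) atTop}

/-- For `B < 1.70919` all vertices are eventually matched, with small quotients. -/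
def Chain : Prop := ∀ (B : ℝ) (S : Sys B), B ≤ 170919 / 100000 → ∃ K g : ℕ, 0 < g ∧
  (∀ k, K ≤ k → S.N (k + 1) = S.N k + g) ∧
  ∀ ε : ℝ, 0 < ε → ∃ K' : ℕ, ∀ k, K' ≤ k → S.x k ^ g ≤ 17 / 50 + ε

private theorem xc_q1 : ‖q1‖ < 1 := by
  have hq : ‖q1‖ ≤ 17 / 50 := by
    rw [Complex.norm_def]
    apply Real.sqrt_le_iff.mpr
    refine ⟨by norm_num, ?_⟩
    simp only [q1, Complex.normSq_mk]
    norm_num
  linarith

private theorem xc_bdd : BddBelow (Set.range fun q : {q : ℂ // ‖q‖ < 1} => Kq q.1) :=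
  ⟨1, by
    rintro _ ⟨q, rfl⟩
    exact kq_ge_one q.1 q.2⟩

private theorem xc_le (q : ℂ) (hq : ‖q‖ < 1) : Kstar ≤ Kq q := ciInf_le xc_bdd ⟨q, hq⟩

private theorem xc_kq1 : Kq q1 ^ 2 ≤ kp := by
  obtain ⟨t, ht⟩ := kq_attained q1 xc_q1
  rw [← ht]
  exact theta_q1_le t

/-- `Kstar ≤ Kq q1`, `theta_q1_le`. -/
theorem kstar_le : Kstar ^ 2 ≤ kp ∧ 1 ≤ Kstar := by
  have h1 : 1 ≤ Kstar := by
    have : Nonempty {q : ℂ // ‖q‖ < 1} := ⟨⟨q1, xc_q1⟩⟩
    exact le_ciInf fun q => kq_ge_one q.1 q.2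
  refine ⟨(pow_le_pow_left₀ (by linarith) (xc_le q1 xc_q1) 2).trans xc_kq1, h1⟩

private theorem xc_liminf_le (f : ℂ → ℂ) (hf : TransEntire f) :
    liminf (fun r : ℝ => maxTerm f r / maxMod f r) atTop ≤ 1 := by
  have h0 : ∀ᶠ r : ℝ in atTop, 0 ≤ maxTerm f r / maxMod f r ∧ maxTerm f r / maxMod f r ≤ 1 := by
    filter_upwards [eventually_gt_atTop 0] with r hr
    have h1 := maxTerm_pos f hf r hr
    have h2 := maxTerm_le_maxMod f hf r hr
    exact ⟨div_nonneg h1.le (h1.le.trans h2), div_le_one_of_le₀ h2 (h1.le.trans h2)⟩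
  refine liminf_le_of_frequently_le (h0.mono fun r hr => hr.2).frequently ?_
  exact isBoundedUnder_of_eventually_ge (h0.mono fun r hr => hr.1)

private theorem xc_Lbdd : BddAbove {l : ℝ | ∃ f : ℂ → ℂ, TransEntire f ∧
    l = liminf (fun r : ℝ => maxTerm f r / maxMod f r) atTop} :=
  ⟨1, by
    rintro _ ⟨f, hf, rfl⟩
    exact xc_liminf_le f hf⟩

private theorem xc_q (q : ℂ) (hq : ‖q‖ < 1) (h0 : q ≠ 0) : 1 / Kq q ≤ Lconst := by
  refine (fq_liminf q hq h0 (Kq q) fun t => le_ciSup (th_cont q hq).2 t).trans ?_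
  exact le_csSup xc_Lbdd ⟨fq q, fq_trans q hq h0, rfl⟩

private theorem xc_zero : 2 ≤ Kq 0 := by
  have h : ‖Th 0 0‖ = 2 := by
    unfold Th
    rw [tsum_eq_single 0]
    · unfold ThT
      have : tri 0 = 0 := rfl
      rw [this]
      simp
    · intro j hj
      unfold ThT
      have : tri j ≠ 0 := by
        unfold tri
        have h1 : 2 ≤ j * (j + 1) := by
          have : 1 ≤ j := Nat.one_le_iff_ne_zero.2 hj
          nlinarith
        omega
      rw [zero_pow this]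
      simp
  rw [← h]
  exact le_ciSup (th_cont 0 (by simp)).2 0

/-- `fq_liminf` for every `q ≠ 0`; for `q = 0` one has `Kq 0 = 2 ≥ Kq q1`. -/
theorem lconst_ge : 1 / Kstar ≤ Lconst := by
  have hq0 : q1 ≠ 0 := by
    intro h
    have := congrArg Complex.im h
    simp only [q1, Complex.zero_im] at this
    norm_num at this
  have h1 := xc_q q1 xc_q1 hq0
  have hK := kq_ge_one q1 xc_q1
  have hL : 0 < Lconst := lt_of_lt_of_le (by positivity) h1
  have hK2 : Kq q1 ≤ 2 := by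
    have := xc_kq1
    unfold kp at this
    nlinarith
  have h2 : 1 / Lconst ≤ Kstar := by
    have : Nonempty {q : ℂ // ‖q‖ < 1} := ⟨⟨q1, xc_q1⟩⟩
    refine le_ciInf fun q => ?_
    by_cases h0 : q.1 = 0
    · rw [h0]
      refine le_trans ?_ (hK2.trans xc_zero)
      rw [div_le_iff₀ hL]
      rwa [div_le_iff₀ (by linarith), mul_comm] at h1
    · have h3 := xc_q q.1 q.2 h0
      have h4 := kq_ge_one q.1 q.2
      rw [div_le_iff₀ hL]
      rwa [div_le_iff₀ (by linarith), mul_comm] at h3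
  have h5 := kstar_le.2
  rw [div_le_iff₀ hL] at h2
  rw [div_le_iff₀ (by linarith), mul_comm]
  exact h2

/-- If `liminf > 1 / Kstar`, choose `B < Kstar` with `maxMod ≤ B maxTerm` for large `r`, `exists_sys`,
`Chain` (`B < Kstar ≤ √kp < 1.70919`), `stepC_sys` with `κ = Kstar^2` (`kq_attained`): `Kstar^2 ≤ B^2`,
contradiction (`B > 0` because `0 < maxTerm ≤ maxMod`). -/
theorem liminf_le_of_chain (hC : Chain) (f : ℂ → ℂ) (hf : TransEntire f) :
    liminf (fun r : ℝ => maxTerm f r / maxMod f r) atTop ≤ 1 / Kstar := by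
  obtain ⟨hk1, hk2⟩ := kstar_le
  by_contra hcon
  push Not at hcon
  obtain ⟨c, hc1, hc2⟩ := exists_between hcon
  have hc0 : 0 < c := lt_trans (by positivity) hc1
  have hbd : IsBoundedUnder (· ≥ ·) atTop (fun r : ℝ => maxTerm f r / maxMod f r) := by
    refine isBoundedUnder_of_eventually_ge (a := 0) ?_
    filter_upwards [eventually_gt_atTop 0] with r hr
    have h1 := maxTerm_pos f hf r hr
    have h2 := maxTerm_le_maxMod f hf r hr
    exact div_nonneg h1.le (h1.le.trans h2)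
  have h1 := eventually_lt_of_lt_liminf hc2 hbd
  obtain ⟨r1, hr1⟩ := eventually_atTop.1 h1
  have hBK : 1 / c < Kstar := by
    rw [div_lt_iff₀ hc0]
    rwa [div_lt_iff₀ (by linarith), mul_comm] at hc1
  obtain ⟨S⟩ := exists_sys f hf (1 / c) (max r1 1) (by positivity) (by
    intro r hr
    have hr0 : 0 < r := lt_of_lt_of_le zero_lt_one ((le_max_right _ _).trans hr)
    have h2 := hr1 r ((le_max_left _ _).trans hr)
    have h3 := maxTerm_pos f hf r hr0
    have h4 := maxTerm_le_maxMod f hf r hr0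
    have h5 : 0 < maxMod f r := lt_of_lt_of_le h3 h4
    rw [lt_div_iff₀ h5] at h2
    rw [one_div, ← div_eq_inv_mul, le_div_iff₀ hc0, mul_comm]
    exact h2.le)
  obtain ⟨K, g, hg, hS, hY⟩ := hC (1 / c) S (by
    have h6 : Kstar < 170919 / 100000 := by
      unfold kp at hk1
      nlinarith
    linarith)
  have h7 := stepC_sys S K g hg hS hY (Kstar ^ 2) (by
    intro q hq
    obtain ⟨t, ht⟩ := kq_attained q (by linarith)
    refine ⟨t, ?_⟩
    rw [ht]
    exact pow_le_pow_left₀ (by linarith) (xc_le q (by linarith)) 2)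
  have h8 : (1 / c) ^ 2 < Kstar ^ 2 := pow_lt_pow_left₀ hBK (by positivity) two_ne_zero
  linarith

/-- **The exact value of `L`.** -/
theorem exact_of_chain (hC : Chain) : Lconst = 1 / Kstar := by
  refine le_antisymm (csSup_le ?_ ?_) lconst_ge
  · refine ⟨_, fq (1 / 2), fq_trans (1 / 2) ?_ (by norm_num), rfl⟩
    norm_num
  · rintro _ ⟨f, hf, rfl⟩
    exact liminf_le_of_chain hC f hf

end Pool.Agent.MaxTerm8
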