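import Pool.Agent.MaxTerm8.Asm
import Pool.Agent.MaxTerm8.Exact

/-! The theorem on chains of vertices, from the black boxes. -/

namespace Pool.Agent.MaxTerm8
open Pool.Agent.MaxTerm59 Pool.Agent.MaxTerm58

/-- enlarging the bound -/
def sysMono {B C : ℝ} (S : Sys B) (h : B ≤ C) : Sys C where
  N := S.N
  x := S.x
  c := S.c
  Nlt := S.Nlt
  x_pos := S.x_pos
  x_lt := S.x_lt
  summ := S.summ
  le_one := S.le_one
  unit_l := S.unit_l
  unit_r := S.unit_r
  rel := S.rel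
  bound k z hz := (S.bound k z hz).trans h

/-- upper limit of a bounded sequence -/
theorem exists_ext (Y : ℕ → ℝ) (h0 : ∀ k, 0 ≤ Y k) (h1 : ∀ k, Y k ≤ 1) :
    ∃ s : ℝ, 0 ≤ s ∧ (∀ δ : ℝ, 0 < δ → ∃ K, ∀ k, K ≤ k → Y k ≤ s + δ) ∧
      (∀ δ : ℝ, 0 < δ → ∀ K, ∃ k, K ≤ k ∧ s - δ < Y k) := by
  set A : Set ℝ := {a | ∃ K, ∀ k, K ≤ k → Y k ≤ a} with hA
  have hne : A.Nonempty := ⟨1, 0, fun k _ => h1 k⟩
  have hlow : ∀ a ∈ A, 0 ≤ a := by
    rintro a ⟨K, hK⟩
    exact (h0 K).trans (hK K le_rfl)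
  have hbd : BddBelow A := ⟨0, hlow⟩
  refine ⟨sInf A, le_csInf hne hlow, ?_, ?_⟩
  · intro δ hδ
    obtain ⟨a, ⟨K, hK⟩, ha⟩ := exists_lt_of_csInf_lt hne (by linarith : sInf A < sInf A + δ)
    exact ⟨K, fun k hk => (hK k hk).trans ha.le⟩
  · intro δ hδ K
    by_contra hcon
    push Not at hcon
    have h2 : sInf A - δ ∈ A := ⟨K, fun k hk => hcon k hk⟩
    have h3 := csInf_le hbd h2
    linarith

namespace Wd

theorem gapS_pos {B : ℝ} (S : Sys B) (k : ℕ) : 0 < gapS S k := by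
  have := S.Nlt k
  unfold gapS
  omega

theorem YS_nonneg {B : ℝ} (S : Sys B) (k : ℕ) : 0 ≤ YS S k := (pow_pos (S.x_pos _) _).le

theorem YS_le_one {B : ℝ} (S : Sys B) (k : ℕ) : YS S k ≤ 1 :=
  pow_le_one₀ (S.x_pos _).le (S.x_lt _).le

/-- a mismatched vertex in a chain with all later quotients `≤ D` -/
theorem mv_sys {lam : ℝ} (hb : Boxes lam) (S : Sys (170919/100000)) (K k : ℕ) (hk : K + 5 ≤ k) (D : ℝ)
    (hD : ∀ j, K ≤ j → YS S j ≤ D) (hm : gapS S (k-1) ≠ gapS S k)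
    (hD2 : D ≤ 17/50 + 1/100000 ∨ 9 * D ≤ 10 * YS S k)
    (hD3 : D ≤ 7501/10000 ∨ D ≤ YS S k + 1/10000) : False := by
  have hY0 : (ofSys S k 4 (by omega)).Y 0 = YS S k := by
    rw [ofSys_Y S k 4 (by omega) 0 (by norm_num)]
    congr 1
  refine mv_all hb (ofSys S k 4 (by omega)) D ?_ ?_ ?_ ?_
  · rw [ofSys_G S k 4 (by omega) _ (by norm_num), ofSys_G S k 4 (by omega) _ (by norm_num)]
    rw [show ((k:ℤ) + -1).toNat = k - 1 by omega, show ((k:ℤ) + 0).toNat = k by omega]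
    exact hm
  · intro i h1 h2
    rw [ofSys_Y S k 4 (by omega) i (by push_cast; omega)]
    exact hD _ (by omega)
  · rw [hY0]
    exact hD2
  · rw [hY0]
    exact hD3

theorem lim_le {lam : ℝ} (hb : Boxes lam) (S : Sys (170919/100000)) (s : ℝ)
    (h1 : ∀ δ : ℝ, 0 < δ → ∃ K, ∀ k, K ≤ k → YS S k ≤ s + δ)
    (h2 : ∀ δ : ℝ, 0 < δ → ∀ K, ∃ k, K ≤ k ∧ s - δ < YS S k) : s ≤ 17/50 := by
  by_contra hcon
  push Not at hcon
  obtain ⟨δ, hδ0, hδ1, hδ2⟩ : ∃ δ : ℝ, 0 < δ ∧ δ ≤ 4/1000000 ∧ δ ≤ s - 17/50 :=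
    ⟨min (4/1000000) (s - 17/50), lt_min (by norm_num) (by linarith), min_le_left _ _, min_le_right _ _⟩
  obtain ⟨K, hK⟩ := h1 δ hδ0
  obtain ⟨k, hk, hYk⟩ := h2 δ hδ0 (K + 20)
  have hup := hK k (by omega)
  have hY : ∀ i : ℤ, -4 ≤ i → (ofSys S k 4 (by omega)).Y i = YS S ((k:ℤ) + i).toNat :=
    fun i hi => ofSys_Y S k 4 (by omega) i (by push_cast; omega)
  have hG : ∀ i : ℤ, -5 ≤ i → (ofSys S k 4 (by omega)).G i = gapS S ((k:ℤ) + i).toNat :=
    fun i hi => ofSys_G S k 4 (by omega) i (by push_cast; omega)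
  have hY0 : (ofSys S k 4 (by omega)).Y 0 = YS S k := by
    rw [hY 0 (by norm_num)]
    congr 1
  have m0 : (ofSys S k 4 (by omega)).G (-1) = (ofSys S k 4 (by omega)).G 0 := by
    rw [hG (-1) (by norm_num), hG 0 (by norm_num), show ((k:ℤ) + -1).toNat = k - 1 by omega,
      show ((k:ℤ) + 0).toNat = k by omega]
    by_contra hm
    exact mv_sys hb S K k (by omega) (s + δ) hK hm (Or.inr (by linarith)) (Or.inr (by linarith))
  have big : 17/50 ≤ (ofSys S k 4 (by omega)).Y 0 := by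
    rw [hY0]
    linarith
  have all : ∀ i : ℤ, -4 ≤ i → i ≤ 4 →
      (ofSys S k 4 (by omega)).Y i ≤ (ofSys S k 4 (by omega)).Y 0 + 1/100000 := by
    intro i hi1 hi2
    rw [hY i hi1, hY0]
    have := hK ((k:ℤ) + i).toNat (by omega)
    linarith
  obtain ⟨hq, -, hqY⟩ := inU_of hb _ m0 big all
  rw [hqY, hY0] at hq
  -- mismatched vertices have small quotients
  have hmis : ∀ j, K + 5 ≤ j → gapS S (j-1) ≠ gapS S j → YS S j ≤ 9/10 * (YS S k + 1/100000) := by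
    intro j hj hm
    by_contra hc
    push Not at hc
    refine mv_sys hb S K j hj (s + δ) hK hm (Or.inr ?_) (Or.inl ?_)
    · linarith
    · linarith
  refine no_good hb (W := ofSys S k 4 (by omega)) ⟨m0, big, all, ?_⟩
  · intro i hi1 hi2 hm
    rw [hG _ (by omega), hG _ (by omega)] at hm
    rw [hY i hi1, hY0]
    refine hmis _ (by omega) ?_
    rwa [show ((k:ℤ) + (i - 1)).toNat = ((k:ℤ) + i).toNat - 1 by omega] at hm

theorem chain_of_boxes {lam : ℝ} (hb : Boxes lam) : Chain := by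
  intro B S₀ hB
  set S := sysMono S₀ hB with hS
  obtain ⟨s, hs0, h1, h2⟩ := exists_ext (YS S) (YS_nonneg S) (YS_le_one S)
  have hs := lim_le hb S s h1 h2
  obtain ⟨K, hK⟩ := h1 (1/100000) (by norm_num)
  have hm : ∀ k, K + 5 ≤ k → gapS S (k-1) = gapS S k := by
    intro k hk
    by_contra hc
    exact mv_sys hb S K k hk (17/50 + 1/100000) (fun j hj => (hK j hj).trans (by linarith)) hc (Or.inl le_rfl)
      (Or.inl (by norm_num))
  have hgap : ∀ j, gapS S (K + 4 + j) = gapS S (K + 4) := by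
    intro j
    induction j with
    | zero => rfl
    | succ j ih =>
      rw [← ih]
      have := hm (K + 4 + (j+1)) (by omega)
      rw [← this]
      congr 1
  refine ⟨K + 4, gapS S (K + 4), gapS_pos S _, ?_, ?_⟩
  · intro k hk
    have h3 := hgap (k - (K + 4))
    rw [Nat.add_sub_cancel' hk] at h3
    have h4 := S.Nlt k
    unfold gapS at h3
    unfold gapS
    show S.N (k+1) = S.N k + _
    rw [← h3]
    omega
  · intro ε hε
    obtain ⟨K', hK'⟩ := h1 ε hε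
    refine ⟨K' + K + 5, fun k hk => ?_⟩
    have h3 := hK' (k+1) (by omega)
    have h4 := hgap (k - (K + 4))
    have h5 := hgap (k + 1 - (K + 4))
    rw [Nat.add_sub_cancel' (by omega)] at h4 h5
    unfold YS at h3
    rw [Nat.add_sub_cancel, h4, h5, min_self] at h3
    exact h3.trans (by linarith)

end Wd
end Pool.Agent.MaxTerm8
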