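import Pool.Agent.MaxTerm8.Toep

/-! Large quotient at a mismatched vertex, generic ratio. -/

namespace Pool.Agent.MaxTerm8

open Complex ComplexConjugate Pool.Agent.MaxTerm59

private def bI : Fin 6 → ℤ := ![0, 0, 1, 1, 2, 2]

private def bJ : Fin 6 → ℤ := ![0, 1, 0, 1, 0, 1]

private def bG : Fin 6 → ℂ := ![3, 1, 16, 10, 5, 8]

private def bH : Fin 6 → ℂ := ![8, 5, 10, 16, 1, 3]

private def bG' : Fin 6 → ℂ := ![2, 3, -3, 6, -6, 1]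

private def bH' : Fin 6 → ℂ := ![1, -6, 6, -3, 3, 2]

private lemma pair_inj (a b : ℕ) (ha : 0 < a) (hab : a < b) (h2 : b ≠ 2 * a) (i j i' j' : ℤ)
    (hi : -2 ≤ i) (hi2 : i ≤ 2) (hj : -1 ≤ j) (hj2 : j ≤ 1)
    (hi' : -2 ≤ i') (hi2' : i' ≤ 2) (hj' : -1 ≤ j') (hj2' : j' ≤ 1)
    (h : i * (b : ℤ) + j * a = i' * b + j' * a) : i = i' ∧ j = j' := by
  have hA : (0 : ℤ) < a := by exact_mod_cast ha
  have hAB : (a : ℤ) < b := by exact_mod_cast hab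
  have h2' : (b : ℤ) ≠ 2 * a := by exact_mod_cast h2
  have hii : i = i' := by
    have h1 : (i - i') * (b : ℤ) = (j' - j) * a := by linarith
    obtain ⟨u, hu⟩ : ∃ u, u = i - i' := ⟨_, rfl⟩
    obtain ⟨v, hv⟩ : ∃ v, v = j' - j := ⟨_, rfl⟩
    rw [← hu, ← hv] at h1
    have hd1 : -4 ≤ u := by omega
    have hd2 : u ≤ 4 := by omega
    have he1 : -2 ≤ v := by omega
    have he2 : v ≤ 2 := by omega
    have hu0 : u = 0 := by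
      interval_cases u <;> interval_cases v <;> omega
    omega
  subst hii
  refine ⟨rfl, ?_⟩
  have h1 : (j - j') * (a : ℤ) = 0 := by linarith
  rcases mul_eq_zero.1 h1 with h3 | h3
  · omega
  · omega

private lemma bparseval (c : ℤ → ℂ) (hs : Summable fun n => ‖c n‖)
    (hB : ∀ z : ℂ, ‖z‖ = 1 → ‖∑' n : ℤ, c n * z ^ n‖ ≤ 170919 / 100000) (a b : ℕ) (ha : 0 < a)
    (hab : a < b) (h2 : b ≠ 2 * a) :
    ∑ p ∈ (Finset.Icc (-2 : ℤ) 2) ×ˢ (Finset.Icc (-1 : ℤ) 1), ‖c (p.1 * b + p.2 * a)‖ ^ 2 ≤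
      (170919 / 100000 : ℝ) ^ 2 := by
  have h := parseval_le c hs _ hB
    (((Finset.Icc (-2 : ℤ) 2) ×ˢ (Finset.Icc (-1 : ℤ) 1)).image fun p => p.1 * (b : ℤ) + p.2 * a)
  rwa [Finset.sum_image] at h
  rintro ⟨i, j⟩ hp ⟨i', j'⟩ hq hpq
  simp only [Finset.coe_product, Finset.coe_Icc, Set.mem_prod, Set.mem_Icc] at hp hq
  obtain ⟨h3, h4⟩ := pair_inj a b ha hab h2 i j i' j' hp.1.1 hp.1.2 hp.2.1 hp.2.2 hq.1.1 hq.1.2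
    hq.2.1 hq.2.2 hpq
  rw [h3, h4]

private lemma bexpand (w : ℤ → ℤ → ℂ) :
    2 * ∑ p, ∑ q, bG p * bH q * w (bI p - bI q) (bJ p - bJ q) -
      3 * ∑ p, ∑ q, bG' p * bH' q * w (bI p - bI q) (bJ p - bJ q) =
    960 * w 0 0 + 946 * w 1 0 + 617 * w 0 (-1) +
    (166 * w (-1) 0 + 228 * w (-1) (-1) - 24 * w (-2) 0 + 6 * w (-2) (-1) + 106 * w 0 1 -
      68 * w (-1) 1 - 25 * w (-2) 1 + 212 * w 1 (-1) + 284 * w 1 1 + 196 * w 2 0 -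
      58 * w 2 (-1) + 125 * w 2 1) := by
  have hI : bI 0 = 0 ∧ bI 1 = 0 ∧ bI 2 = 1 ∧ bI 3 = 1 ∧ bI 4 = 2 ∧ bI 5 = 2 :=
    ⟨rfl, rfl, rfl, rfl, rfl, rfl⟩
  have hJ : bJ 0 = 0 ∧ bJ 1 = 1 ∧ bJ 2 = 0 ∧ bJ 3 = 1 ∧ bJ 4 = 0 ∧ bJ 5 = 1 :=
    ⟨rfl, rfl, rfl, rfl, rfl, rfl⟩
  have hG : bG 0 = 3 ∧ bG 1 = 1 ∧ bG 2 = 16 ∧ bG 3 = 10 ∧ bG 4 = 5 ∧ bG 5 = 8 :=
    ⟨rfl, rfl, rfl, rfl, rfl, rfl⟩
  have hH : bH 0 = 8 ∧ bH 1 = 5 ∧ bH 2 = 10 ∧ bH 3 = 16 ∧ bH 4 = 1 ∧ bH 5 = 3 :=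
    ⟨rfl, rfl, rfl, rfl, rfl, rfl⟩
  have hG' : bG' 0 = 2 ∧ bG' 1 = 3 ∧ bG' 2 = -3 ∧ bG' 3 = 6 ∧ bG' 4 = -6 ∧ bG' 5 = 1 :=
    ⟨rfl, rfl, rfl, rfl, rfl, rfl⟩
  have hH' : bH' 0 = 1 ∧ bH' 1 = -6 ∧ bH' 2 = 6 ∧ bH' 3 = -3 ∧ bH' 4 = 3 ∧ bH' 5 = 2 :=
    ⟨rfl, rfl, rfl, rfl, rfl, rfl⟩
  obtain ⟨a0, a1, a2, a3, a4, a5⟩ := hI
  obtain ⟨b0, b1, b2, b3, b4, b5⟩ := hJ
  obtain ⟨c0, c1, c2, c3, c4, c5⟩ := hG
  obtain ⟨d0, d1, d2, d3, d4, d5⟩ := hH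
  obtain ⟨e0, e1, e2, e3, e4, e5⟩ := hG'
  obtain ⟨f0, f1, f2, f3, f4, f5⟩ := hH'
  simp only [Fin.sum_univ_six, a0, a1, a2, a3, a4, a5, b0, b1, b2, b3, b4, b5, c0, c1, c2, c3, c4,
    c5, d0, d1, d2, d3, d4, d5, e0, e1, e2, e3, e4, e5, f0, f1, f2, f3, f4, f5]
  norm_num
  ring

private lemma bform (c : ℤ → ℂ) (hs : Summable fun n => ‖c n‖)
    (hB : ∀ z : ℂ, ‖z‖ = 1 → ‖∑' n : ℤ, c n * z ^ n‖ ≤ 170919 / 100000) (a b : ℕ) (ha : 0 < a)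
    (hab : a < b) (h2 : b ≠ 2 * a) (β γ : ℂ) (hβ : ‖β‖ = 1) (hγ : ‖γ‖ = 1) (G H : Fin 6 → ℂ) :
    ‖∑ p, ∑ q, G p * H q * (β ^ (bI p - bI q) * γ ^ (bJ p - bJ q) *
      c ((bI p - bI q) * b + (bJ p - bJ q) * a))‖ ≤
      170919 / 100000 * (((∑ p, ‖G p‖ ^ 2) + ∑ q, ‖H q‖ ^ 2) / 2) := by
  have hβ0 : β ≠ 0 := by
    intro h
    rw [h, norm_zero] at hβ
    norm_num at hβ
  have hγ0 : γ ≠ 0 := by
    intro h
    rw [h, norm_zero] at hγ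
    norm_num at hγ
  have hinj : Function.Injective fun p : Fin 6 => bI p * (b : ℤ) + bJ p * a := by
    intro p q hpq
    have hr : ∀ p : Fin 6, -2 ≤ bI p ∧ bI p ≤ 2 ∧ -1 ≤ bJ p ∧ bJ p ≤ 1 := by decide
    have hij : ∀ p q : Fin 6, bI p = bI q → bJ p = bJ q → p = q := by decide
    obtain ⟨h3, h4⟩ := pair_inj a b ha hab h2 _ _ _ _ (hr p).1 (hr p).2.1 (hr p).2.2.1 (hr p).2.2.2
      (hr q).1 (hr q).2.1 (hr q).2.2.1 (hr q).2.2.2 hpq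
    exact hij p q h3 h4
  have h := toep_avg c hs _ hB (fun p : Fin 6 => bI p * (b : ℤ) + bJ p * a) hinj
    (fun p => G p * (β ^ bI p * γ ^ bJ p)) (fun q => H q * (β ^ (-bI q) * γ ^ (-bJ q)))
  have e1 : ∀ p q : Fin 6, (G p * (β ^ bI p * γ ^ bJ p)) * (H q * (β ^ (-bI q) * γ ^ (-bJ q))) *
      c ((bI p * (b : ℤ) + bJ p * a) - (bI q * (b : ℤ) + bJ q * a)) =
      G p * H q * (β ^ (bI p - bI q) * γ ^ (bJ p - bJ q) *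
      c ((bI p - bI q) * b + (bJ p - bJ q) * a)) := by
    intro p q
    have : (bI p * (b : ℤ) + bJ p * a) - (bI q * (b : ℤ) + bJ q * a) =
        (bI p - bI q) * b + (bJ p - bJ q) * a := by ring
    rw [this, sub_eq_add_neg (bI p), sub_eq_add_neg (bJ p), zpow_add₀ hβ0, zpow_add₀ hγ0]
    ring
  have e2 : ∀ p : Fin 6, ‖G p * (β ^ bI p * γ ^ bJ p)‖ = ‖G p‖ := by
    intro p
    rw [norm_mul, norm_mul, norm_zpow, norm_zpow, hβ, hγ, one_zpow, one_zpow]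
    ring
  have e3 : ∀ q : Fin 6, ‖H q * (β ^ (-bI q) * γ ^ (-bJ q))‖ = ‖H q‖ := by
    intro p
    rw [norm_mul, norm_mul, norm_zpow, norm_zpow, hβ, hγ, one_zpow, one_zpow]
    ring
  simpa only [e1, e2, e3] using h

private lemma bnorms : (∑ p, ‖bG p‖ ^ 2) = 455 ∧ (∑ p, ‖bH p‖ ^ 2) = 455 ∧
    (∑ p, ‖bG' p‖ ^ 2) = 95 ∧ (∑ p, ‖bH' p‖ ^ 2) = 95 := by
  refine ⟨?_, ?_, ?_, ?_⟩
  · rw [Fin.sum_univ_six]
    show ‖(3 : ℂ)‖ ^ 2 + ‖(1 : ℂ)‖ ^ 2 + ‖(16 : ℂ)‖ ^ 2 + ‖(10 : ℂ)‖ ^ 2 + ‖(5 : ℂ)‖ ^ 2 +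
      ‖(8 : ℂ)‖ ^ 2 = 455
    norm_num
  · rw [Fin.sum_univ_six]
    show ‖(8 : ℂ)‖ ^ 2 + ‖(5 : ℂ)‖ ^ 2 + ‖(10 : ℂ)‖ ^ 2 + ‖(16 : ℂ)‖ ^ 2 + ‖(1 : ℂ)‖ ^ 2 +
      ‖(3 : ℂ)‖ ^ 2 = 455
    norm_num
  · rw [Fin.sum_univ_six]
    show ‖(2 : ℂ)‖ ^ 2 + ‖(3 : ℂ)‖ ^ 2 + ‖(-3 : ℂ)‖ ^ 2 + ‖(6 : ℂ)‖ ^ 2 + ‖(-6 : ℂ)‖ ^ 2 +
      ‖(1 : ℂ)‖ ^ 2 = 95
    norm_num
  · rw [Fin.sum_univ_six]
    show ‖(1 : ℂ)‖ ^ 2 + ‖(-6 : ℂ)‖ ^ 2 + ‖(6 : ℂ)‖ ^ 2 + ‖(-3 : ℂ)‖ ^ 2 + ‖(3 : ℂ)‖ ^ 2 +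
      ‖(2 : ℂ)‖ ^ 2 = 95
    norm_num

private lemma bparseval' (c : ℤ → ℂ) (hs : Summable fun n => ‖c n‖)
    (hB : ∀ z : ℂ, ‖z‖ = 1 → ‖∑' n : ℤ, c n * z ^ n‖ ≤ 170919 / 100000) (a b : ℕ) (ha : 0 < a)
    (hab : a < b) (h2 : b ≠ 2 * a) (x : ℤ → ℤ → ℝ) (hx : ∀ i j, x i j = ‖c (i * b + j * a)‖) :
    x 0 0 ^ 2 + x 1 0 ^ 2 + x 0 (-1) ^ 2 + (x (-1) 0 ^ 2 + x (-1) (-1) ^ 2 + x (-2) 0 ^ 2 +
      x (-2) (-1) ^ 2 + x 0 1 ^ 2 + x (-1) 1 ^ 2 + x (-2) 1 ^ 2 + x 1 (-1) ^ 2 + x 1 1 ^ 2 +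
      x 2 0 ^ 2 + x 2 (-1) ^ 2 + x 2 1 ^ 2) ≤ (170919 / 100000 : ℝ) ^ 2 := by
  have h := bparseval c hs hB a b ha hab h2
  have h' : ∑ p ∈ (Finset.Icc (-2 : ℤ) 2) ×ˢ (Finset.Icc (-1 : ℤ) 1), x p.1 p.2 ^ 2 ≤
      (170919 / 100000 : ℝ) ^ 2 := by
    simpa only [hx] using h
  rw [Finset.sum_product] at h'
  have i1 : (Finset.Icc (-2 : ℤ) 2) = {-2, -1, 0, 1, 2} := by decide
  have i2 : (Finset.Icc (-1 : ℤ) 1) = {-1, 0, 1} := by decide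
  have s3 : ∀ f : ℤ → ℝ, ∑ j ∈ (Finset.Icc (-1 : ℤ) 1), f j = f (-1) + f 0 + f 1 := by
    intro f
    rw [i2, Finset.sum_insert (by decide), Finset.sum_insert (by decide), Finset.sum_singleton]
    ring
  have s5 : ∀ f : ℤ → ℝ, ∑ j ∈ (Finset.Icc (-2 : ℤ) 2), f j = f (-2) + f (-1) + f 0 + f 1 + f 2 := by
    intro f
    rw [i1, Finset.sum_insert (by decide), Finset.sum_insert (by decide),
      Finset.sum_insert (by decide), Finset.sum_insert (by decide), Finset.sum_singleton]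
    ring
  rw [s5] at h'
  simp only [s3] at h'
  linarith

private lemma bcs (x : ℤ → ℤ → ℝ) (S : ℝ)
    (h : x (-1) 0 ^ 2 + x (-1) (-1) ^ 2 + x (-2) 0 ^ 2 +
      x (-2) (-1) ^ 2 + x 0 1 ^ 2 + x (-1) 1 ^ 2 + x (-2) 1 ^ 2 + x 1 (-1) ^ 2 + x 1 1 ^ 2 +
      x 2 0 ^ 2 + x 2 (-1) ^ 2 + x 2 1 ^ 2 ≤ S) :
    (166 * x (-1) 0 + 228 * x (-1) (-1) + 24 * x (-2) 0 + 6 * x (-2) (-1) + 106 * x 0 1 +
      68 * x (-1) 1 + 25 * x (-2) 1 + 212 * x 1 (-1) + 284 * x 1 1 + 196 * x 2 0 +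
      58 * x 2 (-1) + 125 * x 2 1) ^ 2 ≤ 279642 * S := by
  have h1 := Finset.sum_mul_sq_le_sq_mul_sq (Finset.univ : Finset (Fin 12))
    (![166, 228, 24, 6, 106, 68, 25, 212, 284, 196, 58, 125] : Fin 12 → ℝ)
    (![x (-1) 0, x (-1) (-1), x (-2) 0, x (-2) (-1), x 0 1, x (-1) 1, x (-2) 1, x 1 (-1), x 1 1,
      x 2 0, x 2 (-1), x 2 1] : Fin 12 → ℝ)
  have e : ∀ f : Fin 12 → ℝ, ∑ i, f i = f 0 + f 1 + f 2 + f 3 + f 4 + f 5 + f 6 + f 7 + f 8 + f 9 +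
      f 10 + f 11 := by
    intro f
    simp [Fin.sum_univ_succ]
    ring!
  rw [e, e, e] at h1
  have h2 : (166 * x (-1) 0 + 228 * x (-1) (-1) + 24 * x (-2) 0 + 6 * x (-2) (-1) + 106 * x 0 1 +
      68 * x (-1) 1 + 25 * x (-2) 1 + 212 * x 1 (-1) + 284 * x 1 1 + 196 * x 2 0 +
      58 * x 2 (-1) + 125 * x 2 1) ^ 2 ≤
      ((166 : ℝ) ^ 2 + 228 ^ 2 + 24 ^ 2 + 6 ^ 2 + 106 ^ 2 + 68 ^ 2 + 25 ^ 2 + 212 ^ 2 + 284 ^ 2 +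
        196 ^ 2 + 58 ^ 2 + 125 ^ 2) * (x (-1) 0 ^ 2 + x (-1) (-1) ^ 2 + x (-2) 0 ^ 2 +
      x (-2) (-1) ^ 2 + x 0 1 ^ 2 + x (-1) 1 ^ 2 + x (-2) 1 ^ 2 + x 1 (-1) ^ 2 + x 1 1 ^ 2 +
      x 2 0 ^ 2 + x 2 (-1) ^ 2 + x 2 1 ^ 2) := h1
  refine h2.trans ?_
  have h3 : ((166 : ℝ) ^ 2 + 228 ^ 2 + 24 ^ 2 + 6 ^ 2 + 106 ^ 2 + 68 ^ 2 + 25 ^ 2 + 212 ^ 2 +
      284 ^ 2 + 196 ^ 2 + 58 ^ 2 + 125 ^ 2) = 279642 := by norm_num
  rw [h3]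
  exact mul_le_mul_of_nonneg_left h (by norm_num)

/-- **Certificate.** Positions `e (i, j) = i b + j a`, `i = 0, 1, 2`, `j = 0, 1`, in the order
`(0,0), (0,1), (1,0), (1,1), (2,0), (2,1)`. The 15 differences `i b + j a`, `|i| ≤ 2`, `|j| ≤ 1`, are
pairwise distinct (`0 < a < b`, `b ≠ 2 a`). Vectors `G = (3,1,16,10,5,8)`, `G' = (2,3,-3,6,-6,1)`,
`M = 2 G (rev G)^T - 3 G' (rev G')^T` (`rev` = reversed vector, the order of the six positions reversed), so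
`M_(0,0) = 960`, `M_(1,0) = 946`, `M_(0,-1) = 617` (sums of `M_pq` over the pairs with the difference),
`(-1,0): 166, (-1,-1): 228, (-2,0): -24, (-2,-1): 6, (0,1): 106, (-1,1): -68, (-2,1): -25, (1,-1): 212,
(1,1): 284, (2,0): 196, (2,-1): -58, (2,1): 125`; the sum of the squares of these twelve numbers is
`279642 ≤ 528.83^2`.
Phases: `β = conj (c b) c 0`, `γ = c (-a) conj (c 0) / ‖c (-a)‖`, `χ (i, j) = β^i γ^j`; apply `toep` to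
`g p = G p χ p`, `h q = rev G q conj (χ q)` (and to `G'`): with `t = ‖c (-a)‖`,
`1.70919 (2 * 455 + 3 * 95) ≥ |∑ M_pq χ_p conj χ_q c (e p - e q)| ≥ 960 + 946 + 617 t - 528.83 √(1.70919^2 - 2 - t^2)`
(`parseval_le` for the 15 differences, Cauchy-Schwarz for the twelve unknown coefficients). The right side
is increasing in `t`; at `t = .76` it is `2374.92 - 528.83 * .58629 ≥ 2064.8`, the left side is `≤ 2042.5`.
(`t ≤ 1`, or `t^2 ≤ 1.70919^2 - 2` by `parseval_le`.) -/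
theorem bigT_gen (c : ℤ → ℂ) (hs : Summable fun n => ‖c n‖)
    (hB : ∀ z : ℂ, ‖z‖ = 1 → ‖∑' n : ℤ, c n * z ^ n‖ ≤ 170919 / 100000) (a b : ℕ) (ha : 0 < a)
    (hab : a < b) (h2 : b ≠ 2 * a) (h0 : ‖c 0‖ = 1) (hb : ‖c b‖ = 1) : ‖c (-(a : ℤ))‖ < 19 / 25 := by
  by_contra hcon
  rw [not_lt] at hcon
  set t : ℝ := ‖c (-(a : ℤ))‖ with ht
  have ht0 : 0 < t := by linarith
  have htc : (t : ℂ) ≠ 0 := by exact_mod_cast ht0.ne'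
  set β : ℂ := conj (c b) * c 0 with hβd
  set γ : ℂ := c (-(a : ℤ)) * conj (c 0) / t with hγd
  have hβ : ‖β‖ = 1 := by
    rw [hβd, norm_mul, RCLike.norm_conj, hb, h0, one_mul]
  have hγ : ‖γ‖ = 1 := by
    rw [hγd, norm_div, norm_mul, RCLike.norm_conj, h0, mul_one, ← ht, Complex.norm_real,
      Real.norm_of_nonneg ht0.le, div_self ht0.ne']
  have hγ0 : γ ≠ 0 := by
    intro h
    rw [h, norm_zero] at hγ
    norm_num at hγ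
  have hc0 : conj (c 0) * c 0 = 1 := by
    rw [← Complex.normSq_eq_conj_mul_self, Complex.normSq_eq_norm_sq, h0]
    norm_num
  have hcb : conj (c b) * c b = 1 := by
    rw [← Complex.normSq_eq_conj_mul_self, Complex.normSq_eq_norm_sq, hb]
    norm_num
  set w : ℤ → ℤ → ℂ := fun i j => β ^ i * γ ^ j * c (i * b + j * a) with hw
  set x : ℤ → ℤ → ℝ := fun i j => ‖c (i * b + j * a)‖ with hx
  have hwx : ∀ i j, ‖w i j‖ = x i j := by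
    intro i j
    simp only [hw, hx]
    rw [norm_mul, norm_mul, norm_zpow, norm_zpow, hβ, hγ, one_zpow, one_zpow]
    ring
  have w00 : w 0 0 = c 0 := by
    simp [hw]
  have w10 : w 1 0 = c 0 := by
    have : w 1 0 = β * c b := by simp [hw]
    rw [this, hβd]
    linear_combination (c 0) * hcb
  have w01 : w 0 (-1) = t * c 0 := by
    have h3 : w 0 (-1) = γ⁻¹ * c (-(a : ℤ)) := by simp [hw]
    rw [h3, inv_mul_eq_iff_eq_mul₀ hγ0, hγd]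
    field_simp
    linear_combination -(c (-(a : ℤ))) * hc0
  have x00 : x 0 0 = 1 := by rw [← hwx, w00, h0]
  have x10 : x 1 0 = 1 := by rw [← hwx, w10, h0]
  have x01 : x 0 (-1) = t := by
    rw [← hwx, w01, norm_mul, h0, Complex.norm_real, Real.norm_of_nonneg ht0.le, mul_one]
  have hP := bparseval' c hs hB a b ha hab h2 x (fun i j => rfl)
  rw [x00, x10, x01] at hP
  obtain ⟨n1, n2, n3, n4⟩ := bnorms
  have hS1 := bform c hs hB a b ha hab h2 β γ hβ hγ bG bH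
  have hS2 := bform c hs hB a b ha hab h2 β γ hβ hγ bG' bH'
  rw [n1, n2] at hS1
  rw [n3, n4] at hS2
  have hex := bexpand w
  set S1 : ℂ := ∑ p, ∑ q, bG p * bH q * w (bI p - bI q) (bJ p - bJ q) with hS1d
  set S2 : ℂ := ∑ p, ∑ q, bG' p * bH' q * w (bI p - bI q) (bJ p - bJ q) with hS2d
  have hS1' : ‖S1‖ ≤ 170919 / 100000 * ((455 + 455) / 2) := by
    rw [hS1d]; simpa [hw] using hS1
  have hS2' : ‖S2‖ ≤ 170919 / 100000 * ((95 + 95) / 2) := by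
    rw [hS2d]; simpa [hw] using hS2
  set R : ℂ := (166 * w (-1) 0 + 228 * w (-1) (-1) - 24 * w (-2) 0 + 6 * w (-2) (-1) +
    106 * w 0 1 - 68 * w (-1) 1 - 25 * w (-2) 1 + 212 * w 1 (-1) + 284 * w 1 1 + 196 * w 2 0 -
      58 * w 2 (-1) + 125 * w 2 1) with hR
  set s : ℝ := (166 * x (-1) 0 + 228 * x (-1) (-1) + 24 * x (-2) 0 + 6 * x (-2) (-1) + 106 * x 0 1 +
      68 * x (-1) 1 + 25 * x (-2) 1 + 212 * x 1 (-1) + 284 * x 1 1 + 196 * x 2 0 +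
      58 * x 2 (-1) + 125 * x 2 1) with hsd
  have hm : ∀ (k : ℝ) (i j : ℤ), 0 ≤ k → ‖(k : ℂ) * w i j‖ ≤ k * x i j := by
    intro k i j hk
    rw [norm_mul, hwx, Complex.norm_real, Real.norm_of_nonneg hk]
  have hRs : ‖R‖ ≤ s := by
    rw [hR, hsd]
    refine (norm_add_le _ _).trans (add_le_add ?_ (by simpa using hm 125 2 1 (by norm_num)))
    refine (norm_sub_le _ _).trans (add_le_add ?_ (by simpa using hm 58 2 (-1) (by norm_num)))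
    refine (norm_add_le _ _).trans (add_le_add ?_ (by simpa using hm 196 2 0 (by norm_num)))
    refine (norm_add_le _ _).trans (add_le_add ?_ (by simpa using hm 284 1 1 (by norm_num)))
    refine (norm_add_le _ _).trans (add_le_add ?_ (by simpa using hm 212 1 (-1) (by norm_num)))
    refine (norm_sub_le _ _).trans (add_le_add ?_ (by simpa using hm 25 (-2) 1 (by norm_num)))
    refine (norm_sub_le _ _).trans (add_le_add ?_ (by simpa using hm 68 (-1) 1 (by norm_num)))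
    refine (norm_add_le _ _).trans (add_le_add ?_ (by simpa using hm 106 0 1 (by norm_num)))
    refine (norm_add_le _ _).trans (add_le_add ?_ (by simpa using hm 6 (-2) (-1) (by norm_num)))
    refine (norm_sub_le _ _).trans (add_le_add ?_ (by simpa using hm 24 (-2) 0 (by norm_num)))
    refine (norm_add_le _ _).trans (add_le_add ?_ (by simpa using hm 228 (-1) (-1) (by norm_num)))
    simpa using hm 166 (-1) 0 (by norm_num)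
  have hcs := bcs x ((170919 / 100000 : ℝ) ^ 2 - 2 - t ^ 2) (by linarith)
  rw [← hsd] at hcs
  have hs311 : s ≤ 311 := by
    apply le_of_sq_le_sq _ (by norm_num : (0 : ℝ) ≤ 311) |> fun h => h
    nlinarith
  have hkey : (960 + 946 + 617 * t) ≤ ‖2 * S1 - 3 * S2‖ + ‖R‖ := by
    have h4 : ((960 + 946 + 617 * t : ℝ) : ℂ) * c 0 = (2 * S1 - 3 * S2) - R := by
      rw [hex, w00, w10, w01]
      push_cast
      ring
    have h5 : ‖((960 + 946 + 617 * t : ℝ) : ℂ) * c 0‖ = 960 + 946 + 617 * t := by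
      rw [norm_mul, h0, mul_one, Complex.norm_real, Real.norm_of_nonneg (by positivity)]
    rw [← h5, h4]
    exact norm_sub_le _ _
  have h6 : ‖2 * S1 - 3 * S2‖ ≤ 2 * ‖S1‖ + 3 * ‖S2‖ := by
    refine (norm_sub_le _ _).trans (le_of_eq ?_)
    rw [norm_mul, norm_mul]
    norm_num
  linarith

end Pool.Agent.MaxTerm8
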