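import Pool.Agent.MaxTerm8.Toep

/-! Large quotient at a mismatched vertex, ratio two. -/

namespace Pool.Agent.MaxTerm8

open Complex ComplexConjugate Pool.Agent.MaxTerm59

private theorem bt2_sum6 (g h : Fin 6 → ℂ) (c : ℤ → ℂ) :
    ∑ p : Fin 6, ∑ q : Fin 6, g p * h q * c (((p : ℕ) : ℤ) - ((q : ℕ) : ℤ)) =
      (g 0 * h 0 + g 1 * h 1 + g 2 * h 2 + g 3 * h 3 + g 4 * h 4 + g 5 * h 5) * c 0 +
      (g 2 * h 0 + g 3 * h 1 + g 4 * h 2 + g 5 * h 3) * c 2 +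
      (g 0 * h 1 + g 1 * h 2 + g 2 * h 3 + g 3 * h 4 + g 4 * h 5) * c (-1) +
      ((g 0 * h 2 + g 1 * h 3 + g 2 * h 4 + g 3 * h 5) * c (-2) +
      (g 0 * h 3 + g 1 * h 4 + g 2 * h 5) * c (-3) +
      (g 0 * h 4 + g 1 * h 5) * c (-4) +
      (g 0 * h 5) * c (-5) +
      (g 1 * h 0 + g 2 * h 1 + g 3 * h 2 + g 4 * h 3 + g 5 * h 4) * c 1 +
      (g 3 * h 0 + g 4 * h 1 + g 5 * h 2) * c 3 +
      (g 4 * h 0 + g 5 * h 1) * c 4 +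
      (g 5 * h 0) * c 5) := by
  simp only [Fin.sum_univ_six]
  norm_num
  ring

private theorem bt2_cs (K d : Fin 8 → ℂ) :
    ‖∑ i, K i * d i‖ ^ 2 ≤ (∑ i, ‖K i‖ ^ 2) * ∑ i, ‖d i‖ ^ 2 := by
  have h1 : ‖∑ i, K i * d i‖ ≤ ∑ i, ‖K i‖ * ‖d i‖ := by
    refine (norm_sum_le _ _).trans (le_of_eq ?_)
    simp
  calc ‖∑ i, K i * d i‖ ^ 2 ≤ (∑ i, ‖K i‖ * ‖d i‖) ^ 2 := by
        exact pow_le_pow_left₀ (norm_nonneg _) h1 2
    _ ≤ _ := Finset.sum_mul_sq_le_sq_mul_sq _ _ _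

private theorem bt2_pars (c : ℤ → ℂ) (hs : Summable fun n => ‖c n‖)
    (hB : ∀ z : ℂ, ‖z‖ = 1 → ‖∑' n : ℤ, c n * z ^ n‖ ≤ 170919 / 100000) (h0 : c 0 = 1)
    (h2 : c 2 = 1) (ht : 19 / 25 ≤ ‖c (-1)‖) :
    ∑ i, ‖(![c (-2), c (-3), c (-4), c (-5), c 1, c 3, c 4, c 5] : Fin 8 → ℂ) i‖ ^ 2 ≤
      (58629 / 100000 : ℝ) ^ 2 := by
  have h := parseval_le c hs _ hB {-5, -4, -3, -2, -1, 0, 1, 2, 3, 4, 5}
  have h5 : (19 / 25 : ℝ) ^ 2 ≤ ‖c (-1)‖ ^ 2 := pow_le_pow_left₀ (by norm_num) ht 2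
  rw [Finset.sum_insert (by decide), Finset.sum_insert (by decide), Finset.sum_insert (by decide),
    Finset.sum_insert (by decide), Finset.sum_insert (by decide), Finset.sum_insert (by decide),
    Finset.sum_insert (by decide), Finset.sum_insert (by decide), Finset.sum_insert (by decide),
    Finset.sum_insert (by decide), Finset.sum_singleton, h0, h2, norm_one] at h
  simp only [Fin.sum_univ_eight]
  simp
  norm_num at h h5 ⊢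
  linarith

private theorem bt2_cert (c : ℤ → ℂ) (hs : Summable fun n => ‖c n‖)
    (hB : ∀ z : ℂ, ‖z‖ = 1 → ‖∑' n : ℤ, c n * z ^ n‖ ≤ 170919 / 100000) (h0 : c 0 = 1)
    (h2 : c 2 = 1) (ht : 19 / 25 ≤ ‖c (-1)‖) (w w' : ℝ) (hw : 0 ≤ w) (hw' : 0 ≤ w')
    (g h g' h' : Fin 6 → ℂ) (K0 K2 Km : ℂ) (K : Fin 8 → ℂ) (N U : ℝ)
    (hN : w * ((∑ p, ‖g p‖ ^ 2) + ∑ q, ‖h q‖ ^ 2) + w' * ((∑ p, ‖g' p‖ ^ 2) + ∑ q, ‖h' q‖ ^ 2) ≤ N)
    (hU0 : 0 ≤ U) (hU : ∑ i, ‖K i‖ ^ 2 ≤ U ^ 2)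
    (e0 : w * (g 0 * h 0 + g 1 * h 1 + g 2 * h 2 + g 3 * h 3 + g 4 * h 4 + g 5 * h 5) +
      w' * (g' 0 * h' 0 + g' 1 * h' 1 + g' 2 * h' 2 + g' 3 * h' 3 + g' 4 * h' 4 + g' 5 * h' 5) = K0)
    (e2 : w * (g 2 * h 0 + g 3 * h 1 + g 4 * h 2 + g 5 * h 3) +
      w' * (g' 2 * h' 0 + g' 3 * h' 1 + g' 4 * h' 2 + g' 5 * h' 3) = K2)
    (em : w * (g 0 * h 1 + g 1 * h 2 + g 2 * h 3 + g 3 * h 4 + g 4 * h 5) +
      w' * (g' 0 * h' 1 + g' 1 * h' 2 + g' 2 * h' 3 + g' 3 * h' 4 + g' 4 * h' 5) = Km)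
    (f0 : w * (g 0 * h 2 + g 1 * h 3 + g 2 * h 4 + g 3 * h 5) +
      w' * (g' 0 * h' 2 + g' 1 * h' 3 + g' 2 * h' 4 + g' 3 * h' 5) = K 0)
    (f1 : w * (g 0 * h 3 + g 1 * h 4 + g 2 * h 5) + w' * (g' 0 * h' 3 + g' 1 * h' 4 + g' 2 * h' 5) = K 1)
    (f2 : w * (g 0 * h 4 + g 1 * h 5) + w' * (g' 0 * h' 4 + g' 1 * h' 5) = K 2)
    (f3 : w * (g 0 * h 5) + w' * (g' 0 * h' 5) = K 3)
    (f4 : w * (g 1 * h 0 + g 2 * h 1 + g 3 * h 2 + g 4 * h 3 + g 5 * h 4) +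
      w' * (g' 1 * h' 0 + g' 2 * h' 1 + g' 3 * h' 2 + g' 4 * h' 3 + g' 5 * h' 4) = K 4)
    (f5 : w * (g 3 * h 0 + g 4 * h 1 + g 5 * h 2) + w' * (g' 3 * h' 0 + g' 4 * h' 1 + g' 5 * h' 2) = K 5)
    (f6 : w * (g 4 * h 0 + g 5 * h 1) + w' * (g' 4 * h' 0 + g' 5 * h' 1) = K 6)
    (f7 : w * (g 5 * h 0) + w' * (g' 5 * h' 0) = K 7) :
    K0.re + K2.re + (Km.re * (c (-1)).re - Km.im * (c (-1)).im) ≤
      170919 / 100000 * (N / 2) + U * (58629 / 100000) := by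
  have he : Function.Injective (fun p : Fin 6 => ((p : ℕ) : ℤ)) := by
    intro a b hab
    have hab' : ((a : ℕ) : ℤ) = ((b : ℕ) : ℤ) := hab
    exact Fin.ext (by exact_mod_cast hab')
  have h1 := toep_avg c hs _ hB (fun p : Fin 6 => ((p : ℕ) : ℤ)) he g h
  have h1' := toep_avg c hs _ hB (fun p : Fin 6 => ((p : ℕ) : ℤ)) he g' h'
  rw [bt2_sum6] at h1 h1'
  set X := ∑ p : Fin 6, ‖g p‖ ^ 2
  set Y := ∑ p : Fin 6, ‖h p‖ ^ 2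
  set X' := ∑ p : Fin 6, ‖g' p‖ ^ 2
  set Y' := ∑ p : Fin 6, ‖h' p‖ ^ 2
  set D : Fin 8 → ℂ := ![c (-2), c (-3), c (-4), c (-5), c 1, c 3, c 4, c 5] with hD
  have hP : ∑ i, ‖D i‖ ^ 2 ≤ (58629 / 100000 : ℝ) ^ 2 := bt2_pars c hs hB h0 h2 ht
  have hC := bt2_cs K D
  have hT : ‖∑ i, K i * D i‖ ≤ U * (58629 / 100000) := by
    refine abs_le_of_sq_le_sq' ?_ (by positivity) |>.2
    calc ‖∑ i, K i * D i‖ ^ 2 ≤ (∑ i, ‖K i‖ ^ 2) * ∑ i, ‖D i‖ ^ 2 := hC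
      _ ≤ U ^ 2 * (58629 / 100000 : ℝ) ^ 2 :=
        mul_le_mul hU hP (Finset.sum_nonneg fun i _ => by positivity) (by positivity)
      _ = _ := by ring
  have hexp : ∑ i, K i * D i = K 0 * c (-2) + K 1 * c (-3) + K 2 * c (-4) + K 3 * c (-5) +
      K 4 * c 1 + K 5 * c 3 + K 6 * c 4 + K 7 * c 5 := by
    rw [Fin.sum_univ_eight]
    simp [hD]
  rw [h0, h2] at h1 h1'
  set A := (g 0 * h 0 + g 1 * h 1 + g 2 * h 2 + g 3 * h 3 + g 4 * h 4 + g 5 * h 5) * 1 +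
      (g 2 * h 0 + g 3 * h 1 + g 4 * h 2 + g 5 * h 3) * 1 +
      (g 0 * h 1 + g 1 * h 2 + g 2 * h 3 + g 3 * h 4 + g 4 * h 5) * c (-1) +
      ((g 0 * h 2 + g 1 * h 3 + g 2 * h 4 + g 3 * h 5) * c (-2) +
      (g 0 * h 3 + g 1 * h 4 + g 2 * h 5) * c (-3) +
      (g 0 * h 4 + g 1 * h 5) * c (-4) +
      (g 0 * h 5) * c (-5) +
      (g 1 * h 0 + g 2 * h 1 + g 3 * h 2 + g 4 * h 3 + g 5 * h 4) * c 1 +
      (g 3 * h 0 + g 4 * h 1 + g 5 * h 2) * c 3 +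
      (g 4 * h 0 + g 5 * h 1) * c 4 +
      (g 5 * h 0) * c 5) with hA
  set A' := (g' 0 * h' 0 + g' 1 * h' 1 + g' 2 * h' 2 + g' 3 * h' 3 + g' 4 * h' 4 + g' 5 * h' 5) * 1 +
      (g' 2 * h' 0 + g' 3 * h' 1 + g' 4 * h' 2 + g' 5 * h' 3) * 1 +
      (g' 0 * h' 1 + g' 1 * h' 2 + g' 2 * h' 3 + g' 3 * h' 4 + g' 4 * h' 5) * c (-1) +
      ((g' 0 * h' 2 + g' 1 * h' 3 + g' 2 * h' 4 + g' 3 * h' 5) * c (-2) +
      (g' 0 * h' 3 + g' 1 * h' 4 + g' 2 * h' 5) * c (-3) +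
      (g' 0 * h' 4 + g' 1 * h' 5) * c (-4) +
      (g' 0 * h' 5) * c (-5) +
      (g' 1 * h' 0 + g' 2 * h' 1 + g' 3 * h' 2 + g' 4 * h' 3 + g' 5 * h' 4) * c 1 +
      (g' 3 * h' 0 + g' 4 * h' 1 + g' 5 * h' 2) * c 3 +
      (g' 4 * h' 0 + g' 5 * h' 1) * c 4 +
      (g' 5 * h' 0) * c 5) with hA'
  have hL : (w : ℂ) * A + w' * A' = K0 + K2 + Km * c (-1) + ∑ i, K i * D i := by
    rw [hexp, ← e0, ← e2, ← em, ← f0, ← f1, ← f2, ← f3, ← f4, ← f5, ← f6, ← f7, hA, hA']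
    ring
  have hn : ‖(w : ℂ) * A + w' * A'‖ ≤ 170919 / 100000 * (N / 2) := by
    calc ‖(w : ℂ) * A + w' * A'‖ ≤ ‖(w : ℂ) * A‖ + ‖(w' : ℂ) * A'‖ := norm_add_le _ _
      _ = w * ‖A‖ + w' * ‖A'‖ := by
        rw [norm_mul, norm_mul, Complex.norm_real, Complex.norm_real, Real.norm_of_nonneg hw,
          Real.norm_of_nonneg hw']
      _ ≤ w * (170919 / 100000 * ((X + Y) / 2)) + w' * (170919 / 100000 * ((X' + Y') / 2)) :=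
        add_le_add (mul_le_mul_of_nonneg_left h1 hw) (mul_le_mul_of_nonneg_left h1' hw')
      _ = 170919 / 100000 * ((w * (X + Y) + w' * (X' + Y')) / 2) := by ring
      _ ≤ _ := by
        refine mul_le_mul_of_nonneg_left ?_ (by norm_num)
        linarith
  have hr := (Complex.re_le_norm ((w : ℂ) * A + w' * A')).trans hn
  rw [hL] at hr
  have hr2 := Complex.abs_re_le_norm (∑ i, K i * D i)
  have hr3 := neg_abs_le (∑ i, K i * D i).re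
  simp only [Complex.add_re, Complex.mul_re] at hr
  linarith

/-- **Certificate A** (positions `e p = p`, `p = 0, ..., 5`): `L = 19 ∑ g_p h_q c_(p-q) + 31 ∑ g'_p h'_q c_(p-q)`,
`g = (-7, -2-4i, 6-5i, -14-6i, 15-3i, -2i)`, `h = (2i, -15+4i, 15+4i, -6+6i, 3+4i, 7-i)`,
`g' = (3+i, 4-2i, 15-8i, 14+3i, 5-6i, 7-i)`, `h' = (7+2i, 8-3i, 10+9i, 17, 5, 2+2i)`. Coefficients of `c_d` in `L`:
`d = 0: 23215+1807i, 2: 23782-969i, -1: 16603-6008i, -2: 3201-758i, -3: 5318-1306i, -4: 96-747i,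
-5: -807+381i, 1: 5263-1077i, 3: 2316+2102i, 4: 3366-751i, 5: 1657+217i`. `|L| ≤ 1.70919 * 62611/2`
(`toep_avg`); sum of the squared moduli of the unknown coefficients (`d ≠ 0, 2, -1`) is `95499413 ≤ 9772.4^2`;
`∑_{d ≠ 0,2,-1} |c_d|^2 ≤ 1.70919^2 - 2 - .76^2 ≤ .58629^2`. So
`Re (L) ≥ 23215 + 23782 + 16603 x + 6008 y - 9772.4 * .58629`, `c_(-1) = x + iy`, and therefore
`16603 x + 6008 y ≤ 12240`. -/
theorem bigT_A (c : ℤ → ℂ) (hs : Summable fun n => ‖c n‖)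
    (hB : ∀ z : ℂ, ‖z‖ = 1 → ‖∑' n : ℤ, c n * z ^ n‖ ≤ 170919 / 100000) (h0 : c 0 = 1)
    (h2 : c 2 = 1) (ht : 19 / 25 ≤ ‖c (-1)‖) : 16603 * (c (-1)).re + 6008 * (c (-1)).im ≤ 12240 := by
  have h := bt2_cert c hs hB h0 h2 ht 19 31 (by norm_num) (by norm_num)
    ![⟨-7, 0⟩, ⟨-2, -4⟩, ⟨6, -5⟩, ⟨-14, -6⟩, ⟨15, -3⟩, ⟨0, -2⟩]
    ![⟨0, 2⟩, ⟨-15, 4⟩, ⟨15, 4⟩, ⟨-6, 6⟩, ⟨3, 4⟩, ⟨7, -1⟩]
    ![⟨3, 1⟩, ⟨4, -2⟩, ⟨15, -8⟩, ⟨14, 3⟩, ⟨5, -6⟩, ⟨7, -1⟩]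
    ![⟨7, 2⟩, ⟨8, -3⟩, ⟨10, 9⟩, ⟨17, 0⟩, ⟨5, 0⟩, ⟨2, 2⟩]
    ⟨23215, 1807⟩ ⟨23782, -969⟩ ⟨16603, -6008⟩
    ![⟨3201, -758⟩, ⟨5318, -1306⟩, ⟨96, -747⟩, ⟨-807, 381⟩, ⟨5263, -1077⟩, ⟨2316, 2102⟩,
      ⟨3366, -751⟩, ⟨1657, 217⟩] 62611 (97724 / 10)
    (by simp [Fin.sum_univ_six, Complex.sq_norm, Complex.normSq_apply]; norm_num)
    (by norm_num)
    (by simp [Fin.sum_univ_eight, Complex.sq_norm, Complex.normSq_apply]; norm_num)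
    (by apply Complex.ext <;> simp <;> norm_num)
    (by apply Complex.ext <;> simp <;> norm_num)
    (by apply Complex.ext <;> simp <;> norm_num)
    (by apply Complex.ext <;> simp <;> norm_num)
    (by apply Complex.ext <;> simp <;> norm_num)
    (by apply Complex.ext <;> simp <;> norm_num)
    (by apply Complex.ext <;> simp <;> norm_num)
    (by apply Complex.ext <;> simp <;> norm_num)
    (by apply Complex.ext <;> simp <;> norm_num)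
    (by apply Complex.ext <;> simp <;> norm_num)
    (by apply Complex.ext <;> simp <;> norm_num)
  norm_num at h
  linarith

/-- **Certificate B**: `L = 21 ∑ g_p h_q c_(p-q) + 4 ∑ g'_p h'_q c_(p-q)`,
`g = (2-2i, -1-2i, 7-16i, 14+2i, 1-6i, 7)`, `h = (3+6i, 7-i, 4+14i, 18, 2-2i, 3+i)`,
`g' = (-2-2i, 5-9i, 7+3i, 2-15i, 13+4i, -3i)`, `h' = (3-2i, 2+13i, 15-5i, 8i, 11, -3i)`. Coefficients:
`d = 0: 12968+1636i, 2: 10911-392i, -1: 4511-9059i, -2: 1096-694i, -3: 1727-2203i, -4: -217-463i,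
-5: 144-60i, 1: 1722-1445i, 3: 979+3377i, 4: 2192-479i, 5: 417+846i`. `|L| ≤ 1.70919 * 31213/2`; unknown
coefficients: `33144173 ≤ 5757.1^2`. So `4511 x + 9059 y ≤ 6171`. -/
theorem bigT_B (c : ℤ → ℂ) (hs : Summable fun n => ‖c n‖)
    (hB : ∀ z : ℂ, ‖z‖ = 1 → ‖∑' n : ℤ, c n * z ^ n‖ ≤ 170919 / 100000) (h0 : c 0 = 1)
    (h2 : c 2 = 1) (ht : 19 / 25 ≤ ‖c (-1)‖) : 4511 * (c (-1)).re + 9059 * (c (-1)).im ≤ 6171 := by
  have h := bt2_cert c hs hB h0 h2 ht 21 4 (by norm_num) (by norm_num)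
    ![⟨2, -2⟩, ⟨-1, -2⟩, ⟨7, -16⟩, ⟨14, 2⟩, ⟨1, -6⟩, ⟨7, 0⟩]
    ![⟨3, 6⟩, ⟨7, -1⟩, ⟨4, 14⟩, ⟨18, 0⟩, ⟨2, -2⟩, ⟨3, 1⟩]
    ![⟨-2, -2⟩, ⟨5, -9⟩, ⟨7, 3⟩, ⟨2, -15⟩, ⟨13, 4⟩, ⟨0, -3⟩]
    ![⟨3, -2⟩, ⟨2, 13⟩, ⟨15, -5⟩, ⟨0, 8⟩, ⟨11, 0⟩, ⟨0, -3⟩]
    ⟨12968, 1636⟩ ⟨10911, -392⟩ ⟨4511, -9059⟩
    ![⟨1096, -694⟩, ⟨1727, -2203⟩, ⟨-217, -463⟩, ⟨144, -60⟩, ⟨1722, -1445⟩, ⟨979, 3377⟩,
      ⟨2192, -479⟩, ⟨417, 846⟩] 31213 (57571 / 10)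
    (by simp [Fin.sum_univ_six, Complex.sq_norm, Complex.normSq_apply]; norm_num)
    (by norm_num)
    (by simp [Fin.sum_univ_eight, Complex.sq_norm, Complex.normSq_apply]; norm_num)
    (by apply Complex.ext <;> simp <;> norm_num)
    (by apply Complex.ext <;> simp <;> norm_num)
    (by apply Complex.ext <;> simp <;> norm_num)
    (by apply Complex.ext <;> simp <;> norm_num)
    (by apply Complex.ext <;> simp <;> norm_num)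
    (by apply Complex.ext <;> simp <;> norm_num)
    (by apply Complex.ext <;> simp <;> norm_num)
    (by apply Complex.ext <;> simp <;> norm_num)
    (by apply Complex.ext <;> simp <;> norm_num)
    (by apply Complex.ext <;> simp <;> norm_num)
    (by apply Complex.ext <;> simp <;> norm_num)
  norm_num at h
  linarith

/-- `x, y ≥ 0` and the two inequalities imply `x^2 + y^2 ≤ .55 < .76^2` (vertices `(.7373, 0)`,
`(0, .6813)`, `(.5986, .3832)`). -/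
theorem bigT_poly (x y : ℝ) (hx : 0 ≤ x) (hy : 0 ≤ y) (hA : 16603 * x + 6008 * y ≤ 12240)
    (hB : 4511 * x + 9059 * y ≤ 6171) : x ^ 2 + y ^ 2 < (19 / 25) ^ 2 := by
  nlinarith [mul_nonneg hx (sub_nonneg.2 hA), mul_nonneg hy (sub_nonneg.2 hA),
    mul_nonneg hx (sub_nonneg.2 hB), mul_nonneg hy (sub_nonneg.2 hB), mul_nonneg hx hy,
    mul_nonneg (sub_nonneg.2 hA) (sub_nonneg.2 hB)]

/-- Normalise: replace `c n` by `conj (c 0) β^n c n` with `β^2 = c 0 conj (c 2)` (this makes `c 0 = c 2 = 1`;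
the sign of `β` makes `Re c (-1) ≥ 0`), and by `conj (c n)` (function `conj f(conj z)`) if `Im c (-1) < 0`. -/
theorem bigT_two_one (c : ℤ → ℂ) (hs : Summable fun n => ‖c n‖)
    (hB : ∀ z : ℂ, ‖z‖ = 1 → ‖∑' n : ℤ, c n * z ^ n‖ ≤ 170919 / 100000) (h0 : ‖c 0‖ = 1)
    (h2 : ‖c 2‖ = 1) : ‖c (-1)‖ < 19 / 25 := by
  -- normalised statement
  have key : ∀ d : ℤ → ℂ, (Summable fun n => ‖d n‖) →
      (∀ z : ℂ, ‖z‖ = 1 → ‖∑' n : ℤ, d n * z ^ n‖ ≤ 170919 / 100000) → d 0 = 1 → d 2 = 1 →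
      0 ≤ (d (-1)).re → ‖d (-1)‖ < 19 / 25 := by
    have key1 : ∀ d : ℤ → ℂ, (Summable fun n => ‖d n‖) →
        (∀ z : ℂ, ‖z‖ = 1 → ‖∑' n : ℤ, d n * z ^ n‖ ≤ 170919 / 100000) → d 0 = 1 → d 2 = 1 →
        0 ≤ (d (-1)).re → 0 ≤ (d (-1)).im → ‖d (-1)‖ < 19 / 25 := by
      intro d hds hdB hd0 hd2 hre him
      by_contra hcon
      push Not at hcon
      have hp := bigT_poly _ _ hre him (bigT_A d hds hdB hd0 hd2 hcon) (bigT_B d hds hdB hd0 hd2 hcon)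
      have hsq : ‖d (-1)‖ ^ 2 = (d (-1)).re ^ 2 + (d (-1)).im ^ 2 := by
        rw [Complex.sq_norm, Complex.normSq_apply]; ring
      have : (19 / 25 : ℝ) ^ 2 ≤ ‖d (-1)‖ ^ 2 := pow_le_pow_left₀ (by norm_num) hcon 2
      linarith
    intro d hds hdB hd0 hd2 hre
    rcases le_or_gt 0 (d (-1)).im with him | him
    · exact key1 d hds hdB hd0 hd2 hre him
    · have h := key1 (fun n => conj (d n)) (by simpa using hds) ?_ (by simp [hd0]) (by simp [hd2])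
        (by simpa using hre) (by simpa using him.le)
      · simpa using h
      · intro z hz
        have hz' : ‖conj z‖ = 1 := by simpa using hz
        have hb := hdB (conj z) hz'
        have he : ∑' n : ℤ, (fun n => conj (d n)) n * z ^ n = conj (∑' n : ℤ, d n * (conj z) ^ n) := by
          rw [Complex.conj_tsum]
          refine tsum_congr fun n => ?_
          simp
        rw [he]
        simpa using hb
  have hc0 : c 0 ≠ 0 := by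
    intro h; rw [h] at h0; simp at h0
  obtain ⟨β0, hβ0⟩ : ∃ β : ℂ, β ^ 2 = c 0 * conj (c 2) :=
    ⟨(c 0 * conj (c 2)) ^ (((2 : ℕ) : ℂ)⁻¹), Complex.cpow_nat_inv_pow _ two_ne_zero⟩
  have hmul : ∀ u : ℂ, ‖u‖ = 1 → conj u * u = 1 := by
    intro u hu
    rw [mul_comm, Complex.mul_conj, Complex.normSq_eq_norm_sq, hu]
    simp
  have main : ∀ β : ℂ, β ^ 2 = c 0 * conj (c 2) → 0 ≤ (conj (c 0) * β ^ (-1 : ℤ) * c (-1)).re →
      ‖c (-1)‖ < 19 / 25 := by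
    intro β hβ hre
    have hβn : ‖β‖ = 1 := by
      have h : ‖β‖ ^ 2 = 1 := by
        rw [← norm_pow, hβ, norm_mul, h0, RCLike.norm_conj, h2, mul_one]
      exact (pow_eq_one_iff_of_nonneg (norm_nonneg _) two_ne_zero).1 h
    have hβ0' : β ≠ 0 := by
      intro h; rw [h] at hβn; simp at hβn
    have h := key (fun n => conj (c 0) * β ^ n * c n) ?_ ?_ ?_ ?_ hre
    · simpa [norm_mul, norm_zpow, hβn, h0] using h
    · refine hs.congr fun n => ?_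
      simp [norm_zpow, hβn, h0]
    · intro z hz
      have hz' : ‖β * z‖ = 1 := by rw [norm_mul, hβn, hz, one_mul]
      have hb := hB (β * z) hz'
      have he : ∑' n : ℤ, (fun n => conj (c 0) * β ^ n * c n) n * z ^ n =
          conj (c 0) * ∑' n : ℤ, c n * (β * z) ^ n := by
        rw [← tsum_mul_left]
        refine tsum_congr fun n => ?_
        rw [mul_zpow]
        ring
      rw [he, norm_mul, RCLike.norm_conj, h0, one_mul]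
      exact hb
    · simpa using hmul (c 0) h0
    · have h22 : β ^ (2 : ℤ) = c 0 * conj (c 2) := by
        rw [← hβ]; norm_cast
      show conj (c 0) * β ^ (2 : ℤ) * c 2 = 1
      rw [h22]
      calc conj (c 0) * (c 0 * conj (c 2)) * c 2 = (conj (c 0) * c 0) * (conj (c 2) * c 2) := by ring
        _ = 1 := by rw [hmul _ h0, hmul _ h2, mul_one]
  rcases le_total 0 (conj (c 0) * β0 ^ (-1 : ℤ) * c (-1)).re with h | h
  · exact main β0 hβ0 h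
  · refine main (-β0) (by rw [neg_pow, hβ0]; norm_num) ?_
    have : (-β0) ^ (-1 : ℤ) = -(β0 ^ (-1 : ℤ)) := by
      rw [zpow_neg_one, zpow_neg_one, inv_neg]
    rw [this]
    have h3 : conj (c 0) * -(β0 ^ (-1 : ℤ)) * c (-1) = -(conj (c 0) * β0 ^ (-1 : ℤ) * c (-1)) := by ring
    rw [h3, Complex.neg_re]
    linarith

/-- `cls_bound` (class `0` modulo `a`). -/
theorem bigT_two (c : ℤ → ℂ) (hs : Summable fun n => ‖c n‖)
    (hB : ∀ z : ℂ, ‖z‖ = 1 → ‖∑' n : ℤ, c n * z ^ n‖ ≤ 170919 / 100000) (a : ℕ) (ha : 0 < a)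
    (h0 : ‖c 0‖ = 1) (hb : ‖c ((2 * a : ℕ) : ℤ)‖ = 1) : ‖c (-(a : ℤ))‖ < 19 / 25 := by
  have hinj : Function.Injective fun i : ℤ => (0 : ℤ) + i * a := by
    intro u v huv
    have h1 : u * (a : ℤ) = v * a := by simpa using huv
    exact mul_right_cancel₀ (by exact_mod_cast ha.ne') h1
  have h := bigT_two_one (fun i : ℤ => c (0 + i * a)) (hs.comp_injective hinj) ?_ (by simpa using h0) ?_
  · simpa using h
  · intro z hz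
    exact cls_bound c hs _ hB a ha 0 z hz
  · have : (0 : ℤ) + 2 * (a : ℤ) = ((2 * a : ℕ) : ℤ) := by push_cast; ring
    show ‖c (0 + 2 * (a : ℤ))‖ = 1
    rw [this]; exact hb

end Pool.Agent.MaxTerm8
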