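import Pool.Agent.MaxTerm8.AsmDef
import Pool.Agent.MaxTerm8.BigTGen
import Pool.Agent.MaxTerm8.BigTTwo

namespace Pool.Agent.MaxTerm8
open Pool.Agent.MaxTerm59 Pool.Agent.MaxTerm58

theorem bigT_all (c : ℤ → ℂ) (hs : Summable fun n => ‖c n‖)
    (hB : ∀ z : ℂ, ‖z‖ = 1 → ‖∑' n : ℤ, c n * z ^ n‖ ≤ 170919 / 100000) (a b : ℕ) (ha : 0 < a)
    (hab : a < b) (h0 : ‖c 0‖ = 1) (hb : ‖c b‖ = 1) : ‖c (-(a : ℤ))‖ < 19 / 25 := by
  by_cases h2 : b = 2 * a
  · subst h2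
    exact bigT_two c hs hB a ha h0 hb
  · exact bigT_gen c hs hB a b ha hab h2 h0 hb

/-- translation of a coefficient sequence -/
theorem trans_bound {B : ℝ} (c : ℤ → ℂ) (hB : ∀ z : ℂ, ‖z‖ = 1 → ‖∑' m : ℤ, c m * z ^ m‖ ≤ B) (a : ℤ)
    (z : ℂ) (hz : ‖z‖ = 1) : ‖∑' m : ℤ, c (a + m) * z ^ m‖ ≤ B := by
  have h := hB z hz
  have hz0 : z ≠ 0 := by
    intro h0
    rw [h0, norm_zero] at hz
    exact zero_ne_one hz
  rw [← (Equiv.addLeft a).tsum_eq] at h
  simp only [Equiv.coe_addLeft] at h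
  have h2 : ∀ m : ℤ, c (a + m) * z ^ (a + m) = z ^ a * (c (a + m) * z ^ m) := by
    intro m
    rw [zpow_add₀ hz0]
    ring
  simp only [h2] at h
  rwa [tsum_mul_left, norm_mul, norm_zpow, hz, one_zpow, one_mul] at h

namespace Wd

theorem bigTP : BigTP := by
  intro W hlt hbig
  have hN0 := W.N_succ 0 (by norm_num) (by norm_num)
  have hN1 := W.N_succ (-1) (by norm_num) (by norm_num)
  rw [neg_add_cancel] at hN1
  rw [zero_add] at hN0
  have ha := W.G_pos (-1) (by norm_num) (by norm_num)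
  have hs := W.summ 0 (by norm_num) (by norm_num)
  have h := bigT_all (fun m => W.c 0 (W.N 0 + m)) (hs.comp_injective (add_right_injective (W.N 0)))
    (trans_bound (W.c 0) (W.bound 0 (by norm_num) (by norm_num)) (W.N 0)) (W.G (-1)) (W.G 0) ha hlt
    (by
      show ‖W.c 0 (W.N 0 + 0)‖ = 1
      rw [add_zero]
      exact W.unit_l 0 (by norm_num) (by norm_num))
    (by
      show ‖W.c 0 (W.N 0 + (W.G 0 : ℤ))‖ = 1
      rw [← hN0]
      have := W.unit_r 0 (by norm_num) (by norm_num)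
      rwa [zero_add] at this)
  have h3 := W.next_l 0 (by norm_num) (by norm_num)
  rw [zero_sub] at h3
  have h4 : W.N 0 + -(W.G (-1) : ℤ) = W.N (-1) := by omega
  have h5 : ‖W.c 0 (W.N 0 + -(W.G (-1) : ℤ))‖ < 19/25 := h
  rw [h4, h3] at h5
  unfold Y at hbig
  rw [zero_sub, min_eq_left hlt.le] at hbig
  linarith

end Wd
end Pool.Agent.MaxTerm8
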