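import Pool.Agent.MaxTerm8.WdVVDef
import Pool.Agent.MaxTerm59.ClassFn

namespace Pool.Agent.MaxTerm8
open Pool.Agent.MaxTerm59 Pool.Agent.MaxTerm58
namespace Wd
variable {B : ℝ} {n : ℕ}

theorem vv_norm_r (W : Wd B n) (hn : 1 ≤ n) (h m1 : ℕ)
    (u w s t : ℂ) (hu : ‖u‖ = 1) (hw : ‖w‖ = 1) (ht : ‖t‖ = W.X 1 ^ h) (j : ℕ) :
    ‖W.vv h m1 u w s t j‖ = ‖W.c 1 (W.N 1 + (j * h : ℕ))‖ := by
  have hX := W.X_pos 1 (by omega) (by exact_mod_cast hn)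
  have h1 := W.norm_r 1 (by omega) (by exact_mod_cast hn) (j * h)
  rw [sub_self] at h1
  have e1 : (-(j:ℤ) - (m1:ℤ)).toNat = 0 := by omega
  have e2 : ((j:ℤ)).toNat = j := by omega
  have e3 : W.N 1 + (j:ℤ) * (h:ℤ) = W.N 1 + ((j * h : ℕ) : ℤ) := by push_cast; ring
  have hp : (W.X 1) ^ (j * h) ≠ 0 := (pow_pos hX _).ne'
  unfold vv
  rw [e1, e2, e3, norm_div, norm_mul, norm_mul, norm_mul, norm_zpow, hu, hw, one_zpow, one_mul,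
    one_mul, pow_zero, norm_one, one_mul, norm_pow, ht, ← pow_mul, mul_comm h j, h1]
  field_simp

theorem vv_norm_l (W : Wd B n) (hn : 1 ≤ n) (h m1 : ℕ) (hR : W.G 0 = m1 * h)
    (u w s t : ℂ) (hu : ‖u‖ = 1) (hw : ‖w‖ = 1) (hs : ‖s‖ = W.X 0 ^ h) (j : ℕ) :
    ‖W.vv h m1 u w s t (-(m1 : ℤ) - j)‖ = ‖W.c (-1) (W.N 0 - (j * h : ℕ))‖ := by
  have hX := W.X_pos 0 (by omega) (by omega)
  have h1 := W.norm_l 0 (by omega) (by omega) (j * h)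
  rw [zero_sub] at h1
  have hN := W.N_succ 0 (by omega) (by omega)
  rw [zero_add, hR] at hN
  have e1 : (-(-(m1:ℤ) - (j:ℤ)) - (m1:ℤ)).toNat = j := by omega
  have e2 : (-(m1:ℤ) - (j:ℤ)).toNat = 0 := by omega
  have e3 : W.N 1 + (-(m1:ℤ) - (j:ℤ)) * (h:ℤ) = W.N 0 - ((j * h : ℕ) : ℤ) := by
    rw [hN]; push_cast; ring
  have hp : (W.X 0) ^ (j * h) ≠ 0 := (pow_pos hX _).ne'
  unfold vv
  rw [e1, e2, e3, norm_div, norm_mul, norm_mul, norm_mul, norm_zpow, hu, hw, one_zpow, one_mul,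
    one_mul, pow_zero, norm_one, mul_one, norm_pow, hs, ← pow_mul, mul_comm h j, h1]
  field_simp

theorem vv_norm_m (W : Wd B n) (hn : 1 ≤ n) (h m1 : ℕ)
    (u w s t : ℂ) (hu : ‖u‖ = 1) (hw : ‖w‖ = 1) (j : ℕ) (hj : j ≤ m1) :
    ‖W.vv h m1 u w s t (-(j : ℤ))‖ = ‖W.c 0 (W.N 1 - (j * h : ℕ))‖ := by
  have e1 : (-(-(j:ℤ)) - (m1:ℤ)).toNat = 0 := by omega
  have e2 : (-(j:ℤ)).toNat = 0 := by omega
  have e3 : W.N 1 + (-(j:ℤ)) * (h:ℤ) = W.N 1 - ((j * h : ℕ) : ℤ) := by push_cast; ring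
  unfold vv
  rw [e1, e2, e3, norm_div, norm_mul, norm_mul, norm_mul, norm_zpow, hu, hw, one_zpow, one_mul,
    one_mul, pow_zero, pow_zero, norm_one, one_mul, div_one]

end Wd
end Pool.Agent.MaxTerm8
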