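import Pool.Agent.MaxTerm8.WdVVDef
import Pool.Agent.MaxTerm59.ClassFn

namespace Pool.Agent.MaxTerm8
open Pool.Agent.MaxTerm59 Pool.Agent.MaxTerm58
namespace Wd
variable {B : ℝ} {n : ℕ}

/-- The normalisation: `u = (c 0 (N 1))⁻¹`, `w ^ m1 = c 0 (N 0) / c 0 (N 1)`, `s ^ m1 = q0`,
`t ^ ρ = u w^ρ c 0 (N 2)` (roots: `Complex.cpow_nat_inv_pow`); if `G 1` is not a multiple of `h`, take
`t = X1 ^ h`. Norms: `W.next_l 0`, `W.next_r 1`, `W.unit_l 0`, `W.unit_r 0`. -/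
theorem exists_vv (W : Wd B n) (hn : 1 ≤ n) (h m1 : ℕ) (hh : 0 < h) (hm : 0 < m1)
    (hL : W.G (-1) = m1 * h) (hR : W.G 0 = m1 * h) :
    ∃ u w s t : ℂ, ‖u‖ = 1 ∧ ‖w‖ = 1 ∧ ‖s‖ = W.X 0 ^ h ∧ ‖t‖ = W.X 1 ^ h ∧ s ^ m1 = W.q0 ∧
      W.vv h m1 u w s t (-(2 * m1 : ℤ)) = 1 ∧ W.vv h m1 u w s t (-(m1 : ℤ)) = 1 ∧
      W.vv h m1 u w s t 0 = 1 ∧ ∀ ρ : ℕ, 0 < ρ → W.G 1 = ρ * h → W.vv h m1 u w s t ρ = 1 := by
  have hN0 : W.N 0 = W.N (-1) + (m1 * h : ℕ) := by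
    have h1 := W.N_succ (-1) (by omega) (by omega)
    rw [hL] at h1
    have e : (-1 : ℤ) + 1 = 0 := by norm_num
    rw [e] at h1
    exact h1
  have hN1 : W.N 1 = W.N 0 + (m1 * h : ℕ) := by
    have h1 := W.N_succ 0 (by omega) (by omega)
    rw [hR, zero_add] at h1
    exact h1
  have n1 : ‖W.c 0 (W.N 1)‖ = 1 := by
    have h1 := W.unit_r 0 (by omega) (by omega)
    rwa [zero_add] at h1
  have n0 : ‖W.c 0 (W.N 0)‖ = 1 := W.unit_l 0 (by omega) (by omega)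
  have c1 : W.c 0 (W.N 1) ≠ 0 := by
    intro h0
    rw [h0, norm_zero] at n1
    exact zero_ne_one n1
  have c0 : W.c 0 (W.N 0) ≠ 0 := by
    intro h0
    rw [h0, norm_zero] at n0
    exact zero_ne_one n0
  have hX0 := W.X_pos 0 (by omega) (by omega)
  have hX1 := W.X_pos 1 (by omega) (by omega)
  have nq := W.norm_q0 hn
  have q0ne : W.q0 ≠ 0 := by
    intro h0
    rw [h0, norm_zero] at nq
    exact absurd nq.symm (pow_pos hX0 _).ne'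
  have croot : ∀ (a : ℂ) (m : ℕ), 0 < m → ∃ b : ℂ, b ^ m = a := fun a m hm' =>
    ⟨a ^ ((m : ℂ)⁻¹), Complex.cpow_nat_inv_pow a hm'.ne'⟩
  obtain ⟨w, hw⟩ := croot (W.c 0 (W.N 0) / W.c 0 (W.N 1)) m1 hm
  obtain ⟨s, hs⟩ := croot W.q0 m1 hm
  obtain ⟨u, hu⟩ : ∃ u, u = (W.c 0 (W.N 1))⁻¹ := ⟨_, rfl⟩
  have nu : ‖u‖ = 1 := by
    rw [hu, norm_inv, n1, inv_one]
  have nw : ‖w‖ = 1 := by
    have h1 : ‖w‖ ^ m1 = 1 := by
      rw [← norm_pow, hw, norm_div, n0, n1, div_one]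
    exact (pow_eq_one_iff_of_nonneg (norm_nonneg _) hm.ne').1 h1
  have ns : ‖s‖ = W.X 0 ^ h := by
    have h1 : ‖s‖ ^ m1 = (W.X 0 ^ h) ^ m1 := by
      rw [← norm_pow, hs, nq, hL, ← pow_mul, mul_comm m1 h]
    exact (pow_left_inj₀ (norm_nonneg _) (pow_pos hX0 _).le hm.ne').1 h1
  have wne : w ≠ 0 := by
    intro h0
    rw [h0, norm_zero] at nw
    exact zero_ne_one nw
  -- the three values
  have v0 : ∀ t, W.vv h m1 u w s t 0 = 1 := by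
    intro t
    unfold vv
    have e1 : (-(0 : ℤ) - m1).toNat = 0 := by omega
    rw [e1, hu]
    simp only [zpow_zero, mul_one, zero_mul, add_zero, pow_zero, Int.toNat_zero, div_one]
    exact inv_mul_cancel₀ c1
  have v1 : ∀ t, W.vv h m1 u w s t (-(m1 : ℤ)) = 1 := by
    intro t
    unfold vv
    have e1 : (-(-(m1 : ℤ)) - m1).toNat = 0 := by omega
    have e2 : (-(m1 : ℤ)).toNat = 0 := by omega
    have e3 : W.N 1 + -(m1 : ℤ) * h = W.N 0 := by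
      rw [hN1]
      push_cast
      ring
    rw [e1, e2, e3, zpow_neg, zpow_natCast, hw, hu]
    field_simp
  have v2 : ∀ t, W.vv h m1 u w s t (-(2 * m1 : ℤ)) = 1 := by
    intro t
    unfold vv
    have e1 : (-(-(2 * m1 : ℤ)) - m1).toNat = m1 := by omega
    have e2 : (-(2 * m1 : ℤ)).toNat = 0 := by omega
    have e3 : W.N 1 + -(2 * m1 : ℤ) * h = W.N (-1) := by
      rw [hN1, hN0]
      push_cast
      ring
    have e4 : w ^ (-(2 * m1 : ℤ)) = ((w ^ m1) ^ 2)⁻¹ := by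
      rw [zpow_neg]
      congr 1
      rw [← pow_mul, mul_comm m1 2]
      exact_mod_cast zpow_natCast w (2 * m1)
    rw [e1, e2, e3, e4, hs, hw, hu, pow_zero, mul_one]
    rw [div_eq_one_iff_eq q0ne]
    unfold q0
    field_simp
  by_cases hρ : ∃ ρ : ℕ, 0 < ρ ∧ W.G 1 = ρ * h
  · obtain ⟨ρ, hρ0, hρ1⟩ := hρ
    have hN2 : W.N 2 = W.N 1 + (ρ * h : ℕ) := by
      have h1 := W.N_succ 1 (by omega) (by omega)
      rw [hρ1] at h1
      have e : (1 : ℤ) + 1 = 2 := by norm_num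
      rw [e] at h1
      exact h1
    have n2 : ‖W.c 0 (W.N 2)‖ = W.X 1 ^ (ρ * h) := by
      have h1 := W.next_r 1 (by omega) (by omega)
      rw [hρ1] at h1
      have e : (1 : ℤ) + 1 = 2 := by norm_num
      rw [e, sub_self] at h1
      exact h1
    obtain ⟨t, ht⟩ := croot (u * w ^ ρ * W.c 0 (W.N 2)) ρ hρ0
    have nt : ‖t‖ = W.X 1 ^ h := by
      have h1 : ‖t‖ ^ ρ = (W.X 1 ^ h) ^ ρ := by
        rw [← norm_pow, ht, norm_mul, norm_mul, norm_pow, nu, nw, n2, ← pow_mul, mul_comm ρ h]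
        simp
      exact (pow_left_inj₀ (norm_nonneg _) (pow_pos hX1 _).le hρ0.ne').1 h1
    have tne : t ≠ 0 := by
      intro h0
      rw [h0, norm_zero] at nt
      exact absurd nt.symm.symm (pow_pos hX1 _).ne
    refine ⟨u, w, s, t, nu, nw, ns, nt, hs, v2 t, v1 t, v0 t, fun ρ' hρ'0 hρ'1 => ?_⟩
    have e : ρ' = ρ := by
      have h1 : ρ' * h = ρ * h := hρ'1.symm.trans hρ1
      exact Nat.eq_of_mul_eq_mul_right hh h1
    subst e
    unfold vv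
    have e1 : (-(ρ' : ℤ) - m1).toNat = 0 := by omega
    have e2 : ((ρ' : ℤ)).toNat = ρ' := by omega
    have e3 : W.N 1 + (ρ' : ℤ) * h = W.N 2 := by
      rw [hN2]
      push_cast
      ring
    rw [e1, e2, e3, zpow_natCast, pow_zero, one_mul, ← ht]
    exact div_self (pow_ne_zero _ tne)
  · refine ⟨u, w, s, ((W.X 1 : ℝ) : ℂ) ^ h, nu, nw, ns, ?_, hs, v2 _, v1 _, v0 _,
      fun ρ hρ0 hρ1 => absurd ⟨ρ, hρ0, hρ1⟩ hρ⟩
    rw [norm_pow, Complex.norm_real, Real.norm_eq_abs, abs_of_pos hX1]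

end Wd
end Pool.Agent.MaxTerm8
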