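import Pool.Agent.MaxTerm8.WdVV1
import Pool.Agent.MaxTerm8.WdVV2
import Pool.Agent.MaxTerm8.WdVV3
import Pool.Agent.MaxTerm58.EHyp

namespace Pool.Agent.MaxTerm8
open Pool.Agent.MaxTerm59 Pool.Agent.MaxTerm58
namespace Wd
variable {B : ℝ} {n : ℕ}

/-- values right of the vertex `2` -/
private theorem vv4_eq (W : Wd B n) (hn : 3 ≤ n) (h m1 : ℕ) (hR1 : W.G 1 = 3 * h)
    (u w s t : ℂ) (hu : ‖u‖ = 1) (hw : ‖w‖ = 1) (ht : ‖t‖ = W.X 1 ^ h) (i : ℕ) :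
    ‖W.vv h m1 u w s t (4 + (i:ℤ))‖ = ‖W.c 1 (W.N 2 + ((i + 1) * h : ℕ))‖ := by
  have h1 := W.vv_norm_r (by omega) h m1 u w s t hu hw ht (4 + i)
  have hN := W.N_succ 1 (by omega) (by omega)
  rw [hR1] at hN
  have e : (1:ℤ) + 1 = 2 := by norm_num
  rw [e] at hN
  have e1 : ((4 + i : ℕ) : ℤ) = 4 + (i:ℤ) := by push_cast; ring
  have e2 : W.N 1 + (((4 + i) * h : ℕ) : ℤ) = W.N 2 + (((i + 1) * h : ℕ) : ℤ) := by
    rw [hN]; push_cast; ring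
  rw [e1, e2] at h1
  exact h1

private theorem vv4_le (W : Wd B n) (hn : 3 ≤ n) (h m1 : ℕ) (hR1 : W.G 1 = 3 * h)
    (u w s t : ℂ) (hu : ‖u‖ = 1) (hw : ‖w‖ = 1) (ht : ‖t‖ = W.X 1 ^ h) (D : ℝ) (hD : W.Y 2 ≤ D)
    (i : ℕ) : ‖W.vv h m1 u w s t (4 + (i:ℤ))‖ ^ 3 ≤ D ^ (i + 1) := by
  have hX2 := W.X_pos 2 (by omega) (by omega)
  rw [vv4_eq W hn h m1 hR1 u w s t hu hw ht i]
  have h1 := W.size_r 2 (by omega) (by omega) ((i + 1) * h)
  have e : (2:ℤ) - 1 = 1 := by norm_num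
  rw [e] at h1
  have h2 := W.pow_l_le_Y 2 (by omega) (by omega)
  rw [e, hR1] at h2
  calc ‖W.c 1 (W.N 2 + ((i + 1) * h : ℕ))‖ ^ 3 ≤ (W.X 2 ^ ((i + 1) * h)) ^ 3 :=
        pow_le_pow_left₀ (norm_nonneg _) h1 3
    _ = (W.X 2 ^ (3 * h)) ^ (i + 1) := by
        rw [← pow_mul, ← pow_mul]
        congr 1
        ring
    _ ≤ D ^ (i + 1) := pow_le_pow_left₀ (pow_pos hX2 _).le (h2.trans hD) _

private theorem vv4_le' (W : Wd B n) (hn : 3 ≤ n) (h m1 : ℕ) (hR1 : W.G 1 = 3 * h)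
    (hG2 : W.G 2 = 3 * h)
    (u w s t : ℂ) (hu : ‖u‖ = 1) (hw : ‖w‖ = 1) (ht : ‖t‖ = W.X 1 ^ h) (D : ℝ) (hD : W.Y 2 ≤ D)
    (hD3 : W.Y 3 ≤ D) (i : ℕ) :
    ‖W.vv h m1 u w s t (4 + (i:ℤ))‖ ^ 3 ≤ D ^ (i + 1 + (i - 2)) := by
  rcases Nat.lt_or_ge i 2 with hi | hi
  · have e : i - 2 = 0 := by omega
    rw [e, add_zero]
    exact vv4_le W hn h m1 hR1 u w s t hu hw ht D hD i
  · obtain ⟨k, rfl⟩ : ∃ k, i = k + 2 := ⟨i - 2, by omega⟩
    have hX2 := W.X_pos 2 (by omega) (by omega)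
    have hX3 := W.X_pos 3 (by omega) (by omega)
    rw [vv4_eq W hn h m1 hR1 u w s t hu hw ht (k + 2)]
    have h1 := W.norm_r 2 (by omega) (by omega) ((k + 2 + 1) * h)
    have e : (2:ℤ) - 1 = 1 := by norm_num
    rw [e] at h1
    have hN := W.N_succ 2 (by omega) (by omega)
    rw [hG2] at hN
    have e' : (2:ℤ) + 1 = 3 := by norm_num
    rw [e'] at hN
    have e2 : W.N 2 + (((k + 2 + 1) * h : ℕ) : ℤ) = W.N 3 + ((k * h : ℕ) : ℤ) := by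
      rw [hN]; push_cast; ring
    have h2 := W.size_r 3 (by omega) (by omega) (k * h)
    have e3 : (3:ℤ) - 1 = 2 := by norm_num
    rw [e3] at h2
    have h3 := W.pow_l_le_Y 2 (by omega) (by omega)
    rw [e, hR1] at h3
    have h4 := W.pow_l_le_Y 3 (by omega) (by omega)
    rw [e3, hG2] at h4
    have h5 : ‖W.c 1 (W.N 2 + (((k + 2 + 1) * h : ℕ) : ℤ))‖ ≤ W.X 3 ^ (k * h) * W.X 2 ^ ((k + 2 + 1) * h) := by
      rw [h1, e2]
      exact mul_le_mul_of_nonneg_right h2 (pow_pos hX2 _).le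
    calc ‖W.c 1 (W.N 2 + (((k + 2 + 1) * h : ℕ) : ℤ))‖ ^ 3
        ≤ (W.X 3 ^ (k * h) * W.X 2 ^ ((k + 2 + 1) * h)) ^ 3 := pow_le_pow_left₀ (norm_nonneg _) h5 3
      _ = (W.X 3 ^ (3 * h)) ^ k * (W.X 2 ^ (3 * h)) ^ (k + 2 + 1) := by
          rw [mul_pow, ← pow_mul, ← pow_mul, ← pow_mul, ← pow_mul]
          congr 2 <;> ring
      _ ≤ D ^ k * D ^ (k + 2 + 1) := by
          have hD0 : 0 ≤ D := (pow_pos hX2 _).le.trans (h3.trans hD)
          exact mul_le_mul (pow_le_pow_left₀ (pow_pos hX3 _).le (h4.trans hD3) _)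
            (pow_le_pow_left₀ (pow_pos hX2 _).le (h3.trans hD) _) (pow_nonneg (pow_pos hX2 _).le _)
            (pow_nonneg hD0 _)
      _ = D ^ (k + 2 + 1 + (k + 2 - 2)) := by
          rw [← pow_add]
          congr 1
          omega

/-- Ratio `3`. `u w s t` from `exists_vv` with `h = g`, `m1 = 1` (`s = q0`), `v = W.vv g 1 u w s t`, `v3`: `ρ = 3`.
`t_le`: `‖t‖ = X1^g ≤ Y 1`. `oL`: `‖v (-3-i)‖ = ‖c (-1) (N 0 - (i+2) g)‖ = ‖c (-1) (N (-1) - (i+1) g)‖ ≤ X(-1)^((i+1) g)`.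
`oR0`, `oR1`: `‖v (4+i)‖ = ‖c 1 (N 1 + (4+i) g)‖ = ‖c 1 (N 2 + (1+i) g)‖ ≤ X2^((1+i) g)`, `X2^(3g) ≤ Y 2`; in the matched case
(`G 2 = 3g`) and `i ≥ 2` it is `‖c 2 (N 3 + (i-2) g)‖ X2^((1+i) g) ≤ X3^((i-2) g) X2^((1+i) g)`, `X3^(3g) ≤ Y 3`.
Choose `md = 0` if `G 2 ≠ 3g`, `md = 1` otherwise. -/
theorem hypE3_of_wd (W : Wd (170919/100000) n) (hn : 3 ≤ n) (g : ℕ) (hL : W.G (-1) = g) (hR : W.G 0 = g)
    (hR1 : W.G 1 = 3 * g) (hD : ∀ i : ℤ, -(n:ℤ) ≤ i → i ≤ n → W.Y i ≤ ‖W.q0‖ + 1/100000)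
    (hY1 : W.Y 1 ≤ 9/10 * (‖W.q0‖ + 1/100000))
    (hY2 : W.G 2 ≠ 3 * g → W.Y 2 ≤ 9/10 * (‖W.q0‖ + 1/100000))
    (htl : W.X (-1) ^ g ≤ W.X 1 ^ g) :
    ∃ md t v, (md = 0 ∨ md = 1) ∧ t ≠ 0 ∧ HypE3 md W.q0 t v := by
  have hg : 0 < g := by
    have := W.G_pos (-1) (by omega) (by omega)
    omega
  obtain ⟨u, w, s, t, hu, hw, hs, ht, hs1, v2, v1, v0, v3⟩ :=
    W.exists_vv (by omega) g 1 hg one_pos (by rw [one_mul]; exact hL) (by rw [one_mul]; exact hR)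
  have hsq : s = W.q0 := by simpa using hs1
  have hX1 := W.X_pos 1 (by omega) (by omega)
  have hXm := W.X_pos (-1) (by omega) (by omega)
  have ht0 : t ≠ 0 := by
    intro h0
    rw [h0, norm_zero] at ht
    exact absurd ht (pow_pos hX1 g).ne
  have hY1' : W.X 1 ^ g ≤ W.Y 1 := by
    have h1 := W.pow_l_le_Y 1 (by omega) (by omega)
    have e : (1:ℤ) - 1 = 0 := by norm_num
    rw [e, hR] at h1
    exact h1
  have hoL : ∀ i : ℕ, ‖W.vv g 1 u w s t (-3 - (i : ℤ))‖ ≤ ‖t‖ ^ (i + 1) := by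
    intro i
    have h1 := W.vv_norm_l (by omega) g 1 (by rw [one_mul]; exact hR) u w s t hu hw hs (i + 2)
    have e1 : -((1:ℕ):ℤ) - ((i + 2 : ℕ) : ℤ) = -3 - (i:ℤ) := by push_cast; ring
    have hN := W.N_succ (-1) (by omega) (by omega)
    rw [hL] at hN
    have e : (-1:ℤ) + 1 = 0 := by norm_num
    rw [e] at hN
    have e2 : W.N 0 - (((i + 2) * g : ℕ) : ℤ) = W.N (-1) - (((i + 1) * g : ℕ) : ℤ) := by
      rw [hN]; push_cast; ring
    rw [e1, e2] at h1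
    have h2 := W.size_l (-1) (by omega) (by omega) ((i + 1) * g)
    rw [h1, ht]
    calc _ ≤ W.X (-1) ^ ((i + 1) * g) := h2
      _ = (W.X (-1) ^ g) ^ (i + 1) := by rw [← pow_mul]; congr 1; ring
      _ ≤ (W.X 1 ^ g) ^ (i + 1) := pow_le_pow_left₀ (pow_pos hXm _).le htl _
  have hbd := W.vv_bd (by omega) g 1 hg (by rw [one_mul]; exact hR) u w s t hu hw hs ht
  rw [hsq] at v2 v1 v0 v3 hoL hbd
  by_cases hG : W.G 2 = 3 * g
  · refine ⟨1, t, W.vv g 1 u w W.q0 t, Or.inr rfl, ht0, ?_⟩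
    exact
      { v2 := by simpa using v2
        v1 := by simpa using v1
        v0 := v0
        v3 := by simpa using v3 3 (by norm_num) hR1
        t_le := by rw [ht]; exact hY1'.trans hY1
        oL := hoL
        oR0 := fun h => absurd h one_ne_zero
        oR1 := fun _ i => vv4_le' W hn g 1 hR1 hG u w _ t hu hw ht _ (hD 2 (by omega) (by omega))
          (hD 3 (by omega) (by omega)) i
        bd := hbd }
  · refine ⟨0, t, W.vv g 1 u w W.q0 t, Or.inl rfl, ht0, ?_⟩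
    exact
      { v2 := by simpa using v2
        v1 := by simpa using v1
        v0 := v0
        v3 := by simpa using v3 3 (by norm_num) hR1
        t_le := by rw [ht]; exact hY1'.trans hY1
        oL := hoL
        oR0 := fun _ i => vv4_le W hn g 1 hR1 u w _ t hu hw ht _ (hY2 hG) i
        oR1 := fun h => absurd rfl h
        bd := hbd }

/-- Ratio `3/2`: `g = 2 h`, `G 1 = 3 h`. `u w s t` from `exists_vv` with step `h`, `m1 = 2` (`s ^ 2 = q0`),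
`v = W.vv h 2 u w s t`, `v3`: `ρ = 3`. `t_le`: `‖t‖² = X1^(2h) ≤ Y 1`. `oL`: `‖v (-5-i)‖ = ‖c (-1) (N 0 - (i+3) h)‖ =
‖c (-1) (N (-1) - (i+1) h)‖ ≤ X(-1)^((i+1) h)` and `X(-1) ≤ X 1`. `oR0`, `oR1` as for the ratio `3` with `h` in place of `g`. -/
theorem hypE32_of_wd (W : Wd (170919/100000) n) (hn : 3 ≤ n) (h : ℕ) (hL : W.G (-1) = 2 * h) (hR : W.G 0 = 2 * h)
    (hR1 : W.G 1 = 3 * h) (hD : ∀ i : ℤ, -(n:ℤ) ≤ i → i ≤ n → W.Y i ≤ ‖W.q0‖ + 1/100000)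
    (hY1 : W.Y 1 ≤ 9/10 * (‖W.q0‖ + 1/100000))
    (hY2 : W.G 2 ≠ 3 * h → W.Y 2 ≤ 9/10 * (‖W.q0‖ + 1/100000))
    (htl : W.X (-1) ^ (2 * h) ≤ W.X 1 ^ (2 * h)) :
    ∃ md s t v, (md = 0 ∨ md = 1) ∧ t ≠ 0 ∧ s ^ 2 = W.q0 ∧ HypE32 md s t v := by
  have hh : 0 < h := by
    have := W.G_pos (-1) (by omega) (by omega)
    omega
  obtain ⟨u, w, s, t, hu, hw, hs, ht, hs1, v2, v1, v0, v3⟩ :=
    W.exists_vv (by omega) h 2 hh two_pos hL hR
  have hsq : ‖s‖ ^ 2 = ‖W.q0‖ := by rw [← norm_pow, hs1]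
  have hX1 := W.X_pos 1 (by omega) (by omega)
  have hXm := W.X_pos (-1) (by omega) (by omega)
  have ht0 : t ≠ 0 := by
    intro h0
    rw [h0, norm_zero] at ht
    exact absurd ht (pow_pos hX1 h).ne
  have hY1' : W.X 1 ^ (2 * h) ≤ W.Y 1 := by
    have h1 := W.pow_l_le_Y 1 (by omega) (by omega)
    have e : (1:ℤ) - 1 = 0 := by norm_num
    rw [e, hR] at h1
    exact h1
  have htl' : W.X (-1) ^ h ≤ W.X 1 ^ h := by
    have h1 : (W.X (-1) ^ h) ^ 2 ≤ (W.X 1 ^ h) ^ 2 := by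
      rw [← pow_mul, ← pow_mul, mul_comm h 2]
      exact htl
    exact (pow_le_pow_iff_left₀ (pow_pos hXm _).le (pow_pos hX1 _).le two_ne_zero).1 h1
  have htle : ‖t‖ ^ 2 ≤ 9 / 10 * (‖s‖ ^ 2 + 1 / 100000) := by
    rw [ht, hsq, ← pow_mul, mul_comm h 2]
    exact hY1'.trans hY1
  have hoL : ∀ i : ℕ, ‖W.vv h 2 u w s t (-5 - (i : ℤ))‖ ≤ ‖t‖ ^ (i + 1) := by
    intro i
    have h1 := W.vv_norm_l (by omega) h 2 hR u w s t hu hw hs (i + 3)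
    have e1 : -((2:ℕ):ℤ) - ((i + 3 : ℕ) : ℤ) = -5 - (i:ℤ) := by push_cast; ring
    have hN := W.N_succ (-1) (by omega) (by omega)
    rw [hL] at hN
    have e : (-1:ℤ) + 1 = 0 := by norm_num
    rw [e] at hN
    have e2 : W.N 0 - (((i + 3) * h : ℕ) : ℤ) = W.N (-1) - (((i + 1) * h : ℕ) : ℤ) := by
      rw [hN]; push_cast; ring
    rw [e1, e2] at h1
    have h2 := W.size_l (-1) (by omega) (by omega) ((i + 1) * h)
    rw [h1, ht]
    calc _ ≤ W.X (-1) ^ ((i + 1) * h) := h2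
      _ = (W.X (-1) ^ h) ^ (i + 1) := by rw [← pow_mul]; congr 1; ring
      _ ≤ (W.X 1 ^ h) ^ (i + 1) := pow_le_pow_left₀ (pow_pos hXm _).le htl' _
  have hbd := W.vv_bd (by omega) h 2 hh hR u w s t hu hw hs ht
  rw [← hsq] at hD hY1 hY2
  by_cases hG : W.G 2 = 3 * h
  · refine ⟨1, s, t, W.vv h 2 u w s t, Or.inr rfl, ht0, hs1, ?_⟩
    exact
      { v4 := by simpa using v2
        v2 := by simpa using v1
        v0 := v0
        v3 := by simpa using v3 3 (by norm_num) hR1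
        t_le := htle
        oL := hoL
        oR0 := fun h => absurd h one_ne_zero
        oR1 := fun _ i => vv4_le' W hn h 2 hR1 hG u w _ t hu hw ht _ (hD 2 (by omega) (by omega))
          (hD 3 (by omega) (by omega)) i
        bd := hbd }
  · refine ⟨0, s, t, W.vv h 2 u w s t, Or.inl rfl, ht0, hs1, ?_⟩
    exact
      { v4 := by simpa using v2
        v2 := by simpa using v1
        v0 := v0
        v3 := by simpa using v3 3 (by norm_num) hR1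
        t_le := htle
        oL := hoL
        oR0 := fun _ i => vv4_le W hn h 2 hR1 u w _ t hu hw ht _ (hY2 hG) i
        oR1 := fun h => absurd rfl h
        bd := hbd }

end Wd
end Pool.Agent.MaxTerm8
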