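import Mathlib

/-! Splitting two-sided sums. -/

namespace Pool.Agent.MaxTerm8

private theorem sum_ico_split (f : ℤ → ℂ) (a b : ℕ) :
    ∑ j ∈ Finset.Ico (-(a:ℤ)) b, f j =
      ∑ n ∈ Finset.range b, f (n:ℤ) + ∑ n ∈ Finset.range a, f (-(n:ℤ) - 1) := by
  induction b with
  | zero =>
    simp only [Nat.cast_zero, Finset.range_zero, Finset.sum_empty, zero_add]
    induction a with
    | zero => simp
    | succ a ih =>
      have h : Finset.Ico (-((a + 1 : ℕ) : ℤ)) 0 = insert (-(a:ℤ) - 1) (Finset.Ico (-(a:ℤ)) 0) := by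
        ext x
        simp only [Finset.mem_Ico, Finset.mem_insert]
        push_cast
        omega
      rw [h, Finset.sum_insert (by simp), Finset.sum_range_succ, ih, add_comm]
  | succ b ih =>
    have h : Finset.Ico (-(a:ℤ)) ((b + 1 : ℕ) : ℤ) = insert (b:ℤ) (Finset.Ico (-(a:ℤ)) b) := by
      ext x
      simp only [Finset.mem_Ico, Finset.mem_insert]
      push_cast
      omega
    rw [h, Finset.sum_insert (by simp), Finset.sum_range_succ, ih]
    ring

/-- Hints: `HasSum.of_nat_of_neg_add_one` / `tsum_of_nat_of_neg_add_one`, `Summable.sum_add_tsum_nat_add`,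
after shifting; or `Summable.sum_add_tsum_compl`. -/
theorem tsum_split (f : ℤ → ℂ) (hf : Summable f) (a b : ℕ) :
    ∑' j : ℤ, f j = (∑ j ∈ Finset.Ico (-(a:ℤ)) b, f j) + (∑' i : ℕ, f (-(a:ℤ) - 1 - i)) + ∑' i : ℕ, f ((b:ℤ) + i) := by
  have h1 : Summable fun n : ℕ => f (n:ℤ) := hf.comp_injective Nat.cast_injective
  have h2 : Summable fun n : ℕ => f (-(n:ℤ) - 1) := by
    refine hf.comp_injective (i := fun n : ℕ => -(n:ℤ) - 1) ?_
    intro x y hxy
    have : (x:ℤ) = y := by simpa using hxy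
    exact_mod_cast this
  have e1 : ∑' n : ℕ, f (n:ℤ) = ∑ n ∈ Finset.range b, f (n:ℤ) + ∑' i : ℕ, f ((b:ℤ) + i) := by
    rw [← h1.sum_add_tsum_nat_add b]
    congr 1
    refine tsum_congr fun i => ?_
    congr 1
    push_cast
    ring
  have e2 : ∑' n : ℕ, f (-(n:ℤ) - 1) =
      ∑ n ∈ Finset.range a, f (-(n:ℤ) - 1) + ∑' i : ℕ, f (-(a:ℤ) - 1 - i) := by
    rw [← h2.sum_add_tsum_nat_add a]
    congr 1
    refine tsum_congr fun i => ?_
    congr 1
    push_cast
    ring
  have h3 : HasSum f (∑' n : ℕ, f (n:ℤ) + ∑' n : ℕ, f (-(n:ℤ) - 1)) := by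
    refine HasSum.of_nat_of_neg_add_one h1.hasSum ?_
    have : (fun n : ℕ => f (-((n:ℤ) + 1))) = fun n : ℕ => f (-(n:ℤ) - 1) := by
      funext n
      congr 1
      ring
    rw [this]
    exact h2.hasSum
  rw [h3.tsum_eq, e1, e2, sum_ico_split]
  ring

/-- the form used for family `F3` -/
theorem tsum_split4 (f : ℤ → ℂ) (hf : Summable f) :
    ∑' j : ℤ, f j = f (-2) + f (-1) + f 0 + f 1 + (∑' i : ℕ, f (-3 - (i:ℤ))) + ∑' i : ℕ, f (2 + (i:ℤ)) := by
  have h := tsum_split f hf 2 2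
  rw [sum_ico_split] at h
  simp only [Finset.sum_range_succ, Finset.sum_range_zero] at h
  norm_num at h
  rw [h]
  ring

/-- the form used for family `S` -/
theorem tsum_split5 (f : ℤ → ℂ) (hf : Summable f) :
    ∑' j : ℤ, f j = f (-2) + f (-1) + f 0 + f 1 + f 2 + (∑' i : ℕ, f (-3 - (i:ℤ))) + ∑' i : ℕ, f (3 + (i:ℤ)) := by
  have h := tsum_split f hf 2 3
  rw [sum_ico_split] at h
  simp only [Finset.sum_range_succ, Finset.sum_range_zero] at h
  norm_num at h
  rw [h]
  ring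

end Pool.Agent.MaxTerm8
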