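import Pool.Agent.MaxTerm8.WdVVDef
import Pool.Agent.MaxTerm59.ClassFn

namespace Pool.Agent.MaxTerm8
open Pool.Agent.MaxTerm59 Pool.Agent.MaxTerm58
namespace Wd
variable {B : ℝ} {n : ℕ}

private theorem vv4_key (W : Wd B n) (h m1 : ℕ) (u w s t : ℂ) (hu : ‖u‖ = 1) (hw : ‖w‖ = 1)
    (hs0 : s ≠ 0) (ht0 : t ≠ 0) (a b : ℕ) (j : ℤ) :
    ‖W.vv h m1 u w s t j * (s ^ a * t ^ b)‖ = ‖W.c 0 (W.N 1 + j * h)‖ *
      ‖s‖ ^ ((a : ℤ) - ((-j - m1).toNat : ℤ)) * ‖t‖ ^ ((b : ℤ) - (j.toNat : ℤ)) := by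
  have hs1 : ‖s‖ ≠ 0 := norm_ne_zero_iff.2 hs0
  have ht1 : ‖t‖ ≠ 0 := norm_ne_zero_iff.2 ht0
  unfold vv
  rw [norm_mul, norm_div, norm_mul, norm_mul, norm_mul, norm_mul, norm_pow, norm_pow, norm_pow,
    norm_pow, norm_zpow, hu, hw, one_zpow, one_mul, one_mul, zpow_sub₀ hs1, zpow_sub₀ ht1,
    zpow_natCast, zpow_natCast, zpow_natCast, zpow_natCast]
  field_simp

/-- Summability at the three corners. Proof: as in the docstring of `vv_bd` (WdVV1.lean), the norm of the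
summand is `‖c (X-1) (N 1 + j h)‖` for `X = 0, 1, 2`, and `W.summ` composed with the injection `j ↦ N 1 + j h`
is summable. -/
theorem vv_summ (W : Wd B n) (hn : 1 ≤ n) (h m1 : ℕ) (hh : 0 < h) (hR : W.G 0 = m1 * h)
    (u w s t : ℂ) (hu : ‖u‖ = 1) (hw : ‖w‖ = 1) (hs : ‖s‖ = W.X 0 ^ h) (ht : ‖t‖ = W.X 1 ^ h) :
    ∀ X < 3, Summable fun j : ℤ => ‖W.vv h m1 u w s t j * (s ^ eaZ m1 X j * t ^ ebZ 1 X j)‖ := by
  intro X hX
  have hX0 := W.X_pos 0 (by omega) (by omega)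
  have hX1 := W.X_pos 1 (by omega) (by omega)
  have hs0 : s ≠ 0 := by
    intro h0
    rw [h0, norm_zero] at hs
    exact absurd hs.symm (pow_pos hX0 _).ne'
  have ht0 : t ≠ 0 := by
    intro h0
    rw [h0, norm_zero] at ht
    exact absurd ht.symm (pow_pos hX1 _).ne'
  have hN1 : W.N 1 = W.N 0 + (m1 * h : ℕ) := by
    have h1 := W.N_succ 0 (by omega) (by omega)
    rw [hR, zero_add] at h1
    exact h1
  have hinj : Function.Injective fun j : ℤ => W.N 1 + j * h := by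
    intro a b hab
    have h1 : a * (h : ℤ) = b * h := add_left_cancel hab
    exact mul_right_cancel₀ (by exact_mod_cast hh.ne') h1
  have hX0C : ‖((W.X 0 : ℝ) : ℂ)‖ = W.X 0 := by
    rw [Complex.norm_real, Real.norm_eq_abs, abs_of_pos hX0]
  have hX1C : ‖((W.X 1 : ℝ) : ℂ)‖ = W.X 1 := by
    rw [Complex.norm_real, Real.norm_eq_abs, abs_of_pos hX1]
  have hcases : X = 0 ∨ X = 1 ∨ X = 2 := by omega
  rcases hcases with rfl | rfl | rfl
  · refine ((W.summ (-1) (by omega) (by omega)).comp_injective hinj).congr fun j => ?_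
    rw [vv4_key W h m1 u w s t hu hw hs0 ht0]
    have ea : eaZ m1 0 j = (j + m1).toNat := by
      unfold eaZ
      rw [if_pos rfl]
    have eb : ebZ 1 0 j = j.toNat := by
      unfold ebZ
      rw [if_neg one_ne_zero, if_neg (by omega)]
    have e1 : (((j + m1).toNat : ℕ) : ℤ) - ((-j - m1).toNat : ℤ) = j + m1 := by omega
    rw [ea, eb, e1, sub_self, zpow_zero, mul_one, hs]
    have hrel := W.rel 0 (by omega) (by omega) (W.N 1 + j * h)
    have e2 : W.N 0 - (W.N 1 + j * h) = -((h : ℤ) * (j + m1)) := by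
      rw [hN1]
      push_cast
      ring
    rw [hrel, norm_mul, norm_zpow, hX0C, e2, zero_sub, mul_assoc, ← zpow_natCast, ← zpow_mul,
      ← zpow_add₀ hX0.ne', neg_add_cancel, zpow_zero, mul_one]
    rfl
  · refine ((W.summ 0 (by omega) (by omega)).comp_injective hinj).congr fun j => ?_
    rw [vv4_key W h m1 u w s t hu hw hs0 ht0]
    have ea : eaZ m1 1 j = (-j - m1).toNat := by
      unfold eaZ
      rw [if_neg one_ne_zero]
    have eb : ebZ 1 1 j = j.toNat := by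
      unfold ebZ
      rw [if_neg one_ne_zero, if_neg (by omega)]
    rw [ea, eb, sub_self, sub_self, zpow_zero, zpow_zero, mul_one, mul_one]
    rfl
  · refine ((W.summ 1 (by omega) (by omega)).comp_injective hinj).congr fun j => ?_
    rw [vv4_key W h m1 u w s t hu hw hs0 ht0]
    have ea : eaZ m1 2 j = (-j - m1).toNat := by
      unfold eaZ
      rw [if_neg (by omega)]
    have eb : ebZ 1 2 j = (-j).toNat := by
      unfold ebZ
      rw [if_neg one_ne_zero, if_pos rfl]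
    have e1 : (((-j).toNat : ℕ) : ℤ) - (j.toNat : ℤ) = -j := by omega
    rw [ea, eb, e1, sub_self, zpow_zero, mul_one, ht]
    have hrel := W.rel 1 (by omega) (by omega) (W.N 1 + j * h)
    have e2 : W.N 1 - (W.N 1 + j * h) = (h : ℤ) * -j := by ring
    have e3 : (1 : ℤ) - 1 = 0 := by norm_num
    show ‖W.c 1 (W.N 1 + j * h)‖ = _
    rw [hrel, norm_mul, norm_zpow, hX1C, e2, e3, ← zpow_natCast, ← zpow_mul]

end Wd
end Pool.Agent.MaxTerm8
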