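import Pool.Agent.MaxTerm8.WdVV1
import Pool.Agent.MaxTerm8.WdVV2
import Pool.Agent.MaxTerm8.WdVV3
import Pool.Agent.MaxTerm8.WdVV4
import Pool.Agent.MaxTerm8.WdSplit
import Pool.Agent.MaxTerm58.HypF3

namespace Pool.Agent.MaxTerm8
open Pool.Agent.MaxTerm59 Pool.Agent.MaxTerm58
namespace Wd
variable {B : ℝ} {n : ℕ}

private theorem redF3_sum (f : ℤ → ℂ) (z : ℂ) (hz : ‖z‖ = 1) (hf : Summable fun j => ‖f j‖) (a b c d : ℂ)
    (L R : ℕ → ℂ) (ha : f (-2) = a) (hb : f (-1) = b) (hc : f 0 = c) (hd : f 1 = d)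
    (hL : ∀ i : ℕ, f (-3 - (i:ℤ)) = L i) (hR : ∀ i : ℕ, f (2 + (i:ℤ)) = R i) :
    ∑' j : ℤ, f j * z ^ j = z⁻¹ * (a * z ^ (-1 : ℤ) + b + c * z + d * z ^ 2 +
      (∑' i : ℕ, L i * z ^ (-((i : ℤ) + 2))) + ∑' i : ℕ, R i * z ^ ((i : ℤ) + 3)) := by
  have hz0 : z ≠ 0 := by
    intro h0; rw [h0] at hz; simp at hz
  have hs : Summable fun j : ℤ => f j * z ^ j := by
    apply Summable.of_norm
    refine hf.congr fun j => ?_
    rw [norm_mul, norm_zpow, hz, one_zpow, mul_one]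
  rw [tsum_split4 _ hs, ha, hb, hc, hd]
  simp only [hL, hR]
  have e1 : ∀ i : ℕ, L i * z ^ (-3 - (i:ℤ)) = z⁻¹ * (L i * z ^ (-((i : ℤ) + 2))) := by
    intro i
    rw [show (-3 - (i:ℤ)) = -1 + (-((i : ℤ) + 2)) by ring, zpow_add₀ hz0, zpow_neg_one]
    ring
  have e2 : ∀ i : ℕ, R i * z ^ (2 + (i:ℤ)) = z⁻¹ * (R i * z ^ ((i : ℤ) + 3)) := by
    intro i
    rw [show (2 + (i:ℤ)) = -1 + ((i : ℤ) + 3) by ring, zpow_add₀ hz0, zpow_neg_one]
    ring
  simp only [e1, e2]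
  rw [tsum_mul_left, tsum_mul_left, zpow_zero, zpow_one, zpow_neg_one, zpow_neg, zpow_ofNat]
  field_simp

private theorem redF3_norm {S T z : ℂ} {B : ℝ} (hz : ‖z‖ = 1) (h : ‖S‖ ≤ B) (e : S = z⁻¹ * T) : ‖T‖ ≤ B := by
  rw [e, norm_mul, norm_inv, hz, inv_one, one_mul] at h
  exact h

/-- Matched vertices `0`, `1`. Take `u w s t` from `exists_vv` with `h = g`, `m1 = 1`, `v = W.vv g 1 u w s t`:
`s = q0`, `v (-2) = v (-1) = v 0 = v 1 = 1` (`ρ = 1`). Put `p = t`, `l i = v (-3 - i)`, `r i = v (2 + i)`.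
`p_le`: `‖t‖ = X1^g = Y 1`. `sl`: `vv_norm_l` with `j = i + 2`: `‖l i‖ = ‖c (-1) (N 0 - (i+2) g)‖ = ‖c (-1) (N (-1) - (i+1) g)‖
≤ X(-1)^((i+1) g) = (X(-1)^g)^(i+1)` (`size_l (-1)`, `pow_r_le_Y (-1)`). `sr`: `vv_norm_r` with `j = i + 2`:
`‖c 1 (N 1 + (i+2) g)‖ = ‖c 1 (N 2 + (i+1) g)‖ ≤ X2^((i+1) g)` (`size_r 2`, `pow_l_le_Y 2`). `bA`, `bB`, `bC`: multiply by `z^(-1)`:
`z^(-1) gA z = ∑' j, v j (s^eaZ 1 0 j * t^ebZ 1 0 j) z^j`, same with `X = 1, 2` for `gB`, `gC`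
(`tsum_split4`, `vv_summ`, `vv_bd`). -/
theorem hypF3_of_wd (W : Wd (170919/100000) n) (hn : 2 ≤ n) (g : ℕ) (hL : W.G (-1) = g) (hR : W.G 0 = g)
    (hR1 : W.G 1 = g) (hD : ∀ i : ℤ, -(n:ℤ) ≤ i → i ≤ n → W.Y i ≤ ‖W.q0‖ + 1/100000)
    (hq : ‖W.q0‖ ≤ 3/4) : ∃ p l r, HypF3 W.q0 p l r := by
  have hn1 : 1 ≤ n := by omega
  have hR' : W.G 0 = 1 * g := by rw [one_mul]; exact hR
  have hL' : W.G (-1) = 1 * g := by rw [one_mul]; exact hL
  have hg : 0 < g := hR ▸ W.G_pos 0 (by omega) (by omega)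
  obtain ⟨u, w, s, t, hu, hw, hs, ht, hsq, v2, v1, v0, vρ⟩ := W.exists_vv hn1 g 1 hg one_pos hL' hR'
  have vp := vρ 1 one_pos (by rw [hR1, one_mul])
  rw [pow_one] at hsq
  have v2' : W.vv g 1 u w s t (-2) = 1 := by
    have e : (-(2 * ((1 : ℕ) : ℤ))) = -2 := by norm_num
    rw [e] at v2
    exact v2
  have v1' : W.vv g 1 u w s t (-1) = 1 := by
    have e : (-((1 : ℕ) : ℤ)) = -1 := by norm_num
    rw [e] at v1
    exact v1
  have vp' : W.vv g 1 u w s t 1 = 1 := by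
    have e : ((1 : ℕ) : ℤ) = 1 := by norm_num
    rw [e] at vp
    exact vp
  have hN0 : W.N 0 = W.N (-1) + (g : ℤ) := by
    have h := W.N_succ (-1) (by omega) (by omega)
    rw [hL] at h
    have e : (-1 : ℤ) + 1 = 0 := by norm_num
    rw [e] at h
    exact h
  have hN2 : W.N 2 = W.N 1 + (g : ℤ) := by
    have h := W.N_succ 1 (by omega) (by omega)
    rw [hR1] at h
    have e : (1 : ℤ) + 1 = 2 := by norm_num
    rw [e] at h
    exact h
  refine ⟨t, fun i => W.vv g 1 u w s t (-3 - (i:ℤ)), fun i => W.vv g 1 u w s t (2 + (i:ℤ)), ?_, ?_, ?_, ?_,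
    ?_, ?_, ?_⟩
  · linarith
  · rw [ht]
    have h1 := W.pow_r_le_Y 1 (by omega) (by omega)
    rw [hR1] at h1
    exact h1.trans (hD 1 (by omega) (by omega))
  · intro i
    have h1 := W.vv_norm_l hn1 g 1 hR' u w s t hu hw hs (i + 2)
    have e1 : (-((1 : ℕ) : ℤ) - ((i + 2 : ℕ) : ℤ)) = -3 - (i:ℤ) := by push_cast; ring
    rw [e1] at h1
    rw [h1]
    have e2 : W.N 0 - (((i + 2) * g : ℕ) : ℤ) = W.N (-1) - (((i + 1) * g : ℕ) : ℤ) := by
      rw [hN0]; push_cast; ring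
    rw [e2]
    have h2 := W.size_l (-1) (by omega) (by omega) ((i + 1) * g)
    refine h2.trans ?_
    rw [mul_comm, pow_mul]
    have h3 := W.pow_r_le_Y (-1) (by omega) (by omega)
    rw [hL] at h3
    have h4 := hD (-1) (by omega) (by omega)
    exact pow_le_pow_left₀ (pow_pos (W.X_pos (-1) (by omega) (by omega)) _).le (h3.trans h4) _
  · intro i
    have h1 := W.vv_norm_r hn1 g 1 u w s t hu hw ht (i + 2)
    have e1 : ((i + 2 : ℕ) : ℤ) = 2 + (i:ℤ) := by push_cast; ring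
    rw [e1] at h1
    rw [h1]
    have e2 : W.N 1 + (((i + 2) * g : ℕ) : ℤ) = W.N 2 + (((i + 1) * g : ℕ) : ℤ) := by
      rw [hN2]; push_cast; ring
    rw [e2]
    have h2 := W.size_r 2 (by omega) (by omega) ((i + 1) * g)
    have e3 : (2 : ℤ) - 1 = 1 := by norm_num
    rw [e3] at h2
    refine h2.trans ?_
    rw [mul_comm, pow_mul]
    have h3 := W.pow_l_le_Y 2 (by omega) (by omega)
    rw [e3, hR1] at h3
    have h4 := hD 2 (by omega) (by omega)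
    exact pow_le_pow_left₀ (pow_pos (W.X_pos 2 (by omega) (by omega)) _).le (h3.trans h4) _
  · intro z hz
    have hb := W.vv_bd hn1 g 1 hg hR' u w s t hu hw hs ht 0 (by norm_num) z hz
    have hf := W.vv_summ hn1 g 1 hg hR' u w s t hu hw hs ht 0 (by norm_num)
    refine redF3_norm hz hb ?_
    rw [redF3_sum _ z hz hf 1 1 s (s ^ 2 * t) (fun i => W.vv g 1 u w s t (-3 - (i:ℤ)))
      (fun i => W.vv g 1 u w s t (2 + (i:ℤ)) * (s ^ (i + 3) * t ^ (i + 2)))]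
    · unfold gA
      rw [hsq]
      ring_nf
    · simp only [v2']; simp [eaZ, ebZ]
    · simp only [v1']; simp [eaZ, ebZ]
    · simp only [v0]; simp [eaZ, ebZ]
    · simp only [vp']; simp [eaZ, ebZ]
    · intro i
      have e1 : eaZ 1 0 (-3 - (i:ℤ)) = 0 := by unfold eaZ; rw [if_pos rfl]; omega
      have e2 : ebZ 1 0 (-3 - (i:ℤ)) = 0 := by
        unfold ebZ; rw [if_neg one_ne_zero, if_neg (by norm_num)]; omega
      simp only [e1, e2, pow_zero, mul_one]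
    · intro i
      have e1 : eaZ 1 0 (2 + (i:ℤ)) = i + 3 := by unfold eaZ; rw [if_pos rfl]; omega
      have e2 : ebZ 1 0 (2 + (i:ℤ)) = i + 2 := by
        unfold ebZ; rw [if_neg one_ne_zero, if_neg (by norm_num)]; omega
      simp only [e1, e2]
  · intro z hz
    have hb := W.vv_bd hn1 g 1 hg hR' u w s t hu hw hs ht 1 (by norm_num) z hz
    have hf := W.vv_summ hn1 g 1 hg hR' u w s t hu hw hs ht 1 (by norm_num)
    refine redF3_norm hz hb ?_
    rw [redF3_sum _ z hz hf s 1 1 t (fun i => W.vv g 1 u w s t (-3 - (i:ℤ)) * s ^ (i + 2))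
      (fun i => W.vv g 1 u w s t (2 + (i:ℤ)) * t ^ (i + 2))]
    · unfold gB
      rw [hsq]
      ring_nf
    · simp only [v2']; simp [eaZ, ebZ]
    · simp only [v1']; simp [eaZ, ebZ]
    · simp only [v0]; simp [eaZ, ebZ]
    · simp only [vp']; simp [eaZ, ebZ]
    · intro i
      have e1 : eaZ 1 1 (-3 - (i:ℤ)) = i + 2 := by
        unfold eaZ; rw [if_neg one_ne_zero]; omega
      have e2 : ebZ 1 1 (-3 - (i:ℤ)) = 0 := by
        unfold ebZ; rw [if_neg one_ne_zero, if_neg (by norm_num)]; omega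
      simp only [e1, e2, pow_zero, mul_one]
    · intro i
      have e1 : eaZ 1 1 (2 + (i:ℤ)) = 0 := by
        unfold eaZ; rw [if_neg one_ne_zero]; omega
      have e2 : ebZ 1 1 (2 + (i:ℤ)) = i + 2 := by
        unfold ebZ; rw [if_neg one_ne_zero, if_neg (by norm_num)]; omega
      simp only [e1, e2, pow_zero, one_mul]
  · intro z hz
    have hb := W.vv_bd hn1 g 1 hg hR' u w s t hu hw hs ht 2 (by norm_num) z hz
    have hf := W.vv_summ hn1 g 1 hg hR' u w s t hu hw hs ht 2 (by norm_num)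
    refine redF3_norm hz hb ?_
    rw [redF3_sum _ z hz hf (s * t ^ 2) t 1 1
      (fun i => W.vv g 1 u w s t (-3 - (i:ℤ)) * (s ^ (i + 2) * t ^ (i + 3)))
      (fun i => W.vv g 1 u w s t (2 + (i:ℤ)))]
    · unfold gC
      rw [hsq]
      ring_nf
    · simp only [v2']; simp [eaZ, ebZ]
    · simp only [v1']; simp [eaZ, ebZ]
    · simp only [v0]; simp [eaZ, ebZ]
    · simp only [vp']; simp [eaZ, ebZ]
    · intro i
      have e1 : eaZ 1 2 (-3 - (i:ℤ)) = i + 2 := by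
        unfold eaZ; rw [if_neg two_ne_zero]; omega
      have e2 : ebZ 1 2 (-3 - (i:ℤ)) = i + 3 := by
        unfold ebZ; rw [if_neg one_ne_zero, if_pos rfl]; omega
      simp only [e1, e2]
    · intro i
      have e1 : eaZ 1 2 (2 + (i:ℤ)) = 0 := by
        unfold eaZ; rw [if_neg two_ne_zero]; omega
      have e2 : ebZ 1 2 (2 + (i:ℤ)) = 0 := by
        unfold ebZ; rw [if_neg one_ne_zero, if_pos rfl]; omega
      simp only [e1, e2, pow_zero, mul_one]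

end Wd
end Pool.Agent.MaxTerm8
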