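import Pool.Agent.MaxTerm8.WdVVDef
import Pool.Agent.MaxTerm59.RedI
import Pool.Agent.MaxTerm59.ClassFn

namespace Pool.Agent.MaxTerm8
open Pool.Agent.MaxTerm59 Pool.Agent.MaxTerm58
namespace Wd
variable {B : ℝ} {n : ℕ}

/-- `hypI_of_loc` with the explicit `q` (copy its proof from `MaxTerm59/RedI.lean`; `RedI_core` is public). -/
theorem hypI_of_loc' {B ε : ℝ} (L : Loc B ε) (h : L.m = L.M) :
    ∃ s, HypI B ε (L.c₁ (-(L.m : ℤ)) * L.c₂ (L.m : ℤ) * ((L.x : ℂ) ^ L.m) / L.c₁ 0 ^ 2) s := by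
  obtain ⟨m, M, x, y₁, y₂, c₁, c₂, hm, hM, x_pos, x_lt, y₁_pos, y₁_lt, y₂_pos, y₂_lt, summ₁, summ₂,
    le₁, le₂, u₁, u₀, u₂, rel, bd₁, bd₂, dec₁, dec₂, hy₁, hy₂⟩ := L
  simp only at h
  subst h
  rw [min_self] at hy₁ hy₂
  have hx0 : (x : ℂ) ≠ 0 := by exact_mod_cast x_pos.ne'
  have rel2 : ∀ n, c₁ n = c₂ n * ((x : ℝ) : ℂ) ^ n := by
    intro n
    rw [rel n, mul_assoc, ← zpow_add₀ hx0, neg_add_cancel, zpow_zero, mul_one]
  have ha0 : c₁ (-(m : ℤ)) ≠ 0 := by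
    intro h0; rw [h0] at u₁; simp at u₁
  have hb0 : c₁ 0 ≠ 0 := by
    intro h0; rw [h0] at u₀; simp at u₀
  have hd0 : c₂ (m : ℤ) ≠ 0 := by
    intro h0; rw [h0] at u₂; simp at u₂
  have hxm : ‖((x : ℂ)) ^ m‖ = x ^ m := by
    rw [norm_pow, Complex.norm_real, Real.norm_of_nonneg x_pos.le]
  have hc1m : ‖c₁ (m : ℤ)‖ = x ^ m := by rw [rel2, zpow_natCast, norm_mul, u₂, one_mul, hxm]
  have hc2m : ‖c₂ (-(m : ℤ))‖ = x ^ m := by
    rw [rel, neg_neg, zpow_natCast, norm_mul, u₁, one_mul, hxm]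
  have hc20 : ‖c₂ 0‖ = 1 := by rw [rel]; simpa using u₀
  show ∃ s, HypI B ε (c₁ (-(m : ℤ)) * c₂ (m : ℤ) * ((x : ℂ) ^ m) / c₁ 0 ^ 2) s
  obtain ⟨q, hq⟩ : ∃ q, q = c₁ (-(m : ℤ)) * c₂ (m : ℤ) * ((x : ℂ) ^ m) / c₁ 0 ^ 2 := ⟨_, rfl⟩
  rw [← hq]
  obtain ⟨l, hl⟩ : ∃ l : ℕ → ℂ, ∀ i, l i = c₁ (-(m : ℤ) - ((i + 1) * m : ℕ)) *
    (c₁ 0 / c₁ (-(m : ℤ))) ^ (i + 1) / c₁ (-(m : ℤ)) := ⟨_, fun _ => rfl⟩
  obtain ⟨r, hr⟩ : ∃ r : ℕ → ℂ, ∀ i, r i = c₂ ((m : ℤ) + ((i + 1) * m : ℕ)) *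
    (c₁ 0 / c₂ (m : ℤ)) ^ (i + 1) / c₂ (m : ℤ) := ⟨_, fun _ => rfl⟩
  have nq : ‖q‖ = x ^ m := by
    rw [hq, norm_div, norm_mul, norm_mul, hxm, norm_pow, u₁, u₂, u₀]; norm_num
  have nl : ∀ i, ‖l i‖ = ‖c₁ (-(m : ℤ) - ((i + 1) * m : ℕ))‖ := by
    intro i
    rw [hl, norm_div, norm_mul, norm_pow, norm_div, u₁, u₀]; norm_num
  have nr : ∀ i, ‖r i‖ = ‖c₂ ((m : ℤ) + ((i + 1) * m : ℕ))‖ := by
    intro i
    rw [hr, norm_div, norm_mul, norm_pow, norm_div, u₂, u₀]; norm_num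
  have sl : ∀ i, ‖l i‖ ≤ (x ^ m + ε) ^ (i + 1) := by
    intro i
    rw [nl]
    calc _ ≤ y₁ ^ ((i + 1) * m) := dec₁ _
      _ = (y₁ ^ m) ^ (i + 1) := by rw [mul_comm, pow_mul]
      _ ≤ _ := pow_le_pow_left₀ (by positivity) hy₁ _
  have sr : ∀ i, ‖r i‖ ≤ (x ^ m + ε) ^ (i + 1) := by
    intro i
    rw [nr]
    calc _ ≤ y₂ ^ ((i + 1) * m) := dec₂ _
      _ = (y₂ ^ m) ^ (i + 1) := by rw [mul_comm, pow_mul]
      _ ≤ _ := pow_le_pow_left₀ (by positivity) hy₂ _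
  have hm' : (m : ℤ) ≠ 0 := by exact_mod_cast hm.ne'
  have hmp : (0 : ℤ) < (m : ℤ) := by exact_mod_cast hm
  have P0 : 2 + (x ^ m) ^ 2 ≤ B ^ 2 := by
    have := parseval_le c₁ summ₁ B bd₁ {-(m : ℤ), 0, (m : ℤ)}
    rw [Finset.sum_insert, Finset.sum_insert, Finset.sum_singleton, u₁, u₀, hc1m] at this
    · linarith
    · simp only [Finset.mem_singleton]; omega
    · simp only [Finset.mem_insert, Finset.mem_singleton]; omega
  have P1 : ∀ i, 2 + (x ^ m) ^ 2 + ‖l i‖ ^ 2 ≤ B ^ 2 := by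
    intro i
    have hpos : (0 : ℤ) < ((i + 1) * m : ℕ) := by exact_mod_cast Nat.mul_pos (Nat.succ_pos i) hm
    have := parseval_le c₁ summ₁ B bd₁ {-(m : ℤ), 0, (m : ℤ), -(m : ℤ) - ((i + 1) * m : ℕ)}
    rw [Finset.sum_insert, Finset.sum_insert, Finset.sum_insert, Finset.sum_singleton, u₁, u₀,
      hc1m, ← nl] at this
    · linarith
    · simp only [Finset.mem_singleton]; omega
    · simp only [Finset.mem_insert, Finset.mem_singleton]; omega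
    · simp only [Finset.mem_insert, Finset.mem_singleton]; omega
  have P2 : ∀ i, 2 + (x ^ m) ^ 2 + ‖r i‖ ^ 2 ≤ B ^ 2 := by
    intro i
    have hpos : (0 : ℤ) < ((i + 1) * m : ℕ) := by exact_mod_cast Nat.mul_pos (Nat.succ_pos i) hm
    have := parseval_le c₂ summ₂ B bd₂ {-(m : ℤ), 0, (m : ℤ), (m : ℤ) + ((i + 1) * m : ℕ)}
    rw [Finset.sum_insert, Finset.sum_insert, Finset.sum_insert, Finset.sum_singleton, u₂, hc20,
      hc2m, ← nr] at this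
    · linarith
    · simp only [Finset.mem_singleton]; omega
    · simp only [Finset.mem_insert, Finset.mem_singleton]; omega
    · simp only [Finset.mem_insert, Finset.mem_singleton]; omega
  have ns : ∀ i, ‖(l i + r i) / 2‖ ≤ (‖l i‖ + ‖r i‖) / 2 := by
    intro i
    rw [norm_div]
    have n2 : ‖(2 : ℂ)‖ = 2 := by norm_num
    rw [n2]
    exact div_le_div_of_nonneg_right (norm_add_le _ _) (by norm_num)
  refine ⟨fun i => (l i + r i) / 2, ?_, ?_, ?_, ?_, ?_⟩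
  · rw [nq]; exact pow_lt_one₀ x_pos.le x_lt hm.ne'
  · rw [nq]; exact P0
  · intro i
    rw [nq]
    have h1 := sl i
    have h2 := sr i
    have h3 := ns i
    linarith
  · intro i
    rw [nq]
    have h1 := P1 i
    have h2 := P2 i
    have h3 := ns i
    have h4 : ‖(l i + r i) / 2‖ ^ 2 ≤ ((‖l i‖ + ‖r i‖) / 2) ^ 2 :=
      pow_le_pow_left₀ (norm_nonneg _) h3 2
    nlinarith [sq_nonneg (‖l i‖ - ‖r i‖)]
  · intro z hz
    exact RedI_core m hm x x_pos c₁ c₂ summ₁ summ₂ u₁ u₀ u₂ rel2 rel bd₁ bd₂ l r q hq hl hr z hz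

/-- Apply `hypI_of_loc'` to `m = M = g`, `x = X 0`, `y₁ = X (-1)`, `y₂ = X 1`, `c₁ n = c (-1) (N 0 + n)`,
`c₂ n = c 0 (N 0 + n)`. Then `c₁ (-g) x^g = c 0 (N (-1))`, `c₂ g = c 0 (N 1)`, `c₁ 0 = c 0 (N 0)` (by `W.rel 0`
resp. `eq_l`), so the `q` is `W.q0`; bounds: `∑ c (N 0 + n) z^n = z^(-N 0) ∑ c n z^n`
(`Equiv.addLeft`), `dec₁` = `size_l (-1)` at corner `-1`: `c (-1) (N (-1) - n)`, `dec₂` = `size_r 1` at corner `0`. -/
theorem hypI_of_wd (W : Wd B n) (hn : 1 ≤ n) (g : ℕ) (hL : W.G (-1) = g) (hR : W.G 0 = g) (ε : ℝ)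
    (h1 : W.X (-1) ^ g ≤ ‖W.q0‖ + ε) (h2 : W.X 1 ^ g ≤ ‖W.q0‖ + ε) : ∃ s, HypI B ε W.q0 s := by
  have hN0 : W.N 0 = W.N (-1) + (g : ℤ) := by
    have h := W.N_succ (-1) (by omega) (by omega)
    rw [hL] at h
    have e : (-1 : ℤ) + 1 = 0 := by norm_num
    rw [e] at h
    exact h
  have hN1 : W.N 1 = W.N 0 + (g : ℤ) := by
    have h := W.N_succ 0 (by omega) (by omega)
    rw [hR, zero_add] at h
    exact h
  have e01 : (-1 : ℤ) + 1 = 0 := by norm_num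
  have nq := W.norm_q0 hn
  rw [hL] at nq
  have hrel : ∀ k : ℤ, W.c 0 (W.N 0 + k) = W.c (-1) (W.N 0 + k) * ((W.X 0 : ℝ) : ℂ) ^ (-k) := by
    intro k
    have h := W.rel 0 (by omega) (by omega) (W.N 0 + k)
    rw [zero_sub, show W.N 0 - (W.N 0 + k) = -k by ring] at h
    exact h
  have hsh : ∀ i : ℤ, -(n:ℤ) - 1 ≤ i → i ≤ n → ∀ z : ℂ, ‖z‖ = 1 →
      ‖∑' k : ℤ, W.c i (W.N 0 + k) * z ^ k‖ ≤ B := by
    intro i h3 h4 z hz
    have h := W.bound i h3 h4 z hz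
    have hz0 : z ≠ 0 := by
      intro h0; rw [h0] at hz; simp at hz
    rw [← (Equiv.addLeft (W.N 0)).tsum_eq] at h
    simp only [Equiv.coe_addLeft] at h
    have e : ∀ k : ℤ, W.c i (W.N 0 + k) * z ^ (W.N 0 + k) = z ^ (W.N 0) * (W.c i (W.N 0 + k) * z ^ k) := by
      intro k
      rw [zpow_add₀ hz0]
      ring
    simp only [e] at h
    rw [tsum_mul_left, norm_mul, norm_zpow, hz, one_zpow, one_mul] at h
    exact h
  have L : ∃ L : Loc B ε, L.m = g ∧ L.M = g ∧ L.x = W.X 0 ∧ (∀ k, L.c₁ k = W.c (-1) (W.N 0 + k)) ∧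
      (∀ k, L.c₂ k = W.c 0 (W.N 0 + k)) := by
    refine ⟨{
      m := g
      M := g
      x := W.X 0
      y₁ := W.X (-1)
      y₂ := W.X 1
      c₁ := fun k => W.c (-1) (W.N 0 + k)
      c₂ := fun k => W.c 0 (W.N 0 + k)
      hm := hR ▸ W.G_pos 0 (by omega) (by omega)
      hM := hR ▸ W.G_pos 0 (by omega) (by omega)
      x_pos := W.X_pos 0 (by omega) (by omega)
      x_lt := W.X_lt 0 (by omega) (by omega)
      y₁_pos := W.X_pos (-1) (by omega) (by omega)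
      y₁_lt := W.X_lt (-1) (by omega) (by omega)
      y₂_pos := W.X_pos 1 (by omega) (by omega)
      y₂_lt := W.X_lt 1 (by omega) (by omega)
      summ₁ := (W.summ (-1) (by omega) (by omega)).comp_injective (add_right_injective (W.N 0))
      summ₂ := (W.summ 0 (by omega) (by omega)).comp_injective (add_right_injective (W.N 0))
      le₁ := fun k => W.le_one (-1) (by omega) (by omega) _
      le₂ := fun k => W.le_one 0 (by omega) (by omega) _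
      u₁ := ?_
      u₀ := ?_
      u₂ := ?_
      rel := hrel
      bd₁ := hsh (-1) (by omega) (by omega)
      bd₂ := hsh 0 (by omega) (by omega)
      dec₁ := ?_
      dec₂ := ?_
      hy₁ := ?_
      hy₂ := ?_ }, rfl, rfl, rfl, fun _ => rfl, fun _ => rfl⟩
    · rw [hN0, add_neg_cancel_right]
      exact W.unit_l (-1) (by omega) (by omega)
    · have h := W.unit_r (-1) (by omega) (by omega)
      rw [e01] at h
      rw [add_zero]
      exact h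
    · have h := W.unit_r 0 (by omega) (by omega)
      rw [zero_add, hN1] at h
      exact h
    · intro k
      have h := W.size_l (-1) (by omega) (by omega) k
      rw [hN0, show W.N (-1) + (g:ℤ) + (-(g:ℤ) - k) = W.N (-1) - k by ring]
      exact h
    · intro k
      have h := W.size_r 1 (by omega) (by omega) k
      rw [sub_self, hN1] at h
      rw [← add_assoc]
      exact h
    · rw [min_self, ← nq]; exact h1
    · rw [min_self, ← nq]; exact h2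
  obtain ⟨L, hm, hM, hx, hc₁, hc₂⟩ := L
  obtain ⟨s, hs⟩ := hypI_of_loc' L (hm.trans hM.symm)
  refine ⟨s, ?_⟩
  have key : L.c₁ (-(L.m : ℤ)) * L.c₂ (L.m : ℤ) * ((L.x : ℂ) ^ L.m) / L.c₁ 0 ^ 2 = W.q0 := by
    rw [hm, hx, hc₁, hc₂, hc₁]
    unfold q0
    have e1 := W.eq_l 0 (by omega) (by omega) g
    rw [zero_sub, show W.N 0 - (g:ℤ) = W.N (-1) by rw [hN0]; ring] at e1
    have e2 := W.eq_l 0 (by omega) (by omega) 0
    rw [zero_sub, Nat.cast_zero, sub_zero, pow_zero, mul_one] at e2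
    rw [e1, e2, add_zero, ← hN1, show W.N 0 + -(g:ℤ) = W.N (-1) by rw [hN0]; ring]
    ring
  rw [key] at hs
  exact hs

end Wd
end Pool.Agent.MaxTerm8
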