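import Mathlib

namespace Pool.Agent.MaxTerm8
namespace Wd

/-- `y (E - y^2) ≤ D (E - min(D, 11/20)^2)`, `E = (170919/100000)^2 - 2 = .92133…` (`y ↦ y (E - y²)` is increasing on
`[0, 11/20]`; for `y ≥ 11/20`: `E - y² ≤ E - (11/20)²`). -/
theorem S_mono (y D : ℝ) (h0 : 0 ≤ y) (h1 : y ≤ D) :
    y * ((170919/100000)^2 - 2 - y^2) ≤ D * ((170919/100000)^2 - 2 - (min D (11/20))^2) := by
  have hE : (9213 : ℝ) / 10000 ≤ (170919/100000)^2 - 2 := by norm_num
  generalize (170919/100000 : ℝ)^2 - 2 = E at hE ⊢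
  have key : ∀ a b : ℝ, 0 ≤ a → a ≤ b → b ≤ 11/20 → a * (E - a^2) ≤ b * (E - b^2) := by
    intro a b ha hab hb
    have h2 : 0 ≤ (b - a) * (E - (b^2 + a * b + a^2)) := by
      apply mul_nonneg (by linarith)
      nlinarith
    nlinarith
  rcases le_total D (11/20) with hD | hD
  · rw [min_eq_left hD]
    exact key y D h0 h1 hD
  · rw [min_eq_right hD]
    have hp : 0 ≤ E - (11/20 : ℝ)^2 := by nlinarith
    rcases le_total y (11/20) with hy | hy
    · refine (key y (11/20) h0 hy le_rfl).trans ?_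
      exact mul_le_mul_of_nonneg_right hD hp
    · have h3 : E - y^2 ≤ E - (11/20 : ℝ)^2 := by nlinarith
      calc y * (E - y^2) ≤ y * (E - (11/20 : ℝ)^2) := mul_le_mul_of_nonneg_left h3 h0
        _ ≤ D * (E - (11/20 : ℝ)^2) := mul_le_mul_of_nonneg_right h1 hp

end Wd
end Pool.Agent.MaxTerm8
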