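import Pool.Agent.MaxTerm8.RedS0
import Pool.Agent.MaxTerm8.RedSM

namespace Pool.Agent.MaxTerm8
open Pool.Agent.MaxTerm59 Pool.Agent.MaxTerm58
namespace Wd
variable {B : ℝ} {n : ℕ}

/-- `ra`: `‖r i‖ = ‖c 1 (N 2 + (i+1) g)‖ = ‖c 2 (N 3 + (i-1) g)‖ X2^((i+1) g) ≤ X3^((i-1) g) X2^((i+1) g)`, and `X2^(2g) ≤ Y 2`,
`X3^(2g) ≤ Y 3` (squares). `ra0`: `‖r 0‖² = ‖c 2 (N 2 + g)‖² X2^(2g)`, `ball_l 2` with `S = {N 2 + g}` gives
`‖c 2 (N 2 + g)‖² ≤ E - (X2^(2g))²`; `S_mono` with `y = X2^(2g)`. -/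
theorem hypSA_of_wd (W : Wd (170919/100000) n) (hn : 3 ≤ n) (g : ℕ) (hL : W.G (-1) = g) (hR : W.G 0 = g)
    (hR1 : W.G 1 = 2 * g) (hR2 : W.G 2 = 2 * g) (hLm : W.G (-2) ≠ g)
    (hD : ∀ i : ℤ, -(n:ℤ) ≤ i → i ≤ n → W.Y i ≤ ‖W.q0‖ + 1/100000)
    (hY1 : W.Y 1 ≤ 9/10 * (‖W.q0‖ + 1/100000))
    (htl : W.X (-1) ^ g ≤ W.X 1 ^ g) (hq : ‖W.q0‖ ≤ 3/4) :
    ∃ t r1 l r, HypSA W.q0 t r1 l r := by
  obtain ⟨t, r1, l, r, h0, hr⟩ := W.hypS0_of_wd hn g hL hR hR1 hLm hY1 htl hq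
  have hg : 0 < g := by
    have := W.G_pos 0 (by omega) (by omega)
    omega
  have hX2 := W.X_pos 2 (by omega) (by omega)
  have hX3 := W.X_pos 3 (by omega) (by omega)
  have hY2 : W.X 2 ^ (2 * g) ≤ ‖W.q0‖ + 1/100000 := by
    have h1 := W.pow_r_le_Y 2 (by omega) (by omega)
    rw [hR2] at h1
    exact h1.trans (hD 2 (by omega) (by omega))
  have hY3 : W.X 3 ^ (2 * g) ≤ ‖W.q0‖ + 1/100000 := by
    have h1 := W.pow_l_le_Y 3 (by omega) (by omega)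
    rw [show (3:ℤ) - 1 = 2 by norm_num, hR2] at h1
    exact h1.trans (hD 3 (by omega) (by omega))
  have hN3 : W.N 3 = W.N 2 + 2 * (g:ℤ) := by
    have h1 := W.N_succ 2 (by omega) (by omega)
    rw [hR2, show (2:ℤ) + 1 = 3 by norm_num] at h1
    push_cast at h1
    exact h1
  have hN2 : W.N 1 < W.N 2 := by
    have h1 := W.Nlt 1 (by omega) (by omega)
    rwa [show (1:ℤ) + 1 = 2 by norm_num] at h1
  have hD0 : 0 < ‖W.q0‖ + 1/100000 := lt_of_lt_of_le (pow_pos hX2 _) hY2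
  refine ⟨t, r1, l, r, { toHypS0 := h0, ra := ?_, ra0 := ?_ }⟩
  · intro i hi
    have h1 := W.norm_r 2 (by omega) (by omega) ((i+1) * g)
    rw [show (2:ℤ) - 1 = 1 by norm_num] at h1
    rw [hr i, h1]
    have h2 := W.size_r 3 (by omega) (by omega) ((i-1) * g)
    rw [show (3:ℤ) - 1 = 2 by norm_num, hN3] at h2
    have h3 : W.N 2 + 2 * (g:ℤ) + (((i-1) * g : ℕ) : ℤ) = W.N 2 + (((i+1) * g : ℕ) : ℤ) := by
      obtain ⟨k, rfl⟩ : ∃ k, i = k + 1 := ⟨i - 1, by omega⟩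
      rw [Nat.add_sub_cancel]
      push_cast
      ring
    rw [h3] at h2
    refine le_of_sq_le_sq ?_ (pow_nonneg hD0.le _)
    have h4 : (‖W.c 2 (W.N 2 + (((i+1) * g : ℕ) : ℤ))‖ * W.X 2 ^ ((i+1) * g)) ^ 2 ≤
        (W.X 3 ^ ((i-1) * g) * W.X 2 ^ ((i+1) * g)) ^ 2 := by
      have := pow_pos hX2 ((i+1) * g)
      gcongr
    refine h4.trans ?_
    have h5 : (W.X 3 ^ ((i-1) * g) * W.X 2 ^ ((i+1) * g)) ^ 2 =
        (W.X 3 ^ (2 * g)) ^ (i-1) * (W.X 2 ^ (2 * g)) ^ (i+1) := by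
      rw [mul_pow, ← pow_mul, ← pow_mul, ← pow_mul, ← pow_mul]
      congr 2 <;> ring
    rw [h5]
    have h6 : ((‖W.q0‖ + 1/100000) ^ i) ^ 2 =
        (‖W.q0‖ + 1/100000) ^ (i-1) * (‖W.q0‖ + 1/100000) ^ (i+1) := by
      rw [← pow_mul, ← pow_add]
      congr 1
      omega
    rw [h6]
    have h7 := pow_pos hX3 (2 * g)
    have h8 := pow_pos hX2 (2 * g)
    gcongr
  · have h1 := W.norm_r 2 (by omega) (by omega) ((0+1) * g)
    rw [show (2:ℤ) - 1 = 1 by norm_num] at h1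
    rw [hr 0, h1]
    have h2 := W.ball_l 2 (by omega) (by omega) {W.N 2 + (((0+1) * g : ℕ) : ℤ)}
      (by rw [Finset.mem_singleton]; push_cast; omega)
      (by rw [Finset.mem_singleton, show (2:ℤ) + 1 = 3 by norm_num, hN3]; push_cast; omega)
      (by rw [Finset.mem_singleton, show (2:ℤ) - 1 = 1 by norm_num]; push_cast; omega)
    rw [Finset.sum_singleton, show (2:ℤ) - 1 = 1 by norm_num, hR1] at h2
    have h3 := pow_pos hX2 (2 * g)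
    have h4 := S_mono (W.X 2 ^ (2 * g)) (‖W.q0‖ + 1/100000) h3.le hY2
    refine le_trans ?_ h4
    rw [mul_pow, ← pow_mul, show (0+1) * g * 2 = 2 * g by ring, mul_comm]
    exact mul_le_mul_of_nonneg_left h2 h3.le

end Wd
end Pool.Agent.MaxTerm8
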