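import Pool.Agent.MaxTerm8.RedS0
import Pool.Agent.MaxTerm8.RedSM

namespace Pool.Agent.MaxTerm8
open Pool.Agent.MaxTerm59 Pool.Agent.MaxTerm58
namespace Wd
variable {B : ℝ} {n : ℕ}

/-- `rb`: `‖r i‖² ≤ X2^(2 (i+1) g) ≤ (Y 2)^(i+1)`. `ball`: `u` = the index with `N 3 = N 2 + (u+1) g` if it exists (then
`u ≠ 1` as `G 2 ≠ 2 g`), otherwise `u = 0`; `‖r i‖² = ‖c 2 (N 2 + (i+1) g)‖² y^(i+1)`, `y = X2^(2g) ≤ D' = .9 (‖q0‖ + 1/100000)`;
so `∑ ‖r i‖² / D'^(i+1) ≤ (y / D') ∑ ‖c 2 (N 2 + (i+1) g)‖² ≤ (y/D') (E - y²)` by `ball_l 2`, and `S_mono`. -/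
theorem hypSB_of_wd (W : Wd (170919/100000) n) (hn : 3 ≤ n) (g : ℕ) (hL : W.G (-1) = g) (hR : W.G 0 = g)
    (hR1 : W.G 1 = 2 * g) (hR2 : W.G 2 ≠ 2 * g) (hLm : W.G (-2) ≠ g)
    (hY1 : W.Y 1 ≤ 9/10 * (‖W.q0‖ + 1/100000)) (hY2 : W.Y 2 ≤ 9/10 * (‖W.q0‖ + 1/100000))
    (htl : W.X (-1) ^ g ≤ W.X 1 ^ g) (hq : ‖W.q0‖ ≤ 3/4) :
    ∃ t r1 l r, HypSB W.q0 t r1 l r := by
  obtain ⟨t, r1, l, r, h0, hr⟩ := hypS0_of_wd W hn g hL hR hR1 hLm hY1 htl hq
  have hg : 0 < g := by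
    rw [← hL]
    exact W.G_pos (-1) (by omega) (by omega)
  obtain ⟨D, hD⟩ : ∃ D : ℝ, D = 9/10 * (‖W.q0‖ + 1/100000) := ⟨_, rfl⟩
  have hD0 : 0 < D := by
    rw [hD]
    have := norm_nonneg W.q0
    positivity
  have hX := W.X_pos 2 (by omega) (by omega)
  obtain ⟨y, hy⟩ : ∃ y : ℝ, y = W.X 2 ^ (2 * g) := ⟨_, rfl⟩
  have hy0 : 0 < y := by
    rw [hy]
    exact pow_pos hX _
  have e21 : (2 : ℤ) - 1 = 1 := by norm_num
  have hyD : y ≤ D := by
    have h1 := W.pow_l_le_Y 2 (by omega) (by omega)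
    rw [e21, hR1, ← hy] at h1
    rw [hD]
    exact h1.trans hY2
  -- the coefficients of the corner `2`
  have hrc : ∀ i : ℕ, ‖r i‖ ^ 2 = ‖W.c 2 (W.N 2 + ((i+1) * g : ℕ))‖ ^ 2 * y ^ (i + 1) := by
    intro i
    have h1 := W.norm_r 2 (by omega) (by omega) ((i + 1) * g)
    rw [e21] at h1
    rw [hr i, h1, mul_pow, hy, ← pow_mul, ← pow_mul]
    congr 2
    ring
  have hrb : ∀ i : ℕ, ‖r i‖ ^ 2 ≤ D ^ (i + 1) := by
    intro i
    rw [hrc i]
    have h1 := W.le_one 2 (by omega) (by omega) (W.N 2 + ((i+1) * g : ℕ))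
    have h2 : ‖W.c 2 (W.N 2 + ((i+1) * g : ℕ))‖ ^ 2 ≤ 1 := pow_le_one₀ (norm_nonneg _) h1
    have h3 : y ^ (i + 1) ≤ D ^ (i + 1) := pow_le_pow_left₀ hy0.le hyD _
    calc ‖W.c 2 (W.N 2 + ((i+1) * g : ℕ))‖ ^ 2 * y ^ (i + 1) ≤ 1 * y ^ (i + 1) :=
          mul_le_mul_of_nonneg_right h2 (pow_nonneg hy0.le _)
      _ ≤ D ^ (i + 1) := by rw [one_mul]; exact h3
  -- the index of the next unit
  have hu : ∃ u : ℕ, u ≠ 1 ∧ ∀ i : ℕ, i ≠ u → W.N 2 + ((i+1) * g : ℕ) ≠ W.N 3 := by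
    have h3 := W.N_succ 2 (by omega) (by omega)
    have e23 : (2 : ℤ) + 1 = 3 := by norm_num
    rw [e23] at h3
    by_cases hex : ∃ u : ℕ, W.G 2 = (u + 1) * g
    · obtain ⟨u, hu⟩ := hex
      refine ⟨u, ?_, ?_⟩
      · intro h1
        apply hR2
        rw [hu, h1]
      · intro i hi h
        rw [h3, hu] at h
        have h4 : (i + 1) * g = (u + 1) * g := by
          exact_mod_cast add_left_cancel h
        have h5 := Nat.eq_of_mul_eq_mul_right hg h4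
        omega
    · refine ⟨0, by norm_num, ?_⟩
      intro i _ h
      rw [h3] at h
      apply hex
      refine ⟨i, ?_⟩
      have h4 : (i + 1) * g = W.G 2 := by
        exact_mod_cast add_left_cancel h
      exact h4.symm
  refine ⟨t, r1, l, r, { toHypS0 := h0, rb := ?_, ball := ?_ }⟩
  · intro i
    rw [← hD]
    exact hrb i
  · obtain ⟨u, hu1, hu2⟩ := hu
    refine ⟨u, hu1, fun s hs => ?_⟩
    rw [← hD]
    have hinj : Function.Injective fun i : ℕ => W.N 2 + ((i+1) * g : ℕ) := by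
      intro a b hab
      have h4 : (a + 1) * g = (b + 1) * g := by
        exact_mod_cast add_left_cancel hab
      have h5 := Nat.eq_of_mul_eq_mul_right hg h4
      omega
    have hpos : ∀ i : ℕ, (0 : ℤ) < ((i+1) * g : ℕ) := by
      intro i
      have : 0 < (i + 1) * g := Nat.mul_pos (by omega) hg
      exact_mod_cast this
    have hN12 := W.Nlt 1 (by omega) (by omega)
    have e12 : (1 : ℤ) + 1 = 2 := by norm_num
    rw [e12] at hN12
    have hb := W.ball_l 2 (by omega) (by omega) (s.map ⟨_, hinj⟩)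
      (by
        rw [Finset.mem_map]
        rintro ⟨i, _, hi⟩
        have h1 : W.N 2 + ((i+1) * g : ℕ) = W.N 2 := hi
        have h2 := hpos i
        omega)
      (by
        rw [Finset.mem_map]
        rintro ⟨i, his, hi⟩
        have h1 : W.N 2 + ((i+1) * g : ℕ) = W.N (2 + 1) := hi
        have e23 : (2 : ℤ) + 1 = 3 := by norm_num
        rw [e23] at h1
        refine hu2 i ?_ h1
        rintro rfl
        exact hs his)
      (by
        rw [Finset.mem_map]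
        rintro ⟨i, _, hi⟩
        have h1 : W.N 2 + ((i+1) * g : ℕ) = W.N (2 - 1) := hi
        rw [e21] at h1
        have h2 := hpos i
        omega)
    rw [Finset.sum_map, e21, hR1, ← hy] at hb
    have hb' : ∑ i ∈ s, ‖W.c 2 (W.N 2 + ((i+1) * g : ℕ))‖ ^ 2 ≤
        (170919/100000)^2 - 2 - y^2 := hb
    have hterm : ∀ i ∈ s, ‖r i‖ ^ 2 / D ^ (i + 1) ≤
        y / D * ‖W.c 2 (W.N 2 + ((i+1) * g : ℕ))‖ ^ 2 := by
      intro i _
      rw [hrc i]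
      have h1 : y ^ (i + 1) / D ^ (i + 1) ≤ y / D := by
        rw [← div_pow]
        have h2 : y / D ≤ 1 := (div_le_one hD0).mpr hyD
        calc (y / D) ^ (i + 1) ≤ (y / D) ^ 1 :=
              pow_le_pow_of_le_one (by positivity) h2 (by omega)
          _ = y / D := pow_one _
      calc ‖W.c 2 (W.N 2 + ((i+1) * g : ℕ))‖ ^ 2 * y ^ (i + 1) / D ^ (i + 1) =
            (y ^ (i + 1) / D ^ (i + 1)) * ‖W.c 2 (W.N 2 + ((i+1) * g : ℕ))‖ ^ 2 := by ring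
        _ ≤ _ := mul_le_mul_of_nonneg_right h1 (by positivity)
    have hm := S_mono y D hy0.le hyD
    calc ∑ i ∈ s, ‖r i‖ ^ 2 / D ^ (i + 1) ≤
          ∑ i ∈ s, y / D * ‖W.c 2 (W.N 2 + ((i+1) * g : ℕ))‖ ^ 2 := Finset.sum_le_sum hterm
      _ = y / D * ∑ i ∈ s, ‖W.c 2 (W.N 2 + ((i+1) * g : ℕ))‖ ^ 2 := by rw [← Finset.mul_sum]
      _ ≤ y / D * ((170919/100000)^2 - 2 - y^2) := mul_le_mul_of_nonneg_left hb' (by positivity)
      _ = y * ((170919/100000)^2 - 2 - y^2) / D := by ring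
      _ ≤ (D * ((170919/100000)^2 - 2 - (min D (11/20))^2)) / D :=
          div_le_div_of_nonneg_right hm hD0.le
      _ = (170919/100000)^2 - 2 - (min D (11/20))^2 := by
          rw [mul_div_assoc, mul_div_cancel₀ _ hD0.ne']

end Wd
end Pool.Agent.MaxTerm8
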