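import Pool.Agent.MaxTerm8.AsmDef
import Pool.Agent.MaxTerm8.BigT
import Pool.Agent.MaxTerm8.RedHI
import Pool.Agent.MaxTerm8.RedF3
import Pool.Agent.MaxTerm8.RedSA
import Pool.Agent.MaxTerm8.RedSB
import Pool.Agent.MaxTerm8.RedE

/-! The assembly over windows. -/

namespace Pool.Agent.MaxTerm8
open Pool.Agent.MaxTerm59 Pool.Agent.MaxTerm58
namespace Wd

/-- all numerical theorems -/
structure Boxes (lam : ℝ) : Prop where
  ti : ∀ (q : ℂ) (s : ℕ → ℂ), HypI (170919/100000) (1/100000) q s → 17/50 ≤ ‖q‖ →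
    ¬(‖q‖ ≤ 3/4 ∧ InU q.re |q.im|) → False
  f3 : ∀ (q p : ℂ) (l r : ℕ → ℂ), HypF3 q p l r → 17/50 ≤ ‖q‖ → ‖q‖ ≤ 3/4 → InU q.re |q.im| → False
  sA : ∀ (q t r1 : ℂ) (l r : ℕ → ℂ), HypSA q t r1 l r → 17/50 ≤ ‖q‖ → ‖q‖ ≤ 3/4 → InU q.re |q.im| → False
  sB : ∀ (q t r1 : ℂ) (l r : ℕ → ℂ), HypSB q t r1 l r → 17/50 ≤ ‖q‖ → ‖q‖ ≤ 3/4 → InU q.re |q.im| → False
  e3 : ∀ (md : ℕ) (q t : ℂ) (v : ℤ → ℂ), HypE3 md q t v → (md = 0 ∨ md = 1) → 17/50 ≤ ‖q‖ → ‖q‖ ≤ 141/200 →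
    InU2 q.re |q.im| → t ≠ 0 → False
  e32 : ∀ (md : ℕ) (s t : ℂ) (v : ℤ → ℂ), HypE32 md s t v → (md = 0 ∨ md = 1) → 17/50 ≤ ‖s‖ ^ 2 →
    ‖s‖ ^ 2 ≤ 141/200 → InU2 (s ^ 2).re |(s ^ 2).im| → t ≠ 0 → False
  t1out : T1out
  t1in : T1in lam
  f2s : F2small
  f2g : F2gen lam
  mvg : MVgen
  mvs : MVS

theorem mv_all {lam : ℝ} (hb : Boxes lam) (W : Wd (170919/100000) 4) (D : ℝ) (hm : W.G (-1) ≠ W.G 0)
    (hD : ∀ i : ℤ, -4 ≤ i → i ≤ 4 → W.Y i ≤ D) (hD2 : D ≤ 17/50 + 1/100000 ∨ 9 * D ≤ 10 * W.Y 0)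
    (hD3 : D ≤ 7501/10000 ∨ D ≤ W.Y 0 + 1/10000) : False := by
  have key : ∀ V : Wd (170919/100000) 4, V.G (-1) < V.G 0 → (∀ i : ℤ, -4 ≤ i → i ≤ 4 → V.Y i ≤ D) →
      (D ≤ 17/50 + 1/100000 ∨ 9 * D ≤ 10 * V.Y 0) → (D ≤ 7501/10000 ∨ D ≤ V.Y 0 + 1/10000) → False := by
    intro V hlt h1 h2 h2'
    rcases le_or_gt (19/25) (V.Y 0) with h3 | h3
    · exact bigTP V hlt h3
    have hMV : MV V D := ⟨hlt, h1, h2, h2', h3⟩
    by_cases h4 : V.G 0 = 2 * V.G (-1) ∨ V.G 0 = 3 * V.G (-1) ∨ 2 * V.G 0 = 3 * V.G (-1)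
    · exact hb.mvs V D hMV h4
    · simp only [not_or] at h4
      exact hb.mvg V D hMV h4.1 h4.2.1 h4.2.2
  rcases lt_or_gt_of_ne hm with h | h
  · exact key W h hD hD2 hD3
  · refine key W.mirror ?_ ?_ ?_ ?_
    · rw [mirror_G, mirror_G]
      simpa using h
    · intro i h1 h2
      rw [mirror_Y]
      exact hD (-i) (by omega) (by omega)
    · rw [mirror_Y, neg_zero]
      exact hD2
    · rw [mirror_Y, neg_zero]
      exact hD3

theorem Good.mirror {W : Wd (170919/100000) 4} (H : Good W) : Good W.mirror := by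
  refine ⟨?_, ?_, ?_, ?_⟩
  · rw [mirror_G, mirror_G]
    simpa using H.m0.symm
  · rw [mirror_Y, neg_zero]
    exact H.big
  · intro i h1 h2
    rw [mirror_Y, mirror_Y, neg_zero]
    exact H.all (-i) (by omega) (by omega)
  · intro i h1 h2 h3
    rw [mirror_G, mirror_G] at h3
    rw [mirror_Y, mirror_Y, neg_zero]
    refine H.mis (-i) (by omega) (by omega) ?_
    rw [show -(i-1) - 1 = -i by ring] at h3
    exact fun h => h3 h.symm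

theorem Good.norm {W : Wd (170919/100000) 4} (H : Good W) : ‖W.q0‖ = W.Y 0 := by
  rw [W.norm_q0 (by norm_num)]
  unfold Y
  rw [zero_sub, H.m0, min_self]

theorem Good.pow_l {W : Wd (170919/100000) 4} (H : Good W) : W.X (-1) ^ W.G 0 ≤ W.Y (-1) := by
  rw [← H.m0]
  exact W.pow_r_le_Y (-1) (by norm_num) (by norm_num)

theorem Good.pow_r {W : Wd (170919/100000) 4} (H : Good W) : W.X 1 ^ W.G 0 ≤ W.Y 1 := by
  have := W.pow_l_le_Y 1 (by norm_num) (by norm_num)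
  rwa [sub_self] at this

theorem inU_of {lam : ℝ} (hb : Boxes lam) (W : Wd (170919/100000) 4) (m0 : W.G (-1) = W.G 0)
    (big : 17/50 ≤ W.Y 0) (all : ∀ i : ℤ, -4 ≤ i → i ≤ 4 → W.Y i ≤ W.Y 0 + 1/100000) :
    ‖W.q0‖ ≤ 3/4 ∧ InU W.q0.re |W.q0.im| ∧ ‖W.q0‖ = W.Y 0 := by
  have hn : ‖W.q0‖ = W.Y 0 := by
    rw [W.norm_q0 (by norm_num)]
    unfold Y
    rw [zero_sub, m0, min_self]
  have hl : W.X (-1) ^ W.G 0 ≤ W.Y (-1) := by
    rw [← m0]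
    exact W.pow_r_le_Y (-1) (by norm_num) (by norm_num)
  have hr : W.X 1 ^ W.G 0 ≤ W.Y 1 := by
    have := W.pow_l_le_Y 1 (by norm_num) (by norm_num)
    rwa [sub_self] at this
  by_contra hU
  obtain ⟨s, hs⟩ := hypI_of_wd W (by norm_num) (W.G 0) m0 rfl (1/100000)
    (by rw [hn]; exact hl.trans (all (-1) (by norm_num) (by norm_num)))
    (by rw [hn]; exact hr.trans (all 1 (by norm_num) (by norm_num)))
  exact hb.ti _ _ hs (by rw [hn]; exact big) (fun h => hU ⟨h.1, h.2, hn⟩)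

theorem Good.inU {lam : ℝ} (hb : Boxes lam) {W : Wd (170919/100000) 4} (H : Good W) :
    ‖W.q0‖ ≤ 3/4 ∧ InU W.q0.re |W.q0.im| := by
  have h := inU_of hb W H.m0 H.big H.all
  exact ⟨h.1, h.2.1⟩

theorem no_good_right {lam : ℝ} (hb : Boxes lam) {W : Wd (170919/100000) 4} (H : Good W)
    (h : W.G 1 = W.G 0) : False := by
  obtain ⟨h1, h2⟩ := H.inU hb
  obtain ⟨p, l, r, hf⟩ := hypF3_of_wd W (by norm_num) (W.G 0) H.m0 rfl h
    (by rw [H.norm]; exact fun i a b => H.all i (by simpa using a) (by simpa using b)) h1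
  exact hb.f3 _ _ _ _ hf (by rw [H.norm]; exact H.big) h1 h2

theorem no_goodMM {lam : ℝ} (hb : Boxes lam) {W : Wd (170919/100000) 4} (H : GoodMM W) : False := by
  obtain ⟨h1, h2⟩ := H.toGood.inU hb
  have hn := H.toGood.norm
  have hbig : 17/50 ≤ ‖W.q0‖ := by rw [hn]; exact H.big
  have hall : ∀ i : ℤ, -((4:ℕ):ℤ) ≤ i → i ≤ ((4:ℕ):ℤ) → W.Y i ≤ ‖W.q0‖ + 1/100000 := by
    rw [hn]
    exact fun i a b => H.all i (by simpa using a) (by simpa using b)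
  have hY1 : W.Y 1 ≤ 9/10 * (‖W.q0‖ + 1/100000) := by
    rw [hn]
    exact H.mis 1 (by norm_num) (by norm_num) (by simpa using H.mR.symm)
  have hY2 : W.G 1 ≠ W.G 2 → W.Y 2 ≤ 9/10 * (‖W.q0‖ + 1/100000) := by
    intro h
    rw [hn]
    exact H.mis 2 (by norm_num) (by norm_num) (by simpa using h)
  by_cases c2 : W.G 1 = 2 * W.G 0
  · by_cases d2 : W.G 2 = 2 * W.G 0
    · obtain ⟨t, r1, l, r, hs⟩ := hypSA_of_wd W (by norm_num) (W.G 0) H.m0 rfl c2 d2 H.mL hall hY1 H.hlt h1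
      exact hb.sA _ _ _ _ _ hs hbig h1 h2
    · obtain ⟨t, r1, l, r, hs⟩ := hypSB_of_wd W (by norm_num) (W.G 0) H.m0 rfl c2 d2 H.mL hY1
        (hY2 (by rw [c2]; exact fun h => d2 h.symm)) H.hlt h1
      exact hb.sB _ _ _ _ _ hs hbig h1 h2
  obtain ⟨hU2, h141⟩ := hb.t1out W H h2 h1
  by_cases c3 : W.G 1 = 3 * W.G 0
  · obtain ⟨md, t, v, hmd, ht, he⟩ := hypE3_of_wd W (by norm_num) (W.G 0) H.m0 rfl c3 hall hY1
      (fun h => hY2 (by rw [c3]; exact fun h' => h h'.symm)) H.hlt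
    exact hb.e3 _ _ _ _ he hmd hbig h141 hU2 ht
  by_cases c32 : 2 * W.G 1 = 3 * W.G 0
  · obtain ⟨h, hh⟩ : ∃ h, W.G 0 = 2 * h := ⟨W.G 1 - W.G 0, by omega⟩
    have hh1 : W.G 1 = 3 * h := by omega
    have hlt := H.hlt
    rw [hh] at hlt
    obtain ⟨md, s, t, v, hmd, ht, hsq, he⟩ := hypE32_of_wd W (by norm_num) h (by rw [H.m0, hh]) hh hh1 hall hY1
      (fun h => hY2 (by rw [hh1]; exact fun h' => h h'.symm)) hlt
    have hns : ‖s‖ ^ 2 = ‖W.q0‖ := by rw [← norm_pow, hsq]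
    exact hb.e32 _ _ _ _ he hmd (by rw [hns]; exact hbig) (by rw [hns]; exact h141) (by rw [hsq]; exact hU2) ht
  by_cases c4 : 20 * W.G 1 ≤ 17 * W.G 0
  · exact hb.f2s W H hU2 h141 c4
  by_cases c5 : W.X 1 ^ W.G 0 ≤ lam * ‖W.q0‖
  · exact hb.t1in W H hU2 h141 c5
  exact hb.f2g W H hU2 h141 (not_le.1 c5) (not_le.1 c4) c2 c3 c32

theorem no_good {lam : ℝ} (hb : Boxes lam) {W : Wd (170919/100000) 4} (H : Good W) : False := by
  by_cases hR : W.G 1 = W.G 0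
  · exact no_good_right hb H hR
  by_cases hL : W.G (-2) = W.G 0
  · refine no_good_right hb H.mirror ?_
    rw [mirror_G, mirror_G]
    simpa [H.m0] using hL
  rcases le_total (W.X (-1) ^ W.G 0) (W.X 1 ^ W.G 0) with h | h
  · exact no_goodMM hb (W := W) ⟨H, hL, hR, h⟩
  · refine no_goodMM hb (W := W.mirror) ⟨H.mirror, ?_, ?_, ?_⟩
    · rw [mirror_G, mirror_G]
      simpa [H.m0] using hR
    · rw [mirror_G, mirror_G]
      simpa [H.m0] using hL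
    · rw [mirror_G, mirror_X, mirror_X]
      simpa [H.m0] using h

end Wd
end Pool.Agent.MaxTerm8
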