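import Pool.Agent.MaxTerm8.WdBase
import Pool.Agent.MaxTerm58.WDual

/-! The normalised class sequence around a matched vertex `0` (gaps `m1 * h`), seen from the vertex `1`
(position `0`); the vertices `0`, `-1` are at the positions `-m1`, `-2 m1`. -/

namespace Pool.Agent.MaxTerm8
open Pool.Agent.MaxTerm59 Pool.Agent.MaxTerm58
namespace Wd
variable {B : ℝ} {n : ℕ}

/-- the normalised second quotient at the vertex `0` -/
noncomputable def q0 (W : Wd B n) : ℂ := W.c 0 (W.N (-1)) * W.c 0 (W.N 1) / W.c 0 (W.N 0) ^ 2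

/-- the normalised class sequence, step `h` -/
noncomputable def vv (W : Wd B n) (h m1 : ℕ) (u w s t : ℂ) (j : ℤ) : ℂ :=
  u * w ^ j * W.c 0 (W.N 1 + j * h) / (s ^ (-j - m1).toNat * t ^ j.toNat)

theorem norm_q0 (W : Wd B n) (hn : 1 ≤ n) : ‖W.q0‖ = W.X 0 ^ W.G (-1) := by
  unfold q0
  have h := W.next_l 0 (by omega) (by omega)
  rw [zero_sub] at h
  have h1 := W.unit_l 0 (by omega) (by omega)
  have h2 := W.unit_r 0 (by omega) (by omega)
  rw [zero_add] at h2
  rw [norm_div, norm_mul, norm_pow, h, h1, h2]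
  norm_num

end Wd
end Pool.Agent.MaxTerm8
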