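import Pool.Agent.MaxTerm8.WdMir
import Pool.Agent.MaxTerm8.WdVVDef
import Pool.Agent.MaxTerm58.EHyp
import Pool.Agent.MaxTerm58.Region

/-! The black boxes for the final assembly, over windows. -/

namespace Pool.Agent.MaxTerm8
open Pool.Agent.MaxTerm59 Pool.Agent.MaxTerm58
namespace Wd

/-- a window around an (almost) extremal vertex `0` -/
structure Good (W : Wd (170919/100000) 4) : Prop where
  m0 : W.G (-1) = W.G 0
  big : 17/50 ≤ W.Y 0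
  all : ∀ i : ℤ, -4 ≤ i → i ≤ 4 → W.Y i ≤ W.Y 0 + 1/100000
  mis : ∀ i : ℤ, -4 ≤ i → i ≤ 4 → W.G (i-1) ≠ W.G i → W.Y i ≤ 9/10 * (W.Y 0 + 1/100000)

/-- a good window, both neighbours of the vertex `0` mismatched, the right one with the larger quotient -/
structure GoodMM (W : Wd (170919/100000) 4) : Prop extends Good W where
  mL : W.G (-2) ≠ W.G 0
  mR : W.G 1 ≠ W.G 0
  hlt : W.X (-1) ^ W.G 0 ≤ W.X 1 ^ W.G 0

/-- outer part of `T1` -/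
def T1out : Prop := ∀ W : Wd (170919/100000) 4, GoodMM W → InU W.q0.re |W.q0.im| → ‖W.q0‖ ≤ 3/4 →
  InU2 W.q0.re |W.q0.im| ∧ ‖W.q0‖ ≤ 141/200

/-- inner part of `T1` -/
def T1in (lam : ℝ) : Prop := ∀ W : Wd (170919/100000) 4, GoodMM W → InU2 W.q0.re |W.q0.im| → ‖W.q0‖ ≤ 141/200 →
  W.X 1 ^ W.G 0 ≤ lam * ‖W.q0‖ → False

/-- small right gap -/
def F2small : Prop := ∀ W : Wd (170919/100000) 4, GoodMM W → InU2 W.q0.re |W.q0.im| → ‖W.q0‖ ≤ 141/200 →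
  20 * W.G 1 ≤ 17 * W.G 0 → False

/-- generic right gap -/
def F2gen (lam : ℝ) : Prop := ∀ W : Wd (170919/100000) 4, GoodMM W → InU2 W.q0.re |W.q0.im| → ‖W.q0‖ ≤ 141/200 →
  lam * ‖W.q0‖ < W.X 1 ^ W.G 0 → 17 * W.G 0 < 20 * W.G 1 → W.G 1 ≠ 2 * W.G 0 → W.G 1 ≠ 3 * W.G 0 →
  2 * W.G 1 ≠ 3 * W.G 0 → False

/-- mismatched vertex `0`, left gap smaller: common hypotheses -/
structure MV (W : Wd (170919/100000) 4) (D : ℝ) : Prop where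
  hlt : W.G (-1) < W.G 0
  hD : ∀ i : ℤ, -4 ≤ i → i ≤ 4 → W.Y i ≤ D
  hD2 : D ≤ 17/50 + 1/100000 ∨ 9 * D ≤ 10 * W.Y 0
  hD3 : D ≤ 7501/10000 ∨ D ≤ W.Y 0 + 1/10000
  hbig : W.Y 0 < 19/25

/-- mismatched vertex, generic ratio -/
def MVgen : Prop := ∀ (W : Wd (170919/100000) 4) (D : ℝ), MV W D →
  W.G 0 ≠ 2 * W.G (-1) → W.G 0 ≠ 3 * W.G (-1) → 2 * W.G 0 ≠ 3 * W.G (-1) → False

/-- mismatched vertex, special ratios -/
def MVS : Prop := ∀ (W : Wd (170919/100000) 4) (D : ℝ), MV W D →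
  (W.G 0 = 2 * W.G (-1) ∨ W.G 0 = 3 * W.G (-1) ∨ 2 * W.G 0 = 3 * W.G (-1)) → False

/-- large quotient at a mismatched vertex -/
def BigTP : Prop := ∀ W : Wd (170919/100000) 4, W.G (-1) < W.G 0 → 19/25 ≤ W.Y 0 → False

end Wd
end Pool.Agent.MaxTerm8
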