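import Pool.Agent.MaxTerm8.WdBase
import Pool.Agent.MaxTerm58.THyp

/-! The outer coefficients beyond the neighbouring vertices. -/

namespace Pool.Agent.MaxTerm8
open Pool.Agent.MaxTerm59 Pool.Agent.MaxTerm58
namespace Wd
variable {n : ℕ}

/-- Right of the vertex `i` (mismatched), seen from the corner `i-1` with the gap `a h`: `y = X i ^ h`,
`c k = ‖c i (N i + (k+1) h)‖`, `u` = the index with `N (i+1) = N i + (u+1) h` if it exists (then `u + 1 ≠ a`), otherwise
any `u` with `u + 1 ≠ a`; `norm_r i`, `ball_l i` (with `S` the image of the finite set; `(X i ^ G (i-1))² = y^(2a)`), `le_one i`. -/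
theorem outN_r (W : Wd (170919/100000) n) (i : ℤ) (h1 : -(n:ℤ) ≤ i) (h2 : i ≤ n) (h a : ℕ) (hh : 0 < h) (ha : 0 < a)
    (hG : W.G (i-1) = a * h) (hm : W.G i ≠ a * h) (D : ℝ) (hD : W.X i ^ (a * h) ≤ D) (r : ℕ → ℂ)
    (hr : ∀ k : ℕ, ‖r k‖ = ‖W.c (i-1) (W.N i + ((k+1) * h : ℕ))‖) : OutN a D r := by
  have hX := W.X_pos i h1 h2
  obtain ⟨u, hu1, hu2⟩ : ∃ u : ℕ, u + 1 ≠ a ∧ ∀ k : ℕ, W.G i = (k + 1) * h → k = u := by
    by_cases hex : ∃ u : ℕ, W.G i = (u + 1) * h
    · obtain ⟨u, hu⟩ := hex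
      refine ⟨u, ?_, ?_⟩
      · intro hua
        exact hm (by rw [hu, hua])
      · intro k hk
        have := Nat.eq_of_mul_eq_mul_right hh (hk.symm.trans hu)
        omega
    · refine ⟨a, by omega, ?_⟩
      intro k hk
      exact absurd ⟨k, hk⟩ hex
  refine ⟨W.X i ^ h, fun k => ‖W.c i (W.N i + ((k+1) * h : ℕ))‖, u, (pow_pos hX _).le, ?_,
    fun _ => norm_nonneg _, fun _ => W.le_one i (by omega) h2 _, hu1, ?_, ?_⟩
  · rw [← pow_mul, mul_comm h a]; exact hD
  · intro S hS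
    have hinj : Set.InjOn (fun k : ℕ => W.N i + (((k+1) * h : ℕ) : ℤ)) (S : Set ℕ) := by
      intro x _ y _ hxy
      have hxy' : (x+1) * h = (y+1) * h := by
        have : W.N i + (((x+1) * h : ℕ) : ℤ) = W.N i + (((y+1) * h : ℕ) : ℤ) := hxy
        omega
      have := Nat.eq_of_mul_eq_mul_right hh hxy'
      omega
    have hN1 := W.N_succ i (by omega) h2
    have hN2 := W.N_succ (i-1) (by omega) (by omega)
    rw [sub_add_cancel] at hN2
    have key := W.ball_l i h1 h2 (S.image fun k : ℕ => W.N i + (((k+1) * h : ℕ) : ℤ))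
      (by
        rw [Finset.mem_image]
        rintro ⟨k, -, hk⟩
        have : 0 < (k + 1) * h := by positivity
        omega)
      (by
        rw [Finset.mem_image]
        rintro ⟨k, hkS, hk⟩
        have : W.G i = (k+1) * h := by omega
        exact hS (hu2 k this ▸ hkS))
      (by
        rw [Finset.mem_image]
        rintro ⟨k, -, hk⟩
        have : 0 < (k + 1) * h := by positivity
        omega)
    rw [Finset.sum_image hinj, hG] at key
    refine key.trans (le_of_eq ?_)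
    have e : (W.X i ^ (a * h)) ^ 2 = (W.X i ^ h) ^ (2 * a) := by
      rw [← pow_mul, ← pow_mul]; congr 1; ring
    rw [e]
  · intro k
    rw [hr k, W.norm_r i h1 h2, ← pow_mul, mul_comm h (k+1)]

/-- Left of the vertex `i` (mismatched), seen from the corner `i` with the gap `a h`: mirror image of `outN_r`
(`norm_l i`, `ball_r i`, `c k = ‖c (i-1) (N i - (k+1) h)‖`). -/
theorem outN_l (W : Wd (170919/100000) n) (i : ℤ) (h1 : -(n:ℤ) ≤ i) (h2 : i ≤ n) (h a : ℕ) (hh : 0 < h) (ha : 0 < a)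
    (hG : W.G i = a * h) (hm : W.G (i-1) ≠ a * h) (D : ℝ) (hD : W.X i ^ (a * h) ≤ D) (r : ℕ → ℂ)
    (hr : ∀ k : ℕ, ‖r k‖ = ‖W.c i (W.N i - ((k+1) * h : ℕ))‖) : OutN a D r := by
  have hX := W.X_pos i h1 h2
  obtain ⟨u, hu1, hu2⟩ : ∃ u : ℕ, u + 1 ≠ a ∧ ∀ k : ℕ, W.G (i-1) = (k + 1) * h → k = u := by
    by_cases hex : ∃ u : ℕ, W.G (i-1) = (u + 1) * h
    · obtain ⟨u, hu⟩ := hex
      refine ⟨u, ?_, ?_⟩
      · intro hua
        exact hm (by rw [hu, hua])
      · intro k hk
        have := Nat.eq_of_mul_eq_mul_right hh (hk.symm.trans hu)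
        omega
    · refine ⟨a, by omega, ?_⟩
      intro k hk
      exact absurd ⟨k, hk⟩ hex
  refine ⟨W.X i ^ h, fun k => ‖W.c (i-1) (W.N i - ((k+1) * h : ℕ))‖, u, (pow_pos hX _).le, ?_,
    fun _ => norm_nonneg _, fun _ => W.le_one (i-1) (by omega) (by omega) _, hu1, ?_, ?_⟩
  · rw [← pow_mul, mul_comm h a]; exact hD
  · intro S hS
    have hinj : Set.InjOn (fun k : ℕ => W.N i - (((k+1) * h : ℕ) : ℤ)) (S : Set ℕ) := by
      intro x _ y _ hxy
      have hxy' : (x+1) * h = (y+1) * h := by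
        have : W.N i - (((x+1) * h : ℕ) : ℤ) = W.N i - (((y+1) * h : ℕ) : ℤ) := hxy
        omega
      have := Nat.eq_of_mul_eq_mul_right hh hxy'
      omega
    have hN1 := W.N_succ i (by omega) h2
    have hN2 := W.N_succ (i-1) (by omega) (by omega)
    rw [sub_add_cancel] at hN2
    have key := W.ball_r i h1 h2 (S.image fun k : ℕ => W.N i - (((k+1) * h : ℕ) : ℤ))
      (by
        rw [Finset.mem_image]
        rintro ⟨k, -, hk⟩
        have : 0 < (k + 1) * h := by positivity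
        omega)
      (by
        rw [Finset.mem_image]
        rintro ⟨k, -, hk⟩
        have : 0 < (k + 1) * h := by positivity
        omega)
      (by
        rw [Finset.mem_image]
        rintro ⟨k, hkS, hk⟩
        have : W.G (i-1) = (k+1) * h := by omega
        exact hS (hu2 k this ▸ hkS))
    rw [Finset.sum_image hinj, hG] at key
    refine key.trans (le_of_eq ?_)
    have e : (W.X i ^ (a * h)) ^ 2 = (W.X i ^ h) ^ (2 * a) := by
      rw [← pow_mul, ← pow_mul]; congr 1; ring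
    rw [e]
  · intro k
    rw [hr k, W.norm_l i h1 h2, ← pow_mul, mul_comm h (k+1)]

end Wd
end Pool.Agent.MaxTerm8
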