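import Pool.Agent.MaxTerm8.WdBase
import Pool.Agent.MaxTerm58.THyp

namespace Pool.Agent.MaxTerm8
open Pool.Agent.MaxTerm59 Pool.Agent.MaxTerm58
namespace Wd
variable {n : ℕ}

private theorem redOut2_aux {a h k : ℕ} {D x y c : ℝ} (hx0 : 0 ≤ x) (hy0 : 0 ≤ y) (hc0 : 0 ≤ c)
    (hx : x ^ (a * h) ≤ D) (hy : y ^ (a * h) ≤ D) (hc : c ≤ y ^ ((k + 1 - a) * h)) :
    (c * x ^ ((k + 1) * h)) ^ a ≤ D ^ (k + 1 + (k + 1 - a)) := by
  have h1 : (x ^ ((k + 1) * h)) ^ a ≤ D ^ (k + 1) := by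
    have e : (x ^ ((k + 1) * h)) ^ a = (x ^ (a * h)) ^ (k + 1) := by
      rw [← pow_mul, ← pow_mul]
      congr 1
      ring
    rw [e]
    exact pow_le_pow_left₀ (pow_nonneg hx0 _) hx _
  have h2 : c ^ a ≤ D ^ (k + 1 - a) := by
    have e : (y ^ ((k + 1 - a) * h)) ^ a = (y ^ (a * h)) ^ (k + 1 - a) := by
      rw [← pow_mul, ← pow_mul]
      congr 1
      ring
    refine (pow_le_pow_left₀ hc0 hc a).trans ?_
    rw [e]
    exact pow_le_pow_left₀ (pow_nonneg hy0 _) hy _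
  have hD : 0 ≤ D := (pow_nonneg hx0 _).trans hx
  rw [mul_pow, pow_add, mul_comm (D ^ (k + 1))]
  exact mul_le_mul h2 h1 (by positivity) (pow_nonneg hD _)

/-- Right of the vertex `i` (matched, gaps `a h`): `‖r k‖ = ‖c i (N i + (k+1) h)‖ X i ^ ((k+1) h)`; if `k + 1 ≥ a` then
`N i + (k+1) h = N (i+1) + (k+1-a) h` and `‖c i (…)‖ ≤ X (i+1) ^ ((k+1-a) h)` (`size_r (i+1)`); raise to the power `a`:
`X i ^ (a h) ≤ D`, `X (i+1) ^ (a h) ≤ D`. -/
theorem outM_r (W : Wd (170919/100000) n) (i : ℤ) (h1 : -(n:ℤ) ≤ i) (h2 : i + 1 ≤ n) (h a : ℕ) (hh : 0 < h) (ha : 0 < a)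
    (hG : W.G (i-1) = a * h) (hm : W.G i = a * h) (D : ℝ) (hD : W.X i ^ (a * h) ≤ D)
    (hD2 : W.X (i+1) ^ (a * h) ≤ D) (r : ℕ → ℂ)
    (hr : ∀ k : ℕ, ‖r k‖ = ‖W.c (i-1) (W.N i + ((k+1) * h : ℕ))‖) : OutM a D r := by
  intro k
  rw [hr k, W.norm_r i h1 (by omega)]
  refine redOut2_aux (W.X_pos i h1 (by omega)).le (W.X_pos (i+1) (by omega) h2).le
    (norm_nonneg _) hD hD2 ?_
  rcases Nat.lt_or_ge (k + 1) a with hk | hk
  · have e : k + 1 - a = 0 := by omega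
    rw [e, zero_mul, pow_zero]
    exact W.le_one i (by omega) (by omega) _
  · have h3 := W.size_r (i+1) (by omega) h2 ((k + 1 - a) * h)
    have h4 := W.N_succ i (by omega) (by omega)
    rw [hm] at h4
    have e : W.N (i+1) + (((k + 1 - a) * h : ℕ) : ℤ) = W.N i + (((k + 1) * h : ℕ) : ℤ) := by
      rw [h4]
      have e2 : (k + 1) * h = a * h + (k + 1 - a) * h := by
        rw [← Nat.add_mul]
        congr 1
        omega
      rw [e2]
      push_cast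
      ring
    rw [e, add_sub_cancel_right] at h3
    exact h3

/-- mirror image of `outM_r` -/
theorem outM_l (W : Wd (170919/100000) n) (i : ℤ) (h1 : -(n:ℤ) ≤ i - 1) (h2 : i ≤ n) (h a : ℕ) (hh : 0 < h) (ha : 0 < a)
    (hG : W.G i = a * h) (hm : W.G (i-1) = a * h) (D : ℝ) (hD : W.X i ^ (a * h) ≤ D)
    (hD2 : W.X (i-1) ^ (a * h) ≤ D) (r : ℕ → ℂ)
    (hr : ∀ k : ℕ, ‖r k‖ = ‖W.c i (W.N i - ((k+1) * h : ℕ))‖) : OutM a D r := by
  intro k
  rw [hr k, W.norm_l i (by omega) h2]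
  refine redOut2_aux (W.X_pos i (by omega) h2).le (W.X_pos (i-1) h1 (by omega)).le
    (norm_nonneg _) hD hD2 ?_
  rcases Nat.lt_or_ge (k + 1) a with hk | hk
  · have e : k + 1 - a = 0 := by omega
    rw [e, zero_mul, pow_zero]
    exact W.le_one (i-1) (by omega) (by omega) _
  · have h3 := W.size_l (i-1) h1 (by omega) ((k + 1 - a) * h)
    have h4 := W.N_succ (i-1) (by omega) (by omega)
    rw [sub_add_cancel, hm] at h4
    have e : W.N (i-1) - (((k + 1 - a) * h : ℕ) : ℤ) = W.N i - (((k + 1) * h : ℕ) : ℤ) := by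
      rw [h4]
      have e2 : (k + 1) * h = a * h + (k + 1 - a) * h := by
        rw [← Nat.add_mul]
        congr 1
        omega
      rw [e2]
      push_cast
      ring
    rw [e] at h3
    exact h3

end Wd
end Pool.Agent.MaxTerm8
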