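import Pool.Agent.MaxTerm8.RedT
import Pool.Agent.MaxTerm8.RedM
import Pool.Agent.MaxTerm8.Asm

/-! From the final theorems on `HypT`, `HypM` to the black boxes. -/

namespace Pool.Agent.MaxTerm8
open Pool.Agent.MaxTerm59 Pool.Agent.MaxTerm58
namespace Wd

theorem GoodMM.T_le {W : Wd (170919/100000) 4} (H : GoodMM W) :
    W.X 1 ^ W.G 0 ≤ 9/10 * (‖W.q0‖ + 1/100000) := by
  rw [H.toGood.norm]
  exact H.toGood.pow_r.trans (H.mis 1 (by norm_num) (by norm_num) (by simpa using H.mR.symm))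

theorem GoodMM.q_ge {W : Wd (170919/100000) 4} (H : GoodMM W) : 17/50 ≤ ‖W.q0‖ := by
  rw [H.toGood.norm]
  exact H.big

theorem t1out_of (h : ∀ (q : ℂ) (T : ℝ) (v : ℤ → ℂ), HypT q T v → T ≤ 9/10 * (‖q‖ + 1/100000) →
    17/50 ≤ ‖q‖ → ‖q‖ ≤ 3/4 → InU q.re |q.im| → ¬(‖q‖ ≤ 141/200 ∧ InU2 q.re |q.im|) → False) : T1out := by
  intro W H hU h34
  obtain ⟨v, hv, -, -, -⟩ := hypT_of_wd W H
  by_contra hc
  exact h _ _ _ hv H.T_le H.q_ge h34 hU (fun h' => hc ⟨h'.2, h'.1⟩)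

theorem t1in_of (h : ∀ (q : ℂ) (T : ℝ) (v : ℤ → ℂ), HypT q T v → T ≤ 64/100 * (‖q‖ + 1/100000) →
    OutN 1 T (fun i => v (-3 - (i:ℤ))) → OutN 1 T (fun i => v (1 + (i:ℤ))) →
    17/50 ≤ ‖q‖ → ‖q‖ ≤ 141/200 → InU2 q.re |q.im| → False) : T1in (64/100) := by
  intro W H hU h141 hT
  obtain ⟨v, hv, h1, h2, -⟩ := hypT_of_wd W H
  refine h _ _ _ hv ?_ h1 h2 H.q_ge h141 hU
  linarith

theorem f2small_of (h : ∀ (q : ℂ) (T : ℝ) (v : ℤ → ℂ), HypT q T v → T ≤ 9/10 * (‖q‖ + 1/100000) →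
    OutN 1 T (fun i => v (-3 - (i:ℤ))) →
    (∀ i : ℕ, ‖v (1 + (i:ℤ))‖ ^ 17 ≤ (T ^ 17) ^ (i + 1) * (‖q‖ + 1/100000) ^ (20 * i + 3)) →
    17/50 ≤ ‖q‖ → ‖q‖ ≤ 141/200 → InU2 q.re |q.im| → False) : F2small := by
  intro W H hU h141 hb
  obtain ⟨v, hv, h1, -, h3⟩ := hypT_of_wd W H
  exact h _ _ _ hv H.T_le h1 (h3 hb) H.q_ge h141 hU

theorem mvs_of (h : ∀ (a b : ℕ) (x : ℂ) (D : ℝ) (v : ℤ → ℂ),
    ((a = 1 ∧ b = 2) ∨ (a = 2 ∧ b = 3) ∨ (a = 1 ∧ b = 3)) → HypM a b x D v →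
    (OutM b D (fun i => v (b + 1 + (i:ℤ))) ∨ OutN b D (fun i => v (b + 1 + (i:ℤ)))) →
    (OutM a D (fun i => v (-(a:ℤ) - 1 - (i:ℤ))) ∨ OutN a D (fun i => v (-(a:ℤ) - 1 - (i:ℤ)))) → False) : MVS := by
  intro W D H hr
  have ha := W.G_pos (-1) (by norm_num) (by norm_num)
  rcases hr with hr | hr | hr
  · obtain ⟨x, v, h1, h2, h3⟩ := hypM_of_wd W D H (W.G (-1)) 1 2 ha (by norm_num) (by norm_num) (by ring) (by omega)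
    exact h 1 2 x D v (Or.inl ⟨rfl, rfl⟩) h1 h2 h3
  · obtain ⟨x, v, h1, h2, h3⟩ := hypM_of_wd W D H (W.G (-1)) 1 3 ha (by norm_num) (by norm_num) (by ring) (by omega)
    exact h 1 3 x D v (Or.inr (Or.inr ⟨rfl, rfl⟩)) h1 h2 h3
  · obtain ⟨k, hk⟩ : ∃ k, W.G (-1) = 2 * k := ⟨W.G 0 - W.G (-1), by omega⟩
    obtain ⟨x, v, h1, h2, h3⟩ := hypM_of_wd W D H k 2 3 (by omega) (by norm_num) (by norm_num) hk (by omega)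
    exact h 2 3 x D v (Or.inr (Or.inl ⟨rfl, rfl⟩)) h1 h2 h3

end Wd
end Pool.Agent.MaxTerm8
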