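import Pool.Agent.MaxTerm8.RedOut
import Pool.Agent.MaxTerm8.RedOut2
import Pool.Agent.MaxTerm59b.Hyp

/-! The outer coefficients beyond the neighbouring vertices: structures `OutA`, `OutU`. -/

namespace Pool.Agent.MaxTerm8
open Pool.Agent.MaxTerm59 Pool.Agent.MaxTerm58 Pool.Agent.MaxTerm59b
namespace Wd
variable {n : ℕ}

theorem outB_r (W : Wd (170919/100000) n) (i : ℤ) (h1 : -(n:ℤ) ≤ i) (h2 : i ≤ n) (h a : ℕ) (hh : 0 < h)
    (hG : W.G (i-1) = a * h) (D : ℝ) (hD : W.X i ^ (a * h) ≤ D) (r : ℕ → ℂ)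
    (hr : ∀ k : ℕ, ‖r k‖ = ‖W.c (i-1) (W.N i + ((k+1) * h : ℕ))‖) :
    ∃ (y : ℝ) (c : ℕ → ℝ), 0 ≤ y ∧ y ^ a ≤ D ∧ (∀ i, 0 ≤ c i) ∧ (∀ i, c i ≤ 1) ∧
    (∀ u : ℕ, (∀ k : ℕ, W.G i = (k + 1) * h → k = u) → ∀ S : Finset ℕ, u ∉ S →
      ∑ i ∈ S, c i ^ 2 ≤ (170919 / 100000) ^ 2 - 2 - y ^ (2 * a)) ∧
    ∀ i, ‖r i‖ ≤ c i * y ^ (i + 1) := by
  have hX := W.X_pos i h1 h2
  refine ⟨W.X i ^ h, fun k => ‖W.c i (W.N i + ((k+1) * h : ℕ))‖, (pow_pos hX _).le, ?_,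
    fun _ => norm_nonneg _, fun _ => W.le_one i (by omega) h2 _, ?_, ?_⟩
  · rw [← pow_mul, mul_comm h a]; exact hD
  · intro u hu2 S hS
    have hinj : Set.InjOn (fun k : ℕ => W.N i + (((k+1) * h : ℕ) : ℤ)) (S : Set ℕ) := by
      intro x _ y _ hxy
      have hxy' : (x+1) * h = (y+1) * h := by
        have : W.N i + (((x+1) * h : ℕ) : ℤ) = W.N i + (((y+1) * h : ℕ) : ℤ) := hxy
        omega
      have := Nat.eq_of_mul_eq_mul_right hh hxy'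
      omega
    have hN1 := W.N_succ i (by omega) h2
    have hN2 := W.N_succ (i-1) (by omega) (by omega)
    rw [sub_add_cancel] at hN2
    have key := W.ball_l i h1 h2 (S.image fun k : ℕ => W.N i + (((k+1) * h : ℕ) : ℤ))
      (by
        rw [Finset.mem_image]
        rintro ⟨k, -, hk⟩
        have : 0 < (k + 1) * h := by positivity
        omega)
      (by
        rw [Finset.mem_image]
        rintro ⟨k, hkS, hk⟩
        have : W.G i = (k+1) * h := by omega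
        exact hS (hu2 k this ▸ hkS))
      (by
        rw [Finset.mem_image]
        rintro ⟨k, -, hk⟩
        have : 0 < (k + 1) * h := by positivity
        omega)
    rw [Finset.sum_image hinj, hG] at key
    refine key.trans (le_of_eq ?_)
    have e : (W.X i ^ (a * h)) ^ 2 = (W.X i ^ h) ^ (2 * a) := by
      rw [← pow_mul, ← pow_mul]; congr 1; ring
    rw [e]
  · intro k
    rw [hr k, W.norm_r i h1 h2, ← pow_mul, mul_comm h (k+1)]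


theorem outB_l (W : Wd (170919/100000) n) (i : ℤ) (h1 : -(n:ℤ) ≤ i) (h2 : i ≤ n) (h a : ℕ) (hh : 0 < h)
    (hG : W.G i = a * h) (D : ℝ) (hD : W.X i ^ (a * h) ≤ D) (r : ℕ → ℂ)
    (hr : ∀ k : ℕ, ‖r k‖ = ‖W.c i (W.N i - ((k+1) * h : ℕ))‖) :
    ∃ (y : ℝ) (c : ℕ → ℝ), 0 ≤ y ∧ y ^ a ≤ D ∧ (∀ i, 0 ≤ c i) ∧ (∀ i, c i ≤ 1) ∧
    (∀ u : ℕ, (∀ k : ℕ, W.G (i-1) = (k + 1) * h → k = u) → ∀ S : Finset ℕ, u ∉ S →
      ∑ i ∈ S, c i ^ 2 ≤ (170919 / 100000) ^ 2 - 2 - y ^ (2 * a)) ∧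
    ∀ i, ‖r i‖ ≤ c i * y ^ (i + 1) := by
  have hX := W.X_pos i h1 h2
  refine ⟨W.X i ^ h, fun k => ‖W.c (i-1) (W.N i - ((k+1) * h : ℕ))‖, (pow_pos hX _).le, ?_,
    fun _ => norm_nonneg _, fun _ => W.le_one (i-1) (by omega) (by omega) _, ?_, ?_⟩
  · rw [← pow_mul, mul_comm h a]; exact hD
  · intro u hu2 S hS
    have hinj : Set.InjOn (fun k : ℕ => W.N i - (((k+1) * h : ℕ) : ℤ)) (S : Set ℕ) := by
      intro x _ y _ hxy
      have hxy' : (x+1) * h = (y+1) * h := by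
        have : W.N i - (((x+1) * h : ℕ) : ℤ) = W.N i - (((y+1) * h : ℕ) : ℤ) := hxy
        omega
      have := Nat.eq_of_mul_eq_mul_right hh hxy'
      omega
    have hN1 := W.N_succ i (by omega) h2
    have hN2 := W.N_succ (i-1) (by omega) (by omega)
    rw [sub_add_cancel] at hN2
    have key := W.ball_r i h1 h2 (S.image fun k : ℕ => W.N i - (((k+1) * h : ℕ) : ℤ))
      (by
        rw [Finset.mem_image]
        rintro ⟨k, -, hk⟩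
        have : 0 < (k + 1) * h := by positivity
        omega)
      (by
        rw [Finset.mem_image]
        rintro ⟨k, -, hk⟩
        have : 0 < (k + 1) * h := by positivity
        omega)
      (by
        rw [Finset.mem_image]
        rintro ⟨k, hkS, hk⟩
        have : W.G (i-1) = (k+1) * h := by omega
        exact hS (hu2 k this ▸ hkS))
    rw [Finset.sum_image hinj, hG] at key
    refine key.trans (le_of_eq ?_)
    have e : (W.X i ^ (a * h)) ^ 2 = (W.X i ^ h) ^ (2 * a) := by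
      rw [← pow_mul, ← pow_mul]; congr 1; ring
    rw [e]
  · intro k
    rw [hr k, W.norm_l i h1 h2, ← pow_mul, mul_comm h (k+1)]


theorem outA_r (W : Wd (170919/100000) n) (i : ℤ) (h1 : -(n:ℤ) ≤ i) (h2 : i ≤ n) (h a : ℕ) (hh : 0 < h)
    (hG : W.G (i-1) = a * h) (D : ℝ) (hD : W.X i ^ (a * h) ≤ D) (r : ℕ → ℂ)
    (hr : ∀ k : ℕ, ‖r k‖ = ‖W.c (i-1) (W.N i + ((k+1) * h : ℕ))‖) : OutA a D r := by
  obtain ⟨y, c, a1, a2, a3, a4, a5, a6⟩ := W.outB_r i h1 h2 h a hh hG D hD r hr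
  obtain ⟨u, hu⟩ : ∃ u : ℕ, ∀ k : ℕ, W.G i = (k + 1) * h → k = u := by
    by_cases hex : ∃ u : ℕ, W.G i = (u + 1) * h
    · obtain ⟨u, hu⟩ := hex
      refine ⟨u, ?_⟩
      intro k hk
      have := Nat.eq_of_mul_eq_mul_right hh (hk.symm.trans hu)
      omega
    · exact ⟨0, fun k hk => absurd ⟨k, hk⟩ hex⟩
  exact ⟨y, c, u, a1, a2, a3, a4, a5 u hu, a6⟩

theorem outU_r (W : Wd (170919/100000) n) (i : ℤ) (h1 : -(n:ℤ) ≤ i) (h2 : i + 1 ≤ n) (h a : ℕ) (hh : 0 < h) (ha : 0 < a)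
    (hG : W.G (i-1) = a * h) (hm : W.G i = a * h) (D : ℝ) (hD : W.X i ^ (a * h) ≤ D)
    (hD2 : W.X (i+1) ^ (a * h) ≤ D) (r : ℕ → ℂ)
    (hr : ∀ k : ℕ, ‖r k‖ = ‖W.c (i-1) (W.N i + ((k+1) * h : ℕ))‖) : OutU a D r := by
  refine ⟨W.outM_r i h1 h2 h a hh ha hG hm D hD hD2 r hr, ?_⟩
  obtain ⟨y, c, a1, a2, a3, a4, a5, a6⟩ := W.outB_r i h1 (by omega) h a hh hG D hD r hr
  refine ⟨y, c, a1, a2, a3, a4, a5 (a - 1) ?_, a6⟩
  intro k hk
  have := Nat.eq_of_mul_eq_mul_right hh (hk.symm.trans hm)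
  omega

theorem outU_l (W : Wd (170919/100000) n) (i : ℤ) (h1 : -(n:ℤ) ≤ i - 1) (h2 : i ≤ n) (h a : ℕ) (hh : 0 < h) (ha : 0 < a)
    (hG : W.G i = a * h) (hm : W.G (i-1) = a * h) (D : ℝ) (hD : W.X i ^ (a * h) ≤ D)
    (hD2 : W.X (i-1) ^ (a * h) ≤ D) (r : ℕ → ℂ)
    (hr : ∀ k : ℕ, ‖r k‖ = ‖W.c i (W.N i - ((k+1) * h : ℕ))‖) : OutU a D r := by
  refine ⟨W.outM_l i h1 h2 h a hh ha hG hm D hD hD2 r hr, ?_⟩
  obtain ⟨y, c, a1, a2, a3, a4, a5, a6⟩ := W.outB_l i (by omega) h2 h a hh hG D hD r hr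
  refine ⟨y, c, a1, a2, a3, a4, a5 (a - 1) ?_, a6⟩
  intro k hk
  have := Nat.eq_of_mul_eq_mul_right hh (hk.symm.trans hm)
  omega

end Wd
end Pool.Agent.MaxTerm8
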