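import Pool.Agent.MaxTerm8.WdVV1
import Pool.Agent.MaxTerm8.WdVV2
import Pool.Agent.MaxTerm8.WdVV3
import Pool.Agent.MaxTerm8.RedOut3
import Pool.Agent.MaxTerm8.Asm

namespace Pool.Agent.MaxTerm8
open Pool.Agent.MaxTerm59 Pool.Agent.MaxTerm58 Pool.Agent.MaxTerm59b
namespace Wd

/-- window → `HypG` -/
theorem hypG_of_wd (W : Wd (170919/100000) 4) (H : GoodMM W)
    (ht : 64/100 * ‖W.q0‖ < W.X 1 ^ W.G 0) : ∃ (s t : ℂ) (v : ℤ → ℂ), s ^ W.G 0 = W.q0 ∧
      HypG (W.G 0) (W.G 1) s t v := by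
  have hg := W.G_pos 0 (by norm_num) (by norm_num)
  obtain ⟨u, w, s, t, hu, hw, hs, htt, hsq, v2, v1, v0, vr⟩ := W.exists_vv (by norm_num) 1 (W.G 0)
    one_pos hg (by rw [mul_one]; exact H.m0) (by rw [mul_one])
  rw [pow_one] at hs htt
  have hX0 := W.X_pos 0 (by norm_num) (by norm_num)
  have hX1 := W.X_pos 1 (by norm_num) (by norm_num)
  have hb := W.G_pos 1 (by norm_num) (by norm_num)
  have hq : ‖W.q0‖ = ‖s‖ ^ W.G 0 := by rw [← hsq, norm_pow]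
  refine ⟨s, t, W.vv 1 (W.G 0) u w s t, hsq, ⟨v2, v1, v0, vr (W.G 1) hb (by rw [mul_one]), ?_, ?_, ?_, ?_, ?_, ?_, ?_⟩⟩
  · intro h0
    rw [h0, norm_zero] at hs
    exact absurd hs hX0.ne
  · intro h0
    rw [h0, norm_zero] at htt
    exact absurd htt hX1.ne
  · rw [← hq, htt]
    exact ht
  · rw [← hq, htt]
    rw [H.toGood.norm]
    exact H.toGood.pow_r.trans (H.mis 1 (by norm_num) (by norm_num) (by simpa using H.mR.symm))
  · refine W.outN_l (-1) (by norm_num) (by norm_num) 1 (W.G 0) one_pos hg (by rw [mul_one]; exact H.m0)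
      (by rw [mul_one]; exact H.mL) _ (by rw [mul_one, htt]; exact H.hlt) _ ?_
    intro k
    have h1 := W.vv_norm_l (by norm_num) 1 (W.G 0) (by rw [mul_one]) u w s t hu hw (by rw [pow_one]; exact hs)
      (W.G 0 + 1 + k)
    have h2 := W.N_succ (-1) (by norm_num) (by norm_num)
    rw [show (-1 : ℤ) + 1 = 0 by norm_num, H.m0] at h2
    have e1 : -((W.G 0 : ℕ) : ℤ) - ((W.G 0 + 1 + k : ℕ) : ℤ) = -(2 * ((W.G 0 : ℕ) : ℤ)) - 1 - (k:ℤ) := by
      push_cast; ring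
    have e2 : W.N 0 - (((W.G 0 + 1 + k) * 1 : ℕ) : ℤ) = W.N (-1) - (((k+1) * 1 : ℕ) : ℤ) := by
      rw [h2]; push_cast; ring
    rw [e1, e2] at h1
    exact h1
  · refine W.outA_r 2 (by norm_num) (by norm_num) 1 (W.G 1) one_pos (by rw [mul_one]; rfl) _ ?_ _ ?_
    · rw [mul_one, ← hq, H.toGood.norm]
      have h1 := W.pow_l_le_Y 2 (by norm_num) (by norm_num)
      rw [show (2 : ℤ) - 1 = 1 by norm_num] at h1
      exact h1.trans (H.all 2 (by norm_num) (by norm_num))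
    · intro k
      have h1 := W.vv_norm_r (by norm_num) 1 (W.G 0) u w s t hu hw (by rw [pow_one]; exact htt)
        (W.G 1 + 1 + k)
      have h2 := W.N_succ 1 (by norm_num) (by norm_num)
      rw [show (1 : ℤ) + 1 = 2 by norm_num] at h2
      have e1 : ((W.G 1 + 1 + k : ℕ) : ℤ) = ((W.G 1 : ℕ) : ℤ) + 1 + (k:ℤ) := by
        push_cast; ring
      have e2 : W.N 1 + (((W.G 1 + 1 + k) * 1 : ℕ) : ℤ) = W.N 2 + (((k+1) * 1 : ℕ) : ℤ) := by
        rw [h2]; push_cast; ring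
      rw [e1, e2] at h1
      rw [show (2 : ℤ) - 1 = 1 by norm_num]
      exact h1
  · exact W.vv_bd (by norm_num) 1 (W.G 0) one_pos (by rw [mul_one]) u w s t hu hw (by rw [pow_one]; exact hs)
      (by rw [pow_one]; exact htt)

/-- from the theorem on `HypG` to the black box -/
theorem f2g_of (h : ∀ (g b : ℕ) (s t : ℂ) (v : ℤ → ℂ), 0 < g → 0 < b → HypG g b s t v → 17/50 ≤ ‖s ^ g‖ →
    ‖s ^ g‖ ≤ 141/200 → InU2 (s ^ g).re |(s ^ g).im| → 17 * g < 20 * b → b ≠ g → b ≠ 2 * g → b ≠ 3 * g →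
    2 * b ≠ 3 * g → False) : F2gen (64/100) := by
  intro W H hU h141 ht h17 h2 h3 h32
  obtain ⟨s, t, v, hs, hv⟩ := hypG_of_wd W H ht
  refine h _ _ s t v (W.G_pos 0 (by norm_num) (by norm_num)) (W.G_pos 1 (by norm_num) (by norm_num)) hv ?_ ?_ ?_
    h17 H.mR h2 h3 h32
  · rw [hs, H.toGood.norm]
    exact H.big
  · rw [hs]
    exact h141
  · rw [hs]
    exact hU

end Wd
end Pool.Agent.MaxTerm8
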