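import Pool.Agent.MaxTerm8.RedMU

namespace Pool.Agent.MaxTerm8
open Pool.Agent.MaxTerm59 Pool.Agent.MaxTerm58 Pool.Agent.MaxTerm59b
namespace Wd

/-- from the theorem on `HypM` to the black box `MVgen` -/
theorem mvg_of (h : ∀ (a b : ℕ) (x : ℂ) (D : ℝ) (v : ℤ → ℂ), 0 < a → a < b → b ≠ 2 * a → b ≠ 3 * a →
    2 * b ≠ 3 * a → HypM a b x D v → (D ≤ 7501/10000 ∨ D ≤ ‖x‖ ^ a + 1/10000) →
    (OutU b D (fun i => v (b + 1 + (i:ℤ))) ∨ OutN b D (fun i => v (b + 1 + (i:ℤ)))) →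
    (OutU a D (fun i => v (-(a:ℤ) - 1 - (i:ℤ))) ∨ OutN a D (fun i => v (-(a:ℤ) - 1 - (i:ℤ)))) → False) :
    MVgen := by
  intro W D H h2 h3 h32
  obtain ⟨x, v, g1, g2, g3, g4⟩ := hypMU_of_wd W D H 1 (W.G (-1)) (W.G 0) one_pos
    (W.G_pos (-1) (by norm_num) (by norm_num)) H.hlt (by rw [mul_one]) (by rw [mul_one])
  exact h _ _ x D v (W.G_pos (-1) (by norm_num) (by norm_num)) H.hlt h2 h3 h32 g1 g2 g3 g4

end Wd
end Pool.Agent.MaxTerm8
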