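import Pool.Agent.MaxTerm8.FinalJ

/-! **Step C**: the final theorem. -/

namespace Pool.Agent.MaxTerm8

open Complex ComplexConjugate

/-- truncation error -/
noncomputable def eps (J : ℕ) : ℝ := ∑' j : ℕ, 2 * (17 / 50 : ℝ) ^ tri (j + (J + 1))

private theorem Final_tri_ge (j : ℕ) : j ≤ tri j := by
  unfold tri
  rw [Nat.le_div_iff_mul_le (by norm_num)]
  rcases Nat.eq_zero_or_pos j with h | h
  · subst h
    simp
  · exact Nat.mul_le_mul_left j (by omega)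

private theorem Final_summ : Summable fun j : ℕ => 2 * (17 / 50 : ℝ) ^ tri j := by
  apply Summable.mul_left
  refine Summable.of_nonneg_of_le (fun j => by positivity) (fun j => ?_)
    (summable_geometric_of_lt_one (by norm_num : (0 : ℝ) ≤ 17 / 50) (by norm_num))
  exact pow_le_pow_of_le_one (by norm_num) (by norm_num) (Final_tri_ge j)

private theorem Final_eps_nonneg (J : ℕ) : 0 ≤ eps J :=
  tsum_nonneg fun j => by positivity

private theorem Final_sum_sub (j : ℕ) : ∑ i ∈ Finset.range j, (j - i) = tri j := by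
  have h1 : ∑ i ∈ Finset.range j, (j - i) = ∑ i ∈ Finset.range (j + 1), i := by
    rw [Finset.sum_range_succ' (fun i => i), add_zero]
    rw [← Finset.sum_range_reflect]
    refine Finset.sum_congr rfl fun i hi => ?_
    have := Finset.mem_range.1 hi
    omega
  rw [h1, Finset.sum_range_id]
  unfold tri
  rw [Nat.add_sub_cancel, mul_comm]

private theorem Final_prod (j : ℕ) (f : ℕ → ℂ) (hf : ∀ i, ‖f i‖ ≤ 17 / 50) :
    ‖∏ i ∈ Finset.range j, f i ^ (j - i)‖ ≤ (17 / 50 : ℝ) ^ tri j := by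
  rw [norm_prod, ← Final_sum_sub j, ← Finset.prod_pow_eq_pow_sum]
  refine Finset.prod_le_prod (fun i _ => norm_nonneg _) fun i _ => ?_
  rw [norm_pow]
  exact pow_le_pow_left₀ (norm_nonneg _) (hf i) _

private theorem Final_FT (ψ : ℤ → ℂ) (hψ : ∀ k, ‖ψ k‖ ≤ 17 / 50) (k : ℤ) (t : ℝ) (j : ℕ) :
    ‖FT ψ k t j‖ ≤ 2 * (17 / 50 : ℝ) ^ tri j := by
  have e1 : ‖exp (-((2 * (j : ℂ) + 1) * t * I))‖ = 1 := by
    rw [show (-((2 * (j : ℂ) + 1) * t * I)) = (((-((2 * (j : ℝ) + 1) * t) : ℝ)) : ℂ) * I by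
      push_cast; ring]
    exact norm_exp_ofReal_mul_I _
  have e2 : ‖exp ((2 * (j : ℂ) + 1) * t * I)‖ = 1 := by
    rw [show ((2 * (j : ℂ) + 1) * t * I) = ((((2 * (j : ℝ) + 1) * t : ℝ)) : ℂ) * I by
      push_cast; ring]
    exact norm_exp_ofReal_mul_I _
  have h1 : ‖TL ψ k j‖ ≤ (17 / 50 : ℝ) ^ tri j :=
    Final_prod j (fun i => ψ (k - i)) fun i => hψ _
  have h2 : ‖TR ψ k j‖ ≤ (17 / 50 : ℝ) ^ tri j :=
    Final_prod j (fun i => ψ (k + 1 + i)) fun i => hψ _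
  unfold FT
  refine (norm_add_le _ _).trans ?_
  rw [norm_mul, norm_mul, e1, e2, mul_one, mul_one]
  linarith

private theorem Final_ThT (q : ℂ) (hq : ‖q‖ ≤ 17 / 50) (t : ℝ) (j : ℕ) :
    ‖ThT q t j‖ ≤ 2 * (17 / 50 : ℝ) ^ tri j := by
  unfold ThT
  rw [norm_mul, norm_mul, norm_pow, Complex.norm_real, Real.norm_eq_abs]
  have h1 : ‖(2 : ℂ)‖ = 2 := by simp
  rw [h1]
  have h2 : |Real.cos ((2 * (j : ℝ) + 1) * t)| ≤ 1 := Real.abs_cos_le_one _
  have h3 : ‖q‖ ^ tri j ≤ (17 / 50 : ℝ) ^ tri j := pow_le_pow_left₀ (norm_nonneg _) hq _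
  calc 2 * ‖q‖ ^ tri j * |Real.cos ((2 * (j : ℝ) + 1) * t)|
      ≤ 2 * ‖q‖ ^ tri j * 1 := mul_le_mul_of_nonneg_left h2 (by positivity)
    _ ≤ 2 * (17 / 50 : ℝ) ^ tri j := by linarith

private theorem Final_tail (f : ℕ → ℂ) (hf : ∀ j, ‖f j‖ ≤ 2 * (17 / 50 : ℝ) ^ tri j) (J : ℕ) :
    ‖∑' j, f j - ∑ j ∈ Finset.range (J + 1), f j‖ ≤ eps J := by
  have hs : Summable f := Summable.of_norm_bounded Final_summ hf
  rw [← hs.sum_add_tsum_nat_add (J + 1), add_sub_cancel_left]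
  exact tsum_of_norm_bounded ((summable_nat_add_iff (J + 1)).2 Final_summ).hasSum
    fun j => hf (j + (J + 1))

theorem eps_tendsto : Filter.Tendsto eps Filter.atTop (nhds 0) :=
  (tendsto_sum_nat_add fun j : ℕ => 2 * (17 / 50 : ℝ) ^ tri j).comp
    (Filter.tendsto_add_atTop_nat 1)

/-- `‖TL ψ k j‖, ‖TR ψ k j‖ ≤ (17/50)^(tri j)`; the norm of the tail of the series. -/
theorem ff_sub (J : ℕ) (ψ : ℤ → ℂ) (hψ : ∀ k, ‖ψ k‖ ≤ 17 / 50) (k : ℤ) (t : ℝ) :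
    ‖FF ψ k t - FJ J ψ k t‖ ≤ eps J :=
  Final_tail (FT ψ k t) (Final_FT ψ hψ k t) J

theorem th_sub (J : ℕ) (q : ℂ) (hq : ‖q‖ ≤ 17 / 50) (t : ℝ) :
    ‖Th q t - ThJ J q t‖ ≤ eps J :=
  Final_tail (ThT q t) (Final_ThT q hq t) J

/-- **Step C.** If every corner function of a bi-infinite sequence of quotients of modulus at most `17/50`
is bounded by `√M`, then `M` is at least the minimum over `‖q‖ ≤ 17/50` of the maximum modulus squared of
the theta functions. Proof: `coreJ` with `κ_J = (max 0 (√κ - eps J))^2` and `M_J = (√M + eps J)^2`;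
let `J → ∞` (if `κ ≤ 0` use `0 ≤ M`). -/
theorem stepC (κ : ℝ) (hκ : ∀ q : ℂ, ‖q‖ ≤ 17 / 50 → ∃ t : ℝ, κ ≤ ‖Th q t‖ ^ 2) (ψ : ℤ → ℂ)
    (hψ : ∀ k, ‖ψ k‖ ≤ 17 / 50) (M : ℝ) (h : ∀ (k : ℤ) (t : ℝ), ‖FF ψ k t‖ ^ 2 ≤ M) : κ ≤ M := by
  have hM : 0 ≤ M := (sq_nonneg _).trans (h 0 0)
  rcases le_or_gt κ 0 with hk | hk
  · exact hk.trans hM
  have key : ∀ J, 5 ≤ J → (max 0 (√κ - eps J)) ^ 2 ≤ (√M + eps J) ^ 2 := by
    intro J hJ
    refine coreJ J hJ _ (fun q hq => ?_) ψ hψ _ (fun k t => ?_)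
    · obtain ⟨t, ht⟩ := hκ q hq
      refine ⟨t, pow_le_pow_left₀ (le_max_left _ _) (max_le (norm_nonneg _) ?_) 2⟩
      have h1 : √κ ≤ ‖Th q t‖ := by
        rw [← Real.sqrt_sq (norm_nonneg (Th q t))]
        exact Real.sqrt_le_sqrt ht
      have h2 := th_sub J q hq t
      have h3 : ‖Th q t‖ ≤ ‖Th q t - ThJ J q t‖ + ‖ThJ J q t‖ := by
        have := norm_add_le (Th q t - ThJ J q t) (ThJ J q t)
        rwa [sub_add_cancel] at this
      linarith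
    · refine pow_le_pow_left₀ (norm_nonneg _) ?_ 2
      have h1 : ‖FF ψ k t‖ ≤ √M := Real.le_sqrt_of_sq_le (h k t)
      have h2 := ff_sub J ψ hψ k t
      have h3 : ‖FJ J ψ k t‖ ≤ ‖FF ψ k t - FJ J ψ k t‖ + ‖FF ψ k t‖ := by
        have := norm_sub_le (FF ψ k t) (FF ψ k t - FJ J ψ k t)
        rw [sub_sub_cancel] at this
        linarith
      linarith
  have l1 : Filter.Tendsto (fun J => (max 0 (√κ - eps J)) ^ 2) Filter.atTop
      (nhds ((max 0 (√κ - 0)) ^ 2)) :=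
    (tendsto_const_nhds.max (tendsto_const_nhds.sub eps_tendsto)).pow 2
  have l2 : Filter.Tendsto (fun J => (√M + eps J) ^ 2) Filter.atTop (nhds ((√M + 0) ^ 2)) :=
    (tendsto_const_nhds.add eps_tendsto).pow 2
  have h5 := le_of_tendsto_of_tendsto l1 l2
    (Filter.eventually_atTop.2 ⟨5, fun J hJ => key J hJ⟩)
  rwa [sub_zero, add_zero, max_eq_right (Real.sqrt_nonneg κ), Real.sq_sqrt hk.le,
    Real.sq_sqrt hM] at h5

/-- `‖Th q1 t‖^2 ≤ kp`: limit of `th_gj`, `upper`. -/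
theorem theta_q1_le (t : ℝ) : ‖Th q1 t‖ ^ 2 ≤ kp := by
  have hq : ‖q1‖ ≤ 17 / 50 := by
    have h1 : ‖q1‖ ^ 2 ≤ (17 / 50) ^ 2 := by
      rw [Complex.sq_norm, Complex.normSq_apply]
      norm_num [q1]
    exact le_of_sq_le_sq h1 (by norm_num)
  have hkp : (0 : ℝ) ≤ kp := by
    unfold kp
    norm_num
  have key : ∀ J, 5 ≤ J → ‖Th q1 t‖ ≤ √kp + eps J := by
    intro J hJ
    have h1 := th_gj J q1 t
    have h2 := upper J hJ (Real.cos (2 * t)) (Real.neg_one_le_cos _) (Real.cos_le_one _)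
    have h3 : 0 ≤ 17 / 20 * (1 - Real.cos (2 * t)) * (Real.cos (2 * t) - xh) ^ 2 :=
      mul_nonneg (mul_nonneg (by norm_num) (sub_nonneg.2 (Real.cos_le_one _))) (sq_nonneg _)
    have h4 : ‖ThJ J q1 t‖ ≤ √kp := Real.le_sqrt_of_sq_le (by rw [h1]; linarith)
    have h5 := th_sub J q1 hq t
    have h6 : ‖Th q1 t‖ ≤ ‖Th q1 t - ThJ J q1 t‖ + ‖ThJ J q1 t‖ := by
      have := norm_add_le (Th q1 t - ThJ J q1 t) (ThJ J q1 t)
      rwa [sub_add_cancel] at this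
    linarith
  have l2 : Filter.Tendsto (fun J => √kp + eps J) Filter.atTop (nhds (√kp + 0)) :=
    tendsto_const_nhds.add eps_tendsto
  have h5 : ‖Th q1 t‖ ≤ √kp + 0 :=
    ge_of_tendsto l2 (Filter.eventually_atTop.2 ⟨5, fun J hJ => key J hJ⟩)
  rw [add_zero] at h5
  calc ‖Th q1 t‖ ^ 2 ≤ √kp ^ 2 := pow_le_pow_left₀ (norm_nonneg _) h5 2
    _ = kp := Real.sq_sqrt hkp

end Pool.Agent.MaxTerm8
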