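import Pool.Agent.MaxTerm8.ConstLoc
import Pool.Agent.MaxTerm8.Final

/-! A lower bound for the minimum of the maxima of the theta functions, up to nine digits. -/

namespace Pool.Agent.MaxTerm8

open Complex ComplexConjugate

/-- `CB.main` with an arbitrary threshold -/
def CB.mainT (thr ρ τ : ℚ) (z : CB) (B : Bx) : Bool :=
  let d := z.D B.ct
  decide (thr ≤ 4 * (z.P B.ct).re - nuQ z.w z.x z.Y0 z.Y1 - 4 * (|d.re| * B.hx + |d.im| * B.hy) -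
    2 * z.q ρ * (B.hx ^ 2 + B.hy ^ 2) - τ)

def bxLow : Bx := ⟨-191226 / 1000000, -191186 / 1000000, 204877 / 1000000, 204917 / 1000000⟩

def cbLow : CB := mkB (14494557473 / 50000000000) (5521600569 / 20000000000)
  (82598473849 / 50000000000) (43847897029 / 100000000000) (212857246701 / 100000000000)
  (-4367170077 / 20000000000) (7662 / 10000) (2892 / 10000)

theorem chk_low : (cbLow.side (281 / 1000) bxLow &&
    CB.mainT (2921266957 / 1000000000) (281 / 1000) (4 / 100000000000) cbLow bxLow) = true := by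
  decide +kernel

private theorem kl_norm_le {a : GQ} {r : ℚ} (hr : 0 ≤ r) (h : a.n2 ≤ r ^ 2) : ‖a.toC‖ ≤ (r : ℝ) := by
  have h1 : ((a.n2 : ℚ) : ℝ) ≤ (r : ℝ) ^ 2 := by exact_mod_cast h
  rw [GQ.n2_eq] at h1
  exact le_of_sq_le_sq h1 (by exact_mod_cast hr)

private theorem kl_re (a : GQ) : ((a.re : ℚ) : ℝ) = a.toC.re := rfl

private theorem kl_im (a : GQ) : ((a.im : ℚ) : ℝ) = a.toC.im := rfl

/-- The same proof as `cb_sound`. -/
theorem cb_sound_thr (thr ρ τ : ℚ) (hρ : 0 ≤ ρ) (B : Bx) (z : CB) (h : z.side ρ B = true)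
    (h' : CB.mainT thr ρ τ z B = true) (J : ℕ)
    (hJ : 5 ≤ J) (q : ℂ) (hq : B.Mem q) (hqρ : ‖q‖ ≤ ρ)
    (hτ : 4 * (19 / 10) * ∑ j ∈ Finset.Ico 6 (J + 1), ‖q‖ ^ tri j ≤ (τ : ℝ)) (κ : ℝ)
    (hκ : ∀ X : ℝ, -1 ≤ X → X ≤ 1 → GJ J q X ≤ κ) : (thr : ℝ) ≤ κ := by
  have hs := h
  have hm := h'
  unfold CB.side at hs
  simp only [Bool.and_eq_true, decide_eq_true_eq] at hs
  obtain ⟨⟨⟨⟨⟨⟨⟨⟨⟨⟨⟨k1, k2⟩, k3⟩, k4⟩, k5⟩, k6⟩, k7⟩, k8⟩, k9⟩, k10⟩, k11⟩, k12⟩ := hs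
  unfold CB.mainT at hm
  simp only [decide_eq_true_eq] at hm
  -- real versions
  have w0 : (0 : ℝ) ≤ (z.w : ℝ) := by exact_mod_cast k2
  have w1 : (z.w : ℝ) ≤ 1 := by exact_mod_cast k3
  have x0 : (-1 : ℝ) ≤ (z.x : ℝ) := by exact_mod_cast k4
  have x1 : (z.x : ℝ) ≤ 1 := by exact_mod_cast k5
  have hnu : nu (z.w : ℝ) (z.x : ℝ) z.Y0.toC z.Y1.toC ≤ 361 / 100 := by
    have h8 : ((nuQ z.w z.x z.Y0 z.Y1 : ℚ) : ℝ) ≤ ((361 / 100 : ℚ) : ℝ) := by exact_mod_cast k8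
    rw [nuQ_eq] at h8
    exact h8.trans (by norm_num)
  set L : ℕ → ℂ := fun j => lam (z.w : ℝ) (z.x : ℝ) z.Y0.toC z.Y1.toC j with hL
  have eL : ∀ j, (z.lm j).toC = L j := fun j => lamQ_eq z.w z.x z.Y0 z.Y1 j
  set c : ℂ := B.ct.toC with hc
  have hcρ : ‖c‖ ≤ (ρ : ℝ) := kl_norm_le hρ k1
  have n2 : ‖L 2‖ ≤ (z.l2 : ℝ) := by
    rw [← eL]
    exact kl_norm_le k6 k9
  have n3 : ‖L 3‖ ≤ (z.l3 : ℝ) := by
    rw [← eL]
    exact kl_norm_le k7 k10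
  have n4 : ‖L 4‖ ≤ 19 / 10 := lam_bound _ _ _ _ w0 w1 x0 x1 hnu 4
  have n5 : ‖L 5‖ ≤ 19 / 10 := lam_bound _ _ _ _ w0 w1 x0 x1 hnu 5
  -- the value and the derivative at the centre
  have eP : (z.P B.ct).toC = L 0 + L 1 * c + L 2 * c ^ 3 + L 3 * c ^ 6 + L 4 * c ^ 10 +
      L 5 * c ^ 15 := by
    unfold CB.P
    simp only [GQ.toC_add, GQ.toC_mul, GQ.toC_pw, eL]
    rfl
  have eD : (z.D B.ct).toC = L 1 + 3 * L 2 * c ^ 2 + 6 * L 3 * c ^ 5 + 10 * L 4 * c ^ 9 +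
      15 * L 5 * c ^ 14 := by
    unfold CB.D
    simp only [GQ.toC_add, GQ.toC_mul, GQ.toC_pw, GQ.toC_sm, eL]
    push_cast
    rfl
  -- the main inequality
  have hm' : ((thr : ℚ) : ℝ) ≤
      ((4 * (z.P B.ct).re - nuQ z.w z.x z.Y0 z.Y1 -
        4 * (|(z.D B.ct).re| * B.hx + |(z.D B.ct).im| * B.hy) -
        2 * z.q ρ * (B.hx ^ 2 + B.hy ^ 2) - τ : ℚ) : ℝ) := by exact_mod_cast hm
  unfold CB.q at hm'
  push_cast at hm'
  rw [nuQ_eq, kl_re, kl_re, kl_im, eP, eD] at hm'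
  set Pc : ℂ := L 0 + L 1 * c + L 2 * c ^ 3 + L 3 * c ^ 6 + L 4 * c ^ 10 + L 5 * c ^ 15 with hPc
  set Dc : ℂ := L 1 + 3 * L 2 * c ^ 2 + 6 * L 3 * c ^ 5 + 10 * L 4 * c ^ 9 +
      15 * L 5 * c ^ 14 with hDc
  -- the box
  obtain ⟨m1, m2, m3, m4⟩ := hq
  have ecr : c.re = ((B.x1 : ℝ) + (B.x2 : ℝ)) / 2 := by
    rw [hc, ← kl_re]
    unfold Bx.ct
    push_cast
    ring
  have eci : c.im = ((B.y1 : ℝ) + (B.y2 : ℝ)) / 2 := by
    rw [hc, ← kl_im]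
    unfold Bx.ct
    push_cast
    ring
  have ehx : ((B.hx : ℚ) : ℝ) = ((B.x2 : ℝ) - (B.x1 : ℝ)) / 2 := by
    unfold Bx.hx
    push_cast
    ring
  have ehy : ((B.hy : ℚ) : ℝ) = ((B.y2 : ℝ) - (B.y1 : ℝ)) / 2 := by
    unfold Bx.hy
    push_cast
    ring
  have ax : |(q - c).re| ≤ (B.hx : ℝ) := by
    rw [Complex.sub_re, ecr, ehx, abs_le]
    constructor <;> linarith
  have ay : |(q - c).im| ≤ (B.hy : ℝ) := by
    rw [Complex.sub_im, eci, ehy, abs_le]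
    constructor <;> linarith
  have an : ‖q - c‖ ^ 2 ≤ (B.hx : ℝ) ^ 2 + (B.hy : ℝ) ^ 2 := by
    rw [← Complex.normSq_eq_norm_sq, Complex.normSq_apply]
    have e1 := abs_le.1 ax
    have e2 := abs_le.1 ay
    nlinarith
  -- the linear term
  have hlin : -(|Dc.re| * (B.hx : ℝ) + |Dc.im| * (B.hy : ℝ)) ≤ (Dc * (q - c)).re := by
    rw [Complex.mul_re]
    have e1 : |Dc.re * (q - c).re| ≤ |Dc.re| * (B.hx : ℝ) := by
      rw [abs_mul]
      exact mul_le_mul_of_nonneg_left ax (abs_nonneg _)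
    have e2 : |Dc.im * (q - c).im| ≤ |Dc.im| * (B.hy : ℝ) := by
      rw [abs_mul]
      exact mul_le_mul_of_nonneg_left ay (abs_nonneg _)
    have e3 := (abs_le.1 e1).1
    have e4 := (abs_le.1 e2).2
    linarith
  -- the remainders
  have hρ' : (0 : ℝ) ≤ (ρ : ℝ) := by exact_mod_cast hρ
  have t2 := pow_taylor ρ c q hcρ hqρ 3 (by norm_num)
  have t3 := pow_taylor ρ c q hcρ hqρ 6 (by norm_num)
  have t4 := pow_taylor ρ c q hcρ hqρ 10 (by norm_num)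
  have t5 := pow_taylor ρ c q hcρ hqρ 15 (by norm_num)
  norm_num at t2 t3 t4 t5
  set R : ℂ := L 2 * (q ^ 3 - c ^ 3 - 3 * c ^ 2 * (q - c)) +
    L 3 * (q ^ 6 - c ^ 6 - 6 * c ^ 5 * (q - c)) + L 4 * (q ^ 10 - c ^ 10 - 10 * c ^ 9 * (q - c)) +
    L 5 * (q ^ 15 - c ^ 15 - 15 * c ^ 14 * (q - c)) with hR
  have hsum : ∑ j ∈ Finset.range 6, L j * q ^ tri j = Pc + Dc * (q - c) + R := by
    simp only [Finset.sum_range_succ, Finset.sum_range_zero, tri, hPc, hDc, hR]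
    norm_num
    ring
  have hRn : ‖R‖ ≤ (3 * (z.l2 : ℝ) * ρ + 15 * z.l3 * ρ ^ 4 + 19 / 10 * 45 * ρ ^ 8 +
      19 / 10 * 105 * ρ ^ 13) * ‖q - c‖ ^ 2 := by
    have s2 : ‖L 2 * (q ^ 3 - c ^ 3 - 3 * c ^ 2 * (q - c))‖ ≤
        (z.l2 : ℝ) * (3 * ρ * ‖q - c‖ ^ 2) := by
      rw [norm_mul]
      exact mul_le_mul n2 t2 (norm_nonneg _) (by exact_mod_cast k6)
    have s3 : ‖L 3 * (q ^ 6 - c ^ 6 - 6 * c ^ 5 * (q - c))‖ ≤
        (z.l3 : ℝ) * (15 * ρ ^ 4 * ‖q - c‖ ^ 2) := by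
      rw [norm_mul]
      exact mul_le_mul n3 t3 (norm_nonneg _) (by exact_mod_cast k7)
    have s4 : ‖L 4 * (q ^ 10 - c ^ 10 - 10 * c ^ 9 * (q - c))‖ ≤
        19 / 10 * (45 * ρ ^ 8 * ‖q - c‖ ^ 2) := by
      rw [norm_mul]
      exact mul_le_mul n4 t4 (norm_nonneg _) (by norm_num)
    have s5 : ‖L 5 * (q ^ 15 - c ^ 15 - 15 * c ^ 14 * (q - c))‖ ≤
        19 / 10 * (105 * ρ ^ 13 * ‖q - c‖ ^ 2) := by
      rw [norm_mul]
      exact mul_le_mul n5 t5 (norm_nonneg _) (by norm_num)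
    refine le_trans (norm_add₄_le) ?_
    linarith
  have hq0 : (0 : ℝ) ≤ 3 * (z.l2 : ℝ) * ρ + 15 * z.l3 * ρ ^ 4 + 19 / 10 * 45 * ρ ^ 8 +
      19 / 10 * 105 * ρ ^ 13 := by
    have : (0 : ℝ) ≤ (z.l2 : ℝ) := by exact_mod_cast k6
    have : (0 : ℝ) ≤ (z.l3 : ℝ) := by exact_mod_cast k7
    positivity
  have hRr : -((3 * (z.l2 : ℝ) * ρ + 15 * z.l3 * ρ ^ 4 + 19 / 10 * 45 * ρ ^ 8 +
      19 / 10 * 105 * ρ ^ 13) * ((B.hx : ℝ) ^ 2 + (B.hy : ℝ) ^ 2)) ≤ R.re := by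
    have e1 := (abs_le.1 (Complex.abs_re_le_norm R)).1
    have e2 := mul_le_mul_of_nonneg_left an hq0
    linarith
  -- the tail
  have htail : -((19 / 10) * ∑ j ∈ Finset.Ico 6 (J + 1), ‖q‖ ^ tri j) ≤
      (∑ j ∈ Finset.Ico 6 (J + 1), L j * q ^ tri j).re := by
    have e1 : ‖∑ j ∈ Finset.Ico 6 (J + 1), L j * q ^ tri j‖ ≤
        ∑ j ∈ Finset.Ico 6 (J + 1), (19 / 10) * ‖q‖ ^ tri j := by
      refine le_trans (norm_sum_le _ _) (Finset.sum_le_sum fun j _ => ?_)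
      rw [norm_mul, norm_pow]
      exact mul_le_mul_of_nonneg_right (lam_bound _ _ _ _ w0 w1 x0 x1 hnu j)
        (pow_nonneg (norm_nonneg _) _)
    rw [← Finset.mul_sum] at e1
    have e2 := (abs_le.1 (Complex.abs_re_le_norm
      (∑ j ∈ Finset.Ico 6 (J + 1), L j * q ^ tri j))).1
    linarith
  have hdual := dual_const J q κ hκ (z.w : ℝ) (z.x : ℝ) z.Y0.toC z.Y1.toC w0 w1 x0 x1
  have hsplit : ∑ j ∈ Finset.range (J + 1), L j * q ^ tri j =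
      ∑ j ∈ Finset.range 6, L j * q ^ tri j + ∑ j ∈ Finset.Ico 6 (J + 1), L j * q ^ tri j :=
    (Finset.sum_range_add_sum_Ico _ (by omega)).symm
  have hd : 4 * (∑ j ∈ Finset.range (J + 1), L j * q ^ tri j).re -
      nu (z.w : ℝ) (z.x : ℝ) z.Y0.toC z.Y1.toC ≤ κ := hdual
  rw [hsplit, hsum] at hd
  simp only [Complex.add_re] at hd
  nlinarith

private theorem kl_tri (n : ℕ) : 21 + 7 * n ≤ tri (6 + n) := by
  unfold tri
  rw [Nat.le_div_iff_mul_le (by norm_num)]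
  have h := Nat.le_mul_self n
  nlinarith

private theorem kl_sum (J : ℕ) (x : ℝ) (h0 : 0 ≤ x) (h1 : x ≤ 17 / 50) :
    ∑ j ∈ Finset.Ico 6 (J + 1), x ^ tri j ≤ x ^ 21 * (1001 / 1000) := by
  rw [Finset.sum_Ico_eq_sum_range]
  have hx1 : x ≤ 1 := by linarith
  have h7 : x ^ 7 ≤ 1 / 1001 := by
    calc x ^ 7 ≤ (17 / 50 : ℝ) ^ 7 := pow_le_pow_left₀ h0 h1 7
      _ ≤ 1 / 1001 := by norm_num
  have h70 : 0 ≤ x ^ 7 := by positivity
  have h2 : ∀ n ∈ Finset.range (J + 1 - 6), x ^ tri (6 + n) ≤ x ^ 21 * (x ^ 7) ^ n := by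
    intro n _
    rw [← pow_mul, ← pow_add]
    exact pow_le_pow_of_le_one h0 hx1 (kl_tri n)
  refine (Finset.sum_le_sum h2).trans ?_
  rw [← Finset.mul_sum]
  refine mul_le_mul_of_nonneg_left ?_ (by positivity)
  have h3 := Summable.sum_le_tsum (Finset.range (J + 1 - 6)) (fun n _ => pow_nonneg h70 n)
    (summable_geometric_of_lt_one h70 (by linarith))
  refine h3.trans ?_
  rw [tsum_geometric_of_lt_one h70 (by linarith)]
  rw [inv_le_comm₀ (by linarith) (by norm_num)]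
  linarith

private theorem kl_tau (J : ℕ) (x b : ℝ) (τ : ℚ) (h0 : 0 ≤ x) (hxb : x ≤ b) (h1 : b ≤ 17 / 50)
    (hτ : 4 * (19 / 10) * (b ^ 21 * (1001 / 1000)) ≤ (τ : ℝ)) :
    4 * (19 / 10) * ∑ j ∈ Finset.Ico 6 (J + 1), x ^ tri j ≤ (τ : ℝ) := by
  have h2 := kl_sum J x h0 (hxb.trans h1)
  have h3 : x ^ 21 ≤ b ^ 21 := pow_le_pow_left₀ h0 hxb 21
  have h4 : x ^ 21 * (1001 / 1000) ≤ b ^ 21 * (1001 / 1000) :=
    mul_le_mul_of_nonneg_right h3 (by norm_num)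
  linarith

private theorem kl_oo : ‖oo‖ ≤ 2803 / 10000 := by
  have h1 : ‖oo‖ ^ 2 ≤ (2803 / 10000) ^ 2 := by
    rw [Complex.sq_norm, Complex.normSq_apply]
    unfold oo
    norm_num
  exact le_of_sq_le_sq h1 (by norm_num)

private theorem kl_cont (J : ℕ) (q : ℂ) : Continuous (fun X : ℝ => GJ J q X) := by
  have hU : ∀ j, Continuous (fun X : ℝ => UU X j) := fun j =>
    continuous_iff_continuousAt.2 fun X => (hasDerivAt_uu X j).continuousAt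
  have h : Continuous (fun X : ℝ => PP J q X) := by
    unfold PP
    exact continuous_finsetSum _ fun j _ =>
      continuous_const.mul (Complex.continuous_ofReal.comp (hU j))
  unfold GJ
  fun_prop

private theorem kl_conj (J : ℕ) (q : ℂ) (X : ℝ) : GJ J (conj q) X = GJ J q X := by
  have h : PP J (conj q) X = conj (PP J q X) := by
    unfold PP
    rw [map_sum]
    refine Finset.sum_congr rfl fun j _ => ?_
    rw [map_mul, map_pow, Complex.conj_ofReal]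
  unfold GJ
  rw [h, norm_mul, norm_mul, RCLike.norm_conj]

private theorem kl_upper (J : ℕ) (hJ : 5 ≤ J) (q : ℂ) (hq : ‖q‖ ≤ 17 / 50) (him : 0 ≤ q.im) (κ : ℝ)
    (hκ : ∀ X : ℝ, -1 ≤ X → X ≤ 1 → GJ J q X ≤ κ) : 2921266957 / 1000000000 ≤ κ := by
  by_contra hcon
  have hcon' := not_le.1 hcon
  have h0 := const_loc2 J hJ q hq him κ (by unfold kp; linarith) hκ
  have hre := abs_le.1 ((Complex.abs_re_le_norm (q - oo)).trans h0.le)
  have him' := abs_le.1 ((Complex.abs_im_le_norm (q - oo)).trans h0.le)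
  have e1 : (q - oo).re = q.re + 191206 / 1000000 := by
    rw [Complex.sub_re]
    unfold oo
    ring
  have e2 : (q - oo).im = q.im - 204897 / 1000000 := by
    rw [Complex.sub_im]
    unfold oo
    ring
  rw [e1] at hre
  rw [e2] at him'
  have hmem : bxLow.Mem q := by
    refine ⟨?_, ?_, ?_, ?_⟩
    · show (((-191226 / 1000000 : ℚ)) : ℝ) ≤ q.re
      push_cast
      linarith [hre.1]
    · show q.re ≤ (((-191186 / 1000000 : ℚ)) : ℝ)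
      push_cast
      linarith [hre.2]
    · show (((204877 / 1000000 : ℚ)) : ℝ) ≤ q.im
      push_cast
      linarith [him'.1]
    · show q.im ≤ (((204917 / 1000000 : ℚ)) : ℝ)
      push_cast
      linarith [him'.2]
  have hqn : ‖q‖ ≤ 281 / 1000 := by
    have h2 : ‖q‖ ≤ ‖q - oo‖ + ‖oo‖ := by
      have := norm_add_le (q - oo) oo
      rwa [sub_add_cancel] at this
    have h3 := kl_oo
    linarith
  have hc := chk_low
  rw [Bool.and_eq_true] at hc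
  have h1 := cb_sound_thr (2921266957 / 1000000000) (281 / 1000) (4 / 100000000000) (by norm_num)
    bxLow cbLow hc.1 hc.2 J hJ q hmem (by push_cast; linarith)
    (kl_tau J ‖q‖ (281 / 1000) _ (norm_nonneg _) hqn (by norm_num) (by push_cast; norm_num)) κ hκ
  push_cast at h1
  linarith

/-- Otherwise the maximum `κ` of `GJ J q` over `[-1, 1]` is smaller than `2921266957/10^9 < kp`;
`const_loc2` for `q` or `conj q` (`GJ J (conj q) X = GJ J q X`) and `chk_low`, `cb_sound_thr`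
(`‖q‖ ≤ ‖oo‖ + 2e-5 ≤ .281`, `7.6 * .281^21 + ... ≤ 4e-11`). -/
theorem kappa_lowJ (J : ℕ) (hJ : 5 ≤ J) (q : ℂ) (hq : ‖q‖ ≤ 17 / 50) :
    ∃ X : ℝ, -1 ≤ X ∧ X ≤ 1 ∧ 2921266957 / 1000000000 ≤ GJ J q X := by
  obtain ⟨X, hX, hm⟩ := (isCompact_Icc (a := (-1 : ℝ)) (b := 1)).exists_isMaxOn
    ⟨0, by constructor <;> norm_num⟩ (kl_cont J q).continuousOn
  refine ⟨X, hX.1, hX.2, ?_⟩
  have hκ : ∀ Y : ℝ, -1 ≤ Y → Y ≤ 1 → GJ J q Y ≤ GJ J q X := fun Y h1 h2 => hm ⟨h1, h2⟩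
  by_cases him : 0 ≤ q.im
  · exact kl_upper J hJ q hq him _ hκ
  · refine kl_upper J hJ (conj q) (by rwa [Complex.norm_conj]) ?_ _ fun Y h1 h2 => ?_
    · rw [Complex.conj_im]
      linarith [not_le.1 him]
    · rw [kl_conj]
      exact hκ Y h1 h2

/-- `kappa_lowJ` for a large `J` (`th_gj`, `X = cos 2t`), `th_sub`, `eps_tendsto`. -/
theorem kappa_low (q : ℂ) (hq : ‖q‖ ≤ 17 / 50) :
    ∃ t : ℝ, 2921266956 / 1000000000 ≤ ‖Th q t‖ ^ 2 := by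
  have h1 : ∀ᶠ J in Filter.atTop, eps J < 1 / 10000000000 :=
    eps_tendsto.eventually_lt_const (by norm_num)
  obtain ⟨J, hJ1, hJ5⟩ := (h1.and (Filter.eventually_ge_atTop 5)).exists
  obtain ⟨X, hX1, hX2, hX⟩ := kappa_lowJ J hJ5 q hq
  refine ⟨Real.arccos X / 2, ?_⟩
  have h2 := th_gj J q (Real.arccos X / 2)
  rw [mul_div_cancel₀ _ (two_ne_zero), Real.cos_arccos hX1 hX2] at h2
  rw [← h2] at hX
  have h3 := th_sub J q hq (Real.arccos X / 2)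
  obtain ⟨a, ha⟩ : ∃ a, a = ‖Th q (Real.arccos X / 2)‖ := ⟨_, rfl⟩
  obtain ⟨b, hb⟩ : ∃ b, b = ‖ThJ J q (Real.arccos X / 2)‖ := ⟨_, rfl⟩
  have h4 : b - a ≤ 1 / 10000000000 := by
    have h5 := norm_sub_norm_le (ThJ J q (Real.arccos X / 2)) (Th q (Real.arccos X / 2))
    rw [norm_sub_rev] at h5
    rw [ha, hb]
    linarith
  rw [← hb] at hX
  rw [← ha]
  have hb0 : 0 ≤ b := hb ▸ norm_nonneg _
  have ha0 : 0 ≤ a := ha ▸ norm_nonneg _
  by_contra hcon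
  have hcon' := not_le.1 hcon
  have ha2 : a ≤ 2 := by nlinarith
  have hb2 : b ≤ a + 1 / 10000000000 := by linarith
  have hb3 : b ^ 2 ≤ (a + 1 / 10000000000) ^ 2 := pow_le_pow_left₀ hb0 hb2 2
  nlinarith

end Pool.Agent.MaxTerm8
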