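import Pool.Agent.MaxTerm8.Exact
import Pool.Agent.MaxTerm8.KappaLow
import Pool.Agent.MaxTerm59.FinAux

/-! The numerical value of `L`, given the theorem on chains of vertices. -/

namespace Pool.Agent.MaxTerm8

open Complex ComplexConjugate Filter Pool.Agent.MaxTerm59

private theorem en_liminf (hC : Chain) (f : ℂ → ℂ) (hf : TransEntire f) :
    liminf (fun r : ℝ => maxTerm f r / maxMod f r) atTop ≤ 1170157641 / 2000000000 := by
  by_contra hcon
  push Not at hcon
  have h1 : ∀ᶠ r in (atTop : Filter ℝ), 1170157641 / 2000000000 < maxTerm f r / maxMod f r := by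
    refine Filter.eventually_lt_of_lt_liminf hcon ?_
    refine Filter.isBoundedUnder_of_eventually_ge (a := 0) ?_
    filter_upwards [eventually_gt_atTop (0 : ℝ)] with r hr
    have h2 := maxTerm_pos f hf r hr
    exact div_nonneg h2.le (h2.le.trans (maxTerm_le_maxMod f hf r hr))
  obtain ⟨r0, h2⟩ := Filter.eventually_atTop.1 (h1.and (eventually_gt_atTop (0 : ℝ)))
  have h0 : 0 < r0 := (h2 r0 le_rfl).2
  have hB : ∀ r, r0 ≤ r → maxMod f r ≤ (2000000000 / 1170157641) * maxTerm f r := by
    intro r hr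
    obtain ⟨h3, h4⟩ := h2 r hr
    have h5 : 0 < maxMod f r := lt_of_lt_of_le (maxTerm_pos f hf r h4) (maxTerm_le_maxMod f hf r h4)
    rw [lt_div_iff₀ h5] at h3
    linarith
  obtain ⟨S⟩ := exists_sys f hf (2000000000 / 1170157641) r0 h0 hB
  obtain ⟨K, g, hg, hS, hY⟩ := hC _ S (by norm_num)
  have h6 := stepC_sys S K g hg hS hY (2921266956 / 1000000000) fun q hq => kappa_low q hq
  norm_num at h6

/-- `stepC_sys` with `κ = 2921266956/10^9` (`kappa_low`), as in `liminf_le_of_chain`:
`liminf ≤ 1/√2.921266956 < .585078821`; `Lconst ≥ 1/Kstar ≥ 1/√kp > .585078819` (`kstar_le`, `lconst_ge`). -/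
theorem numeric_of_chain (hC : Chain) : 585078819 / 1000000000 < Lconst ∧
    Lconst < 585078821 / 1000000000 := by
  obtain ⟨h1, h2⟩ := kstar_le
  have hK : 0 < Kstar := by linarith
  have h3 : 585078819 / 1000000000 < 1 / Kstar := by
    rw [lt_div_iff₀ hK]
    by_contra h
    push Not at h
    have h4 : (1 : ℝ) ≤ (585078819 / 1000000000 * Kstar) ^ 2 := one_le_pow₀ h
    rw [mul_pow] at h4
    have h5 : (585078819 / 1000000000 : ℝ) ^ 2 * Kstar ^ 2 ≤ (585078819 / 1000000000) ^ 2 * kp :=
      mul_le_mul_of_nonneg_left h1 (by positivity)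
    have h6 : (585078819 / 1000000000 : ℝ) ^ 2 * kp < 1 := by
      unfold kp
      norm_num
    linarith
  have h4 := h3.trans_le lconst_ge
  refine ⟨h4, ?_⟩
  have hne : {l : ℝ | ∃ f : ℂ → ℂ, TransEntire f ∧
      l = liminf (fun r : ℝ => maxTerm f r / maxMod f r) atTop}.Nonempty := by
    by_contra h
    rw [Set.not_nonempty_iff_eq_empty] at h
    have h5 : Lconst = 0 := by
      unfold Lconst
      rw [h, Real.sSup_empty]
    rw [h5] at h4
    norm_num at h4
  have h5 : Lconst ≤ 1170157641 / 2000000000 := by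
    refine csSup_le hne ?_
    rintro l ⟨f, hf, rfl⟩
    exact en_liminf hC f hf
  refine h5.trans_lt ?_
  norm_num

end Pool.Agent.MaxTerm8
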