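import Pool.Agent.MaxTerm8.ExactK

/-! The Laurent form of the theta function. -/

namespace Pool.Agent.MaxTerm8

open Complex ComplexConjugate Filter

/-- Jacobi's theta function `∑_{n ∈ ℤ} q^(n(n-1)/2) z^n` -/
noncomputable def Theta (q z : ℂ) : ℂ := ∑' n : ℤ, q ^ (n * (n - 1) / 2).toNat * z ^ n

/-- its maximum modulus on the unit circle -/
noncomputable def ThetaMax (q : ℂ) : ℝ := sSup ((fun z => ‖Theta q z‖) '' Metric.sphere (0 : ℂ) 1)

private theorem tf_tri_ge (j : ℕ) : j ≤ tri j := by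
  unfold tri
  rw [Nat.le_div_iff_mul_le (by norm_num)]
  rcases Nat.eq_zero_or_pos j with h | h
  · subst h
    simp
  · exact Nat.mul_le_mul_left j (by omega)

private theorem tf_summ (q : ℂ) (hq : ‖q‖ < 1) (a : ℕ → ℂ) (ha : ∀ j, ‖a j‖ = 1) :
    Summable fun j : ℕ => q ^ tri j * a j := by
  refine Summable.of_norm_bounded (g := fun j => ‖q‖ ^ j)
    (summable_geometric_of_lt_one (norm_nonneg q) hq) (fun j => ?_)
  rw [norm_mul, norm_pow, ha, mul_one]
  exact pow_le_pow_of_le_one (norm_nonneg q) hq.le (tf_tri_ge j)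

private theorem tf_e1 (j : ℕ) : (((j : ℤ) + 1) * (((j : ℤ) + 1) - 1) / 2).toNat = tri j := by
  have h : ((j : ℤ) + 1) * (((j : ℤ) + 1) - 1) / 2 = ((tri j : ℕ) : ℤ) := by
    unfold tri
    push_cast
    congr 1
    ring
  rw [h, Int.toNat_natCast]

private theorem tf_e2 (j : ℕ) :
    ((-((j : ℤ) + 1) + 1) * ((-((j : ℤ) + 1) + 1) - 1) / 2).toNat = tri j := by
  have h : (-((j : ℤ) + 1) + 1) * ((-((j : ℤ) + 1) + 1) - 1) / 2 = ((tri j : ℕ) : ℤ) := by
    unfold tri
    push_cast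
    congr 1
    ring
  rw [h, Int.toNat_natCast]

private theorem tf_norm (t : ℝ) (n : ℤ) : ‖Complex.exp (2 * t * Complex.I) ^ n‖ = 1 := by
  have h : ‖Complex.exp (2 * t * Complex.I)‖ = 1 := by
    have e : (2 * (t : ℂ) * Complex.I) = ((2 * t : ℝ) : ℂ) * Complex.I := by
      push_cast
      ring
    rw [e]
    exact Complex.norm_exp_ofReal_mul_I _
  rw [norm_zpow, h, one_zpow]

private theorem tf_pair (q : ℂ) (t : ℝ) (j : ℕ) :
    q ^ tri j * Complex.exp (2 * t * Complex.I) ^ ((j : ℤ) + 1) +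
      q ^ tri j * Complex.exp (2 * t * Complex.I) ^ (-((j : ℤ) + 1) + 1) =
      Complex.exp (t * Complex.I) * ThT q t j := by
  unfold ThT
  rw [← Complex.exp_int_mul, ← Complex.exp_int_mul, Complex.ofReal_cos, Complex.cos]
  have h1 : Complex.exp (((((j : ℤ) + 1 : ℤ)) : ℂ) * (2 * t * Complex.I)) =
      Complex.exp (t * Complex.I) *
        Complex.exp ((((2 * (j : ℝ) + 1) * t : ℝ) : ℂ) * Complex.I) := by
    rw [← Complex.exp_add]
    congr 1
    push_cast
    ring
  have h2 : Complex.exp ((((-((j : ℤ) + 1) + 1 : ℤ)) : ℂ) * (2 * t * Complex.I)) =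
      Complex.exp (t * Complex.I) *
        Complex.exp (-(((2 * (j : ℝ) + 1) * t : ℝ) : ℂ) * Complex.I) := by
    rw [← Complex.exp_add]
    congr 1
    push_cast
    ring
  rw [h1, h2]
  ring

/-- Pair `n = j + 1` and `n = -j`: both have the exponent `tri j`, and `w^(2j+2) + w^(-2j) = w (w^(2j+1) + w^(-(2j+1))) =
w 2 cos ((2j+1) t)` for `w = e^{it}`, `z = w^2`. (`tsum_of_nat_of_neg_add_one` or `HasSum.of_nat_of_neg_add_one`; summability
from `‖q‖ ^ tri j`.) -/
theorem theta_eq (q : ℂ) (hq : ‖q‖ < 1) (t : ℝ) :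
    Theta q (Complex.exp (2 * t * Complex.I)) = Complex.exp (t * Complex.I) * Th q t := by
  have s1 := tf_summ q hq (fun j => Complex.exp (2 * t * Complex.I) ^ ((j : ℤ) + 1))
    (fun j => tf_norm t _)
  have s2 := tf_summ q hq (fun j => Complex.exp (2 * t * Complex.I) ^ (-((j : ℤ) + 1) + 1))
    (fun j => tf_norm t _)
  set z := Complex.exp (2 * t * Complex.I) with hz
  let g : ℤ → ℂ := fun m => q ^ ((m + 1) * ((m + 1) - 1) / 2).toNat * z ^ (m + 1)
  have h1 : HasSum (fun j : ℕ => g (j : ℤ)) (∑' j : ℕ, q ^ tri j * z ^ ((j : ℤ) + 1)) := by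
    have e : (fun j : ℕ => g (j : ℤ)) = fun j : ℕ => q ^ tri j * z ^ ((j : ℤ) + 1) := by
      funext j
      simp only [g]
      rw [tf_e1]
    rw [e]
    exact s1.hasSum
  have h2 : HasSum (fun j : ℕ => g (-((j : ℤ) + 1)))
      (∑' j : ℕ, q ^ tri j * z ^ (-((j : ℤ) + 1) + 1)) := by
    have e : (fun j : ℕ => g (-((j : ℤ) + 1))) =
        fun j : ℕ => q ^ tri j * z ^ (-((j : ℤ) + 1) + 1) := by
      funext j
      simp only [g]
      rw [tf_e2]
    rw [e]
    exact s2.hasSum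
  have h3 := (HasSum.of_nat_of_neg_add_one h1 h2).tsum_eq
  have h4 : Theta q z = ∑' m : ℤ, g m := by
    unfold Theta
    exact ((Equiv.addRight (1 : ℤ)).tsum_eq
      (fun n : ℤ => q ^ (n * (n - 1) / 2).toNat * z ^ n)).symm
  rw [h4, h3, ← s1.tsum_add s2]
  unfold Th
  rw [← tsum_mul_left]
  refine tsum_congr fun j => ?_
  exact tf_pair q t j

/-- every point of the circle is `e^{2 i t}` -/
theorem thetaMax_eq (q : ℂ) (hq : ‖q‖ < 1) : ThetaMax q = Kq q := by
  unfold ThetaMax Kq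
  rw [iSup]
  congr 1
  have hn : ∀ t : ℝ, ‖Theta q (Complex.exp (2 * t * Complex.I))‖ = ‖Th q t‖ := by
    intro t
    rw [theta_eq q hq t, norm_mul, Complex.norm_exp_ofReal_mul_I, one_mul]
  ext y
  constructor
  · rintro ⟨z, hz, rfl⟩
    refine ⟨Complex.arg z / 2, ?_⟩
    have hz1 : ‖z‖ = 1 := by simpa using hz
    have e : Complex.exp (2 * ((Complex.arg z / 2 : ℝ) : ℂ) * Complex.I) = z := by
      have h := Complex.norm_mul_exp_arg_mul_I z
      rw [hz1, Complex.ofReal_one, one_mul] at h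
      have h2 : (2 * ((Complex.arg z / 2 : ℝ) : ℂ) * Complex.I) =
          (Complex.arg z : ℂ) * Complex.I := by
        push_cast
        ring
      rw [h2]
      exact h
    simp only
    rw [← hn, e]
  · rintro ⟨t, rfl⟩
    refine ⟨Complex.exp (2 * t * Complex.I), ?_, hn t⟩
    have := tf_norm t 1
    rw [zpow_one] at this
    simpa using this

end Pool.Agent.MaxTerm8
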