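import Pool.Agent.MaxTerm8.Attain
import Pool.Agent.MaxTerm8.ExactNum
import Pool.Agent.MaxTerm8.ThetaForm

/-! The final statement, given the theorem on chains of vertices. -/

namespace Pool.Agent.MaxTerm8

open Filter Pool.Agent.MaxTerm59

/-- the constant `L` of the problem -/
noncomputable def LValue : ℝ := sSup {l : ℝ | ∃ f : ℂ → ℂ, TransEntire f ∧
  l = liminf (fun r : ℝ => maxTerm f r / maxMod f r) atTop}

/-- the minimum over `|q| < 1` of the maximum over `|z| = 1` of `|∑_{n ∈ ℤ} q^(n(n-1)/2) z^n|` -/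
noncomputable def KMin : ℝ := ⨅ q : {q : ℂ // ‖q‖ < 1}, ThetaMax q.1

/-- the entire function `∑_{n ≥ 0} q^(n(n-1)/2) z^n` -/
noncomputable def partialTheta (q z : ℂ) : ℂ := ∑' n : ℕ, q ^ (n * (n - 1) / 2) * z ^ n

theorem kmin_eq : KMin = Kstar := by
  unfold KMin Kstar
  congr 1
  funext q
  exact thetaMax_eq q.1 q.2

theorem result_of_chain (hC : Chain) :
    LValue = 1 / KMin ∧
    (∃ q : ℂ, q ≠ 0 ∧ ‖q‖ ≤ 17 / 50 ∧ ThetaMax q = KMin ∧ TransEntire (partialTheta q) ∧
      liminf (fun r : ℝ => maxTerm (partialTheta q) r / maxMod (partialTheta q) r) atTop = LValue) ∧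
    585078819 / 1000000000 < LValue ∧ LValue < 585078821 / 1000000000 := by
  have hL : LValue = Lconst := rfl
  rw [hL, kmin_eq]
  refine ⟨exact_of_chain hC, ?_, numeric_of_chain hC⟩
  obtain ⟨q, h0, h1, h2, h3, h4⟩ := lconst_attained hC
  have hf : partialTheta q = fq q := by
    funext z
    unfold partialTheta fq
    refine tsum_congr fun n => ?_
    rfl
  refine ⟨q, h0, h1, ?_, ?_, ?_⟩
  · rw [thetaMax_eq q (by linarith)]
    exact h2
  · rw [hf]
    exact h3
  · rw [hf]
    exact h4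

end Pool.Agent.MaxTerm8
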