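import Pool.Agent.MaxTerm8.Crit

/-! Crude localisation of the active set. -/

namespace Pool.Agent.MaxTerm8

open Complex ComplexConjugate

private lemma al_pow_lip {p q : ℂ} {ρ δ : ℝ} (hρ : 0 ≤ ρ) (hp : ‖p‖ ≤ ρ) (hq : ‖q‖ ≤ ρ)
    (hδ : ‖p - q‖ ≤ δ) (n : ℕ) : ‖p ^ (n + 1) - q ^ (n + 1)‖ ≤ ((n : ℝ) + 1) * ρ ^ n * δ := by
  have hδ0 : 0 ≤ δ := (norm_nonneg _).trans hδ
  induction n with
  | zero => simpa using hδ
  | succ n ih =>
    have e : p ^ (n + 1 + 1) - q ^ (n + 1 + 1) =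
        p * (p ^ (n + 1) - q ^ (n + 1)) + (p - q) * q ^ (n + 1) := by ring
    rw [e]
    have h1 : ‖p * (p ^ (n + 1) - q ^ (n + 1))‖ ≤ ρ * (((n : ℝ) + 1) * ρ ^ n * δ) := by
      rw [norm_mul]
      exact mul_le_mul hp ih (norm_nonneg _) hρ
    have h2 : ‖(p - q) * q ^ (n + 1)‖ ≤ δ * ρ ^ (n + 1) := by
      rw [norm_mul, norm_pow]
      exact mul_le_mul hδ (pow_le_pow_left₀ (norm_nonneg _) hq _) (by positivity) hδ0
    calc ‖p * (p ^ (n + 1) - q ^ (n + 1)) + (p - q) * q ^ (n + 1)‖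
        ≤ ρ * (((n : ℝ) + 1) * ρ ^ n * δ) + δ * ρ ^ (n + 1) :=
          (norm_add_le _ _).trans (add_le_add h1 h2)
      _ = (((n + 1 : ℕ) : ℝ) + 1) * ρ ^ (n + 1) * δ := by push_cast; ring

/-- bound for `tri j * ρ ^ (tri j - 1)`, `ρ = .2803` -/
private noncomputable def al_t (j : ℕ) : ℝ := (tri j : ℝ) * (2803 / 10000) ^ (tri j - 1)

private lemma al_tri_succ (j : ℕ) : tri (j + 1) = tri j + (j + 1) := by
  unfold tri
  have h : (j + 1) * (j + 1 + 1) = j * (j + 1) + 2 * (j + 1) := by ring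
  rw [h, Nat.add_mul_div_left _ _ (by norm_num)]

private lemma al_step (j : ℕ) (hj : 3 ≤ j) : al_t (j + 1) ≤ al_t j / 50 := by
  unfold al_t
  rw [al_tri_succ]
  have htri : 6 ≤ tri j := by
    have h1 : tri 3 = 6 := by decide
    have hmono : ∀ m, tri 3 ≤ tri (3 + m) := by
      intro m
      induction m with
      | zero => simp
      | succ m ih =>
        have h2 := al_tri_succ (3 + m)
        rw [← add_assoc]
        omega
    obtain ⟨m, rfl⟩ := Nat.exists_eq_add_of_le hj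
    have := hmono m
    omega
  -- 2 tri j = j (j + 1)
  have h2 : (tri j : ℝ) * 3 ≥ 2 * ((j : ℝ) + 1) := by
    have h3 : 2 * tri j = j * (j + 1) := by
      unfold tri
      exact Nat.mul_div_cancel' (Nat.even_mul_succ_self j).two_dvd
    have h4 : (2 : ℝ) * tri j = (j : ℝ) * (j + 1) := by exact_mod_cast h3
    have h5 : (3 : ℝ) ≤ j := by exact_mod_cast hj
    nlinarith
  have h6 : tri j + (j + 1) - 1 = (tri j - 1) + (j + 1) := by omega
  rw [h6, pow_add]
  have h7 : ((2803 : ℝ) / 10000) ^ (j + 1) ≤ (2803 / 10000) ^ 4 :=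
    pow_le_pow_of_le_one (by norm_num) (by norm_num) (by omega)
  have h8 : (0 : ℝ) < (2803 / 10000) ^ (tri j - 1) := by positivity
  have h9 : ((tri j + (j + 1) : ℕ) : ℝ) ≤ 5 / 2 * tri j := by
    push_cast
    linarith
  have h10 : (0 : ℝ) ≤ tri j := Nat.cast_nonneg _
  calc ((tri j + (j + 1) : ℕ) : ℝ) * ((2803 / 10000) ^ (tri j - 1) * (2803 / 10000) ^ (j + 1))
      ≤ (5 / 2 * tri j) * ((2803 / 10000) ^ (tri j - 1) * (2803 / 10000) ^ 4) := by
        apply mul_le_mul h9 _ (by positivity) (by positivity)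
        exact mul_le_mul_of_nonneg_left h7 h8.le
    _ = (tri j * (2803 / 10000) ^ (tri j - 1)) * (5 / 2 * (2803 / 10000) ^ 4) := by ring
    _ ≤ (tri j * (2803 / 10000) ^ (tri j - 1)) * (1 / 50) := by
        apply mul_le_mul_of_nonneg_left _ (by positivity)
        norm_num
    _ = tri j * (2803 / 10000) ^ (tri j - 1) / 50 := by ring

private lemma al_sum (J : ℕ) (hJ : 3 ≤ J) :
    ∑ j ∈ Finset.range (J + 1), al_t j + al_t J / 49 ≤ 12464 / 10000 := by
  induction J, hJ using Nat.le_induction with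
  | base =>
    simp only [Finset.sum_range_succ, Finset.sum_range_zero, al_t]
    have h0 : tri 0 = 0 := by decide
    have h1 : tri 1 = 1 := by decide
    have h2 : tri 2 = 3 := by decide
    have h3 : tri 3 = 6 := by decide
    rw [h0, h1, h2, h3]
    norm_num
  | succ J hJ ih =>
    rw [Finset.sum_range_succ]
    have := al_step J hJ
    linarith

private lemma al_sum' (J : ℕ) (hJ : 3 ≤ J) :
    ∑ j ∈ Finset.range (J + 1), al_t j ≤ 12464 / 10000 := by
  have h1 := al_sum J hJ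
  have h2 : 0 ≤ al_t J := by unfold al_t; positivity
  linarith

private lemma al_term {p q : ℂ} {δ : ℝ} (hp : ‖p‖ ≤ 2803 / 10000) (hq : ‖q‖ ≤ 2803 / 10000)
    (hδ : ‖p - q‖ ≤ δ) (j : ℕ) : ‖p ^ tri j - q ^ tri j‖ ≤ al_t j * δ := by
  unfold al_t
  rcases Nat.eq_zero_or_pos (tri j) with h | h
  · rw [h]; simp
  · obtain ⟨n, hn⟩ : ∃ n, tri j = n + 1 := ⟨tri j - 1, by omega⟩
    rw [hn]
    have := al_pow_lip (by norm_num : (0 : ℝ) ≤ 2803 / 10000) hp hq hδ n
    simpa using this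

private lemma al_norm_oo : ‖oo‖ ≤ 28026 / 100000 := by
  rw [← Real.sqrt_sq (by norm_num : (0 : ℝ) ≤ 28026 / 100000), Complex.norm_eq_sqrt_sq_add_sq]
  apply Real.sqrt_le_sqrt
  simp only [oo]
  norm_num

private lemma al_norm_oq : ‖oo - q1‖ ≤ 6 / 10000000 := by
  rw [← Real.sqrt_sq (by norm_num : (0 : ℝ) ≤ 6 / 10000000), Complex.norm_eq_sqrt_sq_add_sq]
  apply Real.sqrt_le_sqrt
  simp only [oo, q1, Complex.sub_re, Complex.sub_im]
  norm_num

/-- the square root of `GJ` -/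
private lemma al_gj_eq (J : ℕ) (q : ℂ) (X : ℝ) (h1 : -1 ≤ X) :
    GJ J q X = (Real.sqrt ((1 + X) / 2) * ‖2 * PP J q X‖) ^ 2 := by
  unfold GJ
  rw [mul_pow, Real.sq_sqrt (by linarith)]

private lemma al_diff (J : ℕ) (hJ : 3 ≤ J) {p q : ℂ} {δ : ℝ} (hp : ‖p‖ ≤ 2803 / 10000)
    (hq : ‖q‖ ≤ 2803 / 10000) (hδ : ‖p - q‖ ≤ δ) (X : ℝ) (h1 : -1 ≤ X) (h2 : X ≤ 1) :
    |Real.sqrt ((1 + X) / 2) * ‖2 * PP J p X‖ - Real.sqrt ((1 + X) / 2) * ‖2 * PP J q X‖| ≤
      2 * (12464 / 10000) * δ := by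
  have hδ0 : 0 ≤ δ := (norm_nonneg _).trans hδ
  have hs : 0 ≤ Real.sqrt ((1 + X) / 2) := Real.sqrt_nonneg _
  rw [← mul_sub, abs_mul, abs_of_nonneg hs]
  have h3 : |‖2 * PP J p X‖ - ‖2 * PP J q X‖| ≤ ‖2 * PP J p X - 2 * PP J q X‖ :=
    abs_norm_sub_norm_le _ _
  have h4 : ‖2 * PP J p X - 2 * PP J q X‖ ≤
      2 * ∑ j ∈ Finset.range (J + 1), al_t j * δ * |UU X j| := by
    rw [← mul_sub, norm_mul]
    have : ‖(2 : ℂ)‖ = 2 := by norm_num
    rw [this]
    apply mul_le_mul_of_nonneg_left _ (by norm_num)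
    unfold PP
    rw [← Finset.sum_sub_distrib]
    refine (norm_sum_le _ _).trans ?_
    apply Finset.sum_le_sum
    intro j _
    rw [← sub_mul, norm_mul, Complex.norm_real, Real.norm_eq_abs]
    exact mul_le_mul_of_nonneg_right (al_term hp hq hδ j) (abs_nonneg _)
  have h5 : Real.sqrt ((1 + X) / 2) * (2 * ∑ j ∈ Finset.range (J + 1), al_t j * δ * |UU X j|) ≤
      2 * ∑ j ∈ Finset.range (J + 1), al_t j * δ := by
    have e : Real.sqrt ((1 + X) / 2) * (2 * ∑ j ∈ Finset.range (J + 1), al_t j * δ * |UU X j|) =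
        2 * ∑ j ∈ Finset.range (J + 1), al_t j * δ * (Real.sqrt ((1 + X) / 2) * |UU X j|) := by
      rw [Finset.mul_sum, Finset.mul_sum, Finset.mul_sum]
      apply Finset.sum_congr rfl
      intro j _
      ring
    rw [e]
    apply mul_le_mul_of_nonneg_left _ (by norm_num)
    apply Finset.sum_le_sum
    intro j _
    have h6 : Real.sqrt ((1 + X) / 2) * |UU X j| ≤ 1 := by
      have h7 := uu_bound X h1 h2 j
      have h8 : (Real.sqrt ((1 + X) / 2) * |UU X j|) ^ 2 ≤ 1 ^ 2 := by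
        rw [mul_pow, Real.sq_sqrt (by linarith), sq_abs]
        simpa using h7
      exact le_of_sq_le_sq h8 (by norm_num)
    have h9 : 0 ≤ al_t j * δ := by unfold al_t; positivity
    calc al_t j * δ * (Real.sqrt ((1 + X) / 2) * |UU X j|) ≤ al_t j * δ * 1 :=
          mul_le_mul_of_nonneg_left h6 h9
      _ = al_t j * δ := mul_one _
  have h10 : 2 * ∑ j ∈ Finset.range (J + 1), al_t j * δ ≤ 2 * (12464 / 10000) * δ := by
    rw [← Finset.sum_mul, mul_assoc]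
    apply mul_le_mul_of_nonneg_left _ (by norm_num)
    exact mul_le_mul_of_nonneg_right (al_sum' J hJ) hδ0
  calc Real.sqrt ((1 + X) / 2) * |‖2 * PP J p X‖ - ‖2 * PP J q X‖|
      ≤ Real.sqrt ((1 + X) / 2) * (2 * ∑ j ∈ Finset.range (J + 1), al_t j * δ * |UU X j|) :=
        mul_le_mul_of_nonneg_left (h3.trans h4) hs
    _ ≤ _ := h5.trans h10

/-- `|√GJ p X - √GJ q1 X| ≤ 2 ∑_{j ≤ 5} ‖p^(tri j) - q1^(tri j)‖ + tails ≤ 5.2e-5` (`uu_bound`,
`‖p - q1‖ ≤ 2.06e-5`), both square roots are `≤ 1.7092`. -/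
theorem gj_pert (J : ℕ) (hJ : 5 ≤ J) (p : ℂ) (κ : ℝ) (h : CritPt J p κ) (X : ℝ) (h1 : -1 ≤ X)
    (h2 : X ≤ 1) : |GJ J p X - GJ J q1 X| ≤ 18 / 100000 := by
  have hloc := (crit_loc J hJ p κ h).le
  have hoo := al_norm_oo
  have hoq := al_norm_oq
  have hp : ‖p‖ ≤ 2803 / 10000 := by
    have : p = (p - oo) + oo := by ring
    rw [this]
    refine (norm_add_le _ _).trans ?_
    linarith
  have hq : ‖q1‖ ≤ 2803 / 10000 := by
    have : q1 = oo - (oo - q1) := by ring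
    rw [this]
    refine (norm_sub_le _ _).trans ?_
    linarith
  have hpq : ‖p - q1‖ ≤ 206 / 10000000 := by
    have : p - q1 = (p - oo) + (oo - q1) := by ring
    rw [this]
    refine (norm_add_le _ _).trans ?_
    linarith
  have hd := al_diff J (by omega) hp hq hpq X h1 h2
  have e1 := al_gj_eq J p X h1
  have e2 := al_gj_eq J q1 X h1
  have hA0 : 0 ≤ Real.sqrt ((1 + X) / 2) * ‖2 * PP J p X‖ := by positivity
  have hB0 : 0 ≤ Real.sqrt ((1 + X) / 2) * ‖2 * PP J q1 X‖ := by positivity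
  have hA : GJ J p X ≤ kp := (h.hmax X h1 h2).trans (crit_le J hJ p κ h)
  have hB : GJ J q1 X ≤ kp := by
    have h3 := upper J hJ X h1 h2
    have h4 : 0 ≤ (1 - X) * (X - xh) ^ 2 := mul_nonneg (by linarith) (sq_nonneg _)
    linarith
  rw [e1] at hA ⊢
  rw [e2] at hB ⊢
  generalize Real.sqrt ((1 + X) / 2) * ‖2 * PP J p X‖ = A at *
  generalize Real.sqrt ((1 + X) / 2) * ‖2 * PP J q1 X‖ = B at *
  have hA1 : A ≤ 17092 / 10000 := by
    apply le_of_sq_le_sq _ (by norm_num)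
    refine hA.trans ?_
    unfold kp
    norm_num
  have hB1 : B ≤ 17092 / 10000 := by
    apply le_of_sq_le_sq _ (by norm_num)
    refine hB.trans ?_
    unfold kp
    norm_num
  have e3 : A ^ 2 - B ^ 2 = (A - B) * (A + B) := by ring
  rw [e3, abs_mul, abs_of_nonneg (by linarith : 0 ≤ A + B)]
  calc |A - B| * (A + B) ≤ (2 * (12464 / 10000) * (206 / 10000000)) * (2 * (17092 / 10000)) := by
        apply mul_le_mul hd (by linarith) (by linarith) (by norm_num)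
    _ ≤ 18 / 100000 := by norm_num

/-- `κ ≥ GJ p 1 ≥ GJ q1 1 - 1.8e-4 ≥ kp - 1.81e-4` and `GJ p X ≤ kp + 1.8e-4 - .85 (1-X)(X-xh)^2`;
`3.61e-4 / .85 ≤ 4.3e-4`. Then `nlinarith`: on `[-1, xh - .039]`, `[xh + .039, .2+xh]`,
`[.2+xh, .6+xh]`, `[.6+xh, .998]` the product `(1-X)(X-xh)^2` is larger. -/
theorem active_loc (J : ℕ) (hJ : 5 ≤ J) (p : ℂ) (κ : ℝ) (h : CritPt J p κ) (X : ℝ) (h1 : -1 ≤ X)
    (h2 : X ≤ 1) (hX : GJ J p X = κ) : 998 / 1000 ≤ X ∨ |X - 27608 / 100000| ≤ 4 / 100 := by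
  have a1 := h.hmax 1 (by norm_num) le_rfl
  have a2 := abs_le.1 (gj_pert J hJ p κ h 1 (by norm_num) le_rfl)
  have a3 := upper_one J hJ
  have a4 := upper J hJ X h1 h2
  have a5 := abs_le.1 (gj_pert J hJ p κ h X h1 h2)
  have key : (1 - X) * (X - xh) ^ 2 ≤ 43 / 100000 := by
    have h3 : 17 / 20 * ((1 - X) * (X - xh) ^ 2) ≤ 361 / 1000000 := by
      have := a2.1
      have := a5.2
      linarith
    linarith
  by_contra hcon
  push Not at hcon
  obtain ⟨hc1, hc2⟩ := hcon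
  have hxh : xh = 2760800284 / 10000000000 := rfl
  rcases lt_abs.1 hc2 with hc | hc
  · have h4 : 39999 / 1000000 ≤ X - xh := by rw [hxh]; linarith
    rcases le_total X (6 / 10) with h5 | h5
    · have h6 : (39999 / 1000000) ^ 2 ≤ (X - xh) ^ 2 := pow_le_pow_left₀ (by norm_num) h4 2
      have h7 : (4 / 10) * (39999 / 1000000) ^ 2 ≤ (1 - X) * (X - xh) ^ 2 :=
        mul_le_mul (by linarith) h6 (by norm_num) (by linarith)
      norm_num at h7
      linarith
    · rcases le_total X (99 / 100) with h8 | h8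
      · have h9 : 32 / 100 ≤ X - xh := by rw [hxh]; linarith
        have h6 : (32 / 100) ^ 2 ≤ (X - xh) ^ 2 := pow_le_pow_left₀ (by norm_num) h9 2
        have h7 : (1 / 100) * (32 / 100) ^ 2 ≤ (1 - X) * (X - xh) ^ 2 :=
          mul_le_mul (by linarith) h6 (by norm_num) (by linarith)
        norm_num at h7
        linarith
      · have h9 : 71 / 100 ≤ X - xh := by rw [hxh]; linarith
        have h6 : (71 / 100) ^ 2 ≤ (X - xh) ^ 2 := pow_le_pow_left₀ (by norm_num) h9 2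
        have h7 : (2 / 1000) * (71 / 100) ^ 2 ≤ (1 - X) * (X - xh) ^ 2 :=
          mul_le_mul (by linarith) h6 (by norm_num) (by linarith)
        norm_num at h7
        linarith
  · have h4 : 39999 / 1000000 ≤ -(X - xh) := by rw [hxh]; linarith
    have h6 : (39999 / 1000000) ^ 2 ≤ (-(X - xh)) ^ 2 := pow_le_pow_left₀ (by norm_num) h4 2
    have h7 : (7 / 10) * (39999 / 1000000) ^ 2 ≤ (1 - X) * (-(X - xh)) ^ 2 :=
      mul_le_mul (by linarith) h6 (by norm_num) (by linarith)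
    have h8 : (-(X - xh)) ^ 2 = (X - xh) ^ 2 := by ring
    rw [h8] at h7
    norm_num at h7
    linarith

end Pool.Agent.MaxTerm8
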