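import Pool.Agent.MaxTerm8.Ball

/-! Enclosures of the theta polynomials near the critical point. -/

namespace Pool.Agent.MaxTerm8

open Complex ComplexConjugate

/-- the recurrences in ball arithmetic -/
def UUB (X : Bl) : ℕ → Bl
  | 0 => Bl.q 1
  | 1 => Bl.sm 2 X - Bl.q 1
  | (n + 2) => Bl.sm 2 X * UUB X (n + 1) - UUB X n

def DUB (X : Bl) : ℕ → Bl
  | 0 => Bl.q 0
  | 1 => Bl.q 2
  | (n + 2) => Bl.sm 2 (UUB X (n + 1)) + Bl.sm 2 X * DUB X (n + 1) - DUB X n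

def D2UB (X : Bl) : ℕ → Bl
  | 0 => Bl.q 0
  | 1 => Bl.q 0
  | (n + 2) => Bl.sm 4 (DUB X (n + 1)) + Bl.sm 2 X * D2UB X (n + 1) - D2UB X n

private theorem bp_q1 : (Bl.q 1).Mem (1 : ℂ) := by
  have h := Bl.mem_q 1
  simpa using h

private theorem bp_q0 : (Bl.q 0).Mem (0 : ℂ) := by
  have h := Bl.mem_q 0
  simpa using h

private theorem bp_q2 : (Bl.q 2).Mem (2 : ℂ) := by
  have h := Bl.mem_q 2
  simpa using h

private theorem bp_sm (r : ℕ) {B : Bl} {z : ℂ} (h : B.Mem z) :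
    (Bl.sm (r : ℚ) B).Mem ((r : ℂ) * z) := by
  have h1 := Bl.mem_sm (r : ℚ) h
  simpa using h1

theorem mem_UUB {X : Bl} {x : ℝ} (h : X.Mem (x : ℂ)) (n : ℕ) : (UUB X n).Mem ((UU x n : ℝ) : ℂ) := by
  induction n using Nat.twoStepInduction with
  | zero =>
    simp only [UU, UUB, Complex.ofReal_one]
    exact bp_q1
  | one =>
    simp only [UU, UUB]
    push_cast
    exact Bl.mem_sub (bp_sm 2 h) bp_q1
  | more n ih1 ih2 =>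
    simp only [UU, UUB]
    push_cast
    exact Bl.mem_sub (Bl.mem_mul (bp_sm 2 h) ih2) ih1

theorem mem_DUB {X : Bl} {x : ℝ} (h : X.Mem (x : ℂ)) (n : ℕ) : (DUB X n).Mem ((DU x n : ℝ) : ℂ) := by
  induction n using Nat.twoStepInduction with
  | zero =>
    simp only [DU, DUB, Complex.ofReal_zero]
    exact bp_q0
  | one =>
    simp only [DU, DUB]
    push_cast
    exact bp_q2
  | more n ih1 ih2 =>
    simp only [DU, DUB]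
    push_cast
    exact Bl.mem_sub (Bl.mem_add (bp_sm 2 (mem_UUB h (n + 1))) (Bl.mem_mul (bp_sm 2 h) ih2)) ih1

theorem mem_D2UB {X : Bl} {x : ℝ} (h : X.Mem (x : ℂ)) (n : ℕ) :
    (D2UB X n).Mem ((D2U x n : ℝ) : ℂ) := by
  induction n using Nat.twoStepInduction with
  | zero =>
    simp only [D2U, D2UB, Complex.ofReal_zero]
    exact bp_q0
  | one =>
    simp only [D2U, D2UB, Complex.ofReal_zero]
    exact bp_q0
  | more n ih1 ih2 =>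
    simp only [D2U, D2UB]
    push_cast
    exact Bl.mem_sub (Bl.mem_add (bp_sm 4 (mem_DUB h (n + 1))) (Bl.mem_mul (bp_sm 2 h) ih2)) ih1

/-- derivative of `PP` in `X` -/
noncomputable def PX (J : ℕ) (q : ℂ) (X : ℝ) : ℂ :=
  ∑ j ∈ Finset.range (J + 1), q ^ tri j * ((DU X j : ℝ) : ℂ)

noncomputable def PXX (J : ℕ) (q : ℂ) (X : ℝ) : ℂ :=
  ∑ j ∈ Finset.range (J + 1), q ^ tri j * ((D2U X j : ℝ) : ℂ)

/-- derivative of `PP` in `q` -/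
noncomputable def PQ (J : ℕ) (q : ℂ) (X : ℝ) : ℂ :=
  ∑ j ∈ Finset.range (J + 1), (tri j : ℂ) * q ^ (tri j - 1) * ((UU X j : ℝ) : ℂ)

/-- coefficient of `δ` of the window function for `c = q + δ`, neighbours `q` -/
noncomputable def QT (J : ℕ) (q : ℂ) (X : ℝ) : ℂ :=
  ∑ j ∈ Finset.range (J + 1), 2 * (j : ℂ) * q ^ (tri j - 1) * ((UU X j : ℝ) : ℂ)

noncomputable def QTX (J : ℕ) (q : ℂ) (X : ℝ) : ℂ :=
  ∑ j ∈ Finset.range (J + 1), 2 * (j : ℂ) * q ^ (tri j - 1) * ((DU X j : ℝ) : ℂ)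

def PPB (p X : Bl) : Bl :=
  (Bl.q 1 + p * UUB X 1 + p.pw 3 * UUB X 2 + p.pw 6 * UUB X 3 + p.pw 10 * UUB X 4 +
    p.pw 15 * UUB X 5).wd (1 / 1000000)

def PXB (p X : Bl) : Bl :=
  (p * DUB X 1 + p.pw 3 * DUB X 2 + p.pw 6 * DUB X 3 + p.pw 10 * DUB X 4 +
    p.pw 15 * DUB X 5).wd (1 / 1000000)

def PXXB (p X : Bl) : Bl :=
  (p.pw 3 * D2UB X 2 + p.pw 6 * D2UB X 3 + p.pw 10 * D2UB X 4 +
    p.pw 15 * D2UB X 5).wd (1 / 1000000)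

def PQB (p X : Bl) : Bl :=
  (UUB X 1 + Bl.sm 3 (p.pw 2) * UUB X 2 + Bl.sm 6 (p.pw 5) * UUB X 3 + Bl.sm 10 (p.pw 9) * UUB X 4 +
    Bl.sm 15 (p.pw 14) * UUB X 5).wd (1 / 1000000)

def QTB (p X : Bl) : Bl :=
  (Bl.sm 2 (UUB X 1) + Bl.sm 4 (p.pw 2) * UUB X 2 + Bl.sm 6 (p.pw 5) * UUB X 3 +
    Bl.sm 8 (p.pw 9) * UUB X 4 + Bl.sm 10 (p.pw 14) * UUB X 5).wd (1 / 1000000)

def QTXB (p X : Bl) : Bl :=
  (Bl.sm 2 (DUB X 1) + Bl.sm 4 (p.pw 2) * DUB X 2 + Bl.sm 6 (p.pw 5) * DUB X 3 +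
    Bl.sm 8 (p.pw 9) * DUB X 4 + Bl.sm 10 (p.pw 14) * DUB X 5).wd (1 / 1000000)

private theorem bp_t0 : tri 0 = 0 := rfl
private theorem bp_t1 : tri 1 = 1 := rfl
private theorem bp_t2 : tri 2 = 3 := rfl
private theorem bp_t3 : tri 3 = 6 := rfl
private theorem bp_t4 : tri 4 = 10 := rfl
private theorem bp_t5 : tri 5 = 15 := rfl

/-- splitting off a geometrically decreasing tail -/
private theorem bp_tail (T : ℕ → ℂ) (K : ℕ → ℝ) (h0 : ∀ j, 0 ≤ K j) (hT : ∀ j, 6 ≤ j → ‖T j‖ ≤ K j)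
    (h6 : 2 * K 6 ≤ 1 / 1000000) (hs : ∀ j, 6 ≤ j → 2 * K (j + 1) ≤ K j) (J : ℕ) (hJ : 5 ≤ J) :
    ‖∑ j ∈ Finset.range (J + 1), T j - ∑ j ∈ Finset.range 6, T j‖ ≤
      (((1 / 1000000 : ℚ) : ℚ) : ℝ) := by
  have h1 : ∀ n, 6 ≤ n → ∑ j ∈ Finset.Ico 6 n, K j + 2 * K n ≤ 2 * K 6 := by
    intro n hn
    induction n, hn using Nat.le_induction with
    | base => simp
    | succ n hn ih =>
      rw [Finset.sum_Ico_succ_top hn]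
      have := hs n hn
      linarith
  rw [Finset.range_eq_Ico, Finset.range_eq_Ico,
    ← Finset.sum_Ico_consecutive T (Nat.zero_le 6) (by omega : 6 ≤ J + 1), add_sub_cancel_left]
  refine (norm_sum_le _ _).trans ?_
  have h2 : ∑ j ∈ Finset.Ico 6 (J + 1), ‖T j‖ ≤ ∑ j ∈ Finset.Ico 6 (J + 1), K j := by
    refine Finset.sum_le_sum fun j hj => ?_
    rw [Finset.mem_Ico] at hj
    exact hT j hj.1
  have h3 := h1 (J + 1) (by omega)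
  have h4 := h0 (J + 1)
  push_cast
  linarith

private theorem bp_tri (j : ℕ) : tri (j + 1) = tri j + (j + 1) := by
  unfold tri
  have h1 : (j + 1) * (j + 1 + 1) = j * (j + 1) + (j + 1) * 2 := by ring
  rw [h1, Nat.add_mul_div_right _ _ (by norm_num)]

private theorem bp_tri_pos (j : ℕ) (hj : 1 ≤ j) : 1 ≤ tri j := by
  obtain ⟨k, rfl⟩ : ∃ k, j = k + 1 := ⟨j - 1, by omega⟩
  rw [bp_tri]
  omega

private theorem bp_two_tri (j : ℕ) : 2 * tri j = j * (j + 1) := by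
  induction j with
  | zero => rfl
  | succ n ih =>
    rw [bp_tri, mul_add, ih]
    ring

/-- `ρ ^ (tri j) 6 ^ j` -/
private noncomputable def bpK1 (j : ℕ) : ℝ := (2804 / 10000) ^ tri j * 6 ^ j

/-- `2 j ρ ^ (tri j - 1) 4 ^ j` -/
private noncomputable def bpK2 (j : ℕ) : ℝ := 2 * j * (2804 / 10000) ^ (tri j - 1) * 4 ^ j

private theorem bpK1_nonneg (j : ℕ) : 0 ≤ bpK1 j := by
  unfold bpK1
  positivity

private theorem bpK2_nonneg (j : ℕ) : 0 ≤ bpK2 j := by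
  unfold bpK2
  positivity

private theorem bpK1_six : 2 * bpK1 6 ≤ 1 / 1000000 := by
  have h : tri 6 = 21 := rfl
  unfold bpK1
  rw [h]
  norm_num

private theorem bpK2_six : 2 * bpK2 6 ≤ 1 / 1000000 := by
  have h : tri 6 = 21 := rfl
  unfold bpK2
  rw [h]
  norm_num

private theorem bp_small (j : ℕ) (hj : 6 ≤ j) : (2804 / 10000 : ℝ) ^ (j + 1) ≤ 1 / 1000 := by
  calc (2804 / 10000 : ℝ) ^ (j + 1) ≤ (2804 / 10000 : ℝ) ^ 7 :=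
        pow_le_pow_of_le_one (by norm_num) (by norm_num) (by omega)
    _ ≤ 1 / 1000 := by norm_num

private theorem bpK1_step (j : ℕ) (hj : 6 ≤ j) : 2 * bpK1 (j + 1) ≤ bpK1 j := by
  have h1 := bp_small j hj
  have h0 := bpK1_nonneg j
  have h2 : 2 * bpK1 (j + 1) = bpK1 j * (12 * (2804 / 10000 : ℝ) ^ (j + 1)) := by
    unfold bpK1
    rw [bp_tri, pow_add, pow_succ (6 : ℝ) j]
    ring
  rw [h2]
  calc bpK1 j * (12 * (2804 / 10000 : ℝ) ^ (j + 1)) ≤ bpK1 j * 1 :=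
        mul_le_mul_of_nonneg_left (by linarith) h0
    _ = bpK1 j := mul_one _

private theorem bpK2_step (j : ℕ) (hj : 6 ≤ j) : 2 * bpK2 (j + 1) ≤ bpK2 j := by
  have h1 := bp_small j hj
  have hj' : (6 : ℝ) ≤ j := by exact_mod_cast hj
  have h3 : tri (j + 1) - 1 = (tri j - 1) + (j + 1) := by
    have := bp_tri_pos j (by omega)
    rw [bp_tri]
    omega
  have h2 : 2 * bpK2 (j + 1) = (2804 / 10000 : ℝ) ^ (tri j - 1) * 4 ^ j *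
      (16 * (j + 1) * (2804 / 10000 : ℝ) ^ (j + 1)) := by
    unfold bpK2
    rw [h3, pow_add (2804 / 10000 : ℝ), pow_succ (4 : ℝ) j]
    push_cast
    ring
  have h4 : 16 * ((j : ℝ) + 1) * (2804 / 10000 : ℝ) ^ (j + 1) ≤ 2 * j := by
    have h5 : 16 * ((j : ℝ) + 1) * (2804 / 10000 : ℝ) ^ (j + 1) ≤ 16 * ((j : ℝ) + 1) * (1 / 1000) :=
      mul_le_mul_of_nonneg_left h1 (by linarith)
    linarith
  rw [h2]
  calc (2804 / 10000 : ℝ) ^ (tri j - 1) * 4 ^ j *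
      (16 * (j + 1) * (2804 / 10000 : ℝ) ^ (j + 1)) ≤
      (2804 / 10000 : ℝ) ^ (tri j - 1) * 4 ^ j * (2 * j) :=
        mul_le_mul_of_nonneg_left h4 (by positivity)
    _ = bpK2 j := by
        unfold bpK2
        ring

private theorem bp_pn {p : ℂ} (hn : ‖p‖ ≤ 2804 / 10000) (n : ℕ) :
    ‖p ^ n‖ ≤ (2804 / 10000) ^ n := by
  rw [norm_pow]
  exact pow_le_pow_left₀ (norm_nonneg _) hn n

/-- a term `p ^ (tri j) * y` -/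
private theorem bp_b1 {p : ℂ} (hn : ‖p‖ ≤ 2804 / 10000) (j : ℕ) (y : ℝ) (hy : |y| ≤ 6 ^ j) :
    ‖p ^ tri j * (y : ℂ)‖ ≤ bpK1 j := by
  rw [norm_mul, Complex.norm_real, Real.norm_eq_abs]
  exact mul_le_mul (bp_pn hn _) hy (abs_nonneg _) (by positivity)

/-- a term `c p ^ (tri j - 1) * y` -/
private theorem bp_b2 {p : ℂ} (hn : ‖p‖ ≤ 2804 / 10000) (j : ℕ) (c y : ℝ) (hc : 0 ≤ c)
    (hy : c * |y| ≤ 2 * j * 4 ^ j) :
    ‖(c : ℂ) * p ^ (tri j - 1) * (y : ℂ)‖ ≤ bpK2 j := by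
  rw [norm_mul, norm_mul, Complex.norm_real, Complex.norm_real, Real.norm_of_nonneg hc,
    Real.norm_eq_abs]
  have h1 := bp_pn hn (tri j - 1)
  calc c * ‖p ^ (tri j - 1)‖ * |y| = ‖p ^ (tri j - 1)‖ * (c * |y|) := by ring
    _ ≤ (2804 / 10000) ^ (tri j - 1) * (2 * j * 4 ^ j) :=
        mul_le_mul h1 hy (mul_nonneg hc (abs_nonneg _)) (by positivity)
    _ = bpK2 j := by
        unfold bpK2
        ring

private theorem bp_tri_pow (j : ℕ) : (tri j : ℝ) * 3 ^ j ≤ 2 * j * 4 ^ j := by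
  have h1 : 2 * (tri j : ℝ) = j * (j + 1) := by exact_mod_cast bp_two_tri j
  have h2 : ((j : ℝ) + 1) * 3 ^ j ≤ 4 * 4 ^ j := by
    induction j with
    | zero => norm_num
    | succ n ih =>
      have ih' := ih (by exact_mod_cast bp_two_tri n)
      push_cast
      rw [pow_succ, pow_succ]
      have h3 : (3 : ℝ) ^ n ≤ 4 ^ n := pow_le_pow_left₀ (by norm_num) (by norm_num) n
      have h4 : (0 : ℝ) < 4 ^ n := by positivity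
      nlinarith
  have h3 : (0 : ℝ) ≤ j := Nat.cast_nonneg j
  have h4 := mul_le_mul_of_nonneg_left h2 h3
  have h5 : (tri j : ℝ) * 3 ^ j = (j * (((j : ℝ) + 1) * 3 ^ j)) / 2 := by
    have : (tri j : ℝ) = j * (j + 1) / 2 := by linarith
    rw [this]
    ring
  rw [h5]
  linarith

private theorem bp_pow36 (j : ℕ) : (3 : ℝ) ^ j ≤ 6 ^ j :=
  pow_le_pow_left₀ (by norm_num) (by norm_num) j

private theorem bp_pow46 (j : ℕ) : (4 : ℝ) ^ j ≤ 6 ^ j :=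
  pow_le_pow_left₀ (by norm_num) (by norm_num) j

private theorem bp_pow34 (j : ℕ) : (3 : ℝ) ^ j ≤ 4 ^ j :=
  pow_le_pow_left₀ (by norm_num) (by norm_num) j

/-- The terms `j ≤ 5` are explicit; for `j ≥ 6`: `‖p‖^(tri j) 3^j`, `.2804^21 * 3^6 ≤ 2e-9`,
then at most half of the previous one. -/
theorem mem_PPB (J : ℕ) (hJ : 5 ≤ J) {P X : Bl} {p : ℂ} {x : ℝ} (hp : P.Mem p)
    (hn : ‖p‖ ≤ 2804 / 10000) (hx : X.Mem (x : ℂ)) (hx1 : |x| ≤ 1) :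
    (PPB P X).Mem (PP J p x) := by
  have h6 : ∑ j ∈ Finset.range 6, p ^ tri j * ((UU x j : ℝ) : ℂ) =
      1 + p * ((UU x 1 : ℝ) : ℂ) + p ^ 3 * ((UU x 2 : ℝ) : ℂ) + p ^ 6 * ((UU x 3 : ℝ) : ℂ) +
        p ^ 10 * ((UU x 4 : ℝ) : ℂ) + p ^ 15 * ((UU x 5 : ℝ) : ℂ) := by
    have e0 : UU x 0 = 1 := rfl
    simp only [Finset.sum_range_succ, Finset.sum_range_zero, bp_t0, bp_t1, bp_t2, bp_t3, bp_t4,
      bp_t5, e0, pow_zero, pow_one, Complex.ofReal_one, mul_one, zero_add]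
  refine Bl.mem_wd (z := ∑ j ∈ Finset.range 6, p ^ tri j * ((UU x j : ℝ) : ℂ)) _ ?_ ?_
  · rw [h6]
    exact Bl.mem_add (Bl.mem_add (Bl.mem_add (Bl.mem_add (Bl.mem_add bp_q1
      (Bl.mem_mul hp (mem_UUB hx 1))) (Bl.mem_mul (Bl.mem_pw hp 3) (mem_UUB hx 2)))
      (Bl.mem_mul (Bl.mem_pw hp 6) (mem_UUB hx 3))) (Bl.mem_mul (Bl.mem_pw hp 10) (mem_UUB hx 4)))
      (Bl.mem_mul (Bl.mem_pw hp 15) (mem_UUB hx 5))
  · exact bp_tail _ bpK1 bpK1_nonneg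
      (fun j _ => bp_b1 hn j _ ((uu_abs x hx1 j).trans (bp_pow36 j))) bpK1_six bpK1_step J hJ

theorem mem_PXB (J : ℕ) (hJ : 5 ≤ J) {P X : Bl} {p : ℂ} {x : ℝ} (hp : P.Mem p)
    (hn : ‖p‖ ≤ 2804 / 10000) (hx : X.Mem (x : ℂ)) (hx1 : |x| ≤ 1) :
    (PXB P X).Mem (PX J p x) := by
  have h6 : ∑ j ∈ Finset.range 6, p ^ tri j * ((DU x j : ℝ) : ℂ) =
      p * ((DU x 1 : ℝ) : ℂ) + p ^ 3 * ((DU x 2 : ℝ) : ℂ) + p ^ 6 * ((DU x 3 : ℝ) : ℂ) +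
        p ^ 10 * ((DU x 4 : ℝ) : ℂ) + p ^ 15 * ((DU x 5 : ℝ) : ℂ) := by
    have e0 : DU x 0 = 0 := rfl
    simp only [Finset.sum_range_succ, Finset.sum_range_zero, bp_t0, bp_t1, bp_t2, bp_t3, bp_t4,
      bp_t5, e0, pow_one, Complex.ofReal_zero, mul_zero, zero_add]
  refine Bl.mem_wd (z := ∑ j ∈ Finset.range 6, p ^ tri j * ((DU x j : ℝ) : ℂ)) _ ?_ ?_
  · rw [h6]
    exact Bl.mem_add (Bl.mem_add (Bl.mem_add (Bl.mem_add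
      (Bl.mem_mul hp (mem_DUB hx 1)) (Bl.mem_mul (Bl.mem_pw hp 3) (mem_DUB hx 2)))
      (Bl.mem_mul (Bl.mem_pw hp 6) (mem_DUB hx 3))) (Bl.mem_mul (Bl.mem_pw hp 10) (mem_DUB hx 4)))
      (Bl.mem_mul (Bl.mem_pw hp 15) (mem_DUB hx 5))
  · exact bp_tail _ bpK1 bpK1_nonneg
      (fun j _ => bp_b1 hn j _ ((du_abs x hx1 j).trans (bp_pow46 j))) bpK1_six bpK1_step J hJ

/-- `.2804^21 * 6^6 ≤ 1.2e-7`. -/
theorem mem_PXXB (J : ℕ) (hJ : 5 ≤ J) {P X : Bl} {p : ℂ} {x : ℝ} (hp : P.Mem p)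
    (hn : ‖p‖ ≤ 2804 / 10000) (hx : X.Mem (x : ℂ)) (hx1 : |x| ≤ 1) :
    (PXXB P X).Mem (PXX J p x) := by
  have h6 : ∑ j ∈ Finset.range 6, p ^ tri j * ((D2U x j : ℝ) : ℂ) =
      p ^ 3 * ((D2U x 2 : ℝ) : ℂ) + p ^ 6 * ((D2U x 3 : ℝ) : ℂ) +
        p ^ 10 * ((D2U x 4 : ℝ) : ℂ) + p ^ 15 * ((D2U x 5 : ℝ) : ℂ) := by
    have e0 : D2U x 0 = 0 := rfl
    have e1 : D2U x 1 = 0 := rfl
    simp only [Finset.sum_range_succ, Finset.sum_range_zero, bp_t0, bp_t1, bp_t2, bp_t3, bp_t4,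
      bp_t5, e0, e1, Complex.ofReal_zero, mul_zero, zero_add]
  refine Bl.mem_wd (z := ∑ j ∈ Finset.range 6, p ^ tri j * ((D2U x j : ℝ) : ℂ)) _ ?_ ?_
  · rw [h6]
    exact Bl.mem_add (Bl.mem_add (Bl.mem_add (Bl.mem_mul (Bl.mem_pw hp 3) (mem_D2UB hx 2))
      (Bl.mem_mul (Bl.mem_pw hp 6) (mem_D2UB hx 3))) (Bl.mem_mul (Bl.mem_pw hp 10) (mem_D2UB hx 4)))
      (Bl.mem_mul (Bl.mem_pw hp 15) (mem_D2UB hx 5))
  · exact bp_tail _ bpK1 bpK1_nonneg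
      (fun j _ => bp_b1 hn j _ (d2u_abs x hx1 j)) bpK1_six bpK1_step J hJ

/-- `21 * .2804^20 * 3^6 ≤ 1.5e-7`. -/
theorem mem_PQB (J : ℕ) (hJ : 5 ≤ J) {P X : Bl} {p : ℂ} {x : ℝ} (hp : P.Mem p)
    (hn : ‖p‖ ≤ 2804 / 10000) (hx : X.Mem (x : ℂ)) (hx1 : |x| ≤ 1) :
    (PQB P X).Mem (PQ J p x) := by
  have h6 : ∑ j ∈ Finset.range 6, (tri j : ℂ) * p ^ (tri j - 1) * ((UU x j : ℝ) : ℂ) =
      ((UU x 1 : ℝ) : ℂ) + ((3 : ℕ) : ℂ) * p ^ 2 * ((UU x 2 : ℝ) : ℂ) +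
        ((6 : ℕ) : ℂ) * p ^ 5 * ((UU x 3 : ℝ) : ℂ) +
        ((10 : ℕ) : ℂ) * p ^ 9 * ((UU x 4 : ℝ) : ℂ) +
        ((15 : ℕ) : ℂ) * p ^ 14 * ((UU x 5 : ℝ) : ℂ) := by
    simp only [Finset.sum_range_succ, Finset.sum_range_zero, bp_t0, bp_t1, bp_t2, bp_t3, bp_t4,
      bp_t5]
    norm_num
  refine Bl.mem_wd (z := ∑ j ∈ Finset.range 6, (tri j : ℂ) * p ^ (tri j - 1) *
    ((UU x j : ℝ) : ℂ)) _ ?_ ?_
  · rw [h6]
    exact Bl.mem_add (Bl.mem_add (Bl.mem_add (Bl.mem_add (mem_UUB hx 1)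
      (Bl.mem_mul (bp_sm 3 (Bl.mem_pw hp 2)) (mem_UUB hx 2)))
      (Bl.mem_mul (bp_sm 6 (Bl.mem_pw hp 5)) (mem_UUB hx 3)))
      (Bl.mem_mul (bp_sm 10 (Bl.mem_pw hp 9)) (mem_UUB hx 4)))
      (Bl.mem_mul (bp_sm 15 (Bl.mem_pw hp 14)) (mem_UUB hx 5))
  · refine bp_tail _ bpK2 bpK2_nonneg (fun j _ => ?_) bpK2_six bpK2_step J hJ
    have h1 := bp_b2 hn j (tri j : ℝ) (UU x j) (Nat.cast_nonneg _) (by
      have h2 := mul_le_mul_of_nonneg_left (uu_abs x hx1 j) (Nat.cast_nonneg (α := ℝ) (tri j))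
      exact h2.trans (bp_tri_pow j))
    rw [Complex.ofReal_natCast] at h1
    exact h1

theorem mem_QTB (J : ℕ) (hJ : 5 ≤ J) {P X : Bl} {p : ℂ} {x : ℝ} (hp : P.Mem p)
    (hn : ‖p‖ ≤ 2804 / 10000) (hx : X.Mem (x : ℂ)) (hx1 : |x| ≤ 1) :
    (QTB P X).Mem (QT J p x) := by
  have h6 : ∑ j ∈ Finset.range 6, 2 * (j : ℂ) * p ^ (tri j - 1) * ((UU x j : ℝ) : ℂ) =
      ((2 : ℕ) : ℂ) * ((UU x 1 : ℝ) : ℂ) + ((4 : ℕ) : ℂ) * p ^ 2 * ((UU x 2 : ℝ) : ℂ) +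
        ((6 : ℕ) : ℂ) * p ^ 5 * ((UU x 3 : ℝ) : ℂ) +
        ((8 : ℕ) : ℂ) * p ^ 9 * ((UU x 4 : ℝ) : ℂ) +
        ((10 : ℕ) : ℂ) * p ^ 14 * ((UU x 5 : ℝ) : ℂ) := by
    simp only [Finset.sum_range_succ, Finset.sum_range_zero, bp_t0, bp_t1, bp_t2, bp_t3, bp_t4,
      bp_t5]
    norm_num
  refine Bl.mem_wd (z := ∑ j ∈ Finset.range 6, 2 * (j : ℂ) * p ^ (tri j - 1) *
    ((UU x j : ℝ) : ℂ)) _ ?_ ?_
  · rw [h6]
    exact Bl.mem_add (Bl.mem_add (Bl.mem_add (Bl.mem_add (bp_sm 2 (mem_UUB hx 1))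
      (Bl.mem_mul (bp_sm 4 (Bl.mem_pw hp 2)) (mem_UUB hx 2)))
      (Bl.mem_mul (bp_sm 6 (Bl.mem_pw hp 5)) (mem_UUB hx 3)))
      (Bl.mem_mul (bp_sm 8 (Bl.mem_pw hp 9)) (mem_UUB hx 4)))
      (Bl.mem_mul (bp_sm 10 (Bl.mem_pw hp 14)) (mem_UUB hx 5))
  · refine bp_tail _ bpK2 bpK2_nonneg (fun j _ => ?_) bpK2_six bpK2_step J hJ
    have h1 := bp_b2 hn j (2 * (j : ℝ)) (UU x j) (by positivity)
      (mul_le_mul_of_nonneg_left ((uu_abs x hx1 j).trans (bp_pow34 j)) (by positivity))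
    rw [Complex.ofReal_mul, Complex.ofReal_natCast, Complex.ofReal_ofNat] at h1
    exact h1

/-- `12 * .2804^20 * 4^6 ≤ 5e-7`. -/
theorem mem_QTXB (J : ℕ) (hJ : 5 ≤ J) {P X : Bl} {p : ℂ} {x : ℝ} (hp : P.Mem p)
    (hn : ‖p‖ ≤ 2804 / 10000) (hx : X.Mem (x : ℂ)) (hx1 : |x| ≤ 1) :
    (QTXB P X).Mem (QTX J p x) := by
  have h6 : ∑ j ∈ Finset.range 6, 2 * (j : ℂ) * p ^ (tri j - 1) * ((DU x j : ℝ) : ℂ) =
      ((2 : ℕ) : ℂ) * ((DU x 1 : ℝ) : ℂ) + ((4 : ℕ) : ℂ) * p ^ 2 * ((DU x 2 : ℝ) : ℂ) +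
        ((6 : ℕ) : ℂ) * p ^ 5 * ((DU x 3 : ℝ) : ℂ) +
        ((8 : ℕ) : ℂ) * p ^ 9 * ((DU x 4 : ℝ) : ℂ) +
        ((10 : ℕ) : ℂ) * p ^ 14 * ((DU x 5 : ℝ) : ℂ) := by
    simp only [Finset.sum_range_succ, Finset.sum_range_zero, bp_t0, bp_t1, bp_t2, bp_t3, bp_t4,
      bp_t5]
    norm_num
  refine Bl.mem_wd (z := ∑ j ∈ Finset.range 6, 2 * (j : ℂ) * p ^ (tri j - 1) *
    ((DU x j : ℝ) : ℂ)) _ ?_ ?_
  · rw [h6]
    exact Bl.mem_add (Bl.mem_add (Bl.mem_add (Bl.mem_add (bp_sm 2 (mem_DUB hx 1))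
      (Bl.mem_mul (bp_sm 4 (Bl.mem_pw hp 2)) (mem_DUB hx 2)))
      (Bl.mem_mul (bp_sm 6 (Bl.mem_pw hp 5)) (mem_DUB hx 3)))
      (Bl.mem_mul (bp_sm 8 (Bl.mem_pw hp 9)) (mem_DUB hx 4)))
      (Bl.mem_mul (bp_sm 10 (Bl.mem_pw hp 14)) (mem_DUB hx 5))
  · refine bp_tail _ bpK2 bpK2_nonneg (fun j _ => ?_) bpK2_six bpK2_step J hJ
    have h1 := bp_b2 hn j (2 * (j : ℝ)) (DU x j) (by positivity)
      (mul_le_mul_of_nonneg_left (du_abs x hx1 j) (by positivity))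
    rw [Complex.ofReal_mul, Complex.ofReal_natCast, Complex.ofReal_ofNat] at h1
    exact h1

end Pool.Agent.MaxTerm8
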