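import Pool.Agent.MaxTerm8.UpperPoly

/-! The theta function at `q1`. -/

namespace Pool.Agent.MaxTerm8

open Complex ComplexConjugate

private theorem q1_pow3 : q1 ^ 3 = ⟨(17091734645139553817650154124449 / 1000000000000000000000000000000000), (6935359298787846345294467658891 / 500000000000000000000000000000000)⟩ := by
  have h : q1 ^ 3 = q1 * q1 * q1 := by ring
  rw [h, q1]
  apply Complex.ext <;> simp only [Complex.mul_re, Complex.mul_im] <;> norm_num

private theorem q1_pow5 : q1 ^ 5 = ⟨(9941475983130390186207165151394512380705720092394941 / 10000000000000000000000000000000000000000000000000000000), (-7072252056904264448936822226540980589407432027804631 / 5000000000000000000000000000000000000000000000000000000)⟩ := by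
  have h : q1 ^ 5 = q1 ^ 3 * q1 * q1 := by ring
  rw [h, q1_pow3, q1]
  apply Complex.ext <;> simp only [Complex.mul_re, Complex.mul_im] <;> norm_num

private theorem q1_pow6 : q1 ^ 6 = ⟨(99730558766731518636616532681314650141328308693513060454154077 / 1000000000000000000000000000000000000000000000000000000000000000000), (118537320803582995751727425495637332757103562188796824895326059 / 250000000000000000000000000000000000000000000000000000000000000000)⟩ := by
  have h : q1 ^ 6 = q1 ^ 3 * q1 ^ 3 := by ring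
  rw [h, q1_pow3]
  apply Complex.ext <;> simp only [Complex.mul_re, Complex.mul_im] <;> norm_num

private theorem q1_pow10 : q1 ^ 10 = ⟨(-101234051902388039314348098789666294238657501039729968483812417280347369849097241675036162371260897791163 / 100000000000000000000000000000000000000000000000000000000000000000000000000000000000000000000000000000000000000), (-70308623970358246611989901843256526980258938042759713693989167673804380548890860721938971359839240771771 / 25000000000000000000000000000000000000000000000000000000000000000000000000000000000000000000000000000000000000)⟩ := by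
  have h : q1 ^ 10 = q1 ^ 5 * q1 ^ 5 := by ring
  rw [h, q1_pow5]
  apply Complex.ext <;> simp only [Complex.mul_re, Complex.mul_im] <;> norm_num

private theorem q1_pow15 : q1 ^ 15 = ⟨(-4984338379602362734214212548998123359180472481951722502707889538081654690675078597646585525312943971513537822723497382178735979887576813079322387791518678391 / 1000000000000000000000000000000000000000000000000000000000000000000000000000000000000000000000000000000000000000000000000000000000000000000000000000000000000000000000), (-681990261421107457833244839887324872060081178068178045203041364966287195662058786804194432790575088788524804439854894831863563967019519598090910197149745169 / 500000000000000000000000000000000000000000000000000000000000000000000000000000000000000000000000000000000000000000000000000000000000000000000000000000000000000000000)⟩ := by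
  have h : q1 ^ 15 = q1 ^ 10 * q1 ^ 5 := by ring
  rw [h, q1_pow10, q1_pow5]
  apply Complex.ext <;> simp only [Complex.mul_re, Complex.mul_im] <;> norm_num

private noncomputable def cc : ℕ → ℂ
  | 0 => 1
  | 1 => q1
  | 2 => ⟨(170917346451 / 10000000000000), (17338398247 / 1250000000000)⟩
  | 3 => ⟨(249326397 / 2500000000000), (148171651 / 312500000000)⟩
  | 4 => ⟨(-2024681 / 2000000000000), (-562469 / 200000000000)⟩
  | 5 => ⟨(-49843 / 10000000000000), (-341 / 250000000000)⟩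
  | _ => 0

private theorem norm_le_of_sq {z : ℂ} {r : ℝ} (hr : 0 ≤ r) (h : z.re * z.re + z.im * z.im ≤ r ^ 2) :
    ‖z‖ ≤ r := by
  apply abs_le_of_sq_le_sq' _ hr |>.2
  rw [← Complex.normSq_eq_norm_sq, Complex.normSq_apply]
  exact h

private theorem q1_norm : ‖q1‖ ≤ 2803 / 10000 := by
  apply norm_le_of_sq (by norm_num)
  norm_num [q1]

private theorem d_bound : ∀ j < 6, ‖q1 ^ tri j - cc j‖ ≤ 1 / 10 ^ 13 := by
  intro j hj
  interval_cases j
  · simp [tri, cc]
  · simp [tri, cc]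
  · have : tri 2 = 3 := rfl
    rw [this, q1_pow3]
    apply norm_le_of_sq (by norm_num)
    simp only [cc, Complex.sub_re, Complex.sub_im]
    norm_num
  · have : tri 3 = 6 := rfl
    rw [this, q1_pow6]
    apply norm_le_of_sq (by norm_num)
    simp only [cc, Complex.sub_re, Complex.sub_im]
    norm_num
  · have : tri 4 = 10 := rfl
    rw [this, q1_pow10]
    apply norm_le_of_sq (by norm_num)
    simp only [cc, Complex.sub_re, Complex.sub_im]
    norm_num
  · have : tri 5 = 15 := rfl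
    rw [this, q1_pow15]
    apply norm_le_of_sq (by norm_num)
    simp only [cc, Complex.sub_re, Complex.sub_im]
    norm_num

private theorem cc_ge {j : ℕ} (h : 6 ≤ j) : cc j = 0 := by
  obtain ⟨k, rfl⟩ := Nat.exists_eq_add_of_le h
  rw [show 6 + k = k + 6 by ring]
  rfl

private theorem tri_ge (j : ℕ) : 21 + j ≤ tri (j + 6) := by
  unfold tri
  rw [Nat.le_div_iff_mul_le (by norm_num)]
  nlinarith

private theorem tail_bound (N : ℕ) :
    ∑ j ∈ Finset.range N, ‖q1‖ ^ tri (j + 6) ≤ 36 / 10 ^ 13 := by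
  have h0 := norm_nonneg q1
  have h1 : ∀ j ∈ Finset.range N, ‖q1‖ ^ tri (j + 6) ≤ (2803 / 10000 : ℝ) ^ 21 * (2803 / 10000) ^ j := by
    intro j _
    calc ‖q1‖ ^ tri (j + 6) ≤ (2803 / 10000 : ℝ) ^ tri (j + 6) := pow_le_pow_left₀ h0 q1_norm _
      _ ≤ (2803 / 10000 : ℝ) ^ (21 + j) :=
        pow_le_pow_of_le_one (by norm_num) (by norm_num) (tri_ge j)
      _ = _ := pow_add _ _ _
  refine (Finset.sum_le_sum h1).trans ?_
  rw [← Finset.mul_sum]
  have h2 : ∑ j ∈ Finset.range N, (2803 / 10000 : ℝ) ^ j ≤ 10000 / 7197 := by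
    rw [geom_sum_eq (by norm_num)]
    have : (0 : ℝ) ≤ (2803 / 10000) ^ N := by positivity
    rw [div_le_iff_of_neg (by norm_num)]
    linarith
  calc (2803 / 10000 : ℝ) ^ 21 * ∑ j ∈ Finset.range N, (2803 / 10000 : ℝ) ^ j
      ≤ (2803 / 10000 : ℝ) ^ 21 * (10000 / 7197) := by gcongr
    _ ≤ 36 / 10 ^ 13 := by norm_num

private theorem up_eq (X : ℝ) : ((upRe X : ℂ) + (upIm X : ℂ) * I) =
    ∑ j ∈ Finset.range 6, 2 * cc j * ((UU X j : ℝ) : ℂ) := by
  have e0 : UU X 0 = 1 := rfl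
  have e1 : UU X 1 = 2 * X - 1 := rfl
  have e2 : UU X 2 = 4 * X ^ 2 - 2 * X - 1 := by
    have : UU X 2 = 2 * X * UU X 1 - UU X 0 := rfl
    rw [this, e1, e0]; ring
  have e3 : UU X 3 = 8 * X ^ 3 - 4 * X ^ 2 - 4 * X + 1 := by
    have : UU X 3 = 2 * X * UU X 2 - UU X 1 := rfl
    rw [this, e2, e1]; ring
  have e4 : UU X 4 = 16 * X ^ 4 - 8 * X ^ 3 - 12 * X ^ 2 + 4 * X + 1 := by
    have : UU X 4 = 2 * X * UU X 3 - UU X 2 := rfl
    rw [this, e3, e2]; ring
  have e5 : UU X 5 = 32 * X ^ 5 - 16 * X ^ 4 - 32 * X ^ 3 + 12 * X ^ 2 + 6 * X - 1 := by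
    have : UU X 5 = 2 * X * UU X 4 - UU X 3 := rfl
    rw [this, e4, e3]; ring
  simp only [Finset.sum_range_succ, Finset.sum_range_zero, e0, e1, e2, e3, e4, e5, cc]
  apply Complex.ext
  · simp only [upRe, q1, Complex.add_re, Complex.mul_re, Complex.ofReal_re, Complex.ofReal_im,
      Complex.I_re, Complex.I_im, Complex.add_im, Complex.mul_im, Complex.one_re, Complex.one_im,
      Complex.re_ofNat, Complex.im_ofNat, Complex.zero_re, Complex.zero_im]
    ring
  · simp only [upIm, q1, Complex.add_re, Complex.mul_re, Complex.ofReal_re, Complex.ofReal_im,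
      Complex.I_re, Complex.I_im, Complex.add_im, Complex.mul_im, Complex.one_re, Complex.one_im,
      Complex.re_ofNat, Complex.im_ofNat, Complex.zero_re, Complex.zero_im]
    ring

/-- `√((1+X)/2) ‖2 PP J q1 X - (upRe X + upIm X * I)‖ ≤ 2 ∑_{1≤j≤5} ‖q1^(tri j) - c_j‖ +
2 ∑_{j≥6} ‖q1‖^(tri j) ≤ 1e-11` (`uu_bound`; `‖q1‖ ≤ .2803`; the `c_j` are `q1^(tri j)` rounded to 13
digits, `2 c_j` are the coefficients in `upRe`, `upIm`). -/
theorem up_approx (J : ℕ) (hJ : 5 ≤ J) (X : ℝ) (h1 : -1 ≤ X) (h2 : X ≤ 1) :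
    (1 + X) / 2 * ‖2 * PP J q1 X - ((upRe X : ℂ) + (upIm X : ℂ) * I)‖ ^ 2 ≤ (1 / 10 ^ 11) ^ 2 := by
  obtain ⟨N, rfl⟩ := Nat.exists_eq_add_of_le hJ
  have hs0 : 0 ≤ (1 + X) / 2 := by linarith
  set s := Real.sqrt ((1 + X) / 2) with hs
  have hss : s ^ 2 = (1 + X) / 2 := Real.sq_sqrt hs0
  have hs0' : 0 ≤ s := Real.sqrt_nonneg _
  have hsu : ∀ j, s * |UU X j| ≤ 1 := by
    intro j
    have h := uu_bound X h1 h2 j
    rw [← hss] at h
    have h3 : (s * |UU X j|) ^ 2 ≤ 1 := by
      rw [mul_pow, sq_abs]; exact h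
    exact (abs_le_of_sq_le_sq' (by simpa using h3) (by norm_num)).2
  have hD : 2 * PP (5 + N) q1 X - ((upRe X : ℂ) + (upIm X : ℂ) * I) =
      ∑ j ∈ Finset.range (6 + N), 2 * (q1 ^ tri j - cc j) * ((UU X j : ℝ) : ℂ) := by
    rw [up_eq]
    have h3 : ∑ j ∈ Finset.range 6, 2 * cc j * ((UU X j : ℝ) : ℂ) =
        ∑ j ∈ Finset.range (6 + N), 2 * cc j * ((UU X j : ℝ) : ℂ) := by
      rw [Finset.sum_range_add]
      have : ∀ j ∈ Finset.range N, 2 * cc (6 + j) * ((UU X (6 + j) : ℝ) : ℂ) = 0 := by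
        intro j _
        rw [cc_ge (by omega)]; ring
      rw [Finset.sum_eq_zero this, add_zero]
    rw [h3, PP, Finset.mul_sum, show 5 + N + 1 = 6 + N by ring, ← Finset.sum_sub_distrib]
    refine Finset.sum_congr rfl fun j _ => ?_
    ring
  have hn : s * ‖2 * PP (5 + N) q1 X - ((upRe X : ℂ) + (upIm X : ℂ) * I)‖ ≤ 1 / 10 ^ 11 := by
    rw [hD]
    calc s * ‖∑ j ∈ Finset.range (6 + N), 2 * (q1 ^ tri j - cc j) * ((UU X j : ℝ) : ℂ)‖
        ≤ s * ∑ j ∈ Finset.range (6 + N), ‖2 * (q1 ^ tri j - cc j) * ((UU X j : ℝ) : ℂ)‖ := by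
          gcongr
          exact norm_sum_le _ _
      _ = ∑ j ∈ Finset.range (6 + N), 2 * ‖q1 ^ tri j - cc j‖ * (s * |UU X j|) := by
          rw [Finset.mul_sum]
          refine Finset.sum_congr rfl fun j _ => ?_
          rw [norm_mul, norm_mul, Complex.norm_real, Real.norm_eq_abs]
          norm_num
          ring
      _ ≤ ∑ j ∈ Finset.range (6 + N), 2 * ‖q1 ^ tri j - cc j‖ * 1 := by
          refine Finset.sum_le_sum fun j _ => ?_
          exact mul_le_mul_of_nonneg_left (hsu j) (by positivity)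
      _ = ∑ j ∈ Finset.range 6, 2 * ‖q1 ^ tri j - cc j‖ +
          2 * ∑ j ∈ Finset.range N, ‖q1‖ ^ tri (j + 6) := by
          rw [Finset.sum_range_add, Finset.mul_sum]
          congr 1
          · exact Finset.sum_congr rfl fun j _ => by ring
          · refine Finset.sum_congr rfl fun j _ => ?_
            rw [cc_ge (by omega), sub_zero, norm_pow, add_comm 6 j]; ring
      _ ≤ ∑ j ∈ Finset.range 6, 2 * (1 / 10 ^ 13) + 2 * (36 / 10 ^ 13) := by
          gcongr with j hj
          · exact d_bound j (Finset.mem_range.1 hj)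
          · exact tail_bound N
      _ ≤ 1 / 10 ^ 11 := by norm_num
  have hn0 : 0 ≤ s * ‖2 * PP (5 + N) q1 X - ((upRe X : ℂ) + (upIm X : ℂ) * I)‖ := by positivity
  calc _ = (s * ‖2 * PP (5 + N) q1 X - ((upRe X : ℂ) + (upIm X : ℂ) * I)‖) ^ 2 := by
        rw [mul_pow, hss]
    _ ≤ _ := by gcongr

private theorem two_bounds (J : ℕ) (hJ : 5 ≤ J) (X : ℝ) (h1 : -1 ≤ X) (h2 : X ≤ 1) :
    GJ J q1 X ≤ (1 + X) / 2 * (upRe X ^ 2 + upIm X ^ 2) + 1 / 10000000000 ∧
    (1 + X) / 2 * (upRe X ^ 2 + upIm X ^ 2) - 1 / 10000000000 ≤ GJ J q1 X := by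
  have hs0 : 0 ≤ (1 + X) / 2 := by linarith
  set s := Real.sqrt ((1 + X) / 2) with hs
  have hss : s ^ 2 = (1 + X) / 2 := Real.sq_sqrt hs0
  have hs0' : 0 ≤ s := Real.sqrt_nonneg _
  set U : ℂ := (upRe X : ℂ) + (upIm X : ℂ) * I with hU
  have hUn : ‖U‖ ^ 2 = upRe X ^ 2 + upIm X ^ 2 := by
    rw [← Complex.normSq_eq_norm_sq, Complex.normSq_apply]
    simp [hU]
    ring
  have ha := up_approx J hJ X h1 h2
  rw [← hU, ← hss, ← mul_pow] at ha
  have ha' : s * ‖2 * PP J q1 X - U‖ ≤ 1 / 10 ^ 11 :=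
    (abs_le_of_sq_le_sq' ha (by norm_num)).2
  have hB : (s * ‖U‖) ^ 2 = (1 + X) / 2 * (upRe X ^ 2 + upIm X ^ 2) := by
    rw [mul_pow, hss, hUn]
  have hA : (s * ‖2 * PP J q1 X‖) ^ 2 = GJ J q1 X := by
    rw [mul_pow, hss, GJ]
  have hp := upper_poly X h1 h2
  have hkp : (s * ‖U‖) ^ 2 ≤ 3 := by
    rw [hB]
    have : 0 ≤ 17 / 20 * (1 - X) * (X - xh) ^ 2 :=
      mul_nonneg (mul_nonneg (by norm_num) (by linarith)) (sq_nonneg _)
    have hk : kp ≤ 3 := by norm_num [kp]
    linarith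
  have hB2 : s * ‖U‖ ≤ 2 := by nlinarith [mul_nonneg hs0' (norm_nonneg U)]
  have hB0 : 0 ≤ s * ‖U‖ := by positivity
  have hA0 : 0 ≤ s * ‖2 * PP J q1 X‖ := by positivity
  have hAB : s * ‖2 * PP J q1 X‖ ≤ s * ‖U‖ + 1 / 10 ^ 11 := by
    have : ‖2 * PP J q1 X‖ ≤ ‖U‖ + ‖2 * PP J q1 X - U‖ := by
      have := norm_add_le U (2 * PP J q1 X - U)
      rwa [add_sub_cancel] at this
    nlinarith
  have hBA : s * ‖U‖ ≤ s * ‖2 * PP J q1 X‖ + 1 / 10 ^ 11 := by
    have : ‖U‖ ≤ ‖2 * PP J q1 X‖ + ‖2 * PP J q1 X - U‖ := by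
      have := norm_sub_le (2 * PP J q1 X) (2 * PP J q1 X - U)
      rwa [sub_sub_cancel] at this
    nlinarith
  rw [← hA, ← hB]
  generalize s * ‖U‖ = B at *
  generalize s * ‖2 * PP J q1 X‖ = A at *
  constructor
  · have : A ^ 2 ≤ (B + 1 / 10 ^ 11) ^ 2 := by gcongr
    nlinarith
  · have : B ^ 2 ≤ (A + 1 / 10 ^ 11) ^ 2 := by gcongr
    nlinarith

/-- `√GJ ≤ √F + 1e-11`, `F ≤ kp`, so `GJ ≤ F + 3.5e-11 ≤ F + 1e-10`; `upper_poly`. -/
theorem upper (J : ℕ) (hJ : 5 ≤ J) (X : ℝ) (h1 : -1 ≤ X) (h2 : X ≤ 1) :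
    GJ J q1 X ≤ kp - 17 / 20 * (1 - X) * (X - xh) ^ 2 := by
  have h3 := (two_bounds J hJ X h1 h2).1
  have h4 := upper_poly X h1 h2
  linarith

/-- Explicit value at `X = 1` (`upRe 1 ^ 2 + upIm 1 ^ 2 ≥ kp - 1e-9`) and `up_approx`. -/
theorem upper_one (J : ℕ) (hJ : 5 ≤ J) : kp - 1 / 100000000 ≤ GJ J q1 1 := by
  have h3 := (two_bounds J hJ 1 (by norm_num) le_rfl).2
  have h4 : kp - 1 / 1000000000 ≤ (1 + 1) / 2 * (upRe 1 ^ 2 + upIm 1 ^ 2) := by
    norm_num [kp, upRe, upIm]
  linarith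

end Pool.Agent.MaxTerm8
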