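import Pool.Agent.MaxTerm8.ConstLoc
import Pool.Agent.MaxTerm8.Upper
import Pool.Agent.MaxTerm8.BallP

/-! The critical point `p` (minimiser of the maximum of the theta functions). -/

namespace Pool.Agent.MaxTerm8

open Complex ComplexConjugate

/-- `p` minimises `q ↦ max_X GJ J q X` over the disc of radius `17/50`, with minimum `κ`. -/
structure CritPt (J : ℕ) (p : ℂ) (κ : ℝ) : Prop where
  hp : ‖p‖ ≤ 17 / 50
  him : 0 ≤ p.im
  hmax : ∀ X : ℝ, -1 ≤ X → X ≤ 1 → GJ J p X ≤ κ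
  hmin : ∀ q : ℂ, ‖q‖ ≤ 17 / 50 → ∃ X : ℝ, -1 ≤ X ∧ X ≤ 1 ∧ κ ≤ GJ J q X

private theorem crit_UU_cont (j : ℕ) : Continuous (fun X : ℝ => UU X j) := by
  induction j using Nat.twoStepInduction with
  | zero => simpa [UU] using continuous_const
  | one => simp only [UU]; fun_prop
  | more n h1 h2 => simp only [UU]; fun_prop

private theorem crit_GJ_cont (J : ℕ) :
    Continuous (fun z : ℂ × ℝ => GJ J z.1 z.2) := by
  have h : Continuous (fun z : ℂ × ℝ => PP J z.1 z.2) := by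
    unfold PP
    refine continuous_finsetSum _ fun j _ => ?_
    have := crit_UU_cont j
    have h2 : Continuous (fun z : ℂ × ℝ => ((UU z.2 j : ℝ) : ℂ)) :=
      Complex.continuous_ofReal.comp (this.comp continuous_snd)
    exact (continuous_fst.pow _).mul h2
  unfold GJ
  fun_prop

private theorem crit_PP_conj (J : ℕ) (q : ℂ) (X : ℝ) : PP J (conj q) X = conj (PP J q X) := by
  unfold PP
  rw [map_sum]
  refine Finset.sum_congr rfl fun j _ => ?_
  rw [map_mul, map_pow, Complex.conj_ofReal]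

private theorem crit_GJ_conj (J : ℕ) (q : ℂ) (X : ℝ) : GJ J (conj q) X = GJ J q X := by
  unfold GJ
  rw [crit_PP_conj, norm_mul, norm_mul, RCLike.norm_conj]

/-- Compactness (`GJ` is jointly continuous); replace `p` by `conj p` if necessary
(`GJ J (conj q) X = GJ J q X`). -/
theorem exists_crit (J : ℕ) : ∃ (p : ℂ) (κ : ℝ), CritPt J p κ := by
  set f : ℂ → ℝ := fun q => sSup ((fun X : ℝ => GJ J q X) '' Set.Icc (-1) 1) with hf
  have hcont : Continuous f := by
    have := (isCompact_Icc (a := (-1 : ℝ)) (b := 1)).continuous_sSup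
      (f := fun (q : ℂ) (X : ℝ) => GJ J q X) (crit_GJ_cont J)
    exact this
  have hne : (Set.Icc (-1 : ℝ) 1).Nonempty := ⟨0, by norm_num, by norm_num⟩
  have hcX : ∀ q : ℂ, ContinuousOn (fun X : ℝ => GJ J q X) (Set.Icc (-1) 1) := fun q =>
    ((crit_GJ_cont J).comp (Continuous.prodMk_right q)).continuousOn
  have hbdd : ∀ q : ℂ, BddAbove ((fun X : ℝ => GJ J q X) '' Set.Icc (-1) 1) := fun q =>
    (isCompact_Icc.image_of_continuousOn (hcX q)).bddAbove
  obtain ⟨p0, hp0, hp0m⟩ := (isCompact_closedBall (0 : ℂ) (17 / 50)).exists_isMinOn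
    ⟨0, Metric.mem_closedBall_self (by norm_num)⟩ hcont.continuousOn
  have hp0' : ‖p0‖ ≤ 17 / 50 := by simpa using hp0
  have hmin : ∀ q : ℂ, ‖q‖ ≤ 17 / 50 → ∃ X : ℝ, -1 ≤ X ∧ X ≤ 1 ∧ f p0 ≤ GJ J q X := by
    intro q hq
    obtain ⟨X, hX, hXe⟩ := isCompact_Icc.exists_sSup_image_eq hne (hcX q)
    refine ⟨X, hX.1, hX.2, ?_⟩
    rw [← hXe]
    exact hp0m (by simpa using hq)
  have hmax : ∀ X : ℝ, -1 ≤ X → X ≤ 1 → GJ J p0 X ≤ f p0 := fun X h1 h2 =>
    le_csSup (hbdd p0) ⟨X, ⟨h1, h2⟩, rfl⟩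
  by_cases him : 0 ≤ p0.im
  · exact ⟨p0, f p0, hp0', him, hmax, hmin⟩
  · push Not at him
    refine ⟨conj p0, f p0, by rwa [RCLike.norm_conj], by simpa using him.le, ?_, hmin⟩
    intro X h1 h2
    rw [crit_GJ_conj]
    exact hmax X h1 h2

/-- `upper` at `q1` (`‖q1‖ ≤ 17/50`). -/
theorem crit_le (J : ℕ) (hJ : 5 ≤ J) (p : ℂ) (κ : ℝ) (h : CritPt J p κ) : κ ≤ kp := by
  have hq : ‖q1‖ ≤ 17 / 50 := by
    rw [Complex.norm_def]
    apply Real.sqrt_le_iff.mpr
    refine ⟨by norm_num, ?_⟩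
    simp only [q1, Complex.normSq_mk]
    norm_num
  obtain ⟨X, h1, h2, h3⟩ := h.hmin q1 hq
  have h4 := upper J hJ X h1 h2
  have h5 : 0 ≤ 17 / 20 * (1 - X) * (X - xh) ^ 2 :=
    mul_nonneg (mul_nonneg (by norm_num) (by linarith)) (sq_nonneg _)
  linarith

theorem crit_loc (J : ℕ) (hJ : 5 ≤ J) (p : ℂ) (κ : ℝ) (h : CritPt J p κ) :
    ‖p - oo‖ < 2 / 100000 :=
  const_loc2 J hJ p h.hp h.him κ (crit_le J hJ p κ h) h.hmax

/-- derivative of `GJ` in `X` -/
noncomputable def GX (J : ℕ) (q : ℂ) (X : ℝ) : ℝ :=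
  2 * ‖PP J q X‖ ^ 2 + 4 * (1 + X) * (conj (PP J q X) * PX J q X).re

noncomputable def GXX (J : ℕ) (q : ℂ) (X : ℝ) : ℝ :=
  8 * (conj (PP J q X) * PX J q X).re +
  4 * (1 + X) * (‖PX J q X‖ ^ 2 + (conj (PP J q X) * PXX J q X).re)

private theorem crit_dUU (X : ℝ) (j : ℕ) : HasDerivAt (fun X : ℝ => UU X j) (DU X j) X := by
  induction j using Nat.twoStepInduction with
  | zero => simpa [UU, DU] using hasDerivAt_const X (1 : ℝ)
  | one =>
    simp only [UU, DU]
    exact ((hasDerivAt_id X).const_mul 2 |>.sub_const 1).congr_deriv (by ring)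
  | more n h1 h2 =>
    simp only [UU, DU]
    exact ((((hasDerivAt_id X).const_mul 2).mul h2).sub h1).congr_deriv (by simp)

private theorem crit_dDU (X : ℝ) (j : ℕ) : HasDerivAt (fun X : ℝ => DU X j) (D2U X j) X := by
  induction j using Nat.twoStepInduction with
  | zero => simpa [D2U, DU] using hasDerivAt_const X (0 : ℝ)
  | one => simpa [D2U, DU] using hasDerivAt_const X (2 : ℝ)
  | more n h1 h2 =>
    simp only [D2U, DU]
    exact ((((crit_dUU X (n + 1)).const_mul 2).add (((hasDerivAt_id X).const_mul 2).mul h2)).sub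
      h1).congr_deriv (by simp; ring)

private theorem crit_inner (a b : ℂ) : inner ℝ a b = (conj a * b).re := by
  rw [Complex.inner, mul_comm]

private theorem crit_dPP (J : ℕ) (q : ℂ) (X : ℝ) :
    HasDerivAt (fun X : ℝ => PP J q X) (PX J q X) X := by
  unfold PP PX
  refine HasDerivAt.fun_sum fun j _ => ?_
  exact ((crit_dUU X j).ofReal_comp).const_mul _

private theorem crit_dPX (J : ℕ) (q : ℂ) (X : ℝ) :
    HasDerivAt (fun X : ℝ => PX J q X) (PXX J q X) X := by
  unfold PX PXX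
  refine HasDerivAt.fun_sum fun j _ => ?_
  exact ((crit_dDU X j).ofReal_comp).const_mul _

theorem hasDerivAt_GJ (J : ℕ) (q : ℂ) (X : ℝ) : HasDerivAt (fun X : ℝ => GJ J q X) (GX J q X) X := by
  have h1 := (crit_dPP J q X).norm_sq
  rw [crit_inner] at h1
  have h2 := (((hasDerivAt_id X).const_add 1).const_mul 2).mul h1
  have e : (fun X : ℝ => GJ J q X) = fun X => 2 * (1 + X) * ‖PP J q X‖ ^ 2 := by
    funext X
    unfold GJ
    rw [norm_mul, mul_pow]
    norm_num
    ring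
  rw [e]
  refine (h2.congr_deriv ?_).congr_of_eventuallyEq (Filter.EventuallyEq.of_eq ?_)
  · simp only [GX, id]
    ring
  · funext X
    simp [id]

theorem hasDerivAt_GX (J : ℕ) (q : ℂ) (X : ℝ) : HasDerivAt (fun X : ℝ => GX J q X) (GXX J q X) X := by
  have h1 := (crit_dPP J q X).norm_sq
  rw [crit_inner] at h1
  have h3 : HasDerivAt (fun X : ℝ => (conj (PP J q X) * PX J q X).re)
      ((conj (PP J q X) * PXX J q X).re + ‖PX J q X‖ ^ 2) X := by
    have h := (crit_dPP J q X).inner ℝ (crit_dPX J q X)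
    simp only [crit_inner] at h
    refine h.congr_deriv ?_
    congr 1
    rw [← Complex.normSq_eq_conj_mul_self, Complex.ofReal_re, Complex.normSq_eq_norm_sq]
  have h2 := (((hasDerivAt_id X).const_add 1).const_mul 4).mul h3
  have h4 := (h1.const_mul 2).add h2
  refine (h4.congr_deriv ?_).congr_of_eventuallyEq (Filter.EventuallyEq.of_eq ?_)
  · simp only [GXX, id]
    ring
  · funext X
    simp [GX, id]

end Pool.Agent.MaxTerm8
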