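import Pool.Agent.MaxTerm8.BallP
import Pool.Agent.MaxTerm8.Crit

/-! Kernel-checked enclosures near the critical point. -/

namespace Pool.Agent.MaxTerm8

open Complex ComplexConjugate

/-- ball around `oo` that contains the critical point -/
def pB : Bl := ⟨-191206 / 1000000, 204897 / 1000000, 2 / 100000⟩

def GXB (p X : Bl) : Bl :=
  Bl.sm 2 (PPB p X * (PPB p X).cj).rl + Bl.sm 4 ((Bl.q 1 + X) * ((PPB p X).cj * PXB p X).rl)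

def GXXB (p X : Bl) : Bl :=
  Bl.sm 8 ((PPB p X).cj * PXB p X).rl +
  Bl.sm 4 ((Bl.q 1 + X) * ((PXB p X * (PXB p X).cj).rl + ((PPB p X).cj * PXXB p X).rl))

private theorem ballChk_normSq (z : ℂ) : (z * conj z).re = ‖z‖ ^ 2 := by
  rw [Complex.mul_conj, Complex.ofReal_re, Complex.normSq_eq_norm_sq]

theorem mem_GXB (J : ℕ) (hJ : 5 ≤ J) {P X : Bl} {p : ℂ} {x : ℝ} (hp : P.Mem p)
    (hn : ‖p‖ ≤ 2804 / 10000) (hx : X.Mem (x : ℂ)) (hx1 : |x| ≤ 1) :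
    (GXB P X).Mem ((GX J p x : ℝ) : ℂ) := by
  have h0 := mem_PPB J hJ hp hn hx hx1
  have h1 := mem_PXB J hJ hp hn hx hx1
  have h2 := Bl.mem_sm 2 (Bl.mem_rl (Bl.mem_mul h0 (Bl.mem_cj h0)))
  have h3 := Bl.mem_sm 4 (Bl.mem_mul (Bl.mem_add (Bl.mem_q 1) hx)
    (Bl.mem_rl (Bl.mem_mul (Bl.mem_cj h0) h1)))
  have h4 := Bl.mem_add h2 h3
  rw [ballChk_normSq] at h4
  have e : ((GX J p x : ℝ) : ℂ) =
      (((2 : ℚ) : ℝ) : ℂ) * ((‖PP J p x‖ ^ 2 : ℝ) : ℂ) +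
      (((4 : ℚ) : ℝ) : ℂ) * (((((1 : ℚ) : ℝ) : ℂ) + (x : ℂ)) *
        (((conj (PP J p x) * PX J p x).re : ℝ) : ℂ)) := by
    unfold GX
    push_cast
    ring
  rw [e]
  exact h4

theorem mem_GXXB (J : ℕ) (hJ : 5 ≤ J) {P X : Bl} {p : ℂ} {x : ℝ} (hp : P.Mem p)
    (hn : ‖p‖ ≤ 2804 / 10000) (hx : X.Mem (x : ℂ)) (hx1 : |x| ≤ 1) :
    (GXXB P X).Mem ((GXX J p x : ℝ) : ℂ) := by
  have h0 := mem_PPB J hJ hp hn hx hx1
  have h1 := mem_PXB J hJ hp hn hx hx1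
  have h1' := mem_PXXB J hJ hp hn hx hx1
  have h2 := Bl.mem_sm 8 (Bl.mem_rl (Bl.mem_mul (Bl.mem_cj h0) h1))
  have h3 := Bl.mem_sm 4 (Bl.mem_mul (Bl.mem_add (Bl.mem_q 1) hx)
    (Bl.mem_add (Bl.mem_rl (Bl.mem_mul h1 (Bl.mem_cj h1)))
      (Bl.mem_rl (Bl.mem_mul (Bl.mem_cj h0) h1'))))
  have h4 := Bl.mem_add h2 h3
  rw [ballChk_normSq] at h4
  have e : ((GXX J p x : ℝ) : ℂ) =
      (((8 : ℚ) : ℝ) : ℂ) * (((conj (PP J p x) * PX J p x).re : ℝ) : ℂ) +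
      (((4 : ℚ) : ℝ) : ℂ) * (((((1 : ℚ) : ℝ) : ℂ) + (x : ℂ)) *
        (((‖PX J p x‖ ^ 2 : ℝ) : ℂ) + (((conj (PP J p x) * PXX J p x).re : ℝ) : ℂ))) := by
    unfold GXX
    push_cast
    ring
  rw [e]
  exact h4

theorem chk_gx_one : 0 < (GXB pB ⟨999 / 1000, 0, 1 / 1000⟩).re - (GXB pB ⟨999 / 1000, 0, 1 / 1000⟩).rad := by
  decide +kernel

theorem chk_gxx : (GXXB pB ⟨27608 / 100000, 0, 4 / 100⟩).re +
    (GXXB pB ⟨27608 / 100000, 0, 4 / 100⟩).rad < 0 := by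
  decide +kernel

theorem chk_gx_right : (GXB pB ⟨27648 / 100000, 0, 0⟩).re + (GXB pB ⟨27648 / 100000, 0, 0⟩).rad < 0 := by
  decide +kernel

theorem chk_gx_left : 0 < (GXB pB ⟨27568 / 100000, 0, 0⟩).re - (GXB pB ⟨27568 / 100000, 0, 0⟩).rad := by
  decide +kernel

end Pool.Agent.MaxTerm8
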