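import Pool.Agent.MaxTerm8.Danskin
import Pool.Agent.MaxTerm8.ActiveLoc
import Pool.Agent.MaxTerm8.BallChk

/-! The active set of the critical point and the Karush-Kuhn-Tucker conditions. -/

namespace Pool.Agent.MaxTerm8

open Complex ComplexConjugate

/-- the vectors of the KKT condition in ball arithmetic -/
def v0B : Bl := (PPB pB (Bl.q 1)).cj * PQB pB (Bl.q 1)
def v1B : Bl := Bl.sm (1 / 2) (Bl.q 1 + ⟨27608 / 100000, 0, 4 / 10000⟩) *
  ((PPB pB ⟨27608 / 100000, 0, 4 / 10000⟩).cj * PQB pB ⟨27608 / 100000, 0, 4 / 10000⟩)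

theorem chk_v0 : 0 < v0B.re - v0B.rad := by
  decide +kernel

theorem chk_v1 : v1B.re + v1B.rad < 0 := by
  decide +kernel

/-- first order information at the critical point -/
structure KKT (J : ℕ) (p : ℂ) (κ w x : ℝ) : Prop where
  hx : |x - 27608 / 100000| ≤ 4 / 10000
  h1 : GJ J p 1 = κ
  h2 : GJ J p x = κ
  h3 : GX J p x = 0
  w0 : 0 ≤ w
  w1 : w ≤ 1
  hk : (w : ℂ) * (conj (PP J p 1) * PQ J p 1) +
    (((1 - w) * ((1 + x) / 2) : ℝ) : ℂ) * (conj (PP J p x) * PQ J p x) = 0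

private lemma ac_norm_oo : ‖oo‖ ≤ 28026 / 100000 := by
  rw [Complex.norm_def]
  apply Real.sqrt_le_iff.mpr
  refine ⟨by norm_num, ?_⟩
  simp only [oo, Complex.normSq_mk]
  norm_num

private lemma ac_norm (J : ℕ) (hJ : 5 ≤ J) (p : ℂ) (κ : ℝ) (h : CritPt J p κ) :
    ‖p‖ ≤ 2804 / 10000 := by
  have h1 := crit_loc J hJ p κ h
  have h2 := ac_norm_oo
  have e : p = (p - oo) + oo := by ring
  rw [e]
  refine (norm_add_le _ _).trans ?_
  linarith

private lemma ac_memP (J : ℕ) (hJ : 5 ≤ J) (p : ℂ) (κ : ℝ) (h : CritPt J p κ) : pB.Mem p := by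
  have h1 := crit_loc J hJ p κ h
  unfold Bl.Mem
  have e : pB.ctr = oo := by
    apply Complex.ext <;> simp [Bl.ctr, pB, oo]
  have e2 : ((pB.rad : ℚ) : ℝ) = 2 / 100000 := by
    simp [pB]
  rw [e, e2]
  exact h1.le

private lemma ac_memX {c r : ℚ} {x : ℝ} (h : |x - (c : ℝ)| ≤ (r : ℝ)) :
    (⟨c, 0, r⟩ : Bl).Mem (x : ℂ) := by
  unfold Bl.Mem
  have e : (x : ℂ) - (⟨c, 0, r⟩ : Bl).ctr = ((x - (c : ℝ) : ℝ) : ℂ) := by
    apply Complex.ext <;> simp [Bl.ctr]
  rw [e, Complex.norm_real, Real.norm_eq_abs]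
  exact h

private lemma ac_gx_one (J : ℕ) (hJ : 5 ≤ J) (p : ℂ) (κ : ℝ) (h : CritPt J p κ) (X : ℝ)
    (h1 : 998 / 1000 ≤ X) (h2 : X ≤ 1) : 0 < GX J p X := by
  have hX : (⟨999 / 1000, 0, 1 / 1000⟩ : Bl).Mem (X : ℂ) := by
    apply ac_memX
    push_cast
    rw [abs_le]
    constructor <;> linarith
  have hx1 : |X| ≤ 1 := by
    rw [abs_le]
    constructor <;> linarith
  have h3 := Bl.le_re (mem_GXB J hJ (ac_memP J hJ p κ h) (ac_norm J hJ p κ h) hX hx1)
  have h4 : (0 : ℝ) < (((GXB pB ⟨999 / 1000, 0, 1 / 1000⟩).re -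
      (GXB pB ⟨999 / 1000, 0, 1 / 1000⟩).rad : ℚ) : ℝ) := by
    exact_mod_cast chk_gx_one
  rw [Complex.ofReal_re] at h3
  exact h4.trans_le h3

private lemma ac_gxx (J : ℕ) (hJ : 5 ≤ J) (p : ℂ) (κ : ℝ) (h : CritPt J p κ) (X : ℝ)
    (h1 : |X - 27608 / 100000| ≤ 4 / 100) : GXX J p X < 0 := by
  have hX : (⟨27608 / 100000, 0, 4 / 100⟩ : Bl).Mem (X : ℂ) := by
    apply ac_memX
    push_cast
    exact h1
  have hx1 : |X| ≤ 1 := by
    rw [abs_le] at h1 ⊢
    constructor <;> linarith [h1.1, h1.2]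
  have h3 := Bl.re_le (mem_GXXB J hJ (ac_memP J hJ p κ h) (ac_norm J hJ p κ h) hX hx1)
  have h4 : (((GXXB pB ⟨27608 / 100000, 0, 4 / 100⟩).re +
      (GXXB pB ⟨27608 / 100000, 0, 4 / 100⟩).rad : ℚ) : ℝ) < 0 := by
    exact_mod_cast chk_gxx
  rw [Complex.ofReal_re] at h3
  exact h3.trans_lt h4

private lemma ac_gx_right (J : ℕ) (hJ : 5 ≤ J) (p : ℂ) (κ : ℝ) (h : CritPt J p κ) :
    GX J p (27648 / 100000) < 0 := by
  have hX : (⟨27648 / 100000, 0, 0⟩ : Bl).Mem (((27648 / 100000 : ℝ)) : ℂ) := by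
    apply ac_memX
    push_cast
    simp
  have hx1 : |(27648 / 100000 : ℝ)| ≤ 1 := by
    rw [abs_le]
    constructor <;> norm_num
  have h3 := Bl.re_le (mem_GXB J hJ (ac_memP J hJ p κ h) (ac_norm J hJ p κ h) hX hx1)
  have h4 : (((GXB pB ⟨27648 / 100000, 0, 0⟩).re +
      (GXB pB ⟨27648 / 100000, 0, 0⟩).rad : ℚ) : ℝ) < 0 := by
    exact_mod_cast chk_gx_right
  rw [Complex.ofReal_re] at h3
  exact h3.trans_lt h4

private lemma ac_gx_left (J : ℕ) (hJ : 5 ≤ J) (p : ℂ) (κ : ℝ) (h : CritPt J p κ) :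
    0 < GX J p (27568 / 100000) := by
  have hX : (⟨27568 / 100000, 0, 0⟩ : Bl).Mem (((27568 / 100000 : ℝ)) : ℂ) := by
    apply ac_memX
    push_cast
    simp
  have hx1 : |(27568 / 100000 : ℝ)| ≤ 1 := by
    rw [abs_le]
    constructor <;> norm_num
  have h3 := Bl.le_re (mem_GXB J hJ (ac_memP J hJ p κ h) (ac_norm J hJ p κ h) hX hx1)
  have h4 : (0 : ℝ) < (((GXB pB ⟨27568 / 100000, 0, 0⟩).re -
      (GXB pB ⟨27568 / 100000, 0, 0⟩).rad : ℚ) : ℝ) := by
    exact_mod_cast chk_gx_left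
  rw [Complex.ofReal_re] at h3
  exact h4.trans_le h3

private lemma ac_gx_zero (J : ℕ) (p : ℂ) (κ : ℝ) (h : CritPt J p κ) (X : ℝ)
    (h1 : |X - 27608 / 100000| ≤ 4 / 100) (hX : GJ J p X = κ) : GX J p X = 0 := by
  have hl : IsLocalMax (fun X : ℝ => GJ J p X) X := by
    rw [abs_le] at h1
    have hmem : Set.Icc (-1 : ℝ) 1 ∈ nhds X :=
      Icc_mem_nhds (by linarith [h1.1]) (by linarith [h1.2])
    filter_upwards [hmem] with Y hY
    rw [hX]
    exact h.hmax Y hY.1 hY.2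
  exact hl.hasDerivAt_eq_zero (hasDerivAt_GJ J p X)

private lemma ac_anti (J : ℕ) (hJ : 5 ≤ J) (p : ℂ) (κ : ℝ) (h : CritPt J p κ) :
    StrictAntiOn (fun X : ℝ => GX J p X) (Set.Icc (23608 / 100000) (31608 / 100000)) := by
  refine strictAntiOn_of_deriv_neg (convex_Icc _ _) ?_ ?_
  · exact fun X _ => (hasDerivAt_GX J p X).continuousAt.continuousWithinAt
  · intro X hX
    rw [interior_Icc] at hX
    rw [(hasDerivAt_GX J p X).deriv]
    refine ac_gxx J hJ p κ h X ?_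
    rw [abs_le]
    constructor <;> linarith [hX.1, hX.2]

/-- An active point in `[998/1000, 1]` is `1`: `GX > 0` on `[998/1000, 1]` (`chk_gx_one`, `mem_GXB`), so
`GJ J p` is strictly increasing there and `GJ J p 1 ≤ κ`. -/
theorem active_one (J : ℕ) (hJ : 5 ≤ J) (p : ℂ) (κ : ℝ) (h : CritPt J p κ) (X : ℝ)
    (h1 : 998 / 1000 ≤ X) (h2 : X ≤ 1) (hX : GJ J p X = κ) : X = 1 := by
  by_contra hne
  have hlt : X < 1 := lt_of_le_of_ne h2 hne
  have hmono : StrictMonoOn (fun X : ℝ => GJ J p X) (Set.Icc (998 / 1000) 1) := by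
    refine strictMonoOn_of_deriv_pos (convex_Icc _ _) ?_ ?_
    · exact fun X _ => (hasDerivAt_GJ J p X).continuousAt.continuousWithinAt
    · intro Y hY
      rw [interior_Icc] at hY
      rw [(hasDerivAt_GJ J p Y).deriv]
      exact ac_gx_one J hJ p κ h Y hY.1.le hY.2.le
  have h3 : GJ J p X < GJ J p 1 :=
    hmono ⟨h1, h2⟩ ⟨by norm_num, le_rfl⟩ hlt
  have h4 := h.hmax 1 (by norm_num) le_rfl
  linarith

/-- An active point with `|X - 27608/100000| ≤ 4/100` is a local maximum, so `GX = 0` there; `GX` is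
strictly decreasing on this interval (`chk_gxx`, `mem_GXXB`), positive at `27568/100000` and negative at
`27648/100000`. -/
theorem active_int (J : ℕ) (hJ : 5 ≤ J) (p : ℂ) (κ : ℝ) (h : CritPt J p κ) (X : ℝ)
    (h1 : |X - 27608 / 100000| ≤ 4 / 100) (hX : GJ J p X = κ) :
    GX J p X = 0 ∧ |X - 27608 / 100000| ≤ 4 / 10000 ∧
    ∀ X' : ℝ, |X' - 27608 / 100000| ≤ 4 / 100 → GJ J p X' = κ → X' = X := by
  have h0 := ac_gx_zero J p κ h X h1 hX
  have hanti := ac_anti J hJ p κ h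
  have hm : ∀ Y : ℝ, |Y - 27608 / 100000| ≤ 4 / 100 →
      Y ∈ Set.Icc (23608 / 100000 : ℝ) (31608 / 100000) := by
    intro Y hY
    rw [abs_le] at hY
    constructor <;> linarith [hY.1, hY.2]
  refine ⟨h0, ?_, ?_⟩
  · rw [abs_le]
    constructor
    · by_contra hc
      push Not at hc
      have h3 : GX J p (27568 / 100000) < GX J p X :=
        hanti (hm X h1) ⟨by norm_num, by norm_num⟩ (by linarith)
      have h4 := ac_gx_left J hJ p κ h
      linarith
    · by_contra hc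
      push Not at hc
      have h3 : GX J p X < GX J p (27648 / 100000) :=
        hanti ⟨by norm_num, by norm_num⟩ (hm X h1) (by linarith)
      have h4 := ac_gx_right J hJ p κ h
      linarith
  · intro X' h1' hX'
    have h0' := ac_gx_zero J p κ h X' h1' hX'
    exact hanti.injOn (hm X' h1') (hm X h1) (by show GX J p X' = GX J p X; rw [h0, h0'])

/-- Two vectors such that no direction makes both scalar products negative. If one of them is `0` this
is trivial, otherwise take `z = -(conj v0 / ‖v0‖ + conj v1 / ‖v1‖)`: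
`Re (v0 z) = -‖v0‖ (1 + c)`, `Re (v1 z) = -‖v1‖ (1 + c)`, `c = Re (v0 conj v1)/(‖v0‖‖v1‖) ≥ -1`; so
`c = -1`, that is `v1/‖v1‖ = -v0/‖v0‖`; `w = ‖v1‖/(‖v0‖+‖v1‖)`. -/
theorem kkt_alg (v0 v1 : ℂ) (h : ∀ z : ℂ, 0 ≤ (v0 * z).re ∨ 0 ≤ (v1 * z).re) :
    ∃ w : ℝ, 0 ≤ w ∧ w ≤ 1 ∧ (w : ℂ) * v0 + ((1 - w : ℝ) : ℂ) * v1 = 0 := by
  by_cases h0 : v0 = 0
  · exact ⟨1, zero_le_one, le_rfl, by simp [h0]⟩
  by_cases h1 : v1 = 0
  · exact ⟨0, le_rfl, zero_le_one, by simp [h1]⟩
  have ha : 0 < ‖v0‖ := norm_pos_iff.mpr h0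
  have hb : 0 < ‖v1‖ := norm_pos_iff.mpr h1
  set a := ‖v0‖ with hadef
  set b := ‖v1‖ with hbdef
  have ea : v0.re ^ 2 + v0.im ^ 2 = a ^ 2 := by
    rw [hadef, Complex.sq_norm, Complex.normSq_apply]
    ring
  have eb : v1.re ^ 2 + v1.im ^ 2 = b ^ 2 := by
    rw [hbdef, Complex.sq_norm, Complex.normSq_apply]
    ring
  have hc : a * b + (v0.re * v1.re + v0.im * v1.im) ≤ 0 := by
    rcases h (-((b : ℂ) * conj v0 + (a : ℂ) * conj v1)) with h2 | h2
    · have e : (v0 * (-((b : ℂ) * conj v0 + (a : ℂ) * conj v1))).re =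
          -(a * (a * b + (v0.re * v1.re + v0.im * v1.im))) := by
        simp only [Complex.mul_re, Complex.neg_re, Complex.neg_im, Complex.add_re, Complex.add_im,
          Complex.mul_im, Complex.ofReal_re, Complex.ofReal_im, Complex.conj_re, Complex.conj_im]
        linear_combination (-b) * ea
      rw [e] at h2
      by_contra hcon
      push Not at hcon
      have := mul_pos ha hcon
      linarith
    · have e : (v1 * (-((b : ℂ) * conj v0 + (a : ℂ) * conj v1))).re =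
          -(b * (a * b + (v0.re * v1.re + v0.im * v1.im))) := by
        simp only [Complex.mul_re, Complex.neg_re, Complex.neg_im, Complex.add_re, Complex.add_im,
          Complex.mul_im, Complex.ofReal_re, Complex.ofReal_im, Complex.conj_re, Complex.conj_im]
        linear_combination (-a) * eb
      rw [e] at h2
      by_contra hcon
      push Not at hcon
      have := mul_pos hb hcon
      linarith
  have hz : (b : ℂ) * v0 + (a : ℂ) * v1 = 0 := by
    have e : Complex.normSq ((b : ℂ) * v0 + (a : ℂ) * v1) =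
        2 * a * b * (a * b + (v0.re * v1.re + v0.im * v1.im)) := by
      rw [Complex.normSq_apply]
      simp only [Complex.mul_re, Complex.add_re, Complex.add_im, Complex.mul_im,
        Complex.ofReal_re, Complex.ofReal_im]
      linear_combination b ^ 2 * ea + a ^ 2 * eb
    have h3 : 0 ≤ Complex.normSq ((b : ℂ) * v0 + (a : ℂ) * v1) := Complex.normSq_nonneg _
    have h4 : Complex.normSq ((b : ℂ) * v0 + (a : ℂ) * v1) ≤ 0 := by
      rw [e]
      have := mul_pos ha hb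
      nlinarith
    exact Complex.normSq_eq_zero.mp (le_antisymm h4 h3)
  refine ⟨b / (a + b), by positivity, ?_, ?_⟩
  · rw [div_le_one (by positivity)]
    linarith
  · have hab : ((a + b : ℝ) : ℂ) ≠ 0 := by
      have : (a + b) ≠ 0 := by positivity
      exact_mod_cast this
    have e1 : (1 - b / (a + b) : ℝ) = a / (a + b) := by
      field_simp
      ring
    rw [e1]
    have e2 : ((b / (a + b) : ℝ) : ℂ) * v0 + ((a / (a + b) : ℝ) : ℂ) * v1 =
        ((b : ℂ) * v0 + (a : ℂ) * v1) / ((a + b : ℝ) : ℂ) := by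
      push_cast
      push_cast at hab
      field_simp
    rw [e2, hz, zero_div]

/-- `danskin` for every `z`, `active_loc`, `active_one`, `active_int`, `kkt_alg` with
`v0 = conj PP(1) PQ(1)`, `v1 = (1+x)/2 conj PP(x) PQ(x)`. Both points are active: `v0 ≠ 0` by `chk_v0`
(`z = -conj v0` gives an active point different from `1`), and `v1 ≠ 0` by `chk_v1`. -/
theorem exists_kkt (J : ℕ) (hJ : 5 ≤ J) (p : ℂ) (κ : ℝ) (h : CritPt J p κ) :
    ∃ w x : ℝ, KKT J p κ w x := by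
  have hn := ac_norm J hJ p κ h
  have hp : ‖p‖ < 17 / 50 := by linarith
  have hP := ac_memP J hJ p κ h
  -- the first vector
  set v0 : ℂ := conj (PP J p 1) * PQ J p 1 with hv0
  have hv0re : 0 < v0.re := by
    have hX : (Bl.q 1).Mem (((1 : ℝ)) : ℂ) := by
      have := Bl.mem_q 1
      simpa using this
    have hx1 : |(1 : ℝ)| ≤ 1 := by simp
    have h3 := Bl.le_re (Bl.mem_mul (Bl.mem_cj (mem_PPB J hJ hP hn hX hx1))
      (mem_PQB J hJ hP hn hX hx1))
    have h4 : (0 : ℝ) < ((v0B.re - v0B.rad : ℚ) : ℝ) := by exact_mod_cast chk_v0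
    exact h4.trans_le h3
  have hv0ne : v0 ≠ 0 := by
    intro hc
    rw [hc] at hv0re
    simp at hv0re
  -- the point x
  obtain ⟨x, hx1, hx2, hxa, hxd⟩ := danskin J p κ h hp (-conj v0)
  have hxl : |x - 27608 / 100000| ≤ 4 / 100 := by
    rcases active_loc J hJ p κ h x hx1 hx2 hxa with h5 | h5
    · exfalso
      have h6 := active_one J hJ p κ h x h5 hx2 hxa
      subst h6
      have e : ((((1 + (1 : ℝ)) / 2 : ℝ) : ℂ) * conj (PP J p 1) * PQ J p 1 * (-conj v0)) =
          -(((Complex.normSq v0 : ℝ)) : ℂ) := by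
        rw [← Complex.mul_conj v0]
        have : (((1 + (1 : ℝ)) / 2 : ℝ) : ℂ) = 1 := by norm_num
        rw [this, hv0]
        ring
      rw [e] at hxd
      have h7 : 0 < Complex.normSq v0 := Complex.normSq_pos.mpr hv0ne
      simp only [Complex.neg_re, Complex.ofReal_re] at hxd
      linarith
    · exact h5
  obtain ⟨hx0, hx3, hxu⟩ := active_int J hJ p κ h x hxl hxa
  -- the second vector
  set v1 : ℂ := (((1 + x) / 2 : ℝ) : ℂ) * (conj (PP J p x) * PQ J p x) with hv1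
  have hv1re : v1.re < 0 := by
    have hX : (⟨27608 / 100000, 0, 4 / 10000⟩ : Bl).Mem (x : ℂ) := by
      apply ac_memX
      push_cast
      exact hx3
    have hxx : |x| ≤ 1 := by
      rw [abs_le]
      exact ⟨hx1, hx2⟩
    have h3 := Bl.re_le (Bl.mem_mul (Bl.mem_sm (1 / 2) (Bl.mem_add (Bl.mem_q 1) hX))
      (Bl.mem_mul (Bl.mem_cj (mem_PPB J hJ hP hn hX hxx)) (mem_PQB J hJ hP hn hX hxx)))
    have h4 : ((v1B.re + v1B.rad : ℚ) : ℝ) < 0 := by exact_mod_cast chk_v1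
    have e : v1 = ((((1 / 2 : ℚ)) : ℝ) : ℂ) * ((((1 : ℚ) : ℝ) : ℂ) + (x : ℂ)) *
        (conj (PP J p x) * PQ J p x) := by
      rw [hv1]
      push_cast
      ring
    rw [e]
    exact h3.trans_lt h4
  have hv1ne : v1 ≠ 0 := by
    intro hc
    rw [hc] at hv1re
    simp at hv1re
  have hrew : ∀ z : ℂ, (((1 + x) / 2 : ℝ) : ℂ) * conj (PP J p x) * PQ J p x * z = v1 * z := by
    intro z
    rw [hv1]
    ring
  have hrew0 : ∀ z : ℂ, (((1 + (1 : ℝ)) / 2 : ℝ) : ℂ) * conj (PP J p 1) * PQ J p 1 * z = v0 * z := by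
    intro z
    have : (((1 + (1 : ℝ)) / 2 : ℝ) : ℂ) = 1 := by norm_num
    rw [this, hv0]
    ring
  have hone : GJ J p 1 = κ := by
    obtain ⟨y, hy1, hy2, hya, hyd⟩ := danskin J p κ h hp (-conj v1)
    rcases active_loc J hJ p κ h y hy1 hy2 hya with h5 | h5
    · have h6 := active_one J hJ p κ h y h5 hy2 hya
      rw [← h6]
      exact hya
    · exfalso
      have h6 := hxu y h5 hya
      subst h6
      rw [hrew] at hyd
      have e : v1 * (-conj v1) = -(((Complex.normSq v1 : ℝ)) : ℂ) := by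
        rw [← Complex.mul_conj v1]
        ring
      rw [e] at hyd
      have h7 : 0 < Complex.normSq v1 := Complex.normSq_pos.mpr hv1ne
      simp only [Complex.neg_re, Complex.ofReal_re] at hyd
      linarith
  have hall : ∀ z : ℂ, 0 ≤ (v0 * z).re ∨ 0 ≤ (v1 * z).re := by
    intro z
    obtain ⟨y, hy1, hy2, hya, hyd⟩ := danskin J p κ h hp z
    rcases active_loc J hJ p κ h y hy1 hy2 hya with h5 | h5
    · left
      have h6 := active_one J hJ p κ h y h5 hy2 hya
      subst h6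
      rw [hrew0] at hyd
      exact hyd
    · right
      have h6 := hxu y h5 hya
      subst h6
      rw [hrew] at hyd
      exact hyd
  obtain ⟨w, w0, w1, hw⟩ := kkt_alg v0 v1 hall
  refine ⟨w, x, ⟨hx3, hone, hxa, hx0, w0, w1, ?_⟩⟩
  rw [hv0, hv1] at hw
  rw [← hw]
  push_cast
  ring

end Pool.Agent.MaxTerm8
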