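import Pool.Agent.MaxTerm8.SysTheta
import Pool.Agent.MaxTerm8.Exact

/-! The minimum is attained (given the theorem on chains), and so is the supremum. -/

namespace Pool.Agent.MaxTerm8

open Complex ComplexConjugate Filter Pool.Agent.MaxTerm59

private theorem at_tri_ge (j : ℕ) : j ≤ tri j := by
  unfold tri
  rw [Nat.le_div_iff_mul_le (by norm_num)]
  rcases Nat.eq_zero_or_pos j with h | h
  · subst h
    simp
  · exact Nat.mul_le_mul_left j (by omega)

private theorem at_summ {r : ℝ} (h0 : 0 ≤ r) (h1 : r < 1) : Summable fun j : ℕ => r ^ tri j := by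
  refine Summable.of_nonneg_of_le (fun j => by positivity) (fun j => ?_)
    (summable_geometric_of_lt_one h0 h1)
  exact pow_le_pow_of_le_one h0 h1.le (at_tri_ge j)

private theorem at_term (q : ℂ) (t : ℝ) (j : ℕ) : ‖ThT q t j‖ ≤ 2 * ‖q‖ ^ tri j := by
  unfold ThT
  rw [norm_mul, norm_mul, norm_pow, Complex.norm_real, Real.norm_eq_abs, Complex.norm_ofNat]
  have h2 : |Real.cos ((2 * (j : ℝ) + 1) * t)| ≤ 1 := Real.abs_cos_le_one _
  calc 2 * ‖q‖ ^ tri j * |Real.cos ((2 * (j : ℝ) + 1) * t)|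
      ≤ 2 * ‖q‖ ^ tri j * 1 := mul_le_mul_of_nonneg_left h2 (by positivity)
    _ = 2 * ‖q‖ ^ tri j := mul_one _

private theorem at_diff (q p : ℂ) (t : ℝ) (j : ℕ) :
    ‖ThT q t j - ThT p t j‖ ≤ 2 * ‖q ^ tri j - p ^ tri j‖ := by
  have h1 : ThT q t j - ThT p t j =
      2 * (q ^ tri j - p ^ tri j) * ((Real.cos ((2 * (j : ℝ) + 1) * t) : ℝ) : ℂ) := by
    unfold ThT
    ring
  rw [h1, norm_mul, norm_mul, Complex.norm_real, Real.norm_eq_abs, Complex.norm_ofNat]
  have h2 : |Real.cos ((2 * (j : ℝ) + 1) * t)| ≤ 1 := Real.abs_cos_le_one _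
  calc 2 * ‖q ^ tri j - p ^ tri j‖ * |Real.cos ((2 * (j : ℝ) + 1) * t)|
      ≤ 2 * ‖q ^ tri j - p ^ tri j‖ * 1 := mul_le_mul_of_nonneg_left h2 (by positivity)
    _ = 2 * ‖q ^ tri j - p ^ tri j‖ := mul_one _

private theorem at_dterm {q p : ℂ} (hq : ‖q‖ ≤ 17 / 50) (hp : ‖p‖ ≤ 17 / 50) (j : ℕ) :
    2 * ‖q ^ tri j - p ^ tri j‖ ≤ 4 * (17 / 50 : ℝ) ^ tri j := by
  have h1 : ‖q ^ tri j - p ^ tri j‖ ≤ ‖q ^ tri j‖ + ‖p ^ tri j‖ := norm_sub_le _ _
  rw [norm_pow, norm_pow] at h1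
  have h2 : ‖q‖ ^ tri j ≤ (17 / 50 : ℝ) ^ tri j := pow_le_pow_left₀ (norm_nonneg _) hq _
  have h3 : ‖p‖ ^ tri j ≤ (17 / 50 : ℝ) ^ tri j := pow_le_pow_left₀ (norm_nonneg _) hp _
  linarith

private theorem at_usumm : Summable fun j : ℕ => 4 * (17 / 50 : ℝ) ^ tri j :=
  (at_summ (by norm_num) (by norm_num)).mul_left _

private theorem at_kle {q p : ℂ} (hq : ‖q‖ ≤ 17 / 50) (hp : ‖p‖ ≤ 17 / 50) :
    Kq q ≤ Kq p + ∑' j : ℕ, 2 * ‖q ^ tri j - p ^ tri j‖ := by
  have hq1 : ‖q‖ < 1 := by linarith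
  have hp1 : ‖p‖ < 1 := by linarith
  have hs : Summable fun j : ℕ => 2 * ‖q ^ tri j - p ^ tri j‖ :=
    Summable.of_nonneg_of_le (fun j => by positivity) (fun j => at_dterm hq hp j) at_usumm
  have hsq : ∀ t, Summable fun j => ThT q t j := fun t =>
    Summable.of_norm_bounded ((at_summ (norm_nonneg q) hq1).mul_left 2) fun j => at_term q t j
  have hsp : ∀ t, Summable fun j => ThT p t j := fun t =>
    Summable.of_norm_bounded ((at_summ (norm_nonneg p) hp1).mul_left 2) fun j => at_term p t j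
  refine ciSup_le fun t => ?_
  have h1 : Th q t - Th p t = ∑' j : ℕ, (ThT q t j - ThT p t j) := by
    unfold Th
    rw [(hsq t).tsum_sub (hsp t)]
  have h2 : ‖Th q t - Th p t‖ ≤ ∑' j : ℕ, 2 * ‖q ^ tri j - p ^ tri j‖ := by
    rw [h1]
    exact tsum_of_norm_bounded hs.hasSum fun j => at_diff q p t j
  have h3 : ‖Th p t‖ ≤ Kq p := le_ciSup (th_cont p hp1).2 t
  have h4 : ‖Th q t‖ ≤ ‖Th p t‖ + ‖Th q t - Th p t‖ := by
    have := norm_add_le (Th p t) (Th q t - Th p t)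
    rwa [add_sub_cancel] at this
  linarith

/-- `|Th q t - Th q' t| ≤ ∑ 2 |q^(tri j) - q'^(tri j)|`, hence `|Kq q - Kq q'| ≤ ∑ 2 |q^(tri j) - q'^(tri j)|`, which tends to `0`
as `q' → q` in the ball (`continuousOn_tsum`, or `tendsto_tsum_of_dominated_convergence`). -/
theorem kq_continuousOn : ContinuousOn Kq (Metric.closedBall 0 (17/50)) := by
  intro q hq
  have hq' : ‖q‖ ≤ 17 / 50 := by simpa using hq
  have hD : ContinuousOn (fun p : ℂ => ∑' j : ℕ, 2 * ‖q ^ tri j - p ^ tri j‖)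
      (Metric.closedBall 0 (17/50)) := by
    refine continuousOn_tsum (fun j => ?_) at_usumm fun j p hp => ?_
    · fun_prop
    · have hp' : ‖p‖ ≤ 17 / 50 := by simpa using hp
      rw [Real.norm_of_nonneg (by positivity)]
      exact at_dterm hq' hp' j
  have hD0 : Tendsto (fun p : ℂ => ∑' j : ℕ, 2 * ‖q ^ tri j - p ^ tri j‖)
      (nhdsWithin q (Metric.closedBall 0 (17/50))) (nhds 0) := by
    have h := hD q hq
    unfold ContinuousWithinAt at h
    simpa using h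
  unfold ContinuousWithinAt
  rw [tendsto_iff_norm_sub_tendsto_zero]
  refine squeeze_zero' (Eventually.of_forall fun p => norm_nonneg _) ?_ hD0
  filter_upwards [self_mem_nhdsWithin] with p hp
  have hp' : ‖p‖ ≤ 17 / 50 := by simpa using hp
  have h1 := at_kle hq' hp'
  have h2 := at_kle hp' hq'
  have h3 : ∑' j : ℕ, 2 * ‖p ^ tri j - q ^ tri j‖ = ∑' j : ℕ, 2 * ‖q ^ tri j - p ^ tri j‖ :=
    tsum_congr fun j => by rw [norm_sub_rev]
  rw [Real.norm_eq_abs, abs_le]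
  constructor <;> linarith

/-- `Chain` applied to `exists_thetaSys` (`B = Kq q ≤ 170919/100000`): `g = 1` and `‖q‖ ≤ 17/50 + ε` for all `ε`. -/
theorem kq_gt_of_chain (hC : Chain) (q : ℂ) (h1 : ‖q‖ < 1) (h2 : 17/50 < ‖q‖) : 170919/100000 < Kq q := by
  by_contra hcon
  push Not at hcon
  have h0 : q ≠ 0 := by
    intro h
    rw [h, norm_zero] at h2
    norm_num at h2
  obtain ⟨S, hN, hx⟩ := exists_thetaSys q h0 h1
  obtain ⟨K, g, hg, hS, hY⟩ := hC (Kq q) S hcon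
  have hg1 : g = 1 := by
    have := hS K le_rfl
    rw [hN, hN] at this
    push_cast at this
    omega
  subst hg1
  obtain ⟨K', hK'⟩ := hY ((‖q‖ - 17 / 50) / 2) (by linarith)
  have := hK' K' le_rfl
  rw [hx, pow_one] at this
  linarith

private theorem at_q1 : ‖q1‖ ≤ 17 / 50 := by
  rw [Complex.norm_def]
  apply Real.sqrt_le_iff.mpr
  refine ⟨by norm_num, ?_⟩
  simp only [q1, Complex.normSq_mk]
  norm_num

private theorem at_kq1 : Kq q1 < 170919 / 100000 := by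
  obtain ⟨t, ht⟩ := kq_attained q1 (by linarith [at_q1])
  have h1 := theta_q1_le t
  rw [ht] at h1
  unfold kp at h1
  nlinarith

private theorem at_bdd : BddBelow (Set.range fun q : {q : ℂ // ‖q‖ < 1} => Kq q.1) :=
  ⟨1, by
    rintro _ ⟨q, rfl⟩
    exact kq_ge_one q.1 q.2⟩

/-- minimum over the closed ball of radius `17/50` (compact, `kq_continuousOn`), and `Kstar < 170919/100000` (`kstar_le`,
`kp < (170919/100000)^2`), `kq_gt_of_chain`. -/
theorem kstar_attained (hC : Chain) : ∃ q : ℂ, ‖q‖ ≤ 17/50 ∧ Kq q = Kstar := by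
  obtain ⟨q, hq, hmin⟩ := (isCompact_closedBall (0 : ℂ) (17/50)).exists_isMinOn
    ⟨0, by simp; norm_num⟩ kq_continuousOn
  have hq' : ‖q‖ ≤ 17 / 50 := by simpa using hq
  refine ⟨q, hq', le_antisymm ?_ (ciInf_le at_bdd ⟨q, by linarith⟩)⟩
  have : Nonempty {q : ℂ // ‖q‖ < 1} := ⟨⟨0, by simp⟩⟩
  refine le_ciInf fun p => ?_
  rcases le_or_gt ‖p.1‖ (17 / 50) with hp | hp
  · exact hmin (by simpa using hp)
  · have h1 := kq_gt_of_chain hC p.1 p.2 hp
    have h2 : Kq q ≤ Kq q1 := hmin (by simpa using at_q1)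
    have h3 := at_kq1
    linarith

private theorem at_zero : 2 ≤ Kq 0 := by
  have h : ‖Th 0 0‖ = 2 := by
    unfold Th
    rw [tsum_eq_single 0]
    · unfold ThT
      have : tri 0 = 0 := rfl
      rw [this]
      simp
    · intro j hj
      unfold ThT
      have : tri j ≠ 0 := by
        unfold tri
        have h1 : 2 ≤ j * (j + 1) := by
          have : 1 ≤ j := Nat.one_le_iff_ne_zero.2 hj
          nlinarith
        omega
      rw [zero_pow this]
      simp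
  rw [← h]
  exact le_ciSup (th_cont 0 (by simp)).2 0

/-- `q ≠ 0` because `Kq 0 ≥ 2 > Kstar` (see `xc_zero` in Exact.lean, private: repeat it); `fq_trans`, `fq_liminf` (`≥`) and
`exact_of_chain`, `le_csSup` (`≤`; bounded above: repeat `xc_Lbdd`), or `liminf_le_of_chain`. -/
theorem lconst_attained (hC : Chain) : ∃ q : ℂ, q ≠ 0 ∧ ‖q‖ ≤ 17/50 ∧ Kq q = Kstar ∧ TransEntire (fq q) ∧
    liminf (fun r : ℝ => maxTerm (fq q) r / maxMod (fq q) r) atTop = Lconst := by
  obtain ⟨q, hq, hK⟩ := kstar_attained hC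
  have hq1 : ‖q‖ < 1 := by linarith
  have h0 : q ≠ 0 := by
    intro h
    have h1 := at_zero
    rw [← h, hK] at h1
    have h2 : Kstar ≤ Kq q1 := ciInf_le at_bdd ⟨q1, by linarith [at_q1]⟩
    have h3 := at_kq1
    linarith
  refine ⟨q, h0, hq, hK, fq_trans q hq1 h0, le_antisymm ?_ ?_⟩
  · rw [exact_of_chain hC]
    exact liminf_le_of_chain hC (fq q) (fq_trans q hq1 h0)
  · rw [exact_of_chain hC, ← hK]
    exact fq_liminf q hq1 h0 (Kq q) fun t => le_ciSup (th_cont q hq1).2 t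

end Pool.Agent.MaxTerm8
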