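import Pool.Agent.MaxTerm8.BallP

/-! Taylor expansions of the theta polynomials in `X`. -/

namespace Pool.Agent.MaxTerm8

open Complex ComplexConjugate

/-- the coefficients of the neighbours: `∑ 2 (j-1) q^(tri j - 1) U_j` -/
noncomputable def RT (J : ℕ) (q : ℂ) (X : ℝ) : ℂ :=
  ∑ j ∈ Finset.Ico 2 (J + 1), 2 * ((j : ℂ) - 1) * q ^ (tri j - 1) * ((UU X j : ℝ) : ℂ)

noncomputable def RTX (J : ℕ) (q : ℂ) (X : ℝ) : ℂ :=
  ∑ j ∈ Finset.Ico 2 (J + 1), 2 * ((j : ℂ) - 1) * q ^ (tri j - 1) * ((DU X j : ℝ) : ℂ)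

def RTB (p X : Bl) : Bl :=
  (Bl.sm 2 (p.pw 2) * UUB X 2 + Bl.sm 4 (p.pw 5) * UUB X 3 +
    Bl.sm 6 (p.pw 9) * UUB X 4 + Bl.sm 8 (p.pw 14) * UUB X 5).wd (1 / 1000000)

def RTXB (p X : Bl) : Bl :=
  (Bl.sm 2 (p.pw 2) * DUB X 2 + Bl.sm 4 (p.pw 5) * DUB X 3 +
    Bl.sm 6 (p.pw 9) * DUB X 4 + Bl.sm 8 (p.pw 14) * DUB X 5).wd (1 / 1000000)


private theorem tp_t0 : tri 0 = 0 := rfl
private theorem tp_t1 : tri 1 = 1 := rfl
private theorem tp_t2 : tri 2 = 3 := rfl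
private theorem tp_t3 : tri 3 = 6 := rfl
private theorem tp_t4 : tri 4 = 10 := rfl
private theorem tp_t5 : tri 5 = 15 := rfl
private theorem tp_t6 : tri 6 = 21 := rfl

private theorem tp_tri (j : ℕ) : tri (j + 1) = tri j + (j + 1) := by
  unfold tri
  have h1 : (j + 1) * (j + 1 + 1) = j * (j + 1) + (j + 1) * 2 := by ring
  rw [h1, Nat.add_mul_div_right _ _ (by norm_num)]

private theorem tp_tri_pos (j : ℕ) (hj : 1 ≤ j) : 1 ≤ tri j := by
  obtain ⟨k, rfl⟩ : ∃ k, j = k + 1 := ⟨j - 1, by omega⟩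
  rw [tp_tri]
  omega

private theorem tp_sm (r : ℕ) {B : Bl} {z : ℂ} (h : B.Mem z) :
    (Bl.sm (r : ℚ) B).Mem ((r : ℂ) * z) := by
  have h1 := Bl.mem_sm (r : ℚ) h
  simpa using h1

/-- sums with geometrically decreasing tails -/
private theorem tp_tail (K : ℕ → ℝ) (m : ℕ) (h0 : ∀ j, 0 ≤ K j)
    (hs : ∀ j, m ≤ j → 2 * K (j + 1) ≤ K j) (n : ℕ) :
    ∑ j ∈ Finset.range n, K j ≤ ∑ j ∈ Finset.range m, K j + 2 * K m := by
  have h1 : ∀ n, m ≤ n → ∑ j ∈ Finset.range n, K j + 2 * K n ≤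
      ∑ j ∈ Finset.range m, K j + 2 * K m := by
    intro n hn
    induction n, hn using Nat.le_induction with
    | base => exact le_rfl
    | succ n hn ih =>
      rw [Finset.sum_range_succ]
      have := hs n hn
      linarith
  have h2 := h1 (m + n) (by omega)
  have h3 : ∑ j ∈ Finset.range n, K j ≤ ∑ j ∈ Finset.range (m + n), K j :=
    Finset.sum_le_sum_of_subset_of_nonneg (Finset.range_mono (by omega)) fun j _ _ => h0 j
  have h4 := h0 (m + n)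
  linarith

private theorem tp_small (j : ℕ) (hj : 5 ≤ j) : (2804 / 10000 : ℝ) ^ (j + 1) ≤ 1 / 1000 := by
  calc (2804 / 10000 : ℝ) ^ (j + 1) ≤ (2804 / 10000 : ℝ) ^ 6 :=
        pow_le_pow_of_le_one (by norm_num) (by norm_num) (by omega)
    _ ≤ 1 / 1000 := by norm_num

/-- one step of the decreasing bounds -/
private theorem tp_step (C w w' : ℝ) (hC0 : 0 ≤ C) (hC : C ≤ 9) (hw : 0 ≤ w) (hw' : w' ≤ 2 * w)
    (hw0 : 0 ≤ w') (e j : ℕ) (hj : 5 ≤ j) :
    2 * (w' * (2804 / 10000) ^ (e + (j + 1)) * C ^ (j + 1)) ≤ w * (2804 / 10000) ^ e * C ^ j := by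
  have h1 := tp_small j hj
  have h0 : (0 : ℝ) ≤ (2804 / 10000 : ℝ) ^ (j + 1) := by positivity
  have h2 : 2 * (w' * (2804 / 10000) ^ (e + (j + 1)) * C ^ (j + 1)) =
      ((2804 / 10000 : ℝ) ^ e * C ^ j) * (2 * w' * (2804 / 10000) ^ (j + 1) * C) := by
    rw [pow_add, pow_succ C j]; ring
  have h3 : 2 * w' * (2804 / 10000 : ℝ) ^ (j + 1) * C ≤ w := by
    calc 2 * w' * (2804 / 10000 : ℝ) ^ (j + 1) * C ≤ 2 * w' * (1 / 1000) * 9 :=
          mul_le_mul (mul_le_mul_of_nonneg_left h1 (by linarith)) hC hC0 (by positivity)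
      _ ≤ w := by linarith
  rw [h2]
  calc ((2804 / 10000 : ℝ) ^ e * C ^ j) * (2 * w' * (2804 / 10000) ^ (j + 1) * C) ≤
      ((2804 / 10000 : ℝ) ^ e * C ^ j) * w := mul_le_mul_of_nonneg_left h3 (by positivity)
    _ = _ := by ring

private theorem tp_tri1 (j : ℕ) (hj : 1 ≤ j) : tri (j + 1) - 1 = (tri j - 1) + (j + 1) := by
  have := tp_tri_pos j hj
  rw [tp_tri]
  omega

private theorem tp_pn {p : ℂ} (hn : ‖p‖ ≤ 2804 / 10000) (n : ℕ) :
    ‖p‖ ^ n ≤ (2804 / 10000) ^ n :=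
  pow_le_pow_left₀ (norm_nonneg _) hn n

private theorem tp_jm (j : ℕ) (hj : 1 ≤ j) : ‖2 * ((j : ℂ) - 1)‖ = 2 * ((j : ℝ) - 1) := by
  have h1 : (2 * ((j : ℂ) - 1)) = ((2 * ((j : ℝ) - 1) : ℝ) : ℂ) := by push_cast; ring
  have h2 : (1 : ℝ) ≤ j := by exact_mod_cast hj
  rw [h1, Complex.norm_real, Real.norm_of_nonneg (by linarith)]

/-- the bounds of the tails of `RT`, `RTX` -/
private theorem tp_rtail (C : ℝ) (hC0 : 0 ≤ C) (hC : C ≤ 4) (J : ℕ) (hJ : 5 ≤ J) {p : ℂ}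
    (hn : ‖p‖ ≤ 2804 / 10000) (y : ℕ → ℝ) (hy : ∀ j, |y j| ≤ C ^ j) :
    ‖∑ j ∈ Finset.Ico 2 (J + 1), 2 * ((j : ℂ) - 1) * p ^ (tri j - 1) * ((y j : ℝ) : ℂ) -
      ∑ j ∈ Finset.Ico (2 : ℕ) 6, 2 * ((j : ℂ) - 1) * p ^ (tri j - 1) * ((y j : ℝ) : ℂ)‖ ≤
      ((1 / 1000000 : ℚ) : ℝ) := by
  rw [← Finset.sum_Ico_consecutive _ (by norm_num : 2 ≤ 6) (by omega : 6 ≤ J + 1),
    add_sub_cancel_left]
  set K : ℕ → ℝ := fun j => if j < 6 then 0 else
    2 * ((j : ℝ) - 1) * (2804 / 10000) ^ (tri j - 1) * C ^ j with hK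
  have K0 : ∀ j, 0 ≤ K j := by
    intro j
    simp only [hK]
    split_ifs with h
    · exact le_rfl
    · have h2 : (6 : ℝ) ≤ j := by exact_mod_cast (not_lt.mp h)
      have h3 : (0 : ℝ) ≤ (j : ℝ) - 1 := by linarith
      positivity
  have Ks : ∀ j, 6 ≤ j → 2 * K (j + 1) ≤ K j := by
    intro j hj
    have h2 : (6 : ℝ) ≤ j := by exact_mod_cast hj
    simp only [hK]
    rw [if_neg (by omega), if_neg (by omega), tp_tri1 j (by omega)]
    refine tp_step C _ _ hC0 (by linarith) (by linarith) ?_ ?_ _ j (by omega)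
    · push_cast; linarith
    · push_cast; linarith
  have h1 := tp_tail K 6 K0 Ks (J + 1)
  have h2 : ∑ j ∈ Finset.range 6, K j = 0 := by
    refine Finset.sum_eq_zero fun j hj => ?_
    simp only [hK]
    rw [if_pos (Finset.mem_range.mp hj)]
  have h3 : 2 * K 6 ≤ 1 / 1000000 := by
    simp only [hK]
    rw [if_neg (by norm_num), tp_t6]
    have : C ^ 6 ≤ 4 ^ 6 := pow_le_pow_left₀ hC0 hC 6
    have h5 : 2 * (((6 : ℕ) : ℝ) - 1) * (2804 / 10000) ^ (21 - 1) * C ^ 6 ≤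
        2 * (((6 : ℕ) : ℝ) - 1) * (2804 / 10000) ^ (21 - 1) * 4 ^ 6 :=
      mul_le_mul_of_nonneg_left this (by norm_num)
    refine (mul_le_mul_of_nonneg_left h5 (by norm_num)).trans ?_
    norm_num
  refine (norm_sum_le _ _).trans ?_
  have h4 : ∑ j ∈ Finset.Ico 6 (J + 1), ‖2 * ((j : ℂ) - 1) * p ^ (tri j - 1) * ((y j : ℝ) : ℂ)‖ ≤
      ∑ j ∈ Finset.Ico 6 (J + 1), K j := by
    refine Finset.sum_le_sum fun j hj => ?_
    rw [Finset.mem_Ico] at hj
    have h2 : (6 : ℝ) ≤ j := by exact_mod_cast hj.1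
    simp only [hK]
    rw [if_neg (by omega), norm_mul, norm_mul, norm_pow, tp_jm j (by omega), Complex.norm_real,
      Real.norm_eq_abs]
    have h6 : (0 : ℝ) ≤ 2 * ((j : ℝ) - 1) := by linarith
    exact mul_le_mul (mul_le_mul_of_nonneg_left (tp_pn hn _) h6) (hy j) (abs_nonneg _)
      (by positivity)
  have h5 : ∑ j ∈ Finset.Ico 6 (J + 1), K j ≤ ∑ j ∈ Finset.range (J + 1), K j := by
    refine Finset.sum_le_sum_of_subset_of_nonneg ?_ fun j _ _ => K0 j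
    intro j hj
    rw [Finset.mem_Ico] at hj
    exact Finset.mem_range.mpr hj.2
  push_cast
  linarith

/-- As `mem_QTB`; `10 * .2804^20 * 3^6 ≤ 7e-8`. -/
theorem mem_RTB (J : ℕ) (hJ : 5 ≤ J) {P X : Bl} {p : ℂ} {x : ℝ} (hp : P.Mem p)
    (hn : ‖p‖ ≤ 2804 / 10000) (hx : X.Mem (x : ℂ)) (hx1 : |x| ≤ 1) :
    (RTB P X).Mem (RT J p x) := by
  have h6 : ∑ j ∈ Finset.Ico (2 : ℕ) 6, 2 * ((j : ℂ) - 1) * p ^ (tri j - 1) * ((UU x j : ℝ) : ℂ) =
      ((2 : ℕ) : ℂ) * p ^ 2 * ((UU x 2 : ℝ) : ℂ) + ((4 : ℕ) : ℂ) * p ^ 5 * ((UU x 3 : ℝ) : ℂ) +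
        ((6 : ℕ) : ℂ) * p ^ 9 * ((UU x 4 : ℝ) : ℂ) +
        ((8 : ℕ) : ℂ) * p ^ 14 * ((UU x 5 : ℝ) : ℂ) := by
    rw [Finset.sum_Ico_eq_sum_range]
    simp only [Finset.sum_range_succ, Finset.sum_range_zero, Nat.reduceSub, Nat.reduceAdd, add_zero,
      tp_t2, tp_t3, tp_t4, tp_t5, zero_add]
    push_cast
    ring
  refine Bl.mem_wd
    (z := ∑ j ∈ Finset.Ico (2 : ℕ) 6, 2 * ((j : ℂ) - 1) * p ^ (tri j - 1) * ((UU x j : ℝ) : ℂ)) _ ?_ ?_
  · rw [h6]
    exact Bl.mem_add (Bl.mem_add (Bl.mem_add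
      (Bl.mem_mul (tp_sm 2 (Bl.mem_pw hp 2)) (mem_UUB hx 2))
      (Bl.mem_mul (tp_sm 4 (Bl.mem_pw hp 5)) (mem_UUB hx 3)))
      (Bl.mem_mul (tp_sm 6 (Bl.mem_pw hp 9)) (mem_UUB hx 4)))
      (Bl.mem_mul (tp_sm 8 (Bl.mem_pw hp 14)) (mem_UUB hx 5))
  · exact tp_rtail 3 (by norm_num) (by norm_num) J hJ hn (fun j => UU x j) (uu_abs x hx1)

/-- As `mem_QTXB`; `10 * .2804^20 * 4^6 ≤ 4e-7`. -/
theorem mem_RTXB (J : ℕ) (hJ : 5 ≤ J) {P X : Bl} {p : ℂ} {x : ℝ} (hp : P.Mem p)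
    (hn : ‖p‖ ≤ 2804 / 10000) (hx : X.Mem (x : ℂ)) (hx1 : |x| ≤ 1) :
    (RTXB P X).Mem (RTX J p x) := by
  have h6 : ∑ j ∈ Finset.Ico (2 : ℕ) 6, 2 * ((j : ℂ) - 1) * p ^ (tri j - 1) * ((DU x j : ℝ) : ℂ) =
      ((2 : ℕ) : ℂ) * p ^ 2 * ((DU x 2 : ℝ) : ℂ) + ((4 : ℕ) : ℂ) * p ^ 5 * ((DU x 3 : ℝ) : ℂ) +
        ((6 : ℕ) : ℂ) * p ^ 9 * ((DU x 4 : ℝ) : ℂ) +
        ((8 : ℕ) : ℂ) * p ^ 14 * ((DU x 5 : ℝ) : ℂ) := by
    rw [Finset.sum_Ico_eq_sum_range]
    simp only [Finset.sum_range_succ, Finset.sum_range_zero, Nat.reduceSub, Nat.reduceAdd, add_zero,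
      tp_t2, tp_t3, tp_t4, tp_t5, zero_add]
    push_cast
    ring
  refine Bl.mem_wd
    (z := ∑ j ∈ Finset.Ico (2 : ℕ) 6, 2 * ((j : ℂ) - 1) * p ^ (tri j - 1) * ((DU x j : ℝ) : ℂ)) _ ?_ ?_
  · rw [h6]
    exact Bl.mem_add (Bl.mem_add (Bl.mem_add
      (Bl.mem_mul (tp_sm 2 (Bl.mem_pw hp 2)) (mem_DUB hx 2))
      (Bl.mem_mul (tp_sm 4 (Bl.mem_pw hp 5)) (mem_DUB hx 3)))
      (Bl.mem_mul (tp_sm 6 (Bl.mem_pw hp 9)) (mem_DUB hx 4)))
      (Bl.mem_mul (tp_sm 8 (Bl.mem_pw hp 14)) (mem_DUB hx 5))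
  · exact tp_rtail 4 (by norm_num) (by norm_num) J hJ hn (fun j => DU x j) (du_abs x hx1)

theorem uu_one (j : ℕ) : UU (1 : ℝ) j = 1 := by
  induction j using Nat.twoStepInduction with
  | zero => rfl
  | one => simp only [UU]; norm_num
  | more n ih1 ih2 => simp only [UU]; rw [ih1, ih2]; norm_num

/-- `U_0, U_1, U_2` have degree at most two; `uu_tay3` for `j ≥ 3`:
`.2804^6 * 9^3/6 + .2804^10 * 9^4/6 + ... ≤ .059062 + .003286 + .0000505 + ... ≤ .0625`. -/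
theorem pp_tay (J : ℕ) (p : ℂ) (hn : ‖p‖ ≤ 2804 / 10000) (x y : ℝ) (hx : |x| ≤ 1) (hy : |y| ≤ 1) :
    ‖PP J p y - PP J p x - PX J p x * ((y - x : ℝ) : ℂ) - PXX J p x / 2 * ((y - x : ℝ) : ℂ) ^ 2‖ ≤
      625 / 10000 * |y - x| ^ 3 := by
  set h : ℝ := y - x with hh
  have e1 : PP J p y - PP J p x - PX J p x * ((h : ℝ) : ℂ) - PXX J p x / 2 * ((h : ℝ) : ℂ) ^ 2 =
      ∑ j ∈ Finset.range (J + 1), p ^ tri j *
        ((UU y j - UU x j - DU x j * h - D2U x j / 2 * h ^ 2 : ℝ) : ℂ) := by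
    unfold PP PX PXX
    rw [Finset.sum_div, Finset.sum_mul, Finset.sum_mul, ← Finset.sum_sub_distrib,
      ← Finset.sum_sub_distrib, ← Finset.sum_sub_distrib]
    refine Finset.sum_congr rfl fun j _ => ?_
    push_cast
    ring
  rw [e1]
  set K : ℕ → ℝ := fun j => if j < 3 then 0 else
    (1 / 6) * (2804 / 10000) ^ (tri j) * 9 ^ j with hK
  have K0 : ∀ j, 0 ≤ K j := by
    intro j
    simp only [hK]
    split_ifs with h
    · exact le_rfl
    · positivity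
  have Ks : ∀ j, 5 ≤ j → 2 * K (j + 1) ≤ K j := by
    intro j hj
    simp only [hK]
    rw [if_neg (by omega), if_neg (by omega), tp_tri]
    exact tp_step 9 _ _ (by norm_num) le_rfl (by norm_num) (by norm_num) (by norm_num) _ j hj
  have h1 := tp_tail K 5 K0 Ks (J + 1)
  have h2 : ∑ j ∈ Finset.range 5, K j + 2 * K 5 ≤ 625 / 10000 := by
    simp only [Finset.sum_range_succ, Finset.sum_range_zero, hK]
    rw [if_pos (by norm_num), if_pos (by norm_num), if_pos (by norm_num), if_neg (by norm_num),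
      if_neg (by norm_num), if_neg (by norm_num), tp_t3, tp_t4, tp_t5]
    norm_num
  have h3 : ∀ j, ‖p ^ tri j * ((UU y j - UU x j - DU x j * h - D2U x j / 2 * h ^ 2 : ℝ) : ℂ)‖ ≤
      K j * |h| ^ 3 := by
    intro j
    by_cases hj : j < 3
    · have : UU y j - UU x j - DU x j * h - D2U x j / 2 * h ^ 2 = 0 := by
        interval_cases j
        · simp only [UU, DU, D2U]; ring
        · simp only [UU, DU, D2U]; rw [hh]; ring
        · simp only [UU, DU, D2U]; rw [hh]; ring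
      rw [this, Complex.ofReal_zero, mul_zero, norm_zero]
      have := K0 j
      positivity
    · simp only [hK]
      rw [if_neg hj, norm_mul, norm_pow, Complex.norm_real, Real.norm_eq_abs]
      have t := uu_tay3 y x hy hx j
      calc ‖p‖ ^ tri j * |UU y j - UU x j - DU x j * h - D2U x j / 2 * h ^ 2| ≤
          (2804 / 10000) ^ tri j * (9 ^ j / 6 * |h| ^ 3) :=
            mul_le_mul (tp_pn hn _) t (abs_nonneg _) (by positivity)
        _ = _ := by ring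
  refine (norm_sum_le _ _).trans ((Finset.sum_le_sum fun j _ => h3 j).trans ?_)
  rw [← Finset.sum_mul]
  exact mul_le_mul_of_nonneg_right (h1.trans h2) (by positivity)

/-- `j = 1` exact, `j = 2`: `4 ‖p‖^2 * 4`, `uu_tay2` for `j ≥ 3`:
`1.25800 + 1.12323 + .05556 + .00073 + ... ≤ 2.44`. -/
theorem qt_tay (J : ℕ) (p : ℂ) (hn : ‖p‖ ≤ 2804 / 10000) (x y : ℝ) (hx : |x| ≤ 1) (hy : |y| ≤ 1) :
    ‖QT J p y - QT J p x - QTX J p x * ((y - x : ℝ) : ℂ)‖ ≤ 244 / 100 * |y - x| ^ 2 := by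
  set h : ℝ := y - x with hh
  have e1 : QT J p y - QT J p x - QTX J p x * ((h : ℝ) : ℂ) =
      ∑ j ∈ Finset.range (J + 1), 2 * (j : ℂ) * p ^ (tri j - 1) *
        ((UU y j - UU x j - DU x j * h : ℝ) : ℂ) := by
    unfold QT QTX
    rw [Finset.sum_mul, ← Finset.sum_sub_distrib, ← Finset.sum_sub_distrib]
    refine Finset.sum_congr rfl fun j _ => ?_
    push_cast
    ring
  rw [e1]
  set K : ℕ → ℝ := fun j => if j < 2 then 0 else if j = 2 then 16 * (2804 / 10000) ^ 2 else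
    (j : ℝ) * (2804 / 10000) ^ (tri j - 1) * 6 ^ j with hK
  have K0 : ∀ j, 0 ≤ K j := by
    intro j
    simp only [hK]
    split_ifs with h
    · exact le_rfl
    · positivity
    · positivity
  have Ks : ∀ j, 5 ≤ j → 2 * K (j + 1) ≤ K j := by
    intro j hj
    have h2 : (5 : ℝ) ≤ j := by exact_mod_cast hj
    simp only [hK]
    rw [if_neg (by omega), if_neg (by omega), if_neg (by omega), if_neg (by omega),
      tp_tri1 j (by omega)]
    refine tp_step 6 _ _ (by norm_num) (by norm_num) (by linarith) ?_ ?_ _ j hj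
    · push_cast; linarith
    · push_cast; linarith
  have h1 := tp_tail K 5 K0 Ks (J + 1)
  have h2 : ∑ j ∈ Finset.range 5, K j + 2 * K 5 ≤ 244 / 100 := by
    simp only [Finset.sum_range_succ, Finset.sum_range_zero, hK]
    rw [if_pos (by norm_num), if_pos (by norm_num), if_neg (by norm_num), if_pos (by norm_num),
      if_neg (by norm_num), if_neg (by norm_num), if_neg (by norm_num), if_neg (by norm_num),
      if_neg (by norm_num), if_neg (by norm_num), tp_t3, tp_t4, tp_t5]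
    norm_num
  have h3 : ∀ j : ℕ, ‖2 * (j : ℂ) * p ^ (tri j - 1) *
      ((UU y j - UU x j - DU x j * h : ℝ) : ℂ)‖ ≤ K j * |h| ^ 2 := by
    intro j
    by_cases hj : j < 2
    · have : UU y j - UU x j - DU x j * h = 0 := by
        interval_cases j
        · simp only [UU, DU]; ring
        · simp only [UU, DU]; rw [hh]; ring
      rw [this, Complex.ofReal_zero, mul_zero, norm_zero]
      have := K0 j
      positivity
    · have hc : ‖2 * (j : ℂ)‖ = 2 * (j : ℝ) := by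
        rw [norm_mul, Complex.norm_natCast]; norm_num
      rw [norm_mul, norm_mul, norm_pow, Complex.norm_real, Real.norm_eq_abs, hc]
      by_cases hj2 : j = 2
      · subst hj2
        simp only [hK]
        rw [if_neg (by norm_num), if_pos trivial, tp_t2]
        have : UU y 2 - UU x 2 - DU x 2 * h = 4 * h ^ 2 := by
          simp only [UU, DU]; rw [hh]; ring
        rw [this, abs_mul, abs_pow, abs_of_pos (by norm_num : (0 : ℝ) < 4)]
        have hp2 := tp_pn hn 2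
        calc 2 * ((2 : ℕ) : ℝ) * ‖p‖ ^ (3 - 1) * (4 * |h| ^ 2) = 16 * |h| ^ 2 * ‖p‖ ^ 2 := by
              push_cast; ring
          _ ≤ 16 * |h| ^ 2 * (2804 / 10000) ^ 2 := mul_le_mul_of_nonneg_left hp2 (by positivity)
          _ = _ := by ring
      · simp only [hK]
        rw [if_neg hj, if_neg hj2]
        have t := uu_tay2 y x hy hx j
        calc 2 * (j : ℝ) * ‖p‖ ^ (tri j - 1) * |UU y j - UU x j - DU x j * h| ≤
            2 * (j : ℝ) * (2804 / 10000) ^ (tri j - 1) * (6 ^ j / 2 * h ^ 2) :=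
              mul_le_mul (mul_le_mul_of_nonneg_left (tp_pn hn _) (by positivity)) t (abs_nonneg _)
                (by positivity)
          _ = _ := by rw [sq_abs]; ring
  refine (norm_sum_le _ _).trans ((Finset.sum_le_sum fun j _ => h3 j).trans ?_)
  rw [← Finset.sum_mul]
  exact mul_le_mul_of_nonneg_right (h1.trans h2) (by positivity)

/-- `.62900 + .74882 + .04167 + .00059 + ... ≤ 1.4201`. -/
theorem rt_tay (J : ℕ) (p : ℂ) (hn : ‖p‖ ≤ 2804 / 10000) (x y : ℝ) (hx : |x| ≤ 1) (hy : |y| ≤ 1) :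
    ‖RT J p y - RT J p x - RTX J p x * ((y - x : ℝ) : ℂ)‖ ≤ 1421 / 1000 * |y - x| ^ 2 := by
  set h : ℝ := y - x with hh
  have e1 : RT J p y - RT J p x - RTX J p x * ((h : ℝ) : ℂ) =
      ∑ j ∈ Finset.Ico 2 (J + 1), 2 * ((j : ℂ) - 1) * p ^ (tri j - 1) *
        ((UU y j - UU x j - DU x j * h : ℝ) : ℂ) := by
    unfold RT RTX
    rw [Finset.sum_mul, ← Finset.sum_sub_distrib, ← Finset.sum_sub_distrib]
    refine Finset.sum_congr rfl fun j _ => ?_
    push_cast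
    ring
  rw [e1]
  set K : ℕ → ℝ := fun j => if j < 2 then 0 else if j = 2 then 8 * (2804 / 10000) ^ 2 else
    ((j : ℝ) - 1) * (2804 / 10000) ^ (tri j - 1) * 6 ^ j with hK
  have K0 : ∀ j, 0 ≤ K j := by
    intro j
    simp only [hK]
    split_ifs with h h'
    · exact le_rfl
    · positivity
    · have h2 : (2 : ℝ) ≤ j := by exact_mod_cast (not_lt.mp h)
      have h3 : (0 : ℝ) ≤ (j : ℝ) - 1 := by linarith
      positivity
  have Ks : ∀ j, 5 ≤ j → 2 * K (j + 1) ≤ K j := by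
    intro j hj
    have h2 : (5 : ℝ) ≤ j := by exact_mod_cast hj
    simp only [hK]
    rw [if_neg (by omega), if_neg (by omega), if_neg (by omega), if_neg (by omega),
      tp_tri1 j (by omega)]
    refine tp_step 6 _ _ (by norm_num) (by norm_num) (by linarith) ?_ ?_ _ j hj
    · push_cast; linarith
    · push_cast; linarith
  have h1 := tp_tail K 5 K0 Ks (J + 1)
  have h2 : ∑ j ∈ Finset.range 5, K j + 2 * K 5 ≤ 1421 / 1000 := by
    simp only [Finset.sum_range_succ, Finset.sum_range_zero, hK]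
    rw [if_pos (by norm_num), if_pos (by norm_num), if_neg (by norm_num), if_pos (by norm_num),
      if_neg (by norm_num), if_neg (by norm_num), if_neg (by norm_num), if_neg (by norm_num),
      if_neg (by norm_num), if_neg (by norm_num), tp_t3, tp_t4, tp_t5]
    norm_num
  have h3 : ∀ j ∈ Finset.Ico 2 (J + 1), ‖2 * ((j : ℂ) - 1) * p ^ (tri j - 1) *
      ((UU y j - UU x j - DU x j * h : ℝ) : ℂ)‖ ≤ K j * |h| ^ 2 := by
    intro j hjm
    rw [Finset.mem_Ico] at hjm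
    have h2' : (2 : ℝ) ≤ j := by exact_mod_cast hjm.1
    rw [norm_mul, norm_mul, norm_pow, Complex.norm_real, Real.norm_eq_abs, tp_jm j (by omega)]
    by_cases hj2 : j = 2
    · subst hj2
      simp only [hK]
      rw [if_neg (by norm_num), if_pos trivial, tp_t2]
      have : UU y 2 - UU x 2 - DU x 2 * h = 4 * h ^ 2 := by
        simp only [UU, DU]; rw [hh]; ring
      rw [this, abs_mul, abs_pow, abs_of_pos (by norm_num : (0 : ℝ) < 4)]
      have hp2 := tp_pn hn 2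
      calc 2 * (((2 : ℕ) : ℝ) - 1) * ‖p‖ ^ (3 - 1) * (4 * |h| ^ 2) = 8 * |h| ^ 2 * ‖p‖ ^ 2 := by
            push_cast; ring
        _ ≤ 8 * |h| ^ 2 * (2804 / 10000) ^ 2 := mul_le_mul_of_nonneg_left hp2 (by positivity)
        _ = _ := by ring
    · simp only [hK]
      rw [if_neg (by omega), if_neg hj2]
      have t := uu_tay2 y x hy hx j
      have h6 : (0 : ℝ) ≤ 2 * ((j : ℝ) - 1) := by linarith
      calc 2 * ((j : ℝ) - 1) * ‖p‖ ^ (tri j - 1) * |UU y j - UU x j - DU x j * h| ≤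
          2 * ((j : ℝ) - 1) * (2804 / 10000) ^ (tri j - 1) * (6 ^ j / 2 * h ^ 2) :=
            mul_le_mul (mul_le_mul_of_nonneg_left (tp_pn hn _) h6) t (abs_nonneg _)
              (by positivity)
        _ = _ := by rw [sq_abs]; ring
  refine (norm_sum_le _ _).trans ((Finset.sum_le_sum h3).trans ?_)
  rw [← Finset.sum_mul]
  have h5 : ∑ j ∈ Finset.Ico 2 (J + 1), K j ≤ ∑ j ∈ Finset.range (J + 1), K j := by
    refine Finset.sum_le_sum_of_subset_of_nonneg ?_ fun j _ _ => K0 j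
    intro j hj
    rw [Finset.mem_Ico] at hj
    exact Finset.mem_range.mpr hj.2
  exact mul_le_mul_of_nonneg_right (h5.trans (h1.trans h2)) (by positivity)

end Pool.Agent.MaxTerm8
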