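import Pool.Agent.MaxTerm8.Master
import Pool.Agent.MaxTerm8.TaylorP

/-! Exact form of `Av` for the optimal nodes. -/

namespace Pool.Agent.MaxTerm8

open Complex ComplexConjugate

/-- the window function `∑ E_j U_j(X)`, `E_j = 2 p^(tri j) + 2 j p^(tri j - 1) δ (+ 2 p δ^2 for j = 2)` -/
noncomputable def Et (J : ℕ) (p δ : ℂ) (X : ℝ) : ℂ :=
  2 * PP J p X + QT J p X * δ + 2 * p * δ ^ 2 * ((UU X 2 : ℝ) : ℂ)

/-- the linear part of the potential, for general multipliers -/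
noncomputable def gmu (J : ℕ) (p : ℂ) (μ : ℕ → ℂ) : ℂ :=
  conj (-((7 / 4 : ℝ) : ℂ) * conj p -
    ∑ j ∈ Finset.Ico 2 (J + 1), 2 * ((j : ℂ) - 1) * μ j * p ^ (tri j - 1))

private theorem ae_conj_gmu (J : ℕ) (p : ℂ) (μ : ℕ → ℂ) :
    conj (gmu J p μ) = -((7 / 4 : ℝ) : ℂ) * conj p -
      ∑ j ∈ Finset.Ico 2 (J + 1), 2 * ((j : ℂ) - 1) * μ j * p ^ (tri j - 1) := by
  unfold gmu
  exact Complex.conj_conj _

private theorem ae_split2 (J : ℕ) (hJ : 5 ≤ J) (p : ℂ) (μ : ℕ → ℂ) :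
    ∑ j ∈ Finset.Ico 2 (J + 1), 2 * ((j : ℂ) - 1) * μ j * p ^ (tri j - 1) =
      2 * μ 2 * p ^ 2 + ∑ j ∈ Finset.Ico 3 (J + 1), 2 * ((j : ℂ) - 1) * μ j * p ^ (tri j - 1) := by
  rw [Finset.sum_eq_sum_Ico_succ_bot (by omega)]
  have t2 : tri 2 - 1 = 2 := rfl
  rw [t2]
  push_cast
  ring

/-- With `c = p + δ`, `S = 13/20`, `m = 9/20`, `conj g = -(7/4) conj p - ∑ 2 (j-1) μ_j p^(tri j-1)`:
`zz = 2 L2 c^2 + m conj c + conj g + 2 S conj p + TT2 = 2 L2 (2pδ + δ^2) + m conj δ +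
∑_{j ≥ 2} 2 (j-1) (L_j - μ_j) p^(tri j-1)`. -/
theorem zz_exact (J : ℕ) (hJ : 5 ≤ J) (p δ : ℂ) (L μ : ℕ → ℂ) :
    zz (L 2) (TT2 J L p) (gmu J p μ) p (13 / 20) (9 / 20) (p + δ) =
    2 * L 2 * (2 * p * δ + δ ^ 2) + (9 / 20 : ℝ) * conj δ +
      ∑ j ∈ Finset.Ico 2 (J + 1), 2 * ((j : ℂ) - 1) * (L j - μ j) * p ^ (tri j - 1) := by
  have h1 : ∑ j ∈ Finset.Ico 2 (J + 1), 2 * ((j : ℂ) - 1) * (L j - μ j) * p ^ (tri j - 1) =
      ∑ j ∈ Finset.Ico 2 (J + 1), 2 * ((j : ℂ) - 1) * L j * p ^ (tri j - 1) -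
      ∑ j ∈ Finset.Ico 2 (J + 1), 2 * ((j : ℂ) - 1) * μ j * p ^ (tri j - 1) := by
    rw [← Finset.sum_sub_distrib]
    refine Finset.sum_congr rfl fun j _ => ?_
    ring
  have h2 : ∑ j ∈ Finset.Ico 3 (J + 1), 2 * ((j : ℂ) - 1) * L j * p ^ (tri j - 1) =
      TT2 J L p := rfl
  rw [h1, ae_split2 J hJ p L, h2]
  unfold zz
  rw [ae_conj_gmu, map_add]
  push_cast
  ring

private theorem ae_alg (L0 L1 L2 m2 p δ T0 TL TM G3 : ℂ) :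
    4 * (L0 + L1 * (p + δ)).re + 4 * (L2 * (p + δ) ^ 2 * p).re + 2 * (13 / 20 : ℝ) * ‖p‖ ^ 2 -
      (2 * (13 / 20 : ℝ) + 2 * (9 / 20 : ℝ) + 0) * ‖p + δ‖ ^ 2 +
      2 * ((-((7 / 4 : ℝ) : ℂ) * conj p - (2 * m2 * p ^ 2 + G3)) * (p - (p + δ))).re +
      2 * (9 / 20 : ℝ) * (p * conj (p + δ)).re + T0.re + ((TL + TM) * (p + δ - p)).re =
    2 * (2 * L0 + 2 * L1 * (p + δ) + L2 * (2 * p ^ 3 + 4 * p ^ 2 * δ) +
        ((1 / 2 : ℝ) : ℂ) * (T0 + TL * δ) + L2 * (2 * p * δ ^ 2)).re +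
      (4 * m2 * p ^ 2 * δ + (TM + 2 * G3) * δ).re - 11 / 5 * ‖δ‖ ^ 2 := by
  rw [Complex.sq_norm, Complex.sq_norm, Complex.sq_norm, Complex.normSq_apply,
    Complex.normSq_apply, Complex.normSq_apply]
  simp only [Complex.add_re, Complex.add_im, Complex.sub_re, Complex.sub_im, Complex.mul_re,
    Complex.mul_im, Complex.neg_re, Complex.neg_im, Complex.ofReal_re, Complex.ofReal_im,
    Complex.conj_re, Complex.conj_im, Complex.re_ofNat, Complex.im_ofNat, pow_succ, pow_zero,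
    Complex.one_re, Complex.one_im]
  ring

/-- Expand `Av` at `c = p + δ`: `2S|p|^2 - (2S+2m)|c|^2 + 2 m Re (p conj c) - 2 Re (conj g δ) =
-(2S+2m)|δ|^2 + 4 Re ∑_{j≥2} (j-1) μ_j p^(tri j-1) δ`; `4 Re (L0 + L1 c + L2 c^2 p) + Re T0 + Re (T1 δ) =
2 Re (∑_j L_j (2 p^(tri j) + 2 j p^(tri j-1) δ) + 2 p δ^2 L2) + 2 Re ∑_{j≥3} (j-1)(j-2) μ_j p^(tri j-1) δ`;
`4 (j-1) + 2 (j-1)(j-2) = 2 j (j-1)`. -/
theorem av_exact (J : ℕ) (hJ : 5 ≤ J) (p δ : ℂ) (L μ : ℕ → ℂ) (ν r0 r1 e0 : ℝ) :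
    Av (L 0) (L 1) (L 2) (TT0 J L p) (TT1 J L μ p) (TT2 J L p) (gmu J p μ) p ν (13 / 20) (9 / 20)
      r0 r1 0 e0 0 (p + δ) =
    2 * (∑ j ∈ Finset.range (J + 1), L j * (2 * p ^ tri j + 2 * (j : ℂ) * p ^ (tri j - 1) * δ) +
      L 2 * (2 * p * δ ^ 2)).re - ν +
    (∑ j ∈ Finset.range (J + 1), 2 * (j : ℂ) * ((j : ℂ) - 1) * μ j * p ^ (tri j - 1) * δ).re -
    (11 / 5 + 2 * r0) * ‖δ‖ ^ 2 -
    ‖zz (L 2) (TT2 J L p) (gmu J p μ) p (13 / 20) (9 / 20) (p + δ)‖ ^ 2 / (2 * (13 / 20 - r1)) -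
    e0 := by
  obtain ⟨TL, hTL⟩ : ∃ TL : ℂ, TL = ∑ j ∈ Finset.Ico 3 (J + 1), 4 * (j : ℂ) * L j *
      p ^ (tri j - 1) := ⟨_, rfl⟩
  obtain ⟨TM, hTM⟩ : ∃ TM : ℂ, TM = ∑ j ∈ Finset.Ico 3 (J + 1),
      2 * ((j : ℂ) - 1) * (j - 2) * μ j * p ^ (tri j - 1) := ⟨_, rfl⟩
  obtain ⟨G3, hG3⟩ : ∃ G3 : ℂ, G3 = ∑ j ∈ Finset.Ico 3 (J + 1),
      2 * ((j : ℂ) - 1) * μ j * p ^ (tri j - 1) := ⟨_, rfl⟩
  have hT1 : TT1 J L μ p = TL + TM := by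
    rw [hTL, hTM, ← Finset.sum_add_distrib]
    unfold TT1
    refine Finset.sum_congr rfl fun j _ => ?_
    ring
  have hr : ∀ f : ℕ → ℂ, ∑ j ∈ Finset.range (J + 1), f j =
      f 0 + f 1 + f 2 + ∑ j ∈ Finset.Ico 3 (J + 1), f j := by
    intro f
    rw [Finset.range_eq_Ico, Finset.sum_eq_sum_Ico_succ_bot (by omega),
      Finset.sum_eq_sum_Ico_succ_bot (by omega), Finset.sum_eq_sum_Ico_succ_bot (by omega)]
    ring
  have t0 : tri 0 = 0 := rfl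
  have t1 : tri 1 = 1 := rfl
  have t2 : tri 2 = 3 := rfl
  have hs1 : ∑ j ∈ Finset.range (J + 1), L j *
      (2 * p ^ tri j + 2 * (j : ℂ) * p ^ (tri j - 1) * δ) =
      2 * L 0 + 2 * L 1 * (p + δ) + L 2 * (2 * p ^ 3 + 4 * p ^ 2 * δ) +
        ((1 / 2 : ℝ) : ℂ) * (TT0 J L p + TL * δ) := by
    rw [hr, t0, t1, t2, hTL]
    unfold TT0
    have e : ∑ j ∈ Finset.Ico 3 (J + 1), L j *
        (2 * p ^ tri j + 2 * (j : ℂ) * p ^ (tri j - 1) * δ) =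
        ((1 / 2 : ℝ) : ℂ) * (∑ j ∈ Finset.Ico 3 (J + 1), 4 * L j * p ^ tri j +
          (∑ j ∈ Finset.Ico 3 (J + 1), 4 * (j : ℂ) * L j * p ^ (tri j - 1)) * δ) := by
      rw [Finset.sum_mul, ← Finset.sum_add_distrib, Finset.mul_sum]
      refine Finset.sum_congr rfl fun j _ => ?_
      push_cast
      ring
    rw [e]
    push_cast
    ring
  have hs2 : ∑ j ∈ Finset.range (J + 1),
      2 * (j : ℂ) * ((j : ℂ) - 1) * μ j * p ^ (tri j - 1) * δ =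
      4 * μ 2 * p ^ 2 * δ + (TM + 2 * G3) * δ := by
    rw [hr, t0, t1, t2, hTM, hG3]
    have e : ∑ j ∈ Finset.Ico 3 (J + 1),
        2 * (j : ℂ) * ((j : ℂ) - 1) * μ j * p ^ (tri j - 1) * δ =
        (∑ j ∈ Finset.Ico 3 (J + 1), 2 * ((j : ℂ) - 1) * (j - 2) * μ j * p ^ (tri j - 1) +
          2 * ∑ j ∈ Finset.Ico 3 (J + 1), 2 * ((j : ℂ) - 1) * μ j * p ^ (tri j - 1)) * δ := by
      rw [Finset.mul_sum, ← Finset.sum_add_distrib, Finset.sum_mul]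
      refine Finset.sum_congr rfl fun j _ => ?_
      ring
    rw [e]
    push_cast
    ring
  have key := ae_alg (L 0) (L 1) (L 2) (μ 2) p δ (TT0 J L p) TL TM G3
  rw [← hs1, ← hs2] at key
  have hg := ae_conj_gmu J p μ
  rw [ae_split2 J hJ p μ, ← hG3] at hg
  rw [← hg, ← hT1] at key
  unfold Av
  have e1 : p + δ - p = δ := by ring
  rw [e1] at key ⊢
  linarith

private theorem ae_lam (s : Finset ℕ) (a : ℕ → ℂ) (w x : ℝ) (Y0 Y1 : ℂ) :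
    ∑ j ∈ s, lam w x Y0 Y1 j * a j =
      (w : ℂ) * (conj Y0 * ∑ j ∈ s, a j * ((UU (1 : ℝ) j : ℝ) : ℂ)) +
      ((1 - w : ℝ) : ℂ) * (((1 + x) / 2 : ℝ) : ℂ) *
        (conj Y1 * ∑ j ∈ s, a j * ((UU x j : ℝ) : ℂ)) := by
  rw [Finset.mul_sum, Finset.mul_sum, Finset.mul_sum, Finset.mul_sum, ← Finset.sum_add_distrib]
  refine Finset.sum_congr rfl fun j _ => ?_
  rw [uu_one]
  unfold lam
  push_cast
  ring

private theorem ae_Et (J : ℕ) (p δ : ℂ) (X : ℝ) :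
    ∑ j ∈ Finset.range (J + 1), (2 * p ^ tri j + 2 * (j : ℂ) * p ^ (tri j - 1) * δ) *
      ((UU X j : ℝ) : ℂ) = 2 * PP J p X + QT J p X * δ := by
  unfold PP QT
  rw [Finset.mul_sum, Finset.sum_mul, ← Finset.sum_add_distrib]
  refine Finset.sum_congr rfl fun j _ => ?_
  ring

private theorem ae_re_conj (Y : ℂ) : (conj Y * Y).re = ‖Y‖ ^ 2 := by
  rw [Complex.sq_norm, Complex.normSq_apply, Complex.mul_re, Complex.conj_re, Complex.conj_im]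
  ring

/-- For `L = lam w x Y0 Y1` with `Y0 = Et 1`, `Y1 = Et x` (`U_j(1) = 1`): the sum is
`w |Y0|^2 + (1-w) (1+x)/2 |Y1|^2 = nu`. -/
theorem sum_lam_opt (J : ℕ) (hJ : 5 ≤ J) (p δ : ℂ) (w x : ℝ) :
    (∑ j ∈ Finset.range (J + 1), lam w x (Et J p δ 1) (Et J p δ x) j *
        (2 * p ^ tri j + 2 * (j : ℂ) * p ^ (tri j - 1) * δ) +
      lam w x (Et J p δ 1) (Et J p δ x) 2 * (2 * p * δ ^ 2)).re =
    nu w x (Et J p δ 1) (Et J p δ x) := by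
  rw [ae_lam, ae_Et, ae_Et]
  have e : (w : ℂ) * (conj (Et J p δ 1) * (2 * PP J p 1 + QT J p 1 * δ)) +
      ((1 - w : ℝ) : ℂ) * (((1 + x) / 2 : ℝ) : ℂ) *
        (conj (Et J p δ x) * (2 * PP J p x + QT J p x * δ)) +
      lam w x (Et J p δ 1) (Et J p δ x) 2 * (2 * p * δ ^ 2) =
      (w : ℂ) * (conj (Et J p δ 1) * Et J p δ 1) +
      (((1 - w) * ((1 + x) / 2) : ℝ) : ℂ) * (conj (Et J p δ x) * Et J p δ x) := by
    have h1 : Et J p δ 1 = 2 * PP J p 1 + QT J p 1 * δ + 2 * p * δ ^ 2 := by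
      have h2 : Et J p δ 1 = 2 * PP J p 1 + QT J p 1 * δ +
          2 * p * δ ^ 2 * ((UU (1 : ℝ) 2 : ℝ) : ℂ) := rfl
      rw [h2, uu_one]
      push_cast
      ring
    have h3 : Et J p δ x = 2 * PP J p x + QT J p x * δ +
        2 * p * δ ^ 2 * ((UU x 2 : ℝ) : ℂ) := rfl
    have h4 : lam w x (Et J p δ 1) (Et J p δ x) 2 = (w : ℂ) * conj (Et J p δ 1) +
        (((1 - w) * ((1 + x) / 2) * UU x 2 : ℝ) : ℂ) * conj (Et J p δ x) := rfl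
    rw [h4]
    have h5 : (w : ℂ) * (conj (Et J p δ 1) * Et J p δ 1) =
        (w : ℂ) * (conj (Et J p δ 1) * (2 * PP J p 1 + QT J p 1 * δ + 2 * p * δ ^ 2)) := by
      rw [← h1]
    have h6 : (((1 - w) * ((1 + x) / 2) : ℝ) : ℂ) * (conj (Et J p δ x) * Et J p δ x) =
        (((1 - w) * ((1 + x) / 2) : ℝ) : ℂ) * (conj (Et J p δ x) * (2 * PP J p x + QT J p x * δ +
        2 * p * δ ^ 2 * ((UU x 2 : ℝ) : ℂ))) := by
      rw [← h3]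
    rw [h5, h6]
    generalize conj (Et J p δ 1) = A
    generalize conj (Et J p δ x) = B
    push_cast
    ring
  rw [e, Complex.add_re, Complex.re_ofReal_mul, Complex.re_ofReal_mul, ae_re_conj, ae_re_conj]
  rfl

private theorem ae_tri (j : ℕ) : 2 * (tri j : ℂ) = (j : ℂ) * ((j : ℂ) + 1) := by
  have h3 : 2 * tri j = j * (j + 1) := by
    unfold tri
    exact Nat.mul_div_cancel' (Nat.even_mul_succ_self j).two_dvd
  exact_mod_cast h3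

/-- KKT: `∑ tri j μ_j p^(tri j-1) = w conj Y0 PQ(1) + (1-w)(1+x)/2 conj Y1 PQ(x) = 0` for
`μ = lam w x (2 PP 1) (2 PP x)`, and `2 j (j-1) = 4 tri j - 4 j`. -/
theorem kappa1 (J : ℕ) (p δ : ℂ) (w x : ℝ)
    (hk : (w : ℂ) * (conj (PP J p 1) * PQ J p 1) +
      (((1 - w) * ((1 + x) / 2) : ℝ) : ℂ) * (conj (PP J p x) * PQ J p x) = 0) :
    (∑ j ∈ Finset.range (J + 1), 2 * (j : ℂ) * ((j : ℂ) - 1) *
      lam w x (2 * PP J p 1) (2 * PP J p x) j * p ^ (tri j - 1) * δ).re =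
    -2 * (w * (conj (2 * PP J p 1) * (QT J p 1 * δ)).re +
      (1 - w) * ((1 + x) / 2) * (conj (2 * PP J p x) * (QT J p x * δ)).re) := by
  have h1 : ∑ j ∈ Finset.range (J + 1), 2 * (j : ℂ) * ((j : ℂ) - 1) *
      lam w x (2 * PP J p 1) (2 * PP J p x) j * p ^ (tri j - 1) * δ =
      ∑ j ∈ Finset.range (J + 1), lam w x (2 * PP J p 1) (2 * PP J p x) j *
        (4 * δ * ((tri j : ℂ) * p ^ (tri j - 1))) -
      ∑ j ∈ Finset.range (J + 1), lam w x (2 * PP J p 1) (2 * PP J p x) j *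
        (2 * δ * (2 * (j : ℂ) * p ^ (tri j - 1))) := by
    rw [← Finset.sum_sub_distrib]
    refine Finset.sum_congr rfl fun j _ => ?_
    linear_combination (-(2 * lam w x (2 * PP J p 1) (2 * PP J p x) j * p ^ (tri j - 1) * δ)) *
      ae_tri j
  have hQ : ∀ X : ℝ, ∑ j ∈ Finset.range (J + 1), 4 * δ * ((tri j : ℂ) * p ^ (tri j - 1)) *
      ((UU X j : ℝ) : ℂ) = 4 * δ * PQ J p X := by
    intro X
    unfold PQ
    rw [Finset.mul_sum]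
    refine Finset.sum_congr rfl fun j _ => ?_
    ring
  have hT : ∀ X : ℝ, ∑ j ∈ Finset.range (J + 1), 2 * δ * (2 * (j : ℂ) * p ^ (tri j - 1)) *
      ((UU X j : ℝ) : ℂ) = 2 * δ * QT J p X := by
    intro X
    unfold QT
    rw [Finset.mul_sum]
    refine Finset.sum_congr rfl fun j _ => ?_
    ring
  rw [h1, ae_lam, ae_lam, hQ, hQ, hT, hT]
  have e : (w : ℂ) * (conj (2 * PP J p 1) * (4 * δ * PQ J p 1)) +
      ((1 - w : ℝ) : ℂ) * (((1 + x) / 2 : ℝ) : ℂ) * (conj (2 * PP J p x) * (4 * δ * PQ J p x)) -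
      ((w : ℂ) * (conj (2 * PP J p 1) * (2 * δ * QT J p 1)) +
      ((1 - w : ℝ) : ℂ) * (((1 + x) / 2 : ℝ) : ℂ) * (conj (2 * PP J p x) * (2 * δ * QT J p x))) =
      ((-2 * w : ℝ) : ℂ) * (conj (2 * PP J p 1) * (QT J p 1 * δ)) +
      ((-2 * ((1 - w) * ((1 + x) / 2)) : ℝ) : ℂ) * (conj (2 * PP J p x) * (QT J p x * δ)) := by
    rw [map_mul, map_mul, Complex.conj_ofNat]
    push_cast at hk ⊢
    linear_combination (8 * δ) * hk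
  rw [e, Complex.add_re, Complex.re_ofReal_mul, Complex.re_ofReal_mul]
  ring

/-- `∑_{j≥2} 2 (j-1) lam_j p^(tri j-1) = w conj Y0 RT(1) + (1-w)(1+x)/2 conj Y1 RT(x)`. -/
theorem sum_rt (J : ℕ) (p : ℂ) (w x : ℝ) (Y0 Y1 : ℂ) :
    ∑ j ∈ Finset.Ico 2 (J + 1), 2 * ((j : ℂ) - 1) * lam w x Y0 Y1 j * p ^ (tri j - 1) =
    (w : ℂ) * (conj Y0 * RT J p 1) + ((1 - w : ℝ) : ℂ) * (((1 + x) / 2 : ℝ) : ℂ) *
      (conj Y1 * RT J p x) := by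
  have h := ae_lam (Finset.Ico 2 (J + 1)) (fun j => 2 * ((j : ℂ) - 1) * p ^ (tri j - 1)) w x Y0 Y1
  have e : ∑ j ∈ Finset.Ico 2 (J + 1), 2 * ((j : ℂ) - 1) * lam w x Y0 Y1 j * p ^ (tri j - 1) =
      ∑ j ∈ Finset.Ico 2 (J + 1), lam w x Y0 Y1 j * (2 * ((j : ℂ) - 1) * p ^ (tri j - 1)) := by
    refine Finset.sum_congr rfl fun j _ => ?_
    ring
  rw [e]
  exact h

end Pool.Agent.MaxTerm8
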