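import Pool.Agent.MaxTerm8.UBounds

/-! Rational ball arithmetic in `ℂ`. -/

namespace Pool.Agent.MaxTerm8

open Complex ComplexConjugate

/-- a ball with rational centre and radius -/
structure Bl where
  re : ℚ
  im : ℚ
  rad : ℚ

namespace Bl

/-- centre -/
noncomputable def ctr (B : Bl) : ℂ := ⟨(B.re : ℝ), (B.im : ℝ)⟩

/-- membership -/
def Mem (B : Bl) (z : ℂ) : Prop := ‖z - B.ctr‖ ≤ (B.rad : ℝ)

/-- upper bound of the norm of the centre: `√(a^2+b^2) ≤ max + min/2` -/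
def nn (B : Bl) : ℚ := max |B.re| |B.im| + min |B.re| |B.im| / 2

def add (a b : Bl) : Bl := ⟨a.re + b.re, a.im + b.im, a.rad + b.rad⟩
def neg (a : Bl) : Bl := ⟨-a.re, -a.im, a.rad⟩
def sub (a b : Bl) : Bl := ⟨a.re - b.re, a.im - b.im, a.rad + b.rad⟩
def mul (a b : Bl) : Bl :=
  ⟨a.re * b.re - a.im * b.im, a.re * b.im + a.im * b.re, a.nn * b.rad + b.nn * a.rad + a.rad * b.rad⟩
def cj (a : Bl) : Bl := ⟨a.re, -a.im, a.rad⟩
/-- rational number -/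
def q (r : ℚ) : Bl := ⟨r, 0, 0⟩
/-- rational multiple -/
def sm (r : ℚ) (a : Bl) : Bl := ⟨r * a.re, r * a.im, |r| * a.rad⟩
/-- real part -/
def rl (a : Bl) : Bl := ⟨a.re, 0, a.rad⟩
/-- enlarge the radius -/
def wd (a : Bl) (r : ℚ) : Bl := ⟨a.re, a.im, a.rad + r⟩
def pw (a : Bl) : ℕ → Bl
  | 0 => ⟨1, 0, 0⟩
  | (n + 1) => mul (pw a n) a

instance : Add Bl := ⟨add⟩
instance : Sub Bl := ⟨sub⟩
instance : Neg Bl := ⟨neg⟩
instance : Mul Bl := ⟨mul⟩

theorem rad_nonneg {B : Bl} {z : ℂ} (h : B.Mem z) : 0 ≤ B.rad := by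
  have h1 : (0:ℝ) ≤ (B.rad : ℝ) := (norm_nonneg _).trans h
  exact_mod_cast h1

theorem ctr_norm (B : Bl) : ‖B.ctr‖ ≤ (B.nn : ℝ) := by
  have hsq : ‖B.ctr‖ ^ 2 = (B.re : ℝ) ^ 2 + (B.im : ℝ) ^ 2 := by
    rw [Complex.sq_norm, Complex.normSq_apply]
    simp only [ctr]
    ring
  have hnn : (B.nn : ℝ) = max |(B.re : ℝ)| |(B.im : ℝ)| + min |(B.re : ℝ)| |(B.im : ℝ)| / 2 := by
    unfold nn
    push_cast
    ring
  have h0 : 0 ≤ min |(B.re : ℝ)| |(B.im : ℝ)| := le_min (abs_nonneg _) (abs_nonneg _)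
  have h1 : min |(B.re : ℝ)| |(B.im : ℝ)| ≤ max |(B.re : ℝ)| |(B.im : ℝ)| := min_le_max
  have h2 : (B.re : ℝ) ^ 2 + (B.im : ℝ) ^ 2 =
      max |(B.re : ℝ)| |(B.im : ℝ)| ^ 2 + min |(B.re : ℝ)| |(B.im : ℝ)| ^ 2 := by
    rcases le_total |(B.re : ℝ)| |(B.im : ℝ)| with h | h
    · rw [max_eq_right h, min_eq_left h, sq_abs, sq_abs]
      ring
    · rw [max_eq_left h, min_eq_right h, sq_abs, sq_abs]
  rw [hnn]
  generalize max |(B.re : ℝ)| |(B.im : ℝ)| = M at *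
  generalize min |(B.re : ℝ)| |(B.im : ℝ)| = m at *
  refine abs_le_of_sq_le_sq' ?_ (by linarith) |>.2
  rw [hsq, h2]
  nlinarith

private theorem ctr_add (a b : Bl) : (a + b).ctr = a.ctr + b.ctr := by
  show ctr ⟨a.re + b.re, a.im + b.im, a.rad + b.rad⟩ = _
  apply Complex.ext <;> simp [ctr]

private theorem ctr_sub (a b : Bl) : (a - b).ctr = a.ctr - b.ctr := by
  show ctr ⟨a.re - b.re, a.im - b.im, a.rad + b.rad⟩ = _
  apply Complex.ext <;> simp [ctr]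

private theorem ctr_neg (a : Bl) : (-a).ctr = -a.ctr := by
  show ctr ⟨-a.re, -a.im, a.rad⟩ = _
  apply Complex.ext <;> simp [ctr]

private theorem ctr_mul (a b : Bl) : (a * b).ctr = a.ctr * b.ctr := by
  show ctr ⟨a.re * b.re - a.im * b.im, a.re * b.im + a.im * b.re, _⟩ = _
  apply Complex.ext <;> simp [ctr]

theorem mem_add {a b : Bl} {z w : ℂ} (h1 : a.Mem z) (h2 : b.Mem w) : (a + b).Mem (z + w) := by
  unfold Mem at *
  have e : (a + b).rad = a.rad + b.rad := rfl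
  rw [ctr_add, e]
  push_cast
  have : z + w - (a.ctr + b.ctr) = (z - a.ctr) + (w - b.ctr) := by ring
  rw [this]
  exact (norm_add_le _ _).trans (add_le_add h1 h2)

theorem mem_sub {a b : Bl} {z w : ℂ} (h1 : a.Mem z) (h2 : b.Mem w) : (a - b).Mem (z - w) := by
  unfold Mem at *
  have e : (a - b).rad = a.rad + b.rad := rfl
  rw [ctr_sub, e]
  push_cast
  have : z - w - (a.ctr - b.ctr) = (z - a.ctr) - (w - b.ctr) := by ring
  rw [this]
  exact (norm_sub_le _ _).trans (add_le_add h1 h2)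

theorem mem_neg {a : Bl} {z : ℂ} (h1 : a.Mem z) : (-a).Mem (-z) := by
  unfold Mem at *
  have e : (-a).rad = a.rad := rfl
  rw [ctr_neg, e]
  have : -z - -a.ctr = -(z - a.ctr) := by ring
  rw [this, norm_neg]
  exact h1

/-- `‖zw - c d‖ ≤ ‖c‖ ‖w - d‖ + ‖d‖ ‖z - c‖ + ‖z - c‖ ‖w - d‖`. -/
theorem mem_mul {a b : Bl} {z w : ℂ} (h1 : a.Mem z) (h2 : b.Mem w) : (a * b).Mem (z * w) := by
  have ha := ctr_norm a
  have hb := ctr_norm b
  unfold Mem at *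
  have e : (a * b).rad = a.nn * b.rad + b.nn * a.rad + a.rad * b.rad := rfl
  rw [ctr_mul, e]
  push_cast
  have : z * w - a.ctr * b.ctr =
      a.ctr * (w - b.ctr) + b.ctr * (z - a.ctr) + (z - a.ctr) * (w - b.ctr) := by ring
  rw [this]
  have hra : (0:ℝ) ≤ (a.rad : ℝ) := (norm_nonneg _).trans h1
  refine (norm_add₃_le).trans ?_
  rw [norm_mul, norm_mul, norm_mul]
  exact add_le_add (add_le_add (mul_le_mul ha h2 (norm_nonneg _) ((norm_nonneg _).trans ha))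
    (mul_le_mul hb h1 (norm_nonneg _) ((norm_nonneg _).trans hb)))
    (mul_le_mul h1 h2 (norm_nonneg _) hra)

theorem mem_cj {a : Bl} {z : ℂ} (h1 : a.Mem z) : a.cj.Mem (conj z) := by
  unfold Mem at *
  have e : (a.cj).rad = a.rad := rfl
  have e2 : (a.cj).ctr = conj a.ctr := by
    apply Complex.ext <;> simp [ctr, cj]
  rw [e, e2, ← map_sub, Complex.norm_conj]
  exact h1

theorem mem_q (r : ℚ) : (q r).Mem ((r : ℝ) : ℂ) := by
  unfold Mem
  have e2 : (q r).ctr = ((r : ℝ) : ℂ) := by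
    apply Complex.ext <;> simp [ctr, q]
  rw [e2, sub_self, norm_zero]
  simp [q]

theorem mem_sm (r : ℚ) {a : Bl} {z : ℂ} (h1 : a.Mem z) : (sm r a).Mem (((r : ℝ) : ℂ) * z) := by
  unfold Mem at *
  have e2 : (sm r a).ctr = ((r : ℝ) : ℂ) * a.ctr := by
    apply Complex.ext <;> simp [ctr, sm]
  have e : ((sm r a).rad : ℝ) = |(r : ℝ)| * (a.rad : ℝ) := by simp [sm]
  rw [e2, e, ← mul_sub, norm_mul, Complex.norm_real, Real.norm_eq_abs]
  exact mul_le_mul_of_nonneg_left h1 (abs_nonneg _)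

theorem mem_rl {a : Bl} {z : ℂ} (h1 : a.Mem z) : a.rl.Mem ((z.re : ℝ) : ℂ) := by
  unfold Mem at *
  have e2 : ((z.re : ℝ) : ℂ) - (a.rl).ctr = (((z - a.ctr).re : ℝ) : ℂ) := by
    apply Complex.ext <;> simp [ctr, rl]
  have e : (a.rl).rad = a.rad := rfl
  rw [e2, e, Complex.norm_real, Real.norm_eq_abs]
  exact (Complex.abs_re_le_norm _).trans h1

theorem mem_wd {a : Bl} {z w : ℂ} (r : ℚ) (h1 : a.Mem z) (h2 : ‖w - z‖ ≤ (r : ℝ)) :
    (a.wd r).Mem w := by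
  unfold Mem at *
  have e2 : (a.wd r).ctr = a.ctr := rfl
  have e : ((a.wd r).rad : ℝ) = (a.rad : ℝ) + (r : ℝ) := by simp [wd]
  rw [e2, e]
  have : w - a.ctr = (z - a.ctr) + (w - z) := by ring
  rw [this]
  exact (norm_add_le _ _).trans (add_le_add h1 h2)

theorem mem_pw {a : Bl} {z : ℂ} (h1 : a.Mem z) (n : ℕ) : (a.pw n).Mem (z ^ n) := by
  induction n with
  | zero =>
    unfold Mem pw
    have e2 : (⟨1, 0, 0⟩ : Bl).ctr = 1 := by
      apply Complex.ext <;> simp [ctr]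
    rw [e2, pow_zero, sub_self, norm_zero]
    simp
  | succ n ih =>
    rw [pow_succ]
    exact mem_mul ih h1

/-- bounds for the real part and the norm -/
theorem re_le {a : Bl} {z : ℂ} (h1 : a.Mem z) : z.re ≤ ((a.re + a.rad : ℚ) : ℝ) := by
  have h2 : (z - a.ctr).re ≤ (a.rad : ℝ) := (Complex.re_le_norm _).trans h1
  have h3 : (z - a.ctr).re = z.re - (a.re : ℝ) := by simp [ctr]
  push_cast
  linarith

theorem le_re {a : Bl} {z : ℂ} (h1 : a.Mem z) : ((a.re - a.rad : ℚ) : ℝ) ≤ z.re := by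
  have h2 : -(a.rad : ℝ) ≤ (z - a.ctr).re := by
    have := (abs_le.mp ((Complex.abs_re_le_norm _).trans h1)).1
    exact this
  have h3 : (z - a.ctr).re = z.re - (a.re : ℝ) := by simp [ctr]
  push_cast
  linarith

theorem norm_le {a : Bl} {z : ℂ} (h1 : a.Mem z) (s : ℚ) (hs : 0 ≤ s)
    (h : a.re ^ 2 + a.im ^ 2 ≤ s ^ 2) : ‖z‖ ≤ ((s + a.rad : ℚ) : ℝ) := by
  have hsq : ‖a.ctr‖ ^ 2 = (a.re : ℝ) ^ 2 + (a.im : ℝ) ^ 2 := by
    rw [Complex.sq_norm, Complex.normSq_apply]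
    simp only [ctr]
    ring
  have h2 : ‖a.ctr‖ ≤ (s : ℝ) := by
    refine abs_le_of_sq_le_sq' ?_ (by exact_mod_cast hs) |>.2
    rw [hsq]
    exact_mod_cast h
  have h3 : z = a.ctr + (z - a.ctr) := by ring
  push_cast
  calc ‖z‖ = ‖a.ctr + (z - a.ctr)‖ := by rw [← h3]
    _ ≤ ‖a.ctr‖ + ‖z - a.ctr‖ := norm_add_le _ _
    _ ≤ s + a.rad := add_le_add h2 h1

end Bl

end Pool.Agent.MaxTerm8
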