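import Pool.Agent.MaxTerm8.CellGen

/-! Soundness of the cell checker, type C. -/

namespace Pool.Agent.MaxTerm8

open Complex ComplexConjugate

/-- Type C. -/
theorem ca_sound_C (B : Bx) (z : CA) (h : CA.chk B z = true) (hz : z.L = false) (a b u v : ℂ)
    (hc : B.Mem ((a + b) / 2)) (ha : ‖a‖ ≤ 17 / 50) (hb : ‖b‖ ≤ 17 / 50)
    (hd : |((a - b) / 2).im| ≤ 35 / 1000) :
    kp + 1 / 1000000 ≤
    Phi (lam z.w z.x z.Y0.toC z.Y1.toC 0) (lam z.w z.x z.Y0.toC z.Y1.toC 1)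
      (lam z.w z.x z.Y0.toC z.Y1.toC 2) 0 (4 * mm3 * oo ^ 5) 0 gg oo
      (nu z.w z.x z.Y0.toC z.Y1.toC) (sg z.w z.x 1) (sg z.w z.x 2) (13 / 20) (9 / 20) 0
      (101 / 100 * (7 / 100 + (3 * (9 / 2000) + 73 / 100000)) + 1 / 100)
      (927 / 10000) (927 / 10000) (45 / 1000000) (23 / 10000) a b u v := by
  have key := ca_sound_gen B z h a b u v hc ha hb hd
  have hz' : ¬ (z.L = true) := by rw [hz]; decide
  have hzero : GQ.toC ⟨0, 0⟩ = 0 := by
    apply Complex.ext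
    · show ((0 : ℚ) : ℝ) = 0
      push_cast
      rfl
    · show ((0 : ℚ) : ℝ) = 0
      push_cast
      rfl
  have e0 : z.t0.toC = 0 := by
    unfold CA.t0
    rw [if_neg hz', hzero]
  have e1 : z.t1.toC = 4 * mm3 * oo ^ 5 := by
    unfold CA.t1
    rw [if_neg hz', GQ.toC_mul, GQ.toC_sm, GQ.toC_pw, oQ_toC, m3Q_toC]
    push_cast
    ring
  have e2 : z.t2.toC = 0 := by
    unfold CA.t2
    rw [if_neg hz', hzero]
  have e3 : ((z.r0 : ℚ) : ℝ) = 0 := by
    unfold CA.r0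
    rw [if_neg hz']
    push_cast
    rfl
  have e4 : ((z.r1 : ℚ) : ℝ) =
      101 / 100 * (7 / 100 + (3 * (9 / 2000) + 73 / 100000)) + 1 / 100 := by
    unfold CA.r1
    rw [if_neg hz']
    push_cast
    ring
  have e5 : ((z.rd : ℚ) : ℝ) = 927 / 10000 := by
    unfold CA.rd
    rw [if_neg hz']
    push_cast
    ring
  have e6 : ((z.rcc : ℚ) : ℝ) = 927 / 10000 := by
    unfold CA.rcc
    rw [if_neg hz']
    push_cast
    ring
  have e7 : ((z.e0 : ℚ) : ℝ) = 45 / 1000000 := by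
    unfold CA.e0
    rw [if_neg hz']
    push_cast
    ring
  rw [e0, e1, e2, e3, e4, e5, e6, e7] at key
  exact key

end Pool.Agent.MaxTerm8
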