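import Pool.Agent.MaxTerm8.XForm

/-! The dual form of the corner inequality. -/

namespace Pool.Agent.MaxTerm8

open Complex ComplexConjugate

private theorem dual_uu_one (j : ℕ) : UU (1 : ℝ) j = 1 ∧ UU (1 : ℝ) (j + 1) = 1 := by
  induction j with
  | zero =>
    refine ⟨rfl, ?_⟩
    show (2 * 1 - 1 : ℝ) = 1
    norm_num
  | succ n ih =>
    refine ⟨ih.2, ?_⟩
    show (2 * 1 * UU (1 : ℝ) (n + 1) - UU (1 : ℝ) n : ℝ) = 1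
    rw [ih.1, ih.2]
    norm_num

private theorem dual_split {E : Type*} [AddCommMonoid E] (J : ℕ) (hJ : 2 ≤ J) (f : ℕ → E) :
    ∑ j ∈ Finset.range (J + 1), f j = f 0 + f 1 + ∑ j ∈ Finset.Ico 2 (J + 1), f j := by
  rw [Finset.range_eq_Ico, Finset.sum_eq_sum_Ico_succ_bot (by omega),
    Finset.sum_eq_sum_Ico_succ_bot (by omega), ← add_assoc]

private theorem dual_sq (Y Z : ℂ) : 2 * (conj Y * Z).re - ‖Y‖ ^ 2 ≤ ‖Z‖ ^ 2 := by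
  rw [Complex.sq_norm, Complex.sq_norm, Complex.normSq_apply, Complex.normSq_apply,
    Complex.mul_re, Complex.conj_re, Complex.conj_im]
  nlinarith [sq_nonneg (Z.re - Y.re), sq_nonneg (Z.im - Y.im)]

private theorem dual_odd (v : ℝ) (B R : ℂ) :
    v ^ 2 * ‖B‖ ^ 2 + 2 * v * (conj B * R).re ≤ ‖B * (v : ℂ) + R‖ ^ 2 := by
  rw [Complex.sq_norm, Complex.sq_norm, Complex.normSq_apply, Complex.normSq_apply,
    Complex.mul_re, Complex.conj_re, Complex.conj_im, Complex.add_re, Complex.add_im,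
    Complex.re_mul_ofReal, Complex.im_mul_ofReal]
  nlinarith [sq_nonneg R.re, sq_nonneg R.im]

/-- Use `XIneq` at `X = 1` (weight `w`) and `X = x` (weight `1-w`). `‖2E‖`-type terms:
`‖Z‖^2 ≥ 2 Re (conj Y * Z) - ‖Y‖^2`; for the odd part
`‖V₁B₁ + ∑_{j≥2} V_j B_j‖^2 ≥ V₁^2‖B₁‖^2 + 2 V₁ ∑_{j≥2} V_j Re (conj B₁ * B_j)`,
`B_j = TL - TR`, `B_0 = 0`, `B_1 = ψ k - ψ (k+1)`. -/
theorem dual (J : ℕ) (hJ : 2 ≤ J) (ψ : ℤ → ℂ) (k : ℤ) (M : ℝ) (h : XIneq J ψ k M) (w x : ℝ)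
    (Y0 Y1 : ℂ) (hw0 : 0 ≤ w) (hw1 : w ≤ 1) (hx0 : -1 ≤ x) (hx1 : x ≤ 1) :
    4 * (lam w x Y0 Y1 0).re + 2 * (lam w x Y0 Y1 1 * (ψ k + ψ (k + 1))).re +
    (∑ j ∈ Finset.Ico 2 (J + 1), 2 * (lam w x Y0 Y1 j * (TL ψ k j + TR ψ k j)).re) -
    nu w x Y0 Y1 + sg w x 1 * ‖ψ k - ψ (k + 1)‖ ^ 2 +
    (∑ j ∈ Finset.Ico 2 (J + 1), 2 * sg w x j *
      (conj (ψ k - ψ (k + 1)) * (TL ψ k j - TR ψ k j)).re) ≤ M := by
  obtain ⟨t0, t0', t1, t1', -, -⟩ := tl_small ψ k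
  have h1 := h 1 (by norm_num) le_rfl
  have hx := h x hx0 hx1
  rw [show ((1 + 1) / 2 : ℝ) = 1 by norm_num, show ((1 - 1) / 2 : ℝ) = 0 by norm_num, one_mul,
    zero_mul, add_zero] at h1
  obtain ⟨Z0, hZ0⟩ : ∃ Z : ℂ, Z = ∑ j ∈ Finset.range (J + 1),
    (TL ψ k j + TR ψ k j) * ((UU (1 : ℝ) j : ℝ) : ℂ) := ⟨_, rfl⟩
  obtain ⟨Z1, hZ1⟩ : ∃ Z : ℂ, Z = ∑ j ∈ Finset.range (J + 1),
    (TL ψ k j + TR ψ k j) * ((UU x j : ℝ) : ℂ) := ⟨_, rfl⟩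
  obtain ⟨R, hR⟩ : ∃ R : ℂ, R = ∑ j ∈ Finset.Ico 2 (J + 1),
    (TL ψ k j - TR ψ k j) * ((VV x j : ℝ) : ℂ) := ⟨_, rfl⟩
  rw [← hZ0] at h1
  rw [← hZ1, dual_split J hJ (fun j => (TL ψ k j - TR ψ k j) * ((VV x j : ℝ) : ℂ)), ← hR, t0, t0',
    t1, t1', sub_self, zero_mul, zero_add] at hx
  -- the even part
  have e1 : (∑ j ∈ Finset.range (J + 1), lam w x Y0 Y1 j * (TL ψ k j + TR ψ k j)) =
      (w : ℂ) * (conj Y0 * Z0) + (((1 - w) * ((1 + x) / 2) : ℝ) : ℂ) * (conj Y1 * Z1) := by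
    rw [hZ0, hZ1, Finset.mul_sum, Finset.mul_sum, Finset.mul_sum, Finset.mul_sum,
      ← Finset.sum_add_distrib]
    refine Finset.sum_congr rfl fun j _ => ?_
    rw [(dual_uu_one j).1]
    unfold lam
    push_cast
    ring
  have e2 := congrArg Complex.re e1
  rw [Complex.add_re, Complex.re_ofReal_mul, Complex.re_ofReal_mul, Complex.re_sum,
    dual_split J hJ (fun j => (lam w x Y0 Y1 j * (TL ψ k j + TR ψ k j)).re), t0, t0', t1, t1'] at e2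
  have e3 : (lam w x Y0 Y1 0 * (1 + 1)).re = 2 * (lam w x Y0 Y1 0).re := by
    rw [show (1 + 1 : ℂ) = ((2 : ℝ) : ℂ) by push_cast; norm_num, Complex.re_mul_ofReal]
    ring
  rw [e3] at e2
  -- the odd part
  have e4 : (∑ j ∈ Finset.Ico 2 (J + 1), 2 * sg w x j *
      (conj (ψ k - ψ (k + 1)) * (TL ψ k j - TR ψ k j)).re) =
      (1 - w) * ((1 - x) / 2) * (2 * VV x 1 * (conj (ψ k - ψ (k + 1)) * R).re) := by
    have e5 : (conj (ψ k - ψ (k + 1)) * R).re = ∑ j ∈ Finset.Ico 2 (J + 1),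
        VV x j * (conj (ψ k - ψ (k + 1)) * (TL ψ k j - TR ψ k j)).re := by
      rw [hR, Finset.mul_sum, Complex.re_sum]
      refine Finset.sum_congr rfl fun j _ => ?_
      rw [← mul_assoc, Complex.re_mul_ofReal]
      ring
    rw [e5, Finset.mul_sum, Finset.mul_sum]
    refine Finset.sum_congr rfl fun j _ => ?_
    unfold sg
    ring
  have e6 : (∑ j ∈ Finset.Ico 2 (J + 1), 2 * (lam w x Y0 Y1 j * (TL ψ k j + TR ψ k j)).re) =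
      2 * ∑ j ∈ Finset.Ico 2 (J + 1), (lam w x Y0 Y1 j * (TL ψ k j + TR ψ k j)).re := by
    rw [Finset.mul_sum]
  rw [e4, e6]
  have i1 := dual_sq Y0 Z0
  have i2 := dual_sq Y1 Z1
  have i3 := dual_odd (VV x 1) (ψ k - ψ (k + 1)) R
  have hw1' : 0 ≤ 1 - w := by linarith
  have hp1 : 0 ≤ (1 + x) / 2 := by linarith
  have hp2 : 0 ≤ (1 - x) / 2 := by linarith
  have j1 := mul_le_mul_of_nonneg_left (i1.trans h1) hw0
  have j2 := mul_le_mul_of_nonneg_left i2 hp1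
  have j3 := mul_le_mul_of_nonneg_left i3 hp2
  have j4 : (1 + x) / 2 * (2 * (conj Y1 * Z1).re - ‖Y1‖ ^ 2) + (1 - x) / 2 *
      (VV x 1 ^ 2 * ‖ψ k - ψ (k + 1)‖ ^ 2 + 2 * VV x 1 * (conj (ψ k - ψ (k + 1)) * R).re) ≤ M := by
    linarith
  have j5 := mul_le_mul_of_nonneg_left j4 hw1'
  unfold nu sg
  nlinarith

/-- The case `J = 2`. -/
theorem dual2 (ψ : ℤ → ℂ) (k : ℤ) (M : ℝ) (h : XIneq 2 ψ k M) (w x : ℝ)
    (Y0 Y1 : ℂ) (hw0 : 0 ≤ w) (hw1 : w ≤ 1) (hx0 : -1 ≤ x) (hx1 : x ≤ 1) :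
    4 * (lam w x Y0 Y1 0).re + 2 * (lam w x Y0 Y1 1 * (ψ k + ψ (k + 1))).re +
    2 * (lam w x Y0 Y1 2 * (ψ k ^ 2 * ψ (k - 1) + ψ (k + 1) ^ 2 * ψ (k + 2))).re -
    nu w x Y0 Y1 + sg w x 1 * ‖ψ k - ψ (k + 1)‖ ^ 2 + 2 * sg w x 2 *
      (conj (ψ k - ψ (k + 1)) * (ψ k ^ 2 * ψ (k - 1) - ψ (k + 1) ^ 2 * ψ (k + 2))).re ≤ M := by
  have h1 := dual 2 le_rfl ψ k M h w x Y0 Y1 hw0 hw1 hx0 hx1
  obtain ⟨-, -, -, -, t2, t2'⟩ := tl_small ψ k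
  rw [show Finset.Ico 2 (2 + 1) = {2} from rfl, Finset.sum_singleton, Finset.sum_singleton, t2,
    t2'] at h1
  exact h1

end Pool.Agent.MaxTerm8
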