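import Pool.Agent.MaxTerm8.XForm

/-! The dual form for the theta function, bounds for the moments. -/

namespace Pool.Agent.MaxTerm8

open Complex ComplexConjugate

private theorem dualC_uu_one (j : ℕ) : UU (1 : ℝ) j = 1 ∧ UU (1 : ℝ) (j + 1) = 1 := by
  induction j with
  | zero =>
    refine ⟨rfl, ?_⟩
    show (2 * 1 - 1 : ℝ) = 1
    norm_num
  | succ n ih =>
    refine ⟨ih.2, ?_⟩
    show (2 * 1 * UU (1 : ℝ) (n + 1) - UU (1 : ℝ) n : ℝ) = 1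
    rw [ih.1, ih.2]
    norm_num

private theorem dualC_sq (Y Z : ℂ) : 2 * (conj Y * Z).re - ‖Y‖ ^ 2 ≤ ‖Z‖ ^ 2 := by
  rw [Complex.sq_norm, Complex.sq_norm, Complex.normSq_apply, Complex.normSq_apply,
    Complex.mul_re, Complex.conj_re, Complex.conj_im]
  nlinarith [sq_nonneg (Z.re - Y.re), sq_nonneg (Z.im - Y.im)]

/-- The same for the theta function: `‖2 PP‖^2 ≥ 2 Re (conj Y * 2 PP) - ‖Y‖^2`. -/
theorem dual_const (J : ℕ) (q : ℂ) (κ : ℝ) (h : ∀ X : ℝ, -1 ≤ X → X ≤ 1 → GJ J q X ≤ κ) (w x : ℝ)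
    (Y0 Y1 : ℂ) (hw0 : 0 ≤ w) (hw1 : w ≤ 1) (hx0 : -1 ≤ x) (hx1 : x ≤ 1) :
    4 * (∑ j ∈ Finset.range (J + 1), lam w x Y0 Y1 j * q ^ tri j).re - nu w x Y0 Y1 ≤ κ := by
  have h1 := h 1 (by norm_num) le_rfl
  have hx := h x hx0 hx1
  unfold GJ at h1 hx
  rw [show ((1 + 1) / 2 : ℝ) = 1 by norm_num, one_mul] at h1
  have e1 : (∑ j ∈ Finset.range (J + 1), lam w x Y0 Y1 j * q ^ tri j) =
      (w : ℂ) * (conj Y0 * PP J q 1) +
        (((1 - w) * ((1 + x) / 2) : ℝ) : ℂ) * (conj Y1 * PP J q x) := by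
    unfold PP
    rw [Finset.mul_sum, Finset.mul_sum, Finset.mul_sum, Finset.mul_sum,
      ← Finset.sum_add_distrib]
    refine Finset.sum_congr rfl fun j _ => ?_
    rw [(dualC_uu_one j).1]
    unfold lam
    push_cast
    ring
  rw [e1, Complex.add_re, Complex.re_ofReal_mul, Complex.re_ofReal_mul]
  have i1 := dualC_sq Y0 (2 * PP J q 1)
  have i2 := dualC_sq Y1 (2 * PP J q x)
  have c1 : ∀ Y Z : ℂ, (conj Y * (2 * Z)).re = 2 * (conj Y * Z).re := by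
    intro Y Z
    rw [show conj Y * (2 * Z) = ((2 : ℝ) : ℂ) * (conj Y * Z) by push_cast; ring,
      Complex.re_ofReal_mul]
  rw [c1] at i1 i2
  have hw1' : 0 ≤ 1 - w := by linarith
  have hp1 : 0 ≤ (1 + x) / 2 := by linarith
  have j1 := mul_le_mul_of_nonneg_left (i1.trans h1) hw0
  have j2 := (mul_le_mul_of_nonneg_left i2 hp1).trans hx
  have j3 := mul_le_mul_of_nonneg_left j2 hw1'
  unfold nu
  nlinarith

/-- `‖lam j‖ ≤ √nu`: `‖lam j‖ ≤ w ‖Y0‖ + (1-w) √((1+x)/2) ‖Y1‖ * (√((1+x)/2) |UU x j|)` and `uu_bound`,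
then Cauchy-Schwarz with the weights `w, 1-w`. -/
theorem lam_bound (w x : ℝ) (Y0 Y1 : ℂ) (hw0 : 0 ≤ w) (hw1 : w ≤ 1) (hx0 : -1 ≤ x) (hx1 : x ≤ 1)
    (hn : nu w x Y0 Y1 ≤ 361 / 100) (j : ℕ) : ‖lam w x Y0 Y1 j‖ ≤ 19 / 10 := by
  have hw1' : 0 ≤ 1 - w := by linarith
  have he : 0 ≤ (1 + x) / 2 := by linarith
  have hu := uu_bound x hx0 hx1 j
  have h1 : ‖lam w x Y0 Y1 j‖ ≤ w * ‖Y0‖ + (1 - w) * ((1 + x) / 2 * |UU x j| * ‖Y1‖) := by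
    unfold lam
    refine (norm_add_le _ _).trans ?_
    rw [norm_mul, norm_mul, Complex.norm_real, Complex.norm_real, Real.norm_of_nonneg hw0,
      Real.norm_eq_abs, abs_mul, abs_of_nonneg (mul_nonneg hw1' he), RCLike.norm_conj,
      RCLike.norm_conj]
    linarith
  obtain ⟨a, ha⟩ : ∃ a : ℝ, a = ‖Y0‖ := ⟨_, rfl⟩
  obtain ⟨b, hb⟩ : ∃ b : ℝ, b = ‖Y1‖ := ⟨_, rfl⟩
  obtain ⟨u, hu'⟩ : ∃ u : ℝ, u = |UU x j| := ⟨_, rfl⟩
  obtain ⟨e, he'⟩ : ∃ e : ℝ, e = (1 + x) / 2 := ⟨_, rfl⟩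
  unfold nu at hn
  rw [← ha, ← hb, ← he'] at hn
  rw [← ha, ← hb, ← hu', ← he'] at h1
  rw [← sq_abs, ← hu', ← he'] at hu
  rw [← he'] at he
  have ha0 : 0 ≤ a := by rw [ha]; exact norm_nonneg _
  have hb0 : 0 ≤ b := by rw [hb]; exact norm_nonneg _
  have hu0 : 0 ≤ u := by rw [hu']; exact abs_nonneg _
  obtain ⟨c, hc⟩ : ∃ c : ℝ, c = e * u * b := ⟨_, rfl⟩
  rw [← hc] at h1
  have hc2 : c ^ 2 ≤ e * b ^ 2 := by
    have e1 : c ^ 2 = (e * b ^ 2) * (e * u ^ 2) := by rw [hc]; ring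
    rw [e1]
    have e2 : 0 ≤ e * b ^ 2 := by positivity
    calc (e * b ^ 2) * (e * u ^ 2) ≤ (e * b ^ 2) * 1 := mul_le_mul_of_nonneg_left hu e2
      _ = e * b ^ 2 := mul_one _
  have h2 : (w * a + (1 - w) * c) ^ 2 ≤ 361 / 100 := by
    have e1 : (w * a + (1 - w) * c) ^ 2 =
        w * a ^ 2 + (1 - w) * c ^ 2 - w * (1 - w) * (a - c) ^ 2 := by ring
    have e2 : 0 ≤ w * (1 - w) * (a - c) ^ 2 := by positivity
    have e3 := mul_le_mul_of_nonneg_left hc2 hw1'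
    nlinarith
  have h3 : ‖lam w x Y0 Y1 j‖ ^ 2 ≤ 361 / 100 :=
    (pow_le_pow_left₀ (norm_nonneg _) h1 2).trans h2
  nlinarith [norm_nonneg (lam w x Y0 Y1 j)]

/-- `|sg j| ≤ 1` by `vv_bound` for `1` and `j`. -/
theorem sg_bound (w x : ℝ) (hw0 : 0 ≤ w) (hw1 : w ≤ 1) (hx0 : -1 ≤ x) (hx1 : x ≤ 1) (j : ℕ) :
    |sg w x j| ≤ 1 := by
  have hw1' : 0 ≤ 1 - w := by linarith
  have he : 0 ≤ (1 - x) / 2 := by linarith
  have h1 := vv_bound x hx0 hx1 1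
  have h2 := vv_bound x hx0 hx1 j
  unfold sg
  rw [abs_mul, abs_of_nonneg (mul_nonneg hw1' he)]
  have h3 : |VV x 1 * VV x j| ≤ (VV x 1 ^ 2 + VV x j ^ 2) / 2 := by
    rw [abs_le]
    constructor
    · nlinarith [sq_nonneg (VV x 1 + VV x j)]
    · nlinarith [sq_nonneg (VV x 1 - VV x j)]
  have h4 := mul_le_mul_of_nonneg_left h3 he
  have h5 : (1 - x) / 2 * |VV x 1 * VV x j| ≤ 1 := by nlinarith
  have h6 : 0 ≤ (1 - x) / 2 * |VV x 1 * VV x j| := mul_nonneg he (abs_nonneg _)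
  calc (1 - w) * ((1 - x) / 2) * |VV x 1 * VV x j| =
        (1 - w) * ((1 - x) / 2 * |VV x 1 * VV x j|) := by ring
    _ ≤ 1 * 1 := mul_le_mul (by linarith) h5 h6 zero_le_one
    _ = 1 := mul_one 1

end Pool.Agent.MaxTerm8
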