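import Pool.Agent.MaxTerm8.Defs

/-! Numerical bounds for the tail sums (`R = 17/50`, `‖λ_j‖ ≤ 19/10`, `|σ_j| ≤ 1`). -/

namespace Pool.Agent.MaxTerm8

/-- `r'_j` with `‖λ_j‖` replaced by `19/10` -/
noncomputable def rp (j : ℕ) : ℝ := ((tri j : ℝ) - 1) * (17 / 50) ^ (tri j - 2) * (19 / 10)

/-- `r_j` with `‖λ_j‖`, `|σ_j|` replaced by `19/10`, `1` -/
noncomputable def rr (j : ℕ) : ℝ := rp j + 2 * (17 / 50) ^ (tri j - 1)

private theorem tri_succ (j : ℕ) : tri (j + 1) = tri j + (j + 1) := by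
  unfold tri
  have h : (j + 1) * (j + 1 + 1) = j * (j + 1) + (j + 1) * 2 := by ring
  rw [h, Nat.add_mul_div_right _ _ (by norm_num)]

private theorem tri_ge (j : ℕ) (hj : 5 ≤ j) : 15 ≤ tri j := by
  induction j, hj using Nat.le_induction with
  | base => decide
  | succ n hn ih => rw [tri_succ]; omega

private theorem tri_cast (j : ℕ) : (tri j : ℝ) = (j : ℝ) * (j + 1) / 2 := by
  have h : tri j * 2 = j * (j + 1) := by
    unfold tri
    exact Nat.div_mul_cancel (Nat.even_mul_succ_self j).two_dvd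
  have h2 : (tri j : ℝ) * 2 = (j : ℝ) * (j + 1) := by exact_mod_cast h
  linarith

/-- `x_j = (17/50)^(tri j - 2)` satisfies `x_{j+1} = x_j (17/50)^(j+1)` -/
private theorem pow_step (j : ℕ) (hj : 5 ≤ j) :
    (17 / 50 : ℝ) ^ (tri (j + 1) - 2) = (17 / 50) ^ (tri j - 2) * (17 / 50) ^ (j + 1) := by
  rw [← pow_add]
  congr 1
  have := tri_ge j hj
  rw [tri_succ]
  omega

private theorem pow_small (j : ℕ) (hj : 5 ≤ j) : (17 / 50 : ℝ) ^ (j + 1) ≤ 1 / 600 := by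
  have h : (17 / 50 : ℝ) ^ (j + 1) ≤ (17 / 50) ^ 6 :=
    pow_le_pow_of_le_one (by norm_num) (by norm_num) (by omega)
  exact h.trans (by norm_num)

/-- The basic decay: `(17/50)^(tri j - 2) ≤ (17/50)^13 * (1/600)^(j-5)` -/
private theorem pow_bound (j : ℕ) (hj : 5 ≤ j) :
    (17 / 50 : ℝ) ^ (tri j - 2) ≤ (17 / 50) ^ 13 * (1 / 600) ^ (j - 5) := by
  induction j, hj using Nat.le_induction with
  | base => norm_num [tri]
  | succ n hn ih =>
    have e : n + 1 - 5 = (n - 5) + 1 := by omega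
    have e2 : (17 / 50 : ℝ) ^ 13 * (1 / 600) ^ (n + 1 - 5) =
        (17 / 50) ^ 13 * (1 / 600) ^ (n - 5) * (1 / 600) := by
      rw [e]; ring
    rw [pow_step n hn, e2]
    exact mul_le_mul ih (pow_small n hn) (by positivity) (by positivity)

private theorem pow_eq (j : ℕ) (hj : 5 ≤ j) :
    (17 / 50 : ℝ) ^ (tri j - 1) = (17 / 50) ^ (tri j - 2) * (17 / 50) := by
  rw [← pow_succ]
  congr 1
  have := tri_ge j hj
  omega

/-- polynomial factors are eaten: `j^k * (1/600)^(j-5) ≤ 5^k (1/150)^(j-5)` for `k ≤ 3`;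
here in the form of a geometric majorant -/
private theorem poly_bound (j : ℕ) (hj : 5 ≤ j) :
    (j : ℝ) ^ 3 * (1 / 600) ^ (j - 5) ≤ 125 * (1 / 300) ^ (j - 5) := by
  induction j, hj using Nat.le_induction with
  | base => norm_num
  | succ n hn ih =>
    have e : n + 1 - 5 = (n - 5) + 1 := by omega
    rw [e, pow_succ, pow_succ]
    have hn' : (5 : ℝ) ≤ n := by exact_mod_cast hn
    have h1 : ((n + 1 : ℕ) : ℝ) ^ 3 ≤ 2 * (n : ℝ) ^ 3 := by
      push_cast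
      nlinarith [mul_self_nonneg ((n : ℝ) - 5), mul_nonneg (sub_nonneg.mpr hn')
        (mul_self_nonneg (n : ℝ)), mul_nonneg (sub_nonneg.mpr hn') (by positivity : (0:ℝ) ≤ n)]
    have h2 : (0 : ℝ) ≤ (1 / 600) ^ (n - 5) := by positivity
    calc ((n + 1 : ℕ) : ℝ) ^ 3 * ((1 / 600) ^ (n - 5) * (1 / 600))
        ≤ 2 * (n : ℝ) ^ 3 * ((1 / 600) ^ (n - 5) * (1 / 600)) :=
          mul_le_mul_of_nonneg_right h1 (by positivity)
      _ = (n : ℝ) ^ 3 * (1 / 600) ^ (n - 5) * (1 / 300) := by ring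
      _ ≤ 125 * (1 / 300) ^ (n - 5) * (1 / 300) :=
          mul_le_mul_of_nonneg_right ih (by norm_num)
      _ = _ := by ring

/-- main estimate: `j^3 (17/50)^(tri j - 2) ≤ 125 (17/50)^13 (1/300)^(j-5)` -/
private theorem main_bound (j : ℕ) (hj : 5 ≤ j) :
    (j : ℝ) ^ 3 * (17 / 50) ^ (tri j - 2) ≤ 125 * (17 / 50) ^ 13 * (1 / 300) ^ (j - 5) := by
  calc (j : ℝ) ^ 3 * (17 / 50) ^ (tri j - 2)
      ≤ (j : ℝ) ^ 3 * ((17 / 50) ^ 13 * (1 / 600) ^ (j - 5)) :=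
        mul_le_mul_of_nonneg_left (pow_bound j hj) (by positivity)
    _ = (17 / 50) ^ 13 * ((j : ℝ) ^ 3 * (1 / 600) ^ (j - 5)) := by ring
    _ ≤ (17 / 50) ^ 13 * (125 * (1 / 300) ^ (j - 5)) :=
        mul_le_mul_of_nonneg_left (poly_bound j hj) (by positivity)
    _ = _ := by ring

/-- sums of geometric majorants -/
private theorem geom_sum (J : ℕ) (r c : ℝ) (hr0 : 0 ≤ r) (hr1 : r < 1) (hc : 0 ≤ c) (f : ℕ → ℝ)
    (hf : ∀ j, 5 ≤ j → f j ≤ c * r ^ (j - 5)) :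
    ∑ j ∈ Finset.Ico 5 (J + 1), f j ≤ c / (1 - r) := by
  have h1 : ∑ j ∈ Finset.Ico 5 (J + 1), f j ≤ ∑ j ∈ Finset.Ico 5 (J + 1), c * r ^ (j - 5) :=
    Finset.sum_le_sum fun j hj => hf j (Finset.mem_Ico.mp hj).1
  refine h1.trans ?_
  rw [← Finset.mul_sum, Finset.sum_Ico_eq_sum_range]
  have e : ∀ i, 5 + i - 5 = i := fun i => by omega
  simp only [e]
  rw [div_eq_mul_inv]
  refine mul_le_mul_of_nonneg_left ?_ hc
  rw [geom_sum_eq hr1.ne, ← neg_sub 1 r, ← neg_sub 1 (r ^ _), neg_div_neg_eq, ← one_div]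
  exact div_le_div_of_nonneg_right (by linarith [pow_nonneg hr0 (J + 1 - 5)]) (by linarith)

private theorem split_sum (J : ℕ) (f : ℕ → ℝ) (a b : ℝ) (h0 : 0 ≤ a + b) (h4 : f 4 ≤ a)
    (hb : 0 ≤ b) (h : ∑ j ∈ Finset.Ico 5 (J + 1), f j ≤ b) (ha : 0 ≤ a) :
    ∑ j ∈ Finset.Ico 4 (J + 1), f j ≤ a + b := by
  by_cases hJ : 4 < J + 1
  · rw [Finset.sum_eq_sum_Ico_succ_bot hJ]
    exact add_le_add h4 h
  · have : Finset.Ico 4 (J + 1) = ∅ := Finset.Ico_eq_empty (by omega)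
    rw [this]
    simpa using h0

private theorem rp_bound (j : ℕ) (hj : 5 ≤ j) : (j : ℝ) * rp j ≤
    (1 : ℝ) * (17 / 50) ^ 13 * 19 / 10 * 75 * (1 / 300) ^ (j - 5) := by
  have hm := main_bound j hj
  have hj' : (5 : ℝ) ≤ j := by exact_mod_cast hj
  unfold rp
  have h1 : (j : ℝ) * (((tri j : ℝ) - 1)) ≤ 3 / 5 * (j : ℝ) ^ 3 := by
    rw [tri_cast]
    nlinarith [mul_nonneg (sub_nonneg.mpr hj') (by positivity : (0:ℝ) ≤ (j : ℝ) ^ 2),
      mul_self_nonneg ((j : ℝ))]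
  have h2 : (0 : ℝ) ≤ (17 / 50) ^ (tri j - 2) := by positivity
  calc (j : ℝ) * (((tri j : ℝ) - 1) * (17 / 50) ^ (tri j - 2) * (19 / 10))
      = ((j : ℝ) * ((tri j : ℝ) - 1)) * ((17 / 50) ^ (tri j - 2) * (19 / 10)) := by ring
    _ ≤ (3 / 5 * (j : ℝ) ^ 3) * ((17 / 50) ^ (tri j - 2) * (19 / 10)) :=
        mul_le_mul_of_nonneg_right h1 (by positivity)
    _ = 3 / 5 * (19 / 10) * ((j : ℝ) ^ 3 * (17 / 50) ^ (tri j - 2)) := by ring
    _ ≤ 3 / 5 * (19 / 10) * (125 * (17 / 50) ^ 13 * (1 / 300) ^ (j - 5)) :=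
        mul_le_mul_of_nonneg_left hm (by norm_num)
    _ = _ := by ring

/-- `9 R^8 * 19/10 + 2 R^9 ≤ .003176`, `9/2000 - .003176 ≥ 132/100000`. -/
theorem rr_four : 132 / 100000 ≤ ee 4 - rr 4 := by
  norm_num [rr, rp, ee, tri]

private theorem rr_bound (j : ℕ) (hj : 5 ≤ j) : rr j ≤ 1 / 4 * (1 / 10) ^ (j - 1) := by
  have hj' : (5 : ℝ) ≤ j := by exact_mod_cast hj
  have hm := main_bound j hj
  have h2 : (0 : ℝ) ≤ (17 / 50) ^ (tri j - 2) := by positivity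
  have h1 : rr j ≤ (11 / 50) * ((j : ℝ) ^ 3 * (17 / 50) ^ (tri j - 2)) := by
    unfold rr rp
    rw [pow_eq j hj, tri_cast]
    have : ((j : ℝ) * (j + 1) / 2 - 1) * (19 / 10) + 2 * (17 / 50) ≤ 11 / 50 * (j : ℝ) ^ 3 := by
      nlinarith [pow_nonneg (sub_nonneg.mpr hj') 2, pow_nonneg (sub_nonneg.mpr hj') 3]
    calc ((j : ℝ) * (j + 1) / 2 - 1) * (17 / 50) ^ (tri j - 2) * (19 / 10) +
          2 * ((17 / 50) ^ (tri j - 2) * (17 / 50))
        = (((j : ℝ) * (j + 1) / 2 - 1) * (19 / 10) + 2 * (17 / 50)) * (17 / 50) ^ (tri j - 2) := by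
          ring
      _ ≤ (11 / 50 * (j : ℝ) ^ 3) * (17 / 50) ^ (tri j - 2) := mul_le_mul_of_nonneg_right this h2
      _ = _ := by ring
  have h3 : (1 / 300 : ℝ) ^ (j - 5) ≤ (1 / 10) ^ (j - 5) :=
    pow_le_pow_left₀ (by norm_num) (by norm_num) _
  have h4 : (1 / 10 : ℝ) ^ (j - 1) = (1 / 10) ^ 4 * (1 / 10) ^ (j - 5) := by
    rw [← pow_add]; congr 1; omega
  have h5 : (0 : ℝ) ≤ (1 / 10) ^ (j - 5) := by positivity
  calc rr j ≤ (11 / 50) * ((j : ℝ) ^ 3 * (17 / 50) ^ (tri j - 2)) := h1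
    _ ≤ (11 / 50) * (125 * (17 / 50) ^ 13 * (1 / 300) ^ (j - 5)) :=
        mul_le_mul_of_nonneg_left hm (by norm_num)
    _ ≤ (11 / 50) * (125 * (17 / 50) ^ 13 * (1 / 10) ^ (j - 5)) :=
        mul_le_mul_of_nonneg_left (mul_le_mul_of_nonneg_left h3 (by norm_num)) (by norm_num)
    _ = (11 / 50 * 125 * (17 / 50) ^ 13) * (1 / 10) ^ (j - 5) := by ring
    _ ≤ (1 / 4 * (1 / 10) ^ 4) * (1 / 10) ^ (j - 5) :=
        mul_le_mul_of_nonneg_right (by norm_num) h5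
    _ = _ := by rw [h4]; ring

private theorem ee_of (j : ℕ) (hj : 5 ≤ j) : ee j = (1 / 10) ^ (j - 1) := by
  unfold ee
  rw [if_neg (by omega), if_neg (by omega)]

/-- `rr j ≤ ee j / 4` for `j ≥ 5`: `tri j - 2 ≥ 13 + 5 (j - 5)`, induction. -/
theorem rr_five (j : ℕ) (hj : 5 ≤ j) : 3 / 4 * ee j ≤ ee j - rr j := by
  rw [ee_of j hj]
  linarith [rr_bound j hj]

/-- `j rp j`: `.012215` for `j = 4`, `1.1e-4` for `j = 5`, then at most `1/5` of the previous one. -/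
theorem sum_r0 (J : ℕ) : ∑ j ∈ Finset.Ico 4 (J + 1), (j : ℝ) * rp j ≤ 124 / 10000 := by
  have h := geom_sum J (1 / 300) ((1 : ℝ) * (17 / 50) ^ 13 * 19 / 10 * 75) (by norm_num)
    (by norm_num) (by norm_num) (fun j => (j : ℝ) * rp j) (fun j hj => rp_bound j hj)
  have h4 : (fun j : ℕ => (j : ℝ) * rp j) 4 ≤ 12216 / 1000000 := by
    norm_num [rp, tri]
  have := split_sum J (fun j => (j : ℝ) * rp j) (12216 / 1000000) (184 / 1000000) (by norm_num) h4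
    (by norm_num) (h.trans (by norm_num)) (by norm_num)
  exact this.trans (by norm_num)

private theorem eesum (J : ℕ) : ∑ j ∈ Finset.Ico 5 (J + 1),
    (((j : ℝ) - 1) * (j - 2) / 2 * ee j) ≤ 73 / 100000 := by
  have key : ∀ j, 5 ≤ j → (fun j : ℕ => (((j : ℝ) - 1) * (j - 2) / 2 * ee j)) j ≤
      6 / 10000 * (1 / 6) ^ (j - 5) := by
    intro j hj
    simp only
    rw [ee_of j hj]
    induction j, hj using Nat.le_induction with
    | base => norm_num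
    | succ n hn ih =>
      have hn' : (5 : ℝ) ≤ n := by exact_mod_cast hn
      have e : n + 1 - 5 = (n - 5) + 1 := by omega
      have e2 : n + 1 - 1 = (n - 1) + 1 := by omega
      rw [e, e2, pow_succ, pow_succ]
      push_cast
      have h0 : (0 : ℝ) ≤ (1 / 10) ^ (n - 1) := by positivity
      have h1 : ((n : ℝ) + 1 - 1) * (n + 1 - 2) / 2 * (1 / 10) ≤
          ((n : ℝ) - 1) * (n - 2) / 2 * (1 / 6) := by
        nlinarith
      calc ((n : ℝ) + 1 - 1) * (n + 1 - 2) / 2 * ((1 / 10) ^ (n - 1) * (1 / 10))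
          = (((n : ℝ) + 1 - 1) * (n + 1 - 2) / 2 * (1 / 10)) * (1 / 10) ^ (n - 1) := by ring
        _ ≤ (((n : ℝ) - 1) * (n - 2) / 2 * (1 / 6)) * (1 / 10) ^ (n - 1) :=
            mul_le_mul_of_nonneg_right h1 h0
        _ = (((n : ℝ) - 1) * (n - 2) / 2 * (1 / 10) ^ (n - 1)) * (1 / 6) := by ring
        _ ≤ (6 / 10000 * (1 / 6) ^ (n - 5)) * (1 / 6) :=
            mul_le_mul_of_nonneg_right ih (by norm_num)
        _ = _ := by ring
  have h := geom_sum J (1 / 6) (6 / 10000) (by norm_num) (by norm_num) (by norm_num) _ key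
  exact h.trans (by norm_num)

/-- `3 ee 4 + ∑_{j ≥ 5} (j-1)(j-2)/2 * ee j`, `6e-4 + 1e-4 + 1.5e-5 + ...`, ratio at most `1/6`. -/
theorem sum_r1C (J : ℕ) : ∑ j ∈ Finset.Ico 4 (J + 1), (((j : ℝ) - 1) * (j - 2) / 2 * ee j) ≤
    3 * (9 / 2000) + 73 / 100000 := by
  have h4 : (fun j : ℕ => (((j : ℝ) - 1) * (j - 2) / 2 * ee j)) 4 ≤ 3 * (9 / 2000) := by
    norm_num [ee]
  exact split_sum J (fun j => (((j : ℝ) - 1) * (j - 2) / 2 * ee j)) (3 * (9 / 2000)) (73 / 100000)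
    (by norm_num) h4 (by norm_num) (eesum J) (by norm_num)

/-- `3 rr 4 + 3 ee 4 ≤ .023028`, for `j = 5`: `4 rr 5 + 6 ee 5 ≤ 6.9e-4`, ratio at most `1/5` after
that. -/
theorem sum_r1 (J : ℕ) : ∑ j ∈ Finset.Ico 4 (J + 1),
    (((j : ℝ) - 1) * rr j + ((j : ℝ) - 1) * (j - 2) / 2 * ee j) ≤ 240 / 10000 := by
  rw [Finset.sum_add_distrib]
  have h1 := sum_r1C J
  have key : ∀ j, 5 ≤ j → (fun j : ℕ => ((j : ℝ) - 1) * rr j) j ≤
      (11 / 50 * 125 * 5 * (17 / 50) ^ 13 : ℝ) * (1 / 150) ^ (j - 5) := by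
    intro j hj
    simp only
    have hj' : (5 : ℝ) ≤ j := by exact_mod_cast hj
    have hm := main_bound j hj
    have h2 : (0 : ℝ) ≤ (17 / 50) ^ (tri j - 2) := by positivity
    have h1 : rr j ≤ (11 / 50) * ((j : ℝ) ^ 3 * (17 / 50) ^ (tri j - 2)) := by
      unfold rr rp
      rw [pow_eq j hj, tri_cast]
      have : ((j : ℝ) * (j + 1) / 2 - 1) * (19 / 10) + 2 * (17 / 50) ≤
          11 / 50 * (j : ℝ) ^ 3 := by
        nlinarith [pow_nonneg (sub_nonneg.mpr hj') 2, pow_nonneg (sub_nonneg.mpr hj') 3]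
      calc ((j : ℝ) * (j + 1) / 2 - 1) * (17 / 50) ^ (tri j - 2) * (19 / 10) +
            2 * ((17 / 50) ^ (tri j - 2) * (17 / 50))
          = (((j : ℝ) * (j + 1) / 2 - 1) * (19 / 10) + 2 * (17 / 50)) *
              (17 / 50) ^ (tri j - 2) := by ring
        _ ≤ (11 / 50 * (j : ℝ) ^ 3) * (17 / 50) ^ (tri j - 2) :=
            mul_le_mul_of_nonneg_right this h2
        _ = _ := by ring
    have h3 : ((j : ℝ) - 1) * (1 / 300) ^ (j - 5) ≤ 5 * (1 / 150) ^ (j - 5) := by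
      clear hm h2 h1 hj'
      induction j, hj using Nat.le_induction with
      | base => norm_num
      | succ n hn ih =>
        have hn' : (5 : ℝ) ≤ n := by exact_mod_cast hn
        have e : n + 1 - 5 = (n - 5) + 1 := by omega
        rw [e, pow_succ, pow_succ]
        push_cast
        have h0 : (0 : ℝ) ≤ (1 / 300) ^ (n - 5) := by positivity
        calc ((n : ℝ) + 1 - 1) * ((1 / 300) ^ (n - 5) * (1 / 300))
            = ((n : ℝ) * (1 / 300)) * (1 / 300) ^ (n - 5) := by ring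
          _ ≤ (((n : ℝ) - 1) * (1 / 150)) * (1 / 300) ^ (n - 5) :=
              mul_le_mul_of_nonneg_right (by linarith) h0
          _ = (((n : ℝ) - 1) * (1 / 300) ^ (n - 5)) * (1 / 150) := by ring
          _ ≤ (5 * (1 / 150) ^ (n - 5)) * (1 / 150) := mul_le_mul_of_nonneg_right ih (by norm_num)
          _ = _ := by ring
    calc ((j : ℝ) - 1) * rr j
        ≤ ((j : ℝ) - 1) * ((11 / 50) * ((j : ℝ) ^ 3 * (17 / 50) ^ (tri j - 2))) :=
          mul_le_mul_of_nonneg_left h1 (by linarith)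
      _ ≤ ((j : ℝ) - 1) * ((11 / 50) * (125 * (17 / 50) ^ 13 * (1 / 300) ^ (j - 5))) :=
          mul_le_mul_of_nonneg_left (mul_le_mul_of_nonneg_left hm (by norm_num)) (by linarith)
      _ = (11 / 50 * 125 * (17 / 50) ^ 13) * (((j : ℝ) - 1) * (1 / 300) ^ (j - 5)) := by ring
      _ ≤ (11 / 50 * 125 * (17 / 50) ^ 13) * (5 * (1 / 150) ^ (j - 5)) :=
          mul_le_mul_of_nonneg_left h3 (by norm_num)
      _ = _ := by ring
  have h := geom_sum J (1 / 150) _ (by norm_num) (by norm_num) (by norm_num) _ key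
  have h4 : (fun j : ℕ => ((j : ℝ) - 1) * rr j) 4 ≤ 953 / 100000 := by
    norm_num [rr, rp, tri]
  have h5 := split_sum J (fun j => ((j : ℝ) - 1) * rr j) (953 / 100000) (23 / 100000)
    (by norm_num) h4 (by norm_num) (h.trans (by norm_num)) (by norm_num)
  linarith

/-- `14 R^9 * 4 ≤ .0034003`, then `80 R^14`, ... -/
theorem sum_rd (J : ℕ) : ∑ j ∈ Finset.Ico 4 (J + 1),
    4 * ((17 / 50 : ℝ) ^ (tri j - 1) * ((tri j : ℝ) + j)) ≤ 35 / 10000 := by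
  have key : ∀ j, 5 ≤ j → (fun j : ℕ => 4 * ((17 / 50 : ℝ) ^ (tri j - 1) * ((tri j : ℝ) + j))) j ≤
      (4 * (17 / 50) * (4 / 25) * 125 * (17 / 50) ^ 13 : ℝ) * (1 / 300) ^ (j - 5) := by
    intro j hj
    simp only
    have hj' : (5 : ℝ) ≤ j := by exact_mod_cast hj
    have hm := main_bound j hj
    have h2 : (0 : ℝ) ≤ (17 / 50) ^ (tri j - 2) := by positivity
    rw [pow_eq j hj, tri_cast]
    have : (j : ℝ) * (j + 1) / 2 + j ≤ 4 / 25 * (j : ℝ) ^ 3 := by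
      nlinarith [mul_nonneg (sub_nonneg.mpr hj') (by positivity : (0:ℝ) ≤ (j : ℝ) ^ 2),
        mul_nonneg (sub_nonneg.mpr hj') (by positivity : (0:ℝ) ≤ (j : ℝ))]
    calc 4 * ((17 / 50) ^ (tri j - 2) * (17 / 50) * ((j : ℝ) * (j + 1) / 2 + j))
        = 4 * (17 / 50) * (((j : ℝ) * (j + 1) / 2 + j) * (17 / 50) ^ (tri j - 2)) := by ring
      _ ≤ 4 * (17 / 50) * ((4 / 25 * (j : ℝ) ^ 3) * (17 / 50) ^ (tri j - 2)) :=
          mul_le_mul_of_nonneg_left (mul_le_mul_of_nonneg_right this h2) (by norm_num)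
      _ = 4 * (17 / 50) * (4 / 25) * ((j : ℝ) ^ 3 * (17 / 50) ^ (tri j - 2)) := by ring
      _ ≤ 4 * (17 / 50) * (4 / 25) * (125 * (17 / 50) ^ 13 * (1 / 300) ^ (j - 5)) :=
          mul_le_mul_of_nonneg_left hm (by norm_num)
      _ = _ := by ring
  have h := geom_sum J (1 / 300) _ (by norm_num) (by norm_num) (by norm_num) _ key
  have h4 : (fun j : ℕ => 4 * ((17 / 50 : ℝ) ^ (tri j - 1) * ((tri j : ℝ) + j))) 4 ≤
      341 / 100000 := by
    norm_num [tri]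
  have h5 := split_sum J (fun j => 4 * ((17 / 50 : ℝ) ^ (tri j - 1) * ((tri j : ℝ) + j)))
    (341 / 100000) (9 / 100000)
    (by norm_num) h4 (by norm_num) (h.trans (by norm_num)) (by norm_num)
  exact h5.trans (by norm_num)

end Pool.Agent.MaxTerm8
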