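import Pool.Agent.MaxTerm8.LemmaT
import Pool.Agent.MaxTerm8.Dual
import Pool.Agent.MaxTerm8.DualC
import Pool.Agent.MaxTerm8.TailSum

/-! The master inequality of type L. -/

namespace Pool.Agent.MaxTerm8

open Complex ComplexConjugate

noncomputable def TT0 (J : ℕ) (L : ℕ → ℂ) (p : ℂ) : ℂ :=
  ∑ j ∈ Finset.Ico 3 (J + 1), 4 * L j * p ^ tri j

noncomputable def TT1 (J : ℕ) (L μ : ℕ → ℂ) (p : ℂ) : ℂ :=
  ∑ j ∈ Finset.Ico 3 (J + 1), (4 * (j : ℂ) * L j + 2 * ((j : ℂ) - 1) * (j - 2) * μ j) *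
    p ^ (tri j - 1)

noncomputable def TT2 (J : ℕ) (L : ℕ → ℂ) (p : ℂ) : ℂ :=
  ∑ j ∈ Finset.Ico 3 (J + 1), 2 * ((j : ℂ) - 1) * L j * p ^ (tri j - 1)

/-- error term of the master inequality of type L -/
noncomputable def EL (J : ℕ) (L μ : ℕ → ℂ) (p : ℂ) (r3 : ℝ) : ℝ :=
  2 * ‖L 3 - μ 3‖ ^ 2 * ‖p‖ ^ 10 / (7 / 100 - r3) + 6 * ‖L 4 - μ 4‖ ^ 2 * ‖p‖ ^ 18 / (132 / 100000) +
  ∑ j ∈ Finset.Ico 5 (J + 1), ((j : ℝ) - 1) * (j - 2) * ‖L j - μ j‖ ^ 2 * ‖p‖ ^ (2 * tri j - 2) *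
    (4 / 3 * 10 ^ (j - 1))

/-- error term of the master inequality of type C -/
noncomputable def EC (J : ℕ) (μ : ℕ → ℂ) (p : ℂ) : ℝ :=
  2 * ‖μ 3‖ ^ 2 * ‖p‖ ^ 10 / (7 / 100) + 6 * ‖μ 4‖ ^ 2 * ‖p‖ ^ 18 / (9 / 2000) +
  ∑ j ∈ Finset.Ico 5 (J + 1), ((j : ℝ) - 1) * (j - 2) * ‖μ j‖ ^ 2 * ‖p‖ ^ (2 * tri j - 2) *
    10 ^ (j - 1)

private lemma ml_tri3 : tri 3 = 6 := rfl
private lemma ml_tri4 : tri 4 = 10 := rfl

private lemma ml_ee_three : ee 3 = 7 / 100 := by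
  unfold ee
  norm_num

private lemma ml_ee_four : ee 4 = 9 / 2000 := by
  unfold ee
  norm_num

private lemma ml_ee_five {j : ℕ} (hj : 5 ≤ j) : ee j = (1 / 10) ^ (j - 1) := by
  unfold ee
  rw [if_neg (by omega), if_neg (by omega)]

private lemma ml_tt0 (J : ℕ) (L : ℕ → ℂ) (p : ℂ) :
    (TT0 J L p).re = ∑ j ∈ Finset.Ico 3 (J + 1), 4 * (L j * p ^ tri j).re := by
  unfold TT0
  rw [Complex.re_sum]
  refine Finset.sum_congr rfl (fun j _ => ?_)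
  have : 4 * L j * p ^ tri j = ((4 : ℝ) : ℂ) * (L j * p ^ tri j) := by push_cast; ring
  rw [this, Complex.re_ofReal_mul]

private lemma ml_tt1 (J : ℕ) (L μ : ℕ → ℂ) (p z : ℂ) :
    (TT1 J L μ p * z).re = ∑ j ∈ Finset.Ico 3 (J + 1), (4 * (j : ℝ) * (L j * p ^ (tri j - 1) * z).re +
      2 * ((j : ℝ) - 1) * (j - 2) * (μ j * p ^ (tri j - 1) * z).re) := by
  unfold TT1
  rw [Finset.sum_mul, Complex.re_sum]
  refine Finset.sum_congr rfl (fun j _ => ?_)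
  have : (4 * (j : ℂ) * L j + 2 * ((j : ℂ) - 1) * (j - 2) * μ j) * p ^ (tri j - 1) * z =
      ((4 * (j : ℝ) : ℝ) : ℂ) * (L j * p ^ (tri j - 1) * z) +
      ((2 * ((j : ℝ) - 1) * (j - 2) : ℝ) : ℂ) * (μ j * p ^ (tri j - 1) * z) := by
    push_cast
    ring
  rw [this, Complex.add_re, Complex.re_ofReal_mul, Complex.re_ofReal_mul]

private lemma ml_tt2 (J : ℕ) (L : ℕ → ℂ) (p z : ℂ) :
    (TT2 J L p * z).re = ∑ j ∈ Finset.Ico 3 (J + 1),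
      2 * ((j : ℝ) - 1) * (L j * p ^ (tri j - 1) * z).re := by
  unfold TT2
  rw [Finset.sum_mul, Complex.re_sum]
  refine Finset.sum_congr rfl (fun j _ => ?_)
  have : 2 * ((j : ℂ) - 1) * L j * p ^ (tri j - 1) * z =
      ((2 * ((j : ℝ) - 1) : ℝ) : ℂ) * (L j * p ^ (tri j - 1) * z) := by
    push_cast
    ring
  rw [this, Complex.re_ofReal_mul]

/-- the sum over `3 ≤ j ≤ J` split at `j = 3` -/
private lemma ml_split3 (J : ℕ) (hJ : 5 ≤ J) (f : ℕ → ℝ) :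
    ∑ j ∈ Finset.Ico 3 (J + 1), f j = f 3 + ∑ j ∈ Finset.Ico 4 (J + 1), f j :=
  Finset.sum_eq_sum_Ico_succ_bot (by omega) _

private lemma ml_split4 (J : ℕ) (hJ : 5 ≤ J) (f : ℕ → ℝ) :
    ∑ j ∈ Finset.Ico 4 (J + 1), f j = f 4 + ∑ j ∈ Finset.Ico 5 (J + 1), f j :=
  Finset.sum_eq_sum_Ico_succ_bot (by omega) _

private lemma ml_split2 (J : ℕ) (hJ : 5 ≤ J) (f : ℕ → ℝ) :
    ∑ j ∈ Finset.Ico 2 (J + 1), f j = f 2 + ∑ j ∈ Finset.Ico 3 (J + 1), f j :=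
  Finset.sum_eq_sum_Ico_succ_bot (by omega) _

/-- `r'_j` -/
private noncomputable def q1 (L : ℕ → ℂ) (j : ℕ) : ℝ :=
  ((tri j : ℝ) - 1) * (17 / 50) ^ (tri j - 2) * ‖L j‖

/-- `r_j` -/
private noncomputable def q2 (L : ℕ → ℂ) (s : ℕ → ℝ) (j : ℕ) : ℝ :=
  q1 L j + 2 * (17 / 50) ^ (tri j - 1) * |s j|

private lemma ml_tri_ge {j : ℕ} (hj : 3 ≤ j) : 6 ≤ tri j := by
  unfold tri
  have : 3 * 4 ≤ j * (j + 1) := Nat.mul_le_mul hj (by omega)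
  omega

private lemma ml_q1_le (L : ℕ → ℂ) (hL : ∀ j, ‖L j‖ ≤ 19 / 10) {j : ℕ} (hj : 3 ≤ j) :
    q1 L j ≤ rp j := by
  unfold q1 rp
  have h6 : (6:ℝ) ≤ tri j := by exact_mod_cast ml_tri_ge hj
  exact mul_le_mul_of_nonneg_left (hL j) (mul_nonneg (by linarith) (by positivity))

private lemma ml_q1_nonneg (L : ℕ → ℂ) {j : ℕ} (hj : 3 ≤ j) : 0 ≤ q1 L j := by
  unfold q1
  have h6 : (6:ℝ) ≤ tri j := by exact_mod_cast ml_tri_ge hj
  exact mul_nonneg (mul_nonneg (by linarith) (by positivity)) (norm_nonneg _)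

private lemma ml_q2_le (L : ℕ → ℂ) (s : ℕ → ℝ) (hL : ∀ j, ‖L j‖ ≤ 19 / 10) (hs : ∀ j, |s j| ≤ 1)
    {j : ℕ} (hj : 3 ≤ j) : q2 L s j ≤ rr j := by
  unfold q2 rr
  refine add_le_add (ml_q1_le L hL hj) ?_
  have := mul_le_mul_of_nonneg_left (hs j)
    (by positivity : (0:ℝ) ≤ 2 * (17 / 50) ^ (tri j - 1))
  rwa [mul_one] at this

/-- the purely algebraic assembly of the sums -/
private lemma ml_assemble (J : ℕ) (L μ : ℕ → ℂ) (s : ℕ → ℝ) (p z y : ℂ)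
    (qa qu dd : ℝ) (ca cu cd E : ℝ)
    (F : ℕ → ℝ) (A B C D : ℕ → ℝ)
    (hF : ∀ j ∈ Finset.Ico 3 (J + 1), 4 * (L j * p ^ tri j).re +
      4 * (j : ℝ) * (L j * p ^ (tri j - 1) * z).re +
      2 * ((j : ℝ) - 1) * (j - 2) * (μ j * p ^ (tri j - 1) * z).re +
      2 * ((j : ℝ) - 1) * (L j * p ^ (tri j - 1) * y).re -
      A j * qa - B j * qu - C j * dd - D j ≤ F j)
    (hqa : 0 ≤ qa) (hqu : 0 ≤ qu) (hdd : 0 ≤ dd)
    (hA : ∑ j ∈ Finset.Ico 3 (J + 1), A j ≤ ca) (hB : ∑ j ∈ Finset.Ico 3 (J + 1), B j ≤ cu)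
    (hC : ∑ j ∈ Finset.Ico 3 (J + 1), C j ≤ cd) (hD : ∑ j ∈ Finset.Ico 3 (J + 1), D j ≤ E) :
    (TT0 J L p).re + (TT1 J L μ p * z).re + (TT2 J L p * y).re - ca * qa - cu * qu - cd * dd - E ≤
      ∑ j ∈ Finset.Ico 3 (J + 1), F j := by
  have h1 := Finset.sum_le_sum hF
  rw [ml_tt0, ml_tt1, ml_tt2]
  have e : ∑ j ∈ Finset.Ico 3 (J + 1), (4 * (L j * p ^ tri j).re +
      4 * (j : ℝ) * (L j * p ^ (tri j - 1) * z).re +
      2 * ((j : ℝ) - 1) * (j - 2) * (μ j * p ^ (tri j - 1) * z).re +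
      2 * ((j : ℝ) - 1) * (L j * p ^ (tri j - 1) * y).re -
      A j * qa - B j * qu - C j * dd - D j) =
      ∑ j ∈ Finset.Ico 3 (J + 1), 4 * (L j * p ^ tri j).re +
      ∑ j ∈ Finset.Ico 3 (J + 1), (4 * (j : ℝ) * (L j * p ^ (tri j - 1) * z).re +
        2 * ((j : ℝ) - 1) * (j - 2) * (μ j * p ^ (tri j - 1) * z).re) +
      ∑ j ∈ Finset.Ico 3 (J + 1), 2 * ((j : ℝ) - 1) * (L j * p ^ (tri j - 1) * y).re -
      (∑ j ∈ Finset.Ico 3 (J + 1), A j) * qa - (∑ j ∈ Finset.Ico 3 (J + 1), B j) * qu -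
      (∑ j ∈ Finset.Ico 3 (J + 1), C j) * dd - ∑ j ∈ Finset.Ico 3 (J + 1), D j := by
    rw [Finset.sum_mul, Finset.sum_mul, Finset.sum_mul, ← Finset.sum_add_distrib,
      ← Finset.sum_add_distrib, ← Finset.sum_sub_distrib, ← Finset.sum_sub_distrib,
      ← Finset.sum_sub_distrib, ← Finset.sum_sub_distrib]
    refine Finset.sum_congr rfl (fun j _ => ?_)
    ring
  rw [e] at h1
  have h2 := mul_le_mul_of_nonneg_right hA hqa
  have h3 := mul_le_mul_of_nonneg_right hB hqu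
  have h4 := mul_le_mul_of_nonneg_right hC hdd
  linarith

/-- **Master inequality, type L.** `dual` for `J`, plus `lemmaT` for every `3 ≤ j ≤ J` (with
`l = lam j`, `σ = sg j`, `e = ee`), `lam_bound`, `sg_bound` for `j ≥ 4`, `‖lam 3‖ ≤ L3`, `|sg 3| ≤ s3`
for `j = 3`, then the sums of `TailSum` (`|σ_j| R^(tri j-1) (tri j + j) ‖a-b‖^2`, `rd/4 = R^5 9 s3 + ...`:
`36 R^5 s3 + 35/10000` divided by `4`). -/
theorem master_L (J : ℕ) (hJ : 5 ≤ J) (ψ : ℤ → ℂ) (hψ : ∀ k, ‖ψ k‖ ≤ 17 / 50) (p : ℂ)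
    (hp : ‖p‖ ≤ 17 / 50) (μ : ℕ → ℂ) (g : ℂ) (k : ℤ) (M : ℝ) (h : XIneq J ψ k M) (w x : ℝ)
    (Y0 Y1 : ℂ) (hw0 : 0 ≤ w) (hw1 : w ≤ 1) (hx0 : -1 ≤ x) (hx1 : x ≤ 1)
    (hn : nu w x Y0 Y1 ≤ 361 / 100) (L3 s3 r3 : ℝ) (hL3 : ‖lam w x Y0 Y1 3‖ ≤ L3)
    (hs3 : |sg w x 3| ≤ s3) (hr3 : r3 = 5 * (17 / 50) ^ 4 * L3 + 2 * (17 / 50) ^ 5 * s3)
    (hr3' : r3 ≤ 66 / 1000) :
    Phi (lam w x Y0 Y1 0) (lam w x Y0 Y1 1) (lam w x Y0 Y1 2) (TT0 J (lam w x Y0 Y1) p)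
      (TT1 J (lam w x Y0 Y1) μ p) (TT2 J (lam w x Y0 Y1) p) g p (nu w x Y0 Y1) (sg w x 1) (sg w x 2)
      (13 / 20) (9 / 20) (15 * (17 / 50) ^ 4 * L3 + 124 / 10000) (2 * r3 + 7 / 100 + 240 / 10000)
      (36 * (17 / 50) ^ 5 * s3 + 35 / 10000) 0 (EL J (lam w x Y0 Y1) μ p r3) 0
      (ψ k) (ψ (k + 1)) (ψ (k - 1)) (ψ (k + 2)) ≤ M + telk J p μ g ψ k := by
  set L := lam w x Y0 Y1 with hLdef
  set s := sg w x with hsdef
  have hL : ∀ j, ‖L j‖ ≤ 19 / 10 := fun j => lam_bound w x Y0 Y1 hw0 hw1 hx0 hx1 hn j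
  have hs : ∀ j, |s j| ≤ 1 := fun j => sg_bound w x hw0 hw1 hx0 hx1 j
  have hd := dual J (by omega) ψ k M h w x Y0 Y1 hw0 hw1 hx0 hx1
  rw [← hLdef, ← hsdef] at hd
  obtain ⟨-, -, -, -, htl2, htr2⟩ := tl_small ψ k
  rw [ml_split2 J hJ, ml_split2 J hJ, htl2, htr2] at hd
  have hq3 : q2 L s 3 ≤ r3 := by
    unfold q2 q1
    rw [hr3, ml_tri3]
    have e1 : ((6 : ℕ) : ℝ) - 1 = 5 := by norm_num
    rw [e1]
    have h1 : (5:ℝ) * (17 / 50) ^ 4 * ‖L 3‖ ≤ 5 * (17 / 50) ^ 4 * L3 :=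
      mul_le_mul_of_nonneg_left hL3 (by positivity)
    have h2 : (2:ℝ) * (17 / 50) ^ 5 * |s 3| ≤ 2 * (17 / 50) ^ 5 * s3 :=
      mul_le_mul_of_nonneg_left hs3 (by positivity)
    exact add_le_add h1 h2
  have hlt : ∀ j, 3 ≤ j → q2 L s j < ee j := by
    intro j hj
    rcases (by omega : j = 3 ∨ j = 4 ∨ 5 ≤ j) with rfl | rfl | h5
    · rw [ml_ee_three]
      linarith
    · have := rr_four
      have h2 := ml_q2_le L s hL hs (j := 4) (by norm_num)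
      linarith
    · have h1 := rr_five j h5
      have h2 := ml_q2_le L s hL hs hj
      have h3 : 0 < ee j := by rw [ml_ee_five h5]; positivity
      linarith
  have hcore := ml_assemble J L μ s p ((ψ k + ψ (k + 1)) / 2 - p) (ψ (k - 1) + ψ (k + 2) - 2 * p)
    (‖ψ k - p‖ ^ 2 + ‖ψ (k + 1) - p‖ ^ 2) (‖ψ (k - 1) - p‖ ^ 2 + ‖ψ (k + 2) - p‖ ^ 2)
    (‖ψ k - ψ (k + 1)‖ ^ 2) (15 * (17 / 50) ^ 4 * L3 + 124 / 10000)
    (2 * r3 + 7 / 100 + 240 / 10000) ((36 * (17 / 50) ^ 5 * s3 + 35 / 10000) / 4)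
    (EL J L μ p r3)
    (fun j => 2 * (L j * (TL ψ k j + TR ψ k j)).re +
      2 * s j * (conj (ψ k - ψ (k + 1)) * (TL ψ k j - TR ψ k j)).re + tele p μ ee ψ k j)
    (fun j => j * q1 L j)
    (fun j => ((j : ℝ) - 1) * q2 L s j + ((j : ℝ) - 1) * (j - 2) / 2 * ee j)
    (fun j => |s j| * (17 / 50) ^ (tri j - 1) * ((tri j : ℝ) + j))
    (fun j => ((j : ℝ) - 1) * (j - 2) *
      (‖L j - μ j‖ ^ 2 * ‖p‖ ^ (2 * tri j - 2) / (ee j - q2 L s j)))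
    (by
      intro j hj
      have hj3 : 3 ≤ j := (Finset.mem_Ico.mp hj).1
      exact lemmaT ψ hψ p hp k j hj3 (L j) μ (s j) ee (q1 L j) (q2 L s j) rfl rfl (hlt j hj3))
    (by positivity) (by positivity) (by positivity)
    (by
      rw [ml_split3 J hJ]
      refine add_le_add ?_ ?_
      · unfold q1
        rw [ml_tri3]
        have e1 : ((6 : ℕ) : ℝ) - 1 = 5 := by norm_num
        rw [e1]
        push_cast
        have h1 : (5:ℝ) * (17 / 50) ^ 4 * ‖L 3‖ ≤ 5 * (17 / 50) ^ 4 * L3 :=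
          mul_le_mul_of_nonneg_left hL3 (by positivity)
        linarith
      · refine le_trans (Finset.sum_le_sum (fun j hj => ?_)) (sum_r0 J)
        have hj4 : 4 ≤ j := (Finset.mem_Ico.mp hj).1
        exact mul_le_mul_of_nonneg_left (ml_q1_le L hL (by omega)) (Nat.cast_nonneg _))
    (by
      rw [ml_split3 J hJ]
      refine add_le_add ?_ ?_
      · rw [ml_ee_three]
        push_cast
        linarith
      · refine le_trans (Finset.sum_le_sum (fun j hj => ?_)) (sum_r1 J)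
        have hj4 : 4 ≤ j := (Finset.mem_Ico.mp hj).1
        have hj4' : (4:ℝ) ≤ j := by exact_mod_cast hj4
        exact add_le_add (mul_le_mul_of_nonneg_left (ml_q2_le L s hL hs (by omega))
          (by linarith)) le_rfl)
    (by
      rw [ml_split3 J hJ]
      have e : (36 * (17 / 50 : ℝ) ^ 5 * s3 + 35 / 10000) / 4 =
          9 * (17 / 50 : ℝ) ^ 5 * s3 + 35 / 10000 / 4 := by ring
      rw [e]
      refine add_le_add ?_ ?_
      · rw [ml_tri3]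
        have e2 : (6:ℕ) - 1 = 5 := rfl
        rw [e2]
        push_cast
        have : |s 3| * (17 / 50 : ℝ) ^ 5 * 9 ≤ s3 * (17 / 50 : ℝ) ^ 5 * 9 := by
          have := mul_le_mul_of_nonneg_right hs3 (by positivity : (0:ℝ) ≤ (17 / 50 : ℝ) ^ 5 * 9)
          linarith
        linarith
      · have h1 := sum_rd J
        rw [← Finset.mul_sum] at h1
        have h2 : ∑ j ∈ Finset.Ico 4 (J + 1), |s j| * (17 / 50 : ℝ) ^ (tri j - 1) * ((tri j : ℝ) + j) ≤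
            ∑ j ∈ Finset.Ico 4 (J + 1), ((17 / 50 : ℝ) ^ (tri j - 1) * ((tri j : ℝ) + j)) := by
          refine Finset.sum_le_sum (fun j _ => ?_)
          have := mul_le_mul_of_nonneg_right (hs j)
            (by positivity : (0:ℝ) ≤ (17 / 50 : ℝ) ^ (tri j - 1) * ((tri j : ℝ) + j))
          rw [one_mul] at this
          refine le_trans (le_of_eq ?_) this
          ring
        linarith)
    (by
      rw [ml_split3 J hJ, ml_split4 J hJ]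
      unfold EL
      rw [add_assoc]
      refine add_le_add ?_ (add_le_add ?_ ?_)
      · rw [ml_ee_three, ml_tri3]
        push_cast
        have h1 : ‖L 3 - μ 3‖ ^ 2 * ‖p‖ ^ 10 / (7 / 100 - q2 L s 3) ≤
            ‖L 3 - μ 3‖ ^ 2 * ‖p‖ ^ 10 / (7 / 100 - r3) :=
          div_le_div_of_nonneg_left (by positivity) (by linarith) (by linarith)
        have h2 : 2 * ‖L 3 - μ 3‖ ^ 2 * ‖p‖ ^ 10 / (7 / 100 - r3) =
            2 * (‖L 3 - μ 3‖ ^ 2 * ‖p‖ ^ 10 / (7 / 100 - r3)) := by ring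
        rw [h2]
        linarith
      · rw [ml_tri4]
        push_cast
        have h0 := ml_q2_le L s hL hs (j := 4) (by norm_num)
        have h0' := rr_four
        have h1 : ‖L 4 - μ 4‖ ^ 2 * ‖p‖ ^ 18 / (ee 4 - q2 L s 4) ≤
            ‖L 4 - μ 4‖ ^ 2 * ‖p‖ ^ 18 / (132 / 100000) :=
          div_le_div_of_nonneg_left (by positivity) (by norm_num) (by linarith)
        have h2 : 6 * ‖L 4 - μ 4‖ ^ 2 * ‖p‖ ^ 18 / (132 / 100000) =
            6 * (‖L 4 - μ 4‖ ^ 2 * ‖p‖ ^ 18 / (132 / 100000)) := by ring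
        rw [h2]
        linarith
      · refine Finset.sum_le_sum (fun j hj => ?_)
        have hj5 : 5 ≤ j := (Finset.mem_Ico.mp hj).1
        have hj5' : (5:ℝ) ≤ j := by exact_mod_cast hj5
        have h0 := ml_q2_le L s hL hs (j := j) (by omega)
        have h0' := rr_five j hj5
        have hee : 0 < ee j := by rw [ml_ee_five hj5]; positivity
        have h1 : ‖L j - μ j‖ ^ 2 * ‖p‖ ^ (2 * tri j - 2) / (ee j - q2 L s j) ≤
            ‖L j - μ j‖ ^ 2 * ‖p‖ ^ (2 * tri j - 2) / (3 / 4 * ee j) :=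
          div_le_div_of_nonneg_left (by positivity) (by positivity) (by linarith)
        have h2 : ‖L j - μ j‖ ^ 2 * ‖p‖ ^ (2 * tri j - 2) / (3 / 4 * ee j) =
            ‖L j - μ j‖ ^ 2 * ‖p‖ ^ (2 * tri j - 2) * (4 / 3 * 10 ^ (j - 1)) := by
          rw [ml_ee_five hj5, one_div, inv_pow]
          field_simp
        rw [h2] at h1
        have h3 := mul_le_mul_of_nonneg_left h1
          (mul_nonneg (by linarith) (by linarith) : 0 ≤ ((j : ℝ) - 1) * (j - 2))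
        refine h3.trans (le_of_eq ?_)
        ring)
  unfold Phi telk pot
  have hsplit : ∑ j ∈ Finset.Ico 3 (J + 1), (2 * (L j * (TL ψ k j + TR ψ k j)).re +
      2 * s j * (conj (ψ k - ψ (k + 1)) * (TL ψ k j - TR ψ k j)).re + tele p μ ee ψ k j) =
      ∑ j ∈ Finset.Ico 3 (J + 1), 2 * (L j * (TL ψ k j + TR ψ k j)).re +
      ∑ j ∈ Finset.Ico 3 (J + 1),
        2 * s j * (conj (ψ k - ψ (k + 1)) * (TL ψ k j - TR ψ k j)).re +
      ∑ j ∈ Finset.Ico 3 (J + 1), tele p μ ee ψ k j := by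
    rw [← Finset.sum_add_distrib, ← Finset.sum_add_distrib]
  rw [hsplit] at hcore
  linarith

end Pool.Agent.MaxTerm8
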