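import Pool.Agent.MaxTerm8.LemmaT
import Pool.Agent.MaxTerm8.Dual
import Pool.Agent.MaxTerm8.DualC
import Pool.Agent.MaxTerm8.TailSum
import Pool.Agent.MaxTerm8.Master

/-! The master inequality of type C. -/

namespace Pool.Agent.MaxTerm8

open Complex ComplexConjugate

private theorem mc_ee_pos (j : ℕ) : 0 < ee j := by
  unfold ee
  split_ifs
  · norm_num
  · norm_num
  · positivity

private theorem mc_term (ψ : ℤ → ℂ) (hψ : ∀ k, ‖ψ k‖ ≤ 17 / 50) (p : ℂ) (hp : ‖p‖ ≤ 17 / 50)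
    (μ : ℕ → ℂ) (k : ℤ) (j : ℕ) (hj : 3 ≤ j) :
    2 * ((j : ℝ) - 1) * (j - 2) * (μ j * p ^ (tri j - 1) * ((ψ k + ψ (k + 1)) / 2 - p)).re -
      (((j : ℝ) - 1) * (j - 2) / 2 * ee j) * (‖ψ (k - 1) - p‖ ^ 2 + ‖ψ (k + 2) - p‖ ^ 2) -
      ((j : ℝ) - 1) * (j - 2) * ‖μ j‖ ^ 2 * ‖p‖ ^ (2 * tri j - 2) / ee j ≤
    tele p μ ee ψ k j := by
  have h := lemmaT ψ hψ p hp k j hj 0 μ 0 ee 0 0 (by simp) (by simp) (mc_ee_pos j)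
  simp only [zero_mul, mul_zero, Complex.zero_re, abs_zero, zero_sub, norm_neg, sub_zero,
    zero_add, add_zero] at h
  have e : ((j : ℝ) - 1) * (j - 2) * ‖μ j‖ ^ 2 * ‖p‖ ^ (2 * tri j - 2) / ee j =
      ((j : ℝ) - 1) * (j - 2) * (‖μ j‖ ^ 2 * ‖p‖ ^ (2 * tri j - 2) / ee j) := by
    ring
  rw [e]
  exact h

private theorem mc_TT1 (J : ℕ) (μ : ℕ → ℂ) (p A : ℂ) :
    (TT1 J (fun _ => 0) μ p * A).re = ∑ j ∈ Finset.Ico 3 (J + 1),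
      2 * ((j : ℝ) - 1) * (j - 2) * (μ j * p ^ (tri j - 1) * A).re := by
  unfold TT1
  rw [Finset.sum_mul, Complex.re_sum]
  refine Finset.sum_congr rfl fun j _ => ?_
  have e : (4 * (j : ℂ) * 0 + 2 * ((j : ℂ) - 1) * (j - 2) * μ j) * p ^ (tri j - 1) * A =
      ((2 * ((j : ℝ) - 1) * (j - 2) : ℝ) : ℂ) * (μ j * p ^ (tri j - 1) * A) := by
    push_cast
    ring
  rw [e, Complex.re_ofReal_mul]

private theorem mc_EC (J : ℕ) (hJ : 5 ≤ J) (μ : ℕ → ℂ) (p : ℂ) :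
    EC J μ p = ∑ j ∈ Finset.Ico 3 (J + 1),
      ((j : ℝ) - 1) * (j - 2) * ‖μ j‖ ^ 2 * ‖p‖ ^ (2 * tri j - 2) / ee j := by
  rw [Finset.sum_eq_sum_Ico_succ_bot (by omega : 3 < J + 1),
    Finset.sum_eq_sum_Ico_succ_bot (by omega : 3 + 1 < J + 1), ← add_assoc]
  unfold EC
  congr 1
  · have t3 : tri 3 = 6 := by decide
    have t4 : tri (3 + 1) = 10 := by decide
    have e3 : ee 3 = 7 / 100 := by simp [ee]
    have e4 : ee (3 + 1) = 9 / 2000 := by simp [ee]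
    rw [t3, t4, e3, e4]
    norm_num
  · refine Finset.sum_congr rfl fun j hj => ?_
    have hj' := Finset.mem_Ico.1 hj
    have e5 : ee j = (1 / 10) ^ (j - 1) := by
      unfold ee
      rw [if_neg (by omega), if_neg (by omega)]
    rw [e5, div_eq_mul_inv, ← inv_pow]
    norm_num

private theorem mc_r1 (J : ℕ) (hJ : 5 ≤ J) :
    ∑ j ∈ Finset.Ico 3 (J + 1), (((j : ℝ) - 1) * (j - 2) / 2 * ee j) ≤
      7 / 100 + (3 * (9 / 2000) + 73 / 100000) := by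
  rw [Finset.sum_eq_sum_Ico_succ_bot (by omega : 3 < J + 1)]
  refine add_le_add ?_ (sum_r1C J)
  have e3 : ee 3 = 7 / 100 := by simp [ee]
  rw [e3]
  norm_num

private theorem mc_tail (J : ℕ) (hJ : 5 ≤ J) (ψ : ℤ → ℂ) (hψ : ∀ k, ‖ψ k‖ ≤ 17 / 50) (p : ℂ)
    (hp : ‖p‖ ≤ 17 / 50) (μ : ℕ → ℂ) (k : ℤ) :
    (TT1 J (fun _ => 0) μ p * ((ψ k + ψ (k + 1)) / 2 - p)).re -
      (7 / 100 + (3 * (9 / 2000) + 73 / 100000)) *
        (‖ψ (k - 1) - p‖ ^ 2 + ‖ψ (k + 2) - p‖ ^ 2) - EC J μ p ≤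
    ∑ j ∈ Finset.Ico 3 (J + 1), tele p μ ee ψ k j := by
  have h1 := Finset.sum_le_sum fun j (hj : j ∈ Finset.Ico 3 (J + 1)) =>
    mc_term ψ hψ p hp μ k j (Finset.mem_Ico.1 hj).1
  rw [Finset.sum_sub_distrib, Finset.sum_sub_distrib, ← mc_TT1, ← mc_EC J hJ,
    ← Finset.sum_mul] at h1
  have h2 := mul_le_mul_of_nonneg_right (mc_r1 J hJ)
    (by positivity : 0 ≤ ‖ψ (k - 1) - p‖ ^ 2 + ‖ψ (k + 2) - p‖ ^ 2)
  linarith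

private theorem mc_par (a b : ℂ) : ‖a - b‖ ^ 2 + ‖a + b‖ ^ 2 = 2 * (‖a‖ ^ 2 + ‖b‖ ^ 2) := by
  have h := parallelogram_law_with_norm ℝ a b
  nlinarith [h]

/-- **Master inequality, type C.** `dual2` for the truncated function (`trunc2`, see `kp`), plus `lemmaT`
with `l = 0`, `σ = 0` for every `3 ≤ j ≤ J` (then `TL`, `TR` do not occur). -/
theorem master_C (J : ℕ) (hJ : 5 ≤ J) (ψ : ℤ → ℂ) (hψ : ∀ k, ‖ψ k‖ ≤ 17 / 50) (p : ℂ)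
    (hp : ‖p‖ ≤ 17 / 50) (μ : ℕ → ℂ) (g : ℂ) (k : ℤ)
    (h : XIneq 2 ψ k (kp + 927 / 20000 * (‖ψ k‖ ^ 2 + ‖ψ (k + 1)‖ ^ 2))) (w x : ℝ)
    (Y0 Y1 : ℂ) (hw0 : 0 ≤ w) (hw1 : w ≤ 1) (hx0 : -1 ≤ x) (hx1 : x ≤ 1) :
    Phi (lam w x Y0 Y1 0) (lam w x Y0 Y1 1) (lam w x Y0 Y1 2) 0
      (TT1 J (fun _ => 0) μ p) 0 g p (nu w x Y0 Y1) (sg w x 1) (sg w x 2)
      (13 / 20) (9 / 20) 0 (7 / 100 + (3 * (9 / 2000) + 73 / 100000))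
      (927 / 10000) (927 / 10000) (EC J μ p) 0
      (ψ k) (ψ (k + 1)) (ψ (k - 1)) (ψ (k + 2)) ≤ kp + telk J p μ g ψ k := by
  have hd := dual2 ψ k _ h w x Y0 Y1 hw0 hw1 hx0 hx1
  have ht := mc_tail J hJ ψ hψ p hp μ k
  have hpar := mc_par (ψ k) (ψ (k + 1))
  unfold Phi telk pot
  simp only [Complex.zero_re, zero_mul]
  linarith

end Pool.Agent.MaxTerm8
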