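import Pool.Agent.MaxTerm8.ChkS

/-! Certificates of Stage 1b (generated). -/

namespace Pool.Agent.MaxTerm8

def bxT0 : Bx := ⟨(-6/25), (-4/25), (1/20), (31/100)⟩

def treeT0 : Tr CT :=
 (.sy (.leaf (mkT (613/1000) (31/20) (929/1000) (18071/10000) (1693/10000) (2959/10000)))
 (.sy (.leaf (mkT (171/250) (387/250) (471/500) (18121/10000) (517/5000) (2401/10000)))
 (.sx (.leaf (mkT (793/1000) (299/200) (173/200) (17273/10000) 0 (78/625)))
 (.sy (.leaf (mkT (171/250) (1553/1000) (919/1000) (9023/5000) (329/10000) (433/2500)))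
 (.leaf (mkT (159/250) (751/500) (103/125) (4283/2500) 0 (57/500)))))))

theorem treeT0_ok : treeT0.check CT.chk outDisc vac bxT0 = true := by
  decide +kernel

end Pool.Agent.MaxTerm8
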