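import Pool.Agent.MaxTerm8.Dual

/-! Definitions for Stage 1. -/

namespace Pool.Agent.MaxTerm8

open Complex ComplexConjugate

/-- all dual inequalities of a window, with only the terms `j ≤ 2` -/
def DualBound (a b u v : ℂ) (M : ℝ) : Prop := ∀ (w x : ℝ) (Y0 Y1 : ℂ), 0 ≤ w → w ≤ 1 → -1 ≤ x →
  x ≤ 1 → 4 * (lam w x Y0 Y1 0).re + 2 * (lam w x Y0 Y1 1 * (a + b)).re +
    2 * (lam w x Y0 Y1 2 * (a ^ 2 * u + b ^ 2 * v)).re - nu w x Y0 Y1 +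
    sg w x 1 * ‖a - b‖ ^ 2 + 2 * sg w x 2 * (conj (a - b) * (a ^ 2 * u - b ^ 2 * v)).re ≤ M

/-- the box `A` -/
def InA (c : ℂ) : Prop := -24 / 100 ≤ c.re ∧ c.re ≤ -16 / 100 ∧ 5 / 100 ≤ c.im

/-- The window at `k` of a sequence. -/
def Win (ψ : ℤ → ℂ) (k : ℤ) : Prop :=
  InA ((ψ k + ψ (k + 1)) / 2) ∧ |((ψ k - ψ (k + 1)) / 2).im| < 35 / 1000

end Pool.Agent.MaxTerm8
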