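import Pool.Agent.MaxTerm8.ChkS
import Pool.Agent.MaxTerm8.DataT
import Pool.Agent.MaxTerm8.Stage1Defs

/-! Stage 1b: `|Im d|` is small. -/

namespace Pool.Agent.MaxTerm8

open Complex ComplexConjugate

/-- a concave quadratic is minimal at an end point -/
private lemma conc (p k l r t : ℝ) (hk : 0 ≤ k) (hl : l ≤ t) (hr : t ≤ r) :
    min (p * l - k * l ^ 2) (p * r - k * r ^ 2) ≤ p * t - k * t ^ 2 := by
  by_contra hcon
  push Not at hcon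
  have h1 : p * t - k * t ^ 2 < p * l - k * l ^ 2 := lt_of_lt_of_le hcon (min_le_left _ _)
  have h2 : p * t - k * t ^ 2 < p * r - k * r ^ 2 := lt_of_lt_of_le hcon (min_le_right _ _)
  have hlr : l < r := by
    rcases lt_or_ge l r with h | h
    · exact h
    · have : l = t := le_antisymm hl (hr.trans h)
      subst this; exact absurd h1 (lt_irrefl _)
  have e : (r - l) * (p * t - k * t ^ 2) = (r - t) * (p * l - k * l ^ 2) +
      (t - l) * (p * r - k * r ^ 2) + k * ((t - l) * (r - t) * (r - l)) := by ring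
  have h3 : 0 ≤ k * ((t - l) * (r - t) * (r - l)) := by
    have : 0 ≤ (t - l) * (r - t) * (r - l) :=
      mul_nonneg (mul_nonneg (by linarith) (by linarith)) (by linarith)
    positivity
  have h4 : (r - t) * (p * t - k * t ^ 2) ≤ (r - t) * (p * l - k * l ^ 2) :=
    mul_le_mul_of_nonneg_left h1.le (by linarith)
  have h5 : (t - l) * (p * t - k * t ^ 2) ≤ (t - l) * (p * r - k * r ^ 2) :=
    mul_le_mul_of_nonneg_left h2.le (by linarith)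
  rcases eq_or_lt_of_le hl with h | h
  · subst h; exact absurd h1 (lt_irrefl _)
  have h6 : (t - l) * (p * t - k * t ^ 2) < (t - l) * (p * r - k * r ^ 2) :=
    mul_lt_mul_of_pos_left h2 (by linarith)
  nlinarith

private lemma nsq_le {z : ℂ} {r : ℝ} (h : ‖z‖ ≤ r) : z.re ^ 2 + z.im ^ 2 ≤ r ^ 2 := by
  have h0 : ‖z‖ ^ 2 ≤ r ^ 2 := pow_le_pow_left₀ (norm_nonneg _) h 2
  rw [Complex.sq_norm, Complex.normSq_apply] at h0
  nlinarith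

/-- the analytic part, at one point of the circle -/
private lemma core (a b u v ζ Y : ℂ) (yn : ℝ)
    (hu : ‖u‖ ≤ 17 / 50) (hv : ‖v‖ ≤ 17 / 50) (hζ : ‖ζ‖ = 1) (hY : ‖Y‖ ≤ yn)
    (hz : ‖1 + ζ + a * conj ζ + b * ζ ^ 2 + a ^ 2 * u * (conj ζ) ^ 2 + b ^ 2 * v * ζ ^ 3‖ ^ 2 ≤
        kp + 927 / 20000 * (‖a‖ ^ 2 + ‖b‖ ^ 2)) :
    2 * (conj Y * (1 + ζ)).re - ‖Y‖ ^ 2 +
      (2 * conj Y * (conj ζ + ζ * ζ) * ((a + b) / 2)).re +
      (2 * conj Y * (conj ζ - ζ * ζ) * ((a - b) / 2)).re -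
      (4 * (17 / 50) * yn + 927 / 10000) *
        (‖(a + b) / 2‖ ^ 2 + ‖(a - b) / 2‖ ^ 2) ≤ kp := by
  set E : ℂ := a ^ 2 * u * (conj ζ) ^ 2 + b ^ 2 * v * ζ ^ 3 with hE
  set F : ℂ := 1 + ζ + a * conj ζ + b * ζ ^ 2 + E with hF
  have hFF : 1 + ζ + a * conj ζ + b * ζ ^ 2 + a ^ 2 * u * (conj ζ) ^ 2 + b ^ 2 * v * ζ ^ 3 = F := by
    rw [hF, hE]; ring
  rw [hFF] at hz
  have hEn : ‖E‖ ≤ 17 / 50 * (‖a‖ ^ 2 + ‖b‖ ^ 2) := by
    rw [hE]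
    refine (norm_add_le _ _).trans ?_
    rw [norm_mul, norm_mul, norm_mul, norm_mul, norm_pow, norm_pow, norm_pow, norm_pow,
      RCLike.norm_conj, hζ]
    have e1 : ‖a‖ ^ 2 * ‖u‖ ≤ ‖a‖ ^ 2 * (17 / 50) := by gcongr
    have e2 : ‖b‖ ^ 2 * ‖v‖ ≤ ‖b‖ ^ 2 * (17 / 50) := by gcongr
    simp only [one_pow, mul_one]
    linarith
  have hpar : ‖(a + b) / 2‖ ^ 2 + ‖(a - b) / 2‖ ^ 2 = (‖a‖ ^ 2 + ‖b‖ ^ 2) / 2 := by
    have hab : ‖a + b‖ ^ 2 + ‖a - b‖ ^ 2 = 2 * (‖a‖ ^ 2 + ‖b‖ ^ 2) := by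
      rw [Complex.sq_norm, Complex.sq_norm, Complex.sq_norm, Complex.sq_norm]
      simp only [Complex.normSq_apply, Complex.add_re, Complex.add_im, Complex.sub_re,
        Complex.sub_im]
      ring
    rw [norm_div, norm_div, div_pow, div_pow]
    have : ‖(2 : ℂ)‖ = 2 := by norm_num
    rw [this]
    linarith
  have h1 : 2 * (conj Y * F).re - ‖Y‖ ^ 2 ≤ ‖F‖ ^ 2 := by
    rw [Complex.sq_norm, Complex.sq_norm]
    simp only [Complex.normSq_apply, Complex.mul_re, Complex.conj_re, Complex.conj_im]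
    nlinarith [sq_nonneg (F.re - Y.re), sq_nonneg (F.im - Y.im)]
  have h2 : -(yn * (17 / 50 * (‖a‖ ^ 2 + ‖b‖ ^ 2))) ≤ (conj Y * E).re := by
    have e1 : |(conj Y * E).re| ≤ ‖conj Y * E‖ := Complex.abs_re_le_norm _
    rw [norm_mul, RCLike.norm_conj] at e1
    have e2 : ‖Y‖ * ‖E‖ ≤ yn * (17 / 50 * (‖a‖ ^ 2 + ‖b‖ ^ 2)) :=
      mul_le_mul hY hEn (norm_nonneg _) ((norm_nonneg _).trans hY)
    have e3 := abs_le.mp e1
    linarith [e3.1]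
  have h3 : 2 * (conj Y * F).re = 2 * (conj Y * (1 + ζ)).re +
      (2 * conj Y * (conj ζ + ζ * ζ) * ((a + b) / 2)).re +
      (2 * conj Y * (conj ζ - ζ * ζ) * ((a - b) / 2)).re + 2 * (conj Y * E).re := by
    have e1 : (2 : ℂ) * (conj Y * F) = 2 * (conj Y * (1 + ζ)) +
      (2 * conj Y * (conj ζ + ζ * ζ) * ((a + b) / 2)) +
      (2 * conj Y * (conj ζ - ζ * ζ) * ((a - b) / 2)) + 2 * (conj Y * E) := by
      rw [hF]; ring
    have e2 := congrArg Complex.re e1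
    simp only [Complex.add_re] at e2
    have e4 : ∀ w : ℂ, ((2 : ℂ) * w).re = 2 * w.re := by
      intro w; simp [Complex.mul_re]
    rw [e4, e4, e4] at e2
    simpa only [Complex.add_re] using e2
  rw [hpar]
  nlinarith [h1, h2, h3, hz]

/-- With `Y` of the certificate `‖F‖^2 ≥ 2 Re (conj Y F) - ‖Y‖^2`, `a ζ⁻¹ + b ζ^2 = c (conj ζ + ζ^2) +
d (conj ζ - ζ^2)`, `‖a^2 u .. + b^2 v ..‖ ≤ 2 R (‖c‖^2 + ‖d‖^2)`. `Re (be d) = be.re * d.re - be.im * d.im`;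
`d.im ∈ [35/1000, Dm]` (`‖d‖^2 ≤ R^2 - ‖c‖^2`) and `d.re ∈ [-D1, 17/50 + x2]`: from `‖a‖ ≤ R`,
`a.im ≥ y1 + 35/1000` we get `|c.re + d.re| ≤ √(R^2 - (y1 + 35/1000)^2) ≤ D1 - x2`, so
`d.re ≥ x2 - D1 - c.re ≥ -D1` (`c.re ≤ x2`), and `c.re - d.re ≥ -17/50`. The functions
`be.re t - k t^2` and `-be.im t - k t^2` are concave, so their minima are at the end points. -/
theorem ct_sound (B : Bx) (z : CT) (h : CT.chk B z = true) (a b u v : ℂ)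
    (hc : B.Mem ((a + b) / 2)) (ha : ‖a‖ ≤ 17 / 50) (hb : ‖b‖ ≤ 17 / 50) (hu : ‖u‖ ≤ 17 / 50)
    (hv : ‖v‖ ≤ 17 / 50) (hz : ∀ ζ : ℂ, ‖ζ‖ = 1 →
      ‖1 + ζ + a * conj ζ + b * ζ ^ 2 + a ^ 2 * u * (conj ζ) ^ 2 + b ^ 2 * v * ζ ^ 3‖ ^ 2 ≤
        kp + 927 / 20000 * (‖a‖ ^ 2 + ‖b‖ ^ 2)) (hd : 35 / 1000 ≤ ((a - b) / 2).im) : False := by
  unfold CT.chk CT.side CT.main at h
  simp only [Bool.and_eq_true, decide_eq_true_eq] at h
  obtain ⟨⟨⟨⟨⟨⟨⟨⟨⟨⟨⟨hyn, hY2⟩, hhx⟩, hhy⟩, hx2⟩, hy1⟩, hD1⟩, hRx⟩, hDm⟩, hDD⟩, hDmm⟩, hmain⟩ := h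
  -- the complex numbers of the certificate
  set Y : ℂ := z.Y.toC with hYdef
  set ζ : ℂ := z.ze.toC with hζdef
  set C1 : ℂ := B.ct.toC with hC1def
  have eAL : z.al.toC = 2 * conj Y * (conj ζ + ζ * ζ) := by
    unfold CT.al
    rw [GQ.toC_mul, GQ.toC_sm, GQ.toC_cj, GQ.toC_add, GQ.toC_mul, GQ.toC_cj]
    push_cast
    rfl
  have eBE : z.be.toC = 2 * conj Y * (conj ζ - ζ * ζ) := by
    unfold CT.be
    rw [GQ.toC_mul, GQ.toC_sm, GQ.toC_cj, GQ.toC_sub, GQ.toC_mul, GQ.toC_cj]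
    push_cast
    rfl
  have eGR : (z.gr B.ct).toC = z.al.toC - ((2 * (z.k : ℝ) : ℝ) : ℂ) * conj C1 := by
    unfold CT.gr
    rw [GQ.toC_sub, GQ.toC_sm, GQ.toC_cj]
    push_cast
    rfl
  have e1 : (((z.Y.cj * (GQ.ofQ 1 + z.ze)).re : ℚ) : ℝ) = (conj Y * (1 + ζ)).re := by
    have : (((z.Y.cj * (GQ.ofQ 1 + z.ze)).re : ℚ) : ℝ) =
      (z.Y.cj * (GQ.ofQ 1 + z.ze)).toC.re := rfl
    rw [this, GQ.toC_mul, GQ.toC_cj, GQ.toC_add, GQ.toC_ofQ]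
    simp [hYdef, hζdef]
  have e2 : (((z.al * B.ct).re : ℚ) : ℝ) = (z.al.toC * C1).re := by
    have : (((z.al * B.ct).re : ℚ) : ℝ) = (z.al * B.ct).toC.re := rfl
    rw [this, GQ.toC_mul]
  have e3 : ((z.Y.n2 : ℚ) : ℝ) = ‖Y‖ ^ 2 := GQ.n2_eq _
  have e4 : ((B.ct.n2 : ℚ) : ℝ) = ‖C1‖ ^ 2 := GQ.n2_eq _
  have hζ : ‖ζ‖ = 1 := by
    have hs : (0 : ℚ) < 1 + z.s ^ 2 := by positivity
    have h1 : z.ze.n2 = 1 := by
      unfold GQ.n2 CT.ze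
      field_simp
      ring
    have h2 : ‖ζ‖ ^ 2 = 1 := by
      rw [hζdef, ← GQ.n2_eq, h1]; simp
    have h3 : 0 ≤ ‖ζ‖ := norm_nonneg _
    nlinarith [sq_nonneg (‖ζ‖ - 1), sq_nonneg (‖ζ‖ + 1)]
  have hyn' : (0 : ℝ) ≤ (z.yn : ℝ) := by exact_mod_cast hyn
  have hYn : ‖Y‖ ≤ (z.yn : ℝ) := by
    have h2 : ‖Y‖ ^ 2 ≤ (z.yn : ℝ) ^ 2 := by rw [← e3]; exact_mod_cast hY2
    exact le_of_sq_le_sq h2 hyn'
  have hcore := core a b u v ζ Y z.yn hu hv hζ hYn (hz ζ hζ)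
  rw [← eAL, ← eBE] at hcore
  -- names for the coordinates
  obtain ⟨hcx1, hcx2, hcy1, hcy2⟩ := hc
  set c : ℂ := (a + b) / 2 with hcdef
  set d : ℂ := (a - b) / 2 with hddef
  have hab : a = c + d := by rw [hcdef, hddef]; ring
  have hbb : b = c - d := by rw [hcdef, hddef]; ring
  have hare : a.re = c.re + d.re := by rw [hab]; simp
  have haim : a.im = c.im + d.im := by rw [hab]; simp
  have hbre : b.re = c.re - d.re := by rw [hbb]; simp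
  have hbim : b.im = c.im - d.im := by rw [hbb]; simp
  have hA := nsq_le ha
  have hB := nsq_le hb
  rw [hare, haim] at hA
  rw [hbre, hbim] at hB
  set k : ℝ := (z.k : ℝ) with hkdef
  have hk : k = 4 * (17 / 50) * (z.yn : ℝ) + 927 / 10000 := by
    rw [hkdef]; unfold CT.k; push_cast; ring
  have hk0 : 0 ≤ k := by rw [hk]; positivity
  rw [← hk] at hcore
  -- casts of the side conditions
  have hx2' : (B.x2 : ℝ) ≤ 0 := by exact_mod_cast hx2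
  have hy1' : (0 : ℝ) ≤ (B.y1 : ℝ) := by exact_mod_cast hy1
  have hD1' : (0 : ℝ) ≤ (z.D1 : ℝ) := by exact_mod_cast hD1
  have hRx' : (0 : ℝ) ≤ 17 / 50 + (B.x2 : ℝ) := by
    have : ((0 : ℚ) : ℝ) ≤ ((17 / 50 + B.x2 : ℚ) : ℝ) := by exact_mod_cast hRx
    push_cast at this; exact this
  have hDm' : (35 / 1000 : ℝ) ≤ (z.Dm : ℝ) := by
    have : ((35 / 1000 : ℚ) : ℝ) ≤ ((z.Dm : ℚ) : ℝ) := by exact_mod_cast hDm
    push_cast at this; exact this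
  have hDD' : (17 / 50 : ℝ) ^ 2 - ((B.y1 : ℝ) + 35 / 1000) ^ 2 ≤ ((z.D1 : ℝ) - B.x2) ^ 2 := by
    have : (((17 / 50) ^ 2 - (B.y1 + 35 / 1000) ^ 2 : ℚ) : ℝ) ≤ (((z.D1 - B.x2) ^ 2 : ℚ) : ℝ) := by
      exact_mod_cast hDD
    push_cast at this; exact this
  have hDmm' : (17 / 50 : ℝ) ^ 2 - (B.x2 : ℝ) ^ 2 - (B.y1 : ℝ) ^ 2 ≤ (z.Dm : ℝ) ^ 2 := by
    have : (((17 / 50) ^ 2 - B.x2 ^ 2 - B.y1 ^ 2 : ℚ) : ℝ) ≤ ((z.Dm ^ 2 : ℚ) : ℝ) := by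
      exact_mod_cast hDmm
    push_cast at this; exact this
  -- ranges of d
  have hdre2 : d.re ≤ 17 / 50 + (B.x2 : ℝ) := by
    have : -(17 / 50) ≤ c.re - d.re := by
      have h0 : (c.re - d.re) ^ 2 ≤ (17 / 50 : ℝ) ^ 2 := by nlinarith [sq_nonneg (c.im - d.im)]
      exact (abs_le.mp (abs_le_of_sq_le_sq h0 (by norm_num))).1
    linarith
  have hdre1 : -(z.D1 : ℝ) ≤ d.re := by
    have h0 : (c.re + d.re) ^ 2 ≤ ((z.D1 : ℝ) - B.x2) ^ 2 := by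
      have : ((B.y1 : ℝ) + 35 / 1000) ^ 2 ≤ (c.im + d.im) ^ 2 := by
        apply pow_le_pow_left₀ (by linarith)
        linarith
      nlinarith
    have h1 := (abs_le.mp (abs_le_of_sq_le_sq h0 (by linarith))).1
    linarith
  have hdim2 : d.im ≤ (z.Dm : ℝ) := by
    have h0 : d.im ^ 2 ≤ (z.Dm : ℝ) ^ 2 := by
      have f1 : (B.x2 : ℝ) ^ 2 ≤ c.re ^ 2 := by nlinarith
      have f2 : (B.y1 : ℝ) ^ 2 ≤ c.im ^ 2 := by nlinarith
      nlinarith [sq_nonneg d.re]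
    exact (abs_le.mp (abs_le_of_sq_le_sq h0 (by linarith))).2
  have hf := conc z.be.toC.re k (-(z.D1 : ℝ)) (17 / 50 + (B.x2 : ℝ)) d.re hk0 hdre1 hdre2
  have hg := conc (-z.be.toC.im) k (35 / 1000) (z.Dm : ℝ) d.im hk0 hd hdim2
  -- main inequality
  have hmain' : (((2921266961 / 1000000000 + 1 / 1000000 : ℚ)) : ℝ) ≤
    ((2 * (z.Y.cj * (GQ.ofQ 1 + z.ze)).re - z.Y.n2 + (z.al * B.ct).re - z.k * B.ct.n2 -
    |(z.gr B.ct).re| * B.hx - |(z.gr B.ct).im| * B.hy - z.k * (B.hx ^ 2 + B.hy ^ 2) +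
    min (min (-z.be.re * z.D1 - z.k * z.D1 ^ 2)
      (z.be.re * (17 / 50 + B.x2) - z.k * (17 / 50 + B.x2) ^ 2)) 0 +
    min (-z.be.im * (35 / 1000) - z.k * (35 / 1000) ^ 2)
      (-z.be.im * z.Dm - z.k * z.Dm ^ 2) : ℚ) : ℝ) := by
    exact_mod_cast hmain
  push_cast at hmain'
  rw [e1, e2, e3, e4] at hmain'
  have r1 : ((z.be.re : ℚ) : ℝ) = z.be.toC.re := rfl
  have r2 : ((z.be.im : ℚ) : ℝ) = z.be.toC.im := rfl
  have r3 : (((z.gr B.ct).re : ℚ) : ℝ) = (z.gr B.ct).toC.re := rfl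
  have r4 : (((z.gr B.ct).im : ℚ) : ℝ) = (z.gr B.ct).toC.im := rfl
  rw [r1, r2, r3, r4, ← hkdef] at hmain'
  have m1 : min (min (-z.be.toC.re * (z.D1 : ℝ) - k * (z.D1 : ℝ) ^ 2)
      (z.be.toC.re * (17 / 50 + (B.x2 : ℝ)) - k * (17 / 50 + (B.x2 : ℝ)) ^ 2)) 0 ≤
      z.be.toC.re * d.re - k * d.re ^ 2 := by
    refine (min_le_left _ _).trans ?_
    have e : -z.be.toC.re * (z.D1 : ℝ) - k * (z.D1 : ℝ) ^ 2 =
      z.be.toC.re * (-(z.D1 : ℝ)) - k * (-(z.D1 : ℝ)) ^ 2 := by ring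
    rw [e]
    exact hf
  -- the step from the centre
  set h1 : ℝ := c.re - C1.re with hh1
  set h2 : ℝ := c.im - C1.im with hh2
  have hC1re : C1.re = ((B.x1 : ℝ) + B.x2) / 2 := by
    rw [hC1def]; unfold Bx.ct GQ.toC; push_cast; rfl
  have hC1im : C1.im = ((B.y1 : ℝ) + B.y2) / 2 := by
    rw [hC1def]; unfold Bx.ct GQ.toC; push_cast; rfl
  have hhxr : (B.hx : ℝ) = ((B.x2 : ℝ) - B.x1) / 2 := by unfold Bx.hx; push_cast; rfl
  have hhyr : (B.hy : ℝ) = ((B.y2 : ℝ) - B.y1) / 2 := by unfold Bx.hy; push_cast; rfl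
  have a1 : |h1| ≤ (B.hx : ℝ) := by
    rw [hhxr, hh1, hC1re, abs_le]
    constructor <;> linarith
  have a2 : |h2| ≤ (B.hy : ℝ) := by
    rw [hhyr, hh2, hC1im, abs_le]
    constructor <;> linarith
  have hx0 : (0 : ℝ) ≤ (B.hx : ℝ) := (abs_nonneg _).trans a1
  have hy0 : (0 : ℝ) ≤ (B.hy : ℝ) := (abs_nonneg _).trans a2
  have g1 : -(|(z.gr B.ct).toC.re| * (B.hx : ℝ)) ≤ (z.gr B.ct).toC.re * h1 := by
    have := neg_abs_le ((z.gr B.ct).toC.re * h1)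
    rw [abs_mul] at this
    have q := mul_le_mul_of_nonneg_left a1 (abs_nonneg (z.gr B.ct).toC.re)
    linarith
  have g2 : (z.gr B.ct).toC.im * h2 ≤ |(z.gr B.ct).toC.im| * (B.hy : ℝ) := by
    have := le_abs_self ((z.gr B.ct).toC.im * h2)
    rw [abs_mul] at this
    have q := mul_le_mul_of_nonneg_left a2 (abs_nonneg (z.gr B.ct).toC.im)
    linarith
  have g3 : k * (h1 ^ 2 + h2 ^ 2) ≤ k * ((B.hx : ℝ) ^ 2 + (B.hy : ℝ) ^ 2) := by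
    apply mul_le_mul_of_nonneg_left _ hk0
    have q1 : h1 ^ 2 ≤ (B.hx : ℝ) ^ 2 := by
      rw [← sq_abs h1]; exact pow_le_pow_left₀ (abs_nonneg _) a1 2
    have q2 : h2 ^ 2 ≤ (B.hy : ℝ) ^ 2 := by
      rw [← sq_abs h2]; exact pow_le_pow_left₀ (abs_nonneg _) a2 2
    linarith
  have gre : (z.gr B.ct).toC.re = z.al.toC.re - 2 * k * C1.re := by
    rw [eGR]; simp [Complex.mul_re]
  have gim : (z.gr B.ct).toC.im = z.al.toC.im + 2 * k * C1.im := by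
    rw [eGR]; simp [Complex.mul_im]
  have g4 : (z.al.toC * c).re - k * ‖c‖ ^ 2 = (z.al.toC * C1).re - k * ‖C1‖ ^ 2 +
      (z.gr B.ct).toC.re * h1 - (z.gr B.ct).toC.im * h2 - k * (h1 ^ 2 + h2 ^ 2) := by
    rw [gre, gim, Complex.sq_norm, Complex.sq_norm, Complex.normSq_apply, Complex.normSq_apply,
      Complex.mul_re, Complex.mul_re, hh1, hh2]
    ring
  have g5 : (z.be.toC * d).re - k * ‖d‖ ^ 2 = (z.be.toC.re * d.re - k * d.re ^ 2) +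
      (-z.be.toC.im * d.im - k * d.im ^ 2) := by
    rw [Complex.sq_norm, Complex.normSq_apply, Complex.mul_re]
    ring
  have hkp : kp = 2921266961 / 1000000000 := rfl
  rw [hkp] at hcore
  have hfin : 2 * (conj Y * (1 + ζ)).re - ‖Y‖ ^ 2 + ((z.al.toC * c).re - k * ‖c‖ ^ 2) +
      ((z.be.toC * d).re - k * ‖d‖ ^ 2) ≤ 2921266961 / 1000000000 := by
    linarith
  rw [g4, g5] at hfin
  have m2 : min (-z.be.toC.im * (35 / 1000) - k * (35 / 1000) ^ 2)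
      (-z.be.toC.im * (z.Dm : ℝ) - k * (z.Dm : ℝ) ^ 2) ≤
      -z.be.toC.im * d.im - k * d.im ^ 2 := hg
  linarith

private theorem treeT0_ok' :
    treeT0.check CT.chk (fun _ => false) (fun _ => false) bxT0 = true := by
  decide +kernel

private lemma half (a b u v : ℂ) (ha : ‖a‖ ≤ 17 / 50) (hb : ‖b‖ ≤ 17 / 50) (hu : ‖u‖ ≤ 17 / 50)
    (hv : ‖v‖ ≤ 17 / 50) (hz : ∀ ζ : ℂ, ‖ζ‖ = 1 →
      ‖1 + ζ + a * conj ζ + b * ζ ^ 2 + a ^ 2 * u * (conj ζ) ^ 2 + b ^ 2 * v * ζ ^ 3‖ ^ 2 ≤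
        kp + 927 / 20000 * (‖a‖ ^ 2 + ‖b‖ ^ 2)) (hA : InA ((a + b) / 2))
    (hd : 35 / 1000 ≤ ((a - b) / 2).im) : False := by
  have hc : ‖(a + b) / 2‖ ≤ 17 / 50 := by
    rw [norm_div]
    have : ‖(2 : ℂ)‖ = 2 := by norm_num
    rw [this]
    have := norm_add_le a b
    linarith
  have hsq := nsq_le hc
  obtain ⟨h1, h2, h3⟩ := hA
  have hmem : bxT0.Mem ((a + b) / 2) := by
    unfold bxT0 Bx.Mem
    push_cast
    refine ⟨by linarith, by linarith, by linarith, ?_⟩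
    have h4 : (16 / 100 : ℝ) ^ 2 ≤ ((a + b) / 2).re ^ 2 := by nlinarith
    have h5 : ((a + b) / 2).im ^ 2 ≤ (31 / 100 : ℝ) ^ 2 := by nlinarith
    exact (abs_le.mp (abs_le_of_sq_le_sq h5 (by norm_num))).2
  exact Tr.sound CT.chk (fun _ => false) (fun _ => false) (fun c => c = (a + b) / 2 → False)
    (fun B z hz' c hc hcc => ct_sound B z hz' a b u v (hcc ▸ hc) ha hb hu hv hz hd)
    (fun B h => absurd h (by simp)) (fun B h => absurd h (by simp)) treeT0 bxT0 treeT0_ok'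
    ((a + b) / 2) hmem rfl

/-- If `(a-b)/2.im ≥ 35/1000`: `ct_sound`, `vac` (then `‖a‖ > 17/50`), `Tr.sound` for `treeT0`
(`c.im ≤ .31` because `‖c‖ ≤ 17/50`, `c.re ≤ -.16`). If `≤ -35/1000`: exchange `(a, u)` and `(b, v)`;
the hypothesis is symmetric (replace `ζ` by `conj ζ` and multiply by `ζ`). -/
theorem stage1b (a b u v : ℂ) (ha : ‖a‖ ≤ 17 / 50) (hb : ‖b‖ ≤ 17 / 50) (hu : ‖u‖ ≤ 17 / 50)
    (hv : ‖v‖ ≤ 17 / 50) (hz : ∀ ζ : ℂ, ‖ζ‖ = 1 →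
      ‖1 + ζ + a * conj ζ + b * ζ ^ 2 + a ^ 2 * u * (conj ζ) ^ 2 + b ^ 2 * v * ζ ^ 3‖ ^ 2 ≤
        kp + 927 / 20000 * (‖a‖ ^ 2 + ‖b‖ ^ 2)) (hA : InA ((a + b) / 2)) :
    |((a - b) / 2).im| < 35 / 1000 := by
  by_contra hcon
  push Not at hcon
  rcases le_abs.mp hcon with h | h
  · exact half a b u v ha hb hu hv hz hA h
  · refine half b a v u hb ha hv hu ?_ (by rwa [add_comm]) ?_
    · intro ζ hζ
      have h1 := hz (conj ζ) (by rw [RCLike.norm_conj]; exact hζ)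
      have hzz : ζ * conj ζ = 1 := by
        rw [Complex.mul_conj, Complex.normSq_eq_norm_sq, hζ]; simp
      have e : 1 + ζ + b * conj ζ + a * ζ ^ 2 + b ^ 2 * v * (conj ζ) ^ 2 + a ^ 2 * u * ζ ^ 3 =
          ζ * (1 + conj ζ + a * conj (conj ζ) + b * (conj ζ) ^ 2 +
            a ^ 2 * u * (conj (conj ζ)) ^ 2 + b ^ 2 * v * (conj ζ) ^ 3) := by
        rw [Complex.conj_conj]
        have q1 : ζ * (b * conj ζ ^ 2) = b * conj ζ := by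
          calc ζ * (b * conj ζ ^ 2) = b * conj ζ * (ζ * conj ζ) := by ring
            _ = b * conj ζ := by rw [hzz, mul_one]
        have q2 : ζ * (b ^ 2 * v * conj ζ ^ 3) = b ^ 2 * v * conj ζ ^ 2 := by
          calc ζ * (b ^ 2 * v * conj ζ ^ 3) = b ^ 2 * v * conj ζ ^ 2 * (ζ * conj ζ) := by ring
            _ = b ^ 2 * v * conj ζ ^ 2 := by rw [hzz, mul_one]
        rw [mul_add, mul_add, mul_add, mul_add, mul_add, q1, q2, hzz]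
        ring
      rw [e, norm_mul, hζ, one_mul, add_comm (‖b‖ ^ 2)]
      exact h1
    · have : ((b - a) / 2) = -((a - b) / 2) := by ring
      rw [this, Complex.neg_im]
      exact h

end Pool.Agent.MaxTerm8
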