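import Pool.Agent.MaxTerm8.XForm

/-! Dropping all terms with `j ≥ 3`. -/

namespace Pool.Agent.MaxTerm8

open Complex ComplexConjugate

private theorem tri_succ' (j : ℕ) : tri (j + 1) = tri j + (j + 1) := by
  unfold tri
  have h : (j + 1) * (j + 1 + 1) = j * (j + 1) + (j + 1) * 2 := by ring
  rw [h, Nat.add_mul_div_right _ _ (by norm_num)]

private theorem prod_le (R : ℝ) (hR : 0 ≤ R) (m : ℕ) : ∀ f : ℕ → ℝ, (∀ i, 0 ≤ f i) →
    (∀ i, f i ≤ R) → ∏ i ∈ Finset.range m, f i ^ (m - i) ≤ R ^ tri m := by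
  induction m with
  | zero => intro f _ _; simp [tri]
  | succ m ih =>
    intro f h0 h1
    rw [Finset.prod_range_succ', tri_succ', pow_add]
    have e : ∏ i ∈ Finset.range m, f (i + 1) ^ (m + 1 - (i + 1)) =
        ∏ i ∈ Finset.range m, f (i + 1) ^ (m - i) :=
      Finset.prod_congr rfl fun i _ => by congr 1; omega
    rw [e]
    refine mul_le_mul (ih (fun i => f (i + 1)) (fun i => h0 _) (fun i => h1 _)) ?_
      (pow_nonneg (h0 0) _) (pow_nonneg hR _)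
    exact pow_le_pow_left₀ (h0 0) (h1 0) _

private theorem prod_le2 (R : ℝ) (hR : 0 ≤ R) (j : ℕ) (hj : 2 ≤ j) (f : ℕ → ℝ)
    (h0 : ∀ i, 0 ≤ f i) (h1 : ∀ i, f i ≤ R) :
    ∏ i ∈ Finset.range j, f i ^ (j - i) ≤ f 0 ^ 2 * R ^ (tri j - 2) := by
  obtain ⟨m, rfl⟩ : ∃ m, j = m + 2 := ⟨j - 2, by omega⟩
  rw [Finset.prod_range_succ']
  have e : ∏ i ∈ Finset.range (m + 1), f (i + 1) ^ (m + 2 - (i + 1)) =
      ∏ i ∈ Finset.range (m + 1), f (i + 1) ^ (m + 1 - i) :=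
    Finset.prod_congr rfl fun i _ => by congr 1; omega
  rw [e]
  have e2 : tri (m + 2) - 2 = tri (m + 1) + m := by rw [tri_succ' (m + 1)]; omega
  have e3 : m + 2 - 0 = 2 + m := by omega
  rw [e2, e3, pow_add, pow_add]
  have h2 := prod_le R hR (m + 1) (fun i => f (i + 1)) (fun i => h0 _) (fun i => h1 _)
  have h3 : f 0 ^ m ≤ R ^ m := pow_le_pow_left₀ (h0 0) (h1 0) _
  calc (∏ i ∈ Finset.range (m + 1), f (i + 1) ^ (m + 1 - i)) * (f 0 ^ 2 * f 0 ^ m)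
      ≤ R ^ tri (m + 1) * (f 0 ^ 2 * R ^ m) :=
        mul_le_mul h2 (mul_le_mul_of_nonneg_left h3 (pow_nonneg (h0 0) _))
          (mul_nonneg (pow_nonneg (h0 0) _) (pow_nonneg (h0 0) _)) (pow_nonneg hR _)
    _ = f 0 ^ 2 * (R ^ tri (m + 1) * R ^ m) := by ring

/-- All factors have norm at most `17/50`; the product has `tri j` factors, at least `j ≥ 2` of them
equal to `ψ k`. -/
theorem tl_norm (ψ : ℤ → ℂ) (hψ : ∀ k, ‖ψ k‖ ≤ 17 / 50) (k : ℤ) (j : ℕ) (hj : 2 ≤ j) :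
    ‖TL ψ k j‖ ≤ ‖ψ k‖ ^ 2 * (17 / 50) ^ (tri j - 2) ∧
    ‖TR ψ k j‖ ≤ ‖ψ (k + 1)‖ ^ 2 * (17 / 50) ^ (tri j - 2) := by
  have h1 := prod_le2 (17 / 50) (by norm_num) j hj (fun i => ‖ψ (k - i)‖)
    (fun i => norm_nonneg _) (fun i => hψ _)
  have h2 := prod_le2 (17 / 50) (by norm_num) j hj (fun i => ‖ψ (k + 1 + i)‖)
    (fun i => norm_nonneg _) (fun i => hψ _)
  unfold TL TR
  rw [norm_prod, norm_prod]
  simp only [norm_pow]
  simp only [Nat.cast_zero, sub_zero, add_zero] at h1 h2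
  exact ⟨h1, h2⟩

private theorem norm_exp_I (x : ℝ) : ‖exp ((x : ℂ) * I)‖ = 1 := Complex.norm_exp_ofReal_mul_I x

private theorem ft_norm (ψ : ℤ → ℂ) (k : ℤ) (t : ℝ) (j : ℕ) :
    ‖FT ψ k t j‖ ≤ ‖TL ψ k j‖ + ‖TR ψ k j‖ := by
  unfold FT
  refine (norm_add_le _ _).trans ?_
  rw [norm_mul, norm_mul]
  have e1 : -((2 * (j : ℂ) + 1) * t * I) = ((-((2 * (j : ℝ) + 1) * t) : ℝ) : ℂ) * I := by
    push_cast; ring
  have e2 : (2 * (j : ℂ) + 1) * t * I = (((2 * (j : ℝ) + 1) * t : ℝ) : ℂ) * I := by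
    push_cast; ring
  rw [e1, e2, norm_exp_I, norm_exp_I, mul_one, mul_one]

private theorem tri_ge' (j : ℕ) (hj : 5 ≤ j) : 15 ≤ tri j := by
  induction j, hj using Nat.le_induction with
  | base => decide
  | succ n hn ih => rw [tri_succ']; omega

private theorem pow_bound' (j : ℕ) (hj : 5 ≤ j) :
    (17 / 50 : ℝ) ^ (tri j - 2) ≤ (17 / 50) ^ 13 * (1 / 100) ^ (j - 5) := by
  induction j, hj using Nat.le_induction with
  | base => norm_num [tri]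
  | succ n hn ih =>
    have e : n + 1 - 5 = (n - 5) + 1 := by omega
    have e2 : (17 / 50 : ℝ) ^ 13 * (1 / 100) ^ (n + 1 - 5) =
        (17 / 50) ^ 13 * (1 / 100) ^ (n - 5) * (1 / 100) := by
      rw [e]; ring
    have e3 : (17 / 50 : ℝ) ^ (tri (n + 1) - 2) = (17 / 50) ^ (tri n - 2) * (17 / 50) ^ (n + 1) := by
      rw [← pow_add]
      congr 1
      have := tri_ge' n hn
      rw [tri_succ']
      omega
    rw [e3, e2]
    refine mul_le_mul ih ?_ (by positivity) (by positivity)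
    have h : (17 / 50 : ℝ) ^ (n + 1) ≤ (17 / 50) ^ 6 :=
      pow_le_pow_of_le_one (by norm_num) (by norm_num) (by omega)
    exact h.trans (by norm_num)

private theorem eps_sum (J : ℕ) :
    ∑ j ∈ Finset.Ico 3 (J + 1), (17 / 50 : ℝ) ^ (tri j - 2) ≤ 13543 / 1000000 := by
  have h5 : ∑ j ∈ Finset.Ico 5 (J + 1), (17 / 50 : ℝ) ^ (tri j - 2) ≤ (17 / 50) ^ 13 * (100 / 99) := by
    have h1 : ∑ j ∈ Finset.Ico 5 (J + 1), (17 / 50 : ℝ) ^ (tri j - 2) ≤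
        ∑ j ∈ Finset.Ico 5 (J + 1), (17 / 50 : ℝ) ^ 13 * (1 / 100) ^ (j - 5) :=
      Finset.sum_le_sum fun j hj => pow_bound' j (Finset.mem_Ico.mp hj).1
    refine h1.trans ?_
    rw [← Finset.mul_sum, Finset.sum_Ico_eq_sum_range]
    have e : ∀ i, 5 + i - 5 = i := fun i => by omega
    simp only [e]
    refine mul_le_mul_of_nonneg_left ?_ (by positivity)
    rw [geom_sum_eq (by norm_num)]
    have h0 : (0 : ℝ) ≤ (1 / 100) ^ (J + 1 - 5) := by positivity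
    rw [div_le_iff_of_neg (by norm_num)]
    linarith
  have hsub : ∑ j ∈ Finset.Ico 3 (J + 1), (17 / 50 : ℝ) ^ (tri j - 2) ≤
      ∑ j ∈ Finset.Ico 3 (J + 1 + 2), (17 / 50 : ℝ) ^ (tri j - 2) :=
    Finset.sum_le_sum_of_subset_of_nonneg (Finset.Ico_subset_Ico_right (by omega))
      (fun _ _ _ => by positivity)
  by_cases hJ : 4 ≤ J
  · rw [Finset.sum_eq_sum_Ico_succ_bot (by omega), Finset.sum_eq_sum_Ico_succ_bot (by omega)]
    have e3 : (17 / 50 : ℝ) ^ (tri 3 - 2) = (17 / 50) ^ 4 := by norm_num [tri]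
    have e4 : (17 / 50 : ℝ) ^ (tri (3 + 1) - 2) = (17 / 50) ^ 8 := by norm_num [tri]
    rw [e3, e4]
    have : (17 / 50 : ℝ) ^ 4 + ((17 / 50) ^ 8 + (17 / 50) ^ 13 * (100 / 99)) ≤ 13543 / 1000000 := by
      norm_num
    exact (add_le_add le_rfl (add_le_add le_rfl h5)).trans this
  · have hJ' : Finset.Ico 3 (J + 1) ⊆ {3} := by
      intro x hx
      rw [Finset.mem_Ico] at hx
      rw [Finset.mem_singleton]; omega
    refine (Finset.sum_le_sum_of_subset_of_nonneg hJ' (fun _ _ _ => by positivity)).trans ?_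
    rw [Finset.sum_singleton]
    norm_num [tri]

/-- `‖FJ J - FJ 2‖ ≤ ∑_{j ≥ 3} (‖TL‖ + ‖TR‖) ≤ ε (‖ψ k‖^2 + ‖ψ (k+1)‖^2)` with
`ε = ∑_{j≥3} (17/50)^(tri j - 2) ≤ .013543` (`tri j - 2 ≥ 4, 8, 13, 13 + 4 (j - 5)`), so
`‖FJ 2‖^2 ≤ (√kp + ε s)^2 = kp + 2 √kp ε s + ε^2 s^2`, `s = ‖ψ k‖^2 + ‖ψ (k+1)‖^2 ≤ .2312`,
`√kp ≤ 1.70918`, and `2 * 1.70918 * .013543 + .013543^2 * .2312 ≤ 927/20000`. -/
theorem trunc2 (ψ : ℤ → ℂ) (hψ : ∀ k, ‖ψ k‖ ≤ 17 / 50) (J : ℕ) (hJ : 2 ≤ J) (k : ℤ) (M : ℝ)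
    (hM : M ≤ kp) (h : ∀ t : ℝ, ‖FJ J ψ k t‖ ^ 2 ≤ M) (t : ℝ) :
    ‖FJ 2 ψ k t‖ ^ 2 ≤ kp + 927 / 20000 * (‖ψ k‖ ^ 2 + ‖ψ (k + 1)‖ ^ 2) := by
  set s : ℝ := ‖ψ k‖ ^ 2 + ‖ψ (k + 1)‖ ^ 2 with hs
  have hs0 : 0 ≤ s := by positivity
  have hs1 : s ≤ 2312 / 10000 := by
    have h1 : ‖ψ k‖ ^ 2 ≤ (17 / 50) ^ 2 := pow_le_pow_left₀ (norm_nonneg _) (hψ k) 2
    have h2 : ‖ψ (k + 1)‖ ^ 2 ≤ (17 / 50) ^ 2 := pow_le_pow_left₀ (norm_nonneg _) (hψ _) 2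
    rw [hs]
    norm_num at h1 h2 ⊢
    linarith
  have hsplit : FJ J ψ k t = FJ 2 ψ k t + ∑ j ∈ Finset.Ico 3 (J + 1), FT ψ k t j := by
    unfold FJ
    rw [Finset.range_eq_Ico, Finset.range_eq_Ico]
    exact (Finset.sum_Ico_consecutive _ (by omega) (by omega)).symm
  have htail : ‖∑ j ∈ Finset.Ico 3 (J + 1), FT ψ k t j‖ ≤ 13543 / 1000000 * s := by
    refine (norm_sum_le _ _).trans ?_
    have h1 : ∑ j ∈ Finset.Ico 3 (J + 1), ‖FT ψ k t j‖ ≤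
        ∑ j ∈ Finset.Ico 3 (J + 1), (17 / 50 : ℝ) ^ (tri j - 2) * s := by
      refine Finset.sum_le_sum fun j hj => ?_
      have hj2 : 2 ≤ j := by have := (Finset.mem_Ico.mp hj).1; omega
      have h2 := tl_norm ψ hψ k j hj2
      refine (ft_norm ψ k t j).trans ((add_le_add h2.1 h2.2).trans (le_of_eq ?_))
      rw [hs]; ring
    refine h1.trans ?_
    rw [← Finset.sum_mul]
    exact mul_le_mul_of_nonneg_right (eps_sum J) hs0
  have ha : ‖FJ J ψ k t‖ ^ 2 ≤ kp := (h t).trans hM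
  have ha1 : ‖FJ J ψ k t‖ ≤ 170918 / 100000 := by
    refine le_of_sq_le_sq ?_ (by norm_num)
    refine ha.trans ?_
    unfold kp
    norm_num
  have h2 : ‖FJ 2 ψ k t‖ ≤ ‖FJ J ψ k t‖ + 13543 / 1000000 * s := by
    have e : FJ 2 ψ k t = FJ J ψ k t - ∑ j ∈ Finset.Ico 3 (J + 1), FT ψ k t j := by
      rw [hsplit]; ring
    rw [e]
    exact (norm_sub_le _ _).trans (add_le_add le_rfl htail)
  have h3 : ‖FJ 2 ψ k t‖ ^ 2 ≤ (‖FJ J ψ k t‖ + 13543 / 1000000 * s) ^ 2 :=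
    pow_le_pow_left₀ (norm_nonneg _) h2 2
  have h4 : ‖FJ J ψ k t‖ * s ≤ 170918 / 100000 * s := mul_le_mul_of_nonneg_right ha1 hs0
  have h5 : s * s ≤ 2312 / 10000 * s := mul_le_mul_of_nonneg_right hs1 hs0
  nlinarith [norm_nonneg (FJ J ψ k t)]

end Pool.Agent.MaxTerm8
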