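import Pool.Agent.MaxTerm8.Stage1A
import Pool.Agent.MaxTerm8.Stage1B
import Pool.Agent.MaxTerm8.Trunc2

/-! Stage 1: pointwise exclusion. -/

namespace Pool.Agent.MaxTerm8

open Complex ComplexConjugate

/-- complex conjugate sequence: `FJ J (conj ψ) k t = conj (FJ J ψ k (-t))`. -/
theorem fj_conj (J : ℕ) (ψ : ℤ → ℂ) (k : ℤ) (t : ℝ) :
    FJ J (fun k => conj (ψ k)) k t = conj (FJ J ψ k (-t)) := by
  unfold FJ
  rw [map_sum]
  refine Finset.sum_congr rfl fun j _ => ?_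
  unfold FT
  have h1 : TL (fun k => conj (ψ k)) k j = conj (TL ψ k j) := by
    unfold TL
    rw [map_prod]
    exact Finset.prod_congr rfl fun i _ => (map_pow _ _ _).symm
  have h2 : TR (fun k => conj (ψ k)) k j = conj (TR ψ k j) := by
    unfold TR
    rw [map_prod]
    exact Finset.prod_congr rfl fun i _ => (map_pow _ _ _).symm
  rw [map_add, map_mul, map_mul, h1, h2, ← Complex.exp_conj, ← Complex.exp_conj]
  have e1 : conj (-((2 * (j : ℂ) + 1) * ((-t : ℝ) : ℂ) * I)) = -((2 * (j : ℂ) + 1) * t * I) := by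
    simp only [map_neg, map_mul, map_add, map_one, Complex.conj_I, Complex.conj_ofReal,
      Complex.conj_natCast, Complex.ofReal_neg, map_ofNat]
    ring
  have e2 : conj ((2 * (j : ℂ) + 1) * ((-t : ℝ) : ℂ) * I) = (2 * (j : ℂ) + 1) * t * I := by
    simp only [map_neg, map_mul, map_add, map_one, Complex.conj_I, Complex.conj_ofReal,
      Complex.conj_natCast, Complex.ofReal_neg, map_ofNat]
    ring
  rw [e1, e2]

private theorem st1_one (J : ℕ) (hJ : 2 ≤ J) (ψ : ℤ → ℂ) (hψ : ∀ k, ‖ψ k‖ ≤ 17 / 50) (M : ℝ)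
    (hM : M ≤ kp) (h : ∀ (k : ℤ) (t : ℝ), ‖FJ J ψ k t‖ ^ 2 ≤ M) (k : ℤ)
    (him : 0 ≤ ((ψ k + ψ (k + 1)) / 2).im) : Win ψ k := by
  have h1 := trunc2 ψ hψ J hJ k M hM (h k)
  have h2 := xform 2 ψ k _ h1
  have hD : DualBound (ψ k) (ψ (k + 1)) (ψ (k - 1)) (ψ (k + 2))
      (kp + 927 / 20000 * (‖ψ k‖ ^ 2 + ‖ψ (k + 1)‖ ^ 2)) := fun w x Y0 Y1 hw0 hw1 hx0 hx1 =>
    dual2 ψ k _ h2 w x Y0 Y1 hw0 hw1 hx0 hx1
  have hA := stage1a _ _ _ _ (hψ k) (hψ (k + 1)) (hψ (k - 1)) (hψ (k + 2)) hD him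
  exact ⟨hA, stage1b _ _ _ _ (hψ k) (hψ (k + 1)) (hψ (k - 1)) (hψ (k + 2))
    (fun ζ hζ => zform2 ψ k _ h1 ζ hζ) hA⟩

private theorem st1_win (ψ : ℤ → ℂ) (k : ℤ) (h : Win ψ k) : 0 < (ψ k).im ∧ 0 < (ψ (k + 1)).im := by
  obtain ⟨⟨_, _, h3⟩, h4⟩ := h
  have e1 : ((ψ k + ψ (k + 1)) / 2).im = ((ψ k).im + (ψ (k + 1)).im) / 2 := by
    have : ((ψ k + ψ (k + 1)) / 2) = ((1 / 2 : ℝ) : ℂ) * (ψ k + ψ (k + 1)) := by
      push_cast; ring
    rw [this, Complex.im_ofReal_mul, Complex.add_im]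
    ring
  have e2 : ((ψ k - ψ (k + 1)) / 2).im = ((ψ k).im - (ψ (k + 1)).im) / 2 := by
    have : ((ψ k - ψ (k + 1)) / 2) = ((1 / 2 : ℝ) : ℂ) * (ψ k - ψ (k + 1)) := by
      push_cast; ring
    rw [this, Complex.im_ofReal_mul, Complex.sub_im]
    ring
  rw [e1] at h3
  rw [e2, abs_lt] at h4
  constructor <;> linarith [h4.1, h4.2]

private theorem st1_excl (ψ : ℤ → ℂ) (k : ℤ) (h : Win ψ k)
    (h' : Win (fun k => conj (ψ k)) (k + 1)) : False := by
  have h1 := (st1_win ψ k h).2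
  have h2 := (st1_win _ (k + 1) h').1
  simp only [Complex.conj_im] at h2
  linarith

private theorem st1_excl' (ψ : ℤ → ℂ) (k : ℤ) (h : Win ψ (k + 1))
    (h' : Win (fun k => conj (ψ k)) k) : False := by
  have h1 := (st1_win ψ (k + 1) h).1
  have h2 := (st1_win _ k h').2
  simp only [Complex.conj_im] at h2
  linarith

private theorem st1_int {P : ℤ → Prop} (h0 : P 0) (h1 : ∀ k, P k ↔ P (k + 1)) : ∀ k, P k := by
  intro k
  induction k using Int.induction_on with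
  | zero => exact h0
  | succ i hi => exact (h1 _).1 hi
  | pred i hi =>
    rw [h1]
    have e : -(i : ℤ) - 1 + 1 = -(i : ℤ) := by ring
    rw [e]
    exact hi

/-- For every `k`, `Win ψ k` or `Win (conj ψ) k` (`stage1a`, `stage1b` for the window or its conjugate,
with `trunc2`, `xform`, `dual2`, `zform2`). In the first case `ψ k` and `ψ (k+1)` have positive imaginary
parts (`≥ 5/100 - 35/1000`), in the second case negative ones; so the case is the same for `k` and `k+1`,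
hence for all `k`. -/
theorem stage1 (J : ℕ) (hJ : 2 ≤ J) (ψ : ℤ → ℂ) (hψ : ∀ k, ‖ψ k‖ ≤ 17 / 50) (M : ℝ) (hM : M ≤ kp)
    (h : ∀ (k : ℤ) (t : ℝ), ‖FJ J ψ k t‖ ^ 2 ≤ M) :
    (∀ k, Win ψ k) ∨ (∀ k, Win (fun k => conj (ψ k)) k) := by
  have hall : ∀ k, Win ψ k ∨ Win (fun k => conj (ψ k)) k := by
    intro k
    rcases le_total 0 ((ψ k + ψ (k + 1)) / 2).im with h0 | h0
    · exact Or.inl (st1_one J hJ ψ hψ M hM h k h0)
    · right
      refine st1_one J hJ (fun k => conj (ψ k)) (fun k => ?_) M hM (fun k t => ?_) k ?_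
      · rw [Complex.norm_conj]
        exact hψ k
      · rw [fj_conj, Complex.norm_conj]
        exact h k (-t)
      · have e : (conj (ψ k) + conj (ψ (k + 1))) / 2 = conj ((ψ k + ψ (k + 1)) / 2) := by
          rw [map_div₀, map_add, map_ofNat]
        show 0 ≤ ((conj (ψ k) + conj (ψ (k + 1))) / 2).im
        rw [e, Complex.conj_im]
        linarith
  rcases hall 0 with h0 | h0
  · left
    refine st1_int h0 fun k => ⟨fun hk => ?_, fun hk => ?_⟩
    · rcases hall (k + 1) with h1 | h1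
      · exact h1
      · exact (st1_excl ψ k hk h1).elim
    · rcases hall k with h1 | h1
      · exact h1
      · exact (st1_excl' ψ k hk h1).elim
  · right
    refine st1_int (P := fun k => Win (fun k => conj (ψ k)) k) h0 fun k => ⟨fun hk => ?_, fun hk => ?_⟩
    · rcases hall (k + 1) with h1 | h1
      · exact (st1_excl' ψ k h1 hk).elim
      · exact h1
    · rcases hall k with h1 | h1
      · exact (st1_excl ψ k h1 hk).elim
      · exact h1

end Pool.Agent.MaxTerm8
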