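import Pool.Agent.MaxTerm8.CellL
import Pool.Agent.MaxTerm8.CellC
import Pool.Agent.MaxTerm8.DataA
import Pool.Agent.MaxTerm8.Stage1
import Pool.Agent.MaxTerm8.MasterC

/-! Stage 2: all windows with `c` at distance at least `1/200` from `oo`. -/

namespace Pool.Agent.MaxTerm8

open Complex ComplexConjugate

private theorem norm_le_of_n2 (a : GQ) (r : ℚ) (hr : 0 ≤ r) (h : a.n2 ≤ r ^ 2) :
    ‖a.toC‖ ≤ (r : ℝ) := by
  have h1 : ((a.n2 : ℚ) : ℝ) ≤ ((r ^ 2 : ℚ) : ℝ) := by exact_mod_cast h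
  rw [GQ.n2_eq] at h1
  push_cast at h1
  exact abs_le_of_sq_le_sq' h1 (by exact_mod_cast hr) |>.2

/-- A cell certificate gives a lower bound for `telk`: `ca_sound_L` + `conv_L` + `master_L`
(`xform`), or `ca_sound_C` + `conv_C` + `master_C` (`trunc2`, `xform`). -/
theorem ca_window (J : ℕ) (hJ : 5 ≤ J) (ψ : ℤ → ℂ) (hψ : ∀ k, ‖ψ k‖ ≤ 17 / 50) (M : ℝ)
    (hM : M ≤ kp) (h : ∀ (k : ℤ) (t : ℝ), ‖FJ J ψ k t‖ ^ 2 ≤ M) (p : ℂ) (μ : ℕ → ℂ) (g : ℂ)
    (hE : Encl p μ g) (k : ℤ) (hW : Win ψ k) (B : Bx) (z : CA) (hz : CA.chk B z = true)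
    (hc : B.Mem ((ψ k + ψ (k + 1)) / 2)) : 1 / 1000000 ≤ telk J p μ g ψ k := by
  have hside : z.side B = true := by
    unfold CA.chk at hz
    rw [Bool.and_eq_true] at hz
    exact hz.1
  unfold CA.side at hside
  simp only [Bool.and_eq_true, decide_eq_true_eq] at hside
  obtain ⟨⟨⟨⟨⟨⟨⟨⟨⟨⟨⟨⟨⟨⟨⟨⟨⟨⟨⟨⟨⟨⟨⟨⟨hw0, hw1⟩, hx0⟩, hx1⟩, _⟩, _⟩, _⟩, hl3⟩, hdf⟩, _⟩, _⟩, hnu⟩, _⟩,
    hn3⟩, hndf⟩, _⟩, _⟩, _⟩, _⟩, _⟩, _⟩, _⟩, _⟩, _⟩, hr⟩ := hside
  have hw0' : (0 : ℝ) ≤ (z.w : ℝ) := by exact_mod_cast hw0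
  have hw1' : (z.w : ℝ) ≤ 1 := by exact_mod_cast hw1
  have hx0' : (-1 : ℝ) ≤ (z.x : ℝ) := by exact_mod_cast hx0
  have hx1' : (z.x : ℝ) ≤ 1 := by exact_mod_cast hx1
  have hp : ‖p‖ ≤ 17 / 50 := hE.norm_p.trans (by norm_num)
  have hdd : |((ψ k - ψ (k + 1)) / 2).im| ≤ 35 / 1000 := hW.2.le
  cases hL : z.L with
  | true =>
    have hnu' : nu z.w z.x z.Y0.toC z.Y1.toC ≤ 361 / 100 := by
      rw [← nuQ_eq]
      have : ((nuQ z.w z.x z.Y0 z.Y1 : ℚ) : ℝ) ≤ ((361 / 100 : ℚ) : ℝ) := by exact_mod_cast hnu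
      refine this.trans (le_of_eq ?_)
      push_cast
      norm_num
    have hlb := fun j => lam_bound z.w z.x z.Y0.toC z.Y1.toC hw0' hw1' hx0' hx1' hnu' j
    have hL3 : ‖lam z.w z.x z.Y0.toC z.Y1.toC 3‖ ≤ (z.l3 : ℝ) := by
      rw [← lamQ_eq]
      exact norm_le_of_n2 _ _ hl3 hn3
    have hDF : ‖lam z.w z.x z.Y0.toC z.Y1.toC 3 - mm3‖ ≤ (z.df : ℝ) := by
      rw [← lamQ_eq, ← m3Q_toC, ← GQ.toC_sub]
      exact norm_le_of_n2 _ _ hdf hndf
    have hs3 : |sg z.w z.x 3| ≤ (z.s3 : ℝ) := by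
      rw [← sgQ_eq]
      unfold CA.s3 CA.s
      push_cast
      exact le_rfl
    have hs3' : (0 : ℝ) ≤ (z.s3 : ℝ) := (abs_nonneg _).trans hs3
    have hr3 : (z.r : ℝ) = 5 * (17 / 50) ^ 4 * (z.l3 : ℝ) + 2 * (17 / 50) ^ 5 * (z.s3 : ℝ) := by
      unfold CA.r CA.rpr
      push_cast
      ring
    have hrr : z.r ≤ 66 / 1000 := by
      rw [hL] at hr
      simpa using hr
    have hr3' : (z.r : ℝ) ≤ 66 / 1000 := by
      have : (z.r : ℝ) ≤ ((66 / 1000 : ℚ) : ℝ) := by exact_mod_cast hrr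
      refine this.trans (le_of_eq ?_)
      push_cast
      norm_num
    have h1 := ca_sound_L B z hz hL (ψ k) (ψ (k + 1)) (ψ (k - 1)) (ψ (k + 2)) hc (hψ _) (hψ _) hdd
    have h2 := conv_L J hJ p μ g hE (lam z.w z.x z.Y0.toC z.Y1.toC) hlb z.l3 z.s3 z.r z.df
      (by exact_mod_cast hl3) hs3' hr3 hr3' hDF (nu z.w z.x z.Y0.toC z.Y1.toC) (sg z.w z.x 1)
      (sg z.w z.x 2) (ψ k) (ψ (k + 1)) (ψ (k - 1)) (ψ (k + 2))
    have h3 := master_L J hJ ψ hψ p hp μ g k M (xform J ψ k M (h k)) z.w z.x z.Y0.toC z.Y1.toC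
      hw0' hw1' hx0' hx1' hnu' z.l3 z.s3 z.r hL3 hs3 hr3 hr3'
    have h4 := h1.trans (h2.trans h3)
    linarith
  | false =>
    have h1 := ca_sound_C B z hz hL (ψ k) (ψ (k + 1)) (ψ (k - 1)) (ψ (k + 2)) hc (hψ _) (hψ _) hdd
    have h2 := conv_C J hJ p μ g hE (lam z.w z.x z.Y0.toC z.Y1.toC 0)
      (lam z.w z.x z.Y0.toC z.Y1.toC 1) (lam z.w z.x z.Y0.toC z.Y1.toC 2)
      (nu z.w z.x z.Y0.toC z.Y1.toC) (sg z.w z.x 1)
      (sg z.w z.x 2) (ψ k) (ψ (k + 1)) (ψ (k - 1)) (ψ (k + 2))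
    have h3 := master_C J hJ ψ hψ p hp μ g k
      (xform 2 ψ k _ (trunc2 ψ hψ J (by omega) k M hM (h k))) z.w z.x z.Y0.toC z.Y1.toC
      hw0' hw1' hx0' hx1'
    have h4 := h1.trans (h2.trans h3)
    linarith

/-- `ca_window`, `outDisc_sound`, `inBall_sound` (`oQ.toC = oo`) and `Tr.sound` for the four trees
`treeA0, ..., treeA3`: the boxes `bxA0, ..., bxA3` together with the square
`|re| ≤ .0035, |im| ≤ .0035` around `oo` (inside the ball of radius `1/200`) cover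
`[-.24, -.16] × [.05, .31]`. -/
theorem cellA (J : ℕ) (hJ : 5 ≤ J) (ψ : ℤ → ℂ) (hψ : ∀ k, ‖ψ k‖ ≤ 17 / 50) (M : ℝ)
    (hM : M ≤ kp) (h : ∀ (k : ℤ) (t : ℝ), ‖FJ J ψ k t‖ ^ 2 ≤ M) (p : ℂ) (μ : ℕ → ℂ) (g : ℂ)
    (hE : Encl p μ g) (k : ℤ) (hW : Win ψ k) (hk : 1 / 200 ≤ ‖(ψ k + ψ (k + 1)) / 2 - oo‖) :
    1 / 1000000 ≤ telk J p μ g ψ k := by
  set c : ℂ := (ψ k + ψ (k + 1)) / 2 with hcdef
  have hcn : ‖c‖ ≤ 17 / 50 := by
    have h1 : ‖ψ k + ψ (k + 1)‖ ≤ 17 / 50 + 17 / 50 :=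
      (norm_add_le _ _).trans (add_le_add (hψ _) (hψ _))
    rw [hcdef, norm_div, Complex.norm_ofNat]
    linarith
  have hP : ∀ (T : Tr CA) (B : Bx), T.check CA.chk outDisc (inBall (1 / 200)) B = true →
      B.Mem c → 1 / 1000000 ≤ telk J p μ g ψ k := by
    intro T B hT hB
    refine Tr.sound CA.chk outDisc (inBall (1 / 200))
      (fun c' => c' = c → 1 / 1000000 ≤ telk J p μ g ψ k) ?_ ?_ ?_ T B hT c hB rfl
    · intro B z hz c' hc' he
      rw [he] at hc'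
      exact ca_window J hJ ψ hψ M hM h p μ g hE k hW B z hz hc'
    · intro B hB c' hc' he
      have := outDisc_sound B hB c' hc'
      rw [he] at this
      linarith
    · intro B hB c' hc' he
      have := inBall_sound (1 / 200) (by norm_num) B hB c' hc'
      rw [he, oQ_toC] at this
      push_cast at this
      linarith
  obtain ⟨⟨hr1, hr2, hi1⟩, _⟩ := hW
  rw [← hcdef] at hr1 hr2 hi1
  have hsq : c.re ^ 2 + c.im ^ 2 ≤ (17 / 50) ^ 2 := by
    have h1 : ‖c‖ ^ 2 ≤ (17 / 50) ^ 2 := pow_le_pow_left₀ (norm_nonneg _) hcn 2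
    rw [Complex.sq_norm, Complex.normSq_apply] at h1
    nlinarith
  have hi2 : c.im ≤ 31 / 100 := by nlinarith
  by_cases hy : c.im ≤ 208397 / 1000000
  · by_cases hx : c.re ≤ -97353 / 500000
    · exact hP treeA0 bxA0 treeA0_ok
        ⟨by simp only [bxA0]; push_cast; linarith, by simp only [bxA0]; push_cast; linarith,
         by simp only [bxA0]; push_cast; linarith, by simp only [bxA0]; push_cast; linarith⟩
    · push Not at hx
      by_cases hy2 : c.im ≤ 201397 / 1000000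
      · exact hP treeA3 bxA3 treeA3_ok
          ⟨by simp only [bxA3]; push_cast; linarith, by simp only [bxA3]; push_cast; linarith,
           by simp only [bxA3]; push_cast; linarith, by simp only [bxA3]; push_cast; linarith⟩
      · push Not at hy2
        by_cases hx2 : c.re ≤ -93853 / 500000
        · exfalso
          have h1 : ‖c - oo‖ ^ 2 = (c.re + 191206 / 1000000) ^ 2 + (c.im - 204897 / 1000000) ^ 2 := by
            rw [Complex.sq_norm, Complex.normSq_apply]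
            simp only [oo, Complex.sub_re, Complex.sub_im]
            ring
          have h2 : (1 / 200 : ℝ) ^ 2 ≤ ‖c - oo‖ ^ 2 := pow_le_pow_left₀ (by norm_num) hk 2
          rw [h1] at h2
          nlinarith
        · push Not at hx2
          exact hP treeA2 bxA2 treeA2_ok
            ⟨by simp only [bxA2]; push_cast; linarith, by simp only [bxA2]; push_cast; linarith,
             by simp only [bxA2]; push_cast; linarith, by simp only [bxA2]; push_cast; linarith⟩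
  · push Not at hy
    by_cases hx : c.re ≤ -93853 / 500000
    · exact hP treeA1 bxA1 treeA1_ok
        ⟨by simp only [bxA1]; push_cast; linarith, by simp only [bxA1]; push_cast; linarith,
         by simp only [bxA1]; push_cast; linarith, by simp only [bxA1]; push_cast; linarith⟩
    · push Not at hx
      exact hP treeA2 bxA2 treeA2_ok
        ⟨by simp only [bxA2]; push_cast; linarith, by simp only [bxA2]; push_cast; linarith,
         by simp only [bxA2]; push_cast; linarith, by simp only [bxA2]; push_cast; linarith⟩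

end Pool.Agent.MaxTerm8
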