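import Pool.Agent.MaxTerm8.ChkA

/-! Soundness of the cell checker, common part of the types L and C. -/

namespace Pool.Agent.MaxTerm8

open Complex ComplexConjugate

private theorem cg_re (x : GQ) : ((x.re : ℚ) : ℝ) = x.toC.re := rfl
private theorem cg_im (x : GQ) : ((x.im : ℚ) : ℝ) = x.toC.im := rfl

private theorem cg_oo : oQ.toC = oo := by
  apply Complex.ext
  · show (((-191206 / 1000000 : ℚ)) : ℝ) = -191206 / 1000000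
    push_cast
    ring
  · show (((204897 / 1000000 : ℚ)) : ℝ) = 204897 / 1000000
    push_cast
    ring

private theorem cg_gg : gQ.toC = gg := by
  apply Complex.ext
  · show (((365932 / 1000000 : ℚ)) : ℝ) = 365932 / 1000000
    push_cast
    ring
  · show (((-244302 / 1000000 : ℚ)) : ℝ) = -244302 / 1000000
    push_cast
    ring

theorem m3Q_toC : m3Q.toC = mm3 := by
  apply Complex.ext
  · show (((246606 / 1000000 : ℚ)) : ℝ) = 246606 / 1000000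
    push_cast
    ring
  · show (((-150940 / 1000000 : ℚ)) : ℝ) = -150940 / 1000000
    push_cast
    ring

theorem oQ_toC : oQ.toC = oo := cg_oo

theorem norm_oo_le : ‖oo‖ ≤ 2803 / 10000 := by
  have h : ‖oo‖ ^ 2 ≤ (2803 / 10000 : ℝ) ^ 2 := by
    rw [Complex.sq_norm, Complex.normSq_apply]
    show (-191206 / 1000000 : ℝ) * (-191206 / 1000000) +
      (204897 / 1000000) * (204897 / 1000000) ≤ _
    norm_num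
  exact (sq_le_sq₀ (norm_nonneg _) (by norm_num)).mp h

private theorem cg_norm_le (x : GQ) (q : ℚ) (hq : 0 ≤ q) (h : x.n2 ≤ q ^ 2) :
    ‖x.toC‖ ≤ (q : ℝ) := by
  have h1 : ((x.n2 : ℚ) : ℝ) ≤ (q : ℝ) ^ 2 := by exact_mod_cast h
  rw [GQ.n2_eq] at h1
  exact (sq_le_sq₀ (norm_nonneg _) (by exact_mod_cast hq)).mp h1

/-- the part of the side conditions used by both types -/
private theorem cg_side {z : CA} {B : Bx} (h : z.side B = true) :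
    0 < z.th ∧ 0 ≤ z.DX ∧ 0 ≤ z.l2 ∧ 0 ≤ z.l3 ∧ 0 ≤ z.cn ∧ 0 ≤ z.zn ∧
    (z.lm 2).n2 ≤ z.l2 ^ 2 ∧ B.ct.n2 ≤ z.cn ^ 2 ∧ (z.zc B.ct).n2 ≤ z.zn ^ 2 ∧
    0 ≤ B.hx ∧ 0 ≤ B.hy ∧ 0 ≤ B.y1 - 35 / 1000 ∧ 0 ≤ z.DX - B.x2 ∧
    (17 / 50) ^ 2 - (B.y1 - 35 / 1000) ^ 2 ≤ (z.DX - B.x2) ^ 2 ∧ 1 / 20 ≤ z.Sp := by
  simp only [CA.side, Bool.and_eq_true, decide_eq_true_eq] at h
  obtain ⟨⟨⟨⟨⟨⟨⟨⟨⟨⟨⟨⟨⟨⟨⟨⟨⟨⟨⟨⟨⟨⟨⟨⟨h1, h2⟩, h3⟩, h4⟩, h5⟩, h6⟩, h7⟩, h8⟩, h9⟩, h10⟩, h11⟩, h12⟩, h13⟩,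
    h14⟩, h15⟩, h16⟩, h17⟩, h18⟩, h19⟩, h20⟩, h21⟩, h22⟩, h23⟩, h24⟩, h25⟩ := h
  exact ⟨h5, h6, h7, h8, h10, h11, h13, h16, h17, h18, h19, h20, h22, h23, h24⟩

private theorem cg_zc (z : CA) (c : GQ) :
    (z.zc c).toC = zz (lam z.w z.x z.Y0.toC z.Y1.toC 2) z.t2.toC gg oo (13 / 20) (9 / 20) c.toC := by
  unfold CA.zc CA.G zz CA.lm
  rw [GQ.toC_add, GQ.toC_add, GQ.toC_mul, GQ.toC_mul, GQ.toC_sm, GQ.toC_sm, GQ.toC_add, GQ.toC_add,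
    GQ.toC_sm, GQ.toC_cj, GQ.toC_cj, GQ.toC_cj, lamQ_eq, cg_oo, cg_gg]
  push_cast
  ring

private theorem cg_Sp (z : CA) : ((z.Sp : ℚ) : ℝ) = 13 / 20 - (z.r1 : ℝ) := by
  unfold CA.Sp
  push_cast
  ring

private theorem cg_al (z : CA) (c : GQ) :
    (z.al c).toC = alf (lam z.w z.x z.Y0.toC z.Y1.toC 1) (lam z.w z.x z.Y0.toC z.Y1.toC 2)
      z.t1.toC z.t2.toC gg oo (13 / 20) (9 / 20) z.r0 z.r1 z.rcc c.toC := by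
  have hS : (((z.Sp : ℚ) : ℝ) : ℂ) = ((13 / 20 - (z.r1 : ℝ) : ℝ) : ℂ) := by rw [cg_Sp]
  unfold CA.al alf
  simp only [GQ.toC_add, GQ.toC_sub, GQ.toC_mul, GQ.toC_sm, GQ.toC_cj, cg_zc, cg_oo, cg_gg]
  unfold CA.lm
  simp only [lamQ_eq]
  rw [← hS]
  push_cast
  ring

private theorem cg_kp (z : CA) (c : GQ) :
    (z.kp c).toC = kap (sg z.w z.x 2) (9 / 20) c.toC := by
  unfold CA.kp kap CA.s
  rw [GQ.toC_add, GQ.toC_ofQ, GQ.toC_sm, GQ.toC_mul]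
  have h : (((4 * sgQ z.w z.x 2 : ℚ) : ℝ) : ℂ) = 4 * ((sg z.w z.x 2 : ℝ) : ℂ) := by
    rw [← sgQ_eq]
    push_cast
    ring
  rw [h]
  push_cast
  ring

private theorem cg_w2 (z : CA) (c : GQ) :
    (z.w2 c).toC = W2v (lam z.w z.x z.Y0.toC z.Y1.toC 2) z.t2.toC gg oo (sg z.w z.x 2)
      (13 / 20) (9 / 20) z.r1 c.toC := by
  have hS : (((z.Sp : ℚ) : ℝ) : ℂ) = ((13 / 20 - (z.r1 : ℝ) : ℝ) : ℂ) := by rw [cg_Sp]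
  unfold CA.w2 W2v
  simp only [GQ.toC_add, GQ.toC_sub, GQ.toC_mul, GQ.toC_sm, GQ.toC_cj, cg_zc, cg_oo, cg_kp]
  unfold CA.lm
  simp only [lamQ_eq]
  have e : (2 * (((13 / 20 : ℝ) : ℂ) - (((z.r1 : ℚ) : ℝ) : ℂ))) = 2 * (((z.Sp : ℚ) : ℝ) : ℂ) := by
    rw [hS]
    push_cast
    ring
  push_cast at e ⊢
  rw [e]
  ring

private theorem cg_w0 (z : CA) (c : GQ) (hl : 0 ≤ z.l2) (hcn : 0 ≤ z.cn)
    (h1 : ‖lam z.w z.x z.Y0.toC z.Y1.toC 2‖ ≤ z.l2) (h2 : ‖c.toC‖ ≤ z.cn)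
    (hSp : 1 / 20 ≤ z.Sp) :
    ((z.w0 c : ℚ) : ℝ) ≤ W0v (lam z.w z.x z.Y0.toC z.Y1.toC 2) z.t2.toC gg oo (sg z.w z.x 1)
      (sg z.w z.x 2) (13 / 20) (9 / 20) z.r0 z.r1 z.rd c.toC := by
  have hS : (0 : ℝ) < 13 / 20 - (z.r1 : ℝ) := by
    rw [← cg_Sp]
    have : ((1 / 20 : ℚ) : ℝ) ≤ ((z.Sp : ℚ) : ℝ) := by exact_mod_cast hSp
    push_cast at this
    linarith
  have e1 : ((z.s 1 : ℚ) : ℝ) = sg z.w z.x 1 := by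
    unfold CA.s
    rw [sgQ_eq]
  have e2 : ((z.s 2 : ℚ) : ℝ) = sg z.w z.x 2 := by
    unfold CA.s
    rw [sgQ_eq]
  unfold CA.w0 W0v
  push_cast
  rw [e1, e2, GQ.n2_eq, cg_kp, cg_re, cg_re, GQ.toC_mul, GQ.toC_mul, GQ.toC_cj, cg_oo, cg_zc, cg_Sp]
  have hl' : (0 : ℝ) ≤ z.l2 := by exact_mod_cast hl
  have hcn' : (0 : ℝ) ≤ z.cn := by exact_mod_cast hcn
  have h3 : ‖lam z.w z.x z.Y0.toC z.Y1.toC 2‖ ^ 2 * ‖c.toC‖ ^ 2 ≤ (z.l2 : ℝ) ^ 2 * (z.cn : ℝ) ^ 2 :=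
    mul_le_mul (pow_le_pow_left₀ (norm_nonneg _) h1 2) (pow_le_pow_left₀ (norm_nonneg _) h2 2)
      (by positivity) (by positivity)
  generalize ‖lam z.w z.x z.Y0.toC z.Y1.toC 2‖ ^ 2 = A at *
  generalize ‖c.toC‖ ^ 2 = C at *
  generalize ‖kap (sg z.w z.x 2) (9 / 20) c.toC‖ ^ 2 = K
  generalize (conj (zz (lam z.w z.x z.Y0.toC z.Y1.toC 2) z.t2.toC gg oo (13 / 20) (9 / 20) c.toC) *
    c.toC).re = E
  generalize (c.toC * oo).re = E'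
  have h4 : (16 * sg z.w z.x 2 * E + 16 * A * C + K) / (2 * (13 / 20 - (z.r1 : ℝ))) ≤
      (16 * sg z.w z.x 2 * E + 16 * (z.l2 : ℝ) ^ 2 * (z.cn : ℝ) ^ 2 + K) /
        (2 * (13 / 20 - (z.r1 : ℝ))) := by
    apply div_le_div_of_nonneg_right _ (by linarith)
    nlinarith
  nlinarith

private theorem cg_av (z : CA) (c : GQ) :
    ((z.av c : ℚ) : ℝ) - 23 / 10000 * ‖c.toC - oo‖ =
      Av (lam z.w z.x z.Y0.toC z.Y1.toC 0) (lam z.w z.x z.Y0.toC z.Y1.toC 1)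
      (lam z.w z.x z.Y0.toC z.Y1.toC 2) z.t0.toC z.t1.toC z.t2.toC gg oo
      (nu z.w z.x z.Y0.toC z.Y1.toC) (13 / 20) (9 / 20) z.r0 z.r1 z.rcc z.e0 (23 / 10000) c.toC := by
  unfold CA.av Av
  push_cast
  simp only [GQ.n2_eq, cg_re, nuQ_eq, GQ.toC_add, GQ.toC_sub, GQ.toC_mul, GQ.toC_cj, cg_zc, cg_oo,
    cg_gg, cg_Sp]
  unfold CA.lm
  simp only [lamQ_eq]
  have e : lam z.w z.x z.Y0.toC z.Y1.toC 2 * c.toC * c.toC * oo =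
      lam z.w z.x z.Y0.toC z.Y1.toC 2 * c.toC ^ 2 * oo := by ring
  rw [e]
  ring

private theorem cg_nsup (a b x y : ℝ) (hx : |x| ≤ a) (hy : |y| ≤ b) :
    Real.sqrt (x ^ 2 + y ^ 2) ≤ max a b + min a b / 2 := by
  have ha : 0 ≤ a := (abs_nonneg _).trans hx
  have hb : 0 ≤ b := (abs_nonneg _).trans hy
  have hx2 : x ^ 2 ≤ a ^ 2 := by
    rw [← sq_abs x]
    exact pow_le_pow_left₀ (abs_nonneg _) hx 2
  have hy2 : y ^ 2 ≤ b ^ 2 := by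
    rw [← sq_abs y]
    exact pow_le_pow_left₀ (abs_nonneg _) hy 2
  apply Real.sqrt_le_iff.mpr
  rcases le_total a b with h | h
  · rw [max_eq_right h, min_eq_left h]
    constructor
    · linarith
    · nlinarith
  · rw [max_eq_left h, min_eq_right h]
    constructor
    · linarith
    · nlinarith

/-- the certificate inequality for both types -/
theorem ca_sound_gen (B : Bx) (z : CA) (h : CA.chk B z = true) (a b u v : ℂ)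
    (hc : B.Mem ((a + b) / 2)) (ha : ‖a‖ ≤ 17 / 50) (hb : ‖b‖ ≤ 17 / 50)
    (hd : |((a - b) / 2).im| ≤ 35 / 1000) :
    kp + 1 / 1000000 ≤
    Phi (lam z.w z.x z.Y0.toC z.Y1.toC 0) (lam z.w z.x z.Y0.toC z.Y1.toC 1)
      (lam z.w z.x z.Y0.toC z.Y1.toC 2) z.t0.toC z.t1.toC z.t2.toC gg oo
      (nu z.w z.x z.Y0.toC z.Y1.toC) (sg z.w z.x 1) (sg z.w z.x 2) (13 / 20) (9 / 20)
      z.r0 z.r1 z.rd z.rcc z.e0 (23 / 10000) a b u v := by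
  unfold CA.chk at h
  rw [Bool.and_eq_true] at h
  obtain ⟨hside, hmain⟩ := h
  obtain ⟨s1, s2, s3, s4, s5, s6, s7, s8, s9, s10, s11, s12, s13, s14, s15⟩ := cg_side hside
  simp only [CA.main, decide_eq_true_eq] at hmain
  have hr0 : 0 ≤ z.r0 := by
    unfold CA.r0
    split_ifs
    · positivity
    · exact le_refl _
  have hrcc : 0 ≤ z.rcc := by
    unfold CA.rcc
    split_ifs
    · exact le_refl _
    · norm_num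
  -- casts
  have hl2 : (0 : ℝ) ≤ z.l2 := by exact_mod_cast s3
  have hcn0 : (0 : ℝ) ≤ z.cn := by exact_mod_cast s5
  have hzn0 : (0 : ℝ) ≤ z.zn := by exact_mod_cast s6
  have hth : (0 : ℝ) < z.th := by exact_mod_cast s1
  have hhx : (0 : ℝ) ≤ B.hx := by exact_mod_cast s10
  have hhy : (0 : ℝ) ≤ B.hy := by exact_mod_cast s11
  have hr0' : (0 : ℝ) ≤ z.r0 := by exact_mod_cast hr0
  have hrcc' : (0 : ℝ) ≤ z.rcc := by exact_mod_cast hrcc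
  have hSp : (1 / 20 : ℝ) ≤ 13 / 20 - (z.r1 : ℝ) := by
    rw [← cg_Sp]
    have : ((1 / 20 : ℚ) : ℝ) ≤ ((z.Sp : ℚ) : ℝ) := by exact_mod_cast s15
    push_cast at this
    exact this
  have hS0 : (0 : ℝ) < 13 / 20 - (z.r1 : ℝ) := by linarith
  have hL2 : ‖lam z.w z.x z.Y0.toC z.Y1.toC 2‖ ≤ (z.l2 : ℝ) := by
    have := cg_norm_le (z.lm 2) z.l2 s3 s7
    unfold CA.lm at this
    rwa [lamQ_eq] at this
  have hcn : ‖B.ct.toC‖ ≤ (z.cn : ℝ) := cg_norm_le _ _ s5 s8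
  have hzn : ‖zz (lam z.w z.x z.Y0.toC z.Y1.toC 2) z.t2.toC gg oo (13 / 20) (9 / 20) B.ct.toC‖ ≤
      (z.zn : ℝ) := by
    rw [← cg_zc]
    exact cg_norm_le _ _ s6 s9
  have es2 : ((z.s2 : ℚ) : ℝ) = |sg z.w z.x 2| := by
    unfold CA.s2 CA.s
    rw [← sgQ_eq]
    push_cast
    rfl
  have hs2 : |sg z.w z.x 2| ≤ ((z.s2 : ℚ) : ℝ) := es2.ge
  have hs20 : (0 : ℝ) ≤ ((z.s2 : ℚ) : ℝ) := by rw [es2]; exact abs_nonneg _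
  -- the points
  obtain ⟨c, hcdef⟩ : ∃ c : ℂ, c = (a + b) / 2 := ⟨_, rfl⟩
  obtain ⟨d, hddef⟩ : ∃ d : ℂ, d = (a - b) / 2 := ⟨_, rfl⟩
  have hacd : a = c + d := by rw [hcdef, hddef]; ring
  have hbcd : b = c - d := by rw [hcdef, hddef]; ring
  rw [← hcdef] at hc
  rw [← hddef] at hd
  obtain ⟨hc1, hc2, hc3, hc4⟩ := hc
  obtain ⟨hh, hhdef⟩ : ∃ hh : ℂ, hh = c - B.ct.toC := ⟨_, rfl⟩
  have hch : c = B.ct.toC + hh := by rw [hhdef]; ring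
  have hhre : |hh.re| ≤ (B.hx : ℝ) := by
    rw [hhdef, Complex.sub_re, ← cg_re]
    unfold Bx.ct Bx.hx
    push_cast
    rw [abs_le]
    constructor <;> linarith
  have hhim : |hh.im| ≤ (B.hy : ℝ) := by
    rw [hhdef, Complex.sub_im, ← cg_im]
    unfold Bx.ct Bx.hy
    push_cast
    rw [abs_le]
    constructor <;> linarith
  obtain ⟨H, hHdef⟩ : ∃ H : ℚ, H = CA.nsup B.hx B.hy := ⟨_, rfl⟩
  have hHr : ((H : ℚ) : ℝ) = max (B.hx : ℝ) B.hy + min (B.hx : ℝ) B.hy / 2 := by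
    rw [hHdef]
    unfold CA.nsup
    push_cast
    rfl
  have hH : ‖hh‖ ≤ (H : ℝ) := by
    rw [hHr]
    have h1 := cg_nsup _ _ hh.re hh.im hhre hhim
    have h2 : ‖hh‖ = Real.sqrt (hh.re ^ 2 + hh.im ^ 2) := by
      rw [← Complex.sq_norm_sub_sq_re hh]
      rw [add_sub_cancel, Real.sqrt_sq (norm_nonneg _)]
    rw [h2]
    exact h1
  have hH0 : (0 : ℝ) ≤ (H : ℝ) := (norm_nonneg _).trans hH
  rw [← hHdef] at hmain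
  have hhn2 : ‖hh‖ ^ 2 ≤ (B.hx : ℝ) ^ 2 + (B.hy : ℝ) ^ 2 := by
    rw [Complex.sq_norm, Complex.normSq_apply]
    have h1 : hh.re * hh.re ≤ (B.hx : ℝ) ^ 2 := by
      have := pow_le_pow_left₀ (abs_nonneg _) hhre 2
      rw [sq_abs] at this
      nlinarith
    have h2 : hh.im * hh.im ≤ (B.hy : ℝ) ^ 2 := by
      have := pow_le_pow_left₀ (abs_nonneg _) hhim 2
      rw [sq_abs] at this
      nlinarith
    linarith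
  -- bound for d
  have hy1 : (0 : ℝ) ≤ (B.y1 : ℝ) - 35 / 1000 := by
    have : ((0 : ℚ) : ℝ) ≤ ((B.y1 - 35 / 1000 : ℚ) : ℝ) := by exact_mod_cast s12
    push_cast at this
    exact this
  have hDx0 : (0 : ℝ) ≤ (z.DX : ℝ) - B.x2 := by
    have : ((0 : ℚ) : ℝ) ≤ ((z.DX - B.x2 : ℚ) : ℝ) := by exact_mod_cast s13
    push_cast at this
    exact this
  have hDx1 : (17 / 50 : ℝ) ^ 2 - ((B.y1 : ℝ) - 35 / 1000) ^ 2 ≤ ((z.DX : ℝ) - B.x2) ^ 2 := by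
    have : (((17 / 50) ^ 2 - (B.y1 - 35 / 1000) ^ 2 : ℚ) : ℝ) ≤ (((z.DX - B.x2) ^ 2 : ℚ) : ℝ) := by
      exact_mod_cast s14
    push_cast at this
    exact this
  have hdim := abs_le.mp hd
  have hpt : ∀ w : ℂ, ‖w‖ ≤ 17 / 50 → (B.y1 : ℝ) - 35 / 1000 ≤ w.im → |w.re| ≤ (z.DX : ℝ) - B.x2 := by
    intro w hw1 hw2
    have h1 : w.re ^ 2 + w.im ^ 2 ≤ (17 / 50) ^ 2 := by
      have h2 : ‖w‖ ^ 2 ≤ (17 / 50 : ℝ) ^ 2 := pow_le_pow_left₀ (norm_nonneg _) hw1 2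
      rw [Complex.sq_norm, Complex.normSq_apply] at h2
      nlinarith
    have h3 : ((B.y1 : ℝ) - 35 / 1000) ^ 2 ≤ w.im ^ 2 := pow_le_pow_left₀ hy1 hw2 2
    exact abs_le_of_sq_le_sq (by linarith) hDx0
  have hpa : |c.re + d.re| ≤ (z.DX : ℝ) - B.x2 := by
    have := hpt (c + d) (by rw [← hacd]; exact ha) (by rw [Complex.add_im]; linarith [hdim.1])
    rwa [Complex.add_re] at this
  have hpb : |c.re - d.re| ≤ (z.DX : ℝ) - B.x2 := by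
    have := hpt (c - d) (by rw [← hbcd]; exact hb) (by rw [Complex.sub_im]; linarith [hdim.2])
    rwa [Complex.sub_re] at this
  have hdre : |d.re| ≤ (z.DX : ℝ) := by
    have h1 := abs_le.mp hpa
    have h2 := abs_le.mp hpb
    rw [abs_le]
    constructor <;> linarith [h1.1, h1.2, h2.1, h2.2]
  have hdn : ‖d‖ ^ 2 ≤ ((z.D2 : ℚ) : ℝ) := by
    unfold CA.D2
    push_cast
    rw [Complex.sq_norm, Complex.normSq_apply]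
    have h1 := pow_le_pow_left₀ (abs_nonneg _) hdre 2
    rw [sq_abs] at h1
    have h2 := pow_le_pow_left₀ (abs_nonneg _) hd 2
    rw [sq_abs] at h2
    nlinarith
  -- the bounds at c
  have hcmn : ‖c‖ ≤ (z.cn : ℝ) + H := by
    rw [hch]
    exact (norm_add_le _ _).trans (add_le_add hcn hH)
  have ecm : ((z.cm H : ℚ) : ℝ) = (z.cn : ℝ) + H := by
    unfold CA.cm
    push_cast
    rfl
  have ekm : ((z.km H : ℚ) : ℝ) = 9 / 20 + 4 * ((z.s2 : ℚ) : ℝ) * ((z.cm H : ℚ) : ℝ) ^ 2 := by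
    unfold CA.km
    push_cast
    ring
  have hcm : ‖c‖ ≤ ((z.cm H : ℚ) : ℝ) := by rw [ecm]; exact hcmn
  have hcm0 : (0 : ℝ) ≤ ((z.cm H : ℚ) : ℝ) := (norm_nonneg _).trans hcm
  have hkm : ‖kap (sg z.w z.x 2) (9 / 20) c‖ ≤ ((z.km H : ℚ) : ℝ) := by
    rw [ekm]
    unfold kap
    have h1 : ‖((9 / 20 : ℝ) : ℂ)‖ = 9 / 20 := by
      rw [Complex.norm_real]
      norm_num
    have h2 : ‖4 * ((sg z.w z.x 2 : ℝ) : ℂ) * c ^ 2‖ = 4 * |sg z.w z.x 2| * ‖c‖ ^ 2 := by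
      rw [norm_mul, norm_mul, norm_pow, Complex.norm_real, Real.norm_eq_abs]
      norm_num
    refine (norm_add_le _ _).trans ?_
    rw [h1, h2]
    have h3 : 4 * |sg z.w z.x 2| * ‖c‖ ^ 2 ≤ 4 * ((z.s2 : ℚ) : ℝ) * ((z.cm H : ℚ) : ℝ) ^ 2 :=
      mul_le_mul (by linarith) (pow_le_pow_left₀ (norm_nonneg _) hcm 2) (by positivity)
        (by positivity)
    linarith
  have key1 := phi_lower (lam z.w z.x z.Y0.toC z.Y1.toC 0) (lam z.w z.x z.Y0.toC z.Y1.toC 1)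
    (lam z.w z.x z.Y0.toC z.Y1.toC 2) z.t0.toC z.t1.toC z.t2.toC gg oo
    (nu z.w z.x z.Y0.toC z.Y1.toC) (sg z.w z.x 1) (sg z.w z.x 2) (13 / 20) (9 / 20)
    z.r0 z.r1 z.rd z.rcc z.e0 (23 / 10000) hS0 c d u v z.l2 ((z.s2 : ℚ) : ℝ) ((z.cm H : ℚ) : ℝ)
    ((z.km H : ℚ) : ℝ) ((z.D2 : ℚ) : ℝ) hL2 hs2 hcm hkm hdn
  have key2 := av_var (lam z.w z.x z.Y0.toC z.Y1.toC 0) (lam z.w z.x z.Y0.toC z.Y1.toC 1)
    (lam z.w z.x z.Y0.toC z.Y1.toC 2) z.t0.toC z.t1.toC z.t2.toC gg oo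
    (nu z.w z.x z.Y0.toC z.Y1.toC) (13 / 20) (9 / 20) z.r0 z.r1 z.rcc z.e0 (23 / 10000) hS0
    (by norm_num) hr0' hrcc' (by norm_num) B.ct.toC hh z.l2 z.cn z.zn (2803 / 10000) H hL2 hcn hzn
    norm_oo_le hH (by norm_num)
  have hGn : ‖conj gg + 2 * ((13 / 20 : ℝ) : ℂ) * conj oo + z.t2.toC‖ ≤ ((z.Gn : ℚ) : ℝ) := by
    have e1 : conj gg + 2 * ((13 / 20 : ℝ) : ℂ) * conj oo + z.t2.toC =
        zz (lam z.w z.x z.Y0.toC z.Y1.toC 2) z.t2.toC gg oo (13 / 20) (9 / 20) B.ct.toC -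
        (2 * lam z.w z.x z.Y0.toC z.Y1.toC 2 * B.ct.toC ^ 2 +
          ((9 / 20 : ℝ) : ℂ) * conj B.ct.toC) := by
      unfold zz
      ring
    have eGn : ((z.Gn : ℚ) : ℝ) = (z.zn : ℝ) + 2 * (z.l2 : ℝ) * (z.cn : ℝ) ^ 2 +
        9 / 20 * (z.cn : ℝ) := by
      unfold CA.Gn
      push_cast
      ring
    rw [e1, eGn]
    refine (norm_sub_le _ _).trans ?_
    have h1 : ‖2 * lam z.w z.x z.Y0.toC z.Y1.toC 2 * B.ct.toC ^ 2‖ ≤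
        2 * (z.l2 : ℝ) * (z.cn : ℝ) ^ 2 := by
      rw [norm_mul, norm_mul, norm_pow]
      have h2 : ‖(2 : ℂ)‖ = 2 := by norm_num
      rw [h2]
      exact mul_le_mul (by linarith) (pow_le_pow_left₀ (norm_nonneg _) hcn 2) (by positivity)
        (by positivity)
    have h3 : ‖((9 / 20 : ℝ) : ℂ) * conj B.ct.toC‖ ≤ 9 / 20 * (z.cn : ℝ) := by
      rw [norm_mul, Complex.norm_real, RCLike.norm_conj]
      have h4 : ‖(9 / 20 : ℝ)‖ = 9 / 20 := by norm_num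
      rw [h4]
      linarith
    have h5 := norm_add_le (2 * lam z.w z.x z.Y0.toC z.Y1.toC 2 * B.ct.toC ^ 2)
      (((9 / 20 : ℝ) : ℂ) * conj B.ct.toC)
    linarith
  have key3 := w0_var (lam z.w z.x z.Y0.toC z.Y1.toC 2) z.t2.toC gg oo (sg z.w z.x 1) (sg z.w z.x 2)
    (13 / 20) (9 / 20) z.r0 z.r1 z.rd hS0 (by norm_num) B.ct.toC hh z.l2 ((z.s2 : ℚ) : ℝ) z.cn
    (2803 / 10000) H ((z.Gn : ℚ) : ℝ) ((z.cm H : ℚ) : ℝ) ((z.km H : ℚ) : ℝ) hL2 hs2 hcn norm_oo_le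
    hH hGn ecm ekm
  have key4 := w2_var (lam z.w z.x z.Y0.toC z.Y1.toC 2) z.t2.toC gg oo (sg z.w z.x 2)
    (13 / 20) (9 / 20) z.r1 hS0 (by norm_num) B.ct.toC hh z.l2 ((z.s2 : ℚ) : ℝ) z.cn
    H ((z.cm H : ℚ) : ℝ) hL2 hs2 hcn hH ecm
  rw [← hch] at key2 key3 key4
  have key5 := dform_lower (W0v (lam z.w z.x z.Y0.toC z.Y1.toC 2) z.t2.toC gg oo (sg z.w z.x 1)
      (sg z.w z.x 2) (13 / 20) (9 / 20) z.r0 z.r1 z.rd c - ((z.hi H : ℚ) : ℝ)) _ (z.th : ℝ) (z.DX : ℝ)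
    (35 / 1000) _ _ d key4 hth hdre hd
  have key6 := cg_w0 z B.ct s3 s5 hL2 hcn s15
  rw [← cg_w2] at key5
  rw [← cg_av, ← cg_al] at key2
  rw [hacd, hbcd]
  -- rewrite the rational expressions
  have ehi : ((z.hi H : ℚ) : ℝ) = ((2 * (z.l2 : ℝ) + 8 * ((z.s2 : ℚ) : ℝ) * ((z.cm H : ℚ) : ℝ)) ^ 2 +
      8 * ((z.s2 : ℚ) : ℝ) * (4 * (z.l2 : ℝ) * ((z.cm H : ℚ) : ℝ) + ((z.km H : ℚ) : ℝ)) +
      16 * ((z.s2 : ℚ) : ℝ) ^ 2 * ((z.D2 : ℚ) : ℝ)) * ((z.D2 : ℚ) : ℝ) /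
        (2 * (13 / 20 - (z.r1 : ℝ))) := by
    unfold CA.hi
    push_cast
    rw [cg_Sp]
  have eKq : ((z.Kq H : ℚ) : ℝ) = 4 * (z.l2 : ℝ) * (2803 / 10000) +
      2 * (13 / 20 + 9 / 20 + (z.r0 : ℝ)) + (z.rcc : ℝ) +
      (4 * (z.zn : ℝ) * (z.l2 : ℝ) + (4 * (z.l2 : ℝ) * (z.cn : ℝ) + 9 / 20 +
        2 * (z.l2 : ℝ) * (H : ℝ)) ^ 2) / (2 * (13 / 20 - (z.r1 : ℝ))) := by
    unfold CA.Kq
    push_cast
    rw [cg_Sp]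
    ring
  have ev : ((z.v H : ℚ) : ℝ) = (H : ℝ) * (16 * ((z.s2 : ℚ) : ℝ) * (2803 / 10000) +
      (16 * ((z.s2 : ℚ) : ℝ) * (6 * (z.l2 : ℝ) * ((z.cm H : ℚ) : ℝ) ^ 2 +
        2 * (9 / 20) * ((z.cm H : ℚ) : ℝ) + ((z.Gn : ℚ) : ℝ)) +
        32 * (z.l2 : ℝ) ^ 2 * ((z.cm H : ℚ) : ℝ) +
        16 * ((z.km H : ℚ) : ℝ) * ((z.s2 : ℚ) : ℝ) * ((z.cm H : ℚ) : ℝ)) /
          (2 * (13 / 20 - (z.r1 : ℝ)))) +
      (H : ℝ) * ((4 * (z.l2 : ℝ) * (4 * (z.l2 : ℝ) * ((z.cm H : ℚ) : ℝ) + 9 / 20) +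
        8 * (z.l2 : ℝ) * (9 / 20 + 12 * ((z.s2 : ℚ) : ℝ) * ((z.cm H : ℚ) : ℝ) ^ 2)) /
          (2 * (13 / 20 - (z.r1 : ℝ)))) := by
    unfold CA.v
    push_cast
    rw [cg_Sp]
    ring
  rw [← ehi] at key1
  rw [← eKq] at key2
  -- the linear term
  have hal : -(|(z.al B.ct).toC.re| * (B.hx : ℝ) + |(z.al B.ct).toC.im| * (B.hy : ℝ)) ≤
      ((z.al B.ct).toC * hh).re := by
    rw [Complex.mul_re]
    have h1 : |(z.al B.ct).toC.re * hh.re| ≤ |(z.al B.ct).toC.re| * (B.hx : ℝ) := by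
      rw [abs_mul]
      exact mul_le_mul_of_nonneg_left hhre (abs_nonneg _)
    have h2 : |(z.al B.ct).toC.im * hh.im| ≤ |(z.al B.ct).toC.im| * (B.hy : ℝ) := by
      rw [abs_mul]
      exact mul_le_mul_of_nonneg_left hhim (abs_nonneg _)
    have h3 := abs_le.mp h1
    have h4 := abs_le.mp h2
    linarith [h3.1, h4.2]
  have hKq0 : 0 ≤ ((z.Kq H : ℚ) : ℝ) := by
    rw [eKq]
    have h1 : 0 ≤ (4 * (z.zn : ℝ) * (z.l2 : ℝ) + (4 * (z.l2 : ℝ) * (z.cn : ℝ) + 9 / 20 +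
        2 * (z.l2 : ℝ) * (H : ℝ)) ^ 2) / (2 * (13 / 20 - (z.r1 : ℝ))) := by positivity
    positivity
  have hKq : ((z.Kq H : ℚ) : ℝ) * ‖hh‖ ^ 2 ≤
      ((z.Kq H : ℚ) : ℝ) * ((B.hx : ℝ) ^ 2 + (B.hy : ℝ) ^ 2) :=
    mul_le_mul_of_nonneg_left hhn2 hKq0
  have hdist : ‖B.ct.toC - oo‖ ≤ |((B.ct - oQ).re : ℝ)| + |((B.ct - oQ).im : ℝ)| := by
    rw [cg_re, cg_im, GQ.toC_sub, cg_oo]
    exact Complex.norm_le_abs_re_add_abs_im _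
  -- the certificate
  have hm : ((2921266961 / 1000000000 + 1 / 1000000 : ℚ) : ℝ) ≤
      ((z.av B.ct - |(z.al B.ct).re| * B.hx - |(z.al B.ct).im| * B.hy -
      z.Kq H * (B.hx ^ 2 + B.hy ^ 2) -
      23 / 10000 * (|(B.ct - oQ).re| + |(B.ct - oQ).im| + H) +
      (min 0 (z.Wx B.ct H) * z.DX ^ 2 + min 0 (z.Wy B.ct H) * (35 / 1000) ^ 2) : ℚ) : ℝ) := by
    exact_mod_cast hmain
  push_cast at hm
  rw [cg_re (z.al B.ct), cg_im (z.al B.ct)] at hm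
  have hWx : ((z.Wx B.ct H : ℚ) : ℝ) = ((z.w0 B.ct : ℚ) : ℝ) + (z.w2 B.ct).toC.re -
      ((z.v H : ℚ) : ℝ) - ((z.hi H : ℚ) : ℝ) - (z.th : ℝ) * |(z.w2 B.ct).toC.im| := by
    unfold CA.Wx
    push_cast
    rw [cg_re, cg_im]
  have hWy : ((z.Wy B.ct H : ℚ) : ℝ) = ((z.w0 B.ct : ℚ) : ℝ) - (z.w2 B.ct).toC.re -
      ((z.v H : ℚ) : ℝ) - ((z.hi H : ℚ) : ℝ) - |(z.w2 B.ct).toC.im| / (z.th : ℝ) := by
    unfold CA.Wy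
    push_cast
    rw [cg_re, cg_im]
  rw [ev] at hWx hWy
  have hDX2 : (0 : ℝ) ≤ (z.DX : ℝ) ^ 2 := sq_nonneg _
  have hDY2 : (0 : ℝ) ≤ (35 / 1000 : ℝ) ^ 2 := by norm_num
  obtain ⟨V1, hV1⟩ : ∃ V1 : ℝ, V1 = (H : ℝ) * (16 * ((z.s2 : ℚ) : ℝ) * (2803 / 10000) +
      (16 * ((z.s2 : ℚ) : ℝ) * (6 * (z.l2 : ℝ) * ((z.cm H : ℚ) : ℝ) ^ 2 +
        2 * (9 / 20) * ((z.cm H : ℚ) : ℝ) + ((z.Gn : ℚ) : ℝ)) +
        32 * (z.l2 : ℝ) ^ 2 * ((z.cm H : ℚ) : ℝ) +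
        16 * ((z.km H : ℚ) : ℝ) * ((z.s2 : ℚ) : ℝ) * ((z.cm H : ℚ) : ℝ)) /
          (2 * (13 / 20 - (z.r1 : ℝ)))) := ⟨_, rfl⟩
  obtain ⟨V2, hV2⟩ : ∃ V2 : ℝ, V2 = (H : ℝ) * ((4 * (z.l2 : ℝ) * (4 * (z.l2 : ℝ) * ((z.cm H : ℚ) : ℝ) +
        9 / 20) + 8 * (z.l2 : ℝ) * (9 / 20 + 12 * ((z.s2 : ℚ) : ℝ) * ((z.cm H : ℚ) : ℝ) ^ 2)) /
          (2 * (13 / 20 - (z.r1 : ℝ)))) := ⟨_, rfl⟩
  rw [← hV1, ← hV2] at hWx hWy
  rw [← hV1] at key3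
  rw [← hV2] at key5
  obtain ⟨W0c, hW0c⟩ : ∃ W0c : ℝ, W0c = W0v (lam z.w z.x z.Y0.toC z.Y1.toC 2) z.t2.toC gg oo
      (sg z.w z.x 1) (sg z.w z.x 2) (13 / 20) (9 / 20) z.r0 z.r1 z.rd c := ⟨_, rfl⟩
  rw [← hW0c] at key1 key3 key5
  have hW0 : ((z.w0 B.ct : ℚ) : ℝ) - V1 ≤ W0c := by linarith
  have hmx : min 0 ((z.Wx B.ct H : ℚ) : ℝ) * (z.DX : ℝ) ^ 2 ≤
      min 0 (W0c - ((z.hi H : ℚ) : ℝ) + (z.w2 B.ct).toC.re - V2 -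
        (z.th : ℝ) * |(z.w2 B.ct).toC.im|) * (z.DX : ℝ) ^ 2 := by
    refine mul_le_mul_of_nonneg_right (min_le_min (le_refl (0 : ℝ)) ?_) hDX2
    rw [hWx]
    linarith
  have hmy : min 0 ((z.Wy B.ct H : ℚ) : ℝ) * (35 / 1000 : ℝ) ^ 2 ≤
      min 0 (W0c - ((z.hi H : ℚ) : ℝ) - (z.w2 B.ct).toC.re - V2 -
        |(z.w2 B.ct).toC.im| / (z.th : ℝ)) * (35 / 1000 : ℝ) ^ 2 := by
    refine mul_le_mul_of_nonneg_right (min_le_min (le_refl (0 : ℝ)) ?_) hDY2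
    rw [hWy]
    linarith
  have hkp : kp = 2921266961 / 1000000000 := rfl
  rw [hkp]
  refine le_trans ?_ key1
  linarith [hmx, hmy, key5, hm, hal, hKq, hdist, hH, key2]

end Pool.Agent.MaxTerm8
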