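import Pool.Agent.MaxTerm8.CellGen

/-! Soundness of the cell checker, type L. -/

namespace Pool.Agent.MaxTerm8

open Complex ComplexConjugate

/-- `c = c1 + h`, `c1 = B.ct`, `|h.re| ≤ hx`, `|h.im| ≤ hy`, `‖h‖ ≤ H = nsup hx hy`. `phi_lower` with
`L2 = l2`, `cm = cn + H`, `km = 9/20 + 4 s2 cm^2`, `D2 = DX^2 + (35/1000)^2` (`|d.re| ≤ DX`: from
`‖c ± d‖ ≤ 17/50`, `|(c ± d).im| ≥ y1 - 35/1000` we get `|c.re| + |d.re| ≤ DX - x2`, `|c.re| ≥ -x2`),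
then `av_var` (`alf = al`), `w0_var`, `w2_var`, `dform_lower`; `‖c - oo‖ ≤ |re| + |im| + H`. In the
definition of `w0` the term `‖l2‖^2‖c1‖^2` is replaced by `l2^2 cn^2`. Here for type L. -/
theorem ca_sound_L (B : Bx) (z : CA) (h : CA.chk B z = true) (hz : z.L = true) (a b u v : ℂ)
    (hc : B.Mem ((a + b) / 2)) (ha : ‖a‖ ≤ 17 / 50) (hb : ‖b‖ ≤ 17 / 50)
    (hd : |((a - b) / 2).im| ≤ 35 / 1000) :
    kp + 1 / 1000000 ≤
    Phi (lam z.w z.x z.Y0.toC z.Y1.toC 0) (lam z.w z.x z.Y0.toC z.Y1.toC 1)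
      (lam z.w z.x z.Y0.toC z.Y1.toC 2) (4 * lam z.w z.x z.Y0.toC z.Y1.toC 3 * oo ^ 6)
      ((12 * lam z.w z.x z.Y0.toC z.Y1.toC 3 + 4 * mm3) * oo ^ 5)
      (4 * lam z.w z.x z.Y0.toC z.Y1.toC 3 * oo ^ 5) gg oo
      (nu z.w z.x z.Y0.toC z.Y1.toC) (sg z.w z.x 1) (sg z.w z.x 2) (13 / 20) (9 / 20)
      (101 / 100 * (15 * (17 / 50) ^ 4 * z.l3 + 124 / 10000))
      (101 / 100 * (2 * (z.r : ℝ) + 7 / 100 + 240 / 10000) + 1 / 100)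
      (36 * (17 / 50) ^ 5 * z.s3 + 35 / 10000) 0
      (2 * (z.df + 5 / 1000) ^ 2 * (3 / 1000000) / (7 / 100 - z.r) + 80 / 1000000) (23 / 10000)
      a b u v := by
  have key := ca_sound_gen B z h a b u v hc ha hb hd
  have e0 : z.t0.toC = 4 * lam z.w z.x z.Y0.toC z.Y1.toC 3 * oo ^ 6 := by
    unfold CA.t0 CA.lm
    rw [if_pos hz, GQ.toC_mul, GQ.toC_sm, GQ.toC_pw, lamQ_eq, oQ_toC]
    push_cast
    ring
  have e1 : z.t1.toC = (12 * lam z.w z.x z.Y0.toC z.Y1.toC 3 + 4 * mm3) * oo ^ 5 := by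
    unfold CA.t1 CA.lm
    rw [if_pos hz, GQ.toC_mul, GQ.toC_add, GQ.toC_sm, GQ.toC_sm, GQ.toC_pw, lamQ_eq, oQ_toC,
      m3Q_toC]
    push_cast
    ring
  have e2 : z.t2.toC = 4 * lam z.w z.x z.Y0.toC z.Y1.toC 3 * oo ^ 5 := by
    unfold CA.t2 CA.lm
    rw [if_pos hz, GQ.toC_mul, GQ.toC_sm, GQ.toC_pw, lamQ_eq, oQ_toC]
    push_cast
    ring
  have e3 : ((z.r0 : ℚ) : ℝ) = 101 / 100 * (15 * (17 / 50) ^ 4 * z.l3 + 124 / 10000) := by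
    unfold CA.r0
    rw [if_pos hz]
    push_cast
    ring
  have e4 : ((z.r1 : ℚ) : ℝ) = 101 / 100 * (2 * (z.r : ℝ) + 7 / 100 + 240 / 10000) + 1 / 100 := by
    unfold CA.r1
    rw [if_pos hz]
    push_cast
    ring
  have e5 : ((z.rd : ℚ) : ℝ) = 36 * (17 / 50) ^ 5 * z.s3 + 35 / 10000 := by
    unfold CA.rd
    rw [if_pos hz]
    push_cast
    ring
  have e6 : ((z.rcc : ℚ) : ℝ) = 0 := by
    unfold CA.rcc
    rw [if_pos hz]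
    push_cast
    ring
  have e7 : ((z.e0 : ℚ) : ℝ) =
      2 * (z.df + 5 / 1000) ^ 2 * (3 / 1000000) / (7 / 100 - z.r) + 80 / 1000000 := by
    unfold CA.e0
    rw [if_pos hz]
    push_cast
    ring
  rw [e0, e1, e2, e3, e4, e5, e6, e7] at key
  exact key

end Pool.Agent.MaxTerm8
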