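import Pool.Agent.MaxTerm8.PhiLower

/-! Variation of `Av` over a cell. -/

namespace Pool.Agent.MaxTerm8

open Complex ComplexConjugate

/-- gradient of `Av` (without the term `e1 ‖c - o‖`) -/
noncomputable def alf (l1 l2 t1 t2 g o : ℂ) (S m r0 r1 rcc : ℝ) (c : ℂ) : ℂ :=
  4 * l1 + 8 * l2 * o * c - (4 * S + 4 * m + 2 * rcc) * conj c - 2 * conj g + 2 * m * conj o + t1 -
  4 * r0 * conj (c - o) -
  (4 * conj (zz l2 t2 g o S m c) * l2 * c + m * zz l2 t2 g o S m c) / ((S - r1 : ℝ) : ℂ)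

private lemma sqn (z w : ℂ) : ‖z + w‖ ^ 2 = ‖z‖ ^ 2 + 2 * (conj z * w).re + ‖w‖ ^ 2 := by
  simp only [Complex.sq_norm, Complex.normSq_apply, add_re, add_im, mul_re, conj_re, conj_im]
  ring

private lemma alf_re (l1 l2 t1 t2 g o : ℂ) (S m r0 r1 rcc : ℝ) (c h Z : ℂ)
    (hZ : Z = zz l2 t2 g o S m c) :
    (alf l1 l2 t1 t2 g o S m r0 r1 rcc c * h).re =
      (4 * l1 * h).re + (8 * l2 * o * c * h).re - (4 * S + 4 * m + 2 * rcc) * (conj c * h).re -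
      2 * (conj g * h).re + 2 * m * (conj o * h).re + (t1 * h).re -
      4 * r0 * (conj (c - o) * h).re -
      ((4 * conj Z * l2 * c) * h + m * Z * h).re / (S - r1) := by
  rw [← Complex.div_ofReal_re]
  have e1 : (4 * S + 4 * m + 2 * rcc) * (conj c * h).re =
      (((4 * S + 4 * m + 2 * rcc : ℝ) : ℂ) * (conj c * h)).re := by rw [re_ofReal_mul]
  have e2 : 2 * (conj g * h).re = (((2 : ℝ) : ℂ) * (conj g * h)).re := by rw [re_ofReal_mul]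
  have e3 : 2 * m * (conj o * h).re = (((2 * m : ℝ) : ℂ) * (conj o * h)).re := by
    rw [re_ofReal_mul]
  have e4 : 4 * r0 * (conj (c - o) * h).re = (((4 * r0 : ℝ) : ℂ) * (conj (c - o) * h)).re := by
    rw [re_ofReal_mul]
  rw [e1, e2, e3, e4, ← add_re, ← sub_re, ← sub_re, ← add_re, ← add_re, ← sub_re, ← sub_re]
  congr 1
  unfold alf
  rw [← hZ]
  push_cast
  ring

/-- Taylor expansion: `zz (c+h) = zz c + (4 l2 c h + m conj h) + 2 l2 h^2`,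
`‖zz (c+h)‖^2 ≤ ‖zz c‖^2 + 2 Re (conj (zz c) (4 l2 c h + m conj h)) + 4 ‖zz c‖ ‖l2‖ ‖h‖^2 + zl^2 ‖h‖^2`,
`zl = 4 L2 cn + m + 2 L2 H ≥ ‖(4 l2 c h + m conj h) + 2 l2 h^2‖ / ‖h‖`; the other terms of `Av` are
polynomials of degree two. -/
theorem av_var (l0 l1 l2 t0 t1 t2 g o : ℂ) (ν S m r0 r1 rcc e0 e1 : ℝ) (hS : 0 < S - r1)
    (hm : 0 ≤ m) (hr0 : 0 ≤ r0) (hrcc : 0 ≤ rcc) (he1 : 0 ≤ e1) (c h : ℂ) (L2 cn zn on H : ℝ)
    (hL2 : ‖l2‖ ≤ L2)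
    (hcn : ‖c‖ ≤ cn) (hzn : ‖zz l2 t2 g o S m c‖ ≤ zn) (hon : ‖o‖ ≤ on) (hH : ‖h‖ ≤ H)
    (hS0 : 0 ≤ S) :
    Av l0 l1 l2 t0 t1 t2 g o ν S m r0 r1 rcc e0 e1 c +
      (alf l1 l2 t1 t2 g o S m r0 r1 rcc c * h).re -
      (4 * L2 * on + 2 * (S + m + r0) + rcc +
        (4 * zn * L2 + (4 * L2 * cn + m + 2 * L2 * H) ^ 2) / (2 * (S - r1))) * ‖h‖ ^ 2 - e1 * ‖h‖ ≤
    Av l0 l1 l2 t0 t1 t2 g o ν S m r0 r1 rcc e0 e1 (c + h) := by
  obtain ⟨Z, hZ⟩ : ∃ Z, Z = zz l2 t2 g o S m c := ⟨_, rfl⟩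
  obtain ⟨δ, hδ⟩ : ∃ δ : ℂ, δ = 4 * l2 * c * h + m * conj h + 2 * l2 * h ^ 2 := ⟨_, rfl⟩
  have hz : zz l2 t2 g o S m (c + h) = Z + δ := by
    rw [hZ, hδ]
    unfold zz
    rw [map_add]
    ring
  have hh : 0 ≤ ‖h‖ := norm_nonneg h
  have hl : 0 ≤ ‖l2‖ := norm_nonneg l2
  have hL : 0 ≤ L2 := hl.trans hL2
  have hcn0 : 0 ≤ cn := (norm_nonneg c).trans hcn
  have hH0 : 0 ≤ H := hh.trans hH
  -- bound of δ
  have hδn : ‖δ‖ ≤ (4 * L2 * cn + m + 2 * L2 * H) * ‖h‖ := by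
    rw [hδ]
    have h1 : ‖4 * l2 * c * h‖ ≤ 4 * L2 * cn * ‖h‖ := by
      rw [norm_mul, norm_mul, norm_mul]
      norm_num
      gcongr
    have h2 : ‖(m : ℂ) * conj h‖ ≤ m * ‖h‖ := by
      rw [norm_mul, Complex.norm_conj, Complex.norm_real, Real.norm_of_nonneg hm]
    have h3 : ‖2 * l2 * h ^ 2‖ ≤ 2 * L2 * H * ‖h‖ := by
      rw [norm_mul, norm_mul, norm_pow]
      norm_num
      have : 2 * ‖l2‖ * ‖h‖ ^ 2 = 2 * ‖l2‖ * ‖h‖ * ‖h‖ := by ring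
      rw [this]
      gcongr
    calc _ ≤ ‖4 * l2 * c * h‖ + ‖(m : ℂ) * conj h‖ + ‖2 * l2 * h ^ 2‖ := norm_add₃_le
      _ ≤ _ := by linarith
  have hδ2 : ‖δ‖ ^ 2 ≤ (4 * L2 * cn + m + 2 * L2 * H) ^ 2 * ‖h‖ ^ 2 := by
    rw [← mul_pow]
    exact pow_le_pow_left₀ (norm_nonneg _) hδn 2
  -- the quadratic part of 2 Re (conj Z δ)
  have hq : (conj Z * (2 * l2 * h ^ 2)).re ≤ 2 * zn * L2 * ‖h‖ ^ 2 := by
    refine (Complex.re_le_norm _).trans ?_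
    rw [norm_mul, Complex.norm_conj, norm_mul, norm_mul, norm_pow]
    norm_num
    have hz1 : ‖Z‖ ≤ zn := by rw [hZ]; exact hzn
    have : ‖Z‖ * (2 * ‖l2‖ * ‖h‖ ^ 2) ≤ zn * (2 * L2 * ‖h‖ ^ 2) := by
      have : 0 ≤ ‖Z‖ := norm_nonneg Z
      have : 0 ≤ zn := this.trans hz1
      gcongr
    linarith
  have ho : -(4 * L2 * on * ‖h‖ ^ 2) ≤ 4 * (l2 * h ^ 2 * o).re := by
    have h1 : -‖l2 * h ^ 2 * o‖ ≤ (l2 * h ^ 2 * o).re :=
      (abs_le.mp (Complex.abs_re_le_norm _)).1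
    have h2 : ‖l2 * h ^ 2 * o‖ ≤ L2 * ‖h‖ ^ 2 * on := by
      rw [norm_mul, norm_mul, norm_pow]
      have : 0 ≤ on := (norm_nonneg o).trans hon
      gcongr
    linarith
  have he : e1 * ‖c + h - o‖ ≤ e1 * ‖c - o‖ + e1 * ‖h‖ := by
    have : ‖c + h - o‖ ≤ ‖c - o‖ + ‖h‖ := by
      have : c + h - o = (c - o) + h := by ring
      rw [this]; exact norm_add_le _ _
    nlinarith
  have hc : ‖c + h‖ ^ 2 = ‖c‖ ^ 2 + 2 * (conj c * h).re + ‖h‖ ^ 2 := sqn c h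
  have hco : ‖c + h - o‖ ^ 2 = ‖c - o‖ ^ 2 + 2 * (conj (c - o) * h).re + ‖h‖ ^ 2 := by
    have : c + h - o = (c - o) + h := by ring
    rw [this]; exact sqn _ h
  have hZd : ‖Z + δ‖ ^ 2 = ‖Z‖ ^ 2 + 2 * (conj Z * δ).re + ‖δ‖ ^ 2 := sqn Z δ
  have hZδ : (conj Z * δ).re = (4 * conj Z * l2 * c * h + m * Z * h).re +
      (conj Z * (2 * l2 * h ^ 2)).re := by
    have : (conj Z * (m * conj h)).re = (m * Z * h).re := by
      simp only [mul_re, mul_im, conj_re, conj_im, ofReal_re, ofReal_im]; ring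
    rw [hδ, mul_add, mul_add, add_re, add_re, this, add_re]
    congr 3
    ring
  have hD : 0 < 2 * (S - r1) := by linarith
  -- the fraction
  have hfr : ‖Z + δ‖ ^ 2 / (2 * (S - r1)) ≤ ‖Z‖ ^ 2 / (2 * (S - r1)) +
      (4 * conj Z * l2 * c * h + m * Z * h).re / (S - r1) +
      (4 * zn * L2 + (4 * L2 * cn + m + 2 * L2 * H) ^ 2) / (2 * (S - r1)) * ‖h‖ ^ 2 := by
    have e : ‖Z‖ ^ 2 / (2 * (S - r1)) +
      (4 * conj Z * l2 * c * h + m * Z * h).re / (S - r1) +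
      (4 * zn * L2 + (4 * L2 * cn + m + 2 * L2 * H) ^ 2) / (2 * (S - r1)) * ‖h‖ ^ 2 =
      (‖Z‖ ^ 2 + 2 * (4 * conj Z * l2 * c * h + m * Z * h).re +
       (4 * zn * L2 + (4 * L2 * cn + m + 2 * L2 * H) ^ 2) * ‖h‖ ^ 2) / (2 * (S - r1)) := by
      field_simp
    rw [e]
    apply div_le_div_of_nonneg_right _ hD.le
    rw [hZd, hZδ]
    nlinarith
  rw [alf_re l1 l2 t1 t2 g o S m r0 r1 rcc c h Z hZ]
  unfold Av
  rw [hz, ← hZ, hc, hco]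
  have p1 : 4 * (l0 + l1 * (c + h)).re = 4 * (l0 + l1 * c).re + (4 * l1 * h).re := by
    simp only [add_re, mul_re, mul_im, add_im, re_ofNat, im_ofNat]; ring
  have p2 : 4 * (l2 * (c + h) ^ 2 * o).re = 4 * (l2 * c ^ 2 * o).re + (8 * l2 * o * c * h).re +
      4 * (l2 * h ^ 2 * o).re := by
    have a1 : (8 * l2 * o * c * h).re = 4 * (2 * l2 * o * c * h).re := by
      have : 8 * l2 * o * c * h = ((4 : ℝ) : ℂ) * (2 * l2 * o * c * h) := by push_cast; ring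
      rw [this, re_ofReal_mul]
    rw [a1, ← mul_add, ← mul_add, ← add_re, ← add_re]
    congr 2
    ring
  have p3 : 2 * (conj g * (o - (c + h))).re = 2 * (conj g * (o - c)).re - 2 * (conj g * h).re := by
    rw [← mul_sub, ← sub_re]; congr 2; ring
  have p4 : 2 * m * (o * conj (c + h)).re = 2 * m * (o * conj c).re + 2 * m * (conj o * h).re := by
    simp only [mul_re, conj_re, conj_im, add_re, add_im]; ring
  have p5 : (t1 * (c + h - o)).re = (t1 * (c - o)).re + (t1 * h).re := by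
    rw [← add_re]; congr 1; ring
  rw [p1, p2, p3, p4, p5]
  linarith

end Pool.Agent.MaxTerm8
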