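import Pool.Agent.MaxTerm8.PhiLower

/-! Variation of `W0v`, `W2v` over a cell. -/

namespace Pool.Agent.MaxTerm8

open Complex ComplexConjugate

private theorem cr2_conj (z : ℂ) : ‖conj z‖ = ‖z‖ := RCLike.norm_conj z

/-- difference of the cubic term -/
private theorem cr2_cub (c h : ℂ) (cm H : ℝ) (h1 : ‖c‖ ≤ cm) (h2 : ‖c + h‖ ≤ cm) (hH : ‖h‖ ≤ H) :
    ‖conj (c + h) ^ 2 * (c + h) - conj c ^ 2 * c‖ ≤ 3 * cm ^ 2 * H := by
  have hH0 : 0 ≤ H := (norm_nonneg _).trans hH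
  have hc0 : 0 ≤ cm := (norm_nonneg _).trans h1
  have e : conj (c + h) ^ 2 * (c + h) - conj c ^ 2 * c =
      conj h * conj (c + h) * (c + h) + conj c * conj h * (c + h) + conj c * conj c * h := by
    rw [map_add]
    ring
  rw [e]
  have b : ∀ x y z : ℂ, ∀ X Y Z : ℝ, ‖x‖ ≤ X → ‖y‖ ≤ Y → ‖z‖ ≤ Z → ‖x * y * z‖ ≤ X * Y * Z := by
    intro x y z X Y Z hx hy hz
    rw [norm_mul, norm_mul]
    exact mul_le_mul (mul_le_mul hx hy (norm_nonneg _) ((norm_nonneg _).trans hx)) hz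
      (norm_nonneg _) (mul_nonneg ((norm_nonneg _).trans hx) ((norm_nonneg _).trans hy))
  have b1 := b (conj h) (conj (c + h)) (c + h) H cm cm (by rw [cr2_conj]; exact hH)
    (by rw [cr2_conj]; exact h2) h2
  have b2 := b (conj c) (conj h) (c + h) cm H cm (by rw [cr2_conj]; exact h1)
    (by rw [cr2_conj]; exact hH) h2
  have b3 := b (conj c) (conj c) h cm cm H (by rw [cr2_conj]; exact h1)
    (by rw [cr2_conj]; exact h1) hH
  refine (norm_add_le _ _).trans ?_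
  have b4 := norm_add_le (conj h * conj (c + h) * (c + h)) (conj c * conj h * (c + h))
  nlinarith

private theorem cr2_sq (c h : ℂ) (cm H : ℝ) (h1 : ‖c‖ ≤ cm) (h2 : ‖c + h‖ ≤ cm) (hH : ‖h‖ ≤ H) :
    ‖(c + h) ^ 2 - c ^ 2‖ ≤ 2 * cm * H := by
  have hH0 : 0 ≤ H := (norm_nonneg _).trans hH
  have hc0 : 0 ≤ cm := (norm_nonneg _).trans h1
  have e : (c + h) ^ 2 - c ^ 2 = ((c + h) + c) * h := by ring
  rw [e, norm_mul]
  have b1 : ‖(c + h) + c‖ ≤ 2 * cm := (norm_add_le _ _).trans (by linarith)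
  exact mul_le_mul b1 hH (norm_nonneg _) (by linarith)

/-- difference of squares of norms -/
private theorem cr2_nsq (x y : ℂ) (B E : ℝ) (hx : ‖x‖ ≤ B) (hy : ‖y‖ ≤ B) (hxy : ‖x - y‖ ≤ E) :
    ‖x‖ ^ 2 - ‖y‖ ^ 2 ≤ 2 * B * E := by
  have h1 : ‖x‖ - ‖y‖ ≤ E := (norm_sub_norm_le x y).trans hxy
  have hE : 0 ≤ E := (norm_nonneg _).trans hxy
  have h2 : ‖x‖ ^ 2 - ‖y‖ ^ 2 = (‖x‖ - ‖y‖) * (‖x‖ + ‖y‖) := by ring
  rw [h2]
  have h3 : 0 ≤ ‖x‖ + ‖y‖ := by positivity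
  calc (‖x‖ - ‖y‖) * (‖x‖ + ‖y‖) ≤ E * (‖x‖ + ‖y‖) := mul_le_mul_of_nonneg_right h1 h3
    _ ≤ E * (2 * B) := mul_le_mul_of_nonneg_left (by linarith) hE
    _ = 2 * B * E := by ring

private theorem cr2_zz (l2 t2 g o c : ℂ) (S m : ℝ) :
    zz l2 t2 g o S m c = 2 * l2 * c ^ 2 + m * conj c + (conj g + 2 * S * conj o + t2) := by
  unfold zz
  ring

private theorem cr2_zzc (l2 t2 g o c : ℂ) (S m : ℝ) :
    conj (zz l2 t2 g o S m c) * c = 2 * conj l2 * (conj c ^ 2 * c) + m * c ^ 2 +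
      conj (conj g + 2 * S * conj o + t2) * c := by
  rw [cr2_zz]
  simp only [map_add, map_mul, map_pow, Complex.conj_conj, Complex.conj_ofReal, map_ofNat]
  ring

private theorem cr2_kapn (σ2 m : ℝ) (c : ℂ) (s2 cm : ℝ) (hm : 0 ≤ m) (hs2 : |σ2| ≤ s2)
    (hc : ‖c‖ ≤ cm) : ‖kap σ2 m c‖ ≤ m + 4 * s2 * cm ^ 2 := by
  unfold kap
  refine (norm_add_le _ _).trans ?_
  have h4 : ‖(4 : ℂ)‖ = 4 := by norm_num
  rw [norm_mul, norm_mul, norm_pow, h4, Complex.norm_real, Complex.norm_real,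
    Real.norm_of_nonneg hm, Real.norm_eq_abs]
  have h1 : ‖c‖ ^ 2 ≤ cm ^ 2 := pow_le_pow_left₀ (norm_nonneg _) hc 2
  have h2 : |σ2| * ‖c‖ ^ 2 ≤ s2 * cm ^ 2 :=
    mul_le_mul hs2 h1 (by positivity) ((abs_nonneg _).trans hs2)
  linarith

/-- Lipschitz bounds, `cm = cn + H`, `km = m + 4 s2 cm^2`, `Gn ≥ ‖conj g + 2 S conj o + t2‖`. -/
theorem w0_var (l2 t2 g o : ℂ) (σ1 σ2 S m r0 r1 rd : ℝ) (hS : 0 < S - r1) (hm : 0 ≤ m)
    (c h : ℂ) (L2 s2 cn on H Gn cm km : ℝ) (hL2 : ‖l2‖ ≤ L2) (hs2 : |σ2| ≤ s2) (hcn : ‖c‖ ≤ cn)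
    (hon : ‖o‖ ≤ on) (hH : ‖h‖ ≤ H) (hG : ‖conj g + 2 * S * conj o + t2‖ ≤ Gn)
    (hcm : cm = cn + H) (hkm : km = m + 4 * s2 * cm ^ 2) :
    W0v l2 t2 g o σ1 σ2 S m r0 r1 rd c -
      H * (16 * s2 * on + (16 * s2 * (6 * L2 * cm ^ 2 + 2 * m * cm + Gn) + 32 * L2 ^ 2 * cm +
        16 * km * s2 * cm) / (2 * (S - r1))) ≤
    W0v l2 t2 g o σ1 σ2 S m r0 r1 rd (c + h) := by
  have hs0 : 0 ≤ s2 := (abs_nonneg _).trans hs2
  have hL0 : 0 ≤ L2 := (norm_nonneg _).trans hL2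
  have hH0 : 0 ≤ H := (norm_nonneg _).trans hH
  have hc1 : ‖c‖ ≤ cm := by rw [hcm]; linarith
  have hc2 : ‖c + h‖ ≤ cm := (norm_add_le _ _).trans (by rw [hcm]; linarith)
  have hc0 : 0 ≤ cm := (norm_nonneg _).trans hc1
  have hT : 0 < 2 * (S - r1) := by linarith
  -- first term
  have t1 : -(s2 * (H * on)) ≤ σ2 * ((c + h) * o).re - σ2 * (c * o).re := by
    have e : σ2 * ((c + h) * o).re - σ2 * (c * o).re = σ2 * (h * o).re := by
      rw [add_mul, Complex.add_re]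
      ring
    rw [e]
    have b1 : |(h * o).re| ≤ H * on := by
      refine (Complex.abs_re_le_norm _).trans ?_
      rw [norm_mul]
      exact mul_le_mul hH hon (norm_nonneg _) hH0
    have b2 : |σ2 * (h * o).re| ≤ s2 * (H * on) := by
      rw [abs_mul]
      exact mul_le_mul hs2 b1 (abs_nonneg _) hs0
    exact (abs_le.1 b2).1
  -- second term
  have t2' : σ2 * (conj (zz l2 t2 g o S m (c + h)) * (c + h)).re -
      σ2 * (conj (zz l2 t2 g o S m c) * c).re ≤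
      s2 * (H * (6 * L2 * cm ^ 2 + 2 * m * cm + Gn)) := by
    have e : σ2 * (conj (zz l2 t2 g o S m (c + h)) * (c + h)).re -
      σ2 * (conj (zz l2 t2 g o S m c) * c).re =
      σ2 * (2 * conj l2 * (conj (c + h) ^ 2 * (c + h) - conj c ^ 2 * c) +
        m * ((c + h) ^ 2 - c ^ 2) + conj (conj g + 2 * S * conj o + t2) * h).re := by
      rw [cr2_zzc, cr2_zzc, ← mul_sub, ← Complex.sub_re]
      congr 2
      ring
    rw [e]
    have b0 : ‖2 * conj l2 * (conj (c + h) ^ 2 * (c + h) - conj c ^ 2 * c) +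
        m * ((c + h) ^ 2 - c ^ 2) + conj (conj g + 2 * S * conj o + t2) * h‖ ≤
        H * (6 * L2 * cm ^ 2 + 2 * m * cm + Gn) := by
      have a1 : ‖2 * conj l2 * (conj (c + h) ^ 2 * (c + h) - conj c ^ 2 * c)‖ ≤
          2 * L2 * (3 * cm ^ 2 * H) := by
        have h2 : ‖(2 : ℂ)‖ = 2 := by norm_num
        rw [norm_mul, norm_mul, cr2_conj, h2]
        exact mul_le_mul (by linarith) (cr2_cub c h cm H hc1 hc2 hH) (norm_nonneg _)
          (by linarith)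
      have a2 : ‖(m : ℂ) * ((c + h) ^ 2 - c ^ 2)‖ ≤ m * (2 * cm * H) := by
        rw [norm_mul, Complex.norm_real, Real.norm_of_nonneg hm]
        exact mul_le_mul_of_nonneg_left (cr2_sq c h cm H hc1 hc2 hH) hm
      have a3 : ‖conj (conj g + 2 * S * conj o + t2) * h‖ ≤ Gn * H := by
        rw [norm_mul, cr2_conj]
        exact mul_le_mul hG hH (norm_nonneg _) ((norm_nonneg _).trans hG)
      refine (norm_add_le _ _).trans ?_
      have a4 := norm_add_le (2 * conj l2 * (conj (c + h) ^ 2 * (c + h) - conj c ^ 2 * c))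
        (m * ((c + h) ^ 2 - c ^ 2))
      linarith
    have b2 := mul_le_mul hs2 ((Complex.abs_re_le_norm _).trans b0) (abs_nonneg _) hs0
    rw [← abs_mul] at b2
    exact (le_abs_self _).trans b2
  have t3 : ‖l2‖ ^ 2 * ‖c + h‖ ^ 2 - ‖l2‖ ^ 2 * ‖c‖ ^ 2 ≤ L2 ^ 2 * (2 * cm * H) := by
    have b1 := cr2_nsq (c + h) c cm H hc2 hc1 (by rw [add_sub_cancel_left]; exact hH)
    have b2 : ‖l2‖ ^ 2 ≤ L2 ^ 2 := pow_le_pow_left₀ (norm_nonneg _) hL2 2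
    rw [← mul_sub]
    calc ‖l2‖ ^ 2 * (‖c + h‖ ^ 2 - ‖c‖ ^ 2) ≤ ‖l2‖ ^ 2 * (2 * cm * H) :=
          mul_le_mul_of_nonneg_left b1 (by positivity)
      _ ≤ L2 ^ 2 * (2 * cm * H) := mul_le_mul_of_nonneg_right b2 (by positivity)
  have t4 : ‖kap σ2 m (c + h)‖ ^ 2 - ‖kap σ2 m c‖ ^ 2 ≤ 2 * km * (4 * s2 * (2 * cm * H)) := by
    refine cr2_nsq _ _ km _ ?_ ?_ ?_
    · rw [hkm]
      exact cr2_kapn σ2 m (c + h) s2 cm hm hs2 hc2
    · rw [hkm]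
      exact cr2_kapn σ2 m c s2 cm hm hs2 hc1
    · have e : kap σ2 m (c + h) - kap σ2 m c = 4 * σ2 * ((c + h) ^ 2 - c ^ 2) := by
        unfold kap
        ring
      have h4 : ‖(4 : ℂ)‖ = 4 := by norm_num
      rw [e, norm_mul, norm_mul, h4, Complex.norm_real, Real.norm_eq_abs]
      exact mul_le_mul (by linarith) (cr2_sq c h cm H hc1 hc2 hH) (norm_nonneg _) (by linarith)
  have key : (16 * σ2 * (conj (zz l2 t2 g o S m (c + h)) * (c + h)).re +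
      16 * ‖l2‖ ^ 2 * ‖c + h‖ ^ 2 + ‖kap σ2 m (c + h)‖ ^ 2) / (2 * (S - r1)) ≤
      (16 * σ2 * (conj (zz l2 t2 g o S m c) * c).re + 16 * ‖l2‖ ^ 2 * ‖c‖ ^ 2 +
        ‖kap σ2 m c‖ ^ 2) / (2 * (S - r1)) +
      H * ((16 * s2 * (6 * L2 * cm ^ 2 + 2 * m * cm + Gn) + 32 * L2 ^ 2 * cm +
        16 * km * s2 * cm) / (2 * (S - r1))) := by
    have e : H * ((16 * s2 * (6 * L2 * cm ^ 2 + 2 * m * cm + Gn) + 32 * L2 ^ 2 * cm +
        16 * km * s2 * cm) / (2 * (S - r1))) =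
        (H * (16 * s2 * (6 * L2 * cm ^ 2 + 2 * m * cm + Gn) + 32 * L2 ^ 2 * cm +
        16 * km * s2 * cm)) / (2 * (S - r1)) := by ring
    rw [e, ← add_div]
    refine div_le_div_of_nonneg_right ?_ hT.le
    linarith
  unfold W0v
  linarith

theorem w2_var (l2 t2 g o : ℂ) (σ2 S m r1 : ℝ) (hS : 0 < S - r1) (hm : 0 ≤ m)
    (c h : ℂ) (L2 s2 cn H cm : ℝ) (hL2 : ‖l2‖ ≤ L2) (hs2 : |σ2| ≤ s2) (hcn : ‖c‖ ≤ cn)
    (hH : ‖h‖ ≤ H) (hcm : cm = cn + H) :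
    ‖W2v l2 t2 g o σ2 S m r1 (c + h) - W2v l2 t2 g o σ2 S m r1 c‖ ≤
      H * ((4 * L2 * (4 * L2 * cm + m) + 8 * L2 * (m + 12 * s2 * cm ^ 2)) / (2 * (S - r1))) := by
  have hs0 : 0 ≤ s2 := (abs_nonneg _).trans hs2
  have hL0 : 0 ≤ L2 := (norm_nonneg _).trans hL2
  have hH0 : 0 ≤ H := (norm_nonneg _).trans hH
  have hc1 : ‖c‖ ≤ cm := by rw [hcm]; linarith
  have hc2 : ‖c + h‖ ≤ cm := (norm_add_le _ _).trans (by rw [hcm]; linarith)
  have hc0 : 0 ≤ cm := (norm_nonneg _).trans hc1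
  have hT : 0 < 2 * (S - r1) := by linarith
  have e : W2v l2 t2 g o σ2 S m r1 (c + h) - W2v l2 t2 g o σ2 S m r1 c =
      -((4 * l2 * (2 * conj l2 * conj ((c + h) ^ 2 - c ^ 2) + m * h) +
        8 * l2 * (m * h + 4 * σ2 * (conj (c + h) ^ 2 * (c + h) - conj c ^ 2 * c))) /
          ((2 * (S - r1) : ℝ) : ℂ)) := by
    unfold W2v
    rw [cr2_zz, cr2_zz]
    unfold kap
    simp only [map_add, map_sub, map_mul, map_pow, Complex.conj_conj, Complex.conj_ofReal,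
      map_ofNat]
    push_cast
    ring
  rw [e, norm_neg, norm_div, Complex.norm_real, Real.norm_of_nonneg hT.le]
  have e2 : H * ((4 * L2 * (4 * L2 * cm + m) + 8 * L2 * (m + 12 * s2 * cm ^ 2)) / (2 * (S - r1))) =
      (H * (4 * L2 * (4 * L2 * cm + m) + 8 * L2 * (m + 12 * s2 * cm ^ 2))) / (2 * (S - r1)) := by
    ring
  rw [e2]
  refine div_le_div_of_nonneg_right ?_ hT.le
  have h4 : ‖(4 : ℂ)‖ = 4 := by norm_num
  have h8 : ‖(8 : ℂ)‖ = 8 := by norm_num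
  have h2 : ‖(2 : ℂ)‖ = 2 := by norm_num
  have am : ‖(m : ℂ) * h‖ ≤ m * H := by
    rw [norm_mul, Complex.norm_real, Real.norm_of_nonneg hm]
    exact mul_le_mul_of_nonneg_left hH hm
  have a1 : ‖2 * conj l2 * conj ((c + h) ^ 2 - c ^ 2) + m * h‖ ≤ H * (4 * L2 * cm + m) := by
    refine (norm_add_le _ _).trans ?_
    have b1 : ‖2 * conj l2 * conj ((c + h) ^ 2 - c ^ 2)‖ ≤ 2 * L2 * (2 * cm * H) := by
      rw [norm_mul, norm_mul, cr2_conj, cr2_conj, h2]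
      exact mul_le_mul (by linarith) (cr2_sq c h cm H hc1 hc2 hH) (norm_nonneg _) (by linarith)
    linarith
  have a2 : ‖(m : ℂ) * h + 4 * σ2 * (conj (c + h) ^ 2 * (c + h) - conj c ^ 2 * c)‖ ≤
      H * (m + 12 * s2 * cm ^ 2) := by
    refine (norm_add_le _ _).trans ?_
    have b1 : ‖4 * (σ2 : ℂ) * (conj (c + h) ^ 2 * (c + h) - conj c ^ 2 * c)‖ ≤
        4 * s2 * (3 * cm ^ 2 * H) := by
      rw [norm_mul, norm_mul, h4, Complex.norm_real, Real.norm_eq_abs]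
      exact mul_le_mul (by linarith) (cr2_cub c h cm H hc1 hc2 hH) (norm_nonneg _) (by linarith)
    linarith
  have b1 : ‖4 * l2 * (2 * conj l2 * conj ((c + h) ^ 2 - c ^ 2) + m * h)‖ ≤
      4 * L2 * (H * (4 * L2 * cm + m)) := by
    rw [norm_mul, norm_mul, h4]
    exact mul_le_mul (by linarith) a1 (norm_nonneg _) (by linarith)
  have b2 : ‖8 * l2 * ((m : ℂ) * h + 4 * σ2 * (conj (c + h) ^ 2 * (c + h) - conj c ^ 2 * c))‖ ≤
      8 * L2 * (H * (m + 12 * s2 * cm ^ 2)) := by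
    rw [norm_mul, norm_mul, h8]
    exact mul_le_mul (by linarith) a2 (norm_nonneg _) (by linarith)
  refine (norm_add_le _ _).trans ?_
  linarith

/-- `Re (W d^2) = Re W (x^2 - y^2) - 2 Im W x y`, `2|xy| ≤ θ x^2 + y^2/θ`. -/
theorem dform_lower (W0 v θ DX DY : ℝ) (W W' d : ℂ) (hW : ‖W - W'‖ ≤ v) (hθ : 0 < θ)
    (hx : |d.re| ≤ DX) (hy : |d.im| ≤ DY) :
    min 0 (W0 + W'.re - v - θ * |W'.im|) * DX ^ 2 + min 0 (W0 - W'.re - v - |W'.im| / θ) * DY ^ 2 ≤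
      W0 * ‖d‖ ^ 2 + (W * d ^ 2).re := by
  have hd : ‖d‖ ^ 2 = d.re ^ 2 + d.im ^ 2 := by
    rw [Complex.sq_norm, Complex.normSq_apply]
    ring
  have h1 : (W * d ^ 2).re = (W' * d ^ 2).re + ((W - W') * d ^ 2).re := by
    rw [← Complex.add_re]
    congr 1
    ring
  have h2 : -(v * ‖d‖ ^ 2) ≤ ((W - W') * d ^ 2).re := by
    have h3 : |((W - W') * d ^ 2).re| ≤ v * ‖d‖ ^ 2 := by
      refine (Complex.abs_re_le_norm _).trans ?_
      rw [norm_mul, norm_pow]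
      exact mul_le_mul_of_nonneg_right hW (by positivity)
    exact (abs_le.1 h3).1
  have h4 : (W' * d ^ 2).re = W'.re * (d.re ^ 2 - d.im ^ 2) - 2 * W'.im * (d.re * d.im) := by
    rw [pow_two, Complex.mul_re, Complex.mul_re, Complex.mul_im]
    ring
  have h5 : 2 * |d.re * d.im| ≤ θ * d.re ^ 2 + d.im ^ 2 / θ := by
    have h6 : θ * d.re ^ 2 + d.im ^ 2 / θ - 2 * |d.re * d.im| =
        (θ * |d.re| - |d.im|) ^ 2 / θ := by
      rw [abs_mul, ← sq_abs d.re, ← sq_abs d.im]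
      field_simp
      ring
    have h7 : 0 ≤ (θ * |d.re| - |d.im|) ^ 2 / θ := by positivity
    linarith
  have h8 : 2 * W'.im * (d.re * d.im) ≤ |W'.im| * (θ * d.re ^ 2 + d.im ^ 2 / θ) := by
    have h9 : W'.im * (d.re * d.im) ≤ |W'.im| * |d.re * d.im| := by
      rw [← abs_mul]
      exact le_abs_self _
    have h10 := mul_le_mul_of_nonneg_left h5 (abs_nonneg W'.im)
    linarith
  have h11 : (W0 + W'.re - v - θ * |W'.im|) * d.re ^ 2 +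
      (W0 - W'.re - v - |W'.im| / θ) * d.im ^ 2 ≤ W0 * ‖d‖ ^ 2 + (W * d ^ 2).re := by
    rw [h1, h4]
    rw [hd] at h2 ⊢
    have h12 : |W'.im| * (θ * d.re ^ 2 + d.im ^ 2 / θ) =
        θ * |W'.im| * d.re ^ 2 + |W'.im| / θ * d.im ^ 2 := by ring
    linarith
  refine le_trans ?_ h11
  have hgen : ∀ A x X : ℝ, |x| ≤ X → min 0 A * X ^ 2 ≤ A * x ^ 2 := by
    intro A x X hxX
    have g1 : x ^ 2 ≤ X ^ 2 := by
      rw [← sq_abs x]
      exact pow_le_pow_left₀ (abs_nonneg _) hxX 2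
    have g2 : min 0 A * X ^ 2 ≤ min 0 A * x ^ 2 :=
      mul_le_mul_of_nonpos_left g1 (min_le_left _ _)
    have g3 : min 0 A * x ^ 2 ≤ A * x ^ 2 :=
      mul_le_mul_of_nonneg_right (min_le_right _ _) (by positivity)
    exact g2.trans g3
  exact add_le_add (hgen _ _ _ hx) (hgen _ _ _ hy)

end Pool.Agent.MaxTerm8
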