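import Pool.Agent.MaxTerm8.Tails

/-! From the exact centre `p` to the rational centre `oo`. -/

namespace Pool.Agent.MaxTerm8

open Complex ComplexConjugate

private theorem re_ge (z : ℂ) (B : ℝ) (h : ‖z‖ ≤ B) : -B ≤ z.re := by
  have := Complex.abs_re_le_norm z
  have h2 := neg_abs_le z.re
  linarith

private theorem nsq_pert (a o p : ℂ) (δ : ℝ) (hp : ‖p - o‖ ≤ δ) :
    ‖a - p‖ ^ 2 ≤ 101 / 100 * ‖a - o‖ ^ 2 + 101 * δ ^ 2 := by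
  have h1 : ‖a - p‖ ≤ ‖a - o‖ + ‖p - o‖ := by
    have : a - p = (a - o) - (p - o) := by ring
    rw [this]; exact norm_sub_le _ _
  have h2 : ‖a - p‖ ≤ ‖a - o‖ + δ := h1.trans (by linarith)
  have h0 := norm_nonneg (a - p)
  have hd : 0 ≤ δ := (norm_nonneg _).trans hp
  have h3 := norm_nonneg (a - o)
  nlinarith [sq_nonneg (‖a - o‖ - 100 * δ), mul_self_le_mul_self h0 h2]

private theorem phi_diff (l0 l1 l2 T0 T1 T2 t0 t1 t2 g g' p o : ℂ)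
    (ν σ1 σ2 S m r0 r1 r0' r1' rd rcc e0 e0' e1' : ℝ) (a b u v : ℂ) :
    Phi l0 l1 l2 T0 T1 T2 g p ν σ1 σ2 S m r0 r1 rd rcc e0 0 a b u v -
    Phi l0 l1 l2 t0 t1 t2 g' o ν σ1 σ2 S m r0' r1' rd rcc e0' e1' a b u v =
    (conj (g - g') * (u - o)).re + (conj (g - g') * (v - o)).re
      - 2 * (conj (g - g') * ((a + b) / 2 - o)).re + (T0 - t0).re
      + ((T1 - t1) * ((a + b) / 2 - o)).re + (T1 * (o - p)).re
      + ((T2 - t2) * (u - o)).re + ((T2 - t2) * (v - o)).re + 2 * (T2 * (o - p)).re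
      - r0 * (‖a - p‖ ^ 2 + ‖b - p‖ ^ 2) + r0' * (‖a - o‖ ^ 2 + ‖b - o‖ ^ 2)
      - r1 * (‖u - p‖ ^ 2 + ‖v - p‖ ^ 2) + r1' * (‖u - o‖ ^ 2 + ‖v - o‖ ^ 2)
      - e0 + e0' + e1' * ‖(a + b) / 2 - o‖ := by
  have hc : ((a + b) / 2 : ℂ) = ⟨(a.re + b.re) / 2, (a.im + b.im) / 2⟩ := by
    apply Complex.ext
    · simp
    · simp
  unfold Phi
  have h2p : (2 * p : ℂ) = ⟨2 * p.re, 2 * p.im⟩ := by apply Complex.ext <;> simp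
  have h2o : (2 * o : ℂ) = ⟨2 * o.re, 2 * o.im⟩ := by apply Complex.ext <;> simp
  generalize ‖(a + b) / 2 - o‖ = N0
  generalize ‖(a + b) / 2 - p‖ = N1
  rw [hc, h2p, h2o]
  simp only [Complex.mul_re, Complex.sub_re, Complex.sub_im, Complex.add_re, Complex.add_im,
    Complex.conj_re, Complex.conj_im, map_sub]
  ring

/-- Elementary perturbation of `Phi`: replace `(T0, T1, T2, g, p)` by `(t0, t1, t2, g', o)`, using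
`x = u - o`, `y = v - o`, `c = (a+b)/2`:
`Re (conj g (u+v-a-b)) = Re (conj g' (u+v-a-b)) + Re (conj (g-g') (x+y)) - 2 Re (conj (g-g') (c - o))`,
`Re (T1 (c-p)) = Re (t1 (c-o)) + Re ((T1-t1)(c-o)) + Re (T1 (o-p))`,
`Re (T2 (u+v-2p)) = Re (t2 (x+y)) + Re ((T2-t2)(x+y)) + 2 Re (T2 (o-p))`,
`‖a-p‖^2 ≤ 101/100 ‖a-o‖^2 + 101 ‖o-p‖^2` (same for `b, u, v`), and
`ε (‖x‖ + ‖y‖) ≤ 1/100 (‖x‖^2+‖y‖^2) + 50 ε^2`. -/
theorem phi_pert (l0 l1 l2 T0 T1 T2 t0 t1 t2 g g' p o : ℂ)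
    (ν σ1 σ2 S m r0 r1 rd rcc e0 : ℝ) (hr0 : 0 ≤ r0) (hr1 : 0 ≤ r1)
    (δ0 δ1 δ2 δg δp B1 B2 : ℝ) (h0 : ‖T0 - t0‖ ≤ δ0) (h1 : ‖T1 - t1‖ ≤ δ1) (h2 : ‖T2 - t2‖ ≤ δ2)
    (hg : ‖g - g'‖ ≤ δg) (hp : ‖p - o‖ ≤ δp) (hB1 : ‖T1‖ ≤ B1) (hB2 : ‖T2‖ ≤ B2) (a b u v : ℂ) :
    Phi l0 l1 l2 t0 t1 t2 g' o ν σ1 σ2 S m (101 / 100 * r0) (101 / 100 * r1 + 1 / 100) rd rcc
      (e0 + δ0 + B1 * δp + 2 * B2 * δp + 202 * (r0 + r1) * δp ^ 2 + 50 * (δg + δ2) ^ 2)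
      (2 * δg + δ1) a b u v ≤
    Phi l0 l1 l2 T0 T1 T2 g p ν σ1 σ2 S m r0 r1 rd rcc e0 0 a b u v := by
  rw [← sub_nonneg, phi_diff]
  have hcc := norm_nonneg ((a + b) / 2 - o)
  have hx := norm_nonneg (u - o)
  have hy := norm_nonneg (v - o)
  have hdg : 0 ≤ δg := (norm_nonneg _).trans hg
  have hd2 : 0 ≤ δ2 := (norm_nonneg _).trans h2
  have hdp : 0 ≤ δp := (norm_nonneg _).trans hp
  have hop : ‖o - p‖ ≤ δp := by rw [norm_sub_rev]; exact hp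
  have hgc : ‖conj (g - g')‖ ≤ δg := by rw [RCLike.norm_conj]; exact hg
  have k1 := re_ge (conj (g - g') * (u - o)) (δg * ‖u - o‖)
    (by rw [norm_mul]; exact mul_le_mul_of_nonneg_right hgc hx)
  have k2 := re_ge (conj (g - g') * (v - o)) (δg * ‖v - o‖)
    (by rw [norm_mul]; exact mul_le_mul_of_nonneg_right hgc hy)
  have k3 := re_ge (-(conj (g - g') * ((a + b) / 2 - o))) (δg * ‖(a + b) / 2 - o‖)
    (by rw [norm_neg, norm_mul]; exact mul_le_mul_of_nonneg_right hgc hcc)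
  rw [Complex.neg_re] at k3
  have k4 := re_ge (T0 - t0) δ0 h0
  have k5 := re_ge ((T1 - t1) * ((a + b) / 2 - o)) (δ1 * ‖(a + b) / 2 - o‖)
    (by rw [norm_mul]; exact mul_le_mul_of_nonneg_right h1 hcc)
  have k6 := re_ge (T1 * (o - p)) (B1 * δp)
    (by rw [norm_mul]; exact mul_le_mul hB1 hop (norm_nonneg _) ((norm_nonneg _).trans hB1))
  have k7 := re_ge ((T2 - t2) * (u - o)) (δ2 * ‖u - o‖)
    (by rw [norm_mul]; exact mul_le_mul_of_nonneg_right h2 hx)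
  have k8 := re_ge ((T2 - t2) * (v - o)) (δ2 * ‖v - o‖)
    (by rw [norm_mul]; exact mul_le_mul_of_nonneg_right h2 hy)
  have k9 := re_ge (T2 * (o - p)) (B2 * δp)
    (by rw [norm_mul]; exact mul_le_mul hB2 hop (norm_nonneg _) ((norm_nonneg _).trans hB2))
  have q1 := mul_le_mul_of_nonneg_left (nsq_pert a o p δp hp) hr0
  have q2 := mul_le_mul_of_nonneg_left (nsq_pert b o p δp hp) hr0
  have q3 := mul_le_mul_of_nonneg_left (nsq_pert u o p δp hp) hr1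
  have q4 := mul_le_mul_of_nonneg_left (nsq_pert v o p δp hp) hr1
  have s1 : (δg + δ2) * ‖u - o‖ ≤ 1 / 100 * ‖u - o‖ ^ 2 + 25 * (δg + δ2) ^ 2 := by
    nlinarith [sq_nonneg (‖u - o‖ - 50 * (δg + δ2))]
  have s2 : (δg + δ2) * ‖v - o‖ ≤ 1 / 100 * ‖v - o‖ ^ 2 + 25 * (δg + δ2) ^ 2 := by
    nlinarith [sq_nonneg (‖v - o‖ - 50 * (δg + δ2))]
  nlinarith [k1, k2, k3, k4, k5, k6, k7, k8, k9, q1, q2, q3, q4, s1, s2]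

private theorem phi_mono_e (l0 l1 l2 t0 t1 t2 g o : ℂ)
    (ν σ1 σ2 S m r0 r1 rd rcc e0 e1 e0' e1' : ℝ) (h0 : e0 ≤ e0') (h1 : e1 ≤ e1') (a b u v : ℂ) :
    Phi l0 l1 l2 t0 t1 t2 g o ν σ1 σ2 S m r0 r1 rd rcc e0' e1' a b u v ≤
    Phi l0 l1 l2 t0 t1 t2 g o ν σ1 σ2 S m r0 r1 rd rcc e0 e1 a b u v := by
  unfold Phi
  have := mul_le_mul_of_nonneg_right h1 (norm_nonneg ((a + b) / 2 - o))
  linarith

/-- Combine `phi_pert` and `tails_L` (`50 (8e-4 + 1.272e-4)^2 ≤ 4.3e-5`;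
total `2.45e-5 + 1.07e-6 + .54e-6 + .04e-6 + 4.3e-5 + 7.5e-6 ≤ 8e-5`, `1.6e-3 + 6.245e-4 ≤ 2.3e-3`). -/
theorem conv_L (J : ℕ) (hJ : 5 ≤ J) (p : ℂ) (μ : ℕ → ℂ) (g : ℂ) (h : Encl p μ g) (L : ℕ → ℂ)
    (hL : ∀ j, ‖L j‖ ≤ 19 / 10) (L3 s3 r3 DF : ℝ) (hL3 : 0 ≤ L3) (hs3 : 0 ≤ s3)
    (hr3 : r3 = 5 * (17 / 50) ^ 4 * L3 + 2 * (17 / 50) ^ 5 * s3) (hr3' : r3 ≤ 66 / 1000)
    (hDF : ‖L 3 - mm3‖ ≤ DF) (ν σ1 σ2 : ℝ) (a b u v : ℂ) :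
    Phi (L 0) (L 1) (L 2) (4 * L 3 * oo ^ 6) ((12 * L 3 + 4 * mm3) * oo ^ 5) (4 * L 3 * oo ^ 5) gg oo
      ν σ1 σ2 (13 / 20) (9 / 20) (101 / 100 * (15 * (17 / 50) ^ 4 * L3 + 124 / 10000))
      (101 / 100 * (2 * r3 + 7 / 100 + 240 / 10000) + 1 / 100)
      (36 * (17 / 50) ^ 5 * s3 + 35 / 10000) 0
      (2 * (DF + 5 / 1000) ^ 2 * (3 / 1000000) / (7 / 100 - r3) + 80 / 1000000) (23 / 10000) a b u v ≤
    Phi (L 0) (L 1) (L 2) (TT0 J L p) (TT1 J L μ p) (TT2 J L p) g p ν σ1 σ2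
      (13 / 20) (9 / 20) (15 * (17 / 50) ^ 4 * L3 + 124 / 10000) (2 * r3 + 7 / 100 + 240 / 10000)
      (36 * (17 / 50) ^ 5 * s3 + 35 / 10000) 0 (EL J L μ p r3) 0 a b u v := by
  obtain ⟨h0, h2, h1, hB1, hB2, hEL⟩ := tails_L J hJ p μ g h L hL r3 hr3'
  have hr0 : (0 : ℝ) ≤ 15 * (17 / 50) ^ 4 * L3 + 124 / 10000 := by positivity
  have hr30 : 0 ≤ r3 := by rw [hr3]; positivity
  have hr1 : (0 : ℝ) ≤ 2 * r3 + 7 / 100 + 240 / 10000 := by positivity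
  have key := phi_pert (L 0) (L 1) (L 2) (TT0 J L p) (TT1 J L μ p) (TT2 J L p)
    (4 * L 3 * oo ^ 6) ((12 * L 3 + 4 * mm3) * oo ^ 5) (4 * L 3 * oo ^ 5) g gg p oo
    ν σ1 σ2 (13 / 20) (9 / 20) (15 * (17 / 50) ^ 4 * L3 + 124 / 10000)
    (2 * r3 + 7 / 100 + 240 / 10000) (36 * (17 / 50) ^ 5 * s3 + 35 / 10000) 0 (EL J L μ p r3)
    hr0 hr1 _ _ _ _ _ _ _ h0 h1 h2 h.hg h.hp hB1 hB2 a b u v
  refine le_trans (phi_mono_e _ _ _ _ _ _ _ _ _ _ _ _ _ _ _ _ _ _ _ _ _ ?_ ?_ _ _ _ _) key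
  · have hL15 : 15 * (17 / 50) ^ 4 * L3 ≤ 198 / 1000 := by
      have : (0 : ℝ) ≤ 2 * (17 / 50) ^ 5 * s3 := by positivity
      nlinarith
    have hden : 0 < 7 / 100 - r3 := by linarith
    have hE2 : 2 * (‖L 3 - mm3‖ + 5 / 1000) ^ 2 * (3 / 1000000) / (7 / 100 - r3) ≤
        2 * (DF + 5 / 1000) ^ 2 * (3 / 1000000) / (7 / 100 - r3) := by
      have hn := norm_nonneg (L 3 - mm3)
      gcongr
    nlinarith [hEL, hE2]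
  · norm_num

/-- Combine `phi_pert` and `tails_C` (`50 * 8e-4^2 = 3.2e-5`, `+ 8.1e-6 + 1.2e-6 ≤ 4.5e-5`). -/
theorem conv_C (J : ℕ) (hJ : 5 ≤ J) (p : ℂ) (μ : ℕ → ℂ) (g : ℂ) (h : Encl p μ g)
    (l0 l1 l2 : ℂ) (ν σ1 σ2 : ℝ) (a b u v : ℂ) :
    Phi l0 l1 l2 0 (4 * mm3 * oo ^ 5) 0 gg oo ν σ1 σ2 (13 / 20) (9 / 20) 0
      (101 / 100 * (7 / 100 + (3 * (9 / 2000) + 73 / 100000)) + 1 / 100)
      (927 / 10000) (927 / 10000) (45 / 1000000) (23 / 10000) a b u v ≤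
    Phi l0 l1 l2 0 (TT1 J (fun _ => 0) μ p) 0 g p ν σ1 σ2 (13 / 20) (9 / 20) 0
      (7 / 100 + (3 * (9 / 2000) + 73 / 100000)) (927 / 10000) (927 / 10000) (EC J μ p) 0
      a b u v := by
  obtain ⟨h1, hB1, hEC⟩ := tails_C J hJ p μ g h
  have key := phi_pert l0 l1 l2 0 (TT1 J (fun _ => 0) μ p) 0 0 (4 * mm3 * oo ^ 5) 0 g gg p oo
    ν σ1 σ2 (13 / 20) (9 / 20) 0 (7 / 100 + (3 * (9 / 2000) + 73 / 100000)) (927 / 10000)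
    (927 / 10000) (EC J μ p) le_rfl (by norm_num) 0 _ 0 _ _ _ 0 (by simp) h1 (by simp) h.hg h.hp
    hB1 (by simp) a b u v
  rw [mul_zero] at key
  refine le_trans (phi_mono_e _ _ _ _ _ _ _ _ _ _ _ _ _ _ _ _ _ _ _ _ _ ?_ ?_ _ _ _ _) key
  · norm_num
    linarith
  · norm_num

end Pool.Agent.MaxTerm8
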