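import Pool.Agent.MaxTerm8.GQ
import Pool.Agent.MaxTerm8.CellReal
import Pool.Agent.MaxTerm8.CellReal2
import Pool.Agent.MaxTerm8.Convert

/-! The checker for the cells of Stage 2. -/

namespace Pool.Agent.MaxTerm8

open Complex ComplexConjugate

/-- certificate of a cell: `L = true` for type L, `false` for type C -/
structure CA where
  L : Bool
  w : ℚ
  x : ℚ
  Y0 : GQ
  Y1 : GQ
  th : ℚ
  DX : ℚ
  l2 : ℚ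
  l3 : ℚ
  df : ℚ
  cn : ℚ
  zn : ℚ

/-- constructor with rational arguments only -/
def mkA (L : Bool) (w x a b c d th DX l2 l3 df cn zn : ℚ) : CA :=
  ⟨L, w, x, ⟨a, b⟩, ⟨c, d⟩, th, DX, l2, l3, df, cn, zn⟩

def gQ : GQ := ⟨365932 / 1000000, -244302 / 1000000⟩
def m3Q : GQ := ⟨246606 / 1000000, -150940 / 1000000⟩

namespace CA

/-- upper bound of the norm of a vector with entries bounded by `a`, `b` -/
def nsup (a b : ℚ) : ℚ := max a b + min a b / 2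

def lm (z : CA) (j : ℕ) : GQ := lamQ z.w z.x z.Y0 z.Y1 j
def s (z : CA) (j : ℕ) : ℚ := sgQ z.w z.x j
def s2 (z : CA) : ℚ := |z.s 2|
def s3 (z : CA) : ℚ := |z.s 3|
def rpr (z : CA) : ℚ := 5 * (17 / 50) ^ 4 * z.l3
def r (z : CA) : ℚ := z.rpr + 2 * (17 / 50) ^ 5 * z.s3
def r0 (z : CA) : ℚ := if z.L then 101 / 100 * (15 * (17 / 50) ^ 4 * z.l3 + 124 / 10000) else 0
def r1 (z : CA) : ℚ := if z.L then 101 / 100 * (2 * z.r + 7 / 100 + 240 / 10000) + 1 / 100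
  else 101 / 100 * (7 / 100 + (3 * (9 / 2000) + 73 / 100000)) + 1 / 100
def rd (z : CA) : ℚ := if z.L then 36 * (17 / 50) ^ 5 * z.s3 + 35 / 10000 else 927 / 10000
def rcc (z : CA) : ℚ := if z.L then 0 else 927 / 10000
def t0 (z : CA) : GQ := if z.L then GQ.sm 4 (z.lm 3) * oQ.pw 6 else ⟨0, 0⟩
def t1 (z : CA) : GQ := if z.L then (GQ.sm 12 (z.lm 3) + GQ.sm 4 m3Q) * oQ.pw 5
  else GQ.sm 4 m3Q * oQ.pw 5
def t2 (z : CA) : GQ := if z.L then GQ.sm 4 (z.lm 3) * oQ.pw 5 else ⟨0, 0⟩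
def e0 (z : CA) : ℚ := if z.L then
  2 * (z.df + 5 / 1000) ^ 2 * (3 / 1000000) / (7 / 100 - z.r) + 80 / 1000000 else 45 / 1000000
/-- `S'` -/
def Sp (z : CA) : ℚ := 13 / 20 - z.r1
/-- `conj g + 2 S conj o + t2` -/
def G (z : CA) : GQ := gQ.cj + GQ.sm (13 / 10) oQ.cj + z.t2
def zc (z : CA) (c : GQ) : GQ := GQ.sm 2 (z.lm 2) * c * c + GQ.sm (9 / 20) c.cj + z.G
def av (z : CA) (c : GQ) : ℚ :=
  4 * (z.lm 0 + z.lm 1 * c).re - nuQ z.w z.x z.Y0 z.Y1 + 4 * (z.lm 2 * c * c * oQ).re +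
  13 / 10 * oQ.n2 - (11 / 5 + z.rcc) * c.n2 + 2 * (gQ.cj * (oQ - c)).re + 9 / 10 * (oQ * c.cj).re +
  z.t0.re + (z.t1 * (c - oQ)).re - 2 * z.r0 * (c - oQ).n2 - (z.zc c).n2 / (2 * z.Sp) - z.e0
def al (z : CA) (c : GQ) : GQ :=
  GQ.sm 4 (z.lm 1) + GQ.sm 8 (z.lm 2) * oQ * c - GQ.sm (22 / 5 + 2 * z.rcc) c.cj - GQ.sm 2 gQ.cj +
  GQ.sm (9 / 10) oQ.cj + z.t1 - GQ.sm (4 * z.r0) (c - oQ).cj -
  GQ.sm (1 / z.Sp) (GQ.sm 4 (z.zc c).cj * z.lm 2 * c + GQ.sm (9 / 20) (z.zc c))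
def Kq (z : CA) (H : ℚ) : ℚ :=
  4 * z.l2 * (2803 / 10000) + 2 * (11 / 10 + z.r0) + z.rcc +
  (4 * z.zn * z.l2 + (4 * z.l2 * z.cn + 9 / 20 + 2 * z.l2 * H) ^ 2) / (2 * z.Sp)
def kp (z : CA) (c : GQ) : GQ := GQ.ofQ (9 / 20) + GQ.sm (4 * z.s 2) (c * c)
def w0 (z : CA) (c : GQ) : ℚ :=
  4 * z.s 1 - 2 / 5 - 2 * z.r0 - z.rd + 16 * z.s 2 * (c * oQ).re -
  (16 * z.s 2 * ((z.zc c).cj * c).re + 16 * z.l2 ^ 2 * z.cn ^ 2 + (z.kp c).n2) / (2 * z.Sp)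
def w2 (z : CA) (c : GQ) : GQ :=
  GQ.sm 4 (z.lm 2) * oQ -
  GQ.sm (1 / (2 * z.Sp)) (GQ.sm 4 (z.zc c).cj * z.lm 2 + GQ.sm 8 (z.lm 2) * c * (z.kp c).cj)
def cm (z : CA) (H : ℚ) : ℚ := z.cn + H
def km (z : CA) (H : ℚ) : ℚ := 9 / 20 + 4 * z.s2 * z.cm H ^ 2
def Gn (z : CA) : ℚ := z.zn + 2 * z.l2 * z.cn ^ 2 + 9 / 20 * z.cn
def v (z : CA) (H : ℚ) : ℚ :=
  H * (16 * z.s2 * (2803 / 10000) + (16 * z.s2 * (6 * z.l2 * z.cm H ^ 2 + 9 / 10 * z.cm H + z.Gn) +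
    32 * z.l2 ^ 2 * z.cm H + 16 * z.km H * z.s2 * z.cm H) / (2 * z.Sp)) +
  H * ((4 * z.l2 * (4 * z.l2 * z.cm H + 9 / 20) + 8 * z.l2 * (9 / 20 + 12 * z.s2 * z.cm H ^ 2)) /
    (2 * z.Sp))
def D2 (z : CA) : ℚ := z.DX ^ 2 + (35 / 1000) ^ 2
def hi (z : CA) (H : ℚ) : ℚ :=
  ((2 * z.l2 + 8 * z.s2 * z.cm H) ^ 2 + 8 * z.s2 * (4 * z.l2 * z.cm H + z.km H) +
    16 * z.s2 ^ 2 * z.D2) * z.D2 / (2 * z.Sp)
def Wx (z : CA) (c : GQ) (H : ℚ) : ℚ :=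
  z.w0 c + (z.w2 c).re - z.v H - z.hi H - z.th * |(z.w2 c).im|
def Wy (z : CA) (c : GQ) (H : ℚ) : ℚ :=
  z.w0 c - (z.w2 c).re - z.v H - z.hi H - |(z.w2 c).im| / z.th

/-- the side conditions -/
def side (z : CA) (B : Bx) : Bool :=
  decide (0 ≤ z.w) && decide (z.w ≤ 1) && decide (-1 ≤ z.x) && decide (z.x ≤ 1) &&
  decide (0 < z.th) && decide (0 ≤ z.DX) && decide (0 ≤ z.l2) && decide (0 ≤ z.l3) &&
  decide (0 ≤ z.df) && decide (0 ≤ z.cn) && decide (0 ≤ z.zn) &&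
  decide (nuQ z.w z.x z.Y0 z.Y1 ≤ 361 / 100) && decide ((z.lm 2).n2 ≤ z.l2 ^ 2) &&
  decide ((z.lm 3).n2 ≤ z.l3 ^ 2) && decide ((z.lm 3 - m3Q).n2 ≤ z.df ^ 2) &&
  decide (B.ct.n2 ≤ z.cn ^ 2) && decide ((z.zc B.ct).n2 ≤ z.zn ^ 2) &&
  decide (0 ≤ B.hx) && decide (0 ≤ B.hy) &&
  decide (0 ≤ B.y1 - 35 / 1000) && decide (B.x2 ≤ 0) && decide (0 ≤ z.DX - B.x2) &&
  decide ((17 / 50) ^ 2 - (B.y1 - 35 / 1000) ^ 2 ≤ (z.DX - B.x2) ^ 2) &&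
  decide (1 / 20 ≤ z.Sp) && (!z.L || decide (z.r ≤ 66 / 1000))

/-- the main inequality -/
def main (z : CA) (B : Bx) : Bool :=
  let H := nsup B.hx B.hy
  let c := B.ct
  decide (2921266961 / 1000000000 + 1 / 1000000 ≤
    z.av c - |(z.al c).re| * B.hx - |(z.al c).im| * B.hy - z.Kq H * (B.hx ^ 2 + B.hy ^ 2) -
    23 / 10000 * (|(c - oQ).re| + |(c - oQ).im| + H) +
    (min 0 (z.Wx c H) * z.DX ^ 2 + min 0 (z.Wy c H) * (35 / 1000) ^ 2))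

/-- the check of a cell -/
def chk (B : Bx) (z : CA) : Bool := z.side B && z.main B

end CA

end Pool.Agent.MaxTerm8
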