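import Pool.Agent.MaxTerm8.GQ

/-! Checker for the constant family. -/

namespace Pool.Agent.MaxTerm8

open Complex ComplexConjugate

structure CB where
  w : ℚ
  x : ℚ
  Y0 : GQ
  Y1 : GQ
  l2 : ℚ
  l3 : ℚ

def mkB (w x a b c d l2 l3 : ℚ) : CB := ⟨w, x, ⟨a, b⟩, ⟨c, d⟩, l2, l3⟩

namespace CB

def lm (z : CB) (j : ℕ) : GQ := lamQ z.w z.x z.Y0 z.Y1 j
def P (z : CB) (c : GQ) : GQ :=
  z.lm 0 + z.lm 1 * c + z.lm 2 * c.pw 3 + z.lm 3 * c.pw 6 + z.lm 4 * c.pw 10 + z.lm 5 * c.pw 15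
def D (z : CB) (c : GQ) : GQ :=
  z.lm 1 + GQ.sm 3 (z.lm 2) * c.pw 2 + GQ.sm 6 (z.lm 3) * c.pw 5 + GQ.sm 10 (z.lm 4) * c.pw 9 +
  GQ.sm 15 (z.lm 5) * c.pw 14
def q (z : CB) (ρ : ℚ) : ℚ := 6 * z.l2 * ρ + 30 * z.l3 * ρ ^ 4 + 171 * ρ ^ 8 + 399 * ρ ^ 13

def side (ρ : ℚ) (z : CB) (B : Bx) : Bool :=
  decide (B.ct.n2 ≤ ρ ^ 2) &&
  decide (0 ≤ z.w) && decide (z.w ≤ 1) && decide (-1 ≤ z.x) && decide (z.x ≤ 1) &&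
  decide (0 ≤ z.l2) && decide (0 ≤ z.l3) && decide (nuQ z.w z.x z.Y0 z.Y1 ≤ 361 / 100) &&
  decide ((z.lm 2).n2 ≤ z.l2 ^ 2) && decide ((z.lm 3).n2 ≤ z.l3 ^ 2) &&
  decide (0 ≤ B.hx) && decide (0 ≤ B.hy)

def main (ρ τ : ℚ) (z : CB) (B : Bx) : Bool :=
  let d := z.D B.ct
  decide (2921266961 / 1000000000 + 1 / 1000000000000 ≤
    4 * (z.P B.ct).re - nuQ z.w z.x z.Y0 z.Y1 - 4 * (|d.re| * B.hx + |d.im| * B.hy) -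
    2 * z.q ρ * (B.hx ^ 2 + B.hy ^ 2) - τ)

def chk (ρ τ : ℚ) (B : Bx) (z : CB) : Bool := z.side ρ B && z.main ρ τ B

end CB

end Pool.Agent.MaxTerm8
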