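import Pool.Agent.MaxTerm8.GQ

/-! Checkers of Stage 1a (pointwise, `c` outside the box `A`) and Stage 1b (`|Im d|` small). -/

namespace Pool.Agent.MaxTerm8

open Complex ComplexConjugate

/-- certificate for Stage 1a -/
structure CS where
  w : ℚ
  x : ℚ
  Y0 : GQ
  Y1 : GQ
  l2 : ℚ
  tau : ℚ

def mkS (w x a b c d l2 tau : ℚ) : CS := ⟨w, x, ⟨a, b⟩, ⟨c, d⟩, l2, tau⟩

namespace CS

def lm (z : CS) (j : ℕ) : GQ := lamQ z.w z.x z.Y0 z.Y1 j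
def k (z : CS) : ℚ := 4 * (17 / 50) * z.l2 + 927 / 10000
def k2 (z : CS) : ℚ := 4 * sgQ z.w z.x 1 - 4 * (17 / 50) * z.l2 - 927 / 10000
def al (z : CS) (c : GQ) : GQ := GQ.sm 4 (z.lm 1) - GQ.sm (2 * z.k) c.cj

def side (z : CS) (B : Bx) : Bool :=
  decide (0 ≤ z.w) && decide (z.w ≤ 1) && decide (-1 ≤ z.x) && decide (z.x ≤ 1) &&
  decide (0 ≤ z.l2) && decide (0 ≤ z.tau) && decide ((z.lm 2).n2 ≤ z.l2 ^ 2) &&
  decide (0 < z.k2) && decide (64 * (17 / 50) ^ 6 * (sgQ z.w z.x 2) ^ 2 ≤ 4 * z.k2 * z.tau) &&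
  decide (0 ≤ B.hx) && decide (0 ≤ B.hy)

def main (z : CS) (B : Bx) : Bool :=
  decide (2921266961 / 1000000000 + 1 / 1000000 ≤
    4 * (z.lm 0 + z.lm 1 * B.ct).re - nuQ z.w z.x z.Y0 z.Y1 - z.k * B.ct.n2 -
    |(z.al B.ct).re| * B.hx - |(z.al B.ct).im| * B.hy - z.k * (B.hx ^ 2 + B.hy ^ 2) - z.tau)

def chk (B : Bx) (z : CS) : Bool := z.side B && z.main B

end CS

/-- certificate for Stage 1b: a point `(1 - s^2 + 2 s i)/(1 + s^2)` of the unit circle and a value -/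
structure CT where
  s : ℚ
  Y : GQ
  yn : ℚ
  D1 : ℚ
  Dm : ℚ

def mkT (s a b yn D1 Dm : ℚ) : CT := ⟨s, ⟨a, b⟩, yn, D1, Dm⟩

namespace CT

def ze (z : CT) : GQ := ⟨(1 - z.s ^ 2) / (1 + z.s ^ 2), 2 * z.s / (1 + z.s ^ 2)⟩
def k (z : CT) : ℚ := 4 * (17 / 50) * z.yn + 927 / 10000
def al (z : CT) : GQ := GQ.sm 2 z.Y.cj * (z.ze.cj + z.ze * z.ze)
def be (z : CT) : GQ := GQ.sm 2 z.Y.cj * (z.ze.cj - z.ze * z.ze)
def gr (z : CT) (c : GQ) : GQ := z.al - GQ.sm (2 * z.k) c.cj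

def side (z : CT) (B : Bx) : Bool :=
  decide (0 ≤ z.yn) && decide (z.Y.n2 ≤ z.yn ^ 2) && decide (0 ≤ B.hx) && decide (0 ≤ B.hy) &&
  decide (B.x2 ≤ 0) && decide (0 ≤ B.y1) && decide (0 ≤ z.D1) && decide (0 ≤ 17 / 50 + B.x2) &&
  decide (35 / 1000 ≤ z.Dm) &&
  decide ((17 / 50) ^ 2 - (B.y1 + 35 / 1000) ^ 2 ≤ (z.D1 - B.x2) ^ 2) &&
  decide ((17 / 50) ^ 2 - B.x2 ^ 2 - B.y1 ^ 2 ≤ z.Dm ^ 2)

def main (z : CT) (B : Bx) : Bool :=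
  decide (2921266961 / 1000000000 + 1 / 1000000 ≤
    2 * (z.Y.cj * (GQ.ofQ 1 + z.ze)).re - z.Y.n2 + (z.al * B.ct).re - z.k * B.ct.n2 -
    |(z.gr B.ct).re| * B.hx - |(z.gr B.ct).im| * B.hy - z.k * (B.hx ^ 2 + B.hy ^ 2) +
    min (min (-z.be.re * z.D1 - z.k * z.D1 ^ 2)
      (z.be.re * (17 / 50 + B.x2) - z.k * (17 / 50 + B.x2) ^ 2)) 0 +
    min (-z.be.im * (35 / 1000) - z.k * (35 / 1000) ^ 2) (-z.be.im * z.Dm - z.k * z.Dm ^ 2))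

def chk (B : Bx) (z : CT) : Bool := z.side B && z.main B

end CT

/-- no point of the disc above the box by more than `35/1000` -/
def vac (B : Bx) : Bool :=
  decide (B.x2 ≤ 0) && decide (0 ≤ B.y1) &&
  decide ((17 / 50) ^ 2 < B.x2 ^ 2 + (B.y1 + 35 / 1000) ^ 2)

end Pool.Agent.MaxTerm8
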