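import Pool.Agent.MaxTerm8.Defs

/-! Compactness for sequences of bi-infinite sequences. -/

namespace Pool.Agent.MaxTerm8

open Complex ComplexConjugate Filter

private theorem cp_tri_ge (j : ℕ) : j ≤ tri j := by
  unfold tri
  rw [Nat.le_div_iff_mul_le (by norm_num)]
  rcases Nat.eq_zero_or_pos j with h | h
  · subst h
    simp
  · exact Nat.mul_le_mul_left j (by omega)

private theorem cp_summ : Summable fun j : ℕ => 2 * (1 / 2 : ℝ) ^ tri j := by
  apply Summable.mul_left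
  refine Summable.of_nonneg_of_le (fun j => by positivity) (fun j => ?_)
    (summable_geometric_of_lt_one (by norm_num : (0 : ℝ) ≤ 1 / 2) (by norm_num))
  exact pow_le_pow_of_le_one (by norm_num) (by norm_num) (cp_tri_ge j)

private theorem cp_sum_sub (j : ℕ) : ∑ i ∈ Finset.range j, (j - i) = tri j := by
  have h1 : ∑ i ∈ Finset.range j, (j - i) = ∑ i ∈ Finset.range (j + 1), i := by
    rw [Finset.sum_range_succ' (fun i => i), add_zero]
    rw [← Finset.sum_range_reflect]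
    refine Finset.sum_congr rfl fun i hi => ?_
    have := Finset.mem_range.1 hi
    omega
  rw [h1, Finset.sum_range_id]
  unfold tri
  rw [Nat.add_sub_cancel, mul_comm]

private theorem cp_prod (j : ℕ) (f : ℕ → ℂ) (hf : ∀ i, ‖f i‖ ≤ 1 / 2) :
    ‖∏ i ∈ Finset.range j, f i ^ (j - i)‖ ≤ (1 / 2 : ℝ) ^ tri j := by
  rw [norm_prod, ← cp_sum_sub j, ← Finset.prod_pow_eq_pow_sum]
  refine Finset.prod_le_prod (fun i _ => norm_nonneg _) fun i _ => ?_
  rw [norm_pow]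
  exact pow_le_pow_left₀ (norm_nonneg _) (hf i) _

private theorem cp_FT (ψ : ℤ → ℂ) (hψ : ∀ k, ‖ψ k‖ ≤ 1 / 2) (k : ℤ) (t : ℝ) (j : ℕ) :
    ‖FT ψ k t j‖ ≤ 2 * (1 / 2 : ℝ) ^ tri j := by
  have e1 : ‖exp (-((2 * (j : ℂ) + 1) * t * I))‖ = 1 := by
    rw [show (-((2 * (j : ℂ) + 1) * t * I)) = (((-((2 * (j : ℝ) + 1) * t) : ℝ)) : ℂ) * I by
      push_cast; ring]
    exact norm_exp_ofReal_mul_I _
  have e2 : ‖exp ((2 * (j : ℂ) + 1) * t * I)‖ = 1 := by
    rw [show ((2 * (j : ℂ) + 1) * t * I) = ((((2 * (j : ℝ) + 1) * t : ℝ)) : ℂ) * I by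
      push_cast; ring]
    exact norm_exp_ofReal_mul_I _
  have h1 : ‖TL ψ k j‖ ≤ (1 / 2 : ℝ) ^ tri j :=
    cp_prod j (fun i => ψ (k - i)) fun i => hψ _
  have h2 : ‖TR ψ k j‖ ≤ (1 / 2 : ℝ) ^ tri j :=
    cp_prod j (fun i => ψ (k + 1 + i)) fun i => hψ _
  unfold FT
  refine (norm_add_le _ _).trans ?_
  rw [norm_mul, norm_mul, e1, e2, mul_one, mul_one]
  linarith

/-- The product of closed discs of radius `1/2` is compact and first countable (`ℤ` is countable). -/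
theorem exists_limit (Ψ : ℕ → ℤ → ℂ) (h : ∀ n m, ‖Ψ n m‖ ≤ 1 / 2) :
    ∃ (ψ : ℤ → ℂ) (φ : ℕ → ℕ), StrictMono φ ∧ ∀ m, Tendsto (fun n => Ψ (φ n) m) atTop (nhds (ψ m)) := by
  have hc : IsCompact (Set.univ.pi fun _ : ℤ => Metric.closedBall (0 : ℂ) (1 / 2)) :=
    isCompact_univ_pi fun _ => isCompact_closedBall _ _
  obtain ⟨ψ, -, φ, hφ, hl⟩ := hc.tendsto_subseq (x := Ψ) (fun n => by
    rw [Set.mem_univ_pi]
    intro m
    rw [mem_closedBall_zero_iff]
    exact h n m)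
  refine ⟨ψ, φ, hφ, fun m => ?_⟩
  exact (tendsto_pi_nhds.1 hl) m

/-- Dominated convergence for series: `‖FT ψ k t j‖ ≤ 2 (1/2)^(tri j)` and every term is continuous in
finitely many `ψ m`. -/
theorem ff_tendsto (Ψ : ℕ → ℤ → ℂ) (h : ∀ n m, ‖Ψ n m‖ ≤ 1 / 2) (ψ : ℤ → ℂ)
    (hψ : ∀ m, Tendsto (fun n => Ψ n m) atTop (nhds (ψ m))) (k : ℤ) (t : ℝ) :
    Tendsto (fun n => FF (Ψ n) k t) atTop (nhds (FF ψ k t)) := by
  unfold FF
  refine tendsto_tsum_of_dominated_convergence cp_summ ?_ ?_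
  · intro j
    unfold FT TL TR
    refine Tendsto.add (Tendsto.mul_const _ ?_) (Tendsto.mul_const _ ?_)
    · exact tendsto_finsetProd _ fun i _ => (hψ _).pow _
    · exact tendsto_finsetProd _ fun i _ => (hψ _).pow _
  · exact Filter.Eventually.of_forall fun n j => cp_FT (Ψ n) (h n) k t j

end Pool.Agent.MaxTerm8
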