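import Pool.Agent.MaxTerm8.Defs

/-! Products near the point `p`. -/

namespace Pool.Agent.MaxTerm8

open Complex ComplexConjugate

private lemma prod_norm_le {ι : Type*} (s : Finset ι) (z : ι → ℂ) (R : ℝ) (hR : 0 ≤ R)
    (hz : ∀ i ∈ s, ‖z i‖ ≤ R) : ‖∏ i ∈ s, z i‖ ≤ R ^ s.card := by
  rw [norm_prod]
  calc ∏ i ∈ s, ‖z i‖ ≤ ∏ _i ∈ s, R := Finset.prod_le_prod (fun i _ => norm_nonneg _) hz
    _ = R ^ s.card := by rw [Finset.prod_const]

/-- Induction on `s`. -/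
theorem prod_lip {ι : Type*} (s : Finset ι) (z z' : ι → ℂ) (R : ℝ) (hR : 0 ≤ R)
    (hz : ∀ i ∈ s, ‖z i‖ ≤ R) (hz' : ∀ i ∈ s, ‖z' i‖ ≤ R) :
    ‖∏ i ∈ s, z i - ∏ i ∈ s, z' i‖ ≤ R ^ (s.card - 1) * ∑ i ∈ s, ‖z i - z' i‖ := by
  classical
  induction s using Finset.induction_on with
  | empty => simp
  | insert a s ha ih =>
    have h1 := ih (fun i hi => hz i (Finset.mem_insert_of_mem hi))
      (fun i hi => hz' i (Finset.mem_insert_of_mem hi))
    rw [Finset.prod_insert ha, Finset.prod_insert ha, Finset.sum_insert ha,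
      Finset.card_insert_of_notMem ha, Nat.add_sub_cancel]
    have hza := hz a (Finset.mem_insert_self a s)
    have hz'a := hz' a (Finset.mem_insert_self a s)
    have hprod := prod_norm_le s z R hR (fun i hi => hz i (Finset.mem_insert_of_mem hi))
    have e : z a * ∏ i ∈ s, z i - z' a * ∏ i ∈ s, z' i =
        (z a - z' a) * ∏ i ∈ s, z i + z' a * (∏ i ∈ s, z i - ∏ i ∈ s, z' i) := by ring
    rw [e]
    refine (norm_add_le _ _).trans ?_
    rw [norm_mul, norm_mul]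
    rcases Finset.eq_empty_or_nonempty s with hs | hs
    · subst hs
      simp
    · have hc : 1 ≤ s.card := Finset.card_pos.mpr hs
      have hsum : 0 ≤ ∑ i ∈ s, ‖z i - z' i‖ := Finset.sum_nonneg (fun i _ => norm_nonneg _)
      have h2 : ‖z' a‖ * ‖∏ i ∈ s, z i - ∏ i ∈ s, z' i‖ ≤
          R * (R ^ (s.card - 1) * ∑ i ∈ s, ‖z i - z' i‖) :=
        mul_le_mul hz'a h1 (norm_nonneg _) hR
      have h3 : R * (R ^ (s.card - 1) * ∑ i ∈ s, ‖z i - z' i‖) =
          R ^ s.card * ∑ i ∈ s, ‖z i - z' i‖ := by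
        rw [← mul_assoc, ← pow_succ', Nat.sub_add_cancel hc]
      have h4 : ‖z a - z' a‖ * ‖∏ i ∈ s, z i‖ ≤ ‖z a - z' a‖ * R ^ s.card :=
        mul_le_mul_of_nonneg_left hprod (norm_nonneg _)
      rw [h3] at h2
      calc ‖z a - z' a‖ * ‖∏ i ∈ s, z i‖ + ‖z' a‖ * ‖∏ i ∈ s, z i - ∏ i ∈ s, z' i‖
          ≤ ‖z a - z' a‖ * R ^ s.card + R ^ s.card * ∑ i ∈ s, ‖z i - z' i‖ := add_le_add h4 h2
        _ = R ^ s.card * (‖z a - z' a‖ + ∑ i ∈ s, ‖z i - z' i‖) := by ring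

/-- Induction on `s`. With `e_s` the expression inside the norm, `P_s = ∏ z_i`, `n = card s ≥ 1` and a
new element `z`: `e' = (P_s - p^n)(z - p) + p e_s`, `‖P_s - p^n‖ ≤ R^(n-1) ∑ ‖z_i - p‖` (`prod_lip`),
`‖z_i - p‖ ‖z - p‖ ≤ (‖z_i - p‖^2 + ‖z - p‖^2)/2`, hence
`‖e'‖ ≤ R^(n-1) ((n-1)/2 Q + Q/2 + n/2 ‖z-p‖^2)`, `Q = ∑ ‖z_i - p‖^2`. -/
theorem prod_first {ι : Type*} (s : Finset ι) (z : ι → ℂ) (p : ℂ) (R : ℝ) (hR : 0 ≤ R)
    (hp : ‖p‖ ≤ R) (hz : ∀ i ∈ s, ‖z i‖ ≤ R) :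
    ‖∏ i ∈ s, z i - p ^ s.card - p ^ (s.card - 1) * ∑ i ∈ s, (z i - p)‖ ≤
      R ^ (s.card - 2) * (((s.card : ℝ) - 1) / 2) * ∑ i ∈ s, ‖z i - p‖ ^ 2 := by
  classical
  induction s using Finset.induction_on with
  | empty => simp
  | insert a s ha ih =>
    have h1 := ih (fun i hi => hz i (Finset.mem_insert_of_mem hi))
    have hzs : ∀ i ∈ s, ‖z i‖ ≤ R := fun i hi => hz i (Finset.mem_insert_of_mem hi)
    rw [Finset.prod_insert ha, Finset.sum_insert ha, Finset.sum_insert ha,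
      Finset.card_insert_of_notMem ha]
    rcases Finset.eq_empty_or_nonempty s with hs | hs
    · subst hs
      simp
    · have hc : 1 ≤ s.card := Finset.card_pos.mpr hs
      obtain ⟨n, hn⟩ : ∃ n, s.card = n + 1 := ⟨s.card - 1, by omega⟩
      have hlip := prod_lip s z (fun _ => p) R hR hzs (fun _ _ => hp)
      rw [Finset.prod_const] at hlip
      rw [hn] at h1 hlip ⊢
      simp only [Nat.add_sub_cancel, Nat.reduceSubDiff] at h1 hlip ⊢
      set P := ∏ i ∈ s, z i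
      set S := ∑ i ∈ s, (z i - p)
      set Q := ∑ i ∈ s, ‖z i - p‖ ^ 2 with hQ
      have e : z a * P - p ^ (n + 1 + 1) - p ^ (n + 1) * (z a - p + S) =
          (P - p ^ (n + 1)) * (z a - p) + p * (P - p ^ (n + 1) - p ^ n * S) := by
        ring
      rw [e]
      have hQ0 : 0 ≤ Q := Finset.sum_nonneg (fun i _ => by positivity)
      have hA : ‖(P - p ^ (n + 1)) * (z a - p)‖ ≤
          R ^ n * (Q / 2 + ((n:ℝ) + 1) / 2 * ‖z a - p‖ ^ 2) := by
        rw [norm_mul]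
        calc ‖P - p ^ (n + 1)‖ * ‖z a - p‖
            ≤ (R ^ n * ∑ i ∈ s, ‖z i - p‖) * ‖z a - p‖ :=
              mul_le_mul_of_nonneg_right hlip (norm_nonneg _)
          _ = R ^ n * ∑ i ∈ s, ‖z i - p‖ * ‖z a - p‖ := by
              rw [mul_assoc, Finset.sum_mul]
          _ ≤ R ^ n * ∑ i ∈ s, (‖z i - p‖ ^ 2 / 2 + ‖z a - p‖ ^ 2 / 2) := by
              refine mul_le_mul_of_nonneg_left (Finset.sum_le_sum (fun i _ => ?_)) (by positivity)
              nlinarith [sq_nonneg (‖z i - p‖ - ‖z a - p‖)]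
          _ = R ^ n * (Q / 2 + ((n:ℝ) + 1) / 2 * ‖z a - p‖ ^ 2) := by
              rw [Finset.sum_add_distrib, Finset.sum_const, ← Finset.sum_div, hn, nsmul_eq_mul]
              push_cast
              ring
      have hB : ‖p * (P - p ^ (n + 1) - p ^ n * S)‖ ≤ R ^ n * ((n:ℝ) / 2 * Q) := by
        rw [norm_mul]
        rcases Nat.eq_zero_or_pos n with h0 | h0
        · subst h0
          have h2 : ‖P - p ^ (0 + 1) - p ^ 0 * S‖ ≤ 0 := by
            refine h1.trans (le_of_eq ?_)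
            push_cast
            ring
          have h3 : ‖P - p ^ (0 + 1) - p ^ 0 * S‖ = 0 := le_antisymm h2 (norm_nonneg _)
          rw [h3]
          simp
        · calc ‖p‖ * ‖P - p ^ (n + 1) - p ^ n * S‖
              ≤ R * (R ^ (n - 1) * ((((n + 1 : ℕ) : ℝ) - 1) / 2) * Q) :=
                mul_le_mul hp h1 (norm_nonneg _) hR
            _ = (R * R ^ (n - 1)) * ((n:ℝ) / 2 * Q) := by push_cast; ring
            _ = R ^ n * ((n:ℝ) / 2 * Q) := by rw [← pow_succ', Nat.sub_add_cancel h0]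
      refine (norm_add_le _ _).trans ((add_le_add hA hB).trans ?_)
      have hcast : (((n + 1 + 1 : ℕ) : ℝ) - 1) / 2 = ((n:ℝ) + 1) / 2 := by push_cast; ring
      have he : n + 1 + 1 - 2 = n := by omega
      rw [hcast]
      have hR' : 0 ≤ R ^ n := by positivity
      have : R ^ n * (Q / 2 + ((n:ℝ) + 1) / 2 * ‖z a - p‖ ^ 2) + R ^ n * ((n:ℝ) / 2 * Q) =
          R ^ n * (((n:ℝ) + 1) / 2) * (‖z a - p‖ ^ 2 + Q) := by ring
      rw [this]

private lemma tri_succ (j : ℕ) : tri (j + 1) = tri j + (j + 1) := by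
  unfold tri
  have : (j + 1) * (j + 1 + 1) = j * (j + 1) + 2 * (j + 1) := by ring
  rw [this, Nat.add_mul_div_left _ _ (by norm_num)]

private lemma sum_tri (j : ℕ) : ∑ i ∈ Finset.range j, (j - i) = tri j := by
  induction j with
  | zero => simp [tri]
  | succ j ih =>
    rw [Finset.sum_range_succ, tri_succ]
    have : ∑ i ∈ Finset.range j, (j + 1 - i) = ∑ i ∈ Finset.range j, ((j - i) + 1) := by
      refine Finset.sum_congr rfl (fun i hi => ?_)
      rw [Finset.mem_range] at hi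
      omega
    rw [this, Finset.sum_add_distrib, ih]
    simp only [Finset.sum_const, Finset.card_range, smul_eq_mul]
    omega

/-- the finset of pairs -/
private def prs (j : ℕ) : Finset (Σ _ : ℕ, ℕ) :=
  (Finset.range j).sigma fun i => Finset.range (j - i)

private lemma card_prs (j : ℕ) : (prs j).card = tri j := by
  unfold prs
  rw [Finset.card_sigma]
  simp only [Finset.card_range]
  exact sum_tri j

private lemma prod_prs (f : ℕ → ℂ) (j : ℕ) :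
    ∏ q ∈ prs j, f q.1 = ∏ i ∈ Finset.range j, f i ^ (j - i) := by
  unfold prs
  rw [Finset.prod_sigma]
  refine Finset.prod_congr rfl (fun i _ => ?_)
  simp only [Finset.prod_const, Finset.card_range]

private lemma sum_prs_c (f : ℕ → ℂ) (j : ℕ) :
    ∑ q ∈ prs j, f q.1 = ∑ i ∈ Finset.range j, ((j : ℂ) - i) * f i := by
  unfold prs
  rw [Finset.sum_sigma]
  refine Finset.sum_congr rfl (fun i hi => ?_)
  rw [Finset.mem_range] at hi
  simp only [Finset.sum_const, Finset.card_range, nsmul_eq_mul]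
  rw [Nat.cast_sub hi.le]

private lemma sum_prs_r (f : ℕ → ℝ) (j : ℕ) :
    ∑ q ∈ prs j, f q.1 = ∑ i ∈ Finset.range j, ((j : ℝ) - i) * f i := by
  unfold prs
  rw [Finset.sum_sigma]
  refine Finset.sum_congr rfl (fun i hi => ?_)
  rw [Finset.mem_range] at hi
  simp only [Finset.sum_const, Finset.card_range, nsmul_eq_mul]
  rw [Nat.cast_sub hi.le]

private lemma gen_first (f : ℕ → ℂ) (hf : ∀ i, ‖f i‖ ≤ 17 / 50) (p : ℂ) (hp : ‖p‖ ≤ 17 / 50)
    (j : ℕ) :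
    ‖∏ i ∈ Finset.range j, f i ^ (j - i) - p ^ tri j - p ^ (tri j - 1) *
        ∑ i ∈ Finset.range j, ((j : ℂ) - i) * (f i - p)‖ ≤
      (17 / 50) ^ (tri j - 2) * (((tri j : ℝ) - 1) / 2) *
        ∑ i ∈ Finset.range j, ((j : ℝ) - i) * ‖f i - p‖ ^ 2 := by
  have h := prod_first (prs j) (fun q => f q.1) p (17 / 50) (by norm_num) hp (fun q _ => hf q.1)
  rw [card_prs, prod_prs, sum_prs_c (fun i => f i - p), sum_prs_r (fun i => ‖f i - p‖ ^ 2)] at h
  exact h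

/-- `∑_{i<j} (j - i) = tri j`; apply `prod_first` to the finset of pairs `(i, m)`, `i < j`, `m < j - i`
(`(Finset.range j).sigma fun i => Finset.range (j - i)`). -/
theorem tl_first (ψ : ℤ → ℂ) (hψ : ∀ k, ‖ψ k‖ ≤ 17 / 50) (p : ℂ) (hp : ‖p‖ ≤ 17 / 50) (k : ℤ)
    (j : ℕ) :
    ‖TL ψ k j - p ^ tri j - p ^ (tri j - 1) *
        ∑ i ∈ Finset.range j, ((j : ℂ) - i) * (ψ (k - i) - p)‖ ≤
      (17 / 50) ^ (tri j - 2) * (((tri j : ℝ) - 1) / 2) *
        ∑ i ∈ Finset.range j, ((j : ℝ) - i) * ‖ψ (k - i) - p‖ ^ 2 :=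
  gen_first (fun i => ψ (k - i)) (fun i => hψ _) p hp j

/-- Same for the right coefficients. -/
theorem tr_first (ψ : ℤ → ℂ) (hψ : ∀ k, ‖ψ k‖ ≤ 17 / 50) (p : ℂ) (hp : ‖p‖ ≤ 17 / 50) (k : ℤ)
    (j : ℕ) :
    ‖TR ψ k j - p ^ tri j - p ^ (tri j - 1) *
        ∑ i ∈ Finset.range j, ((j : ℂ) - i) * (ψ (k + 1 + i) - p)‖ ≤
      (17 / 50) ^ (tri j - 2) * (((tri j : ℝ) - 1) / 2) *
        ∑ i ∈ Finset.range j, ((j : ℝ) - i) * ‖ψ (k + 1 + i) - p‖ ^ 2 :=
  gen_first (fun i => ψ (k + 1 + i)) (fun i => hψ _) p hp j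

/-- `prod_lip` on the same finset of pairs. -/
theorem tl_sub_tr (ψ : ℤ → ℂ) (hψ : ∀ k, ‖ψ k‖ ≤ 17 / 50) (k : ℤ) (j : ℕ) :
    ‖TL ψ k j - TR ψ k j‖ ≤ (17 / 50) ^ (tri j - 1) *
        ∑ i ∈ Finset.range j, ((j : ℝ) - i) * ‖ψ (k - i) - ψ (k + 1 + i)‖ := by
  have h := prod_lip (prs j) (fun q => ψ (k - q.1)) (fun q => ψ (k + 1 + q.1)) (17 / 50)
    (by norm_num) (fun q _ => hψ _) (fun q _ => hψ _)
  rw [card_prs, prod_prs (fun i => ψ (k - i)), prod_prs (fun i => ψ (k + 1 + i)),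
    sum_prs_r (fun i => ‖ψ (k - i) - ψ (k + 1 + i)‖)] at h
  exact h

end Pool.Agent.MaxTerm8
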