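import Pool.Agent.MaxTerm8.Master

/-! The rational centre and bounds for the tail sums. -/

namespace Pool.Agent.MaxTerm8

open Complex ComplexConjugate

/-- rational centre -/
noncomputable def oo : ℂ := ⟨-191206 / 1000000, 204897 / 1000000⟩

/-- rational approximation of `g` -/
noncomputable def gg : ℂ := ⟨365932 / 1000000, -244302 / 1000000⟩

/-- rational approximation of `μ 3` -/
noncomputable def mm3 : ℂ := ⟨246606 / 1000000, -150940 / 1000000⟩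

/-- what the cells need to know about the critical point -/
structure Encl (p : ℂ) (μ : ℕ → ℂ) (g : ℂ) : Prop where
  hp : ‖p - oo‖ ≤ 2 / 100000
  hg : ‖g - gg‖ ≤ 8 / 10000
  h3 : ‖μ 3 - mm3‖ ≤ 5 / 1000
  hμ : ∀ j, ‖μ j‖ ≤ 19 / 10

private theorem Tails_norm_le {x y r : ℝ} (hr : 0 ≤ r) (h : x ^ 2 + y ^ 2 ≤ r ^ 2) :
    ‖(⟨x, y⟩ : ℂ)‖ ≤ r := by
  have h1 : ‖(⟨x, y⟩ : ℂ)‖ ^ 2 ≤ r ^ 2 := by
    rw [Complex.sq_norm, Complex.normSq_mk]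
    nlinarith
  exact le_of_sq_le_sq h1 hr

private theorem Tails_norm_oo : ‖oo‖ ≤ 28026 / 100000 := by
  unfold oo
  exact Tails_norm_le (by norm_num) (by norm_num)

private theorem Tails_norm_mm3 : ‖mm3‖ ≤ 28914 / 100000 := by
  unfold mm3
  exact Tails_norm_le (by norm_num) (by norm_num)

/-- `‖p‖ ≤ .2803` and the numerical consequences used below. -/
theorem Encl.norm_p {p : ℂ} {μ : ℕ → ℂ} {g : ℂ} (h : Encl p μ g) : ‖p‖ ≤ 2803 / 10000 := by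
  have h1 : ‖p‖ ≤ ‖p - oo‖ + ‖oo‖ := by
    have := norm_add_le (p - oo) oo
    rwa [sub_add_cancel] at this
  have h2 := h.hp
  have h3 := Tails_norm_oo
  linarith

private theorem Tails_geo (n : ℕ) (f : ℕ → ℝ) (A y : ℝ) (hA : 0 ≤ A) (hy0 : 0 ≤ y)
    (hy : y ≤ 1 / 1000) (hf : ∀ i, f i ≤ A * y ^ i) :
    ∑ i ∈ Finset.range n, f i ≤ A * (1002 / 1000) := by
  have h1 : ∑ i ∈ Finset.range n, f i ≤ ∑ i ∈ Finset.range n, A * y ^ i :=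
    Finset.sum_le_sum fun i _ => hf i
  rw [← Finset.mul_sum] at h1
  refine h1.trans (mul_le_mul_of_nonneg_left ?_ hA)
  have h2 := geom_sum_mul_neg y n
  have h3 : 0 ≤ y ^ n := pow_nonneg hy0 n
  have h4 : 0 ≤ ∑ i ∈ Finset.range n, y ^ i := Finset.sum_nonneg fun i _ => pow_nonneg hy0 i
  nlinarith

private theorem Tails_geoC (n : ℕ) (f : ℕ → ℂ) (A y : ℝ) (hA : 0 ≤ A) (hy0 : 0 ≤ y)
    (hy : y ≤ 1 / 1000) (hf : ∀ i, ‖f i‖ ≤ A * y ^ i) :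
    ‖∑ i ∈ Finset.range n, f i‖ ≤ A * (1002 / 1000) :=
  (norm_sum_le _ _).trans (Tails_geo n (fun i => ‖f i‖) A y hA hy0 hy hf)

private theorem Tails_split {M : Type*} [AddCommMonoid M] (J : ℕ) (hJ : 5 ≤ J) (f : ℕ → M) :
    ∑ j ∈ Finset.Ico 3 (J + 1), f j = f 3 + (f 4 + ∑ i ∈ Finset.range (J + 1 - 5), f (5 + i)) := by
  rw [Finset.sum_eq_sum_Ico_succ_bot (by omega), Finset.sum_eq_sum_Ico_succ_bot (by omega),
    Finset.sum_Ico_eq_sum_range]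

private theorem Tails_pow {p : ℂ} {R : ℝ} (hp : ‖p‖ ≤ R) (hR : R ≤ 1) {m b s i : ℕ}
    (hm : b + s * i ≤ m) : ‖p‖ ^ m ≤ R ^ b * (R ^ s) ^ i := by
  have hR0 : 0 ≤ R := (norm_nonneg p).trans hp
  rw [← pow_mul, ← pow_add]
  exact (pow_le_pow_left₀ (norm_nonneg _) hp m).trans (pow_le_pow_of_le_one hR0 hR hm)

private theorem Tails_tri (i : ℕ) : 15 + 6 * i ≤ tri (5 + i) := by
  unfold tri
  rw [Nat.le_div_iff_mul_le two_pos]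
  nlinarith [Nat.le_mul_self i]

private theorem Tails_c1 (i : ℕ) : 4 + (i : ℝ) ≤ 4 * 2 ^ i := by
  induction i with
  | zero => norm_num
  | succ i ih =>
    rw [pow_succ]
    push_cast
    have : (0 : ℝ) ≤ i := Nat.cast_nonneg i
    linarith

private theorem Tails_c2 (i : ℕ) : 5 + (i : ℝ) ≤ 5 * 2 ^ i := by
  induction i with
  | zero => norm_num
  | succ i ih =>
    rw [pow_succ]
    push_cast
    have : (0 : ℝ) ≤ i := Nat.cast_nonneg i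
    linarith

private theorem Tails_c3 (i : ℕ) : (4 + (i : ℝ)) * (3 + i) ≤ 12 * 2 ^ i := by
  induction i with
  | zero => norm_num
  | succ i ih =>
    rw [pow_succ]
    push_cast
    have : (0 : ℝ) ≤ i := Nat.cast_nonneg i
    nlinarith

private theorem Tails_powsub {p o : ℂ} {R δ : ℝ} (hp : ‖p‖ ≤ R) (ho : ‖o‖ ≤ R)
    (hd : ‖p - o‖ ≤ δ) (n : ℕ) : ‖p ^ (n + 1) - o ^ (n + 1)‖ ≤ ((n : ℝ) + 1) * R ^ n * δ := by
  have hR0 : 0 ≤ R := (norm_nonneg p).trans hp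
  have hδ0 : 0 ≤ δ := (norm_nonneg _).trans hd
  induction n with
  | zero => simpa using hd
  | succ n ih =>
    have e : p ^ (n + 1 + 1) - o ^ (n + 1 + 1) =
        p * (p ^ (n + 1) - o ^ (n + 1)) + (p - o) * o ^ (n + 1) := by ring
    rw [e]
    refine (norm_add_le _ _).trans ?_
    rw [norm_mul, norm_mul, norm_pow]
    have h1 : ‖p‖ * ‖p ^ (n + 1) - o ^ (n + 1)‖ ≤ R * (((n : ℝ) + 1) * R ^ n * δ) :=
      mul_le_mul hp ih (norm_nonneg _) hR0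
    have h2 : ‖p - o‖ * ‖o‖ ^ (n + 1) ≤ δ * R ^ (n + 1) :=
      mul_le_mul hd (pow_le_pow_left₀ (norm_nonneg _) ho _) (by positivity) hδ0
    have e2 : ((n + 1 : ℕ) : ℝ) = (n : ℝ) + 1 := by push_cast; ring
    rw [e2]
    have h3 : ((n : ℝ) + 1 + 1) * R ^ (n + 1) * δ =
        R * (((n : ℝ) + 1) * R ^ n * δ) + δ * R ^ (n + 1) := by
      rw [pow_succ]
      ring
    rw [h3]
    linarith

private theorem Tails_tri3 : tri 3 = 6 := rfl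
private theorem Tails_tri4 : tri 4 = 10 := rfl

private theorem Tails_normNat (n : ℕ) : ‖(n : ℂ)‖ = n := Complex.norm_natCast n

private theorem Tails_mul {a b : ℂ} {A B : ℝ} (ha : ‖a‖ ≤ A) (hb : ‖b‖ ≤ B) : ‖a * b‖ ≤ A * B := by
  rw [norm_mul]
  exact mul_le_mul ha hb (norm_nonneg _) ((norm_nonneg _).trans ha)

private theorem Tails_np {p : ℂ} (hp : ‖p‖ ≤ 2803 / 10000) (n : ℕ) :
    ‖p ^ n‖ ≤ (2803 / 10000 : ℝ) ^ n := by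
  rw [norm_pow]
  exact pow_le_pow_left₀ (norm_nonneg _) hp n

private theorem Tails_T0 (J : ℕ) (hJ : 5 ≤ J) (p : ℂ) (hp : ‖p‖ ≤ 2803 / 10000)
    (hpo : ‖p - oo‖ ≤ 2 / 100000) (L : ℕ → ℂ) (hL : ∀ j, ‖L j‖ ≤ 19 / 10) :
    ‖TT0 J L p - 4 * L 3 * oo ^ 6‖ ≤ 245 / 10000000 := by
  unfold TT0
  rw [Tails_split J hJ, Tails_tri3, Tails_tri4]
  have ho : ‖oo‖ ≤ 2803 / 10000 := Tails_norm_oo.trans (by norm_num)
  have hS : ‖∑ i ∈ Finset.range (J + 1 - 5), 4 * L (5 + i) * p ^ tri (5 + i)‖ ≤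
      (4 * (19 / 10) * (2803 / 10000 : ℝ) ^ 15) * (1002 / 1000) := by
    apply Tails_geoC _ _ _ ((2803 / 10000 : ℝ) ^ 6) (by positivity) (by positivity) (by norm_num)
    intro i
    rw [norm_mul, norm_mul, norm_pow]
    have h1 := Tails_pow (m := tri (5 + i)) hp (by norm_num) (Tails_tri i)
    have h2 : ‖(4 : ℂ)‖ = 4 := by norm_num
    rw [h2]
    have h3 : (4 : ℝ) * ‖L (5 + i)‖ ≤ 4 * (19 / 10) := by linarith [hL (5 + i)]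
    calc 4 * ‖L (5 + i)‖ * ‖p‖ ^ tri (5 + i)
        ≤ 4 * (19 / 10) * ((2803 / 10000 : ℝ) ^ 15 * ((2803 / 10000 : ℝ) ^ 6) ^ i) :=
          mul_le_mul h3 h1 (by positivity) (by norm_num)
      _ = _ := by ring
  have h1 : ‖4 * L 3 * (p ^ 6 - oo ^ 6)‖ ≤
      (4 * (19 / 10)) * (((5 : ℕ) + 1) * (2803 / 10000 : ℝ) ^ 5 * (2 / 100000)) := by
    apply Tails_mul _ (Tails_powsub hp ho hpo 5)
    rw [norm_mul]
    have h2 : ‖(4 : ℂ)‖ = 4 := by norm_num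
    rw [h2]
    linarith [hL 3]
  have h2 : ‖4 * L 4 * p ^ 10‖ ≤ (4 * (19 / 10)) * (2803 / 10000 : ℝ) ^ 10 := by
    apply Tails_mul _ (Tails_np hp 10)
    rw [norm_mul]
    have h2 : ‖(4 : ℂ)‖ = 4 := by norm_num
    rw [h2]
    linarith [hL 4]
  set S := ∑ i ∈ Finset.range (J + 1 - 5), 4 * L (5 + i) * p ^ tri (5 + i)
  have e : 4 * L 3 * p ^ 6 + (4 * L 4 * p ^ 10 + S) - 4 * L 3 * oo ^ 6 =
      4 * L 3 * (p ^ 6 - oo ^ 6) + (4 * L 4 * p ^ 10 + S) := by ring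
  rw [e]
  have h3 := norm_add_le (4 * L 3 * (p ^ 6 - oo ^ 6)) (4 * L 4 * p ^ 10 + S)
  have h4 := norm_add_le (4 * L 4 * p ^ 10) S
  have e2 : (((5 : ℕ) : ℝ) + 1) = 6 := by norm_num
  rw [e2] at h1
  linarith

private theorem Tails_T2 (J : ℕ) (hJ : 5 ≤ J) (p : ℂ) (hp : ‖p‖ ≤ 2803 / 10000)
    (hpo : ‖p - oo‖ ≤ 2 / 100000) (L : ℕ → ℂ) (hL : ∀ j, ‖L j‖ ≤ 19 / 10) :
    ‖TT2 J L p - 4 * L 3 * oo ^ 5‖ ≤ 1272 / 10000000 := by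
  unfold TT2
  rw [Tails_split J hJ, Tails_tri3, Tails_tri4]
  have ho : ‖oo‖ ≤ 2803 / 10000 := Tails_norm_oo.trans (by norm_num)
  have hS : ‖∑ i ∈ Finset.range (J + 1 - 5), 2 * (((5 + i : ℕ) : ℂ) - 1) * L (5 + i) *
      p ^ (tri (5 + i) - 1)‖ ≤ (8 * (19 / 10) * (2803 / 10000 : ℝ) ^ 14) * (1002 / 1000) := by
    apply Tails_geoC _ _ _ (2 * (2803 / 10000 : ℝ) ^ 6) (by positivity) (by positivity)
      (by norm_num)
    intro i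
    have e1 : (((5 + i : ℕ) : ℂ) - 1) = ((4 + i : ℕ) : ℂ) := by push_cast; ring
    rw [e1, norm_mul, norm_mul, norm_mul, norm_pow, Tails_normNat]
    have h0 := Tails_tri i
    have h1 := Tails_pow (m := tri (5 + i) - 1) (b := 14) (s := 6) (i := i) hp (by norm_num)
      (by omega)
    have h2 : ‖(2 : ℂ)‖ = 2 := by norm_num
    rw [h2]
    have h3 : (2 : ℝ) * ((4 + i : ℕ) : ℝ) * ‖L (5 + i)‖ ≤ (8 * 2 ^ i) * (19 / 10) := by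
      apply mul_le_mul _ (hL (5 + i)) (norm_nonneg _) (by positivity)
      push_cast
      linarith [Tails_c1 i]
    calc 2 * ((4 + i : ℕ) : ℝ) * ‖L (5 + i)‖ * ‖p‖ ^ (tri (5 + i) - 1)
        ≤ (8 * 2 ^ i) * (19 / 10) * ((2803 / 10000 : ℝ) ^ 14 * ((2803 / 10000 : ℝ) ^ 6) ^ i) :=
          mul_le_mul h3 h1 (by positivity) (by positivity)
      _ = _ := by rw [mul_pow]; ring
  have h1 : ‖4 * L 3 * (p ^ 5 - oo ^ 5)‖ ≤
      (4 * (19 / 10)) * (((4 : ℕ) + 1) * (2803 / 10000 : ℝ) ^ 4 * (2 / 100000)) := by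
    apply Tails_mul _ (Tails_powsub hp ho hpo 4)
    rw [norm_mul]
    have h2 : ‖(4 : ℂ)‖ = 4 := by norm_num
    rw [h2]
    linarith [hL 3]
  have h2 : ‖6 * L 4 * p ^ 9‖ ≤ (6 * (19 / 10)) * (2803 / 10000 : ℝ) ^ 9 := by
    apply Tails_mul _ (Tails_np hp 9)
    rw [norm_mul]
    have h2 : ‖(6 : ℂ)‖ = 6 := by norm_num
    rw [h2]
    linarith [hL 4]
  set S := ∑ i ∈ Finset.range (J + 1 - 5), 2 * (((5 + i : ℕ) : ℂ) - 1) * L (5 + i) *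
      p ^ (tri (5 + i) - 1)
  have e : 2 * (((3 : ℕ) : ℂ) - 1) * L 3 * p ^ (6 - 1) + (2 * (((4 : ℕ) : ℂ) - 1) * L 4 *
      p ^ (10 - 1) + S) - 4 * L 3 * oo ^ 5 =
      4 * L 3 * (p ^ 5 - oo ^ 5) + (6 * L 4 * p ^ 9 + S) := by
    push_cast
    ring
  rw [e]
  have h3 := norm_add_le (4 * L 3 * (p ^ 5 - oo ^ 5)) (6 * L 4 * p ^ 9 + S)
  have h4 := norm_add_le (6 * L 4 * p ^ 9) S
  have e2 : (((4 : ℕ) : ℝ) + 1) = 5 := by norm_num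
  rw [e2] at h1
  linarith

private theorem Tails_T1 (J : ℕ) (hJ : 5 ≤ J) (p : ℂ) (hp : ‖p‖ ≤ 2803 / 10000)
    (hpo : ‖p - oo‖ ≤ 2 / 100000) (μ : ℕ → ℂ) (hμ : ∀ j, ‖μ j‖ ≤ 19 / 10)
    (hμ3 : ‖μ 3 - mm3‖ ≤ 5 / 1000) (L : ℕ → ℂ) (l : ℝ) (hL : ∀ j, ‖L j‖ ≤ l) :
    ‖TT1 J L μ p - (12 * L 3 + 4 * mm3) * oo ^ 5‖ ≤
      (12 * l + 4 * (19 / 10)) * (5 * (2803 / 10000 : ℝ) ^ 4 * (2 / 100000)) +
      4 * (5 / 1000) * (2803 / 10000 : ℝ) ^ 5 +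
      (16 * l + 12 * (19 / 10)) * (2803 / 10000 : ℝ) ^ 9 +
      (20 * l + 24 * (19 / 10)) * (2803 / 10000 : ℝ) ^ 14 * (1002 / 1000) := by
  have hl : 0 ≤ l := (norm_nonneg _).trans (hL 0)
  unfold TT1
  rw [Tails_split J hJ, Tails_tri3, Tails_tri4]
  have ho : ‖oo‖ ≤ 2803 / 10000 := Tails_norm_oo.trans (by norm_num)
  have hS : ‖∑ i ∈ Finset.range (J + 1 - 5), (4 * ((5 + i : ℕ) : ℂ) * L (5 + i) +
      2 * (((5 + i : ℕ) : ℂ) - 1) * (((5 + i : ℕ) : ℂ) - 2) * μ (5 + i)) *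
      p ^ (tri (5 + i) - 1)‖ ≤
      ((20 * l + 24 * (19 / 10)) * (2803 / 10000 : ℝ) ^ 14) * (1002 / 1000) := by
    apply Tails_geoC _ _ _ (2 * (2803 / 10000 : ℝ) ^ 6) (by positivity) (by positivity)
      (by norm_num)
    intro i
    have e1 : (((5 + i : ℕ) : ℂ) - 1) = ((4 + i : ℕ) : ℂ) := by push_cast; ring
    have e2 : (((5 + i : ℕ) : ℂ) - 2) = ((3 + i : ℕ) : ℂ) := by push_cast; ring
    rw [e1, e2, norm_mul, norm_pow]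
    have h0 := Tails_tri i
    have h1 := Tails_pow (m := tri (5 + i) - 1) (b := 14) (s := 6) (i := i) hp (by norm_num)
      (by omega)
    have h2 : ‖(2 : ℂ)‖ = 2 := by norm_num
    have h2' : ‖(4 : ℂ)‖ = 4 := by norm_num
    have h3 : ‖4 * ((5 + i : ℕ) : ℂ) * L (5 + i)‖ ≤ (20 * 2 ^ i) * l := by
      rw [norm_mul, norm_mul, Tails_normNat, h2']
      apply mul_le_mul _ (hL (5 + i)) (norm_nonneg _) (by positivity)
      push_cast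
      linarith [Tails_c2 i]
    have h4 : ‖2 * ((4 + i : ℕ) : ℂ) * ((3 + i : ℕ) : ℂ) * μ (5 + i)‖ ≤
        (24 * 2 ^ i) * (19 / 10) := by
      rw [norm_mul, norm_mul, norm_mul, Tails_normNat, Tails_normNat, h2]
      apply mul_le_mul _ (hμ (5 + i)) (norm_nonneg _) (by positivity)
      push_cast
      linarith [Tails_c3 i]
    have h5 : ‖4 * ((5 + i : ℕ) : ℂ) * L (5 + i) +
        2 * ((4 + i : ℕ) : ℂ) * ((3 + i : ℕ) : ℂ) * μ (5 + i)‖ ≤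
        (20 * l + 24 * (19 / 10)) * 2 ^ i := by
      refine (norm_add_le _ _).trans ?_
      linarith
    calc ‖4 * ((5 + i : ℕ) : ℂ) * L (5 + i) +
        2 * ((4 + i : ℕ) : ℂ) * ((3 + i : ℕ) : ℂ) * μ (5 + i)‖ * ‖p‖ ^ (tri (5 + i) - 1)
        ≤ ((20 * l + 24 * (19 / 10)) * 2 ^ i) *
          ((2803 / 10000 : ℝ) ^ 14 * ((2803 / 10000 : ℝ) ^ 6) ^ i) :=
          mul_le_mul h5 h1 (by positivity) (by positivity)
      _ = _ := by rw [mul_pow]; ring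
  have h1 : ‖(12 * L 3 + 4 * μ 3) * (p ^ 5 - oo ^ 5)‖ ≤
      (12 * l + 4 * (19 / 10)) * (((4 : ℕ) + 1) * (2803 / 10000 : ℝ) ^ 4 * (2 / 100000)) := by
    apply Tails_mul _ (Tails_powsub hp ho hpo 4)
    refine (norm_add_le _ _).trans ?_
    rw [norm_mul, norm_mul]
    have h2 : ‖(4 : ℂ)‖ = 4 := by norm_num
    have h3 : ‖(12 : ℂ)‖ = 12 := by norm_num
    rw [h2, h3]
    linarith [hL 3, hμ 3]
  have h2 : ‖4 * (μ 3 - mm3) * oo ^ 5‖ ≤ 4 * (5 / 1000) * (2803 / 10000 : ℝ) ^ 5 := by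
    apply Tails_mul _ (Tails_np ho 5)
    rw [norm_mul]
    have h2 : ‖(4 : ℂ)‖ = 4 := by norm_num
    rw [h2]
    linarith
  have h3 : ‖(16 * L 4 + 12 * μ 4) * p ^ 9‖ ≤
      (16 * l + 12 * (19 / 10)) * (2803 / 10000 : ℝ) ^ 9 := by
    apply Tails_mul _ (Tails_np hp 9)
    refine (norm_add_le _ _).trans ?_
    rw [norm_mul, norm_mul]
    have h2 : ‖(16 : ℂ)‖ = 16 := by norm_num
    have h3 : ‖(12 : ℂ)‖ = 12 := by norm_num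
    rw [h2, h3]
    linarith [hL 4, hμ 4]
  set S := ∑ i ∈ Finset.range (J + 1 - 5), (4 * ((5 + i : ℕ) : ℂ) * L (5 + i) +
      2 * (((5 + i : ℕ) : ℂ) - 1) * (((5 + i : ℕ) : ℂ) - 2) * μ (5 + i)) *
      p ^ (tri (5 + i) - 1)
  have e : (4 * ((3 : ℕ) : ℂ) * L 3 + 2 * (((3 : ℕ) : ℂ) - 1) * (((3 : ℕ) : ℂ) - 2) * μ 3) *
      p ^ (6 - 1) + ((4 * ((4 : ℕ) : ℂ) * L 4 + 2 * (((4 : ℕ) : ℂ) - 1) *
      (((4 : ℕ) : ℂ) - 2) * μ 4) * p ^ (10 - 1) + S) - (12 * L 3 + 4 * mm3) * oo ^ 5 =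
      (12 * L 3 + 4 * μ 3) * (p ^ 5 - oo ^ 5) + (4 * (μ 3 - mm3) * oo ^ 5 +
        ((16 * L 4 + 12 * μ 4) * p ^ 9 + S)) := by
    push_cast
    ring
  rw [e]
  have h4 := norm_add_le ((12 * L 3 + 4 * μ 3) * (p ^ 5 - oo ^ 5)) (4 * (μ 3 - mm3) * oo ^ 5 +
        ((16 * L 4 + 12 * μ 4) * p ^ 9 + S))
  have h5 := norm_add_le (4 * (μ 3 - mm3) * oo ^ 5) ((16 * L 4 + 12 * μ 4) * p ^ 9 + S)
  have h6 := norm_add_le ((16 * L 4 + 12 * μ 4) * p ^ 9) S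
  have e2 : (((4 : ℕ) : ℝ) + 1) = 5 := by norm_num
  rw [e2] at h1
  linarith

/-- tail of the error terms -/
private theorem Tails_E (J : ℕ) (p : ℂ) (hp : ‖p‖ ≤ 2803 / 10000) (δ : ℕ → ℂ) (D C : ℝ)
    (hδ : ∀ j, ‖δ j‖ ≤ D) (hC : 0 ≤ C) :
    ∑ j ∈ Finset.Ico 5 (J + 1), ((j : ℝ) - 1) * (j - 2) * ‖δ j‖ ^ 2 * ‖p‖ ^ (2 * tri j - 2) *
      (C * 10 ^ (j - 1)) ≤
      (12 * D ^ 2 * (2803 / 10000 : ℝ) ^ 28 * (C * 10 ^ 4)) * (1002 / 1000) := by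
  have hD : 0 ≤ D := (norm_nonneg _).trans (hδ 0)
  rw [Finset.sum_Ico_eq_sum_range]
  apply Tails_geo _ _ _ (20 * (2803 / 10000 : ℝ) ^ 12) (by positivity) (by positivity)
    (by norm_num)
  intro i
  have h0 := Tails_tri i
  have h1 := Tails_pow (m := 2 * tri (5 + i) - 2) (b := 28) (s := 12) (i := i) hp (by norm_num)
    (by omega)
  have h2 : ‖δ (5 + i)‖ ^ 2 ≤ D ^ 2 := pow_le_pow_left₀ (norm_nonneg _) (hδ _) 2
  have e1 : (((5 + i : ℕ) : ℝ) - 1) * (((5 + i : ℕ) : ℝ) - 2) = (4 + (i : ℝ)) * (3 + i) := by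
    push_cast
    ring
  have e2 : 5 + i - 1 = 4 + i := by omega
  rw [e1, e2, pow_add]
  have h3 := Tails_c3 i
  calc (4 + (i : ℝ)) * (3 + i) * ‖δ (5 + i)‖ ^ 2 * ‖p‖ ^ (2 * tri (5 + i) - 2) *
        (C * (10 ^ 4 * 10 ^ i))
      ≤ (12 * 2 ^ i) * D ^ 2 * ((2803 / 10000 : ℝ) ^ 28 * ((2803 / 10000 : ℝ) ^ 12) ^ i) *
        (C * (10 ^ 4 * 10 ^ i)) := by
        gcongr
    _ = _ := by
        have : (20 : ℝ) ^ i = 2 ^ i * 10 ^ i := by rw [← mul_pow]; norm_num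
        rw [mul_pow, this]
        ring

/-- `‖T0 - 4 l3 o^6‖ ≤ 4 * 1.9 * (6 * .2803^5 * 2e-5) + 4 * 1.9 * .2803^10 + ... ≤ 2.45e-5`;
`‖T2 - 4 l3 o^5‖ ≤ 1.27e-4`, `‖T1 - (12 l3 + 4 mm3) o^5‖ ≤ 6.24e-4`, `‖T1‖ ≤ .0534`, `‖T2‖ ≤ .0134`,
`EL ≤ 2 ‖l3 - μ 3‖^2 * 3e-6/(7/100 - r3) + 7.5e-6`; the tails `j ≥ 5` are tiny
(`.2803^14 ≤ 1.85e-8`). -/
theorem tails_L (J : ℕ) (hJ : 5 ≤ J) (p : ℂ) (μ : ℕ → ℂ) (g : ℂ) (h : Encl p μ g) (L : ℕ → ℂ)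
    (hL : ∀ j, ‖L j‖ ≤ 19 / 10) (r3 : ℝ) (hr3 : r3 ≤ 66 / 1000) :
    ‖TT0 J L p - 4 * L 3 * oo ^ 6‖ ≤ 245 / 10000000 ∧
    ‖TT2 J L p - 4 * L 3 * oo ^ 5‖ ≤ 1272 / 10000000 ∧
    ‖TT1 J L μ p - (12 * L 3 + 4 * mm3) * oo ^ 5‖ ≤ 6245 / 10000000 ∧
    ‖TT1 J L μ p‖ ≤ 534 / 10000 ∧ ‖TT2 J L p‖ ≤ 134 / 10000 ∧
    EL J L μ p r3 ≤ 2 * (‖L 3 - mm3‖ + 5 / 1000) ^ 2 * (3 / 1000000) / (7 / 100 - r3) +
      75 / 10000000 := by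
  have hp := h.norm_p
  have hpo := h.hp
  have hT0 := Tails_T0 J hJ p hp hpo L hL
  have hT2 := Tails_T2 J hJ p hp hpo L hL
  have hT1 := Tails_T1 J hJ p hp hpo μ h.hμ h.h3 L (19 / 10) hL
  have hT1' : ‖TT1 J L μ p - (12 * L 3 + 4 * mm3) * oo ^ 5‖ ≤ 6245 / 10000000 :=
    hT1.trans (by norm_num)
  have ho := Tails_norm_oo
  have ho5 : ‖oo ^ 5‖ ≤ (28026 / 100000 : ℝ) ^ 5 := by
    rw [norm_pow]
    exact pow_le_pow_left₀ (norm_nonneg _) ho 5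
  have hn4 : ‖(4 : ℂ)‖ = 4 := by norm_num
  have hn12 : ‖(12 : ℂ)‖ = 12 := by norm_num
  refine ⟨hT0, hT2, hT1', ?_, ?_, ?_⟩
  · have h1 : ‖(12 * L 3 + 4 * mm3) * oo ^ 5‖ ≤
        (12 * (19 / 10) + 4 * (28914 / 100000)) * (28026 / 100000 : ℝ) ^ 5 := by
      apply Tails_mul _ ho5
      refine (norm_add_le _ _).trans ?_
      rw [norm_mul, norm_mul, hn4, hn12]
      linarith [hL 3, Tails_norm_mm3]
    have h2 := norm_add_le (TT1 J L μ p - (12 * L 3 + 4 * mm3) * oo ^ 5)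
      ((12 * L 3 + 4 * mm3) * oo ^ 5)
    rw [sub_add_cancel] at h2
    linarith
  · have h1 : ‖4 * L 3 * oo ^ 5‖ ≤ (4 * (19 / 10)) * (28026 / 100000 : ℝ) ^ 5 := by
      apply Tails_mul _ ho5
      rw [norm_mul, hn4]
      linarith [hL 3]
    have h2 := norm_add_le (TT2 J L p - 4 * L 3 * oo ^ 5) (4 * L 3 * oo ^ 5)
    rw [sub_add_cancel] at h2
    linarith
  · unfold EL
    have hE := Tails_E J p hp (fun j => L j - μ j) (38 / 10) (4 / 3)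
      (fun j => by
        refine (norm_sub_le _ _).trans ?_
        linarith [hL j, h.hμ j]) (by norm_num)
    have h10 : ‖p‖ ^ 10 ≤ 3 / 1000000 :=
      (pow_le_pow_left₀ (norm_nonneg _) hp 10).trans (by norm_num)
    have h18 : ‖p‖ ^ 18 ≤ (2803 / 10000 : ℝ) ^ 18 := pow_le_pow_left₀ (norm_nonneg _) hp 18
    have h3 : ‖L 3 - μ 3‖ ≤ ‖L 3 - mm3‖ + 5 / 1000 := by
      have h4 := norm_sub_le (L 3 - mm3) (μ 3 - mm3)
      rw [sub_sub_sub_cancel_right] at h4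
      linarith [h.h3]
    have h3' : ‖L 3 - μ 3‖ ^ 2 ≤ (‖L 3 - mm3‖ + 5 / 1000) ^ 2 :=
      pow_le_pow_left₀ (norm_nonneg _) h3 2
    have h4 : ‖L 4 - μ 4‖ ^ 2 ≤ (38 / 10) ^ 2 := by
      apply pow_le_pow_left₀ (norm_nonneg _)
      refine (norm_sub_le _ _).trans ?_
      linarith [hL 4, h.hμ 4]
    have hpos : 0 < 7 / 100 - r3 := by linarith
    have t1 : 2 * ‖L 3 - μ 3‖ ^ 2 * ‖p‖ ^ 10 / (7 / 100 - r3) ≤
        2 * (‖L 3 - mm3‖ + 5 / 1000) ^ 2 * (3 / 1000000) / (7 / 100 - r3) := by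
      gcongr
    have t2 : 6 * ‖L 4 - μ 4‖ ^ 2 * ‖p‖ ^ 18 / (132 / 100000) ≤
        6 * (38 / 10) ^ 2 * (2803 / 10000 : ℝ) ^ 18 / (132 / 100000) := by
      gcongr
    have t3 : 6 * (38 / 10) ^ 2 * (2803 / 10000 : ℝ) ^ 18 / (132 / 100000) +
        (12 * (38 / 10) ^ 2 * (2803 / 10000 : ℝ) ^ 28 * (4 / 3 * 10 ^ 4)) * (1002 / 1000) ≤
        75 / 10000000 := by norm_num
    linarith

/-- Same with `L = 0` (the terms with `μ` only). -/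
theorem tails_C (J : ℕ) (hJ : 5 ≤ J) (p : ℂ) (μ : ℕ → ℂ) (g : ℂ) (h : Encl p μ g) :
    ‖TT1 J (fun _ => 0) μ p - 4 * mm3 * oo ^ 5‖ ≤ 290 / 1000000 ∧
    ‖TT1 J (fun _ => 0) μ p‖ ≤ 534 / 10000 ∧ EC J μ p ≤ 81 / 10000000 := by
  have hp := h.norm_p
  have hpo := h.hp
  have hT1 := Tails_T1 J hJ p hp hpo μ h.hμ h.h3 (fun _ => 0) 0 (fun _ => by simp)
  have e : (12 * (0 : ℂ) + 4 * mm3) * oo ^ 5 = 4 * mm3 * oo ^ 5 := by ring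
  rw [e] at hT1
  have hT1' : ‖TT1 J (fun _ => 0) μ p - 4 * mm3 * oo ^ 5‖ ≤ 290 / 1000000 :=
    hT1.trans (by norm_num)
  have ho := Tails_norm_oo
  have ho5 : ‖oo ^ 5‖ ≤ (28026 / 100000 : ℝ) ^ 5 := by
    rw [norm_pow]
    exact pow_le_pow_left₀ (norm_nonneg _) ho 5
  have hn4 : ‖(4 : ℂ)‖ = 4 := by norm_num
  refine ⟨hT1', ?_, ?_⟩
  · have h1 : ‖4 * mm3 * oo ^ 5‖ ≤ (4 * (28914 / 100000)) * (28026 / 100000 : ℝ) ^ 5 := by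
      apply Tails_mul _ ho5
      rw [norm_mul, hn4]
      linarith [Tails_norm_mm3]
    have h2 := norm_add_le (TT1 J (fun _ => 0) μ p - 4 * mm3 * oo ^ 5) (4 * mm3 * oo ^ 5)
    rw [sub_add_cancel] at h2
    linarith
  · unfold EC
    have hE := Tails_E J p hp μ (19 / 10) 1 h.hμ (by norm_num)
    have hE' : ∑ j ∈ Finset.Ico 5 (J + 1), ((j : ℝ) - 1) * (j - 2) * ‖μ j‖ ^ 2 *
        ‖p‖ ^ (2 * tri j - 2) * 10 ^ (j - 1) ≤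
        (12 * (19 / 10) ^ 2 * (2803 / 10000 : ℝ) ^ 28 * (1 * 10 ^ 4)) * (1002 / 1000) := by
      refine le_trans (le_of_eq (Finset.sum_congr rfl fun j _ => ?_)) hE
      rw [one_mul]
    have h10 : ‖p‖ ^ 10 ≤ (2803 / 10000 : ℝ) ^ 10 := pow_le_pow_left₀ (norm_nonneg _) hp 10
    have h18 : ‖p‖ ^ 18 ≤ (2803 / 10000 : ℝ) ^ 18 := pow_le_pow_left₀ (norm_nonneg _) hp 18
    have h3 : ‖μ 3‖ ≤ 29414 / 100000 := by
      have h4 := norm_add_le (μ 3 - mm3) mm3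
      rw [sub_add_cancel] at h4
      linarith [h.h3, Tails_norm_mm3]
    have h3' : ‖μ 3‖ ^ 2 ≤ (29414 / 100000) ^ 2 := pow_le_pow_left₀ (norm_nonneg _) h3 2
    have h4 : ‖μ 4‖ ^ 2 ≤ (19 / 10) ^ 2 := pow_le_pow_left₀ (norm_nonneg _) (h.hμ 4) 2
    have t1 : 2 * ‖μ 3‖ ^ 2 * ‖p‖ ^ 10 / (7 / 100) ≤
        2 * (29414 / 100000) ^ 2 * (2803 / 10000 : ℝ) ^ 10 / (7 / 100) := by
      gcongr
    have t2 : 6 * ‖μ 4‖ ^ 2 * ‖p‖ ^ 18 / (9 / 2000) ≤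
        6 * (19 / 10) ^ 2 * (2803 / 10000 : ℝ) ^ 18 / (9 / 2000) := by
      gcongr
    have t3 : 2 * (29414 / 100000) ^ 2 * (2803 / 10000 : ℝ) ^ 10 / (7 / 100) +
        6 * (19 / 10) ^ 2 * (2803 / 10000 : ℝ) ^ 18 / (9 / 2000) +
        (12 * (19 / 10) ^ 2 * (2803 / 10000 : ℝ) ^ 28 * (1 * 10 ^ 4)) * (1002 / 1000) ≤
        81 / 10000000 := by norm_num
    linarith

end Pool.Agent.MaxTerm8
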