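import Pool.Agent.MaxTerm8.ChkB
import Pool.Agent.MaxTerm8.DualC
import Pool.Agent.MaxTerm8.Prod
import Pool.Agent.MaxTerm8.Tails

/-! Soundness of the checker of the constant family. -/

namespace Pool.Agent.MaxTerm8

open Complex ComplexConjugate

/-- `prod_first` for a constant family: Taylor bound for a monomial. -/
theorem pow_taylor (ρ : ℝ) (c q : ℂ) (hc : ‖c‖ ≤ ρ) (hq : ‖q‖ ≤ ρ) (n : ℕ) (hn : 1 ≤ n) :
    ‖q ^ n - c ^ n - n * c ^ (n - 1) * (q - c)‖ ≤ n * ((n : ℝ) - 1) / 2 * ρ ^ (n - 2) * ‖q - c‖ ^ 2 := by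
  have h := prod_first (Finset.range n) (fun _ => q) c ρ (le_trans (norm_nonneg _) hc) hc
    (fun _ _ => hq)
  simp only [Finset.prod_const, Finset.sum_const, Finset.card_range, nsmul_eq_mul] at h
  have e1 : q ^ n - c ^ n - c ^ (n - 1) * ((n : ℂ) * (q - c)) =
      q ^ n - c ^ n - n * c ^ (n - 1) * (q - c) := by ring
  have e2 : ρ ^ (n - 2) * (((n : ℝ) - 1) / 2) * ((n : ℝ) * ‖q - c‖ ^ 2) =
      n * ((n : ℝ) - 1) / 2 * ρ ^ (n - 2) * ‖q - c‖ ^ 2 := by ring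
  rw [e1, e2] at h
  exact h

private theorem cb_norm_le {a : GQ} {r : ℚ} (hr : 0 ≤ r) (h : a.n2 ≤ r ^ 2) : ‖a.toC‖ ≤ (r : ℝ) := by
  have h1 : ((a.n2 : ℚ) : ℝ) ≤ (r : ℝ) ^ 2 := by exact_mod_cast h
  rw [GQ.n2_eq] at h1
  exact le_of_sq_le_sq h1 (by exact_mod_cast hr)

private theorem cb_re (a : GQ) : ((a.re : ℚ) : ℝ) = a.toC.re := rfl

private theorem cb_im (a : GQ) : ((a.im : ℚ) : ℝ) = a.toC.im := rfl

/-- `dual_const` for the certificate: `4 Re (∑_{j ≤ J} λ_j q^(tri j)) - ν ≤ κ`; the terms `j ≤ 5` are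
expanded at the centre `c1` of the box (`pow_taylor`, `|λ_j| ≤ 19/10` for `j = 4, 5` by `lam_bound`,
`6 l2 ρ + 30 l3 ρ^4 + 90 * 1.9 ρ^8 + 210 * 1.9 ρ^13 = q ρ`), the terms `j ≥ 6` are at most
`4 * (19/10) * ∑_{j≥6} ‖q‖^(tri j) ≤ τ`. -/
theorem cb_sound (ρ τ : ℚ) (hρ : 0 ≤ ρ) (B : Bx) (z : CB) (h : CB.chk ρ τ B z = true) (J : ℕ)
    (hJ : 5 ≤ J) (q : ℂ) (hq : B.Mem q) (hqρ : ‖q‖ ≤ ρ)
    (hτ : 4 * (19 / 10) * ∑ j ∈ Finset.Ico 6 (J + 1), ‖q‖ ^ tri j ≤ (τ : ℝ)) (κ : ℝ)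
    (hκ : ∀ X : ℝ, -1 ≤ X → X ≤ 1 → GJ J q X ≤ κ) : kp + 1 / 1000000000000 ≤ κ := by
  unfold CB.chk at h
  rw [Bool.and_eq_true] at h
  obtain ⟨hs, hm⟩ := h
  unfold CB.side at hs
  simp only [Bool.and_eq_true, decide_eq_true_eq] at hs
  obtain ⟨⟨⟨⟨⟨⟨⟨⟨⟨⟨⟨k1, k2⟩, k3⟩, k4⟩, k5⟩, k6⟩, k7⟩, k8⟩, k9⟩, k10⟩, k11⟩, k12⟩ := hs
  unfold CB.main at hm
  simp only [decide_eq_true_eq] at hm
  -- real versions
  have w0 : (0 : ℝ) ≤ (z.w : ℝ) := by exact_mod_cast k2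
  have w1 : (z.w : ℝ) ≤ 1 := by exact_mod_cast k3
  have x0 : (-1 : ℝ) ≤ (z.x : ℝ) := by exact_mod_cast k4
  have x1 : (z.x : ℝ) ≤ 1 := by exact_mod_cast k5
  have hnu : nu (z.w : ℝ) (z.x : ℝ) z.Y0.toC z.Y1.toC ≤ 361 / 100 := by
    have h8 : ((nuQ z.w z.x z.Y0 z.Y1 : ℚ) : ℝ) ≤ ((361 / 100 : ℚ) : ℝ) := by exact_mod_cast k8
    rw [nuQ_eq] at h8
    exact h8.trans (by norm_num)
  set L : ℕ → ℂ := fun j => lam (z.w : ℝ) (z.x : ℝ) z.Y0.toC z.Y1.toC j with hL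
  have eL : ∀ j, (z.lm j).toC = L j := fun j => lamQ_eq z.w z.x z.Y0 z.Y1 j
  set c : ℂ := B.ct.toC with hc
  have hcρ : ‖c‖ ≤ (ρ : ℝ) := cb_norm_le hρ k1
  have n2 : ‖L 2‖ ≤ (z.l2 : ℝ) := by
    rw [← eL]
    exact cb_norm_le k6 k9
  have n3 : ‖L 3‖ ≤ (z.l3 : ℝ) := by
    rw [← eL]
    exact cb_norm_le k7 k10
  have n4 : ‖L 4‖ ≤ 19 / 10 := lam_bound _ _ _ _ w0 w1 x0 x1 hnu 4
  have n5 : ‖L 5‖ ≤ 19 / 10 := lam_bound _ _ _ _ w0 w1 x0 x1 hnu 5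
  -- the value and the derivative at the centre
  have eP : (z.P B.ct).toC = L 0 + L 1 * c + L 2 * c ^ 3 + L 3 * c ^ 6 + L 4 * c ^ 10 +
      L 5 * c ^ 15 := by
    unfold CB.P
    simp only [GQ.toC_add, GQ.toC_mul, GQ.toC_pw, eL]
    rfl
  have eD : (z.D B.ct).toC = L 1 + 3 * L 2 * c ^ 2 + 6 * L 3 * c ^ 5 + 10 * L 4 * c ^ 9 +
      15 * L 5 * c ^ 14 := by
    unfold CB.D
    simp only [GQ.toC_add, GQ.toC_mul, GQ.toC_pw, GQ.toC_sm, eL]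
    push_cast
    rfl
  -- the main inequality
  have hm' : ((2921266961 / 1000000000 + 1 / 1000000000000 : ℚ) : ℝ) ≤
      ((4 * (z.P B.ct).re - nuQ z.w z.x z.Y0 z.Y1 -
        4 * (|(z.D B.ct).re| * B.hx + |(z.D B.ct).im| * B.hy) -
        2 * z.q ρ * (B.hx ^ 2 + B.hy ^ 2) - τ : ℚ) : ℝ) := by exact_mod_cast hm
  unfold CB.q at hm'
  push_cast at hm'
  rw [nuQ_eq, cb_re, cb_re, cb_im, eP, eD] at hm'
  set Pc : ℂ := L 0 + L 1 * c + L 2 * c ^ 3 + L 3 * c ^ 6 + L 4 * c ^ 10 + L 5 * c ^ 15 with hPc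
  set Dc : ℂ := L 1 + 3 * L 2 * c ^ 2 + 6 * L 3 * c ^ 5 + 10 * L 4 * c ^ 9 +
      15 * L 5 * c ^ 14 with hDc
  -- the box
  obtain ⟨m1, m2, m3, m4⟩ := hq
  have ecr : c.re = ((B.x1 : ℝ) + (B.x2 : ℝ)) / 2 := by
    rw [hc, ← cb_re]
    unfold Bx.ct
    push_cast
    ring
  have eci : c.im = ((B.y1 : ℝ) + (B.y2 : ℝ)) / 2 := by
    rw [hc, ← cb_im]
    unfold Bx.ct
    push_cast
    ring
  have ehx : ((B.hx : ℚ) : ℝ) = ((B.x2 : ℝ) - (B.x1 : ℝ)) / 2 := by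
    unfold Bx.hx
    push_cast
    ring
  have ehy : ((B.hy : ℚ) : ℝ) = ((B.y2 : ℝ) - (B.y1 : ℝ)) / 2 := by
    unfold Bx.hy
    push_cast
    ring
  have ax : |(q - c).re| ≤ (B.hx : ℝ) := by
    rw [Complex.sub_re, ecr, ehx, abs_le]
    constructor <;> linarith
  have ay : |(q - c).im| ≤ (B.hy : ℝ) := by
    rw [Complex.sub_im, eci, ehy, abs_le]
    constructor <;> linarith
  have an : ‖q - c‖ ^ 2 ≤ (B.hx : ℝ) ^ 2 + (B.hy : ℝ) ^ 2 := by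
    rw [← Complex.normSq_eq_norm_sq, Complex.normSq_apply]
    have e1 := abs_le.1 ax
    have e2 := abs_le.1 ay
    nlinarith
  -- the linear term
  have hlin : -(|Dc.re| * (B.hx : ℝ) + |Dc.im| * (B.hy : ℝ)) ≤ (Dc * (q - c)).re := by
    rw [Complex.mul_re]
    have e1 : |Dc.re * (q - c).re| ≤ |Dc.re| * (B.hx : ℝ) := by
      rw [abs_mul]
      exact mul_le_mul_of_nonneg_left ax (abs_nonneg _)
    have e2 : |Dc.im * (q - c).im| ≤ |Dc.im| * (B.hy : ℝ) := by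
      rw [abs_mul]
      exact mul_le_mul_of_nonneg_left ay (abs_nonneg _)
    have e3 := (abs_le.1 e1).1
    have e4 := (abs_le.1 e2).2
    linarith
  -- the remainders
  have hρ' : (0 : ℝ) ≤ (ρ : ℝ) := by exact_mod_cast hρ
  have t2 := pow_taylor ρ c q hcρ hqρ 3 (by norm_num)
  have t3 := pow_taylor ρ c q hcρ hqρ 6 (by norm_num)
  have t4 := pow_taylor ρ c q hcρ hqρ 10 (by norm_num)
  have t5 := pow_taylor ρ c q hcρ hqρ 15 (by norm_num)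
  norm_num at t2 t3 t4 t5
  set R : ℂ := L 2 * (q ^ 3 - c ^ 3 - 3 * c ^ 2 * (q - c)) +
    L 3 * (q ^ 6 - c ^ 6 - 6 * c ^ 5 * (q - c)) + L 4 * (q ^ 10 - c ^ 10 - 10 * c ^ 9 * (q - c)) +
    L 5 * (q ^ 15 - c ^ 15 - 15 * c ^ 14 * (q - c)) with hR
  have hsum : ∑ j ∈ Finset.range 6, L j * q ^ tri j = Pc + Dc * (q - c) + R := by
    simp only [Finset.sum_range_succ, Finset.sum_range_zero, tri, hPc, hDc, hR]
    norm_num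
    ring
  have hRn : ‖R‖ ≤ (3 * (z.l2 : ℝ) * ρ + 15 * z.l3 * ρ ^ 4 + 19 / 10 * 45 * ρ ^ 8 +
      19 / 10 * 105 * ρ ^ 13) * ‖q - c‖ ^ 2 := by
    have s2 : ‖L 2 * (q ^ 3 - c ^ 3 - 3 * c ^ 2 * (q - c))‖ ≤
        (z.l2 : ℝ) * (3 * ρ * ‖q - c‖ ^ 2) := by
      rw [norm_mul]
      exact mul_le_mul n2 t2 (norm_nonneg _) (by exact_mod_cast k6)
    have s3 : ‖L 3 * (q ^ 6 - c ^ 6 - 6 * c ^ 5 * (q - c))‖ ≤
        (z.l3 : ℝ) * (15 * ρ ^ 4 * ‖q - c‖ ^ 2) := by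
      rw [norm_mul]
      exact mul_le_mul n3 t3 (norm_nonneg _) (by exact_mod_cast k7)
    have s4 : ‖L 4 * (q ^ 10 - c ^ 10 - 10 * c ^ 9 * (q - c))‖ ≤
        19 / 10 * (45 * ρ ^ 8 * ‖q - c‖ ^ 2) := by
      rw [norm_mul]
      exact mul_le_mul n4 t4 (norm_nonneg _) (by norm_num)
    have s5 : ‖L 5 * (q ^ 15 - c ^ 15 - 15 * c ^ 14 * (q - c))‖ ≤
        19 / 10 * (105 * ρ ^ 13 * ‖q - c‖ ^ 2) := by
      rw [norm_mul]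
      exact mul_le_mul n5 t5 (norm_nonneg _) (by norm_num)
    refine le_trans (norm_add₄_le) ?_
    linarith
  have hq0 : (0 : ℝ) ≤ 3 * (z.l2 : ℝ) * ρ + 15 * z.l3 * ρ ^ 4 + 19 / 10 * 45 * ρ ^ 8 +
      19 / 10 * 105 * ρ ^ 13 := by
    have : (0 : ℝ) ≤ (z.l2 : ℝ) := by exact_mod_cast k6
    have : (0 : ℝ) ≤ (z.l3 : ℝ) := by exact_mod_cast k7
    positivity
  have hRr : -((3 * (z.l2 : ℝ) * ρ + 15 * z.l3 * ρ ^ 4 + 19 / 10 * 45 * ρ ^ 8 +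
      19 / 10 * 105 * ρ ^ 13) * ((B.hx : ℝ) ^ 2 + (B.hy : ℝ) ^ 2)) ≤ R.re := by
    have e1 := (abs_le.1 (Complex.abs_re_le_norm R)).1
    have e2 := mul_le_mul_of_nonneg_left an hq0
    linarith
  -- the tail
  have htail : -((19 / 10) * ∑ j ∈ Finset.Ico 6 (J + 1), ‖q‖ ^ tri j) ≤
      (∑ j ∈ Finset.Ico 6 (J + 1), L j * q ^ tri j).re := by
    have e1 : ‖∑ j ∈ Finset.Ico 6 (J + 1), L j * q ^ tri j‖ ≤
        ∑ j ∈ Finset.Ico 6 (J + 1), (19 / 10) * ‖q‖ ^ tri j := by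
      refine le_trans (norm_sum_le _ _) (Finset.sum_le_sum fun j _ => ?_)
      rw [norm_mul, norm_pow]
      exact mul_le_mul_of_nonneg_right (lam_bound _ _ _ _ w0 w1 x0 x1 hnu j)
        (pow_nonneg (norm_nonneg _) _)
    rw [← Finset.mul_sum] at e1
    have e2 := (abs_le.1 (Complex.abs_re_le_norm
      (∑ j ∈ Finset.Ico 6 (J + 1), L j * q ^ tri j))).1
    linarith
  have hdual := dual_const J q κ hκ (z.w : ℝ) (z.x : ℝ) z.Y0.toC z.Y1.toC w0 w1 x0 x1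
  have hsplit : ∑ j ∈ Finset.range (J + 1), L j * q ^ tri j =
      ∑ j ∈ Finset.range 6, L j * q ^ tri j + ∑ j ∈ Finset.Ico 6 (J + 1), L j * q ^ tri j :=
    (Finset.sum_range_add_sum_Ico _ (by omega)).symm
  have hd : 4 * (∑ j ∈ Finset.range (J + 1), L j * q ^ tri j).re -
      nu (z.w : ℝ) (z.x : ℝ) z.Y0.toC z.Y1.toC ≤ κ := hdual
  rw [hsplit, hsum] at hd
  simp only [Complex.add_re] at hd
  unfold kp
  nlinarith

end Pool.Agent.MaxTerm8
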