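import Pool.Agent.MaxTerm8.ChkB

/-! Constant family, far part (generated). -/

namespace Pool.Agent.MaxTerm8

def bxB10 : Bx := ⟨(-6/25), (-4/25), (1/20), (31/100)⟩

def treeB10 : Tr CB :=
 (.sy (.sy (.leaf (mkB 0 (22207/50000) (67/40) (20073/100000) (52731/25000) (-17539/100000) (42/25) (826/625)))
 (.sx (.leaf (mkB 0 (21161/100000) (156679/100000) (33169/100000) (56113/25000) (-2693/12500) (3399/2000) (687/10000)))
 (.leaf (mkB (819/5000) (20547/50000) (82583/50000) (3969/12500) (20507/10000) (-3913/50000) (11213/10000) (1649/2500)))))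
 (.sy (.sx (.sy (.leaf (mkB 0 (14983/100000) (158911/100000) (1089/2500) (227227/100000) (-16257/50000) (15967/10000) (2229/5000)))
 (.leaf (mkB (26087/100000) (409/2500) (83487/50000) (24311/50000) (222741/100000) (-3879/12500) (7883/10000) (1407/2000))))
 (.sy (.sx (.sy (.leaf (mkB (13157/50000) (6219/20000) (164661/100000) (40441/100000) (5277/2500) (-17643/100000) (8527/10000) (721/5000)))
 (.sx (.sy (.sx (.leaf (mkB 0 (12089/50000) (81859/50000) (43241/100000) (108191/50000) (-24549/100000) (8449/5000) (1189/10000)))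
 (.sy (.leaf (mkB 0 (13897/50000) (82311/50000) (21297/50000) (106607/50000) (-5297/25000) (17071/10000) (3409/10000)))
 (.sx (.leaf (mkB 0 (26213/100000) (164567/100000) (8693/20000) (214303/100000) (-11447/50000) (8497/5000) (2439/10000)))
 .inn)))
 (.sx (.leaf (mkB (2721/10000) (1131/5000) (1313/800) (1402/3125) (27141/12500) (-13329/50000) (8091/10000) (2239/5000)))
 (.sy (.sx (.leaf (mkB (7073/25000) (25449/100000) (164767/100000) (2767/6250) (53663/25000) (-11949/50000) (981/1250) (222/625)))
 .inn)
 (.leaf (mkB (30677/100000) (25521/100000) (82609/50000) (11253/25000) (214233/100000) (-24143/100000) (889/1250) (3993/10000))))))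
 (.sy (.sx (.leaf (mkB (28941/100000) (2887/10000) (165443/100000) (8727/20000) (106081/50000) (-10251/50000) (7691/10000) (2459/10000)))
 (.leaf (mkB 1 (9/10) (1667/1000) (21267/50000) (86099/50000) (2069/6250) (3441/2000) (3441/2000))))
 (.leaf (mkB 1 (9/10) (166589/100000) (11061/25000) (34393/20000) (8609/25000) (17237/10000) (17237/10000))))))
 (.sy (.sx (.sy (.sx (.leaf (mkB (30197/100000) (22337/50000) (41749/25000) (391/1000) (4021/2000) (-1283/20000) (6267/10000) (4081/10000)))
 (.leaf (mkB 1 (9/10) (16799/10000) (19451/50000) (173491/100000) (30347/100000) (4311/2500) (4311/2500))))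
 (.leaf (mkB 1 (9/10) (167823/100000) (1269/3125) (34647/20000) (31679/100000) (17267/10000) (17267/10000))))
 (.leaf (mkB 1 (9/10) (21203/12500) (9853/25000) (87373/50000) (15433/50000) (3483/2000) (3483/2000))))
 (.leaf (mkB 1 (9/10) (84657/50000) (10693/25000) (87121/50000) (8377/25000) (2183/1250) (2183/1250)))))
 (.sx (.sy (.sx (.leaf (mkB (33789/100000) (1339/6250) (165259/100000) (11783/25000) (217047/100000) (-28807/100000) (761/1250) (1529/2500)))
 (.leaf (mkB 1 (9/10) (167193/100000) (23303/50000) (8611/5000) (9087/25000) (17357/10000) (17357/10000))))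
 (.leaf (mkB 1 (9/10) (167119/100000) (49971/100000) (171811/100000) (38987/100000) (4361/2500) (4361/2500))))
 (.leaf (mkB 1 (9/10) (42609/25000) (47391/100000) (43679/25000) (37291/100000) (17691/10000) (17691/10000))))))
 (.sx (.leaf (mkB (49267/100000) (-4179/100000) (164281/100000) (29793/50000) (240657/100000) (-6323/10000) (2573/5000) (7461/5000)))
 (.leaf (mkB 1 (9/10) (171397/100000) (28351/50000) (34869/20000) (11223/25000) (9027/5000) (9027/5000))))))

theorem treeB10_ok : treeB10.check (CB.chk (36 / 100) (12 / 10000000000)) outDisc (inBall (1 / 200)) bxB10 = true := by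
  decide +kernel

end Pool.Agent.MaxTerm8
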