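import Pool.Agent.MaxTerm8.ConstB
import Pool.Agent.MaxTerm8.DataB1
import Pool.Agent.MaxTerm8.DataB2
import Pool.Agent.MaxTerm8.Stage1

/-! Localisation of the critical point: constant sequences. -/

namespace Pool.Agent.MaxTerm8

open Complex ComplexConjugate

/-- Stage 1a for a constant sequence (`fj_const`, `th_gj`, `trunc2`, `xform`, `dual2`). -/
theorem const_inA (J : ℕ) (hJ : 5 ≤ J) (q : ℂ) (hq : ‖q‖ ≤ 17 / 50) (him : 0 ≤ q.im) (κ : ℝ)
    (hκp : κ ≤ kp) (hκ : ∀ X : ℝ, -1 ≤ X → X ≤ 1 → GJ J q X ≤ κ) : InA q := by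
  have h1 : ∀ t : ℝ, ‖FJ J (fun _ : ℤ => q) 0 t‖ ^ 2 ≤ κ := by
    intro t
    rw [fj_const, th_gj]
    exact hκ _ (Real.neg_one_le_cos _) (Real.cos_le_one _)
  have h2 := trunc2 (fun _ : ℤ => q) (fun _ => hq) J (by omega) 0 κ hκp h1
  have h3 := xform 2 (fun _ : ℤ => q) 0 _ h2
  have h4 : DualBound q q q q (kp + 927 / 20000 * (‖q‖ ^ 2 + ‖q‖ ^ 2)) := by
    intro w x Y0 Y1 hw0 hw1 hx0 hx1
    exact dual2 (fun _ : ℤ => q) 0 _ h3 w x Y0 Y1 hw0 hw1 hx0 hx1
  have e : (q + q) / 2 = q := by ring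
  have h5 := stage1a q q q q hq hq hq hq h4 (by rw [e]; exact him)
  rwa [e] at h5

private theorem cl_oQ : oQ.toC = oo := by
  unfold GQ.toC oo oQ
  apply Complex.ext
  · simp only
    push_cast
    norm_num
  · simp only
    push_cast
    norm_num

private theorem cl_tri (n : ℕ) : 21 + 7 * n ≤ tri (6 + n) := by
  unfold tri
  rw [Nat.le_div_iff_mul_le (by norm_num)]
  have h := Nat.le_mul_self n
  nlinarith

private theorem cl_sum (J : ℕ) (x : ℝ) (h0 : 0 ≤ x) (h1 : x ≤ 17 / 50) :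
    ∑ j ∈ Finset.Ico 6 (J + 1), x ^ tri j ≤ x ^ 21 * (1001 / 1000) := by
  rw [Finset.sum_Ico_eq_sum_range]
  have hx1 : x ≤ 1 := by linarith
  have h7 : x ^ 7 ≤ 1 / 1001 := by
    calc x ^ 7 ≤ (17 / 50 : ℝ) ^ 7 := pow_le_pow_left₀ h0 h1 7
      _ ≤ 1 / 1001 := by norm_num
  have h70 : 0 ≤ x ^ 7 := by positivity
  have h2 : ∀ n ∈ Finset.range (J + 1 - 6), x ^ tri (6 + n) ≤ x ^ 21 * (x ^ 7) ^ n := by
    intro n _
    rw [← pow_mul, ← pow_add]
    exact pow_le_pow_of_le_one h0 hx1 (cl_tri n)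
  refine (Finset.sum_le_sum h2).trans ?_
  rw [← Finset.mul_sum]
  refine mul_le_mul_of_nonneg_left ?_ (by positivity)
  have h3 := Summable.sum_le_tsum (Finset.range (J + 1 - 6)) (fun n _ => pow_nonneg h70 n)
    (summable_geometric_of_lt_one h70 (by linarith))
  refine h3.trans ?_
  rw [tsum_geometric_of_lt_one h70 (by linarith)]
  rw [inv_le_comm₀ (by linarith) (by norm_num)]
  linarith

private theorem cl_tau (J : ℕ) (x b : ℝ) (τ : ℚ) (h0 : 0 ≤ x) (hxb : x ≤ b) (h1 : b ≤ 17 / 50)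
    (hτ : 4 * (19 / 10) * (b ^ 21 * (1001 / 1000)) ≤ (τ : ℝ)) :
    4 * (19 / 10) * ∑ j ∈ Finset.Ico 6 (J + 1), x ^ tri j ≤ (τ : ℝ) := by
  have h2 := cl_sum J x h0 (hxb.trans h1)
  have h3 : x ^ 21 ≤ b ^ 21 := pow_le_pow_left₀ h0 hxb 21
  have h4 : x ^ 21 * (1001 / 1000) ≤ b ^ 21 * (1001 / 1000) :=
    mul_le_mul_of_nonneg_right h3 (by norm_num)
  linarith

/-- `cb_sound` for `treeB10` with `ρ = 36/100`, `τ = 12/10^10` (`∑_{j ≥ 6} (17/50)^(tri j) * 7.6 ≤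
1.2e-9`). -/
theorem const_loc1 (J : ℕ) (hJ : 5 ≤ J) (q : ℂ) (hq : ‖q‖ ≤ 17 / 50) (him : 0 ≤ q.im) (κ : ℝ)
    (hκp : κ ≤ kp) (hκ : ∀ X : ℝ, -1 ≤ X → X ≤ 1 → GJ J q X ≤ κ) : ‖q - oo‖ < 1 / 200 := by
  obtain ⟨a1, a2, a3⟩ := const_inA J hJ q hq him κ hκp hκ
  have hn : q.re ^ 2 + q.im ^ 2 ≤ (17 / 50) ^ 2 := by
    have h1 : ‖q‖ ^ 2 ≤ (17 / 50) ^ 2 := pow_le_pow_left₀ (norm_nonneg _) hq 2
    rw [Complex.sq_norm, Complex.normSq_apply] at h1
    nlinarith
  have him2 : q.im ≤ 31 / 100 := by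
    by_contra hc
    have hc' : 31 / 100 < q.im := not_le.1 hc
    nlinarith
  have hmem : bxB10.Mem q := by
    refine ⟨?_, ?_, ?_, ?_⟩
    · show (((-6 / 25 : ℚ)) : ℝ) ≤ q.re
      push_cast
      linarith
    · show q.re ≤ (((-4 / 25 : ℚ)) : ℝ)
      push_cast
      linarith
    · show (((1 / 20 : ℚ)) : ℝ) ≤ q.im
      push_cast
      linarith
    · show q.im ≤ (((31 / 100 : ℚ)) : ℝ)
      push_cast
      linarith
  have key := Tr.sound (CB.chk (36 / 100) (12 / 10000000000)) outDisc (inBall (1 / 200))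
    (fun c => ‖c‖ ≤ 17 / 50 → (∀ X : ℝ, -1 ≤ X → X ≤ 1 → GJ J c X ≤ κ) → ‖c - oo‖ < 1 / 200)
    (by
      intro B z hz c hc hcn hcκ
      exfalso
      have h1 := cb_sound (36 / 100) (12 / 10000000000) (by norm_num) B z hz J hJ c hc
        (by push_cast; linarith)
        (cl_tau J ‖c‖ (17 / 50) _ (norm_nonneg _) hcn le_rfl (by push_cast; norm_num)) κ hcκ
      linarith)
    (by
      intro B hB c hc hcn _
      have h1 := outDisc_sound B hB c hc
      exact absurd hcn (not_le.2 h1))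
    (by
      intro B hB c hc _ _
      have h1 := inBall_sound (1 / 200) (by norm_num) B hB c hc
      rw [cl_oQ] at h1
      push_cast at h1
      exact h1)
    treeB10 bxB10 treeB10_ok q hmem
  exact key hq hκ

private theorem cl_oo : ‖oo‖ ≤ 2803 / 10000 := by
  have h1 : ‖oo‖ ^ 2 ≤ (2803 / 10000) ^ 2 := by
    rw [Complex.sq_norm, Complex.normSq_apply]
    unfold oo
    norm_num
  exact le_of_sq_le_sq h1 (by norm_num)
where
  le_of_sq_le_sq {a b : ℝ} (h : a ^ 2 ≤ b ^ 2) (hb : 0 ≤ b) : a ≤ b :=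
    le_of_not_gt fun hc => by nlinarith

/-- `cb_sound` for `treeB20` with `ρ = 29/100`, `τ = 4/10^11` (`‖q‖ ≤ ‖oo‖ + 1/200 ≤ .2853`,
`7.6 * .2853^21 ≤ 2.8e-11`); `bxB20` contains the ball of radius `1/200`. -/
theorem const_loc2 (J : ℕ) (hJ : 5 ≤ J) (q : ℂ) (hq : ‖q‖ ≤ 17 / 50) (him : 0 ≤ q.im) (κ : ℝ)
    (hκp : κ ≤ kp) (hκ : ∀ X : ℝ, -1 ≤ X → X ≤ 1 → GJ J q X ≤ κ) : ‖q - oo‖ < 2 / 100000 := by
  have h0 := const_loc1 J hJ q hq him κ hκp hκ
  have hre := abs_le.1 ((Complex.abs_re_le_norm (q - oo)).trans h0.le)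
  have him' := abs_le.1 ((Complex.abs_im_le_norm (q - oo)).trans h0.le)
  have e1 : (q - oo).re = q.re + 191206 / 1000000 := by
    rw [Complex.sub_re]
    unfold oo
    ring
  have e2 : (q - oo).im = q.im - 204897 / 1000000 := by
    rw [Complex.sub_im]
    unfold oo
    ring
  rw [e1] at hre
  rw [e2] at him'
  have hmem : bxB20.Mem q := by
    refine ⟨?_, ?_, ?_, ?_⟩
    · show (((-98203 / 500000 : ℚ)) : ℝ) ≤ q.re
      push_cast
      linarith [hre.1]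
    · show q.re ≤ (((-92059 / 500000 : ℚ)) : ℝ)
      push_cast
      linarith [hre.2]
    · show (((196897 / 1000000 : ℚ)) : ℝ) ≤ q.im
      push_cast
      linarith [him'.1]
    · show q.im ≤ (((210209 / 1000000 : ℚ)) : ℝ)
      push_cast
      linarith [him'.2]
  have key := Tr.sound (CB.chk (29 / 100) (4 / 100000000000)) (outBall (1 / 200))
    (inBall (2 / 100000))
    (fun c => ‖c - oo‖ < 1 / 200 → (∀ X : ℝ, -1 ≤ X → X ≤ 1 → GJ J c X ≤ κ) →
      ‖c - oo‖ < 2 / 100000)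
    (by
      intro B z hz c hc hcn hcκ
      exfalso
      have hcn2 : ‖c‖ ≤ 2853 / 10000 := by
        have h2 : ‖c‖ ≤ ‖c - oo‖ + ‖oo‖ := by
          have := norm_add_le (c - oo) oo
          rwa [sub_add_cancel] at this
        have h3 := cl_oo
        linarith
      have h1 := cb_sound (29 / 100) (4 / 100000000000) (by norm_num) B z hz J hJ c hc
        (by push_cast; linarith)
        (cl_tau J ‖c‖ (2853 / 10000) _ (norm_nonneg _) hcn2 (by norm_num)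
          (by push_cast; norm_num)) κ hcκ
      linarith)
    (by
      intro B hB c hc hcn _
      have h1 := outBall_sound (1 / 200) (by norm_num) B hB c hc
      rw [cl_oQ] at h1
      push_cast at h1
      exact absurd hcn (not_lt.2 h1))
    (by
      intro B hB c hc _ _
      have h1 := inBall_sound (2 / 100000) (by norm_num) B hB c hc
      rw [cl_oQ] at h1
      push_cast at h1
      exact h1)
    treeB20 bxB20 treeB20_ok q hmem
  exact key h0 hκ

end Pool.Agent.MaxTerm8
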