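import Pool.Agent.MaxTerm8.Crit

/-! Directional derivatives of the maximum. -/

namespace Pool.Agent.MaxTerm8

open Complex ComplexConjugate

private theorem dan_UU (j : ℕ) : Continuous fun X : ℝ => UU X j := by
  induction j using Nat.twoStepInduction with
  | zero =>
    simp only [UU]
    exact continuous_const
  | one =>
    simp only [UU]
    fun_prop
  | more n ih1 ih2 =>
    simp only [UU]
    fun_prop

/-- the difference quotient of `PP` in the direction `z` -/
private noncomputable def danR (J : ℕ) (p z : ℂ) (s X : ℝ) : ℂ :=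
  ∑ j ∈ Finset.range (J + 1),
    (∑ i ∈ Finset.range (tri j), (p + s * z) ^ i * p ^ (tri j - 1 - i)) * ((UU X j : ℝ) : ℂ)

private theorem danR_eq (J : ℕ) (p z : ℂ) (s X : ℝ) :
    PP J (p + s * z) X = PP J p X + danR J p z s X * (s * z) := by
  unfold PP danR
  rw [Finset.sum_mul, ← Finset.sum_add_distrib]
  refine Finset.sum_congr rfl fun j _ => ?_
  have h1 := (Commute.all (p + s * z) p).geom_sum₂_mul (tri j)
  have h2 : p + s * z - p = s * z := by ring
  rw [h2] at h1
  linear_combination (-((UU X j : ℝ) : ℂ)) * h1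

private theorem danR_zero (J : ℕ) (p z : ℂ) (X : ℝ) : danR J p z 0 X = PQ J p X := by
  unfold PQ danR
  refine Finset.sum_congr rfl fun j _ => ?_
  have h1 : ∑ i ∈ Finset.range (tri j), (p + ((0 : ℝ) : ℂ) * z) ^ i * p ^ (tri j - 1 - i) =
      (tri j : ℂ) * p ^ (tri j - 1) := by
    have h2 : ∀ i ∈ Finset.range (tri j), (p + ((0 : ℝ) : ℂ) * z) ^ i * p ^ (tri j - 1 - i) =
        p ^ (tri j - 1) := by
      intro i hi
      rw [Finset.mem_range] at hi
      rw [Complex.ofReal_zero, zero_mul, add_zero, ← pow_add]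
      congr 1
      omega
    rw [Finset.sum_congr rfl h2, Finset.sum_const, Finset.card_range, nsmul_eq_mul]
  rw [h1]

private theorem danR_cont (J : ℕ) (p z : ℂ) :
    Continuous fun a : ℝ × ℝ => danR J p z a.1 a.2 := by
  unfold danR
  refine continuous_finsetSum _ fun j _ => ?_
  refine Continuous.mul ?_ ?_
  · refine continuous_finsetSum _ fun i _ => ?_
    fun_prop
  · exact Complex.continuous_ofReal.comp ((dan_UU j).comp continuous_snd)

private theorem danP_cont (J : ℕ) (p z : ℂ) :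
    Continuous fun a : ℝ × ℝ => PP J (p + a.1 * z) a.2 := by
  unfold PP
  refine continuous_finsetSum _ fun j _ => ?_
  refine Continuous.mul ?_ ?_
  · fun_prop
  · exact Complex.continuous_ofReal.comp ((dan_UU j).comp continuous_snd)

/-- Danskin: let `s_n = 1/(n+N)`, `q_n = p + s_n z`, `κ ≤ GJ q_n X_n` (`hmin`), `X_n → X` along a
subsequence. Continuity: `GJ p X = κ`. `0 ≤ (GJ q_n X_n - GJ p X_n)/s_n`, and
`GJ (p + s z) X - GJ p X = s * D(s, X)` with `D` jointly continuous (polynomials; `a^n - b^n =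
(a-b) ∑ a^i b^(n-1-i)`), `D(0, X) = 4 (1+X) Re (conj PP * PQ * z)`. -/
theorem danskin (J : ℕ) (p : ℂ) (κ : ℝ) (h : CritPt J p κ) (hp : ‖p‖ < 17 / 50) (z : ℂ) :
    ∃ X : ℝ, -1 ≤ X ∧ X ≤ 1 ∧ GJ J p X = κ ∧
      0 ≤ ((((1 + X) / 2 : ℝ) : ℂ) * conj (PP J p X) * PQ J p X * z).re := by
  -- the sequence
  obtain ⟨ε, hε, hεz⟩ : ∃ ε : ℝ, 0 < ε ∧ ‖p‖ + ε * ‖z‖ ≤ 17 / 50 := by
    refine ⟨(17 / 50 - ‖p‖) / (‖z‖ + 1), ?_, ?_⟩
    · have : 0 < 17 / 50 - ‖p‖ := by linarith
      positivity
    · have h1 : 0 < ‖z‖ + 1 := by positivity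
      have h2 : (17 / 50 - ‖p‖) / (‖z‖ + 1) * ‖z‖ ≤ 17 / 50 - ‖p‖ := by
        rw [div_mul_eq_mul_div, div_le_iff₀ h1]
        have h3 : 0 < 17 / 50 - ‖p‖ := by linarith
        nlinarith [norm_nonneg z]
      linarith
  set s : ℕ → ℝ := fun n => ε * (1 / ((n : ℝ) + 1)) with hs
  have hs0 : ∀ n, 0 < s n := fun n => by
    simp only [hs]
    positivity
  have hs1 : ∀ n, s n ≤ ε := fun n => by
    simp only [hs]
    have h1 : 1 / ((n : ℝ) + 1) ≤ 1 := by
      rw [div_le_one (by positivity)]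
      have : (0 : ℝ) ≤ n := Nat.cast_nonneg n
      linarith
    calc ε * (1 / ((n : ℝ) + 1)) ≤ ε * 1 := mul_le_mul_of_nonneg_left h1 hε.le
      _ = ε := mul_one ε
  have hslim : Filter.Tendsto s Filter.atTop (nhds 0) := by
    have h1 := (tendsto_one_div_add_atTop_nhds_zero_nat (𝕜 := ℝ)).const_mul ε
    rw [mul_zero] at h1
    exact h1
  have hq : ∀ n, ‖p + (s n : ℂ) * z‖ ≤ 17 / 50 := by
    intro n
    refine (norm_add_le _ _).trans ?_
    rw [norm_mul, Complex.norm_real, Real.norm_of_nonneg (hs0 n).le]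
    have := mul_le_mul_of_nonneg_right (hs1 n) (norm_nonneg z)
    linarith
  choose X hX1 hX2 hX3 using fun n => h.hmin (p + (s n : ℂ) * z) (hq n)
  obtain ⟨x, hx, φ, hφ, hlim⟩ := (isCompact_Icc (a := (-1 : ℝ)) (b := 1)).tendsto_subseq
    (x := X) (fun n => ⟨hX1 n, hX2 n⟩)
  have hsφ : Filter.Tendsto (s ∘ φ) Filter.atTop (nhds 0) := hslim.comp hφ.tendsto_atTop
  have hpair : Filter.Tendsto (fun n => ((s ∘ φ) n, (X ∘ φ) n)) Filter.atTop (nhds ((0 : ℝ), x)) :=
    hsφ.prodMk_nhds hlim
  refine ⟨x, hx.1, hx.2, ?_, ?_⟩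
  · refine le_antisymm (h.hmax x hx.1 hx.2) ?_
    have hc : Continuous fun a : ℝ × ℝ => GJ J (p + a.1 * z) a.2 := by
      unfold GJ
      have := danP_cont J p z
      fun_prop
    have h1 := (hc.tendsto ((0 : ℝ), x)).comp hpair
    have h2 : GJ J (p + (((0 : ℝ) : ℝ) : ℂ) * z) x = GJ J p x := by
      rw [Complex.ofReal_zero, zero_mul, add_zero]
    have h3 : κ ≤ GJ J (p + (((0 : ℝ) : ℝ) : ℂ) * z) x :=
      ge_of_tendsto' h1 fun n => hX3 (φ n)
    rw [h2] at h3
    exact h3
  · have hc : Continuous fun a : ℝ × ℝ => (1 + a.2) / 2 *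
        (2 * (conj (PP J p a.2) * (danR J p z a.1 a.2 * z)).re +
          a.1 * ‖danR J p z a.1 a.2 * z‖ ^ 2) := by
      have h1 := danR_cont J p z
      have h2 : Continuous fun a : ℝ × ℝ => PP J p a.2 := by
        have := (danP_cont J p 0).comp (continuous_id (X := ℝ × ℝ))
        simpa using this
      have h3 : Continuous fun a : ℝ × ℝ =>
          (conj (PP J p a.2) * (danR J p z a.1 a.2 * z)).re := by
        refine Complex.continuous_re.comp ?_
        exact (Complex.continuous_conj.comp h2).mul (h1.mul continuous_const)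
      fun_prop
    have hpos : ∀ n, 0 ≤ (1 + X (φ n)) / 2 *
        (2 * (conj (PP J p (X (φ n))) * (danR J p z (s (φ n)) (X (φ n)) * z)).re +
          s (φ n) * ‖danR J p z (s (φ n)) (X (φ n)) * z‖ ^ 2) := by
      intro n
      set m := φ n
      have h1 : GJ J p (X m) ≤ GJ J (p + (s m : ℂ) * z) (X m) :=
        (h.hmax (X m) (hX1 m) (hX2 m)).trans (hX3 m)
      have h2 : GJ J (p + (s m : ℂ) * z) (X m) - GJ J p (X m) =
          4 * s m * ((1 + X m) / 2 *
        (2 * (conj (PP J p (X m)) * (danR J p z (s m) (X m) * z)).re +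
          s m * ‖danR J p z (s m) (X m) * z‖ ^ 2)) := by
        unfold GJ
        rw [danR_eq]
        generalize danR J p z (s m) (X m) = R
        generalize PP J p (X m) = P
        have e1 : P + R * ((s m : ℂ) * z) = P + (s m : ℂ) * (R * z) := by ring
        rw [e1]
        generalize R * z = W
        have nsq : ∀ w : ℂ, ‖w‖ ^ 2 = w.re ^ 2 + w.im ^ 2 := by
          intro w
          rw [Complex.sq_norm, Complex.normSq_apply]
          ring
        rw [nsq, nsq, nsq]
        simp only [Complex.add_re, Complex.add_im, Complex.mul_re, Complex.mul_im,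
          Complex.conj_re, Complex.conj_im, Complex.ofReal_re, Complex.ofReal_im,
          Complex.re_ofNat, Complex.im_ofNat]
        ring
      have h3 : 0 < 4 * s m := by linarith [hs0 m]
      by_contra hneg
      push Not at hneg
      have h4 := mul_neg_of_pos_of_neg h3 hneg
      linarith
    have h1 := (hc.tendsto ((0 : ℝ), x)).comp hpair
    have h2 := ge_of_tendsto' h1 hpos
    simp only [danR_zero, zero_mul, add_zero] at h2
    have h3 : ((((1 + x) / 2 : ℝ) : ℂ) * conj (PP J p x) * PQ J p x * z).re =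
        (1 + x) / 2 * (conj (PP J p x) * (PQ J p x * z)).re := by
      rw [mul_assoc, mul_assoc, Complex.re_ofReal_mul, ← mul_assoc]
    rw [h3]
    linarith

end Pool.Agent.MaxTerm8
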