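import Pool.Agent.MaxTerm8.ChkS

/-! Certificates of Stage 1a (generated). -/

namespace Pool.Agent.MaxTerm8

def bxS0 : Bx := ⟨(-17/50), (-6/25), 0, (17/50)⟩

def treeS0 : Tr CS :=
 (.sy (.leaf (mkS 0 (17/100) (741/500) (1671/10000) (23069/10000) (-543/5000) (16543/10000) (71/20000)))
 (.leaf (mkS (397/10000) (11/1000) (3683/2500) (5329/10000) (6337/2500) (-4519/10000) (12233/10000) (489/20000))))

theorem treeS0_ok : treeS0.check CS.chk outDisc (fun _ => false) bxS0 = true := by
  decide +kernel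

def bxS1 : Bx := ⟨(-6/25), (-4/25), 0, (1/20)⟩

def treeS1 : Tr CS :=
 (.sx (.leaf (mkS 0 (453/1250) (15933/10000) (249/5000) (20811/10000) (-27/2000) (3401/2000) (17/50000)))
 (.leaf (mkS (19/2500) (4241/10000) (16969/10000) (87/1250) (254/125) (-11/1000) (201/125) (137/100000))))

theorem treeS1_ok : treeS1.check CS.chk outDisc (fun _ => false) bxS1 = true := by
  decide +kernel

def bxS2 : Bx := ⟨(-4/25), (17/50), 0, (17/50)⟩

def treeS2 : Tr CS :=
 (.leaf (mkS 0 (3953/5000) (263/125) (4129/10000) (1773/1000) (497/5000) (161/1250) (17/2500)))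

theorem treeS2_ok : treeS2.check CS.chk outDisc (fun _ => false) bxS2 = true := by
  decide +kernel

end Pool.Agent.MaxTerm8
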