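import Mathlib

/-! Step C of MP_a70c31_an (matched chains): definitions.

`ψ : ℤ → ℂ` are the normalised quotients of the unit coefficients, `FF ψ k t` is the function at the
corner `k` (on the unit circle), `Th q t` is the same function for the constant sequence `q`. -/

namespace Pool.Agent.MaxTerm8

open Complex ComplexConjugate

/-- triangular numbers -/
def tri (j : ℕ) : ℕ := j * (j + 1) / 2

/-- left coefficients at the corner `k` -/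
noncomputable def TL (ψ : ℤ → ℂ) (k : ℤ) (j : ℕ) : ℂ :=
  ∏ i ∈ Finset.range j, ψ (k - i) ^ (j - i)

/-- right coefficients at the corner `k` -/
noncomputable def TR (ψ : ℤ → ℂ) (k : ℤ) (j : ℕ) : ℂ :=
  ∏ i ∈ Finset.range j, ψ (k + 1 + i) ^ (j - i)

/-- the terms of the function at the corner `k` -/
noncomputable def FT (ψ : ℤ → ℂ) (k : ℤ) (t : ℝ) (j : ℕ) : ℂ :=
  TL ψ k j * exp (-((2 * (j : ℂ) + 1) * t * I)) + TR ψ k j * exp ((2 * (j : ℂ) + 1) * t * I)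

/-- truncated corner function -/
noncomputable def FJ (J : ℕ) (ψ : ℤ → ℂ) (k : ℤ) (t : ℝ) : ℂ :=
  ∑ j ∈ Finset.range (J + 1), FT ψ k t j

/-- corner function -/
noncomputable def FF (ψ : ℤ → ℂ) (k : ℤ) (t : ℝ) : ℂ := ∑' j : ℕ, FT ψ k t j

/-- terms of the theta function -/
noncomputable def ThT (q : ℂ) (t : ℝ) (j : ℕ) : ℂ :=
  2 * q ^ tri j * ((Real.cos ((2 * (j : ℝ) + 1) * t) : ℝ) : ℂ)

/-- truncated theta function -/
noncomputable def ThJ (J : ℕ) (q : ℂ) (t : ℝ) : ℂ := ∑ j ∈ Finset.range (J + 1), ThT q t j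

/-- theta function -/
noncomputable def Th (q : ℂ) (t : ℝ) : ℂ := ∑' j : ℕ, ThT q t j

/-- `cos ((2j+1)t) = cos t * UU (cos 2t) j` -/
def UU {α : Type*} [CommRing α] (X : α) : ℕ → α
  | 0 => 1
  | 1 => 2 * X - 1
  | (n + 2) => 2 * X * UU X (n + 1) - UU X n

/-- `sin ((2j+1)t) = sin t * VV (cos 2t) j` -/
def VV {α : Type*} [CommRing α] (X : α) : ℕ → α
  | 0 => 1
  | 1 => 2 * X + 1
  | (n + 2) => 2 * X * VV X (n + 1) - VV X n

/-- derivative of `UU` in `X` -/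
def DU {α : Type*} [CommRing α] (X : α) : ℕ → α
  | 0 => 0
  | 1 => 2
  | (n + 2) => 2 * UU X (n + 1) + 2 * X * DU X (n + 1) - DU X n

/-- second derivative of `UU` in `X` -/
def D2U {α : Type*} [CommRing α] (X : α) : ℕ → α
  | 0 => 0
  | 1 => 0
  | (n + 2) => 4 * DU X (n + 1) + 2 * X * D2U X (n + 1) - D2U X n

/-- half of the theta function divided by `cos t`, as a polynomial in `X = cos 2t` -/
noncomputable def PP (J : ℕ) (q : ℂ) (X : ℝ) : ℂ :=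
  ∑ j ∈ Finset.range (J + 1), q ^ tri j * ((UU X j : ℝ) : ℂ)

/-- `‖ThJ J q t‖^2` as a function of `X = cos 2t` -/
noncomputable def GJ (J : ℕ) (q : ℂ) (X : ℝ) : ℝ := (1 + X) / 2 * ‖2 * PP J q X‖ ^ 2

/-- the inequality given by the corner `k`, in the variable `X = cos 2t` -/
def XIneq (J : ℕ) (ψ : ℤ → ℂ) (k : ℤ) (M : ℝ) : Prop := ∀ X : ℝ, -1 ≤ X → X ≤ 1 →
  (1 + X) / 2 * ‖∑ j ∈ Finset.range (J + 1), (TL ψ k j + TR ψ k j) * ((UU X j : ℝ) : ℂ)‖ ^ 2 +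
  (1 - X) / 2 * ‖∑ j ∈ Finset.range (J + 1), (TL ψ k j - TR ψ k j) * ((VV X j : ℝ) : ℂ)‖ ^ 2 ≤ M

/-- cosine moments of the pair of nodes `X = 1` (weight `w`, value `Y0`) and `X = x` (weight `1 - w`,
value `Y1`) -/
noncomputable def lam (w x : ℝ) (Y0 Y1 : ℂ) (j : ℕ) : ℂ :=
  (w : ℂ) * conj Y0 + (((1 - w) * ((1 + x) / 2) * UU x j : ℝ) : ℂ) * conj Y1

/-- second moment of the nodes -/
noncomputable def nu (w x : ℝ) (Y0 Y1 : ℂ) : ℝ :=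
  w * ‖Y0‖ ^ 2 + (1 - w) * ((1 + x) / 2) * ‖Y1‖ ^ 2

/-- sine moments of the nodes -/
noncomputable def sg (w x : ℝ) (j : ℕ) : ℝ := (1 - w) * ((1 - x) / 2) * (VV x 1 * VV x j)

/-- upper bound for the minimum of the maximum modulus squared of the theta functions -/
noncomputable def kp : ℝ := 2921266961 / 1000000000

/-- The functional of a window `u, a, b, v` (`a = ψ k`, `b = ψ (k+1)`, `u = ψ (k-1)`, `v = ψ (k+2)`):
dual form of the corner inequality plus the telescoping potential plus linear and quadratic bounds for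
the tails, centred at `o`. -/
noncomputable def Phi (l0 l1 l2 t0 t1 t2 g o : ℂ) (ν σ1 σ2 S m r0 r1 rd rcc e0 e1 : ℝ)
    (a b u v : ℂ) : ℝ :=
  4 * l0.re + 2 * (l1 * (a + b)).re - ν + σ1 * ‖a - b‖ ^ 2 + 2 * (l2 * (a ^ 2 * u + b ^ 2 * v)).re +
  2 * σ2 * (conj (a - b) * (a ^ 2 * u - b ^ 2 * v)).re +
  S * (‖u‖ ^ 2 + ‖v‖ ^ 2 - ‖a‖ ^ 2 - ‖b‖ ^ 2) + (conj g * (u + v - a - b)).re +
  m * ((u * conj a).re + (v * conj b).re - 2 * (a * conj b).re) +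
  t0.re + (t1 * ((a + b) / 2 - o)).re + (t2 * (u + v - 2 * o)).re -
  r0 * (‖a - o‖ ^ 2 + ‖b - o‖ ^ 2) - r1 * (‖u - o‖ ^ 2 + ‖v - o‖ ^ 2) -
  rd / 4 * ‖a - b‖ ^ 2 - rcc / 4 * ‖a + b‖ ^ 2 - e0 - e1 * ‖(a + b) / 2 - o‖

/-- coefficient of the deviation of `u` and `v` when `d = 0` -/
noncomputable def zz (l2 t2 g o : ℂ) (S m : ℝ) (c : ℂ) : ℂ :=
  2 * l2 * c ^ 2 + m * conj c + conj g + 2 * S * conj o + t2

/-- see `phi_lower` -/
noncomputable def kap (σ2 m : ℝ) (c : ℂ) : ℂ := m + 4 * σ2 * c ^ 2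

/-- the value of the window functional for `d = 0` and optimal `u, v` -/
noncomputable def Av (l0 l1 l2 t0 t1 t2 g o : ℂ) (ν S m r0 r1 rcc e0 e1 : ℝ) (c : ℂ) : ℝ :=
  4 * (l0 + l1 * c).re - ν + 4 * (l2 * c ^ 2 * o).re + 2 * S * ‖o‖ ^ 2 -
  (2 * S + 2 * m + rcc) * ‖c‖ ^ 2 + 2 * (conj g * (o - c)).re + 2 * m * (o * conj c).re +
  t0.re + (t1 * (c - o)).re - 2 * r0 * ‖c - o‖ ^ 2 -
  ‖zz l2 t2 g o S m c‖ ^ 2 / (2 * (S - r1)) - e0 - e1 * ‖c - o‖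

/-- coefficient of `‖d‖^2` -/
noncomputable def W0v (l2 t2 g o : ℂ) (σ1 σ2 S m r0 r1 rd : ℝ) (c : ℂ) : ℝ :=
  4 * σ1 - 2 * S + 2 * m - 2 * r0 - rd + 16 * σ2 * (c * o).re -
  (16 * σ2 * (conj (zz l2 t2 g o S m c) * c).re + 16 * ‖l2‖ ^ 2 * ‖c‖ ^ 2 + ‖kap σ2 m c‖ ^ 2) /
    (2 * (S - r1))

/-- coefficient of `d^2` -/
noncomputable def W2v (l2 t2 g o : ℂ) (σ2 S m r1 : ℝ) (c : ℂ) : ℂ :=
  4 * l2 * o - (4 * conj (zz l2 t2 g o S m c) * l2 + 8 * l2 * c * conj (kap σ2 m c)) /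
    (2 * (S - r1))

/-- constants of the quadratic tail potentials -/
noncomputable def ee (j : ℕ) : ℝ := if j = 3 then 7 / 100 else if j = 4 then 9 / 2000 else (1 / 10) ^ (j - 1)

/-- the main telescoping potential -/
noncomputable def pot (g : ℂ) (ψ : ℤ → ℂ) (k : ℤ) : ℝ :=
  13 / 20 * (‖ψ (k - 1)‖ ^ 2 + ‖ψ (k + 2)‖ ^ 2 - ‖ψ k‖ ^ 2 - ‖ψ (k + 1)‖ ^ 2) +
  (conj g * (ψ (k - 1) + ψ (k + 2) - ψ k - ψ (k + 1))).re +
  9 / 20 * ((ψ (k - 1) * conj (ψ k)).re + (ψ (k + 2) * conj (ψ (k + 1))).re -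
    2 * (ψ k * conj (ψ (k + 1))).re)

/-- the telescoping potential for the tail of index `j` -/
noncomputable def tele (p : ℂ) (μ : ℕ → ℂ) (e : ℕ → ℝ) (ψ : ℤ → ℂ) (k : ℤ) (j : ℕ) : ℝ :=
  ∑ i ∈ Finset.Ico 2 j, ((j : ℝ) - i) *
    (e j * (‖ψ (k - i) - p‖ ^ 2 - ‖ψ (k - 1) - p‖ ^ 2) -
      2 * (μ j * p ^ (tri j - 1) * (ψ (k - i) - ψ k)).re +
     (e j * (‖ψ (k + 1 + i) - p‖ ^ 2 - ‖ψ (k + 2) - p‖ ^ 2) -
      2 * (μ j * p ^ (tri j - 1) * (ψ (k + 1 + i) - ψ (k + 1))).re))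

/-- the whole telescoping potential -/
noncomputable def telk (J : ℕ) (p : ℂ) (μ : ℕ → ℂ) (g : ℂ) (ψ : ℤ → ℂ) (k : ℤ) : ℝ :=
  pot g ψ k + ∑ j ∈ Finset.Ico 3 (J + 1), tele p μ ee ψ k j

end Pool.Agent.MaxTerm8
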