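import Pool.Agent.MaxTerm8.LocN

/-! Variation of the moments. -/

namespace Pool.Agent.MaxTerm8

open Complex ComplexConjugate

private theorem dl_real {w x ω ξ ρ : ℝ} (hw : |w - 28989 / 100000| ≤ 7 / 10000)
    (hx : |x - 27608 / 100000| ≤ 4 / 10000) (h0 : 0 ≤ ρ) (hr : ρ ≤ 503 / 100000)
    (hω : |ω| ≤ 225 / 100 * ρ) (hξ : |ξ| ≤ 3401 / 1000 * ρ) :
    |(1 - (w + ω)) * ((1 + (x + ξ)) / 2) - (1 - w) * ((1 + x) / 2)| ≤ 26642 / 10000 * ρ ∧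
    |(1 - w) * ((1 + x) / 2)| ≤ 45368 / 100000 := by
  obtain ⟨w1, w2⟩ := abs_le.1 hw
  obtain ⟨x1, x2⟩ := abs_le.1 hx
  have n1 := abs_nonneg ω
  have n2 := abs_nonneg ξ
  constructor
  · have e : (1 - (w + ω)) * ((1 + (x + ξ)) / 2) - (1 - w) * ((1 + x) / 2) =
        -(ω * ((1 + x) / 2)) + (1 - w) * (ξ / 2) + -(ω * (ξ / 2)) := by ring
    rw [e]
    have a1 : |-(ω * ((1 + x) / 2))| ≤ 225 / 100 * ρ * (63824 / 100000) := by
      rw [abs_neg, abs_mul]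
      refine mul_le_mul hω ?_ (abs_nonneg _) (by positivity)
      rw [abs_le]; constructor <;> linarith
    have a2 : |(1 - w) * (ξ / 2)| ≤ 71081 / 100000 * (3401 / 2000 * ρ) := by
      rw [abs_mul]
      refine mul_le_mul ?_ ?_ (abs_nonneg _) (by positivity)
      · rw [abs_le]; constructor <;> linarith
      · rw [abs_div, abs_two]; linarith
    have a3 : |-(ω * (ξ / 2))| ≤ 225 / 100 * (503 / 100000) * (3401 / 2000 * ρ) := by
      rw [abs_neg, abs_mul]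
      refine mul_le_mul (by linarith) ?_ (abs_nonneg _) (by positivity)
      rw [abs_div, abs_two]; linarith
    refine (abs_add_three _ _ _).trans ?_
    linarith
  · rw [abs_mul]
    calc |1 - w| * |(1 + x) / 2| ≤ 71081 / 100000 * (63824 / 100000) := by
          refine mul_le_mul ?_ ?_ (abs_nonneg _) (by positivity)
          · rw [abs_le]; constructor <;> linarith
          · rw [abs_le]; constructor <;> linarith
      _ ≤ _ := by norm_num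

private theorem dl_key {w x : ℝ} {p Y0 q0 Y1 q1 qx P1 P2 f0 f1 fx δ E0 E1 : ℂ} {ω ξ : ℝ}
    (h : LocN w x p Y0 q0 Y1 q1 qx P1 P2 f0 f1 fx)
    (hd : Disp x p Y0 q0 Y1 q1 qx P1 P2 δ E0 E1 ω ξ) (j : ℕ) :
    ‖lam (w + ω) (x + ξ) E0 E1 j - lam w x Y0 Y1 j‖ ≤
      4454 / 1000 * ‖δ‖ + 7966 / 1000 * ‖δ‖ * |UU x j| +
        10114 / 10000 * |UU (x + ξ) j - UU x j| := by
  obtain ⟨ρ, hρ⟩ : ∃ ρ, ρ = ‖δ‖ := ⟨_, rfl⟩
  have h0 : 0 ≤ ρ := hρ ▸ norm_nonneg _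
  have hr : ρ ≤ 503 / 100000 := hρ ▸ hd.hδ
  have hω : |ω| ≤ 225 / 100 * ρ := hρ ▸ hd.hω
  have hξ : |ξ| ≤ 3401 / 1000 * ρ := hρ ▸ hd.hξ
  have j0 := jet_E0 h hd
  have j1 := jet_E1 h hd
  rw [← hρ] at j0 j1 ⊢
  have s0 := Jt.sub0 h0 hr j0 (by norm_num) (by norm_num)
  have s1 := Jt.sub0 h0 hr j1 (by norm_num) (by norm_num)
  have t0 : ‖E0 - Y0‖ ≤ 20132 / 10000 * ρ :=
    s0.trans (mul_le_mul_of_nonneg_right (by norm_num) h0)
  have t1 : ‖E1 - Y1‖ ≤ 48432 / 10000 * ρ :=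
    s1.trans (mul_le_mul_of_nonneg_right (by norm_num) h0)
  have y0 := h.hY0
  have y1 := h.hY1
  have z0 : ‖E0‖ ≤ 17195 / 10000 := by
    have : E0 = Y0 + (E0 - Y0) := by ring
    rw [this]
    refine (norm_add_le _ _).trans ?_
    linarith
  have z1 : ‖E1‖ ≤ 216477 / 100000 := by
    have : E1 = Y1 + (E1 - Y1) := by ring
    rw [this]
    refine (norm_add_le _ _).trans ?_
    linarith
  obtain ⟨r1, r2⟩ := dl_real h.hw h.hx h0 hr hω hξ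
  obtain ⟨K', hK'⟩ : ∃ K', K' = (1 - (w + ω)) * ((1 + (x + ξ)) / 2) := ⟨_, rfl⟩
  obtain ⟨K, hK⟩ : ∃ K, K = (1 - w) * ((1 + x) / 2) := ⟨_, rfl⟩
  rw [← hK', ← hK] at r1
  rw [← hK] at r2
  have e : lam (w + ω) (x + ξ) E0 E1 j - lam w x Y0 Y1 j =
      ((w : ℂ) * conj (E0 - Y0) + (ω : ℂ) * conj E0) +
      (((K' - K : ℝ) : ℂ) * conj E1 + (K : ℂ) * conj (E1 - Y1)) * ((UU x j : ℝ) : ℂ) +
      ((K' : ℂ) * conj E1) * ((UU (x + ξ) j - UU x j : ℝ) : ℂ) := by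
    unfold lam
    rw [← hK', ← hK]
    push_cast
    simp only [map_sub]
    ring
  rw [e]
  have w3 : |w| ≤ 29059 / 100000 := by
    obtain ⟨w1, w2⟩ := abs_le.1 h.hw
    rw [abs_le]; constructor <;> linarith
  have b1 : ‖(w : ℂ) * conj (E0 - Y0) + (ω : ℂ) * conj E0‖ ≤ 4454 / 1000 * ρ := by
    refine (norm_add_le _ _).trans ?_
    rw [norm_mul, norm_mul, Complex.norm_conj, Complex.norm_conj, Complex.norm_real,
      Complex.norm_real, Real.norm_eq_abs, Real.norm_eq_abs]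
    have c1 : |w| * ‖E0 - Y0‖ ≤ 29059 / 100000 * (20132 / 10000 * ρ) :=
      mul_le_mul w3 t0 (norm_nonneg _) (by norm_num)
    have c2 : |ω| * ‖E0‖ ≤ 225 / 100 * ρ * (17195 / 10000) :=
      mul_le_mul hω z0 (norm_nonneg _) (by positivity)
    linarith
  have b2 : ‖((K' - K : ℝ) : ℂ) * conj E1 + (K : ℂ) * conj (E1 - Y1)‖ ≤ 7966 / 1000 * ρ := by
    refine (norm_add_le _ _).trans ?_
    rw [norm_mul, norm_mul, Complex.norm_conj, Complex.norm_conj, Complex.norm_real,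
      Complex.norm_real, Real.norm_eq_abs, Real.norm_eq_abs]
    have c1 : |K' - K| * ‖E1‖ ≤ 26642 / 10000 * ρ * (216477 / 100000) :=
      mul_le_mul r1 z1 (norm_nonneg _) (by positivity)
    have c2 : |K| * ‖E1 - Y1‖ ≤ 45368 / 100000 * (48432 / 10000 * ρ) :=
      mul_le_mul r2 t1 (norm_nonneg _) (by norm_num)
    linarith
  have b3 : ‖(K' : ℂ) * conj E1‖ ≤ 10114 / 10000 := by
    rw [norm_mul, Complex.norm_conj, Complex.norm_real, Real.norm_eq_abs]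
    have k' : |K'| ≤ 45368 / 100000 + 26642 / 10000 * (503 / 100000) := by
      have : K' = K + (K' - K) := by ring
      rw [this]
      refine (abs_add_le _ _).trans ?_
      linarith
    calc |K'| * ‖E1‖ ≤ (45368 / 100000 + 26642 / 10000 * (503 / 100000)) * (216477 / 100000) :=
          mul_le_mul k' z1 (norm_nonneg _) (by norm_num)
      _ ≤ _ := by norm_num
  refine (norm_add_le _ _).trans (add_le_add ((norm_add_le _ _).trans (add_le_add b1 ?_)) ?_)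
  · rw [norm_mul, Complex.norm_real, Real.norm_eq_abs]
    exact mul_le_mul_of_nonneg_right b2 (abs_nonneg _)
  · rw [norm_mul, Complex.norm_real, Real.norm_eq_abs]
    exact mul_le_mul_of_nonneg_right b3 (abs_nonneg _)

private theorem dl_two {x ξ : ℝ} (hx : |x - 27608 / 100000| ≤ 4 / 10000)
    (hξ : |ξ| ≤ 172 / 10000) :
    |UU x 2| ≤ 12481 / 10000 ∧ |UU (x + ξ) 2 - UU x 2| ≤ 2807 / 10000 * |ξ| := by
  obtain ⟨x1, x2⟩ := abs_le.1 hx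
  obtain ⟨k1, k2⟩ := abs_le.1 hξ
  have e : ∀ y : ℝ, UU y 2 = 4 * y ^ 2 - 2 * y - 1 := by
    intro y; simp only [UU]; ring
  constructor
  · rw [e, abs_le]; constructor <;> nlinarith
  · rw [e, e, show 4 * (x + ξ) ^ 2 - 2 * (x + ξ) - 1 - (4 * x ^ 2 - 2 * x - 1) =
      (8 * x - 2 + 4 * ξ) * ξ by ring, abs_mul]
    refine mul_le_mul_of_nonneg_right ?_ (abs_nonneg _)
    rw [abs_le]; constructor <;> linarith

private theorem dl_three {x ξ : ℝ} (hx : |x - 27608 / 100000| ≤ 4 / 10000)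
    (hξ : |ξ| ≤ 172 / 10000) :
    |UU x 3| ≤ 245 / 1000 ∧ |UU (x + ξ) 3 - UU x 3| ≤ 444 / 100 * |ξ| := by
  obtain ⟨x1, x2⟩ := abs_le.1 hx
  obtain ⟨k1, k2⟩ := abs_le.1 hξ
  have e : ∀ y : ℝ, UU y 3 = 8 * y ^ 3 - 4 * y ^ 2 - 4 * y + 1 := by
    intro y; simp only [UU]; ring
  obtain ⟨y, rfl⟩ : ∃ y, x = 27608 / 100000 + y := ⟨x - 27608 / 100000, by ring⟩
  have y1 : -(4 / 10000) ≤ y := by linarith
  have y2 : y ≤ 4 / 10000 := by linarith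
  have s1 : y ^ 2 ≤ (4 / 10000) ^ 2 := by nlinarith
  have s0 : 0 ≤ y ^ 2 := sq_nonneg y
  have s2 : ξ ^ 2 ≤ (172 / 10000) ^ 2 := by nlinarith
  have s3 : 0 ≤ ξ ^ 2 := sq_nonneg ξ
  have s4 : |y * ξ| ≤ 4 / 10000 * (172 / 10000) := by
    rw [abs_mul]
    exact mul_le_mul (abs_le.2 ⟨by linarith, by linarith⟩) hξ (abs_nonneg _) (by norm_num)
  obtain ⟨s5, s6⟩ := abs_le.1 s4
  have s7 : |y ^ 3| ≤ (4 / 10000) ^ 3 := by
    rw [abs_pow]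
    exact pow_le_pow_left₀ (abs_nonneg _) (abs_le.2 ⟨by linarith, by linarith⟩) 3
  obtain ⟨s8, s9⟩ := abs_le.1 s7
  constructor
  · rw [e, abs_le]; constructor <;> nlinarith
  · rw [e, e]
    have e2 : 8 * (27608 / 100000 + y + ξ) ^ 3 - 4 * (27608 / 100000 + y + ξ) ^ 2 -
      4 * (27608 / 100000 + y + ξ) + 1 - (8 * (27608 / 100000 + y) ^ 3 -
      4 * (27608 / 100000 + y) ^ 2 - 4 * (27608 / 100000 + y) + 1) =
      (24 * (27608 / 100000) ^ 2 - 8 * (27608 / 100000) - 4 + (48 * (27608 / 100000) - 8) * y +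
        24 * y ^ 2 + (24 * (27608 / 100000) - 4) * ξ + 24 * (y * ξ) + 8 * ξ ^ 2) * ξ := by ring
    rw [e2, abs_mul]
    refine mul_le_mul_of_nonneg_right ?_ (abs_nonneg _)
    rw [abs_le]; constructor <;> linarith

private theorem dl_four {x ξ : ℝ} (hx : |x - 27608 / 100000| ≤ 4 / 10000)
    (hξ : |ξ| ≤ 172 / 10000) : |UU (x + ξ) 4 - UU x 4| ≤ 34 / 10 * |ξ| := by
  obtain ⟨x1, x2⟩ := abs_le.1 hx
  obtain ⟨k1, k2⟩ := abs_le.1 hξ
  have e : ∀ y : ℝ, UU y 4 = 16 * y ^ 4 - 8 * y ^ 3 - 12 * y ^ 2 + 4 * y + 1 := by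
    intro y; simp only [UU]; ring
  rw [e, e]
  have e2 : 16 * (x + ξ) ^ 4 - 8 * (x + ξ) ^ 3 - 12 * (x + ξ) ^ 2 + 4 * (x + ξ) + 1 -
      (16 * x ^ 4 - 8 * x ^ 3 - 12 * x ^ 2 + 4 * x + 1) =
      (64 * x ^ 3 - 24 * x ^ 2 - 24 * x + 4 + (96 * x ^ 2 - 24 * x - 12) * ξ +
        (64 * x - 8) * ξ ^ 2 + 16 * ξ ^ 3) * ξ := by ring
  rw [e2, abs_mul]
  refine mul_le_mul_of_nonneg_right ?_ (abs_nonneg _)
  have a1 : |64 * x ^ 3 - 24 * x ^ 2 - 24 * x + 4| ≤ 315 / 100 := by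
    have q1 : (27568 / 100000) ^ 2 ≤ x ^ 2 := pow_le_pow_left₀ (by norm_num) (by linarith) 2
    have q2 : x ^ 2 ≤ (27648 / 100000) ^ 2 := pow_le_pow_left₀ (by linarith) (by linarith) 2
    have q3 : (27568 / 100000) ^ 3 ≤ x ^ 3 := pow_le_pow_left₀ (by norm_num) (by linarith) 3
    have q4 : x ^ 3 ≤ (27648 / 100000) ^ 3 := pow_le_pow_left₀ (by linarith) (by linarith) 3
    rw [abs_le]
    constructor <;> linarith
  have a2 : |(96 * x ^ 2 - 24 * x - 12) * ξ| ≤ 1135 / 100 * (172 / 10000) := by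
    rw [abs_mul]
    refine mul_le_mul ?_ hξ (abs_nonneg _) (by norm_num)
    have q1 : (27568 / 100000) ^ 2 ≤ x ^ 2 := pow_le_pow_left₀ (by norm_num) (by linarith) 2
    have q2 : x ^ 2 ≤ (27648 / 100000) ^ 2 := pow_le_pow_left₀ (by linarith) (by linarith) 2
    rw [abs_le]
    constructor <;> linarith
  have a3 : |(64 * x - 8) * ξ ^ 2| ≤ 10 * (172 / 10000) ^ 2 := by
    rw [abs_mul, abs_pow]
    refine mul_le_mul ?_ (pow_le_pow_left₀ (abs_nonneg _) hξ 2) (by positivity) (by norm_num)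
    rw [abs_le]
    constructor <;> linarith
  have a4 : |16 * ξ ^ 3| ≤ 16 * (172 / 10000) ^ 3 := by
    rw [abs_mul, abs_pow, show |(16 : ℝ)| = 16 by norm_num]
    exact mul_le_mul_of_nonneg_left (pow_le_pow_left₀ (abs_nonneg _) hξ 3) (by norm_num)
  refine (abs_add_le _ _).trans ((add_le_add (abs_add_three _ _ _) le_rfl).trans ?_)
  linarith

private theorem dl_all {x : ℝ} (hx : |x - 27608 / 100000| ≤ 4 / 10000) (j : ℕ) :
    |UU x j| ≤ 1253 / 1000 := by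
  obtain ⟨x1, x2⟩ := abs_le.1 hx
  have h1 := uu_bound x (by linarith) (by linarith) j
  have h2 : (27568 / 100000 : ℝ) ≤ x := by linarith
  have h3 := mul_le_mul_of_nonneg_right h2 (sq_nonneg (UU x j))
  have h4 : UU x j ^ 2 ≤ (1253 / 1000) ^ 2 := by linarith
  exact abs_le_of_sq_le_sq h4 (by norm_num)

/-- For `j = 2, 3, 4` and `j ≥ 5`: `lam (w+ω) (x+ξ) E0 E1 j - lam w x Y0 Y1 j` is
`((w+ω) conj E0 - w conj Y0) + (A' - A) U_j(x) + A' (U_j(x+ξ) - U_j(x))`,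
`A' = (1-(w+ω)) ((1+x+ξ)/2) conj E1`, `A = (1-w) ((1+x)/2) conj Y1`, norms `4.454 ρ`, `7.966 ρ |U_j(x)|`,
`1.0114 |U_j(x+ξ) - U_j(x)|`. `|U_2(x)| ≤ 1.2481`, slope `.213 + 4 * .0172`; `|U_3(x)| ≤ .245`, slope
`4.44`; `|U_4(x)| ≤ 1.253`, slope `3.4`; `|U_j(x)| ≤ 1.253` (`uu_bound`: `(1+x)/2 U_j^2 ≤ 1`), slope `4^j`
(`uu_lip`). -/
theorem dev_lam {w x : ℝ} {p Y0 q0 Y1 q1 qx P1 P2 f0 f1 fx δ E0 E1 : ℂ} {ω ξ : ℝ}
    (h : LocN w x p Y0 q0 Y1 q1 qx P1 P2 f0 f1 fx)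
    (hd : Disp x p Y0 q0 Y1 q1 qx P1 P2 δ E0 E1 ω ξ) :
    ‖lam (w + ω) (x + ξ) E0 E1 2 - lam w x Y0 Y1 2‖ ≤ 154 / 10 * ‖δ‖ ∧
    ‖lam (w + ω) (x + ξ) E0 E1 3 - lam w x Y0 Y1 3‖ ≤ 22 * ‖δ‖ ∧
    ‖lam (w + ω) (x + ξ) E0 E1 4 - lam w x Y0 Y1 4‖ ≤ 27 * ‖δ‖ ∧
    ∀ j, 5 ≤ j → ‖lam (w + ω) (x + ξ) E0 E1 j - lam w x Y0 Y1 j‖ ≤ 4 * 4 ^ j * ‖δ‖ := by
  have key := dl_key h hd
  have hx := h.hx
  have hr := hd.hδ
  have h0 := norm_nonneg δ
  have hξ := hd.hξ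
  have hξ' : |ξ| ≤ 172 / 10000 := by linarith
  obtain ⟨ρ, hρ⟩ : ∃ ρ, ρ = ‖δ‖ := ⟨_, rfl⟩
  rw [← hρ] at key hr h0 hξ ⊢
  refine ⟨?_, ?_, ?_, ?_⟩
  · obtain ⟨a1, a2⟩ := dl_two hx hξ'
    have a3 := mul_le_mul_of_nonneg_left a1 h0
    linarith [key 2]
  · obtain ⟨a1, a2⟩ := dl_three hx hξ'
    have a3 := mul_le_mul_of_nonneg_left a1 h0
    linarith [key 3]
  · have a2 := dl_four hx hξ'
    have a3 := mul_le_mul_of_nonneg_left (dl_all hx 4) h0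
    linarith [key 4]
  · intro j hj
    have a3 := mul_le_mul_of_nonneg_left (dl_all hx j) h0
    obtain ⟨x1, x2⟩ := abs_le.1 hx
    obtain ⟨k1, k2⟩ := abs_le.1 hξ'
    have a2 := uu_lip (x + ξ) x (abs_le.2 ⟨by linarith, by linarith⟩)
      (abs_le.2 ⟨by linarith, by linarith⟩) j
    rw [show x + ξ - x = ξ by ring] at a2
    have p4 : (4 : ℝ) ^ 5 ≤ 4 ^ j := pow_le_pow_right₀ (by norm_num) hj
    have a4 : (4 : ℝ) ^ j * |ξ| ≤ 4 ^ j * (3401 / 1000 * ρ) :=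
      mul_le_mul_of_nonneg_left hξ (by positivity)
    have a5 := mul_le_mul_of_nonneg_right p4 h0
    have := key j
    linarith

end Pool.Agent.MaxTerm8
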