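import Pool.Agent.MaxTerm8.Active
import Pool.Agent.MaxTerm8.Tails

/-! Enclosure of the multipliers at the critical point. -/

namespace Pool.Agent.MaxTerm8

open Complex ComplexConjugate

/-- the multipliers -/
noncomputable def muc (J : ℕ) (p : ℂ) (w x : ℝ) (j : ℕ) : ℂ := lam w x (2 * PP J p 1) (2 * PP J p x) j

/-- the linear part of the potential -/
noncomputable def gc (J : ℕ) (p : ℂ) (w x : ℝ) : ℂ :=
  conj (-((7 / 4 : ℝ) : ℂ) * conj p -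
    ∑ j ∈ Finset.Ico 2 (J + 1), 2 * ((j : ℂ) - 1) * muc J p w x j * p ^ (tri j - 1))

def xB : Bl := ⟨27608 / 100000, 0, 4 / 10000⟩
def wB : Bl := ⟨28989 / 100000, 0, 7 / 10000⟩
/-- `e = w̃ v0 + (1 - w̃) v1` -/
def eB : Bl := Bl.sm (28989 / 100000) v0B + Bl.sm (1 - 28989 / 100000) v1B
def dB : Bl := v0B - v1B
def Y0B : Bl := Bl.sm 2 (PPB pB (Bl.q 1))
def Y1B : Bl := Bl.sm 2 (PPB pB xB)
def beB : Bl := Bl.sm (1 / 2) (Bl.q 1 + xB)
def muB (j : ℕ) : Bl := wB * Y0B.cj + (Bl.q 1 - wB) * beB * UUB xB j * Y1B.cj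
def gB : Bl := (-(Bl.sm (7 / 4) pB.cj) - (Bl.sm 2 (muB 2) * pB.pw 2 + Bl.sm 4 (muB 3) * pB.pw 5 +
  Bl.sm 6 (muB 4) * pB.pw 9 + Bl.sm 8 (muB 5) * pB.pw 14)).cj.wd (1 / 1000000)

theorem chk_w : |eB.re| + eB.rad ≤ 7 / 10000 * (dB.re - dB.rad) ∧ 0 < dB.re - dB.rad := by
  decide +kernel

theorem chk_g : gB.rad ≤ 8 / 10000 ∧ (gB.re - 365932 / 1000000) ^ 2 + (gB.im + 244302 / 1000000) ^ 2 ≤
    (8 / 10000 - gB.rad) ^ 2 := by
  decide +kernel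

theorem chk_mu3 : (muB 3).rad ≤ 5 / 1000 ∧
    ((muB 3).re - 246606 / 1000000) ^ 2 + ((muB 3).im + 150940 / 1000000) ^ 2 ≤
    (5 / 1000 - (muB 3).rad) ^ 2 := by
  decide +kernel

private theorem ep_oo : pB.ctr = oo := by
  unfold Bl.ctr pB oo
  apply Complex.ext
  · simp only
    push_cast
    norm_num
  · simp only
    push_cast
    norm_num

private theorem ep_norm_oo : ‖oo‖ ≤ 28026 / 100000 := by
  rw [← Real.sqrt_sq (by norm_num : (0 : ℝ) ≤ 28026 / 100000), Complex.norm_eq_sqrt_sq_add_sq]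
  apply Real.sqrt_le_sqrt
  simp only [oo]
  norm_num

private theorem ep_p (J : ℕ) (hJ : 5 ≤ J) (p : ℂ) (κ : ℝ) (h : CritPt J p κ) :
    pB.Mem p ∧ ‖p‖ ≤ 2804 / 10000 := by
  have h1 := crit_loc J hJ p κ h
  constructor
  · unfold Bl.Mem
    rw [ep_oo]
    have e : ((pB.rad : ℚ) : ℝ) = 2 / 100000 := by
      unfold pB
      push_cast
      norm_num
    rw [e]
    exact h1.le
  · have h2 : ‖p‖ ≤ ‖p - oo‖ + ‖oo‖ := by
      have := norm_add_le (p - oo) oo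
      rwa [sub_add_cancel] at this
    have h3 := ep_norm_oo
    linarith

private theorem ep_real (B : Bl) (hB : B.im = 0) (x : ℝ) (h : |x - (B.re : ℝ)| ≤ (B.rad : ℝ)) :
    B.Mem (x : ℂ) := by
  unfold Bl.Mem
  have e : (x : ℂ) - B.ctr = ((x - (B.re : ℝ) : ℝ) : ℂ) := by
    unfold Bl.ctr
    apply Complex.ext
    · simp
    · simp [hB]
  rw [e, Complex.norm_real]
  exact h

private theorem ep_x {J : ℕ} {p : ℂ} {κ w x : ℝ} (hk : KKT J p κ w x) :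
    xB.Mem (x : ℂ) ∧ |x| ≤ 1 := by
  have h1 := hk.hx
  constructor
  · refine ep_real xB rfl x ?_
    have e1 : ((xB.re : ℚ) : ℝ) = 27608 / 100000 := by
      unfold xB
      push_cast
      norm_num
    have e2 : ((xB.rad : ℚ) : ℝ) = 4 / 10000 := by
      unfold xB
      push_cast
      norm_num
    rw [e1, e2]
    exact h1
  · have h2 := abs_le.1 h1
    rw [abs_le]
    constructor <;> linarith [h2.1, h2.2]

private theorem ep_q1 : (Bl.q 1).Mem (((1 : ℝ)) : ℂ) := by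
  have h := Bl.mem_q 1
  have e : (((1 : ℚ) : ℝ) : ℂ) = (((1 : ℝ)) : ℂ) := by norm_num
  rwa [e] at h

private theorem ep_be {x : ℝ} (hx : xB.Mem (x : ℂ)) :
    (Bl.sm (1 / 2) (Bl.q 1 + xB)).Mem ((((1 + x) / 2 : ℝ)) : ℂ) := by
  have h := Bl.mem_sm (1 / 2) (Bl.mem_add ep_q1 hx)
  have e : (((1 / 2 : ℚ) : ℝ) : ℂ) * ((((1 : ℝ)) : ℂ) + (x : ℂ)) = ((((1 + x) / 2 : ℝ)) : ℂ) := by
    push_cast
    ring
  rwa [e] at h

private theorem ep_v0 (J : ℕ) (hJ : 5 ≤ J) {p : ℂ} (hp : pB.Mem p) (hn : ‖p‖ ≤ 2804 / 10000) :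
    v0B.Mem (conj (PP J p 1) * PQ J p 1) :=
  Bl.mem_mul (Bl.mem_cj (mem_PPB J hJ hp hn ep_q1 (by norm_num)))
    (mem_PQB J hJ hp hn ep_q1 (by norm_num))

private theorem ep_v1 (J : ℕ) (hJ : 5 ≤ J) {p : ℂ} (hp : pB.Mem p) (hn : ‖p‖ ≤ 2804 / 10000)
    {x : ℝ} (hx : xB.Mem (x : ℂ)) (hx1 : |x| ≤ 1) :
    v1B.Mem (((((1 + x) / 2 : ℝ)) : ℂ) * (conj (PP J p x) * PQ J p x)) :=
  Bl.mem_mul (ep_be hx) (Bl.mem_mul (Bl.mem_cj (mem_PPB J hJ hp hn hx hx1))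
    (mem_PQB J hJ hp hn hx hx1))

/-- `w (v0 - v1) = -v1`, so `(w - w̃) Re (v0 - v1) = - Re (w̃ v0 + (1 - w̃) v1)`; `chk_w`. -/
theorem mem_wB (J : ℕ) (hJ : 5 ≤ J) (p : ℂ) (κ w x : ℝ) (h : CritPt J p κ)
    (hk : KKT J p κ w x) : wB.Mem (w : ℂ) := by
  obtain ⟨hp, hn⟩ := ep_p J hJ p κ h
  obtain ⟨hx, hx1⟩ := ep_x hk
  have h0 := ep_v0 J hJ hp hn
  have h1 := ep_v1 J hJ hp hn hx hx1
  have hkk := hk.hk
  obtain ⟨v0, hv0⟩ : ∃ v0, v0 = conj (PP J p 1) * PQ J p 1 := ⟨_, rfl⟩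
  obtain ⟨v1, hv1⟩ : ∃ v1, v1 = ((((1 + x) / 2 : ℝ)) : ℂ) * (conj (PP J p x) * PQ J p x) :=
    ⟨_, rfl⟩
  rw [← hv0] at h0 hkk
  rw [← hv1] at h1
  have hkk2 : (w : ℂ) * v0 + ((1 - w : ℝ) : ℂ) * v1 = 0 := by
    rw [hv1, ← hkk]
    push_cast
    ring
  have hd := Bl.le_re (Bl.mem_sub h0 h1)
  have he := Bl.mem_add (Bl.mem_sm (28989 / 100000) h0) (Bl.mem_sm (1 - 28989 / 100000) h1)
  have he1 := Bl.re_le he
  have he2 := Bl.le_re he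
  have hc1 : ((dB.re - dB.rad : ℚ) : ℝ) ≤ (v0 - v1).re := hd
  have hc2 : ((((28989 / 100000 : ℚ) : ℝ) : ℂ) * v0 +
      (((1 - 28989 / 100000 : ℚ) : ℝ) : ℂ) * v1).re ≤ ((eB.re + eB.rad : ℚ) : ℝ) := he1
  have hc3 : ((eB.re - eB.rad : ℚ) : ℝ) ≤ ((((28989 / 100000 : ℚ) : ℝ) : ℂ) * v0 +
      (((1 - 28989 / 100000 : ℚ) : ℝ) : ℂ) * v1).re := he2
  have hk1 : ((|eB.re| + eB.rad : ℚ) : ℝ) ≤ ((7 / 10000 * (dB.re - dB.rad) : ℚ) : ℝ) := by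
    exact_mod_cast chk_w.1
  have hk2 : (0 : ℝ) < ((dB.re - dB.rad : ℚ) : ℝ) := by exact_mod_cast chk_w.2
  have hk3 : ((eB.re + eB.rad : ℚ) : ℝ) ≤ ((|eB.re| + eB.rad : ℚ) : ℝ) := by
    have : eB.re + eB.rad ≤ |eB.re| + eB.rad := by
      have := le_abs_self eB.re
      linarith
    exact_mod_cast this
  have hk4 : -((|eB.re| + eB.rad : ℚ) : ℝ) ≤ ((eB.re - eB.rad : ℚ) : ℝ) := by
    have : -(|eB.re| + eB.rad) ≤ eB.re - eB.rad := by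
      have := neg_abs_le eB.re
      linarith
    exact_mod_cast this
  have hk5 : ((7 / 10000 * (dB.re - dB.rad) : ℚ) : ℝ) = 7 / 10000 * ((dB.re - dB.rad : ℚ) : ℝ) := by
    push_cast
    ring
  obtain ⟨D, hD⟩ : ∃ D : ℝ, D = ((dB.re - dB.rad : ℚ) : ℝ) := ⟨_, rfl⟩
  obtain ⟨E, hE⟩ : ∃ E : ℝ, E = ((|eB.re| + eB.rad : ℚ) : ℝ) := ⟨_, rfl⟩
  rw [← hD] at hc1 hk2 hk5
  rw [hk5] at hk1
  rw [← hE] at hk1 hk3 hk4
  have hmain : (w - 28989 / 100000) * (v0 - v1).re =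
      -((((28989 / 100000 : ℚ) : ℝ) : ℂ) * v0 + (((1 - 28989 / 100000 : ℚ) : ℝ) : ℂ) * v1).re := by
    have h3 := congrArg Complex.re hkk2
    rw [Complex.add_re, Complex.re_ofReal_mul, Complex.re_ofReal_mul, Complex.zero_re] at h3
    rw [Complex.add_re, Complex.re_ofReal_mul, Complex.re_ofReal_mul, Complex.sub_re]
    push_cast
    linarith
  have hvpos : 0 < (v0 - v1).re := by linarith
  have hDE : E ≤ 7 / 10000 * (v0 - v1).re := by linarith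
  refine ep_real wB rfl w ?_
  have e1 : ((wB.re : ℚ) : ℝ) = 28989 / 100000 := by
    unfold wB
    push_cast
    norm_num
  have e2 : ((wB.rad : ℚ) : ℝ) = 7 / 10000 := by
    unfold wB
    push_cast
    norm_num
  rw [e1, e2, abs_le]
  constructor
  · by_contra hc
    have hc' := not_le.1 hc
    have h6 := mul_lt_mul_of_pos_right hc' hvpos
    rw [hmain] at h6
    linarith
  · by_contra hc
    have hc' := not_le.1 hc
    have h6 := mul_lt_mul_of_pos_right hc' hvpos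
    rw [hmain] at h6
    linarith

theorem mem_muB (J : ℕ) (hJ : 5 ≤ J) (p : ℂ) (κ w x : ℝ) (h : CritPt J p κ)
    (hk : KKT J p κ w x) (j : ℕ) : (muB j).Mem (muc J p w x j) := by
  obtain ⟨hp, hn⟩ := ep_p J hJ p κ h
  obtain ⟨hx, hx1⟩ := ep_x hk
  have hw := mem_wB J hJ p κ w x h hk
  have hY0 := Bl.mem_cj (Bl.mem_sm 2 (mem_PPB J hJ hp hn ep_q1 (by norm_num)))
  have hY1 := Bl.mem_cj (Bl.mem_sm 2 (mem_PPB J hJ hp hn hx hx1))
  have h1 := Bl.mem_mul hw hY0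
  have h2 := Bl.mem_mul (Bl.mem_mul (Bl.mem_mul (Bl.mem_sub ep_q1 hw) (ep_be hx))
    (mem_UUB hx j)) hY1
  have h3 := Bl.mem_add h1 h2
  have e : muc J p w x j = (w : ℂ) * conj ((((2 : ℚ) : ℝ) : ℂ) * PP J p 1) +
      ((((1 : ℝ)) : ℂ) - (w : ℂ)) * ((((1 + x) / 2 : ℝ)) : ℂ) * (((UU x j : ℝ)) : ℂ) *
        conj ((((2 : ℚ) : ℝ) : ℂ) * PP J p x) := by
    unfold muc lam
    push_cast
    ring
  rw [e]
  exact h3

/-- `nu w x Y0 Y1 = w * GJ 1 + (1 - w) * GJ x = κ ≤ 361/100`. -/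
theorem muc_le (J : ℕ) (hJ : 5 ≤ J) (p : ℂ) (κ w x : ℝ) (h : CritPt J p κ)
    (hk : KKT J p κ w x) (j : ℕ) : ‖muc J p w x j‖ ≤ 19 / 10 := by
  obtain ⟨hx, hx1⟩ := ep_x hk
  have hx2 := abs_le.1 hx1
  refine lam_bound w x _ _ hk.w0 hk.w1 hx2.1 hx2.2 ?_ j
  have h1 := hk.h1
  have h2 := hk.h2
  have h3 := crit_le J hJ p κ h
  unfold GJ at h1 h2
  unfold kp at h3
  unfold nu
  have e : w * ‖2 * PP J p 1‖ ^ 2 + (1 - w) * ((1 + x) / 2) * ‖2 * PP J p x‖ ^ 2 = κ := by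
    have e1 : ‖2 * PP J p 1‖ ^ 2 = κ := by
      rw [← h1]
      ring
    rw [e1, mul_assoc, h2]
    ring
  rw [e]
  linarith

private theorem ep_tri (i : ℕ) : 21 + 7 * i ≤ tri (6 + i) := by
  unfold tri
  rw [Nat.le_div_iff_mul_le (by norm_num)]
  have h := Nat.le_mul_self i
  nlinarith

private theorem ep_c (i : ℕ) : 5 + (i : ℝ) ≤ 5 * 2 ^ i := by
  induction i with
  | zero => norm_num
  | succ i ih =>
    rw [pow_succ]
    push_cast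
    have : (0 : ℝ) ≤ i := Nat.cast_nonneg i
    linarith

private theorem ep_tail (J : ℕ) (p : ℂ) (hn : ‖p‖ ≤ 2804 / 10000) (μ : ℕ → ℂ)
    (hμ : ∀ j, ‖μ j‖ ≤ 19 / 10) :
    ‖∑ j ∈ Finset.Ico 6 (J + 1), 2 * ((j : ℂ) - 1) * μ j * p ^ (tri j - 1)‖ ≤ 1 / 1000000 := by
  rw [Finset.sum_Ico_eq_sum_range]
  set R : ℝ := 2804 / 10000 with hR
  have hterm : ∀ i ∈ Finset.range (J + 1 - 6),
      ‖2 * (((6 + i : ℕ) : ℂ) - 1) * μ (6 + i) * p ^ (tri (6 + i) - 1)‖ ≤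
        19 * R ^ 20 * (2 * R ^ 7) ^ i := by
    intro i _
    rw [norm_mul, norm_mul, norm_mul, norm_pow]
    have h1 : ‖(2 : ℂ)‖ = 2 := by norm_num
    have h2 : ‖((6 + i : ℕ) : ℂ) - 1‖ = 5 + (i : ℝ) := by
      have e : ((6 + i : ℕ) : ℂ) - 1 = (((5 + i : ℕ)) : ℂ) := by
        push_cast
        ring
      rw [e, Complex.norm_natCast]
      push_cast
      ring
    rw [h1, h2]
    have h3 : ‖p‖ ^ (tri (6 + i) - 1) ≤ R ^ 20 * (R ^ 7) ^ i := by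
      have h4 := ep_tri i
      rw [← pow_mul, ← pow_add]
      exact (pow_le_pow_left₀ (norm_nonneg _) hn _).trans
        (pow_le_pow_of_le_one (by norm_num [hR]) (by norm_num [hR]) (by omega))
    have h5 : 2 * (5 + (i : ℝ)) * ‖μ (6 + i)‖ ≤ 2 * (5 * 2 ^ i) * (19 / 10) :=
      mul_le_mul (mul_le_mul_of_nonneg_left (ep_c i) (by norm_num)) (hμ _) (norm_nonneg _)
        (by positivity)
    calc 2 * (5 + (i : ℝ)) * ‖μ (6 + i)‖ * ‖p‖ ^ (tri (6 + i) - 1)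
        ≤ 2 * (5 * 2 ^ i) * (19 / 10) * (R ^ 20 * (R ^ 7) ^ i) :=
          mul_le_mul h5 h3 (by positivity) (by positivity)
      _ = 19 * R ^ 20 * (2 * R ^ 7) ^ i := by
          rw [mul_pow]
          ring
  refine (norm_sum_le _ _).trans ((Finset.sum_le_sum hterm).trans ?_)
  rw [← Finset.mul_sum]
  have hy0 : 0 ≤ 2 * R ^ 7 := by positivity
  have hy1 : 2 * R ^ 7 ≤ 1 / 2 := by
    rw [hR]
    norm_num
  have h6 : ∑ i ∈ Finset.range (J + 1 - 6), (2 * R ^ 7) ^ i ≤ 2 := by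
    generalize 2 * R ^ 7 = y at hy0 hy1
    have h2 := geom_sum_mul_neg y (J + 1 - 6)
    have h3 : 0 ≤ y ^ (J + 1 - 6) := pow_nonneg hy0 _
    have h4 : 0 ≤ ∑ i ∈ Finset.range (J + 1 - 6), y ^ i :=
      Finset.sum_nonneg fun i _ => pow_nonneg hy0 i
    have h5 : (∑ i ∈ Finset.range (J + 1 - 6), y ^ i) * (1 / 2) ≤
        (∑ i ∈ Finset.range (J + 1 - 6), y ^ i) * (1 - y) :=
      mul_le_mul_of_nonneg_left (by linarith) h4
    rw [h2] at h5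
    linarith
  have h7 : 19 * R ^ 20 * 2 ≤ 1 / 1000000 := by
    rw [hR]
    norm_num
  exact (mul_le_mul_of_nonneg_left h6 (by positivity)).trans h7

/-- The terms `2 ≤ j ≤ 5` are explicit, the terms `j ≥ 6` are at most `10 * 1.9 * .2804^20 + ...`. -/
theorem mem_gB (J : ℕ) (hJ : 5 ≤ J) (p : ℂ) (κ w x : ℝ) (h : CritPt J p κ)
    (hk : KKT J p κ w x) : gB.Mem (gc J p w x) := by
  obtain ⟨hp, hn⟩ := ep_p J hJ p κ h
  have hm := mem_muB J hJ p κ w x h hk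
  have hl := muc_le J hJ p κ w x h hk
  have ht := ep_tail J p hn (muc J p w x) hl
  have h1 := Bl.mem_neg (Bl.mem_sm (7 / 4) (Bl.mem_cj hp))
  have h2 := Bl.mem_add (Bl.mem_add (Bl.mem_add
    (Bl.mem_mul (Bl.mem_sm 2 (hm 2)) (Bl.mem_pw hp 2))
    (Bl.mem_mul (Bl.mem_sm 4 (hm 3)) (Bl.mem_pw hp 5)))
    (Bl.mem_mul (Bl.mem_sm 6 (hm 4)) (Bl.mem_pw hp 9)))
    (Bl.mem_mul (Bl.mem_sm 8 (hm 5)) (Bl.mem_pw hp 14))
  have h3 := Bl.mem_cj (Bl.mem_sub h1 h2)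
  refine Bl.mem_wd (1 / 1000000) h3 ?_
  have hsum : ∑ j ∈ Finset.Ico 2 (J + 1), 2 * ((j : ℂ) - 1) * muc J p w x j * p ^ (tri j - 1) =
      2 * muc J p w x 2 * p ^ 2 + 4 * muc J p w x 3 * p ^ 5 + 6 * muc J p w x 4 * p ^ 9 +
        8 * muc J p w x 5 * p ^ 14 +
        ∑ j ∈ Finset.Ico 6 (J + 1), 2 * ((j : ℂ) - 1) * muc J p w x j * p ^ (tri j - 1) := by
    rw [Finset.sum_eq_sum_Ico_succ_bot (by omega), Finset.sum_eq_sum_Ico_succ_bot (by omega),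
      Finset.sum_eq_sum_Ico_succ_bot (by omega), Finset.sum_eq_sum_Ico_succ_bot (by omega)]
    have t2 : tri 2 - 1 = 2 := rfl
    have t3 : tri (2 + 1) - 1 = 5 := rfl
    have t4 : tri (2 + 1 + 1) - 1 = 9 := rfl
    have t5 : tri (2 + 1 + 1 + 1) - 1 = 14 := rfl
    rw [t2, t3, t4, t5]
    push_cast
    ring
  have e : gc J p w x - conj (-((((7 / 4 : ℚ) : ℝ) : ℂ) * conj p) -
      ((((2 : ℚ) : ℝ) : ℂ) * muc J p w x 2 * p ^ 2 +
        (((4 : ℚ) : ℝ) : ℂ) * muc J p w x 3 * p ^ 5 +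
        (((6 : ℚ) : ℝ) : ℂ) * muc J p w x 4 * p ^ 9 +
        (((8 : ℚ) : ℝ) : ℂ) * muc J p w x 5 * p ^ 14)) =
      -conj (∑ j ∈ Finset.Ico 6 (J + 1), 2 * ((j : ℂ) - 1) * muc J p w x j * p ^ (tri j - 1)) := by
    unfold gc
    rw [hsum, ← map_sub, ← map_neg]
    congr 1
    push_cast
    ring
  have e2 : (((1 / 1000000 : ℚ)) : ℝ) = 1 / 1000000 := by norm_num
  rw [e, norm_neg, RCLike.norm_conj, e2]
  exact ht

private theorem ep_near (B : Bl) (z : ℂ) (r a b : ℚ) (h : B.Mem z) (h1 : B.rad ≤ r)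
    (h2 : (B.re - a) ^ 2 + (B.im - b) ^ 2 ≤ (r - B.rad) ^ 2) :
    ‖z - ⟨(a : ℝ), (b : ℝ)⟩‖ ≤ (r : ℝ) := by
  have h3 : ‖B.ctr - ⟨(a : ℝ), (b : ℝ)⟩‖ ≤ (r : ℝ) - (B.rad : ℝ) := by
    have h4 : (0 : ℝ) ≤ (r : ℝ) - (B.rad : ℝ) := by
      have : (B.rad : ℝ) ≤ (r : ℝ) := by exact_mod_cast h1
      linarith
    have h5 : ((B.re : ℝ) - a) ^ 2 + ((B.im : ℝ) - b) ^ 2 ≤ ((r : ℝ) - (B.rad : ℝ)) ^ 2 := by
      exact_mod_cast h2
    rw [← Real.sqrt_sq h4, Complex.norm_eq_sqrt_sq_add_sq]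
    exact Real.sqrt_le_sqrt h5
  have h6 : z - ⟨(a : ℝ), (b : ℝ)⟩ = (z - B.ctr) + (B.ctr - ⟨(a : ℝ), (b : ℝ)⟩) := by ring
  rw [h6]
  have h7 : ‖z - B.ctr‖ ≤ (B.rad : ℝ) := h
  refine (norm_add_le _ _).trans ?_
  linarith

/-- `crit_loc`, `mem_gB` with `chk_g`, `mem_muB` with `chk_mu3`, `muc_le`. -/
theorem encl (J : ℕ) (hJ : 5 ≤ J) (p : ℂ) (κ w x : ℝ) (h : CritPt J p κ)
    (hk : KKT J p κ w x) : Encl p (muc J p w x) (gc J p w x) := by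
  refine ⟨(crit_loc J hJ p κ h).le, ?_, ?_, muc_le J hJ p κ w x h hk⟩
  · have h1 := ep_near gB (gc J p w x) (8 / 10000) (365932 / 1000000) (-(244302 / 1000000))
      (mem_gB J hJ p κ w x h hk) chk_g.1 (by
        rw [sub_neg_eq_add]
        exact chk_g.2)
    have e : (⟨((365932 / 1000000 : ℚ) : ℝ), ((-(244302 / 1000000) : ℚ) : ℝ)⟩ : ℂ) = gg := by
      unfold gg
      apply Complex.ext
      · simp only
        push_cast
        norm_num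
      · simp only
        push_cast
        norm_num
    have e2 : (((8 / 10000 : ℚ)) : ℝ) = 8 / 10000 := by norm_num
    rw [e, e2] at h1
    exact h1
  · have h1 := ep_near (muB 3) (muc J p w x 3) (5 / 1000) (246606 / 1000000)
      (-(150940 / 1000000)) (mem_muB J hJ p κ w x h hk 3) chk_mu3.1 (by
        rw [sub_neg_eq_add]
        exact chk_mu3.2)
    have e : (⟨((246606 / 1000000 : ℚ) : ℝ), ((-(150940 / 1000000) : ℚ) : ℝ)⟩ : ℂ) = mm3 := by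
      unfold mm3
      apply Complex.ext
      · simp only
        push_cast
        norm_num
      · simp only
        push_cast
        norm_num
    have e2 : (((5 / 1000 : ℚ)) : ℝ) = 5 / 1000 := by norm_num
    rw [e, e2] at h1
    exact h1

end Pool.Agent.MaxTerm8
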