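import Pool.Agent.MaxTerm8.LocN

/-! Third order expansion of `nu`. -/

namespace Pool.Agent.MaxTerm8

open Complex ComplexConjugate

private theorem jtT_w {w ω ρ : ℝ} (hw : |w - 28989 / 100000| ≤ 7 / 10000)
    (hω : |ω| ≤ 225 / 100 * ρ) :
    Jt ρ (w + ω) w ω 0 (2906 / 10000) (225 / 100) 0 0 := by
  obtain ⟨h1, h2⟩ := abs_le.1 hw
  refine ⟨?_, ?_, ?_, ?_⟩
  · rw [Real.norm_eq_abs, abs_le]
    constructor <;> linarith
  · rw [Real.norm_eq_abs]; exact hω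
  · simp
  · simp

private theorem jtT_v {w ω ρ : ℝ} (hw : |w - 28989 / 100000| ≤ 7 / 10000)
    (hω : |ω| ≤ 225 / 100 * ρ) :
    Jt ρ (1 - (w + ω)) (1 - w) (-ω) 0 (7109 / 10000) (225 / 100) 0 0 := by
  obtain ⟨h1, h2⟩ := abs_le.1 hw
  refine ⟨?_, ?_, ?_, ?_⟩
  · rw [Real.norm_eq_abs, abs_le]
    constructor <;> linarith
  · rw [Real.norm_eq_abs, abs_neg]; exact hω
  · simp
  · have e : 1 - (w + ω) - (1 - w) - -ω - 0 = 0 := by ring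
    rw [e]; simp

private theorem jtT_b {x ξ ρ : ℝ} (hx : |x - 27608 / 100000| ≤ 4 / 10000)
    (hξ : |ξ| ≤ 3401 / 1000 * ρ) :
    Jt ρ ((1 + (x + ξ)) / 2) ((1 + x) / 2) (ξ / 2) 0 (6383 / 10000) (17005 / 10000) 0 0 := by
  obtain ⟨h1, h2⟩ := abs_le.1 hx
  refine ⟨?_, ?_, ?_, ?_⟩
  · rw [Real.norm_eq_abs, abs_le]
    constructor <;> linarith
  · rw [Real.norm_eq_abs, abs_div, abs_two]
    linarith
  · simp
  · have e : (1 + (x + ξ)) / 2 - (1 + x) / 2 - ξ / 2 - 0 = 0 := by ring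
    rw [e]; simp

/-- Jets of `w + ω` (`.2906`, `2.25`), `1 - (w + ω)` (`.7109`, `2.25`), `(1 + (x + ξ))/2`
(`.6383`, `1.7005`), `Jt.nsq` for `E0`, `E1`, and products; the third order constant of
`(w+ω) ‖E0‖^2 + (1-(w+ω)) ((1+x+ξ)/2 ‖E1‖^2)` is `479.4`. -/
theorem jetT {w x : ℝ} {p Y0 q0 Y1 q1 qx P1 P2 f0 f1 fx δ E0 E1 : ℂ} {ω ξ : ℝ}
    (h : LocN w x p Y0 q0 Y1 q1 qx P1 P2 f0 f1 fx)
    (hd : Disp x p Y0 q0 Y1 q1 qx P1 P2 δ E0 E1 ω ξ) :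
    |(w + ω) * ‖E0‖ ^ 2 + (1 - (w + ω)) * ((1 + (x + ξ)) / 2) * ‖E1‖ ^ 2 -
      (w * ‖Y0‖ ^ 2 + (1 - w) * ((1 + x) / 2 * ‖Y1‖ ^ 2)) -
      (w * (2 * (conj Y0 * (q0 * δ)).re) + ω * ‖Y0‖ ^ 2 +
        (1 - w) * ((1 + x) / 2 * (2 * (conj Y1 * (2 * P1 * ξ + q1 * δ)).re) + ξ / 2 * ‖Y1‖ ^ 2) -
        ω * ((1 + x) / 2 * ‖Y1‖ ^ 2)) -
      TT w ((1 + x) / 2) (UU x 2) ω ξ p Y0 q0 Y1 q1 qx P1 P2 δ| ≤ 481 * ‖δ‖ ^ 3 := by
  have hρ : 0 ≤ ‖δ‖ := norm_nonneg δ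
  have hr := hd.hδ
  have J0 := Jt.nsq hρ hr (jet_E0 h hd) (by norm_num) (by norm_num) (by norm_num) (by norm_num)
  have J1 := Jt.nsq hρ hr (jet_E1 h hd) (by norm_num) (by norm_num) (by norm_num) (by norm_num)
  have JW := jtT_w h.hw hd.hω
  have JV := jtT_v h.hw hd.hω
  have JB := jtT_b h.hx hd.hξ
  have K0 := Jt.mul hρ hr JW J0 (by norm_num) (by norm_num) (by norm_num) (by norm_num)
    (by norm_num) (by norm_num)
  have K1 := Jt.mul hρ hr JB J1 (by norm_num) (by norm_num) (by norm_num) (by norm_num)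
    (by norm_num) (by norm_num)
  have K2 := Jt.mul hρ hr JV K1 (by norm_num) (by norm_num) (by norm_num) (by norm_num)
    (by norm_num) (by norm_num)
  have K := (Jt.add K0 K2).h3
  rw [Real.norm_eq_abs] at K
  refine le_trans (le_of_eq ?_) (K.trans (mul_le_mul_of_nonneg_right ?_ (by positivity)))
  · congr 1
    unfold TT
    ring
  · norm_num

end Pool.Agent.MaxTerm8
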