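import Pool.Agent.MaxTerm8.LocN

/-! Second order expansion of `zz`. -/

namespace Pool.Agent.MaxTerm8

open Complex ComplexConjugate

private theorem jz_w {w x : ℝ} {p Y0 q0 Y1 q1 qx P1 P2 f0 f1 fx δ E0 E1 : ℂ} {ω ξ : ℝ}
    (h : LocN w x p Y0 q0 Y1 q1 qx P1 P2 f0 f1 fx)
    (hd : Disp x p Y0 q0 Y1 q1 qx P1 P2 δ E0 E1 ω ξ) :
    Jt ‖δ‖ (w + ω) w ω (0 : ℝ) (2906 / 10000) (225 / 100) 0 0 := by
  have h1 := abs_le.1 h.hw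
  refine ⟨?_, ?_, ?_, ?_⟩
  · rw [Real.norm_eq_abs, abs_le]
    constructor <;> linarith [h1.1, h1.2]
  · rw [Real.norm_eq_abs]
    exact hd.hω
  · simp
  · have e : w + ω - w - ω - 0 = 0 := by ring
    rw [e]
    simp

private theorem jz_v {w x : ℝ} {p Y0 q0 Y1 q1 qx P1 P2 f0 f1 fx δ E0 E1 : ℂ} {ω ξ : ℝ}
    (h : LocN w x p Y0 q0 Y1 q1 qx P1 P2 f0 f1 fx)
    (hd : Disp x p Y0 q0 Y1 q1 qx P1 P2 δ E0 E1 ω ξ) :
    Jt ‖δ‖ (1 - (w + ω)) (1 - w) (-ω) (0 : ℝ) (7109 / 10000) (225 / 100) 0 0 := by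
  have h1 := abs_le.1 h.hw
  refine ⟨?_, ?_, ?_, ?_⟩
  · rw [Real.norm_eq_abs, abs_le]
    constructor <;> linarith [h1.1, h1.2]
  · rw [norm_neg, Real.norm_eq_abs]
    exact hd.hω
  · simp
  · have e : 1 - (w + ω) - (1 - w) - -ω - 0 = 0 := by ring
    rw [e]
    simp

private theorem jz_b {w x : ℝ} {p Y0 q0 Y1 q1 qx P1 P2 f0 f1 fx δ E0 E1 : ℂ} {ω ξ : ℝ}
    (h : LocN w x p Y0 q0 Y1 q1 qx P1 P2 f0 f1 fx)
    (hd : Disp x p Y0 q0 Y1 q1 qx P1 P2 δ E0 E1 ω ξ) :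
    Jt ‖δ‖ ((1 + (x + ξ)) / 2) ((1 + x) / 2) (ξ / 2) (0 : ℝ) (6383 / 10000) (17005 / 10000) 0 0 := by
  have h1 := abs_le.1 h.hx
  refine ⟨?_, ?_, ?_, ?_⟩
  · rw [Real.norm_eq_abs, abs_le]
    constructor <;> linarith [h1.1, h1.2]
  · rw [Real.norm_eq_abs, abs_div, abs_two]
    have := hd.hξ
    linarith
  · simp
  · have e : (1 + (x + ξ)) / 2 - (1 + x) / 2 - ξ / 2 - 0 = 0 := by ring
    rw [e]
    simp

private theorem jz_u {w x : ℝ} {p Y0 q0 Y1 q1 qx P1 P2 f0 f1 fx δ E0 E1 : ℂ} {ω ξ : ℝ}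
    (h : LocN w x p Y0 q0 Y1 q1 qx P1 P2 f0 f1 fx)
    (hd : Disp x p Y0 q0 Y1 q1 qx P1 P2 δ E0 E1 ω ξ) :
    Jt ‖δ‖ (UU (x + ξ) 2) (UU x 2) ((8 * x - 2) * ξ) (4 * ξ ^ 2) (12481 / 10000)
      (213 / 1000 * (3401 / 1000)) (4 * (3401 / 1000) ^ 2) 0 := by
  have h1 := abs_le.1 h.hx
  have hξ := hd.hξ
  have hδ := norm_nonneg δ
  have e2 : UU x 2 = 4 * x ^ 2 - 2 * x - 1 := by
    simp only [UU]
    ring
  have e3 : UU (x + ξ) 2 = 4 * (x + ξ) ^ 2 - 2 * (x + ξ) - 1 := by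
    simp only [UU]
    ring
  refine ⟨?_, ?_, ?_, ?_⟩
  · rw [Real.norm_eq_abs, e2, abs_le]
    constructor <;> nlinarith [h1.1, h1.2]
  · rw [Real.norm_eq_abs, abs_mul, mul_assoc]
    refine mul_le_mul ?_ hξ (abs_nonneg _) (by norm_num)
    rw [abs_le]
    constructor <;> linarith [h1.1, h1.2]
  · rw [Real.norm_eq_abs, abs_mul, mul_assoc, ← mul_pow, abs_pow]
    have h4 : |(4 : ℝ)| = 4 := by norm_num
    rw [h4]
    exact mul_le_mul_of_nonneg_left (pow_le_pow_left₀ (abs_nonneg _) hξ 2) (by norm_num)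
  · have e : UU (x + ξ) 2 - UU x 2 - (8 * x - 2) * ξ - 4 * ξ ^ 2 = 0 := by
      rw [e2, e3]
      ring
    rw [e]
    simp

private theorem jz_D {w x : ℝ} {p Y0 q0 Y1 q1 qx P1 P2 f0 f1 fx δ : ℂ}
    (h : LocN w x p Y0 q0 Y1 q1 qx P1 P2 f0 f1 fx) :
    Jt ‖δ‖ (2 * p * δ + δ ^ 2) 0 (2 * p * δ) (δ ^ 2) 0 (5606 / 10000) 1 0 := by
  refine ⟨?_, ?_, ?_, ?_⟩
  · simp
  · rw [norm_mul, norm_mul]
    have h2 : ‖(2 : ℂ)‖ = 2 := by simp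
    rw [h2]
    refine mul_le_mul_of_nonneg_right ?_ (norm_nonneg _)
    have := h.hp
    linarith
  · rw [norm_pow]
    simp
  · have e : 2 * p * δ + δ ^ 2 - 0 - 2 * p * δ - δ ^ 2 = 0 := by ring
    rw [e]
    simp

private theorem jz_c {ρ : ℝ} {z : ℂ} {a : ℝ} (h : ‖z‖ ≤ a) : Jt ρ z z 0 0 a 0 0 0 := by
  refine ⟨h, ?_, ?_, ?_⟩ <;> simp

private theorem jz_f {w x : ℝ} {p Y0 q0 Y1 q1 qx P1 P2 f0 f1 fx δ E0 E1 : ℂ} {ω ξ : ℝ}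
    (h : LocN w x p Y0 q0 Y1 q1 qx P1 P2 f0 f1 fx)
    (hd : Disp x p Y0 q0 Y1 q1 qx P1 P2 δ E0 E1 ω ξ) (fX : ℂ)
    (hfX : ‖fX - f1 - fx * ξ‖ ≤ 1421 / 1000 * |ξ| ^ 2) :
    Jt ‖δ‖ fX f1 (fx * ξ) (fX - f1 - fx * ξ) (1975 / 10000) (218 / 10000 * (3401 / 1000))
      (1421 / 1000 * (3401 / 1000) ^ 2) 0 := by
  have hξ := hd.hξ
  have hδ := norm_nonneg δ
  refine ⟨h.hf1, ?_, ?_, ?_⟩
  · rw [norm_mul, Complex.norm_real, Real.norm_eq_abs, mul_assoc]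
    exact mul_le_mul h.hfx hξ (abs_nonneg _) (by norm_num)
  · refine hfX.trans ?_
    rw [mul_assoc, ← mul_pow]
    exact mul_le_mul_of_nonneg_left (pow_le_pow_left₀ (abs_nonneg _) hξ 2) (by norm_num)
  · have e : fX - f1 - fx * ξ - (fX - f1 - fx * ξ) = 0 := by ring
    rw [e]
    simp

/-- Jets: `λ2' = (w+ω) conj E0 + (1-(w+ω)) ((1+x+ξ)/2) U_2(x+ξ) conj E1` has constants
`1.7090, 14.896, 90.44, 487.1` (`U_2(x+ξ) = U_2(x) + (8x-2) ξ + 4 ξ^2`, constants `1.2481`,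
`.213 * 3.401`, `4 * 3.401^2`, `0`); `2 λ2' (2pδ + δ^2)`: `0, 1.9161, 20.12, 134.9`;
`N = (w+ω) conj E0 f0 + (1-(w+ω)) ((1+x+ξ)/2) conj E1 fX` with `fX = f1 + fx ξ + O(ρ^2)`
(`.1975, .0218*3.401, 16.437`): `.2726, 2.337, 22.87, 148.6`. Total second order
`20.12 + 22.87 + .00503 * (134.9 + 148.6) ≤ 44.5`. -/
theorem jetZ {w x : ℝ} {p Y0 q0 Y1 q1 qx P1 P2 f0 f1 fx δ E0 E1 : ℂ} {ω ξ : ℝ}
    (h : LocN w x p Y0 q0 Y1 q1 qx P1 P2 f0 f1 fx)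
    (hd : Disp x p Y0 q0 Y1 q1 qx P1 P2 δ E0 E1 ω ξ) (fX μ2 : ℂ)
    (hfX : ‖fX - f1 - fx * ξ‖ ≤ 1421 / 1000 * |ξ| ^ 2)
    (hμ : μ2 = w * conj Y0 + ((1 - w) * ((1 + x) / 2) * UU x 2 : ℝ) * conj Y1) :
    ‖2 * (((w + ω : ℝ) : ℂ) * conj E0 + (((1 - (w + ω)) * ((1 + (x + ξ)) / 2) * UU (x + ξ) 2 : ℝ) : ℂ) *
        conj E1) * (2 * p * δ + δ ^ 2) + (9 / 20 : ℝ) * conj δ +
      ((((w + ω : ℝ) : ℂ) * (conj E0 * f0) + ((1 - (w + ω) : ℝ) : ℂ) * (((1 + (x + ξ)) / 2 : ℝ) : ℂ) *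
        (conj E1 * fX)) -
      ((w : ℂ) * (conj Y0 * f0) + ((1 - w : ℝ) : ℂ) * (((1 + x) / 2 : ℝ) : ℂ) * (conj Y1 * f1))) -
      Z1 w ((1 + x) / 2) ω ξ p μ2 Y0 q0 Y1 q1 P1 f0 f1 fx δ‖ ≤ 45 * ‖δ‖ ^ 2 := by
  have hρ : 0 ≤ ‖δ‖ := norm_nonneg δ
  have hr := hd.hδ
  have jw := (jz_w h hd).ofReal
  have jv := jz_v h hd
  have jb := jz_b h hd
  have ju := jz_u h hd
  have jD := jz_D (δ := δ) h
  have jf := jz_f h hd fX hfX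
  have j0 := (jet_E0 h hd).cj
  have j1 := (jet_E1 h hd).cj
  -- real product
  have jvb := Jt.mul hρ hr jv jb (by norm_num) le_rfl le_rfl (by norm_num) le_rfl le_rfl
  have jvbu := (Jt.mul hρ hr jvb ju (by norm_num) (by norm_num) (by norm_num) (by norm_num)
    (by norm_num) le_rfl).ofReal
  -- lambda
  have jA := Jt.mul hρ hr jw j0 (by norm_num) le_rfl le_rfl (by norm_num) (by norm_num) le_rfl
  have jB := Jt.mul hρ hr jvbu j1 (by norm_num) (by norm_num) (by norm_num) (by norm_num)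
    (by norm_num) (by norm_num)
  have jL := (Jt.add jA jB).mono (b0 := 1709 / 1000) (b1 := 14896 / 1000) (b2 := 9044 / 100)
    (b3 := 4871 / 10) hρ (by norm_num) (by norm_num) (by norm_num) (by norm_num)
  have jP := Jt.mul hρ hr jL jD (by norm_num) (by norm_num) (by norm_num) (by norm_num)
    (by norm_num) le_rfl
  have bP := (Jt.sub1 hρ hr (jP.mono (b0 := 0) (b1 := 1) (b2 := 1006 / 100) (b3 := 6745 / 100) hρ
    (by norm_num) (by norm_num) (by norm_num) (by norm_num)) (by norm_num))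
  -- N
  have jN0 := Jt.mul hρ hr jw (Jt.mul hρ hr j0 (jz_c h.hf0) (by norm_num) (by norm_num) le_rfl
    le_rfl le_rfl le_rfl) (by norm_num) le_rfl le_rfl (by norm_num) (by norm_num) (by norm_num)
  have jN1 := Jt.mul hρ hr (Jt.mul hρ hr jv.ofReal jb.ofReal (by norm_num) le_rfl le_rfl
    (by norm_num) le_rfl le_rfl) (Jt.mul hρ hr j1 jf (by norm_num) (by norm_num) (by norm_num)
    (by norm_num) (by norm_num) le_rfl) (by norm_num) (by norm_num) (by norm_num) (by norm_num)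
    (by norm_num) (by norm_num)
  have bN := (Jt.sub1 hρ hr ((Jt.add jN0 jN1).mono (b0 := 1) (b1 := 3) (b2 := 2287 / 100)
    (b3 := 1486 / 10) hρ (by norm_num) (by norm_num) (by norm_num) (by norm_num)) (by norm_num))
  have key : ∀ (A B : ℂ) (a b : ℝ), ‖A‖ ≤ a * ‖δ‖ ^ 2 → ‖B‖ ≤ b * ‖δ‖ ^ 2 → 2 * a + b ≤ 45 →
      ‖2 * A + B‖ ≤ 45 * ‖δ‖ ^ 2 := by
    intro A B a b hA hB hab
    have h2 : ‖(2 : ℂ) * A‖ = 2 * ‖A‖ := by rw [norm_mul]; simp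
    have h3 := norm_add_le (2 * A) B
    rw [h2] at h3
    have h4 : (2 * a + b) * ‖δ‖ ^ 2 ≤ 45 * ‖δ‖ ^ 2 :=
      mul_le_mul_of_nonneg_right hab (by positivity)
    nlinarith
  refine le_trans (le_of_eq (congrArg _ ?_)) (key _ _ _ _ bP bN (by norm_num))
  rw [hμ]
  unfold Z1
  simp only [map_add, map_mul, map_ofNat, Complex.conj_ofReal, Complex.ofReal_add,
    Complex.ofReal_sub, Complex.ofReal_mul, Complex.ofReal_div, Complex.ofReal_one,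
    Complex.ofReal_ofNat, Complex.ofReal_neg]
  ring

end Pool.Agent.MaxTerm8
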