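import Pool.Agent.MaxTerm8.Defs

/-! Elimination of `u`, `v` and expansion in `d`. -/

namespace Pool.Agent.MaxTerm8

open Complex ComplexConjugate

private theorem nsq (z : ℂ) : ‖z‖ ^ 2 = z.re ^ 2 + z.im ^ 2 := by
  rw [Complex.sq_norm, Complex.normSq_apply]
  ring

private theorem complete_sq (z x : ℂ) (T : ℝ) (hT : 0 < T) :
    -(‖z‖ ^ 2 / (4 * T)) ≤ (z * x).re + T * ‖x‖ ^ 2 := by
  have h1 : (z * x).re + T * ‖x‖ ^ 2 + ‖z‖ ^ 2 / (4 * T) =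
      ((2 * T * x.re + z.re) ^ 2 + (2 * T * x.im - z.im) ^ 2) / (4 * T) := by
    rw [nsq, nsq, Complex.mul_re]
    field_simp
    ring
  have h2 : 0 ≤ ((2 * T * x.re + z.re) ^ 2 + (2 * T * x.im - z.im) ^ 2) / (4 * T) := by positivity
  linarith

private theorem par (A B : ℂ) : ‖A + B‖ ^ 2 + ‖A - B‖ ^ 2 = 2 * (‖A‖ ^ 2 + ‖B‖ ^ 2) := by
  rw [nsq, nsq, nsq, nsq]
  simp only [Complex.add_re, Complex.add_im, Complex.sub_re, Complex.sub_im]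
  ring

private theorem phi_id (l0 l1 l2 t0 t1 t2 g o : ℂ) (ν σ1 σ2 S m r0 r1 rd rcc e0 e1 : ℝ)
    (c d u v : ℂ) :
    Phi l0 l1 l2 t0 t1 t2 g o ν σ1 σ2 S m r0 r1 rd rcc e0 e1 (c + d) (c - d) u v =
    Av l0 l1 l2 t0 t1 t2 g o ν S m r0 r1 rcc e0 e1 c + ‖zz l2 t2 g o S m c‖ ^ 2 / (2 * (S - r1)) +
      (4 * l2 * o * d ^ 2).re + (4 * σ1 + 16 * σ2 * (c * o).re - 2 * S + 2 * m - 2 * r0 - rd) * ‖d‖ ^ 2 +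
      ((((zz l2 t2 g o S m c + 2 * l2 * d ^ 2 + 8 * σ2 * c * (‖d‖ ^ 2 : ℝ)) +
        (4 * l2 * c * d + kap σ2 m c * conj d + 4 * σ2 * d * (‖d‖ ^ 2 : ℝ))) * (u - o)).re +
        (S - r1) * ‖u - o‖ ^ 2) +
      ((((zz l2 t2 g o S m c + 2 * l2 * d ^ 2 + 8 * σ2 * c * (‖d‖ ^ 2 : ℝ)) -
        (4 * l2 * c * d + kap σ2 m c * conj d + 4 * σ2 * d * (‖d‖ ^ 2 : ℝ))) * (v - o)).re +
        (S - r1) * ‖v - o‖ ^ 2) := by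
  have e1' : (c + d + (c - d)) / 2 = c := by ring
  unfold Phi Av
  rw [e1']
  generalize ‖zz l2 t2 g o S m c‖ ^ 2 / (2 * (S - r1)) = Z
  generalize e1 * ‖c - o‖ = E
  have hd : ((‖d‖ ^ 2 : ℝ) : ℂ) = ((d.re ^ 2 + d.im ^ 2 : ℝ) : ℂ) := by rw [nsq]
  rw [hd]
  simp only [nsq]
  unfold zz kap
  simp only [Complex.add_re, Complex.add_im, Complex.sub_re, Complex.sub_im, Complex.mul_re,
    Complex.mul_im, pow_two, Complex.conj_re, Complex.conj_im, Complex.ofReal_re,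
    Complex.ofReal_im, Complex.re_ofNat, Complex.im_ofNat]
  ring

/-- Put `a = c + d`, `b = c - d`, `u = o + x`, `v = o + y`, `S' = S - r1 > 0`. Then (exact identity)
`Phi = (Av c + ‖zz c‖^2/(2S') ) + Re (z_u x) + Re (z_v y) + S' (‖x‖^2 + ‖y‖^2) + Re (4 l2 o d^2) +
(4 σ1 + 16 σ2 Re (c o) - 2 S + 2 m - 2 r0 - rd) ‖d‖^2`,
`z_u = 2 l2 a^2 + 4 σ2 conj d a^2 + conj g + m conj a + 2 S conj o + t2`,
`z_v = 2 l2 b^2 - 4 σ2 conj d b^2 + conj g + m conj b + 2 S conj o + t2`.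
`Re (z x) + S' ‖x‖^2 ≥ -‖z‖^2/(4S')`; `‖z_u‖^2 + ‖z_v‖^2 = 2 ‖z_e‖^2 + 2 ‖z_o‖^2`,
`z_e = zz c + 2 l2 d^2 + 8 σ2 c ‖d‖^2`, `z_o = 4 l2 c d + kap c * conj d + 4 σ2 d ‖d‖^2`. -/
theorem phi_elim (l0 l1 l2 t0 t1 t2 g o : ℂ) (ν σ1 σ2 S m r0 r1 rd rcc e0 e1 : ℝ)
    (hS : 0 < S - r1) (c d u v : ℂ) :
    Av l0 l1 l2 t0 t1 t2 g o ν S m r0 r1 rcc e0 e1 c + ‖zz l2 t2 g o S m c‖ ^ 2 / (2 * (S - r1)) +
      (4 * l2 * o * d ^ 2).re + (4 * σ1 + 16 * σ2 * (c * o).re - 2 * S + 2 * m - 2 * r0 - rd) * ‖d‖ ^ 2 -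
      (‖zz l2 t2 g o S m c + 2 * l2 * d ^ 2 + 8 * σ2 * c * (‖d‖ ^ 2 : ℝ)‖ ^ 2 +
        ‖4 * l2 * c * d + kap σ2 m c * conj d + 4 * σ2 * d * (‖d‖ ^ 2 : ℝ)‖ ^ 2) / (2 * (S - r1)) ≤
    Phi l0 l1 l2 t0 t1 t2 g o ν σ1 σ2 S m r0 r1 rd rcc e0 e1 (c + d) (c - d) u v := by
  rw [phi_id]
  generalize zz l2 t2 g o S m c + 2 * l2 * d ^ 2 + 8 * σ2 * c * (‖d‖ ^ 2 : ℝ) = ze
  generalize 4 * l2 * c * d + kap σ2 m c * conj d + 4 * σ2 * d * (‖d‖ ^ 2 : ℝ) = zo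
  have h1 := complete_sq (ze + zo) (u - o) (S - r1) hS
  have h2 := complete_sq (ze - zo) (v - o) (S - r1) hS
  have h3 : ‖ze + zo‖ ^ 2 / (4 * (S - r1)) + ‖ze - zo‖ ^ 2 / (4 * (S - r1)) =
      (‖ze‖ ^ 2 + ‖zo‖ ^ 2) / (2 * (S - r1)) := by
    rw [← add_div, par]
    have : S - r1 ≠ 0 := hS.ne'
    field_simp
    ring
  linarith

private theorem ze_sq (z l c d : ℂ) (σ2 L2 s2 cm : ℝ) (hL2 : ‖l‖ ≤ L2) (hs2 : |σ2| ≤ s2)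
    (hcm : ‖c‖ ≤ cm) :
    ‖z + 2 * l * d ^ 2 + 8 * σ2 * c * (‖d‖ ^ 2 : ℝ)‖ ^ 2 ≤
      ‖z‖ ^ 2 + (4 * conj z * l * d ^ 2).re + 16 * σ2 * (conj z * c).re * ‖d‖ ^ 2 +
        (2 * L2 + 8 * s2 * cm) ^ 2 * (‖d‖ ^ 2 * ‖d‖ ^ 2) := by
  have h1 : ‖2 * l * d ^ 2 + 8 * σ2 * c * (‖d‖ ^ 2 : ℝ)‖ ≤ (2 * L2 + 8 * s2 * cm) * ‖d‖ ^ 2 := by
    refine (norm_add_le _ _).trans ?_
    have h2 : ‖2 * l * d ^ 2‖ = 2 * ‖l‖ * ‖d‖ ^ 2 := by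
      rw [norm_mul, norm_mul, norm_pow]
      norm_num
    have h3 : ‖8 * (σ2 : ℂ) * c * (‖d‖ ^ 2 : ℝ)‖ = 8 * (|σ2| * ‖c‖) * ‖d‖ ^ 2 := by
      have h8 : ‖(8 : ℂ)‖ = 8 := by norm_num
      rw [norm_mul, norm_mul, norm_mul, Complex.norm_real, Complex.norm_real, Real.norm_eq_abs,
        Real.norm_of_nonneg (by positivity), h8]
      ring
    rw [h2, h3]
    have h4 : |σ2| * ‖c‖ ≤ s2 * cm :=
      mul_le_mul hs2 hcm (norm_nonneg _) ((abs_nonneg _).trans hs2)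
    have h5 : 0 ≤ ‖d‖ ^ 2 := by positivity
    nlinarith [mul_le_mul_of_nonneg_right hL2 h5, mul_le_mul_of_nonneg_right h4 h5]
  have h6 : ‖z + (2 * l * d ^ 2 + 8 * σ2 * c * (‖d‖ ^ 2 : ℝ))‖ ^ 2 =
      ‖z‖ ^ 2 + 2 * (conj z * (2 * l * d ^ 2 + 8 * σ2 * c * (‖d‖ ^ 2 : ℝ))).re +
        ‖2 * l * d ^ 2 + 8 * σ2 * c * (‖d‖ ^ 2 : ℝ)‖ ^ 2 := by
    generalize 2 * l * d ^ 2 + 8 * σ2 * c * (‖d‖ ^ 2 : ℝ) = w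
    rw [nsq, nsq, nsq]
    simp only [Complex.add_re, Complex.add_im, Complex.mul_re, Complex.conj_re, Complex.conj_im]
    ring
  have h7 : 2 * (conj z * (2 * l * d ^ 2 + 8 * σ2 * c * (‖d‖ ^ 2 : ℝ))).re =
      (4 * conj z * l * d ^ 2).re + 16 * σ2 * (conj z * c).re * ‖d‖ ^ 2 := by
    generalize ‖d‖ ^ 2 = D
    simp only [Complex.add_re, Complex.add_im, Complex.mul_re, Complex.mul_im, Complex.conj_re,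
      Complex.conj_im, Complex.ofReal_re, Complex.ofReal_im, Complex.re_ofNat, Complex.im_ofNat]
    ring
  have h8 : ‖2 * l * d ^ 2 + 8 * σ2 * c * (‖d‖ ^ 2 : ℝ)‖ ^ 2 ≤
      (2 * L2 + 8 * s2 * cm) ^ 2 * (‖d‖ ^ 2 * ‖d‖ ^ 2) := by
    refine (pow_le_pow_left₀ (norm_nonneg _) h1 2).trans (le_of_eq ?_)
    ring
  rw [add_assoc, h6, h7]
  linarith

private theorem zo_sq (l c d κ : ℂ) (σ2 L2 s2 cm km : ℝ) (hL2 : ‖l‖ ≤ L2) (hs2 : |σ2| ≤ s2)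
    (hcm : ‖c‖ ≤ cm) (hkm : ‖κ‖ ≤ km) :
    ‖4 * l * c * d + κ * conj d + 4 * σ2 * d * (‖d‖ ^ 2 : ℝ)‖ ^ 2 ≤
      (16 * ‖l‖ ^ 2 * ‖c‖ ^ 2 + ‖κ‖ ^ 2) * ‖d‖ ^ 2 + (8 * l * c * conj κ * d ^ 2).re +
        8 * s2 * (4 * L2 * cm + km) * (‖d‖ ^ 2 * ‖d‖ ^ 2) +
        16 * s2 ^ 2 * (‖d‖ ^ 2 * ‖d‖ ^ 2 * ‖d‖ ^ 2) := by
  have hd0 := norm_nonneg d
  have hs0 : 0 ≤ s2 := (abs_nonneg _).trans hs2
  have hL0 : 0 ≤ L2 := (norm_nonneg _).trans hL2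
  have hA : ‖4 * l * c * d + κ * conj d‖ ^ 2 =
      (16 * ‖l‖ ^ 2 * ‖c‖ ^ 2 + ‖κ‖ ^ 2) * ‖d‖ ^ 2 + (8 * l * c * conj κ * d ^ 2).re := by
    rw [nsq, nsq, nsq, nsq, nsq]
    simp only [Complex.add_re, Complex.add_im, Complex.mul_re, Complex.mul_im, Complex.conj_re,
      Complex.conj_im, Complex.re_ofNat, Complex.im_ofNat, pow_two]
    ring
  have hAn : ‖4 * l * c * d + κ * conj d‖ ≤ (4 * L2 * cm + km) * ‖d‖ := by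
    refine (norm_add_le _ _).trans ?_
    have h2 : ‖4 * l * c * d‖ = 4 * (‖l‖ * ‖c‖) * ‖d‖ := by
      have h8 : ‖(4 : ℂ)‖ = 4 := by norm_num
      rw [norm_mul, norm_mul, norm_mul, h8]
      ring
    have h3 : ‖κ * conj d‖ = ‖κ‖ * ‖d‖ := by
      rw [norm_mul, RCLike.norm_conj]
    rw [h2, h3]
    have h4 : ‖l‖ * ‖c‖ ≤ L2 * cm := mul_le_mul hL2 hcm (norm_nonneg _) hL0
    nlinarith [mul_le_mul_of_nonneg_right h4 hd0, mul_le_mul_of_nonneg_right hkm hd0]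
  have hB : ‖4 * (σ2 : ℂ) * d * (‖d‖ ^ 2 : ℝ)‖ ≤ 4 * s2 * ‖d‖ * ‖d‖ ^ 2 := by
    have h3 : ‖4 * (σ2 : ℂ) * d * (‖d‖ ^ 2 : ℝ)‖ = |σ2| * (4 * ‖d‖ * ‖d‖ ^ 2) := by
      have h8 : ‖(4 : ℂ)‖ = 4 := by norm_num
      rw [norm_mul, norm_mul, norm_mul, Complex.norm_real, Complex.norm_real, Real.norm_eq_abs,
        Real.norm_of_nonneg (by positivity), h8]
      ring
    rw [h3]
    refine (mul_le_mul_of_nonneg_right hs2 (by positivity)).trans (le_of_eq ?_)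
    ring
  have h1 : ‖4 * l * c * d + κ * conj d + 4 * σ2 * d * (‖d‖ ^ 2 : ℝ)‖ ^ 2 ≤
      ‖4 * l * c * d + κ * conj d‖ ^ 2 + 2 * (‖4 * l * c * d + κ * conj d‖ *
        ‖4 * (σ2 : ℂ) * d * (‖d‖ ^ 2 : ℝ)‖) + ‖4 * (σ2 : ℂ) * d * (‖d‖ ^ 2 : ℝ)‖ ^ 2 := by
    refine (pow_le_pow_left₀ (norm_nonneg _) (norm_add_le _ _) 2).trans (le_of_eq ?_)
    ring
  have h2 : ‖4 * l * c * d + κ * conj d‖ * ‖4 * (σ2 : ℂ) * d * (‖d‖ ^ 2 : ℝ)‖ ≤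
      (4 * L2 * cm + km) * ‖d‖ * (4 * s2 * ‖d‖ * ‖d‖ ^ 2) :=
    mul_le_mul hAn hB (norm_nonneg _) ((norm_nonneg _).trans hAn)
  have h3 : ‖4 * (σ2 : ℂ) * d * (‖d‖ ^ 2 : ℝ)‖ ^ 2 ≤ (4 * s2 * ‖d‖ * ‖d‖ ^ 2) ^ 2 :=
    pow_le_pow_left₀ (norm_nonneg _) hB 2
  rw [hA] at h1
  have h4 : (4 * L2 * cm + km) * ‖d‖ * (4 * s2 * ‖d‖ * ‖d‖ ^ 2) =
      4 * s2 * (4 * L2 * cm + km) * (‖d‖ ^ 2 * ‖d‖ ^ 2) := by ring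
  have h5 : (4 * s2 * ‖d‖ * ‖d‖ ^ 2) ^ 2 = 16 * s2 ^ 2 * (‖d‖ ^ 2 * ‖d‖ ^ 2 * ‖d‖ ^ 2) := by ring
  rw [h4] at h2
  rw [h5] at h3
  linarith

/-- Expand the two squares in `phi_elim`:
`‖z_e‖^2 ≤ ‖z‖^2 + Re ((4 conj z l2) d^2) + 16 σ2 Re (conj z c) ‖d‖^2 + (2 L2 + 8 s2 cm)^2 ‖d‖^4`,
`‖z_o‖^2 ≤ (16 ‖l2‖^2‖c‖^2 + ‖kap‖^2) ‖d‖^2 + Re (8 l2 c conj kap d^2) + 8 s2 (4 L2 cm + km) ‖d‖^4 +
16 s2^2 ‖d‖^6`. -/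
theorem phi_lower (l0 l1 l2 t0 t1 t2 g o : ℂ) (ν σ1 σ2 S m r0 r1 rd rcc e0 e1 : ℝ)
    (hS : 0 < S - r1) (c d u v : ℂ) (L2 s2 cm km D2 : ℝ) (hL2 : ‖l2‖ ≤ L2) (hs2 : |σ2| ≤ s2)
    (hcm : ‖c‖ ≤ cm) (hkm : ‖kap σ2 m c‖ ≤ km) (hD2 : ‖d‖ ^ 2 ≤ D2) :
    Av l0 l1 l2 t0 t1 t2 g o ν S m r0 r1 rcc e0 e1 c + W0v l2 t2 g o σ1 σ2 S m r0 r1 rd c * ‖d‖ ^ 2 +
      (W2v l2 t2 g o σ2 S m r1 c * d ^ 2).re -
      ((2 * L2 + 8 * s2 * cm) ^ 2 + 8 * s2 * (4 * L2 * cm + km) + 16 * s2 ^ 2 * D2) * D2 /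
        (2 * (S - r1)) * ‖d‖ ^ 2 ≤
    Phi l0 l1 l2 t0 t1 t2 g o ν σ1 σ2 S m r0 r1 rd rcc e0 e1 (c + d) (c - d) u v := by
  refine le_trans ?_ (phi_elim l0 l1 l2 t0 t1 t2 g o ν σ1 σ2 S m r0 r1 rd rcc e0 e1 hS c d u v)
  have hs0 : 0 ≤ s2 := (abs_nonneg _).trans hs2
  have hL0 : 0 ≤ L2 := (norm_nonneg _).trans hL2
  have hc0 : 0 ≤ cm := (norm_nonneg _).trans hcm
  have hk0 : 0 ≤ km := (norm_nonneg _).trans hkm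
  have h1 := ze_sq (zz l2 t2 g o S m c) l2 c d σ2 L2 s2 cm hL2 hs2 hcm
  have h2 := zo_sq l2 c d (kap σ2 m c) σ2 L2 s2 cm km hL2 hs2 hcm hkm
  set z := zz l2 t2 g o S m c with hz
  set κ := kap σ2 m c with hκ
  set D := ‖d‖ ^ 2 with hD
  have hD0 : 0 ≤ D := by positivity
  have hDD : D * D ≤ D2 * D := mul_le_mul_of_nonneg_right hD2 hD0
  have hDDD : D * D * D ≤ D2 * D2 * D := by
    have h3 : D * D * D ≤ D2 * D * D := mul_le_mul_of_nonneg_right hDD hD0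
    have h4 : D2 * D * D ≤ D2 * (D2 * D) := by
      rw [mul_assoc]
      exact mul_le_mul_of_nonneg_left hDD (hD0.trans hD2)
    linarith
  have hT : 0 < 2 * (S - r1) := by linarith
  have h3 : (2 * L2 + 8 * s2 * cm) ^ 2 * (D * D) ≤ (2 * L2 + 8 * s2 * cm) ^ 2 * (D2 * D) :=
    mul_le_mul_of_nonneg_left hDD (by positivity)
  have h4 : 8 * s2 * (4 * L2 * cm + km) * (D * D) ≤ 8 * s2 * (4 * L2 * cm + km) * (D2 * D) :=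
    mul_le_mul_of_nonneg_left hDD (by positivity)
  have h5 : 16 * s2 ^ 2 * (D * D * D) ≤ 16 * s2 ^ 2 * (D2 * D2 * D) :=
    mul_le_mul_of_nonneg_left hDDD (by positivity)
  have h6 : (‖z + 2 * l2 * d ^ 2 + 8 * σ2 * c * (D : ℝ)‖ ^ 2 +
      ‖4 * l2 * c * d + κ * conj d + 4 * σ2 * d * (D : ℝ)‖ ^ 2) / (2 * (S - r1)) ≤
      (‖z‖ ^ 2 + (4 * conj z * l2 * d ^ 2).re + 16 * σ2 * (conj z * c).re * D +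
        (16 * ‖l2‖ ^ 2 * ‖c‖ ^ 2 + ‖κ‖ ^ 2) * D + (8 * l2 * c * conj κ * d ^ 2).re +
        ((2 * L2 + 8 * s2 * cm) ^ 2 + 8 * s2 * (4 * L2 * cm + km) + 16 * s2 ^ 2 * D2) * D2 * D) /
        (2 * (S - r1)) := by
    refine div_le_div_of_nonneg_right ?_ hT.le
    linarith
  have h7 : (W2v l2 t2 g o σ2 S m r1 c * d ^ 2).re =
      (4 * l2 * o * d ^ 2).re - ((4 * conj z * l2 * d ^ 2).re + (8 * l2 * c * conj κ * d ^ 2).re) /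
        (2 * (S - r1)) := by
    unfold W2v
    rw [← hz, ← hκ]
    have h8 : (4 * l2 * o - (4 * conj z * l2 + 8 * l2 * c * conj κ) / (2 * ((S : ℂ) - (r1 : ℂ)))) *
        d ^ 2 = 4 * l2 * o * d ^ 2 - (4 * conj z * l2 * d ^ 2 + 8 * l2 * c * conj κ * d ^ 2) /
          ((2 * (S - r1) : ℝ) : ℂ) := by
      push_cast
      ring
    rw [h8, Complex.sub_re, Complex.div_ofReal_re, Complex.add_re]
  have h9 : W0v l2 t2 g o σ1 σ2 S m r0 r1 rd c * D =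
      (4 * σ1 + 16 * σ2 * (c * o).re - 2 * S + 2 * m - 2 * r0 - rd) * D -
      (16 * σ2 * (conj z * c).re * D + (16 * ‖l2‖ ^ 2 * ‖c‖ ^ 2 + ‖κ‖ ^ 2) * D) / (2 * (S - r1)) := by
    unfold W0v
    rw [← hz, ← hκ]
    ring
  rw [h7, h9]
  have h10 : (‖z‖ ^ 2 + (4 * conj z * l2 * d ^ 2).re + 16 * σ2 * (conj z * c).re * D +
        (16 * ‖l2‖ ^ 2 * ‖c‖ ^ 2 + ‖κ‖ ^ 2) * D + (8 * l2 * c * conj κ * d ^ 2).re +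
        ((2 * L2 + 8 * s2 * cm) ^ 2 + 8 * s2 * (4 * L2 * cm + km) + 16 * s2 ^ 2 * D2) * D2 * D) /
        (2 * (S - r1)) = ‖z‖ ^ 2 / (2 * (S - r1)) +
        ((4 * conj z * l2 * d ^ 2).re + (8 * l2 * c * conj κ * d ^ 2).re) / (2 * (S - r1)) +
        (16 * σ2 * (conj z * c).re * D + (16 * ‖l2‖ ^ 2 * ‖c‖ ^ 2 + ‖κ‖ ^ 2) * D) / (2 * (S - r1)) +
        ((2 * L2 + 8 * s2 * cm) ^ 2 + 8 * s2 * (4 * L2 * cm + km) + 16 * s2 ^ 2 * D2) * D2 /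
        (2 * (S - r1)) * D := by ring
  rw [h10] at h6
  linarith

end Pool.Agent.MaxTerm8
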