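import Pool.Agent.MaxTerm8.QuadBall
import Pool.Agent.MaxTerm8.PhiLower
import Pool.Agent.MaxTerm8.Tails

/-! Numerical bounds for the exact ball: sine moments, the error term, the quadratic form in `d`. -/

namespace Pool.Agent.MaxTerm8

open Complex ComplexConjugate

private theorem sg1_eq (w x : ℝ) : sg w x 1 = (1 - w) * ((1 - x) * (2 * x + 1) ^ 2 / 2) := by
  simp only [sg, VV]; ring

private theorem sg2_eq (w x : ℝ) : sg w x 2 = (1 - w) * ((1 - x) * (2 * x + 1) / 2) * (4 * x ^ 2 + 2 * x - 1) := by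
  simp only [sg, VV]; ring

private theorem sg3_eq (w x : ℝ) : sg w x 3 =
    (1 - w) * ((1 - x) * (2 * x + 1) / 2) * (8 * x ^ 3 + 4 * x ^ 2 - 4 * x - 1) := by
  simp only [sg, VV]; ring

/-- `VV x 1 = 2x+1`, `VV x 2 = 4x^2+2x-1`, `VV x 3 = 8x^3+4x^2-4x-1`. Worst cases:
`.69808 * .85328 = .59566`, `.0875`, `.672`. -/
theorem sig_bounds (w x : ℝ) (hw : |w - 28989 / 100000| ≤ 1203 / 100000)
    (hx : |x - 27608 / 100000| ≤ 1752 / 100000) :
    595 / 1000 ≤ sg w x 1 ∧ |sg w x 2| ≤ 9 / 100 ∧ |sg w x 3| ≤ 7 / 10 := by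
  rw [abs_le] at hw hx
  obtain ⟨hw1, hw2⟩ := hw
  obtain ⟨hx1, hx2⟩ := hx
  have hx3 : 25856 / 100000 ≤ x := by linarith
  have hx4 : x ≤ 29360 / 100000 := by linarith
  have hw3 : 69808 / 100000 ≤ 1 - w := by linarith
  have hw4 : 1 - w ≤ 72214 / 100000 := by linarith
  have hA : 17065 / 10000 ≤ (1 - x) * (2 * x + 1) ^ 2 := by
    nlinarith [mul_nonneg (sub_nonneg.2 hx3) (sub_nonneg.2 hx4), mul_nonneg (mul_nonneg (sub_nonneg.2 hx3) (sub_nonneg.2 hx4)) (sub_nonneg.2 hx3), mul_nonneg (mul_nonneg (sub_nonneg.2 hx3) (sub_nonneg.2 hx4)) (sub_nonneg.2 hx4)]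
  have hB : (1 - x) * (2 * x + 1) / 2 ≤ 5625 / 10000 := by nlinarith [sq_nonneg (x - 1 / 4)]
  have hB0 : 0 ≤ (1 - x) * (2 * x + 1) / 2 := by
    have : 0 ≤ (1 - x) * (2 * x + 1) := mul_nonneg (by linarith) (by linarith)
    linarith
  have hV2 : |4 * x ^ 2 + 2 * x - 1| ≤ 2155 / 10000 := by
    rw [abs_le]; constructor <;> nlinarith
  have hV3 : |8 * x ^ 3 + 4 * x ^ 2 - 4 * x - 1| ≤ 17 / 10 := by
    rw [abs_le]; constructor
    · nlinarith [mul_nonneg (mul_nonneg (sub_nonneg.2 hx3) (sub_nonneg.2 hx4)) (sub_nonneg.2 hx3), mul_nonneg (sub_nonneg.2 hx3) (sub_nonneg.2 hx4), mul_nonneg (mul_nonneg (sub_nonneg.2 hx3) (sub_nonneg.2 hx3)) (sub_nonneg.2 hx3)]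
    · nlinarith [mul_nonneg (mul_nonneg (sub_nonneg.2 hx3) (sub_nonneg.2 hx4)) (sub_nonneg.2 hx3), mul_nonneg (sub_nonneg.2 hx3) (sub_nonneg.2 hx4), mul_nonneg (mul_nonneg (sub_nonneg.2 hx4) (sub_nonneg.2 hx4)) (sub_nonneg.2 hx4)]
  have hP : |(1 - w) * ((1 - x) * (2 * x + 1) / 2)| ≤ 72214 / 100000 * (5625 / 10000) := by
    rw [abs_mul, abs_of_nonneg (by linarith : (0:ℝ) ≤ 1 - w), abs_of_nonneg hB0]
    exact mul_le_mul hw4 hB hB0 (by norm_num)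
  refine ⟨?_, ?_, ?_⟩
  · rw [sg1_eq]
    have := mul_le_mul hw3 (by linarith : (17065 / 20000 : ℝ) ≤ (1 - x) * (2 * x + 1) ^ 2 / 2) (by norm_num) (by linarith)
    refine le_trans (by norm_num) this
  · rw [sg2_eq, abs_mul]
    refine (mul_le_mul hP hV2 (abs_nonneg _) (by norm_num)).trans (by norm_num)
  · rw [sg3_eq, abs_mul]
    refine (mul_le_mul hP hV3 (abs_nonneg _) (by norm_num)).trans (by norm_num)

private noncomputable def cc (n : ℕ) : ℝ :=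
  ((n : ℝ) + 4) * (n + 3) * (16 * 16 ^ (n + 5)) * (2803 / 10000) ^ ((n + 4) * (n + 7)) *
    (4 / 3 * 10 ^ (n + 4))

private theorem cc_pos (n : ℕ) : 0 ≤ cc n := by unfold cc; positivity

private theorem cc_le (n : ℕ) : cc n ≤ 1 / 1000 * (1 / 2) ^ n := by
  induction n with
  | zero => unfold cc; norm_num
  | succ n ih =>
    have h1 : cc (n + 1) ≤ cc n * (1 / 2) := by
      have e : ((n + 1 + 4) * (n + 1 + 7)) = (n + 4) * (n + 7) + (2 * n + 12) := by ring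
      have hq : (2803 / 10000 : ℝ) ^ (2 * n + 12) ≤ (2803 / 10000 : ℝ) ^ 12 :=
        pow_le_pow_of_le_one (by norm_num) (by norm_num) (by omega)
      unfold cc
      rw [e, pow_add (2803 / 10000 : ℝ)]
      push_cast
      have hA : 0 ≤ (2803 / 10000 : ℝ) ^ ((n + 4) * (n + 7)) := by positivity
      have h16 : (16 : ℝ) ^ (n + 1 + 5) = 16 * 16 ^ (n + 5) := by ring
      have h10 : (10 : ℝ) ^ (n + 1 + 4) = 10 * 10 ^ (n + 4) := by ring
      rw [h16, h10]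
      have hr : ((n : ℝ) + 1 + 4) * (n + 1 + 3) * 160 * (2803 / 10000 : ℝ) ^ (2 * n + 12) ≤
          ((n : ℝ) + 4) * (n + 3) * (1 / 2) := by
        have h2 : ((n : ℝ) + 1 + 4) * (n + 1 + 3) ≤ 2 * (((n : ℝ) + 4) * (n + 3)) := by
          have : (0:ℝ) ≤ n := Nat.cast_nonneg n
          nlinarith
        have h3 : 160 * (2803 / 10000 : ℝ) ^ 12 ≤ 1 / 4 := by norm_num
        have h4 : (0:ℝ) ≤ ((n : ℝ) + 4) * (n + 3) := by positivity
        calc ((n : ℝ) + 1 + 4) * (n + 1 + 3) * 160 * (2803 / 10000 : ℝ) ^ (2 * n + 12)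
            ≤ (2 * (((n : ℝ) + 4) * (n + 3))) * 160 * (2803 / 10000 : ℝ) ^ 12 := by gcongr
          _ = (((n : ℝ) + 4) * (n + 3)) * 2 * (160 * (2803 / 10000 : ℝ) ^ 12) := by ring
          _ ≤ (((n : ℝ) + 4) * (n + 3)) * 2 * (1 / 4) := by gcongr
          _ = ((n : ℝ) + 4) * (n + 3) * (1 / 2) := by ring
      calc ((n : ℝ) + 1 + 4) * (n + 1 + 3) * (16 * (16 * 16 ^ (n + 5))) *
            ((2803 / 10000) ^ ((n + 4) * (n + 7)) * (2803 / 10000) ^ (2 * n + 12)) *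
            (4 / 3 * (10 * 10 ^ (n + 4)))
          = (((n : ℝ) + 1 + 4) * (n + 1 + 3) * 160 * (2803 / 10000 : ℝ) ^ (2 * n + 12)) *
            ((16 * 16 ^ (n + 5)) * (2803 / 10000) ^ ((n + 4) * (n + 7)) * (4 / 3 * 10 ^ (n + 4))) := by
              ring
        _ ≤ (((n : ℝ) + 4) * (n + 3) * (1 / 2)) *
            ((16 * 16 ^ (n + 5)) * (2803 / 10000) ^ ((n + 4) * (n + 7)) * (4 / 3 * 10 ^ (n + 4))) := by
              gcongr
        _ = _ := by ring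
    calc cc (n + 1) ≤ cc n * (1 / 2) := h1
      _ ≤ (1 / 1000 * (1 / 2) ^ n) * (1 / 2) := by gcongr
      _ = _ := by ring

private theorem cc_sum (N : ℕ) : ∑ n ∈ Finset.range N, cc n ≤ 2 / 1000 := by
  have h : ∑ n ∈ Finset.range N, cc n ≤ 2 / 1000 - 2 / 1000 * (1 / 2) ^ N := by
    induction N with
    | zero => simp
    | succ N ih =>
      rw [Finset.sum_range_succ]
      have := cc_le N
      have e : (1 / 2 : ℝ) ^ (N + 1) = (1 / 2) ^ N * (1 / 2) := pow_succ _ _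
      rw [e]
      linarith
  have : (0:ℝ) ≤ (1 / 2) ^ N := by positivity
  linarith

/-- `r3Q ≤ .03977`; `2 * 22^2 * .2803^10 / .03023 ≤ .0959`, `6 * 27^2 * .2803^18 / .00132 ≤ 3.9e-4`,
the terms `j ≥ 5` are `(j-1)(j-2) 16 * 16^j * .2803^(2 tri j - 2) * 4/3 * 10^(j-1)`: `9.2e-4`, then tiny. -/
theorem el_bound (J : ℕ) (p : ℂ) (L μ : ℕ → ℂ) (ρ : ℝ) (hρ : 0 ≤ ρ) (hp : ‖p‖ ≤ 2803 / 10000)
    (h3 : ‖L 3 - μ 3‖ ≤ 22 * ρ) (h4 : ‖L 4 - μ 4‖ ≤ 27 * ρ)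
    (h5 : ∀ j, 5 ≤ j → ‖L j - μ j‖ ≤ 4 * 4 ^ j * ρ) :
    EL J L μ p (r3Q : ℝ) ≤ 12 / 100 * ρ ^ 2 := by
  have hr : (r3Q : ℝ) ≤ 3977 / 100000 := by
    have : r3Q ≤ 3977 / 100000 := by unfold r3Q; norm_num
    have h := (Rat.cast_le (K := ℝ)).2 this
    push_cast at h
    linarith
  have hd : (3023 / 100000 : ℝ) ≤ 7 / 100 - (r3Q : ℝ) := by linarith
  have hs : ∑ j ∈ Finset.Ico 5 (J + 1), ((j : ℝ) - 1) * (j - 2) * ‖L j - μ j‖ ^ 2 *
      ‖p‖ ^ (2 * tri j - 2) * (4 / 3 * 10 ^ (j - 1)) ≤ 2 / 1000 * ρ ^ 2 := by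
    rw [Finset.sum_Ico_eq_sum_range]
    calc ∑ n ∈ Finset.range (J + 1 - 5), (((5 + n : ℕ) : ℝ) - 1) * (((5 + n : ℕ) : ℝ) - 2) *
          ‖L (5 + n) - μ (5 + n)‖ ^ 2 * ‖p‖ ^ (2 * tri (5 + n) - 2) * (4 / 3 * 10 ^ (5 + n - 1))
        ≤ ∑ n ∈ Finset.range (J + 1 - 5), cc n * ρ ^ 2 := by
          apply Finset.sum_le_sum
          intro n _
          have e1 : 2 * tri (5 + n) - 2 = (n + 4) * (n + 7) := by
            have : 2 * tri (5 + n) = (5 + n) * (5 + n + 1) := by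
              unfold tri
              exact Nat.mul_div_cancel' (Nat.even_mul_succ_self (5 + n)).two_dvd
            rw [this]
            have : (5 + n) * (5 + n + 1) = (n + 4) * (n + 7) + 2 := by ring
            omega
          have e2 : 5 + n - 1 = n + 4 := by omega
          rw [e1, e2]
          have hj := h5 (5 + n) (by omega)
          have hj2 : ‖L (5 + n) - μ (5 + n)‖ ^ 2 ≤ 16 * 16 ^ (n + 5) * ρ ^ 2 := by
            calc ‖L (5 + n) - μ (5 + n)‖ ^ 2 ≤ (4 * 4 ^ (5 + n) * ρ) ^ 2 := by gcongr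
              _ = 16 * 16 ^ (n + 5) * ρ ^ 2 := by
                have : (16 : ℝ) ^ (n + 5) = (4 ^ (5 + n)) ^ 2 := by
                  rw [← pow_mul, mul_comm, pow_mul]; norm_num; rw [add_comm]
                rw [this]; ring
          have hpp : ‖p‖ ^ ((n + 4) * (n + 7)) ≤ (2803 / 10000) ^ ((n + 4) * (n + 7)) := by
            gcongr
          unfold cc
          push_cast
          have e3 : ((5 : ℝ) + n - 1) = n + 4 := by ring
          have e4 : ((5 : ℝ) + n - 2) = n + 3 := by ring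
          rw [e3, e4]
          calc ((n : ℝ) + 4) * (n + 3) * ‖L (5 + n) - μ (5 + n)‖ ^ 2 * ‖p‖ ^ ((n + 4) * (n + 7)) *
                (4 / 3 * 10 ^ (n + 4))
              ≤ ((n : ℝ) + 4) * (n + 3) * (16 * 16 ^ (n + 5) * ρ ^ 2) *
                (2803 / 10000) ^ ((n + 4) * (n + 7)) * (4 / 3 * 10 ^ (n + 4)) := by gcongr
            _ = _ := by ring
      _ = (∑ n ∈ Finset.range (J + 1 - 5), cc n) * ρ ^ 2 := by rw [Finset.sum_mul]
      _ ≤ 2 / 1000 * ρ ^ 2 := by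
        have := cc_sum (J + 1 - 5)
        gcongr
  have h1 : 2 * ‖L 3 - μ 3‖ ^ 2 * ‖p‖ ^ 10 / (7 / 100 - (r3Q : ℝ)) ≤ 97 / 1000 * ρ ^ 2 := by
    calc 2 * ‖L 3 - μ 3‖ ^ 2 * ‖p‖ ^ 10 / (7 / 100 - (r3Q : ℝ))
        ≤ 2 * (22 * ρ) ^ 2 * (2803 / 10000) ^ 10 / (3023 / 100000) := by gcongr
      _ ≤ 97 / 1000 * ρ ^ 2 := by
        have : (0:ℝ) ≤ ρ ^ 2 := sq_nonneg _
        norm_num
        nlinarith
  have h2 : 6 * ‖L 4 - μ 4‖ ^ 2 * ‖p‖ ^ 18 / (132 / 100000) ≤ 1 / 1000 * ρ ^ 2 := by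
    calc 6 * ‖L 4 - μ 4‖ ^ 2 * ‖p‖ ^ 18 / (132 / 100000)
        ≤ 6 * (27 * ρ) ^ 2 * (2803 / 10000) ^ 18 / (132 / 100000) := by gcongr
      _ ≤ 1 / 1000 * ρ ^ 2 := by
        have : (0:ℝ) ≤ ρ ^ 2 := sq_nonneg _
        norm_num
        nlinarith
  unfold EL
  have : (0:ℝ) ≤ ρ ^ 2 := sq_nonneg _
  linarith

private theorem sp_bounds : (4764 / 10000 : ℝ) ≤ 13 / 20 - (rho1Q : ℝ) ∧
    13 / 20 - (rho1Q : ℝ) ≤ 4765 / 10000 := by
  have h1 : rho1Q ≤ 13 / 20 - 4764 / 10000 := by unfold rho1Q r3Q; norm_num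
  have h2 : 13 / 20 - 4765 / 10000 ≤ rho1Q := by unfold rho1Q r3Q; norm_num
  have h1' := (Rat.cast_le (K := ℝ)).2 h1
  have h2' := (Rat.cast_le (K := ℝ)).2 h2
  push_cast at h1' h2'
  constructor <;> linarith

private theorem rho0_bound : (rho0Q : ℝ) ≤ 1127 / 10000 := by
  have h1 : rho0Q ≤ 1127 / 10000 := by unfold rho0Q; norm_num
  have h1' := (Rat.cast_le (K := ℝ)).2 h1
  push_cast at h1'
  linarith

/-- `S' = SpQ ≥ .4764`, `|Re ((p+δ) p)| ≤ .0069` (`oo^2 = -.005423 + ...`), `‖p + δ‖ ≤ .28533`,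
`‖kap‖ ≤ .4794`. `W0 ≥ 2.38 - .4 - .2253 - .1180 - .01 - (.0036 + .9372 + .2299)/.9528 ≥ .396`;
`W2 = 4 l2 (p - c conj kap / S') - 4 conj zz l2/(2 S')`, `p - c conj kap/S' =
p (1 - conj kap/S') - δ conj kap/S'`, `|1 - conj kap/S'| ≤ .0554 + 4 * .09 * .0815/.4764`, so
`‖W2‖ ≤ .16`; the last coefficient is at most `.068`. -/
theorem dform_ball (l2 T2 g p δ d : ℂ) (σ1 σ2 : ℝ) (hp : ‖p - oo‖ ≤ 2 / 100000)
    (hδ : ‖δ‖ ≤ 503 / 100000) (hl2 : ‖l2‖ ≤ 848 / 1000) (hσ1 : 595 / 1000 ≤ σ1)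
    (hσ2 : |σ2| ≤ 9 / 100)
    (hz : ‖zz l2 T2 g p (13 / 20) (9 / 20) (p + δ)‖ ≤ 87 / 10000) :
    0 ≤ W0v l2 T2 g p σ1 σ2 (13 / 20) (9 / 20) (rho0Q : ℝ) (rho1Q : ℝ)
        (36 * (17 / 50) ^ 5 * (7 / 10) + 35 / 10000) (p + δ) * ‖d‖ ^ 2 +
      (W2v l2 T2 g p σ2 (13 / 20) (9 / 20) (rho1Q : ℝ) (p + δ) * d ^ 2).re -
      ((2 * (848 / 1000) + 8 * (9 / 100) * (2854 / 10000)) ^ 2 +
        8 * (9 / 100) * (4 * (848 / 1000) * (2854 / 10000) + 48 / 100) +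
        16 * (9 / 100) ^ 2 * (137 / 10000)) * (137 / 10000) / (2 * (13 / 20 - (rho1Q : ℝ))) *
        ‖d‖ ^ 2 := by
  obtain ⟨hS1, hS2⟩ := sp_bounds
  have hr0 := rho0_bound
  set S' : ℝ := 13 / 20 - (rho1Q : ℝ) with hS'
  have hS0 : 0 < S' := by linarith
  have hoo : ‖oo‖ ≤ 28026 / 100000 := by
    have : ‖oo‖ ^ 2 ≤ (28026 / 100000) ^ 2 := by
      rw [← Complex.normSq_eq_norm_sq, Complex.normSq_apply]
      simp only [oo]; norm_num
    exact le_of_sq_le_sq this (by norm_num)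
  have hpn : ‖p‖ ≤ 2803 / 10000 := by
    have : ‖p‖ ≤ ‖p - oo‖ + ‖oo‖ := by simpa using norm_add_le (p - oo) oo
    linarith
  set c := p + δ with hc
  have hcn : ‖c‖ ≤ 2854 / 10000 := by
    have := norm_add_le p δ
    rw [hc]; linarith
  set Z := zz l2 T2 g p (13 / 20) (9 / 20) c with hZ
  have hkap : kap σ2 (9 / 20) c = (9 / 20 : ℝ) + 4 * σ2 * c ^ 2 := by
    unfold kap; push_cast; ring
  have hkn : ‖kap σ2 (9 / 20) c‖ ≤ 4794 / 10000 := by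
    rw [hkap]
    calc ‖((9 / 20 : ℝ) : ℂ) + 4 * σ2 * c ^ 2‖ ≤ ‖((9 / 20 : ℝ) : ℂ)‖ + ‖4 * (σ2 : ℂ) * c ^ 2‖ :=
          norm_add_le _ _
      _ = 9 / 20 + 4 * |σ2| * ‖c‖ ^ 2 := by
          rw [Complex.norm_real, norm_mul, norm_mul, norm_pow, Complex.norm_real]
          norm_num
      _ ≤ 9 / 20 + 4 * (9 / 100) * (2854 / 10000) ^ 2 := by gcongr
      _ ≤ 4794 / 10000 := by norm_num
  -- real part of c p
  have hcp : |(c * p).re| ≤ 69 / 10000 := by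
    have e : c * p = oo ^ 2 + (2 * oo * (p - oo) + (p - oo) ^ 2) + δ * p := by rw [hc]; ring
    have h1 : |(oo ^ 2).re| ≤ 5424 / 1000000 := by
      rw [abs_le]
      constructor <;> · simp only [oo, pow_two, Complex.mul_re]; norm_num
    have h2 : ‖2 * oo * (p - oo) + (p - oo) ^ 2‖ ≤ 2 * (28026 / 100000) * (2 / 100000) + (2 / 100000) ^ 2 := by
      refine (norm_add_le _ _).trans ?_
      rw [norm_mul, norm_mul, norm_pow]
      have : ‖(2 : ℂ)‖ = 2 := by norm_num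
      rw [this]
      gcongr
    have h3 : ‖δ * p‖ ≤ 503 / 100000 * (2803 / 10000) := by
      rw [norm_mul]; gcongr
    rw [e, Complex.add_re, Complex.add_re]
    have h2' := (Complex.abs_re_le_norm (2 * oo * (p - oo) + (p - oo) ^ 2)).trans h2
    have h3' := (Complex.abs_re_le_norm (δ * p)).trans h3
    have := abs_add_three (oo ^ 2).re (2 * oo * (p - oo) + (p - oo) ^ 2).re (δ * p).re
    refine this.trans ?_
    norm_num at h2' h3' ⊢
    linarith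
  have hl2s : ‖l2‖ ^ 2 ≤ (848 / 1000) ^ 2 := by gcongr
  have hc2 : ‖c‖ ^ 2 ≤ (2854 / 10000) ^ 2 := by gcongr
  have hk2 : ‖kap σ2 (9 / 20) c‖ ^ 2 ≤ (4794 / 10000) ^ 2 := by gcongr
  -- W0
  have hW0 : 39 / 100 ≤ W0v l2 T2 g p σ1 σ2 (13 / 20) (9 / 20) (rho0Q : ℝ) (rho1Q : ℝ)
        (36 * (17 / 50) ^ 5 * (7 / 10) + 35 / 10000) c := by
    unfold W0v
    rw [← hZ, ← hS']
    have h1 : |16 * σ2 * (c * p).re| ≤ 16 * (9 / 100) * (69 / 10000) := by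
      rw [abs_mul, abs_mul]
      have : |(16 : ℝ)| = 16 := by norm_num
      rw [this]; gcongr
    have h2 : |16 * σ2 * (conj Z * c).re| ≤ 16 * (9 / 100) * (87 / 10000 * (2854 / 10000)) := by
      rw [abs_mul, abs_mul]
      have : |(16 : ℝ)| = 16 := by norm_num
      rw [this]
      have h3 : |(conj Z * c).re| ≤ 87 / 10000 * (2854 / 10000) := by
        refine (Complex.abs_re_le_norm _).trans ?_
        rw [norm_mul, Complex.norm_conj]; gcongr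
      gcongr
    have h3 : 16 * ‖l2‖ ^ 2 * ‖c‖ ^ 2 ≤ 16 * (848 / 1000) ^ 2 * (2854 / 10000) ^ 2 := by gcongr
    have h4 : (16 * σ2 * (conj Z * c).re + 16 * ‖l2‖ ^ 2 * ‖c‖ ^ 2 + ‖kap σ2 (9 / 20) c‖ ^ 2) / (2 * S') ≤
        (16 * (9 / 100) * (87 / 10000 * (2854 / 10000)) + 16 * (848 / 1000) ^ 2 * (2854 / 10000) ^ 2 +
          (4794 / 10000) ^ 2) / (2 * (4764 / 10000)) := by
      have := le_of_abs_le h2
      apply div_le_div₀ (by norm_num) (by linarith) (by norm_num) (by linarith)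
    have h5 := neg_le_of_abs_le h1
    norm_num at h4 h5 ⊢
    linarith
  -- W2
  have hW2 : ‖W2v l2 T2 g p σ2 (13 / 20) (9 / 20) (rho1Q : ℝ) c‖ ≤ 162 / 1000 := by
    have hSc : (S' : ℂ) ≠ 0 := by exact_mod_cast hS0.ne'
    have e : W2v l2 T2 g p σ2 (13 / 20) (9 / 20) (rho1Q : ℝ) c =
        4 * l2 * (p * ((1 - 9 / 20 / S' : ℝ) : ℂ) - p * (4 * σ2 * conj c ^ 2) * ((1 / S' : ℝ) : ℂ) -
          δ * conj (kap σ2 (9 / 20) c) * ((1 / S' : ℝ) : ℂ)) - 4 * conj Z * l2 * ((1 / (2 * S') : ℝ) : ℂ) := by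
      unfold W2v
      rw [← hZ]
      have e1 : (2 * (((13 / 20 : ℝ) : ℂ) - ((rho1Q : ℝ) : ℂ))) = 2 * (S' : ℂ) := by
        rw [hS']; push_cast; ring
      have e2 : conj (kap σ2 (9 / 20) c) = (9 / 20 : ℂ) + 4 * σ2 * conj c ^ 2 := by
        rw [hkap, map_add, map_mul, map_mul, map_pow, Complex.conj_ofReal, Complex.conj_ofReal, map_ofNat]
        push_cast; ring
      rw [e1, e2]
      have e3 : δ = c - p := by rw [hc]; ring
      rw [e3]
      push_cast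
      field_simp
      ring
    rw [e]
    have hm : |1 - 9 / 20 / S'| ≤ 557 / 10000 := by
      rw [abs_le]
      constructor
      · have : 9 / 20 / S' ≤ 1 := by rw [div_le_one hS0]; linarith
        linarith
      · have : 9443 / 10000 ≤ 9 / 20 / S' := by rw [le_div_iff₀ hS0]; linarith
        linarith
    have hi : 1 / S' ≤ 2100 / 1000 := by rw [div_le_iff₀ hS0]; linarith
    have hi0 : 0 ≤ 1 / S' := by positivity
    have hi2 : 1 / (2 * S') ≤ 1050 / 1000 := by rw [div_le_iff₀ (by linarith)]; linarith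
    have hi20 : 0 ≤ 1 / (2 * S') := by positivity
    have n1 : ‖p * ((1 - 9 / 20 / S' : ℝ) : ℂ)‖ ≤ 2803 / 10000 * (557 / 10000) := by
      rw [norm_mul, Complex.norm_real]
      exact mul_le_mul hpn hm (norm_nonneg _) (by norm_num)
    have n2 : ‖p * (4 * σ2 * conj c ^ 2) * ((1 / S' : ℝ) : ℂ)‖ ≤
        2803 / 10000 * (4 * (9 / 100) * (2854 / 10000) ^ 2) * (2100 / 1000) := by
      rw [norm_mul, norm_mul, norm_mul, norm_mul, norm_pow, Complex.norm_conj, Complex.norm_real,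
        Complex.norm_real, Real.norm_eq_abs, Real.norm_eq_abs, abs_of_nonneg hi0]
      have : ‖(4 : ℂ)‖ = 4 := by norm_num
      rw [this]
      gcongr
    have n3 : ‖δ * conj (kap σ2 (9 / 20) c) * ((1 / S' : ℝ) : ℂ)‖ ≤
        503 / 100000 * (4794 / 10000) * (2100 / 1000) := by
      rw [norm_mul, norm_mul, Complex.norm_conj, Complex.norm_real, Real.norm_eq_abs, abs_of_nonneg hi0]
      gcongr
    have n4 : ‖4 * conj Z * l2 * ((1 / (2 * S') : ℝ) : ℂ)‖ ≤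
        4 * (87 / 10000) * (848 / 1000) * (1050 / 1000) := by
      rw [norm_mul, norm_mul, norm_mul, Complex.norm_conj, Complex.norm_real, Real.norm_eq_abs,
        abs_of_nonneg hi20]
      have : ‖(4 : ℂ)‖ = 4 := by norm_num
      rw [this]
      gcongr
    have n5 : ‖p * ((1 - 9 / 20 / S' : ℝ) : ℂ) - p * (4 * σ2 * conj c ^ 2) * ((1 / S' : ℝ) : ℂ) -
          δ * conj (kap σ2 (9 / 20) c) * ((1 / S' : ℝ) : ℂ)‖ ≤ 2803 / 10000 * (557 / 10000) +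
        2803 / 10000 * (4 * (9 / 100) * (2854 / 10000) ^ 2) * (2100 / 1000) +
        503 / 100000 * (4794 / 10000) * (2100 / 1000) :=
      (norm_sub_le _ _).trans (add_le_add ((norm_sub_le _ _).trans (add_le_add n1 n2)) n3)
    have n6 : ‖4 * l2 * (p * ((1 - 9 / 20 / S' : ℝ) : ℂ) - p * (4 * σ2 * conj c ^ 2) * ((1 / S' : ℝ) : ℂ) -
          δ * conj (kap σ2 (9 / 20) c) * ((1 / S' : ℝ) : ℂ))‖ ≤ 4 * (848 / 1000) *
          (2803 / 10000 * (557 / 10000) +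
        2803 / 10000 * (4 * (9 / 100) * (2854 / 10000) ^ 2) * (2100 / 1000) +
        503 / 100000 * (4794 / 10000) * (2100 / 1000)) := by
      rw [norm_mul, norm_mul]
      have : ‖(4 : ℂ)‖ = 4 := by norm_num
      rw [this]
      exact mul_le_mul (by linarith) n5 (norm_nonneg _) (by norm_num)
    refine (norm_sub_le _ _).trans ((add_le_add n6 n4).trans ?_)
    norm_num
  have hH : ((2 * (848 / 1000) + 8 * (9 / 100) * (2854 / 10000)) ^ 2 +
        8 * (9 / 100) * (4 * (848 / 1000) * (2854 / 10000) + 48 / 100) +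
        16 * (9 / 100) ^ 2 * (137 / 10000)) * (137 / 10000) / (2 * S') ≤ 68 / 1000 := by
    rw [div_le_iff₀ (by linarith)]
    norm_num
    linarith
  have hre : -(162 / 1000 * ‖d‖ ^ 2) ≤
      (W2v l2 T2 g p σ2 (13 / 20) (9 / 20) (rho1Q : ℝ) c * d ^ 2).re := by
    have h1 := Complex.abs_re_le_norm (W2v l2 T2 g p σ2 (13 / 20) (9 / 20) (rho1Q : ℝ) c * d ^ 2)
    rw [norm_mul, norm_pow] at h1
    have h2 : ‖W2v l2 T2 g p σ2 (13 / 20) (9 / 20) (rho1Q : ℝ) c‖ * ‖d‖ ^ 2 ≤ 162 / 1000 * ‖d‖ ^ 2 := by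
      gcongr
    have := neg_le_of_abs_le (h1.trans h2)
    exact this
  have hd : (0:ℝ) ≤ ‖d‖ ^ 2 := by positivity
  have a1 := mul_le_mul_of_nonneg_right hW0 hd
  have a2 := mul_le_mul_of_nonneg_right hH hd
  linarith

end Pool.Agent.MaxTerm8
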