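import Pool.Agent.MaxTerm8.LocFacts
import Pool.Agent.MaxTerm8.JetT
import Pool.Agent.MaxTerm8.JetZ
import Pool.Agent.MaxTerm8.DevLam
import Pool.Agent.MaxTerm8.Sig

/-! The window functional near the critical point is at least `κ`. -/

namespace Pool.Agent.MaxTerm8

open Complex ComplexConjugate

/-- the displaced nodes -/
noncomputable def wd' (w : ℝ) (δ : ℂ) : ℝ := w + (etc * δ).re
noncomputable def xd' (x : ℝ) (δ : ℂ) : ℝ := x + (thc * δ).re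

/-- the moments of the displaced nodes -/
noncomputable def Ld (J : ℕ) (p : ℂ) (w x : ℝ) (δ : ℂ) (j : ℕ) : ℂ :=
  lam (wd' w δ) (xd' x δ) (Et J p δ 1) (Et J p δ (xd' x δ)) j

private theorem ea_fin {w κ ν G Tq ρ S r0 z zq e0 : ℝ} (hρ0 : 0 ≤ ρ) (hδ : ρ ≤ 503 / 100000)
    (hS : 476 / 1000 ≤ S) (_ : 0 ≤ zq) (hz0 : 0 ≤ z) (zn : z ≤ zq + 45 * ρ ^ 2)
    (Z1b : zq ≤ 1487 / 1000 * ρ) (E : e0 ≤ 12 / 100 * ρ ^ 2)
    (T1 : -(481 * ρ ^ 3) ≤ ν - (w * κ + (1 - w) * κ) - 2 * G - Tq)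
    (Q : 56 / 10 * ρ ^ 2 ≤ Tq - (11 / 5 + 2 * r0) * ρ ^ 2 - zq ^ 2 / (2 * S)) :
    κ ≤ 2 * ν - ν + -2 * G - (11 / 5 + 2 * r0) * ρ ^ 2 - z ^ 2 / (2 * S) - e0 := by
  have z2 : z ^ 2 ≤ zq ^ 2 + (2 * (1487 / 1000) * 45 * ρ + 2025 * ρ ^ 2) * ρ ^ 2 := by
    have a1 := pow_le_pow_left₀ hz0 zn 2
    have a2 : zq * (45 * ρ ^ 2) ≤ 1487 / 1000 * ρ * (45 * ρ ^ 2) :=
      mul_le_mul_of_nonneg_right Z1b (by positivity)
    have a3 : (zq + 45 * ρ ^ 2) ^ 2 = zq ^ 2 + 2 * (zq * (45 * ρ ^ 2)) + 2025 * ρ ^ 2 * ρ ^ 2 := by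
      ring
    rw [a3] at a1
    have a4 : (2 * (1487 / 1000) * 45 * ρ + 2025 * ρ ^ 2) * ρ ^ 2 =
      2 * (1487 / 1000 * ρ * (45 * ρ ^ 2)) + 2025 * ρ ^ 2 * ρ ^ 2 := by ring
    rw [a4]
    linarith
  have r2 : ρ ^ 2 ≤ 503 / 100000 * ρ := by
    rw [pow_two]
    exact mul_le_mul_of_nonneg_right hδ hρ0
  have z3 : z ^ 2 / (2 * S) ≤ zq ^ 2 / (2 * S) + 3 / 2 * ρ ^ 2 := by
    have hS2 : (0 : ℝ) < 2 * S := by linarith
    have a3 : (2 * (1487 / 1000) * 45 * ρ + 2025 * ρ ^ 2) ≤ 3 / 2 * (2 * S) := by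
      linarith
    have a4 := mul_le_mul_of_nonneg_right a3 (sq_nonneg ρ)
    rw [div_le_iff₀ hS2, add_mul, div_mul_cancel₀ _ hS2.ne']
    linarith
  have z4 : ρ ^ 3 ≤ 503 / 100000 * ρ ^ 2 := by
    have : ρ ^ 3 = ρ * ρ ^ 2 := by ring
    rw [this]
    exact mul_le_mul_of_nonneg_right hδ (sq_nonneg ρ)
  have z5 := sq_nonneg ρ
  linarith

/-- `zz_exact`, `sum_rt`, `rt_tay`, `jetZ`. -/
theorem zz_first (J : ℕ) (hJ : 5 ≤ J) (p : ℂ) (κ w x : ℝ) (h : CritPt J p κ)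
    (hk : KKT J p κ w x) (δ : ℂ) (hδ : ‖δ‖ ≤ 503 / 100000) :
    ‖zz (Ld J p w x δ 2) (TT2 J (Ld J p w x δ) p) (gc J p w x) p (13 / 20) (9 / 20) (p + δ) -
      Z1 w ((1 + x) / 2) (etc * δ).re (thc * δ).re p (muc J p w x 2) (2 * PP J p 1) (QT J p 1)
      (2 * PP J p x) (QT J p x) (PX J p x) (RT J p 1) (RT J p x) (RTX J p x) δ‖ ≤
    45 * ‖δ‖ ^ 2 := by
  obtain ⟨ξ, hξe⟩ : ∃ ξ, ξ = (thc * δ).re := ⟨_, rfl⟩
  have hL := locN J hJ p κ w x h hk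
  have hD := disp J hJ p κ w x h hk δ hδ
  have hn : ‖p‖ ≤ 2804 / 10000 := hL.hp.trans (by norm_num)
  have hξ := hD.hξ
  obtain ⟨x1, x2⟩ := abs_le.1 hk.hx
  have hξ2 : |(thc * δ).re| ≤ 172 / 10000 := by linarith
  rw [← hξe] at hξ2
  obtain ⟨k1, k2⟩ := abs_le.1 hξ2
  have t := rt_tay J p hn x (x + (thc * δ).re) (abs_le.2 ⟨by linarith, by linarith⟩)
    (by rw [← hξe]; exact abs_le.2 ⟨by linarith, by linarith⟩)
  have exy : x + (thc * δ).re - x = (thc * δ).re := by ring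
  rw [exy] at t
  have key := jetZ hL hD (RT J p (x + (thc * δ).re)) (muc J p w x 2) t rfl
  have hz : zz (Ld J p w x δ 2) (TT2 J (Ld J p w x δ) p) (gc J p w x) p (13 / 20) (9 / 20)
      (p + δ) = _ := zz_exact J hJ p δ (Ld J p w x δ) (muc J p w x)
  have hs : ∑ j ∈ Finset.Ico 2 (J + 1), 2 * ((j : ℂ) - 1) * (Ld J p w x δ j - muc J p w x j) *
      p ^ (tri j - 1) =
      (((w + (etc * δ).re : ℝ) : ℂ) * (conj (Et J p δ 1) * RT J p 1) +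
        ((1 - (w + (etc * δ).re) : ℝ) : ℂ) * (((1 + (x + (thc * δ).re)) / 2 : ℝ) : ℂ) *
        (conj (Et J p δ (x + (thc * δ).re)) * RT J p (x + (thc * δ).re))) -
      ((w : ℂ) * (conj (2 * PP J p 1) * RT J p 1) +
        ((1 - w : ℝ) : ℂ) * (((1 + x) / 2 : ℝ) : ℂ) * (conj (2 * PP J p x) * RT J p x)) := by
    rw [← sum_rt, ← sum_rt, ← Finset.sum_sub_distrib]
    refine Finset.sum_congr rfl fun j _ => ?_
    have e1 : Ld J p w x δ j = lam (w + (etc * δ).re) (x + (thc * δ).re) (Et J p δ 1)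
      (Et J p δ (x + (thc * δ).re)) j := rfl
    have e2 : muc J p w x j = lam w x (2 * PP J p 1) (2 * PP J p x) j := rfl
    rw [e1, e2]
    ring
  rw [hz, hs]
  exact key

/-- `zz_first`, `z1_bound`: `1.487 * .00503 + 45 * .00503^2 ≤ .00863`. -/
theorem zz_small (J : ℕ) (hJ : 5 ≤ J) (p : ℂ) (κ w x : ℝ) (h : CritPt J p κ)
    (hk : KKT J p κ w x) (δ : ℂ) (hδ : ‖δ‖ ≤ 503 / 100000) :
    ‖zz (Ld J p w x δ 2) (TT2 J (Ld J p w x δ) p) (gc J p w x) p (13 / 20) (9 / 20) (p + δ)‖ ≤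
      87 / 10000 := by
  have h1 := zz_first J hJ p κ w x h hk δ hδ
  have h2 := z1_bound J hJ p κ w x h hk δ
  have h3 := norm_le_insert' (zz (Ld J p w x δ 2) (TT2 J (Ld J p w x δ) p) (gc J p w x) p (13 / 20)
    (9 / 20) (p + δ)) (Z1 w ((1 + x) / 2) (etc * δ).re (thc * δ).re p (muc J p w x 2)
    (2 * PP J p 1) (QT J p 1) (2 * PP J p x) (QT J p x) (PX J p x) (RT J p 1) (RT J p x)
    (RTX J p x) δ)
  have h0 := norm_nonneg δ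
  have h4 : ‖δ‖ ^ 2 ≤ 503 / 100000 * ‖δ‖ := by
    rw [pow_two]
    exact mul_le_mul_of_nonneg_right hδ h0
  linarith

/-- `av_exact`, `sum_lam_opt`, `kappa1`, `jetT` (zeroth order part `κ` by `KKT.h1`, `KKT.h2`, first order
part cancels against `kappa1` by `KKT.h1`, `KKT.h2`, `KKT.h3`), `zz_first`, `z1_bound`, `quad_id`,
`quad_lower`, `dev_lam`, `el_bound`: with `ρ = ‖δ‖`,
`Av ≥ κ + 5.6 ρ^2 - 481 ρ^3 - (2 * 1.487 * 45 ρ^3 + 45^2 ρ^4)/(2 SpQ) - .12 ρ^2 ≥ κ`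
(`481 * .00503 ≤ 2.42`, `(133.83 + 10.2) * .00503/.9528 ≤ .77`). -/
theorem exact_av (J : ℕ) (hJ : 5 ≤ J) (p : ℂ) (κ w x : ℝ) (h : CritPt J p κ)
    (hk : KKT J p κ w x) (δ : ℂ) (hδ : ‖δ‖ ≤ 503 / 100000) :
    κ ≤ Av (Ld J p w x δ 0) (Ld J p w x δ 1) (Ld J p w x δ 2) (TT0 J (Ld J p w x δ) p)
      (TT1 J (Ld J p w x δ) (muc J p w x) p) (TT2 J (Ld J p w x δ) p) (gc J p w x) p
      (nu (wd' w δ) (xd' x δ) (Et J p δ 1) (Et J p δ (xd' x δ))) (13 / 20) (9 / 20)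
      (rho0Q : ℝ) (rho1Q : ℝ) 0 (EL J (Ld J p w x δ) (muc J p w x) p (r3Q : ℝ)) 0 (p + δ) := by
  have hL := locN J hJ p κ w x h hk
  have hD := disp J hJ p κ w x h hk δ hδ
  have T := jetT hL hD
  have ZF := zz_first J hJ p κ w x h hk δ hδ
  have Z1b := z1_bound J hJ p κ w x h hk δ
  have Q := quad_lower J hJ p κ w x h hk δ
  have D := dev_lam hL hD
  obtain ⟨d2, d3, d4, d5⟩ := D
  have E := el_bound J p (Ld J p w x δ) (muc J p w x) ‖δ‖ (norm_nonneg _) hL.hp d3 d4 d5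
  have hSp : ((SpQ : ℚ) : ℝ) = 13 / 20 - ((rho1Q : ℚ) : ℝ) := by
    unfold SpQ
    push_cast
    ring
  have hSpos : (476 / 1000 : ℝ) ≤ ((SpQ : ℚ) : ℝ) := by
    have : (476 / 1000 : ℚ) ≤ SpQ := by
      unfold SpQ rho1Q r3Q
      norm_num
    have h2 : ((476 / 1000 : ℚ) : ℝ) ≤ ((SpQ : ℚ) : ℝ) := by exact_mod_cast this
    refine le_trans (le_of_eq ?_) h2
    push_cast
    norm_num
  have g1 := hk.h1
  have g2 := hk.h2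
  have g3 := hk.h3
  unfold GJ at g1 g2
  unfold GX at g3
  have hY0 : ‖2 * PP J p 1‖ ^ 2 = κ := by rw [← g1]; ring
  have c3 : 1 / 2 * ‖2 * PP J p x‖ ^ 2 + 4 * ((1 + x) / 2) * (conj (2 * PP J p x) * PX J p x).re
      = 0 := by
    have e1 : ‖2 * PP J p x‖ ^ 2 = 4 * ‖PP J p x‖ ^ 2 := by
      rw [norm_mul, mul_pow, Complex.norm_ofNat]; norm_num
    have e2 : (conj (2 * PP J p x) * PX J p x).re = 2 * (conj (PP J p x) * PX J p x).re := by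
      have : conj (2 * PP J p x) * PX J p x = ((2 : ℝ) : ℂ) * (conj (PP J p x) * PX J p x) := by
        rw [map_mul, Complex.conj_ofNat]
        push_cast
        ring
      rw [this, Complex.re_ofReal_mul]
    rw [e1, e2, ← g3]
    ring
  have QI := quad_id w ((1 + x) / 2) (UU x 2) p (muc J p w x 2) (2 * PP J p 1) (QT J p 1)
    (2 * PP J p x) (QT J p x) (QTX J p x) (PX J p x) (PXX J p x) (RT J p 1) (RT J p x)
    (RTX J p x) thc etc δ ((rho0Q : ℚ) : ℝ) ((SpQ : ℚ) : ℝ) c3 rfl (by linarith)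
  rw [← QI] at Q
  have A : Av (Ld J p w x δ 0) (Ld J p w x δ 1) (Ld J p w x δ 2) (TT0 J (Ld J p w x δ) p)
      (TT1 J (Ld J p w x δ) (muc J p w x) p) (TT2 J (Ld J p w x δ) p) (gc J p w x) p
      (nu (wd' w δ) (xd' x δ) (Et J p δ 1) (Et J p δ (xd' x δ))) (13 / 20) (9 / 20)
      (rho0Q : ℝ) (rho1Q : ℝ) 0 (EL J (Ld J p w x δ) (muc J p w x) p (r3Q : ℝ)) 0 (p + δ) = _ :=
    av_exact J hJ p δ (Ld J p w x δ) (muc J p w x)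
      (nu (wd' w δ) (xd' x δ) (Et J p δ 1) (Et J p δ (xd' x δ))) ((rho0Q : ℚ) : ℝ)
      ((rho1Q : ℚ) : ℝ) (EL J (Ld J p w x δ) (muc J p w x) p (r3Q : ℝ))
  have SL : (∑ j ∈ Finset.range (J + 1), Ld J p w x δ j *
        (2 * p ^ tri j + 2 * (j : ℂ) * p ^ (tri j - 1) * δ) +
      Ld J p w x δ 2 * (2 * p * δ ^ 2)).re =
    nu (wd' w δ) (xd' x δ) (Et J p δ 1) (Et J p δ (xd' x δ)) :=
    sum_lam_opt J hJ p δ (wd' w δ) (xd' x δ)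
  have K1 : (∑ j ∈ Finset.range (J + 1), 2 * (j : ℂ) * ((j : ℂ) - 1) *
      muc J p w x j * p ^ (tri j - 1) * δ).re =
    -2 * (w * (conj (2 * PP J p 1) * (QT J p 1 * δ)).re +
      (1 - w) * ((1 + x) / 2) * (conj (2 * PP J p x) * (QT J p x * δ)).re) :=
    kappa1 J p δ w x hk.hk
  rw [A, SL, K1]
  have NU : nu (wd' w δ) (xd' x δ) (Et J p δ 1) (Et J p δ (xd' x δ)) =
      (w + (etc * δ).re) * ‖Et J p δ 1‖ ^ 2 +
      (1 - (w + (etc * δ).re)) * ((1 + (x + (thc * δ).re)) / 2) *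
        ‖Et J p δ (x + (thc * δ).re)‖ ^ 2 := rfl
  rw [← NU] at T
  have Z0 : zz (Ld J p w x δ 2) (TT2 J (Ld J p w x δ) p) (gc J p w x) p (13 / 20) (9 / 20)
      (p + δ) = zz (Ld J p w x δ 2) (TT2 J (Ld J p w x δ) p) (gmu J p (muc J p w x)) p (13 / 20)
      (9 / 20) (p + δ) := rfl
  rw [Z0] at ZF
  obtain ⟨ν, hν⟩ : ∃ ν, ν = nu (wd' w δ) (xd' x δ) (Et J p δ 1) (Et J p δ (xd' x δ)) := ⟨_, rfl⟩
  rw [← hν] at T ⊢
  obtain ⟨Z, hZ⟩ : ∃ Z, Z = zz (Ld J p w x δ 2) (TT2 J (Ld J p w x δ) p)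
    (gmu J p (muc J p w x)) p (13 / 20) (9 / 20) (p + δ) := ⟨_, rfl⟩
  rw [← hZ] at ZF ⊢
  obtain ⟨e0, he0⟩ : ∃ e0, e0 = EL J (Ld J p w x δ) (muc J p w x) p (r3Q : ℝ) := ⟨_, rfl⟩
  rw [← he0] at E ⊢
  obtain ⟨Zq, hZq⟩ : ∃ Zq, Zq = Z1 w ((1 + x) / 2) (etc * δ).re (thc * δ).re p (muc J p w x 2)
    (2 * PP J p 1) (QT J p 1) (2 * PP J p x) (QT J p x) (PX J p x) (RT J p 1) (RT J p x)
    (RTX J p x) δ := ⟨_, rfl⟩
  rw [← hZq] at ZF Z1b Q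
  obtain ⟨Tq, hTq⟩ : ∃ Tq, Tq = TT w ((1 + x) / 2) (UU x 2) (etc * δ).re (thc * δ).re p
    (2 * PP J p 1) (QT J p 1) (2 * PP J p x) (QT J p x) (QTX J p x) (PX J p x) (PXX J p x) δ :=
    ⟨_, rfl⟩
  rw [← hTq] at T Q
  rw [← hSp]
  have F : w * (2 * (conj (2 * PP J p 1) * (QT J p 1 * δ)).re) +
      (etc * δ).re * ‖2 * PP J p 1‖ ^ 2 +
        (1 - w) * ((1 + x) / 2 * (2 * (conj (2 * PP J p x) * (2 * PX J p x *
          (((thc * δ).re : ℝ) : ℂ) + QT J p x * δ)).re) +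
          (thc * δ).re / 2 * ‖2 * PP J p x‖ ^ 2) -
        (etc * δ).re * ((1 + x) / 2 * ‖2 * PP J p x‖ ^ 2) =
      2 * (w * (conj (2 * PP J p 1) * (QT J p 1 * δ)).re +
      (1 - w) * ((1 + x) / 2) * (conj (2 * PP J p x) * (QT J p x * δ)).re) := by
    have e3 : (conj (2 * PP J p x) * (2 * PX J p x * (((thc * δ).re : ℝ) : ℂ) + QT J p x * δ)).re
        = 2 * (thc * δ).re * (conj (2 * PP J p x) * PX J p x).re +
          (conj (2 * PP J p x) * (QT J p x * δ)).re := by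
      have : conj (2 * PP J p x) * (2 * PX J p x * (((thc * δ).re : ℝ) : ℂ) + QT J p x * δ) =
          ((2 * (thc * δ).re : ℝ) : ℂ) * (conj (2 * PP J p x) * PX J p x) +
          conj (2 * PP J p x) * (QT J p x * δ) := by
        push_cast
        ring
      rw [this, Complex.add_re, Complex.re_ofReal_mul]
    rw [e3, hY0, g2]
    linear_combination (1 - w) * (thc * δ).re * c3
  rw [F, hY0, g2] at T
  obtain ⟨G, hG⟩ : ∃ G, G = w * (conj (2 * PP J p 1) * (QT J p 1 * δ)).re +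
      (1 - w) * ((1 + x) / 2) * (conj (2 * PP J p x) * (QT J p x * δ)).re := ⟨_, rfl⟩
  rw [← hG] at T ⊢
  obtain ⟨ρ, hρ⟩ : ∃ ρ, ρ = ‖δ‖ := ⟨_, rfl⟩
  obtain ⟨S, hS⟩ : ∃ S, S = ((SpQ : ℚ) : ℝ) := ⟨_, rfl⟩
  obtain ⟨r0, hr0⟩ : ∃ r0, r0 = ((rho0Q : ℚ) : ℝ) := ⟨_, rfl⟩
  rw [← hρ] at T ZF Z1b Q E hδ ⊢
  rw [← hS] at Q hSpos ⊢
  rw [← hr0] at Q ⊢
  have hρ0 : 0 ≤ ρ := hρ ▸ norm_nonneg _
  have T1 := (abs_le.1 T).1
  have zn : ‖Z‖ ≤ ‖Zq‖ + 45 * ρ ^ 2 := by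
    have := norm_le_insert' Z Zq
    linarith
  exact ea_fin hρ0 hδ hSpos (norm_nonneg Zq) (norm_nonneg Z) zn Z1b E T1 Q

end Pool.Agent.MaxTerm8
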