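import Pool.Agent.MaxTerm8.ExactAv
import Pool.Agent.MaxTerm8.Stage1

/-! The windows near the critical point. -/

namespace Pool.Agent.MaxTerm8

open Complex ComplexConjugate

private theorem eb_norm_oo : ‖oo‖ ≤ 28026 / 100000 := by
  rw [← Real.sqrt_sq (by norm_num : (0 : ℝ) ≤ 28026 / 100000), Complex.norm_eq_sqrt_sq_add_sq]
  apply Real.sqrt_le_sqrt
  simp only [oo]
  norm_num

private theorem eb_norm_le {x y r : ℝ} (hr : 0 ≤ r) (h : x ^ 2 + y ^ 2 ≤ r ^ 2) :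
    ‖(⟨x, y⟩ : ℂ)‖ ≤ r := by
  have h1 : ‖(⟨x, y⟩ : ℂ)‖ ^ 2 ≤ r ^ 2 := by
    rw [Complex.sq_norm, Complex.normSq_mk]
    nlinarith
  exact le_of_sq_le_sq h1 hr

private theorem eb_thc : ‖thc‖ ≤ 3401 / 1000 := by
  unfold thc
  exact eb_norm_le (by norm_num) (by norm_num)

private theorem eb_etc : ‖etc‖ ≤ 225 / 100 := by
  unfold etc
  exact eb_norm_le (by norm_num) (by norm_num)

private theorem chk_mu2 : (muB 2).re ^ 2 + (muB 2).im ^ 2 ≤ (7704 / 10000 - (muB 2).rad) ^ 2 ∧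
    0 ≤ 7704 / 10000 - (muB 2).rad := by
  decide +kernel

private theorem chk_mu3' : (muB 3).re ^ 2 + (muB 3).im ^ 2 ≤ (2942 / 10000 - (muB 3).rad) ^ 2 ∧
    0 ≤ 2942 / 10000 - (muB 3).rad := by
  decide +kernel

private theorem eb_mu2 (J : ℕ) (hJ : 5 ≤ J) (p : ℂ) (κ w x : ℝ) (h : CritPt J p κ)
    (hk : KKT J p κ w x) : ‖muc J p w x 2‖ ≤ 7704 / 10000 := by
  have h1 := Bl.norm_le (mem_muB J hJ p κ w x h hk 2) (7704 / 10000 - (muB 2).rad) chk_mu2.2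
    chk_mu2.1
  rw [sub_add_cancel] at h1
  push_cast at h1
  exact h1

private theorem eb_mu3 (J : ℕ) (hJ : 5 ≤ J) (p : ℂ) (κ w x : ℝ) (h : CritPt J p κ)
    (hk : KKT J p κ w x) : ‖muc J p w x 3‖ ≤ 2942 / 10000 := by
  have h1 := Bl.norm_le (mem_muB J hJ p κ w x h hk 3) (2942 / 10000 - (muB 3).rad) chk_mu3'.2
    chk_mu3'.1
  rw [sub_add_cancel] at h1
  push_cast at h1
  exact h1

/-- the displaced nodes are close to the nodes -/
private theorem eb_wx {w x : ℝ} (hw : |w - 28989 / 100000| ≤ 7 / 10000)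
    (hx : |x - 27608 / 100000| ≤ 4 / 10000) {δ : ℂ} (hδ : ‖δ‖ ≤ 503 / 100000) :
    |wd' w δ - 28989 / 100000| ≤ 1203 / 100000 ∧ |xd' x δ - 27608 / 100000| ≤ 1752 / 100000 := by
  have h0 := norm_nonneg δ
  have h1 : |(etc * δ).re| ≤ 225 / 100 * (503 / 100000) := by
    refine (Complex.abs_re_le_norm _).trans ?_
    rw [norm_mul]
    exact mul_le_mul eb_etc hδ h0 (by norm_num)
  have h2 : |(thc * δ).re| ≤ 3401 / 1000 * (503 / 100000) := by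
    refine (Complex.abs_re_le_norm _).trans ?_
    rw [norm_mul]
    exact mul_le_mul eb_thc hδ h0 (by norm_num)
  unfold wd' xd'
  rw [abs_le] at *
  obtain ⟨w1, w2⟩ := hw
  obtain ⟨x1, x2⟩ := hx
  obtain ⟨a1, a2⟩ := h1
  obtain ⟨b1, b2⟩ := h2
  refine ⟨⟨?_, ?_⟩, ?_⟩
  · linarith
  · linarith
  · rw [abs_le]
    constructor <;> linarith

/-- Side conditions of `master_L` for the displaced nodes: `0 ≤ w' ≤ 1`, `|x'| ≤ 1`; `‖E0‖ ≤ 1.7196`,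
`‖E1‖ ≤ 2.1648` (`jet_E0`, `jet_E1`, `Jt.sub0`), so `nu ≤ max (‖E0‖^2) (.6472 ‖E1‖^2) ≤ 361/100`;
`‖lam 3‖ ≤ .2892 + .005 + 22 * .00503 ≤ 1/2` (`encl`, `dev_lam`); `‖lam 2‖ ≤ .7704 + .0775 ≤ .848`
(`mem_muB 2`: `(muB 2)` has centre of norm `≤ .7662` and radius `≤ .0042`; `dev_lam`). -/
theorem side_cond (J : ℕ) (hJ : 5 ≤ J) (p : ℂ) (κ w x : ℝ) (h : CritPt J p κ)
    (hk : KKT J p κ w x) (δ : ℂ) (hδ : ‖δ‖ ≤ 503 / 100000) :
    0 ≤ wd' w δ ∧ wd' w δ ≤ 1 ∧ -1 ≤ xd' x δ ∧ xd' x δ ≤ 1 ∧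
    nu (wd' w δ) (xd' x δ) (Et J p δ 1) (Et J p δ (xd' x δ)) ≤ 361 / 100 ∧
    ‖Ld J p w x δ 3‖ ≤ 1 / 2 ∧ ‖Ld J p w x δ 2‖ ≤ 848 / 1000 := by
  have hL := locN J hJ p κ w x h hk
  have hD := disp J hJ p κ w x h hk δ hδ
  obtain ⟨hw, hx⟩ := eb_wx hL.hw hL.hx hδ
  have hdev := dev_lam hL hD
  have j0 := jet_E0 hL hD
  have j1 := jet_E1 hL hD
  have h0 := norm_nonneg δ
  have s0 := Jt.sub0 h0 hδ j0 (by norm_num) (by norm_num)
  have s1 := Jt.sub0 h0 hδ j1 (by norm_num) (by norm_num)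
  have hE0 : ‖Et J p δ 1‖ ≤ 172 / 100 := by
    have e : Et J p δ 1 = 2 * PP J p 1 + (Et J p δ 1 - 2 * PP J p 1) := by ring
    rw [e]
    refine (norm_add_le _ _).trans ?_
    have := hL.hY0
    nlinarith
  have hE1 : ‖Et J p δ (x + (thc * δ).re)‖ ≤ 2165 / 1000 := by
    have e : Et J p δ (x + (thc * δ).re) =
        2 * PP J p x + (Et J p δ (x + (thc * δ).re) - 2 * PP J p x) := by ring
    rw [e]
    refine (norm_add_le _ _).trans ?_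
    have := hL.hY1
    nlinarith
  have hw' := abs_le.1 hw
  have hx' := abs_le.1 hx
  have hw0 : 0 ≤ wd' w δ := by linarith [hw'.1]
  have hw1 : wd' w δ ≤ 1 := by linarith [hw'.2]
  have hx0 : -1 ≤ xd' x δ := by linarith [hx'.1]
  have hx1 : xd' x δ ≤ 1 := by linarith [hx'.2]
  refine ⟨hw0, hw1, hx0, hx1, ?_, ?_, ?_⟩
  · unfold nu
    have e : Et J p δ (xd' x δ) = Et J p δ (x + (thc * δ).re) := rfl
    rw [e]
    have a0 : ‖Et J p δ 1‖ ^ 2 ≤ (172 / 100) ^ 2 := pow_le_pow_left₀ (norm_nonneg _) hE0 2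
    have a1 : ‖Et J p δ (x + (thc * δ).re)‖ ^ 2 ≤ (2165 / 1000) ^ 2 :=
      pow_le_pow_left₀ (norm_nonneg _) hE1 2
    have b0 : wd' w δ * ‖Et J p δ 1‖ ^ 2 ≤ wd' w δ * (361 / 100) :=
      mul_le_mul_of_nonneg_left (a0.trans (by norm_num)) hw0
    have b1 : (1 + xd' x δ) / 2 * ‖Et J p δ (x + (thc * δ).re)‖ ^ 2 ≤
        6472 / 10000 * (2165 / 1000) ^ 2 :=
      mul_le_mul (by linarith [hx'.2]) a1 (by positivity) (by norm_num)
    have b2 : (1 - wd' w δ) * ((1 + xd' x δ) / 2 * ‖Et J p δ (x + (thc * δ).re)‖ ^ 2) ≤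
        (1 - wd' w δ) * (361 / 100) :=
      mul_le_mul_of_nonneg_left (b1.trans (by norm_num)) (by linarith)
    rw [mul_assoc (1 - wd' w δ)]
    linarith
  · have e : Ld J p w x δ 3 = muc J p w x 3 +
        (lam (w + (etc * δ).re) (x + (thc * δ).re) (Et J p δ 1) (Et J p δ (x + (thc * δ).re)) 3 -
          lam w x (2 * PP J p 1) (2 * PP J p x) 3) := by
      unfold Ld muc wd' xd'
      ring
    rw [e]
    refine (norm_add_le _ _).trans ?_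
    have h1 := eb_mu3 J hJ p κ w x h hk
    have h2 := hdev.2.1
    linarith
  · have e : Ld J p w x δ 2 = muc J p w x 2 +
        (lam (w + (etc * δ).re) (x + (thc * δ).re) (Et J p δ 1) (Et J p δ (x + (thc * δ).re)) 2 -
          lam w x (2 * PP J p 1) (2 * PP J p x) 2) := by
      unfold Ld muc wd' xd'
      ring
    rw [e]
    refine (norm_add_le _ _).trans ?_
    have h1 := eb_mu2 J hJ p κ w x h hk
    have h2 := hdev.1
    linarith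

/-- the half difference in a window near `oo` -/
private theorem eb_dd (a b : ℂ) (ha : ‖a‖ ≤ 17 / 50) (hb : ‖b‖ ≤ 17 / 50)
    (hd : |((a - b) / 2).im| < 35 / 1000) (hc : ‖(a + b) / 2 - oo‖ < 1 / 200) :
    ‖(a - b) / 2‖ ^ 2 ≤ 137 / 10000 := by
  obtain ⟨c, hcd⟩ : ∃ c, c = (a + b) / 2 := ⟨_, rfl⟩
  obtain ⟨d, hdd⟩ : ∃ d, d = (a - b) / 2 := ⟨_, rfl⟩
  have ea : a = c + d := by rw [hcd, hdd]; ring
  have eb : b = c - d := by rw [hcd, hdd]; ring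
  rw [← hcd] at hc
  rw [← hdd] at hd ⊢
  rw [ea] at ha
  rw [eb] at hb
  have hre := (Complex.abs_re_le_norm (c - oo)).trans hc.le
  have him := (Complex.abs_im_le_norm (c - oo)).trans hc.le
  rw [Complex.sub_re, abs_le] at hre
  rw [Complex.sub_im, abs_le] at him
  have o1 : oo.re = -191206 / 1000000 := rfl
  have o2 : oo.im = 204897 / 1000000 := rfl
  rw [o1] at hre
  rw [o2] at him
  obtain ⟨d1, d2⟩ := abs_lt.1 hd
  obtain ⟨r1, r2⟩ := hre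
  obtain ⟨i1, i2⟩ := him
  have na : ‖c + d‖ ^ 2 ≤ (17 / 50) ^ 2 := pow_le_pow_left₀ (norm_nonneg _) ha 2
  have nb : ‖c - d‖ ^ 2 ≤ (17 / 50) ^ 2 := pow_le_pow_left₀ (norm_nonneg _) hb 2
  rw [Complex.sq_norm, Complex.normSq_apply, Complex.add_re, Complex.add_im] at na
  rw [Complex.sq_norm, Complex.normSq_apply, Complex.sub_re, Complex.sub_im] at nb
  rw [Complex.sq_norm, Complex.normSq_apply]
  have ia : (16489 / 100000) * (16489 / 100000) ≤ (c.im + d.im) * (c.im + d.im) := by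
    have : 16489 / 100000 ≤ c.im + d.im := by linarith
    exact mul_le_mul this this (by norm_num) (by linarith)
  have ib : (16489 / 100000) * (16489 / 100000) ≤ (c.im - d.im) * (c.im - d.im) := by
    have : 16489 / 100000 ≤ c.im - d.im := by linarith
    exact mul_le_mul this this (by norm_num) (by linarith)
  have ra : |c.re + d.re| ≤ 29735 / 100000 := by
    refine abs_le_of_sq_le_sq ?_ (by norm_num)
    nlinarith
  have rb : |c.re - d.re| ≤ 29735 / 100000 := by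
    refine abs_le_of_sq_le_sq ?_ (by norm_num)
    nlinarith
  have hdr : |d.re| ≤ 11122 / 100000 := by
    rw [abs_le] at ra rb ⊢
    constructor <;> linarith [ra.1, rb.1]
  have q1 : d.re * d.re ≤ 11122 / 100000 * (11122 / 100000) := by
    rw [← abs_mul_abs_self d.re]
    exact mul_le_mul hdr hdr (abs_nonneg _) (by norm_num)
  have q2 : d.im * d.im ≤ 35 / 1000 * (35 / 1000) := by
    rw [← abs_mul_abs_self d.im]
    exact mul_le_mul hd.le hd.le (abs_nonneg _) (by norm_num)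
  linarith

private theorem eb_S : (0 : ℝ) < 13 / 20 - (rho1Q : ℝ) := by
  unfold rho1Q r3Q
  push_cast
  norm_num

/-- `c = (a+b)/2 = p + δ`, `d = (a-b)/2`, `‖δ‖ ≤ 1/200 + 2/100000 ≤ 503/100000`; `‖d‖^2 ≤ 137/10000`:
`|c.re| ≥ .186156`, `(c ± d).im ≥ .16485`, so `|c.re| + |d.re| ≤ √(.34^2 - .16485^2) ≤ .29737`,
`|d.re| ≤ .11122`. `master_L` (`L3 = 1/2`, `s3 = 7/10`, `μ = muc`, `g = gc`), `phi_lower` with `o = p`
(`L2 = 848/1000`, `s2 = 9/100`, `cm = 2854/10000`, `km = 48/100`, `D2 = 137/10000`), `dform_ball`,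
`exact_av`. -/
theorem exact_window (J : ℕ) (hJ : 5 ≤ J) (ψ : ℤ → ℂ) (hψ : ∀ k, ‖ψ k‖ ≤ 17 / 50) (M : ℝ)
    (h : ∀ (k : ℤ) (t : ℝ), ‖FJ J ψ k t‖ ^ 2 ≤ M) (p : ℂ) (κ w x : ℝ) (hc : CritPt J p κ)
    (hk : KKT J p κ w x) (k : ℤ) (hW : Win ψ k) (hb : ‖(ψ k + ψ (k + 1)) / 2 - oo‖ < 1 / 200) :
    κ - M ≤ telk J p (muc J p w x) (gc J p w x) ψ k := by
  obtain ⟨δ, hδd⟩ : ∃ δ, δ = (ψ k + ψ (k + 1)) / 2 - p := ⟨_, rfl⟩
  obtain ⟨d, hdd⟩ : ∃ d, d = (ψ k - ψ (k + 1)) / 2 := ⟨_, rfl⟩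
  have hp := crit_loc J hJ p κ hc
  have hpn : ‖p‖ ≤ 2803 / 10000 := (locN J hJ p κ w x hc hk).hp
  have hδ : ‖δ‖ ≤ 503 / 100000 := by
    have e : δ = ((ψ k + ψ (k + 1)) / 2 - oo) - (p - oo) := by rw [hδd]; ring
    rw [e]
    refine (norm_sub_le _ _).trans ?_
    linarith
  have hD : ‖d‖ ^ 2 ≤ 137 / 10000 := by
    rw [hdd]
    exact eb_dd _ _ (hψ k) (hψ (k + 1)) hW.2 hb
  obtain ⟨hw0, hw1, hx0, hx1, hn, hL3, hL2⟩ := side_cond J hJ p κ w x hc hk δ hδ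
  have hL := locN J hJ p κ w x hc hk
  obtain ⟨hww, hxx⟩ := eb_wx hL.hw hL.hx hδ
  obtain ⟨g1, g2, g3⟩ := sig_bounds _ _ hww hxx
  have er3 : (r3Q : ℝ) = 5 * (17 / 50) ^ 4 * (1 / 2) + 2 * (17 / 50) ^ 5 * (7 / 10) := by
    unfold r3Q
    push_cast
    norm_num
  have er0 : (15 : ℝ) * (17 / 50) ^ 4 * (1 / 2) + 124 / 10000 = (rho0Q : ℝ) := by
    unfold rho0Q
    push_cast
    norm_num
  have er1 : 2 * (r3Q : ℝ) + 7 / 100 + 240 / 10000 = (rho1Q : ℝ) := by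
    unfold rho1Q
    push_cast
    norm_num
  have hm := master_L J hJ ψ hψ p (hpn.trans (by norm_num)) (muc J p w x) (gc J p w x) k M
    (xform J ψ k M (h k)) (wd' w δ) (xd' x δ) (Et J p δ 1) (Et J p δ (xd' x δ)) hw0 hw1 hx0 hx1 hn
    (1 / 2) (7 / 10) (r3Q : ℝ) hL3 g3 er3 (by rw [er3]; norm_num)
  rw [er0, er1] at hm
  have ea : ψ k = p + δ + d := by rw [hδd, hdd]; ring
  have eb : ψ (k + 1) = p + δ - d := by rw [hδd, hdd]; ring
  have hcm : ‖p + δ‖ ≤ 2854 / 10000 := (norm_add_le _ _).trans (by linarith)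
  have hkm : ‖kap (sg (wd' w δ) (xd' x δ) 2) (9 / 20) (p + δ)‖ ≤ 48 / 100 := by
    unfold kap
    refine (norm_add_le _ _).trans ?_
    have e1 : ‖(((9 / 20 : ℝ)) : ℂ)‖ = 9 / 20 := by
      rw [Complex.norm_real, Real.norm_eq_abs, abs_of_pos (by norm_num)]
    have e2 : ‖4 * ((sg (wd' w δ) (xd' x δ) 2 : ℝ) : ℂ) * (p + δ) ^ 2‖ ≤
        4 * (9 / 100) * (2854 / 10000) ^ 2 := by
      rw [norm_mul, norm_mul, norm_pow, Complex.norm_real, Real.norm_eq_abs]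
      have h4 : ‖(4 : ℂ)‖ = 4 := by norm_num
      rw [h4]
      exact mul_le_mul (mul_le_mul_of_nonneg_left g2 (by norm_num))
        (pow_le_pow_left₀ (norm_nonneg _) hcm 2) (by positivity) (by norm_num)
    rw [e1]
    linarith
  have hz := zz_small J hJ p κ w x hc hk δ hδ
  have hav := exact_av J hJ p κ w x hc hk δ hδ
  have hdf := dform_ball (Ld J p w x δ 2) (TT2 J (Ld J p w x δ) p) (gc J p w x) p δ d
    (sg (wd' w δ) (xd' x δ) 1) (sg (wd' w δ) (xd' x δ) 2) hp.le hδ hL2 g1 g2 hz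
  have hph := phi_lower (Ld J p w x δ 0) (Ld J p w x δ 1) (Ld J p w x δ 2)
    (TT0 J (Ld J p w x δ) p) (TT1 J (Ld J p w x δ) (muc J p w x) p) (TT2 J (Ld J p w x δ) p)
    (gc J p w x) p (nu (wd' w δ) (xd' x δ) (Et J p δ 1) (Et J p δ (xd' x δ)))
    (sg (wd' w δ) (xd' x δ) 1) (sg (wd' w δ) (xd' x δ) 2) (13 / 20) (9 / 20)
    (rho0Q : ℝ) (rho1Q : ℝ) (36 * (17 / 50) ^ 5 * (7 / 10) + 35 / 10000) 0
    (EL J (Ld J p w x δ) (muc J p w x) p (r3Q : ℝ)) 0 eb_S (p + δ) d (ψ (k - 1)) (ψ (k + 2))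
    (848 / 1000) (9 / 100) (2854 / 10000) (48 / 100) (137 / 10000) hL2 g2 hcm hkm hD
  rw [← ea, ← eb] at hph
  have hm' : Phi (Ld J p w x δ 0) (Ld J p w x δ 1) (Ld J p w x δ 2)
    (TT0 J (Ld J p w x δ) p) (TT1 J (Ld J p w x δ) (muc J p w x) p) (TT2 J (Ld J p w x δ) p)
    (gc J p w x) p (nu (wd' w δ) (xd' x δ) (Et J p δ 1) (Et J p δ (xd' x δ)))
    (sg (wd' w δ) (xd' x δ) 1) (sg (wd' w δ) (xd' x δ) 2) (13 / 20) (9 / 20)
    (rho0Q : ℝ) (rho1Q : ℝ) (36 * (17 / 50) ^ 5 * (7 / 10) + 35 / 10000) 0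
    (EL J (Ld J p w x δ) (muc J p w x) p (r3Q : ℝ)) 0 (ψ k) (ψ (k + 1)) (ψ (k - 1))
    (ψ (k + 2)) ≤ M + telk J p (muc J p w x) (gc J p w x) ψ k := hm
  linarith

end Pool.Agent.MaxTerm8
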