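import Pool.Agent.MaxTerm8.Defs

/-! Telescoping sequences and averaging. -/

namespace Pool.Agent.MaxTerm8

open Complex ComplexConjugate

/-- bounded partial sums (over `k = 0, ..., N-1`) -/
def IsTel (f : ℤ → ℝ) : Prop := ∃ C : ℝ, ∀ N : ℕ, |∑ k ∈ Finset.range N, f k| ≤ C

theorem IsTel.add {f g : ℤ → ℝ} (hf : IsTel f) (hg : IsTel g) : IsTel fun k => f k + g k := by
  obtain ⟨C, hC⟩ := hf
  obtain ⟨D, hD⟩ := hg
  refine ⟨C + D, fun N => ?_⟩
  rw [Finset.sum_add_distrib]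
  exact (abs_add_le _ _).trans (add_le_add (hC N) (hD N))

theorem IsTel.const_mul {f : ℤ → ℝ} (c : ℝ) (hf : IsTel f) : IsTel fun k => c * f k := by
  obtain ⟨C, hC⟩ := hf
  refine ⟨|c| * C, fun N => ?_⟩
  rw [← Finset.mul_sum, abs_mul]
  exact mul_le_mul_of_nonneg_left (hC N) (abs_nonneg c)

private theorem isTel_zero : IsTel fun _ => (0 : ℝ) := ⟨0, fun N => by simp⟩

theorem IsTel.sum {ι : Type*} (s : Finset ι) (f : ι → ℤ → ℝ) (hf : ∀ i ∈ s, IsTel (f i)) :
    IsTel fun k => ∑ i ∈ s, f i k := by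
  classical
  induction s using Finset.induction_on with
  | empty => simpa using isTel_zero
  | insert a s ha ih =>
    have h1 := ih (fun i hi => hf i (Finset.mem_insert_of_mem hi))
    have h2 := (hf a (Finset.mem_insert_self a s)).add h1
    simpa [Finset.sum_insert ha] using h2

private theorem isTel_step (h : ℤ → ℝ) (B : ℝ) (hB : ∀ k, |h k| ≤ B) (i : ℤ) :
    IsTel fun k => h (k + (i + 1)) - h (k + i) := by
  refine ⟨B + B, fun N => ?_⟩
  have key : ∀ N : ℕ, ∑ k ∈ Finset.range N, (h ((k : ℤ) + (i + 1)) - h ((k : ℤ) + i)) =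
      h ((N : ℤ) + i) - h i := by
    intro N
    induction N with
    | zero => simp
    | succ n ih =>
      rw [Finset.sum_range_succ, ih]
      have e1 : (n : ℤ) + (i + 1) = ((n + 1 : ℕ) : ℤ) + i := by push_cast; ring
      rw [e1]
      ring
  rw [key N]
  exact (abs_sub _ _).trans (add_le_add (hB _) (hB _))

/-- Both sums differ by at most `|i - i'|` terms at each end. (Enough: `h (k+1) - h k` telescopes,
`h (k+i) - h k` by induction.) -/
theorem isTel_shift (h : ℤ → ℝ) (B : ℝ) (hB : ∀ k, |h k| ≤ B) (i i' : ℤ) :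
    IsTel fun k => h (k + i) - h (k + i') := by
  have main : ∀ i : ℤ, IsTel fun k => h (k + i) - h k := by
    intro i
    induction i using Int.induction_on with
    | zero => simpa using isTel_zero
    | succ n ih =>
      have h2 := ih.add (isTel_step h B hB (n : ℤ))
      have e : (fun k => h (k + (n : ℤ)) - h k + (h (k + ((n : ℤ) + 1)) - h (k + (n : ℤ)))) =
          fun k => h (k + ((n : ℤ) + 1)) - h k := by
        funext k; ring
      rw [e] at h2
      exact h2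
    | pred n ih =>
      have h2 := ih.add ((isTel_step h B hB (-(n : ℤ) - 1)).const_mul (-1))
      have e : (fun k => h (k + -(n : ℤ)) - h k +
          -1 * (h (k + (-(n : ℤ) - 1 + 1)) - h (k + (-(n : ℤ) - 1)))) =
          fun k => h (k + (-(n : ℤ) - 1)) - h k := by
        funext k
        have e1 : -(n : ℤ) - 1 + 1 = -(n : ℤ) := by ring
        rw [e1]; ring
      rw [e] at h2
      exact h2
  have h3 := (main i).add ((main i').const_mul (-1))
  have e : (fun k => h (k + i) - h k + -1 * (h (k + i') - h k)) =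
      fun k => h (k + i) - h (k + i') := by
    funext k; ring
  rw [e] at h3
  exact h3

private theorem abs_norm_sq (z : ℂ) (B : ℝ) (hB : 0 ≤ B) (h : ‖z‖ ≤ B) : |‖z‖ ^ 2| ≤ B ^ 2 := by
  rw [abs_of_nonneg (by positivity)]
  exact pow_le_pow_left₀ (norm_nonneg z) h 2

/-- `pot` is a combination of `h (k+i) - h (k+i')` for `h = ‖ψ k‖^2`, `Re (conj g * ψ k)` and
`Re (ψ k * conj (ψ (k+1)))` (note `Re (ψ (k+2) conj (ψ (k+1))) = h (k+1)` for the last one,
`Re (ψ (k-1) conj (ψ k)) = h (k-1)`); all bounded. -/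
theorem isTel_pot (g : ℂ) (ψ : ℤ → ℂ) (hψ : ∀ k, ‖ψ k‖ ≤ 17 / 50) : IsTel (pot g ψ) := by
  have b1 : ∀ k, |(fun k => ‖ψ k‖ ^ 2) k| ≤ (17 / 50 : ℝ) ^ 2 := fun k =>
    abs_norm_sq _ _ (by norm_num) (hψ k)
  have b2 : ∀ k, |(fun k => (conj g * ψ k).re) k| ≤ ‖g‖ * (17 / 50 : ℝ) := fun k => by
    refine (Complex.abs_re_le_norm _).trans ?_
    rw [norm_mul, RCLike.norm_conj]
    exact mul_le_mul_of_nonneg_left (hψ k) (norm_nonneg g)
  have b3 : ∀ k, |(fun k => (ψ k * conj (ψ (k + 1))).re) k| ≤ (17 / 50 : ℝ) * (17 / 50) :=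
      fun k => by
    refine (Complex.abs_re_le_norm _).trans ?_
    rw [norm_mul, RCLike.norm_conj]
    exact mul_le_mul (hψ k) (hψ (k + 1)) (norm_nonneg _) (by norm_num)
  have t1 := ((isTel_shift _ _ b1 (-1) 0).add (isTel_shift _ _ b1 2 1)).const_mul (13 / 20)
  have t2 := (isTel_shift _ _ b2 (-1) 0).add (isTel_shift _ _ b2 2 1)
  have t3 := ((isTel_shift _ _ b3 (-1) 0).add (isTel_shift _ _ b3 1 0)).const_mul (9 / 20)
  have t4 := (t1.add t2).add t3
  refine cast (congrArg IsTel ?_) t4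
  funext k
  have e1 : (ψ (k + 2) * conj (ψ (k + 1))).re = (ψ (k + 1) * conj (ψ (k + 1 + 1))).re := by
    have : k + 1 + 1 = k + 2 := by ring
    rw [this]
    simp only [Complex.mul_re, Complex.conj_re, Complex.conj_im]
    ring
  have e2 : k + -1 + 1 = k := by ring
  unfold pot
  rw [e1]
  simp only [add_zero, ← sub_eq_add_neg k 1, mul_sub, mul_add, Complex.sub_re, Complex.add_re]
  ring_nf

/-- Same with `h = ‖ψ k - p‖^2` and `h = Re (μ j * p^(tri j - 1) * ψ k)`. -/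
theorem isTel_tele (p : ℂ) (μ : ℕ → ℂ) (e : ℕ → ℝ) (ψ : ℤ → ℂ) (hψ : ∀ k, ‖ψ k‖ ≤ 17 / 50)
    (j : ℕ) : IsTel fun k => tele p μ e ψ k j := by
  have b1 : ∀ k, |(fun k => ‖ψ k - p‖ ^ 2) k| ≤ (17 / 50 + ‖p‖ : ℝ) ^ 2 := fun k =>
    abs_norm_sq _ _ (by positivity) ((norm_sub_le _ _).trans (add_le_add (hψ k) le_rfl))
  have b2 : ∀ k, |(fun k => (μ j * p ^ (tri j - 1) * ψ k).re) k| ≤
      ‖μ j * p ^ (tri j - 1)‖ * (17 / 50 : ℝ) := fun k => by
    refine (Complex.abs_re_le_norm _).trans ?_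
    rw [norm_mul]
    exact mul_le_mul_of_nonneg_left (hψ k) (norm_nonneg _)
  refine IsTel.sum _ _ fun i _ => ?_
  have t1 := (isTel_shift _ _ b1 (-(i : ℤ)) (-1)).const_mul (e j)
  have t2 := (isTel_shift _ _ b2 (-(i : ℤ)) 0).const_mul (-2)
  have t3 := (isTel_shift _ _ b1 (1 + (i : ℤ)) 2).const_mul (e j)
  have t4 := (isTel_shift _ _ b2 (1 + (i : ℤ)) 1).const_mul (-2)
  have t5 := ((t1.add t2).add (t3.add t4)).const_mul ((j : ℝ) - i)
  refine cast (congrArg IsTel ?_) t5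
  funext k
  simp only [add_zero, ← sub_eq_add_neg k, ← add_assoc, mul_sub, Complex.sub_re]
  ring

theorem isTel_telk (J : ℕ) (p : ℂ) (μ : ℕ → ℂ) (g : ℂ) (ψ : ℤ → ℂ)
    (hψ : ∀ k, ‖ψ k‖ ≤ 17 / 50) : IsTel (telk J p μ g ψ) := by
  have h1 := isTel_pot g ψ hψ
  have h2 := IsTel.sum (Finset.Ico 3 (J + 1)) (fun j k => tele p μ ee ψ k j)
    (fun j _ => isTel_tele p μ ee ψ hψ j)
  exact h1.add h2

/-- A telescoping sequence cannot be bounded below by a positive constant. -/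
theorem tel_avg (f : ℤ → ℝ) (hf : IsTel f) (η : ℝ) (hη : ∀ k : ℤ, η ≤ f k) : η ≤ 0 := by
  by_contra hpos
  push Not at hpos
  obtain ⟨C, hC⟩ := hf
  obtain ⟨N, hN⟩ := exists_nat_gt (C / η)
  have h1 : (N : ℝ) * η ≤ ∑ k ∈ Finset.range N, f k := by
    have := Finset.card_nsmul_le_sum (Finset.range N) (fun k : ℕ => f (k : ℤ)) η
      (fun k _ => hη k)
    simpa using this
  have h2 := (le_abs_self _).trans (hC N)
  have h3 : C < (N : ℝ) * η := (div_lt_iff₀ hpos).mp hN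
  linarith

end Pool.Agent.MaxTerm8
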