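import Pool.Agent.MaxTerm8.ExactBall
import Pool.Agent.MaxTerm8.CellA
import Pool.Agent.MaxTerm8.Tel

/-! Step C for the truncated functions. -/

namespace Pool.Agent.MaxTerm8

open Complex ComplexConjugate

/-- Suppose `M < κ`. `stage1` (`M ≤ κ ≤ kp` by `crit_le`); if the first alternative holds,
`telk ≥ min (κ - M) (1/10^6) > 0` for all `k` by `exact_window` and `cellA` (`encl`), which contradicts
`tel_avg (isTel_telk ..)`. In the second case replace `ψ` by its complex conjugate (`fj_conj`). -/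
theorem core_crit (J : ℕ) (hJ : 5 ≤ J) (ψ : ℤ → ℂ) (hψ : ∀ k, ‖ψ k‖ ≤ 17 / 50) (M : ℝ)
    (h : ∀ (k : ℤ) (t : ℝ), ‖FJ J ψ k t‖ ^ 2 ≤ M) (p : ℂ) (κ : ℝ) (hc : CritPt J p κ) : κ ≤ M := by
  by_contra hM
  push Not at hM
  have hκ := crit_le J hJ p κ hc
  have hMkp : M ≤ kp := hM.le.trans hκ
  obtain ⟨w, x, hk⟩ := exists_kkt J hJ p κ hc
  have hE := encl J hJ p κ w x hc hk
  have key : ∀ φ : ℤ → ℂ, (∀ k, ‖φ k‖ ≤ 17 / 50) → (∀ (k : ℤ) (t : ℝ), ‖FJ J φ k t‖ ^ 2 ≤ M) →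
      (∀ k, Win φ k) → False := by
    intro φ hφ hF hW
    have h1 := tel_avg (telk J p (muc J p w x) (gc J p w x) φ)
      (isTel_telk J p (muc J p w x) (gc J p w x) φ hφ) (min (κ - M) (1 / 1000000)) (fun k => by
        rcases lt_or_ge ‖(φ k + φ (k + 1)) / 2 - oo‖ (1 / 200) with h2 | h2
        · exact (min_le_left _ _).trans (exact_window J hJ φ hφ M hF p κ w x hc hk k (hW k) h2)
        · exact (min_le_right _ _).trans (cellA J hJ φ hφ M hMkp hF p _ _ hE k (hW k) h2))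
    have h3 : 0 < min (κ - M) (1 / 1000000) := lt_min (sub_pos.2 hM) (by norm_num)
    linarith
  rcases stage1 J (by omega) ψ hψ M hMkp h with hW | hW
  · exact key ψ hψ h hW
  · refine key (fun k => conj (ψ k)) (fun k => ?_) (fun k t => ?_) hW
    · rw [Complex.norm_conj]
      exact hψ k
    · rw [fj_conj, Complex.norm_conj]
      exact h k (-t)

/-- `exists_crit`; `κ ≤ ‖ThJ J p t‖^2 = GJ J p (cos 2t) ≤ κ_J ≤ M` (`th_gj`, `CritPt.hmax`). -/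
theorem coreJ (J : ℕ) (hJ : 5 ≤ J) (κ : ℝ)
    (hκ : ∀ q : ℂ, ‖q‖ ≤ 17 / 50 → ∃ t : ℝ, κ ≤ ‖ThJ J q t‖ ^ 2) (ψ : ℤ → ℂ)
    (hψ : ∀ k, ‖ψ k‖ ≤ 17 / 50) (M : ℝ) (h : ∀ (k : ℤ) (t : ℝ), ‖FJ J ψ k t‖ ^ 2 ≤ M) : κ ≤ M := by
  obtain ⟨p, κ', hc⟩ := exists_crit J
  obtain ⟨t, ht⟩ := hκ p hc.hp
  rw [th_gj] at ht
  exact (ht.trans (hc.hmax _ (Real.neg_one_le_cos _) (Real.cos_le_one _))).trans
    (core_crit J hJ ψ hψ M h p κ' hc)

end Pool.Agent.MaxTerm8
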