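import Pool.Agent.MaxTerm8.Defs

/-! Gaussian rationals, boxes, trees and the rational versions of the moments. -/

namespace Pool.Agent.MaxTerm8

open Complex ComplexConjugate

/-- a Gaussian rational -/
structure GQ where
  re : ℚ
  im : ℚ

namespace GQ

instance : Add GQ := ⟨fun a b => ⟨a.re + b.re, a.im + b.im⟩⟩
instance : Sub GQ := ⟨fun a b => ⟨a.re - b.re, a.im - b.im⟩⟩
instance : Neg GQ := ⟨fun a => ⟨-a.re, -a.im⟩⟩
instance : Mul GQ := ⟨fun a b => ⟨a.re * b.re - a.im * b.im, a.re * b.im + a.im * b.re⟩⟩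

/-- conjugate -/
def cj (a : GQ) : GQ := ⟨a.re, -a.im⟩

/-- rational multiple -/
def sm (r : ℚ) (a : GQ) : GQ := ⟨r * a.re, r * a.im⟩

/-- rational number -/
def ofQ (r : ℚ) : GQ := ⟨r, 0⟩

/-- power -/
def pw (a : GQ) : ℕ → GQ
  | 0 => ⟨1, 0⟩
  | (n + 1) => pw a n * a

/-- squared norm -/
def n2 (a : GQ) : ℚ := a.re ^ 2 + a.im ^ 2

/-- the complex number -/
noncomputable def toC (a : GQ) : ℂ := ⟨(a.re : ℝ), (a.im : ℝ)⟩

theorem toC_add (a b : GQ) : (a + b).toC = a.toC + b.toC := by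
  apply Complex.ext
  · show ((a.re + b.re : ℚ) : ℝ) = (a.re : ℝ) + (b.re : ℝ)
    push_cast
    ring
  · show ((a.im + b.im : ℚ) : ℝ) = (a.im : ℝ) + (b.im : ℝ)
    push_cast
    ring

theorem toC_sub (a b : GQ) : (a - b).toC = a.toC - b.toC := by
  apply Complex.ext
  · show ((a.re - b.re : ℚ) : ℝ) = (a.re : ℝ) - (b.re : ℝ)
    push_cast
    ring
  · show ((a.im - b.im : ℚ) : ℝ) = (a.im : ℝ) - (b.im : ℝ)
    push_cast
    ring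

theorem toC_neg (a : GQ) : (-a).toC = -a.toC := by
  apply Complex.ext
  · show ((-a.re : ℚ) : ℝ) = -(a.re : ℝ)
    push_cast
    ring
  · show ((-a.im : ℚ) : ℝ) = -(a.im : ℝ)
    push_cast
    ring

theorem toC_mul (a b : GQ) : (a * b).toC = a.toC * b.toC := by
  apply Complex.ext
  · show ((a.re * b.re - a.im * b.im : ℚ) : ℝ) = (a.re : ℝ) * (b.re : ℝ) - (a.im : ℝ) * (b.im : ℝ)
    push_cast
    ring
  · show ((a.re * b.im + a.im * b.re : ℚ) : ℝ) = (a.re : ℝ) * (b.im : ℝ) + (a.im : ℝ) * (b.re : ℝ)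
    push_cast
    ring

theorem toC_cj (a : GQ) : a.cj.toC = conj a.toC := by
  apply Complex.ext
  · rw [Complex.conj_re]
    rfl
  · rw [Complex.conj_im]
    show ((-a.im : ℚ) : ℝ) = -(a.im : ℝ)
    push_cast
    ring

theorem toC_sm (r : ℚ) (a : GQ) : (sm r a).toC = ((r : ℝ) : ℂ) * a.toC := by
  apply Complex.ext
  · rw [Complex.re_ofReal_mul]
    show ((r * a.re : ℚ) : ℝ) = (r : ℝ) * (a.re : ℝ)
    push_cast
    ring
  · rw [Complex.im_ofReal_mul]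
    show ((r * a.im : ℚ) : ℝ) = (r : ℝ) * (a.im : ℝ)
    push_cast
    ring

theorem toC_ofQ (r : ℚ) : (ofQ r).toC = ((r : ℝ) : ℂ) := by
  apply Complex.ext
  · rw [Complex.ofReal_re]
    rfl
  · rw [Complex.ofReal_im]
    show ((0 : ℚ) : ℝ) = 0
    push_cast
    rfl

theorem toC_pw (a : GQ) (n : ℕ) : (a.pw n).toC = a.toC ^ n := by
  induction n with
  | zero =>
    rw [pow_zero]
    apply Complex.ext
    · show ((1 : ℚ) : ℝ) = (1 : ℂ).re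
      rw [Complex.one_re]
      push_cast
      rfl
    · show ((0 : ℚ) : ℝ) = (1 : ℂ).im
      rw [Complex.one_im]
      push_cast
      rfl
  | succ n ih =>
    rw [pow_succ, ← ih]
    exact toC_mul _ _

theorem n2_eq (a : GQ) : ((a.n2 : ℚ) : ℝ) = ‖a.toC‖ ^ 2 := by
  rw [← Complex.normSq_eq_norm_sq, Complex.normSq_apply]
  show ((a.re ^ 2 + a.im ^ 2 : ℚ) : ℝ) = (a.re : ℝ) * (a.re : ℝ) + (a.im : ℝ) * (a.im : ℝ)
  push_cast
  ring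

end GQ

/-- the polynomials commute with casts -/
theorem uu_cast (x : ℚ) (j : ℕ) : ((UU x j : ℚ) : ℝ) = UU (x : ℝ) j := by
  have key : ∀ j : ℕ, ((UU x j : ℚ) : ℝ) = UU (x : ℝ) j ∧
      ((UU x (j + 1) : ℚ) : ℝ) = UU (x : ℝ) (j + 1) := by
    intro j
    induction j with
    | zero =>
      constructor
      · simp [UU]
      · simp [UU]
    | succ n ih =>
      refine ⟨ih.2, ?_⟩
      simp only [UU]
      push_cast
      rw [ih.1, ih.2]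
  exact (key j).1

theorem vv_cast (x : ℚ) (j : ℕ) : ((VV x j : ℚ) : ℝ) = VV (x : ℝ) j := by
  have key : ∀ j : ℕ, ((VV x j : ℚ) : ℝ) = VV (x : ℝ) j ∧
      ((VV x (j + 1) : ℚ) : ℝ) = VV (x : ℝ) (j + 1) := by
    intro j
    induction j with
    | zero =>
      constructor
      · simp [VV]
      · simp [VV]
    | succ n ih =>
      refine ⟨ih.2, ?_⟩
      simp only [VV]
      push_cast
      rw [ih.1, ih.2]
  exact (key j).1

/-- rational version of `lam` -/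
def lamQ (w x : ℚ) (Y0 Y1 : GQ) (j : ℕ) : GQ :=
  GQ.sm w Y0.cj + GQ.sm ((1 - w) * ((1 + x) / 2) * UU x j) Y1.cj

/-- rational version of `nu` -/
def nuQ (w x : ℚ) (Y0 Y1 : GQ) : ℚ := w * Y0.n2 + (1 - w) * ((1 + x) / 2) * Y1.n2

/-- rational version of `sg` -/
def sgQ (w x : ℚ) (j : ℕ) : ℚ := (1 - w) * ((1 - x) / 2) * (VV x 1 * VV x j)

theorem lamQ_eq (w x : ℚ) (Y0 Y1 : GQ) (j : ℕ) :
    (lamQ w x Y0 Y1 j).toC = lam w x Y0.toC Y1.toC j := by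
  unfold lamQ lam
  rw [GQ.toC_add, GQ.toC_sm, GQ.toC_sm, GQ.toC_cj, GQ.toC_cj]
  have h : (((1 - w) * ((1 + x) / 2) * UU x j : ℚ) : ℝ) =
      (1 - (w : ℝ)) * ((1 + (x : ℝ)) / 2) * UU (x : ℝ) j := by
    rw [← uu_cast]
    push_cast
    ring
  rw [h]

theorem nuQ_eq (w x : ℚ) (Y0 Y1 : GQ) : ((nuQ w x Y0 Y1 : ℚ) : ℝ) = nu w x Y0.toC Y1.toC := by
  unfold nuQ nu
  rw [← GQ.n2_eq, ← GQ.n2_eq]
  push_cast
  ring

theorem sgQ_eq (w x : ℚ) (j : ℕ) : ((sgQ w x j : ℚ) : ℝ) = sg w x j := by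
  unfold sgQ sg
  rw [← vv_cast, ← vv_cast]
  push_cast
  ring

/-- a box in the plane -/
structure Bx where
  x1 : ℚ
  x2 : ℚ
  y1 : ℚ
  y2 : ℚ

/-- points of the box -/
def Bx.Mem (B : Bx) (c : ℂ) : Prop :=
  (B.x1 : ℝ) ≤ c.re ∧ c.re ≤ (B.x2 : ℝ) ∧ (B.y1 : ℝ) ≤ c.im ∧ c.im ≤ (B.y2 : ℝ)

/-- centre of the box -/
def Bx.ct (B : Bx) : GQ := ⟨(B.x1 + B.x2) / 2, (B.y1 + B.y2) / 2⟩

/-- half width -/
def Bx.hx (B : Bx) : ℚ := (B.x2 - B.x1) / 2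

/-- half height -/
def Bx.hy (B : Bx) : ℚ := (B.y2 - B.y1) / 2

/-- binary subdivision trees -/
inductive Tr (α : Type) where
  | leaf (a : α)
  | out
  | inn
  | sx (l r : Tr α)
  | sy (l r : Tr α)

/-- checker for trees -/
def Tr.check {α : Type} (lf : Bx → α → Bool) (ot nn : Bx → Bool) : Tr α → Bx → Bool
  | .leaf a, B => lf B a
  | .out, B => ot B
  | .inn, B => nn B
  | .sx l r, B => l.check lf ot nn ⟨B.x1, (B.x1 + B.x2) / 2, B.y1, B.y2⟩ &&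
      r.check lf ot nn ⟨(B.x1 + B.x2) / 2, B.x2, B.y1, B.y2⟩
  | .sy l r, B => l.check lf ot nn ⟨B.x1, B.x2, B.y1, (B.y1 + B.y2) / 2⟩ &&
      r.check lf ot nn ⟨B.x1, B.x2, (B.y1 + B.y2) / 2, B.y2⟩

theorem Tr.sound {α : Type} (lf : Bx → α → Bool) (ot nn : Bx → Bool) (P : ℂ → Prop)
    (hlf : ∀ B a, lf B a = true → ∀ c, B.Mem c → P c)
    (hot : ∀ B, ot B = true → ∀ c, B.Mem c → P c)
    (hnn : ∀ B, nn B = true → ∀ c, B.Mem c → P c) (T : Tr α) (B : Bx)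
    (h : T.check lf ot nn B = true) (c : ℂ) (hc : B.Mem c) : P c := by
  induction T generalizing B with
  | leaf a => exact hlf B a h c hc
  | out => exact hot B h c hc
  | inn => exact hnn B h c hc
  | sx l r ihl ihr =>
    simp only [Tr.check, Bool.and_eq_true] at h
    obtain ⟨h1, h2, h3, h4⟩ := hc
    rcases le_total c.re (((B.x1 + B.x2) / 2 : ℚ) : ℝ) with h5 | h5
    · exact ihl _ h.1 ⟨h1, h5, h3, h4⟩
    · exact ihr _ h.2 ⟨h5, h2, h3, h4⟩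
  | sy l r ihl ihr =>
    simp only [Tr.check, Bool.and_eq_true] at h
    obtain ⟨h1, h2, h3, h4⟩ := hc
    rcases le_total c.im (((B.y1 + B.y2) / 2 : ℚ) : ℝ) with h5 | h5
    · exact ihl _ h.1 ⟨h1, h2, h3, h5⟩
    · exact ihr _ h.2 ⟨h1, h2, h5, h4⟩

/-- distance from `0` to the interval `[a, b]` -/
def dist0 (a b : ℚ) : ℚ := max 0 (max a (-b))

private theorem dist0_nonneg (a b : ℚ) : 0 ≤ dist0 a b := le_max_left _ _

private theorem dist0_le {a b : ℚ} {x : ℝ} (h1 : (a : ℝ) ≤ x) (h2 : x ≤ (b : ℝ)) :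
    ((dist0 a b : ℚ) : ℝ) ^ 2 ≤ x ^ 2 := by
  have h0 : (0 : ℝ) ≤ ((dist0 a b : ℚ) : ℝ) := by exact_mod_cast dist0_nonneg a b
  have h3 : ((dist0 a b : ℚ) : ℝ) ≤ |x| := by
    unfold dist0
    push_cast
    refine max_le (abs_nonneg x) (max_le (h1.trans (le_abs_self x)) ?_)
    exact (neg_le_neg h2).trans (neg_le_abs x)
  rw [← sq_abs x]
  exact pow_le_pow_left₀ h0 h3 2

private theorem norm_sq_eq (z : ℂ) : ‖z‖ ^ 2 = z.re ^ 2 + z.im ^ 2 := by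
  rw [← Complex.normSq_eq_norm_sq, Complex.normSq_apply]
  ring

/-- the box does not meet the disc of radius `17/50` -/
def outDisc (B : Bx) : Bool :=
  decide ((17 / 50 : ℚ) ^ 2 < dist0 B.x1 B.x2 ^ 2 + dist0 B.y1 B.y2 ^ 2)

theorem outDisc_sound (B : Bx) (h : outDisc B = true) (c : ℂ) (hc : B.Mem c) : 17 / 50 < ‖c‖ := by
  have h1 : (17 / 50 : ℚ) ^ 2 < dist0 B.x1 B.x2 ^ 2 + dist0 B.y1 B.y2 ^ 2 := of_decide_eq_true h
  have h2 : (17 / 50 : ℝ) ^ 2 <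
      ((dist0 B.x1 B.x2 : ℚ) : ℝ) ^ 2 + ((dist0 B.y1 B.y2 : ℚ) : ℝ) ^ 2 := by
    have h3 : (((17 / 50 : ℚ) ^ 2 : ℚ) : ℝ) <
        ((dist0 B.x1 B.x2 ^ 2 + dist0 B.y1 B.y2 ^ 2 : ℚ) : ℝ) := by exact_mod_cast h1
    push_cast at h3
    exact h3
  obtain ⟨c1, c2, c3, c4⟩ := hc
  have h4 := dist0_le c1 c2
  have h5 := dist0_le c3 c4
  have h6 : (17 / 50 : ℝ) ^ 2 < ‖c‖ ^ 2 := by
    rw [norm_sq_eq]
    linarith
  exact lt_of_pow_lt_pow_left₀ 2 (norm_nonneg c) h6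

/-- rational centre -/
def oQ : GQ := ⟨-191206 / 1000000, 204897 / 1000000⟩

private theorem oQ_re : (oQ.toC).re = (oQ.re : ℝ) := rfl

private theorem oQ_im : (oQ.toC).im = (oQ.im : ℝ) := rfl

/-- the box is contained in the open disc of radius `ρ` around `oQ` -/
def inBall (ρ : ℚ) (B : Bx) : Bool :=
  decide (max |B.x1 - oQ.re| |B.x2 - oQ.re| ^ 2 + max |B.y1 - oQ.im| |B.y2 - oQ.im| ^ 2 < ρ ^ 2)

theorem inBall_sound (ρ : ℚ) (hρ : 0 ≤ ρ) (B : Bx) (h : inBall ρ B = true) (c : ℂ)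
    (hc : B.Mem c) : ‖c - oQ.toC‖ < ρ := by
  have h1 : max |B.x1 - oQ.re| |B.x2 - oQ.re| ^ 2 + max |B.y1 - oQ.im| |B.y2 - oQ.im| ^ 2 < ρ ^ 2 :=
    of_decide_eq_true h
  have h2 : (max |(B.x1 : ℝ) - oQ.re| |(B.x2 : ℝ) - oQ.re|) ^ 2 +
      (max |(B.y1 : ℝ) - oQ.im| |(B.y2 : ℝ) - oQ.im|) ^ 2 < (ρ : ℝ) ^ 2 := by
    have h3 : ((max |B.x1 - oQ.re| |B.x2 - oQ.re| ^ 2 +
        max |B.y1 - oQ.im| |B.y2 - oQ.im| ^ 2 : ℚ) : ℝ) < ((ρ ^ 2 : ℚ) : ℝ) := by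
      exact_mod_cast h1
    push_cast at h3
    exact h3
  obtain ⟨c1, c2, c3, c4⟩ := hc
  have h4 : (c.re - oQ.re) ^ 2 ≤ (max |(B.x1 : ℝ) - oQ.re| |(B.x2 : ℝ) - oQ.re|) ^ 2 := by
    rw [← sq_abs (c.re - (oQ.re : ℝ))]
    refine pow_le_pow_left₀ (abs_nonneg _) ?_ 2
    exact abs_le_max_abs_abs (by linarith) (by linarith)
  have h5 : (c.im - oQ.im) ^ 2 ≤ (max |(B.y1 : ℝ) - oQ.im| |(B.y2 : ℝ) - oQ.im|) ^ 2 := by
    rw [← sq_abs (c.im - (oQ.im : ℝ))]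
    refine pow_le_pow_left₀ (abs_nonneg _) ?_ 2
    exact abs_le_max_abs_abs (by linarith) (by linarith)
  have h6 : ‖c - oQ.toC‖ ^ 2 < (ρ : ℝ) ^ 2 := by
    rw [norm_sq_eq, Complex.sub_re, Complex.sub_im, oQ_re, oQ_im]
    linarith
  have h7 : (0 : ℝ) ≤ ρ := by exact_mod_cast hρ
  exact lt_of_pow_lt_pow_left₀ 2 h7 h6

/-- the box does not meet the open disc of radius `ρ` around `oQ` -/
def outBall (ρ : ℚ) (B : Bx) : Bool :=
  decide (ρ ^ 2 ≤ dist0 (B.x1 - oQ.re) (B.x2 - oQ.re) ^ 2 + dist0 (B.y1 - oQ.im) (B.y2 - oQ.im) ^ 2)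

theorem outBall_sound (ρ : ℚ) (hρ : 0 ≤ ρ) (B : Bx) (h : outBall ρ B = true) (c : ℂ)
    (hc : B.Mem c) : (ρ : ℝ) ≤ ‖c - oQ.toC‖ := by
  have h1 : ρ ^ 2 ≤ dist0 (B.x1 - oQ.re) (B.x2 - oQ.re) ^ 2 +
      dist0 (B.y1 - oQ.im) (B.y2 - oQ.im) ^ 2 := of_decide_eq_true h
  have h2 : (ρ : ℝ) ^ 2 ≤ ((dist0 (B.x1 - oQ.re) (B.x2 - oQ.re) : ℚ) : ℝ) ^ 2 +
      ((dist0 (B.y1 - oQ.im) (B.y2 - oQ.im) : ℚ) : ℝ) ^ 2 := by
    have h3 : ((ρ ^ 2 : ℚ) : ℝ) ≤ ((dist0 (B.x1 - oQ.re) (B.x2 - oQ.re) ^ 2 +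
        dist0 (B.y1 - oQ.im) (B.y2 - oQ.im) ^ 2 : ℚ) : ℝ) := by exact_mod_cast h1
    push_cast at h3
    exact h3
  obtain ⟨c1, c2, c3, c4⟩ := hc
  have h4 := dist0_le (a := B.x1 - oQ.re) (b := B.x2 - oQ.re) (x := c.re - oQ.re)
    (by push_cast; linarith) (by push_cast; linarith)
  have h5 := dist0_le (a := B.y1 - oQ.im) (b := B.y2 - oQ.im) (x := c.im - oQ.im)
    (by push_cast; linarith) (by push_cast; linarith)
  have h6 : (ρ : ℝ) ^ 2 ≤ ‖c - oQ.toC‖ ^ 2 := by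
    rw [norm_sq_eq, Complex.sub_re, Complex.sub_im, oQ_re, oQ_im]
    linarith
  have h7 : (0 : ℝ) ≤ ρ := by exact_mod_cast hρ
  exact le_of_pow_le_pow_left₀ two_ne_zero (norm_nonneg _) h6

end Pool.Agent.MaxTerm8
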