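import Pool.Agent.MaxTerm8.Defs

/-! Third order jets with explicit remainders. -/

namespace Pool.Agent.MaxTerm8

open Complex ComplexConjugate

/-- `Z = Z0 + Z1 + Z2 + O(ρ^3)` with explicit constants -/
structure Jt {E : Type*} [NormedField E] (ρ : ℝ) (Z Z0 Z1 Z2 : E) (a0 a1 a2 a3 : ℝ) : Prop where
  h0 : ‖Z0‖ ≤ a0
  h1 : ‖Z1‖ ≤ a1 * ρ
  h2 : ‖Z2‖ ≤ a2 * ρ ^ 2
  h3 : ‖Z - Z0 - Z1 - Z2‖ ≤ a3 * ρ ^ 3


private theorem mul_le' {E : Type*} [NormedField E] {x y : E} {a b : ℝ} (hx : ‖x‖ ≤ a)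
    (hy : ‖y‖ ≤ b) : ‖x * y‖ ≤ a * b := by
  rw [norm_mul]
  exact mul_le_mul hx hy (norm_nonneg _) ((norm_nonneg _).trans hx)

private theorem pow4_le {ρ r : ℝ} (hρ : 0 ≤ ρ) (hr : ρ ≤ r) : ρ ^ 4 ≤ r * ρ ^ 3 := by
  have : ρ ^ 4 = ρ * ρ ^ 3 := by ring
  rw [this]
  exact mul_le_mul_of_nonneg_right hr (by positivity)

private theorem pow5_le {ρ r : ℝ} (hρ : 0 ≤ ρ) (hr : ρ ≤ r) : ρ ^ 5 ≤ r ^ 2 * ρ ^ 3 := by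
  have : ρ ^ 5 = ρ ^ 2 * ρ ^ 3 := by ring
  rw [this]
  exact mul_le_mul_of_nonneg_right (pow_le_pow_left₀ hρ hr 2) (by positivity)

private theorem pow6_le {ρ r : ℝ} (hρ : 0 ≤ ρ) (hr : ρ ≤ r) : ρ ^ 6 ≤ r ^ 3 * ρ ^ 3 := by
  have : ρ ^ 6 = ρ ^ 3 * ρ ^ 3 := by ring
  rw [this]
  exact mul_le_mul_of_nonneg_right (pow_le_pow_left₀ hρ hr 3) (by positivity)

/-- Write `Z3 = Z - Z0 - Z1 - Z2`, `W3` similarly and expand. -/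
theorem Jt.mul {E : Type*} [NormedField E] {ρ r : ℝ} (hρ : 0 ≤ ρ) (hr : ρ ≤ r)
    {Z Z0 Z1 Z2 W W0 W1 W2 : E} {a0 a1 a2 a3 b0 b1 b2 b3 : ℝ}
    (h : Jt ρ Z Z0 Z1 Z2 a0 a1 a2 a3) (h' : Jt ρ W W0 W1 W2 b0 b1 b2 b3)
    (ha1 : 0 ≤ a1) (ha2 : 0 ≤ a2) (ha3 : 0 ≤ a3) (hb1 : 0 ≤ b1) (hb2 : 0 ≤ b2) (hb3 : 0 ≤ b3) :
    Jt ρ (Z * W) (Z0 * W0) (Z0 * W1 + Z1 * W0) (Z0 * W2 + Z1 * W1 + Z2 * W0)
      (a0 * b0) (a0 * b1 + a1 * b0) (a0 * b2 + a1 * b1 + a2 * b0)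
      (a0 * b3 + a1 * b2 + a2 * b1 + a3 * b0 + r * (a1 * b3 + a2 * b2 + a3 * b1) +
        r ^ 2 * (a2 * b3 + a3 * b2) + r ^ 3 * (a3 * b3)) := by
  obtain ⟨h0, h1, h2, h3⟩ := h
  obtain ⟨g0, g1, g2, g3⟩ := h'
  have ha0 : 0 ≤ a0 := (norm_nonneg _).trans h0
  have hb0 : 0 ≤ b0 := (norm_nonneg _).trans g0
  have p3 : 0 ≤ ρ ^ 3 := by positivity
  refine ⟨mul_le' h0 g0, ?_, ?_, ?_⟩
  · refine (norm_add_le _ _).trans ?_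
    have e1 := mul_le' h0 g1
    have e2 := mul_le' h1 g0
    nlinarith [e1, e2]
  · refine (norm_add_le _ _).trans ((add_le_add (norm_add_le _ _) le_rfl).trans ?_)
    have e1 := mul_le' h0 g2
    have e2 := mul_le' h1 g1
    have e3 := mul_le' h2 g0
    nlinarith [e1, e2, e3]
  · obtain ⟨Z3, hZ3⟩ : ∃ Z3, Z3 = Z - Z0 - Z1 - Z2 := ⟨_, rfl⟩
    obtain ⟨W3, hW3⟩ : ∃ W3, W3 = W - W0 - W1 - W2 := ⟨_, rfl⟩
    rw [← hZ3] at h3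
    rw [← hW3] at g3
    have eZ : Z = Z0 + Z1 + Z2 + Z3 := by rw [hZ3]; ring
    have eW : W = W0 + W1 + W2 + W3 := by rw [hW3]; ring
    have key : Z * W - Z0 * W0 - (Z0 * W1 + Z1 * W0) - (Z0 * W2 + Z1 * W1 + Z2 * W0) =
        (Z0 * W3 + Z1 * W2 + Z2 * W1 + Z3 * W0) + (Z1 * W3 + Z2 * W2 + Z3 * W1) +
          (Z2 * W3 + Z3 * W2) + Z3 * W3 := by
      rw [eZ, eW]; ring
    rw [key]
    have e03 := mul_le' h0 g3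
    have e12 := mul_le' h1 g2
    have e21 := mul_le' h2 g1
    have e30 := mul_le' h3 g0
    have e13 := mul_le' h1 g3
    have e22 := mul_le' h2 g2
    have e31 := mul_le' h3 g1
    have e23 := mul_le' h2 g3
    have e32 := mul_le' h3 g2
    have e33 := mul_le' h3 g3
    have n1 : ‖Z0 * W3 + Z1 * W2 + Z2 * W1 + Z3 * W0‖ ≤
        (a0 * b3 + a1 * b2 + a2 * b1 + a3 * b0) * ρ ^ 3 := by
      refine (norm_add_le _ _).trans ((add_le_add ((norm_add_le _ _).trans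
        (add_le_add (norm_add_le _ _) le_rfl)) le_rfl).trans ?_)
      calc _ ≤ a0 * (b3 * ρ ^ 3) + a1 * ρ * (b2 * ρ ^ 2) + a2 * ρ ^ 2 * (b1 * ρ) +
          a3 * ρ ^ 3 * b0 := by linarith
        _ = _ := by ring
    have n2 : ‖Z1 * W3 + Z2 * W2 + Z3 * W1‖ ≤ (a1 * b3 + a2 * b2 + a3 * b1) * ρ ^ 4 := by
      refine (norm_add_le _ _).trans ((add_le_add (norm_add_le _ _) le_rfl).trans ?_)
      calc _ ≤ a1 * ρ * (b3 * ρ ^ 3) + a2 * ρ ^ 2 * (b2 * ρ ^ 2) + a3 * ρ ^ 3 * (b1 * ρ) := by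
            linarith
        _ = _ := by ring
    have n3 : ‖Z2 * W3 + Z3 * W2‖ ≤ (a2 * b3 + a3 * b2) * ρ ^ 5 := by
      refine (norm_add_le _ _).trans ?_
      calc _ ≤ a2 * ρ ^ 2 * (b3 * ρ ^ 3) + a3 * ρ ^ 3 * (b2 * ρ ^ 2) := by linarith
        _ = _ := by ring
    have n4 : ‖Z3 * W3‖ ≤ (a3 * b3) * ρ ^ 6 := by
      calc _ ≤ a3 * ρ ^ 3 * (b3 * ρ ^ 3) := e33
        _ = _ := by ring
    have c2 : (a1 * b3 + a2 * b2 + a3 * b1) * ρ ^ 4 ≤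
        (a1 * b3 + a2 * b2 + a3 * b1) * (r * ρ ^ 3) :=
      mul_le_mul_of_nonneg_left (pow4_le hρ hr) (by positivity)
    have c3 : (a2 * b3 + a3 * b2) * ρ ^ 5 ≤ (a2 * b3 + a3 * b2) * (r ^ 2 * ρ ^ 3) :=
      mul_le_mul_of_nonneg_left (pow5_le hρ hr) (by positivity)
    have c4 : (a3 * b3) * ρ ^ 6 ≤ (a3 * b3) * (r ^ 3 * ρ ^ 3) :=
      mul_le_mul_of_nonneg_left (pow6_le hρ hr) (by positivity)
    refine (norm_add_le _ _).trans ((add_le_add ((norm_add_le _ _).trans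
      (add_le_add (norm_add_le _ _) le_rfl)) le_rfl).trans ?_)
    calc _ ≤ (a0 * b3 + a1 * b2 + a2 * b1 + a3 * b0) * ρ ^ 3 +
          (a1 * b3 + a2 * b2 + a3 * b1) * (r * ρ ^ 3) + (a2 * b3 + a3 * b2) * (r ^ 2 * ρ ^ 3) +
          (a3 * b3) * (r ^ 3 * ρ ^ 3) := by linarith
      _ = _ := by ring

theorem Jt.add {E : Type*} [NormedField E] {ρ : ℝ}
    {Z Z0 Z1 Z2 W W0 W1 W2 : E} {a0 a1 a2 a3 b0 b1 b2 b3 : ℝ}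
    (h : Jt ρ Z Z0 Z1 Z2 a0 a1 a2 a3) (h' : Jt ρ W W0 W1 W2 b0 b1 b2 b3) :
    Jt ρ (Z + W) (Z0 + W0) (Z1 + W1) (Z2 + W2) (a0 + b0) (a1 + b1) (a2 + b2) (a3 + b3) := by
  obtain ⟨h0, h1, h2, h3⟩ := h
  obtain ⟨g0, g1, g2, g3⟩ := h'
  refine ⟨?_, ?_, ?_, ?_⟩
  · exact (norm_add_le _ _).trans (add_le_add h0 g0)
  · refine (norm_add_le _ _).trans ((add_le_add h1 g1).trans (le_of_eq (by ring)))
  · refine (norm_add_le _ _).trans ((add_le_add h2 g2).trans (le_of_eq (by ring)))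
  · have : Z + W - (Z0 + W0) - (Z1 + W1) - (Z2 + W2) =
        (Z - Z0 - Z1 - Z2) + (W - W0 - W1 - W2) := by ring
    rw [this]
    refine (norm_add_le _ _).trans ((add_le_add h3 g3).trans (le_of_eq (by ring)))

theorem Jt.mono {E : Type*} [NormedField E] {ρ : ℝ} (hρ : 0 ≤ ρ)
    {Z Z0 Z1 Z2 : E} {a0 a1 a2 a3 b0 b1 b2 b3 : ℝ}
    (h : Jt ρ Z Z0 Z1 Z2 a0 a1 a2 a3) (h0 : a0 ≤ b0) (h1 : a1 ≤ b1) (h2 : a2 ≤ b2) (h3 : a3 ≤ b3) :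
    Jt ρ Z Z0 Z1 Z2 b0 b1 b2 b3 := by
  obtain ⟨g0, g1, g2, g3⟩ := h
  exact ⟨g0.trans h0, g1.trans (mul_le_mul_of_nonneg_right h1 hρ),
    g2.trans (mul_le_mul_of_nonneg_right h2 (by positivity)),
    g3.trans (mul_le_mul_of_nonneg_right h3 (by positivity))⟩

theorem Jt.cj {ρ : ℝ} {Z Z0 Z1 Z2 : ℂ} {a0 a1 a2 a3 : ℝ} (h : Jt ρ Z Z0 Z1 Z2 a0 a1 a2 a3) :
    Jt ρ (conj Z) (conj Z0) (conj Z1) (conj Z2) a0 a1 a2 a3 := by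
  obtain ⟨h0, h1, h2, h3⟩ := h
  refine ⟨?_, ?_, ?_, ?_⟩
  · rw [Complex.norm_conj]; exact h0
  · rw [Complex.norm_conj]; exact h1
  · rw [Complex.norm_conj]; exact h2
  · rw [← map_sub, ← map_sub, ← map_sub, Complex.norm_conj]; exact h3

theorem Jt.ofReal {ρ : ℝ} {Z Z0 Z1 Z2 : ℝ} {a0 a1 a2 a3 : ℝ} (h : Jt ρ Z Z0 Z1 Z2 a0 a1 a2 a3) :
    Jt ρ (Z : ℂ) (Z0 : ℂ) (Z1 : ℂ) (Z2 : ℂ) a0 a1 a2 a3 := by
  obtain ⟨h0, h1, h2, h3⟩ := h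
  refine ⟨?_, ?_, ?_, ?_⟩
  · rw [Complex.norm_real]; exact h0
  · rw [Complex.norm_real]; exact h1
  · rw [Complex.norm_real]; exact h2
  · rw [← Complex.ofReal_sub, ← Complex.ofReal_sub, ← Complex.ofReal_sub, Complex.norm_real]
    exact h3

/-- `‖Z‖^2 = Re (Z * conj Z)` -/
theorem Jt.nsq {ρ r : ℝ} (hρ : 0 ≤ ρ) (hr : ρ ≤ r) {Z Z0 Z1 Z2 : ℂ} {a0 a1 a2 a3 : ℝ}
    (h : Jt ρ Z Z0 Z1 Z2 a0 a1 a2 a3) (ha0 : 0 ≤ a0) (ha1 : 0 ≤ a1) (ha2 : 0 ≤ a2) (ha3 : 0 ≤ a3) :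
    Jt ρ (‖Z‖ ^ 2) (‖Z0‖ ^ 2) (2 * (conj Z0 * Z1).re) (‖Z1‖ ^ 2 + 2 * (conj Z0 * Z2).re)
      (a0 ^ 2) (2 * a0 * a1) (a1 ^ 2 + 2 * a0 * a2)
      (2 * a0 * a3 + 2 * a1 * a2 + r * (a2 ^ 2 + 2 * a1 * a3) + r ^ 2 * (2 * a2 * a3) +
        r ^ 3 * a3 ^ 2) := by
  have hm := Jt.mul hρ hr h h.cj ha1 ha2 ha3 ha1 ha2 ha3
  obtain ⟨m0, m1, m2, m3⟩ := hm
  have ns : ∀ w : ℂ, ((‖w‖ ^ 2 : ℝ) : ℂ) = w * conj w := by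
    intro w
    rw [Complex.mul_conj, Complex.normSq_eq_norm_sq]
  have e0 : ((‖Z0‖ ^ 2 : ℝ) : ℂ) = Z0 * conj Z0 := ns Z0
  have e1 : ((2 * (conj Z0 * Z1).re : ℝ) : ℂ) = Z0 * conj Z1 + Z1 * conj Z0 := by
    have := Complex.add_conj (conj Z0 * Z1)
    rw [map_mul, Complex.conj_conj] at this
    push_cast at this ⊢
    rw [← this]; ring
  have e2 : ((‖Z1‖ ^ 2 + 2 * (conj Z0 * Z2).re : ℝ) : ℂ) =
      Z0 * conj Z2 + Z1 * conj Z1 + Z2 * conj Z0 := by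
    have := Complex.add_conj (conj Z0 * Z2)
    rw [map_mul, Complex.conj_conj] at this
    rw [Complex.ofReal_add, ns Z1]
    push_cast at this ⊢
    rw [← this]; ring
  have e3 := ns Z
  refine ⟨?_, ?_, ?_, ?_⟩
  · rw [← Complex.norm_real, e0]
    refine m0.trans (le_of_eq (by ring))
  · rw [← Complex.norm_real, e1]
    refine m1.trans (le_of_eq (by ring))
  · rw [← Complex.norm_real, e2]
    refine m2.trans (le_of_eq (by ring))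
  · rw [← Complex.norm_real, Complex.ofReal_sub, Complex.ofReal_sub, Complex.ofReal_sub, e0, e1, e2,
      e3]
    refine m3.trans (le_of_eq (by ring))

theorem Jt.sub0 {E : Type*} [NormedField E] {ρ r : ℝ} (hρ : 0 ≤ ρ) (hr : ρ ≤ r)
    {Z Z0 Z1 Z2 : E} {a0 a1 a2 a3 : ℝ} (h : Jt ρ Z Z0 Z1 Z2 a0 a1 a2 a3) (ha2 : 0 ≤ a2)
    (ha3 : 0 ≤ a3) : ‖Z - Z0‖ ≤ (a1 + r * a2 + r ^ 2 * a3) * ρ := by
  obtain ⟨h0, h1, h2, h3⟩ := h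
  have : Z - Z0 = Z1 + Z2 + (Z - Z0 - Z1 - Z2) := by ring
  rw [this]
  refine (norm_add_le _ _).trans ((add_le_add (norm_add_le _ _) le_rfl).trans ?_)
  have c2 : a2 * ρ ^ 2 ≤ a2 * (r * ρ) := by
    refine mul_le_mul_of_nonneg_left ?_ ha2
    rw [pow_two]
    exact mul_le_mul_of_nonneg_right hr hρ
  have c3 : a3 * ρ ^ 3 ≤ a3 * (r ^ 2 * ρ) := by
    refine mul_le_mul_of_nonneg_left ?_ ha3
    have : ρ ^ 3 = ρ ^ 2 * ρ := by ring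
    rw [this]
    exact mul_le_mul_of_nonneg_right (pow_le_pow_left₀ hρ hr 2) hρ
  calc _ ≤ a1 * ρ + a2 * (r * ρ) + a3 * (r ^ 2 * ρ) := by linarith
    _ = _ := by ring

theorem Jt.sub1 {E : Type*} [NormedField E] {ρ r : ℝ} (hρ : 0 ≤ ρ) (hr : ρ ≤ r)
    {Z Z0 Z1 Z2 : E} {a0 a1 a2 a3 : ℝ} (h : Jt ρ Z Z0 Z1 Z2 a0 a1 a2 a3)
    (ha3 : 0 ≤ a3) : ‖Z - Z0 - Z1‖ ≤ (a2 + r * a3) * ρ ^ 2 := by
  obtain ⟨h0, h1, h2, h3⟩ := h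
  have : Z - Z0 - Z1 = Z2 + (Z - Z0 - Z1 - Z2) := by ring
  rw [this]
  refine (norm_add_le _ _).trans ?_
  have c3 : a3 * ρ ^ 3 ≤ a3 * (r * ρ ^ 2) := by
    refine mul_le_mul_of_nonneg_left ?_ ha3
    have : ρ ^ 3 = ρ * ρ ^ 2 := by ring
    rw [this]
    exact mul_le_mul_of_nonneg_right hr (by positivity)
  calc _ ≤ a2 * ρ ^ 2 + a3 * (r * ρ ^ 2) := by linarith
    _ = _ := by ring

end Pool.Agent.MaxTerm8
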