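import Pool.Agent.MaxTerm8.Prod

/-! The tail lemma: the terms of index `j ≥ 3` plus the telescoping potential `tele` are bounded below
by explicit linear and quadratic terms. -/

namespace Pool.Agent.MaxTerm8

open Complex ComplexConjugate

private theorem lt_split (f : ℕ → ℝ) (j : ℕ) (hj : 2 ≤ j) :
    ∑ i ∈ Finset.range j, f i = f 0 + f 1 + ∑ i ∈ Finset.Ico 2 j, f i := by
  rw [Finset.range_eq_Ico, Finset.sum_eq_sum_Ico_succ_bot (by omega),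
    Finset.sum_eq_sum_Ico_succ_bot (by omega)]
  ring

private theorem lt_sum (j : ℕ) (hj : 2 ≤ j) :
    ∑ i ∈ Finset.Ico 2 j, ((j : ℝ) - i) = ((j : ℝ) - 1) * (j - 2) / 2 := by
  induction j, hj using Nat.le_induction with
  | base => simp
  | succ n hn ih =>
    rw [Finset.sum_Ico_succ_top (by omega)]
    have h : ∑ i ∈ Finset.Ico 2 n, (((n + 1 : ℕ) : ℝ) - i) =
        ∑ i ∈ Finset.Ico 2 n, ((n : ℝ) - i) + ((n : ℝ) - 2) := by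
      have h1 : ∀ i ∈ Finset.Ico 2 n, (((n + 1 : ℕ) : ℝ) - i) = ((n : ℝ) - i) + 1 := by
        intro i _
        push_cast
        ring
      rw [Finset.sum_congr rfl h1, Finset.sum_add_distrib]
      congr 1
      rw [Finset.sum_const, Nat.card_Ico, nsmul_eq_mul, Nat.cast_sub hn]
      push_cast
      ring
    rw [h, ih]
    push_cast
    ring

private theorem lt_tri (j : ℕ) : (tri j : ℝ) = (j : ℝ) * (j + 1) / 2 := by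
  unfold tri
  rw [Nat.cast_div (Nat.even_mul_succ_self j).two_dvd (by norm_num)]
  push_cast
  ring

private theorem lt_lin (W : ℂ) (x : ℕ → ℂ) (j : ℕ) :
    (W * ∑ i ∈ Finset.range j, ((j : ℂ) - i) * x i).re =
      ∑ i ∈ Finset.range j, ((j : ℝ) - i) * (W * x i).re := by
  rw [Finset.mul_sum, Complex.re_sum]
  refine Finset.sum_congr rfl (fun i _ => ?_)
  have h : W * (((j : ℂ) - i) * x i) = (((j : ℝ) - i : ℝ) : ℂ) * (W * x i) := by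
    push_cast
    ring
  rw [h, Complex.re_ofReal_mul]

private theorem lt_one (l T p : ℂ) (N : ℕ) (x : ℕ → ℂ) (j : ℕ) (B : ℝ)
    (h : ‖T - p ^ N - p ^ (N - 1) * ∑ i ∈ Finset.range j, ((j : ℂ) - i) * x i‖ ≤ B) :
    (l * p ^ N).re + ∑ i ∈ Finset.range j, ((j : ℝ) - i) * (l * p ^ (N - 1) * x i).re -
      ‖l‖ * B ≤ (l * T).re := by
  set E := T - p ^ N - p ^ (N - 1) * ∑ i ∈ Finset.range j, ((j : ℂ) - i) * x i with hE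
  have h1 : l * T = l * p ^ N + l * p ^ (N - 1) * ∑ i ∈ Finset.range j, ((j : ℂ) - i) * x i +
      l * E := by
    rw [hE]
    ring
  have h2 : -(‖l‖ * B) ≤ (l * E).re := by
    have h3 : |(l * E).re| ≤ ‖l * E‖ := Complex.abs_re_le_norm _
    rw [norm_mul] at h3
    have h4 : ‖l‖ * ‖E‖ ≤ ‖l‖ * B := mul_le_mul_of_nonneg_left h (norm_nonneg _)
    have h5 := (abs_le.1 h3).1
    linarith
  rw [h1, Complex.add_re, Complex.add_re, lt_lin]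
  linarith

private theorem lt_sq (e r : ℝ) (he : r < e) (D x : ℂ) :
    -(‖D‖ ^ 2 / (e - r)) ≤ (e - r) * ‖x‖ ^ 2 + 2 * (D * x).re := by
  have h0 : 0 < e - r := by linarith
  have h1 : -(‖D‖ * ‖x‖) ≤ (D * x).re := by
    have h3 : |(D * x).re| ≤ ‖D * x‖ := Complex.abs_re_le_norm _
    rw [norm_mul] at h3
    exact (abs_le.1 h3).1
  have h2 : ‖D‖ ^ 2 / (e - r) - 2 * (‖D‖ * ‖x‖) + (e - r) * ‖x‖ ^ 2 =
      (‖D‖ - (e - r) * ‖x‖) ^ 2 / (e - r) := by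
    field_simp
    ring
  have h3 : 0 ≤ (‖D‖ - (e - r) * ‖x‖) ^ 2 / (e - r) := by positivity
  linarith

/-- Notation: `R = 17/50`, `N = tri j`, `a = ψ k`, `b = ψ (k+1)`, `u = ψ (k-1)`, `v = ψ (k+2)`,
`X_i = ψ (k-i) - p`, `X'_i = ψ (k+1+i) - p`, `r' = (N-1) R^(N-2) ‖l‖`, `r = r' + 2 R^(N-1) |σ|`.
(1) `tl_first`, `tr_first`: `2 Re (l (TL+TR)) ≥ 4 Re (l p^N) + 2 Re (l p^(N-1) ∑ (j-i)(X_i + X'_i)) -
r' ∑ (j-i)(‖X_i‖^2+‖X'_i‖^2)`.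
(2) `tl_sub_tr`, `‖ψ(k-i) - ψ(k+1+i)‖ ≤ ‖X_i‖ + ‖X'_i‖` for `i ≥ 1` and
`2‖a-b‖(‖X_i‖+‖X'_i‖) ≤ ‖a-b‖^2 + 2(‖X_i‖^2+‖X'_i‖^2)`... precisely
`2|σ| ‖a-b‖ ‖TL-TR‖ ≤ |σ| R^(N-1) (N+j) ‖a-b‖^2 + 2 |σ| R^(N-1) ∑_{i≥1} (j-i)(‖X_i‖^2+‖X'_i‖^2)`
(`∑_{1≤i<j} (j-i) = N - j`, and `2 s t ≤ s^2/2 + 2 t^2` with `s = ‖a-b‖`).
(3) For `i ≥ 2` add the terms of `tele`: `(j-i) ((e-r)‖X_i‖^2 + 2 Re ((l-μ) p^(N-1) X_i)) ≥
-(j-i) ‖l-μ‖^2 ‖p‖^(2N-2)/(e-r)`; `∑_{2≤i<j} (j-i) = (j-1)(j-2)/2`; the remaining parts of `tele` are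
`-e (‖u-p‖^2+‖v-p‖^2) (j-1)(j-2)/2 + (j-1)(j-2) Re (μ p^(N-1) (X_0 + X'_0))`. -/
theorem lemmaT (ψ : ℤ → ℂ) (hψ : ∀ k, ‖ψ k‖ ≤ 17 / 50) (p : ℂ) (hp : ‖p‖ ≤ 17 / 50) (k : ℤ)
    (j : ℕ) (hj : 3 ≤ j) (l : ℂ) (μ : ℕ → ℂ) (σ : ℝ) (e : ℕ → ℝ) (r' r : ℝ)
    (hr' : r' = ((tri j : ℝ) - 1) * (17 / 50) ^ (tri j - 2) * ‖l‖)
    (hr : r = r' + 2 * (17 / 50) ^ (tri j - 1) * |σ|) (he : r < e j) :
    4 * (l * p ^ tri j).re + 4 * j * (l * p ^ (tri j - 1) * ((ψ k + ψ (k + 1)) / 2 - p)).re +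
    2 * ((j : ℝ) - 1) * (j - 2) * (μ j * p ^ (tri j - 1) * ((ψ k + ψ (k + 1)) / 2 - p)).re +
    2 * ((j : ℝ) - 1) * (l * p ^ (tri j - 1) * (ψ (k - 1) + ψ (k + 2) - 2 * p)).re -
    j * r' * (‖ψ k - p‖ ^ 2 + ‖ψ (k + 1) - p‖ ^ 2) -
    (((j : ℝ) - 1) * r + ((j : ℝ) - 1) * (j - 2) / 2 * e j) *
      (‖ψ (k - 1) - p‖ ^ 2 + ‖ψ (k + 2) - p‖ ^ 2) -
    |σ| * (17 / 50) ^ (tri j - 1) * ((tri j : ℝ) + j) * ‖ψ k - ψ (k + 1)‖ ^ 2 -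
    ((j : ℝ) - 1) * (j - 2) * (‖l - μ j‖ ^ 2 * ‖p‖ ^ (2 * tri j - 2) / (e j - r)) ≤
    2 * (l * (TL ψ k j + TR ψ k j)).re +
      2 * σ * (conj (ψ k - ψ (k + 1)) * (TL ψ k j - TR ψ k j)).re + tele p μ e ψ k j := by
  obtain ⟨x, hx⟩ : ∃ x : ℕ → ℂ, x = fun i : ℕ => ψ (k - i) - p := ⟨_, rfl⟩
  obtain ⟨y, hy⟩ : ∃ y : ℕ → ℂ, y = fun i : ℕ => ψ (k + 1 + i) - p := ⟨_, rfl⟩
  obtain ⟨N, hN⟩ : ∃ N : ℕ, N = tri j := ⟨_, rfl⟩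
  have hx0 : ψ k - p = x 0 := by simp [hx]
  have hx1 : ψ (k - 1) - p = x 1 := by simp [hx]
  have hy0 : ψ (k + 1) - p = y 0 := by simp [hy]
  have hy1 : ψ (k + 2) - p = y 1 := by
    rw [hy]
    have h : k + 1 + ((1 : ℕ) : ℤ) = k + 2 := by push_cast; ring
    simp only [h]
  have hj0 : (3 : ℝ) ≤ j := by exact_mod_cast hj
  -- first order expansions
  have hTL := lt_one l (TL ψ k j) p (tri j) x j ((17 / 50) ^ (tri j - 2) * (((tri j : ℝ) - 1) / 2) *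
    ∑ i ∈ Finset.range j, ((j : ℝ) - i) * ‖x i‖ ^ 2) (by rw [hx]; exact tl_first ψ hψ p hp k j)
  have hTR := lt_one l (TR ψ k j) p (tri j) y j ((17 / 50) ^ (tri j - 2) * (((tri j : ℝ) - 1) / 2) *
    ∑ i ∈ Finset.range j, ((j : ℝ) - i) * ‖y i‖ ^ 2) (by rw [hy]; exact tr_first ψ hψ p hp k j)
  have hxs : ∀ i : ℕ, ‖ψ (k - i) - p‖ = ‖x i‖ := fun i => by rw [hx]
  have hys : ∀ i : ℕ, ‖ψ (k + 1 + i) - p‖ = ‖y i‖ := fun i => by rw [hy]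
  -- the sine part
  obtain ⟨s, hs⟩ : ∃ s : ℝ, s = ‖ψ k - ψ (k + 1)‖ := ⟨_, rfl⟩
  have hs0 : 0 ≤ s := by rw [hs]; exact norm_nonneg _
  obtain ⟨P, hP⟩ : ∃ P : ℝ, P = (17 / 50 : ℝ) ^ (tri j - 1) := ⟨_, rfl⟩
  have hP0 : 0 ≤ P := by rw [hP]; positivity
  have hσ : -(|σ| * P * (2 * s * ∑ i ∈ Finset.range j, ((j : ℝ) - i) * ‖ψ (k - i) - ψ (k + 1 + i)‖)) ≤
      2 * σ * (conj (ψ k - ψ (k + 1)) * (TL ψ k j - TR ψ k j)).re := by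
    have h1 : |(conj (ψ k - ψ (k + 1)) * (TL ψ k j - TR ψ k j)).re| ≤ s * ‖TL ψ k j - TR ψ k j‖ := by
      refine (Complex.abs_re_le_norm _).trans ?_
      rw [norm_mul, Complex.norm_conj, hs]
    have h2 : ‖TL ψ k j - TR ψ k j‖ ≤ P * ∑ i ∈ Finset.range j,
        ((j : ℝ) - i) * ‖ψ (k - i) - ψ (k + 1 + i)‖ := by
      rw [hP]
      exact tl_sub_tr ψ hψ k j
    have h3 := h1.trans (mul_le_mul_of_nonneg_left h2 hs0)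
    have h4 : |2 * σ * (conj (ψ k - ψ (k + 1)) * (TL ψ k j - TR ψ k j)).re| ≤
        2 * |σ| * (s * (P * ∑ i ∈ Finset.range j,
        ((j : ℝ) - i) * ‖ψ (k - i) - ψ (k + 1 + i)‖)) := by
      rw [abs_mul, abs_mul, abs_two]
      exact mul_le_mul_of_nonneg_left h3 (by positivity)
    have h5 := (abs_le.1 h4).1
    linarith
  have hsum : 2 * s * ∑ i ∈ Finset.range j, ((j : ℝ) - i) * ‖ψ (k - i) - ψ (k + 1 + i)‖ ≤
      2 * j * s ^ 2 + ((j : ℝ) - 1) * (s ^ 2 + 2 * (‖x 1‖ ^ 2 + ‖y 1‖ ^ 2)) +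
      ∑ i ∈ Finset.Ico 2 j, ((j : ℝ) - i) * (s ^ 2 + 2 * (‖x i‖ ^ 2 + ‖y i‖ ^ 2)) := by
    have hd : ∀ i : ℕ, 2 * s * ‖ψ (k - i) - ψ (k + 1 + i)‖ ≤ s ^ 2 + 2 * (‖x i‖ ^ 2 + ‖y i‖ ^ 2) := by
      intro i
      have h1 : ‖ψ (k - i) - ψ (k + 1 + i)‖ ≤ ‖x i‖ + ‖y i‖ := by
        have h2 : ψ (k - i) - ψ (k + 1 + i) = x i - y i := by rw [hx, hy]; ring
        rw [h2]
        exact norm_sub_le _ _
      have h3 := mul_le_mul_of_nonneg_left h1 (by positivity : 0 ≤ 2 * s)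
      nlinarith [sq_nonneg (s - 2 * ‖x i‖), sq_nonneg (s - 2 * ‖y i‖)]
    rw [lt_split _ j (by omega), mul_add, mul_add, Finset.mul_sum]
    have h0 : 2 * s * (((j : ℝ) - ((0 : ℕ) : ℝ)) * ‖ψ (k - ((0 : ℕ) : ℤ)) - ψ (k + 1 + ((0 : ℕ) : ℤ))‖) =
        2 * j * s ^ 2 := by
      have h1 : ψ (k - ((0 : ℕ) : ℤ)) - ψ (k + 1 + ((0 : ℕ) : ℤ)) = ψ k - ψ (k + 1) := by simp
      rw [h1, ← hs]
      push_cast
      ring
    have h1 : 2 * s * (((j : ℝ) - ((1 : ℕ) : ℝ)) * ‖ψ (k - ((1 : ℕ) : ℤ)) - ψ (k + 1 + ((1 : ℕ) : ℤ))‖) ≤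
        ((j : ℝ) - 1) * (s ^ 2 + 2 * (‖x 1‖ ^ 2 + ‖y 1‖ ^ 2)) := by
      have h2 := mul_le_mul_of_nonneg_left (hd 1) (by linarith : 0 ≤ (j : ℝ) - 1)
      refine le_trans (le_of_eq ?_) h2
      push_cast
      ring
    have h2 : ∑ i ∈ Finset.Ico 2 j, 2 * s * (((j : ℝ) - i) * ‖ψ (k - i) - ψ (k + 1 + i)‖) ≤
        ∑ i ∈ Finset.Ico 2 j, ((j : ℝ) - i) * (s ^ 2 + 2 * (‖x i‖ ^ 2 + ‖y i‖ ^ 2)) := by
      refine Finset.sum_le_sum (fun i hi => ?_)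
      have h3 : (i : ℝ) ≤ j := by exact_mod_cast (Finset.mem_Ico.1 hi).2.le
      have h4 := mul_le_mul_of_nonneg_left (hd i) (by linarith : 0 ≤ (j : ℝ) - i)
      refine le_trans (le_of_eq ?_) h4
      ring
    rw [h0]
    linarith
  have hσP : 0 ≤ |σ| * P := by positivity
  have hS := mul_le_mul_of_nonneg_left hsum hσP
  -- the main sum
  obtain ⟨K, hK⟩ : ∃ K : ℝ, K = ‖l - μ j‖ ^ 2 * ‖p‖ ^ (2 * tri j - 2) / (e j - r) := ⟨_, rfl⟩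
  obtain ⟨W, hW⟩ : ∃ W : ℂ, W = l * p ^ (tri j - 1) := ⟨_, rfl⟩
  obtain ⟨V, hV⟩ : ∃ V : ℂ, V = μ j * p ^ (tri j - 1) := ⟨_, rfl⟩
  have hKsq : ‖W - V‖ ^ 2 / (e j - r) = K := by
    rw [hK, hW, hV, ← sub_mul, norm_mul, norm_pow, mul_pow, ← pow_mul]
    congr 3
    have : 1 ≤ tri j := by
      unfold tri
      rw [Nat.one_le_div_iff (by norm_num)]
      nlinarith
    omega
  have hmain : ∀ z : ℂ, -K ≤ (e j - r) * ‖z‖ ^ 2 + 2 * (W * z).re - 2 * (V * z).re := by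
    intro z
    have h1 := lt_sq (e j) r he (W - V) z
    have h2 : (W - V) * z = W * z - V * z := sub_mul _ _ _
    rw [hKsq, h2, Complex.sub_re] at h1
    linarith
  have htele : tele p μ e ψ k j = ∑ i ∈ Finset.Ico 2 j, ((j : ℝ) - i) *
      (e j * (‖x i‖ ^ 2 - ‖x 1‖ ^ 2) - 2 * ((V * x i).re - (V * x 0).re) +
       (e j * (‖y i‖ ^ 2 - ‖y 1‖ ^ 2) - 2 * ((V * y i).re - (V * y 0).re))) := by
    unfold tele
    refine Finset.sum_congr rfl (fun i _ => ?_)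
    have h1 : ψ (k - i) - ψ k = x i - x 0 := by rw [hx]; simp
    have h2 : ψ (k + 1 + i) - ψ (k + 1) = y i - y 0 := by rw [hy]; simp
    have h3 : V * (x i - x 0) = V * x i - V * x 0 := mul_sub _ _ _
    have h4 : V * (y i - y 0) = V * y i - V * y 0 := mul_sub _ _ _
    rw [hxs, hys, hx1, hy1, h1, h2, ← hV, h3, h4, Complex.sub_re, Complex.sub_re]
  have hbig : ∑ i ∈ Finset.Ico 2 j, ((j : ℝ) - i) *
      (-(2 * K) - e j * (‖x 1‖ ^ 2 + ‖y 1‖ ^ 2) + 2 * ((V * x 0).re + (V * y 0).re)) ≤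
      tele p μ e ψ k j + ∑ i ∈ Finset.Ico 2 j, ((j : ℝ) - i) * (2 * (W * x i).re) +
      ∑ i ∈ Finset.Ico 2 j, ((j : ℝ) - i) * (2 * (W * y i).re) -
      r * ∑ i ∈ Finset.Ico 2 j, ((j : ℝ) - i) * (‖x i‖ ^ 2 + ‖y i‖ ^ 2) := by
    rw [htele, Finset.mul_sum, ← Finset.sum_add_distrib, ← Finset.sum_add_distrib,
      ← Finset.sum_sub_distrib]
    refine Finset.sum_le_sum (fun i hi => ?_)
    have h3 : (i : ℝ) ≤ j := by exact_mod_cast (Finset.mem_Ico.1 hi).2.le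
    have h4 := mul_le_mul_of_nonneg_left (add_le_add (hmain (x i)) (hmain (y i)))
      (by linarith : 0 ≤ (j : ℝ) - i)
    refine le_trans (le_of_eq ?_) (le_trans (add_le_add_left h4 (((j : ℝ) - i) *
      (- (e j * (‖x 1‖ ^ 2 + ‖y 1‖ ^ 2)) + 2 * ((V * x 0).re + (V * y 0).re)))) (le_of_eq ?_))
    · ring
    · ring
  rw [← Finset.sum_mul, lt_sum j (by omega)] at hbig
  -- splitting
  obtain ⟨Ax, hAx⟩ : ∃ A : ℝ, A = ∑ i ∈ Finset.Ico 2 j, ((j : ℝ) - i) * (W * x i).re := ⟨_, rfl⟩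
  obtain ⟨Ay, hAy⟩ : ∃ A : ℝ, A = ∑ i ∈ Finset.Ico 2 j, ((j : ℝ) - i) * (W * y i).re := ⟨_, rfl⟩
  obtain ⟨Bx, hBx⟩ : ∃ A : ℝ, A = ∑ i ∈ Finset.Ico 2 j, ((j : ℝ) - i) * ‖x i‖ ^ 2 := ⟨_, rfl⟩
  obtain ⟨By, hBy⟩ : ∃ A : ℝ, A = ∑ i ∈ Finset.Ico 2 j, ((j : ℝ) - i) * ‖y i‖ ^ 2 := ⟨_, rfl⟩
  have e1 : ∑ i ∈ Finset.range j, ((j : ℝ) - i) * (l * p ^ (tri j - 1) * x i).re =
      j * (W * x 0).re + (j - 1) * (W * x 1).re + Ax := by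
    rw [← hW, lt_split _ j (by omega), hAx]
    push_cast
    ring
  have e2 : ∑ i ∈ Finset.range j, ((j : ℝ) - i) * (l * p ^ (tri j - 1) * y i).re =
      j * (W * y 0).re + (j - 1) * (W * y 1).re + Ay := by
    rw [← hW, lt_split _ j (by omega), hAy]
    push_cast
    ring
  have e3 : ∑ i ∈ Finset.range j, ((j : ℝ) - i) * ‖x i‖ ^ 2 =
      j * ‖x 0‖ ^ 2 + (j - 1) * ‖x 1‖ ^ 2 + Bx := by
    rw [lt_split _ j (by omega), hBx]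
    push_cast
    ring
  have e4 : ∑ i ∈ Finset.range j, ((j : ℝ) - i) * ‖y i‖ ^ 2 =
      j * ‖y 0‖ ^ 2 + (j - 1) * ‖y 1‖ ^ 2 + By := by
    rw [lt_split _ j (by omega), hBy]
    push_cast
    ring
  have e5 : ∑ i ∈ Finset.Ico 2 j, ((j : ℝ) - i) * (2 * (W * x i).re) = 2 * Ax := by
    rw [hAx, Finset.mul_sum]
    exact Finset.sum_congr rfl (fun i _ => by ring)
  have e6 : ∑ i ∈ Finset.Ico 2 j, ((j : ℝ) - i) * (2 * (W * y i).re) = 2 * Ay := by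
    rw [hAy, Finset.mul_sum]
    exact Finset.sum_congr rfl (fun i _ => by ring)
  have e7 : ∑ i ∈ Finset.Ico 2 j, ((j : ℝ) - i) * (‖x i‖ ^ 2 + ‖y i‖ ^ 2) = Bx + By := by
    rw [hBx, hBy, ← Finset.sum_add_distrib]
    exact Finset.sum_congr rfl (fun i _ => by ring)
  have e8 : ∑ i ∈ Finset.Ico 2 j, ((j : ℝ) - i) * (s ^ 2 + 2 * (‖x i‖ ^ 2 + ‖y i‖ ^ 2)) =
      ((j : ℝ) - 1) * (j - 2) / 2 * s ^ 2 + 2 * (Bx + By) := by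
    rw [← lt_sum j (by omega), ← e7, Finset.sum_mul, Finset.mul_sum, ← Finset.sum_add_distrib]
    exact Finset.sum_congr rfl (fun i _ => by ring)
  rw [e5, e6, e7] at hbig
  rw [e8] at hS
  have hTL' : (l * p ^ tri j).re + (j * (W * x 0).re + (j - 1) * (W * x 1).re + Ax) -
      r' / 2 * (j * ‖x 0‖ ^ 2 + (j - 1) * ‖x 1‖ ^ 2 + Bx) ≤ (l * TL ψ k j).re := by
    rw [← e1, ← e3, hr']
    refine le_trans (le_of_eq ?_) hTL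
    ring
  have hTR' : (l * p ^ tri j).re + (j * (W * y 0).re + (j - 1) * (W * y 1).re + Ay) -
      r' / 2 * (j * ‖y 0‖ ^ 2 + (j - 1) * ‖y 1‖ ^ 2 + By) ≤ (l * TR ψ k j).re := by
    rw [← e2, ← e4, hr']
    refine le_trans (le_of_eq ?_) hTR
    ring
  have g1 : (l * (TL ψ k j + TR ψ k j)).re = (l * TL ψ k j).re + (l * TR ψ k j).re := by
    rw [mul_add, Complex.add_re]
  have g2 : ∀ Z : ℂ, (Z * ((ψ k + ψ (k + 1)) / 2 - p)).re = ((Z * x 0).re + (Z * y 0).re) / 2 := by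
    intro Z
    have h1 : Z * ((ψ k + ψ (k + 1)) / 2 - p) = ((1 / 2 : ℝ) : ℂ) * (Z * x 0 + Z * y 0) := by
      rw [← hx0, ← hy0]
      push_cast
      ring
    rw [h1, Complex.re_ofReal_mul, Complex.add_re]
    ring
  have g3 : (W * (ψ (k - 1) + ψ (k + 2) - 2 * p)).re = (W * x 1).re + (W * y 1).re := by
    rw [← Complex.add_re, ← hx1, ← hy1]
    congr 1
    ring
  have g4 : (tri j : ℝ) = (j : ℝ) * (j + 1) / 2 := lt_tri j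
  rw [← hW, ← hV, ← hP, ← hs, ← hK, g1, g2, g2, g3, g4, hx0, hx1, hy0, hy1]
  rw [← hP] at hr
  rw [hr] at hbig ⊢
  linarith

end Pool.Agent.MaxTerm8
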