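import Pool.Agent.MaxTerm8.Defs

/-! Crude bounds for the polynomials `UU`, `DU`, `D2U` on `[-1, 1]`, by induction on the recurrences. -/

namespace Pool.Agent.MaxTerm8

private theorem ub_rec {X : ℝ} (hX : |X| ≤ 1) (a b C : ℕ → ℝ) (h0 : |a 0| ≤ C 0)
    (h1 : |a 1| ≤ C 1) (hrec : ∀ n, a (n + 2) = 2 * X * a (n + 1) - a n + b n)
    (hC : ∀ n, 2 * C (n + 1) + C n + |b n| ≤ C (n + 2)) (n : ℕ) : |a n| ≤ C n := by
  suffices h : |a n| ≤ C n ∧ |a (n + 1)| ≤ C (n + 1) from h.1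
  induction n with
  | zero => exact ⟨h0, h1⟩
  | succ n ih =>
    refine ⟨ih.2, ?_⟩
    rw [show n + 1 + 1 = n + 2 by rfl, hrec]
    have e1 : |2 * X * a (n + 1) - a n + b n| ≤ |2 * X * a (n + 1)| + |a n| + |b n| :=
      le_trans (abs_add_le _ _) (by linarith [abs_sub (2 * X * a (n + 1)) (a n)])
    have e2 : |2 * X * a (n + 1)| ≤ 2 * |a (n + 1)| := by
      rw [abs_mul, abs_mul, abs_two]
      have := abs_nonneg (a (n + 1))
      nlinarith
    linarith [hC n, ih.1, ih.2]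

private theorem ub_pow {a b : ℝ} (ha : 0 ≤ a) (h : a ≤ b) (n : ℕ) : a ^ n ≤ b ^ n ∧ 0 ≤ a ^ n :=
  ⟨pow_le_pow_left₀ ha h n, pow_nonneg ha n⟩

theorem uu_abs (X : ℝ) (h : |X| ≤ 1) (j : ℕ) : |UU X j| ≤ 3 ^ j := by
  refine ub_rec h (fun n => UU X n) (fun _ => 0) (fun n => 3 ^ n) ?_ ?_ ?_ ?_ j
  · simp [UU]
  · obtain ⟨h1, h2⟩ := abs_le.1 h
    simp only [UU, pow_one]
    rw [abs_le]
    constructor <;> linarith
  · intro n
    simp only [UU]
    ring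
  · intro n
    have := (ub_pow (show (0 : ℝ) ≤ 3 by norm_num) le_rfl n).2
    simp only [abs_zero, pow_succ]
    linarith

theorem du_abs (X : ℝ) (h : |X| ≤ 1) (j : ℕ) : |DU X j| ≤ 4 ^ j := by
  refine ub_rec h (fun n => DU X n) (fun n => 2 * UU X (n + 1)) (fun n => 4 ^ n) ?_ ?_ ?_ ?_ j
  · simp [DU]
  · simp only [DU, pow_one, abs_two]
    norm_num
  · intro n
    simp only [DU]
    ring
  · intro n
    have h1 := ub_pow (show (0 : ℝ) ≤ 3 by norm_num) (show (3 : ℝ) ≤ 4 by norm_num) n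
    have h2 := uu_abs X h (n + 1)
    simp only [abs_mul, abs_two, pow_succ] at *
    linarith

theorem d2u_abs (X : ℝ) (h : |X| ≤ 1) (j : ℕ) : |D2U X j| ≤ 6 ^ j := by
  refine ub_rec h (fun n => D2U X n) (fun n => 4 * DU X (n + 1)) (fun n => 6 ^ n) ?_ ?_ ?_ ?_ j
  · simp [D2U]
  · simp [D2U]
  · intro n
    simp only [D2U]
    ring
  · intro n
    have h1 := ub_pow (show (0 : ℝ) ≤ 4 by norm_num) (show (4 : ℝ) ≤ 6 by norm_num) n
    have h2 := du_abs X h (n + 1)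
    have h3 : |(4 : ℝ)| = 4 := by norm_num
    simp only [abs_mul, h3, pow_succ] at *
    linarith

/-- `e_n = UU X n - UU Y n`: `e_{n+2} = 2 X e_{n+1} + 2 (X-Y) UU Y (n+1) - e_n`. -/
theorem uu_lip (X Y : ℝ) (hX : |X| ≤ 1) (hY : |Y| ≤ 1) (j : ℕ) :
    |UU X j - UU Y j| ≤ 4 ^ j * |X - Y| := by
  have hd := abs_nonneg (X - Y)
  refine ub_rec hX (fun n => UU X n - UU Y n) (fun n => 2 * (X - Y) * UU Y (n + 1))
    (fun n => 4 ^ n * |X - Y|) ?_ ?_ ?_ ?_ j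
  · simp [UU]
  · simp only [UU, pow_one]
    rw [show 2 * X - 1 - (2 * Y - 1) = 2 * (X - Y) by ring, abs_mul, abs_two]
    linarith
  · intro n
    simp only [UU]
    ring
  · intro n
    have h1 := ub_pow (show (0 : ℝ) ≤ 3 by norm_num) (show (3 : ℝ) ≤ 4 by norm_num) n
    have h2 := mul_le_mul_of_nonneg_left (uu_abs Y hY (n + 1)) hd
    have h3 := mul_le_mul_of_nonneg_left h1.1 hd
    have h4 := mul_nonneg hd h1.2
    simp only [abs_mul, abs_two, pow_succ] at *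
    nlinarith

theorem du_lip (X Y : ℝ) (hX : |X| ≤ 1) (hY : |Y| ≤ 1) (j : ℕ) :
    |DU X j - DU Y j| ≤ 6 ^ j * |X - Y| := by
  have hd := abs_nonneg (X - Y)
  refine ub_rec hX (fun n => DU X n - DU Y n)
    (fun n => 2 * (UU X (n + 1) - UU Y (n + 1)) + 2 * (X - Y) * DU Y (n + 1))
    (fun n => 6 ^ n * |X - Y|) ?_ ?_ ?_ ?_ j
  · simp [DU]
  · simp only [DU, sub_self, abs_zero]
    positivity
  · intro n
    simp only [DU]
    ring
  · intro n
    have h1 := ub_pow (show (0 : ℝ) ≤ 4 by norm_num) (show (4 : ℝ) ≤ 6 by norm_num) n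
    have h2 := mul_le_mul_of_nonneg_left (du_abs Y hY (n + 1)) hd
    have h3 := mul_le_mul_of_nonneg_left h1.1 hd
    have h4 := mul_nonneg hd h1.2
    have h5 := uu_lip X Y hX hY (n + 1)
    have h6 := abs_add_le (2 * (UU X (n + 1) - UU Y (n + 1))) (2 * (X - Y) * DU Y (n + 1))
    simp only [abs_mul, abs_two, pow_succ] at *
    nlinarith

/-- `f_n = UU X n - UU Y n - DU Y n * h`, `h = X - Y`: `f_{n+2} = 2 X f_{n+1} - f_n + 2 h^2 DU Y (n+1)`,
`f_0 = f_1 = 0`. -/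
theorem uu_tay2 (X Y : ℝ) (hX : |X| ≤ 1) (hY : |Y| ≤ 1) (j : ℕ) :
    |UU X j - UU Y j - DU Y j * (X - Y)| ≤ 6 ^ j / 2 * (X - Y) ^ 2 := by
  have hd := sq_nonneg (X - Y)
  refine ub_rec hX (fun n => UU X n - UU Y n - DU Y n * (X - Y))
    (fun n => 2 * (X - Y) ^ 2 * DU Y (n + 1))
    (fun n => 6 ^ n / 2 * (X - Y) ^ 2) ?_ ?_ ?_ ?_ j
  · simp only [UU, DU]
    rw [show (1 : ℝ) - 1 - 0 * (X - Y) = 0 by ring, abs_zero]
    positivity
  · simp only [UU, DU]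
    rw [show 2 * X - 1 - (2 * Y - 1) - 2 * (X - Y) = 0 by ring, abs_zero]
    positivity
  · intro n
    simp only [UU, DU]
    ring
  · intro n
    have h1 := ub_pow (show (0 : ℝ) ≤ 4 by norm_num) (show (4 : ℝ) ≤ 6 by norm_num) n
    have h2 := mul_le_mul_of_nonneg_left (du_abs Y hY (n + 1)) hd
    have h3 := mul_le_mul_of_nonneg_left h1.1 hd
    have h4 := mul_nonneg hd h1.2
    have h5 : |(X - Y) ^ 2| = (X - Y) ^ 2 := abs_of_nonneg hd
    simp only [abs_mul, abs_two, h5, pow_succ _ n, pow_succ _ (n + 1)] at *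
    nlinarith

/-- `g_n = f_n - D2U Y n / 2 * h^2`: `g_{n+2} = 2 X g_{n+1} - g_n + h^3 D2U Y (n+1)`,
`g_0 = g_1 = 0`. -/
theorem uu_tay3 (X Y : ℝ) (hX : |X| ≤ 1) (hY : |Y| ≤ 1) (j : ℕ) :
    |UU X j - UU Y j - DU Y j * (X - Y) - D2U Y j / 2 * (X - Y) ^ 2| ≤ 9 ^ j / 6 * |X - Y| ^ 3 := by
  have hd : 0 ≤ |X - Y| ^ 3 := by positivity
  refine ub_rec hX (fun n => UU X n - UU Y n - DU Y n * (X - Y) - D2U Y n / 2 * (X - Y) ^ 2)
    (fun n => (X - Y) ^ 3 * D2U Y (n + 1))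
    (fun n => 9 ^ n / 6 * |X - Y| ^ 3) ?_ ?_ ?_ ?_ j
  · simp only [UU, DU, D2U]
    rw [show (1 : ℝ) - 1 - 0 * (X - Y) - 0 / 2 * (X - Y) ^ 2 = 0 by ring, abs_zero]
    positivity
  · simp only [UU, DU, D2U]
    rw [show 2 * X - 1 - (2 * Y - 1) - 2 * (X - Y) - 0 / 2 * (X - Y) ^ 2 = 0 by ring, abs_zero]
    positivity
  · intro n
    simp only [UU, DU, D2U]
    ring
  · intro n
    have h1 := ub_pow (show (0 : ℝ) ≤ 6 by norm_num) (show (6 : ℝ) ≤ 9 by norm_num) n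
    have h2 := mul_le_mul_of_nonneg_left (d2u_abs Y hY (n + 1)) hd
    have h3 := mul_le_mul_of_nonneg_left h1.1 hd
    have h4 := mul_nonneg hd h1.2
    have h5 : |(X - Y) ^ 3| = |X - Y| ^ 3 := abs_pow _ _
    simp only [abs_mul, h5, pow_succ _ n, pow_succ _ (n + 1)] at *
    nlinarith

theorem hasDerivAt_uu (X : ℝ) (j : ℕ) : HasDerivAt (fun X : ℝ => UU X j) (DU X j) X := by
  suffices h : HasDerivAt (fun X : ℝ => UU X j) (DU X j) X ∧
      HasDerivAt (fun X : ℝ => UU X (j + 1)) (DU X (j + 1)) X from h.1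
  induction j with
  | zero =>
    constructor
    · simp only [UU, DU]
      exact hasDerivAt_const X (1 : ℝ)
    · simp only [UU, DU]
      have := ((hasDerivAt_id X).const_mul (2 : ℝ)).sub_const (1 : ℝ)
      simpa using this
  | succ n ih =>
    refine ⟨ih.2, ?_⟩
    have h1 := ((hasDerivAt_id X).const_mul (2 : ℝ)).mul ih.2
    have h2 := h1.sub ih.1
    have h3 : HasDerivAt (fun X : ℝ => UU X (n + 1 + 1))
        (2 * 1 * UU X (n + 1) + 2 * id X * DU X (n + 1) - DU X n) X := h2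
    convert h3 using 1
    simp only [DU, id]
    ring

theorem hasDerivAt_du (X : ℝ) (j : ℕ) : HasDerivAt (fun X : ℝ => DU X j) (D2U X j) X := by
  suffices h : HasDerivAt (fun X : ℝ => DU X j) (D2U X j) X ∧
      HasDerivAt (fun X : ℝ => DU X (j + 1)) (D2U X (j + 1)) X from h.1
  induction j with
  | zero =>
    constructor
    · simp only [DU, D2U]
      exact hasDerivAt_const X (0 : ℝ)
    · simp only [DU, D2U]
      exact hasDerivAt_const X (2 : ℝ)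
  | succ n ih =>
    refine ⟨ih.2, ?_⟩
    have h1 := ((hasDerivAt_id X).const_mul (2 : ℝ)).mul ih.2
    have h2 := (((hasDerivAt_uu X (n + 1)).const_mul (2 : ℝ)).add h1).sub ih.1
    have h3 : HasDerivAt (fun X : ℝ => DU X (n + 1 + 1))
        (2 * DU X (n + 1) + (2 * 1 * DU X (n + 1) + 2 * id X * D2U X (n + 1)) - D2U X n) X := h2
    convert h3 using 1
    simp only [D2U, id]
    ring

end Pool.Agent.MaxTerm8
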