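import Pool.Agent.MaxTerm8.Defs

/-! From the angle `t` to the variable `X = cos 2t`. -/

namespace Pool.Agent.MaxTerm8

open Complex ComplexConjugate

/-- Induction on `j` (two steps at a time), `cos (2j+5)t + cos (2j+1)t = 2 cos 2t cos (2j+3)t`. -/
theorem uu_trig (t : ℝ) (j : ℕ) :
    Real.cos t * UU (Real.cos (2 * t)) j = Real.cos ((2 * (j : ℝ) + 1) * t) := by
  induction j using Nat.twoStepInduction with
  | zero => simp [UU]
  | one =>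
    have h : (2 * ((1 : ℕ) : ℝ) + 1) * t = 3 * t := by push_cast; ring
    rw [h, Real.cos_three_mul, UU, Real.cos_two_mul]
    ring
  | more n h1 h2 =>
    have e : UU (Real.cos (2 * t)) (n + 2) =
      2 * Real.cos (2 * t) * UU (Real.cos (2 * t)) (n + 1) - UU (Real.cos (2 * t)) n := rfl
    rw [e]
    have e1 : (2 * ((n + 2 : ℕ) : ℝ) + 1) * t = (2 * ((n + 1 : ℕ) : ℝ) + 1) * t + 2 * t := by
      push_cast; ring
    have e2 : (2 * (n : ℝ) + 1) * t = (2 * ((n + 1 : ℕ) : ℝ) + 1) * t - 2 * t := by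
      push_cast; ring
    rw [e2, Real.cos_sub] at h1
    rw [e1, Real.cos_add]
    linear_combination 2 * Real.cos (2 * t) * h2 - h1

/-- Same for sines. -/
theorem vv_trig (t : ℝ) (j : ℕ) :
    Real.sin t * VV (Real.cos (2 * t)) j = Real.sin ((2 * (j : ℝ) + 1) * t) := by
  induction j using Nat.twoStepInduction with
  | zero => simp [VV]
  | one =>
    have h : (2 * ((1 : ℕ) : ℝ) + 1) * t = 3 * t := by push_cast; ring
    rw [h, Real.sin_three_mul, VV, Real.cos_two_mul]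
    have h2 := Real.sin_sq_add_cos_sq t
    linear_combination 4 * Real.sin t * h2
  | more n h1 h2 =>
    have e : VV (Real.cos (2 * t)) (n + 2) =
      2 * Real.cos (2 * t) * VV (Real.cos (2 * t)) (n + 1) - VV (Real.cos (2 * t)) n := rfl
    rw [e]
    have e1 : (2 * ((n + 2 : ℕ) : ℝ) + 1) * t = (2 * ((n + 1 : ℕ) : ℝ) + 1) * t + 2 * t := by
      push_cast; ring
    have e2 : (2 * (n : ℝ) + 1) * t = (2 * ((n + 1 : ℕ) : ℝ) + 1) * t - 2 * t := by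
      push_cast; ring
    rw [e2, Real.sin_sub] at h1
    rw [e1, Real.sin_add]
    linear_combination 2 * Real.cos (2 * t) * h2 - h1

/-- Write `X = cos 2t` with `t = arccos X / 2`; `(1+X)/2 = cos^2 t`, use `uu_trig`. -/
theorem uu_bound (X : ℝ) (h1 : -1 ≤ X) (h2 : X ≤ 1) (j : ℕ) : (1 + X) / 2 * (UU X j) ^ 2 ≤ 1 := by
  have hX : Real.cos (2 * (Real.arccos X / 2)) = X := by
    rw [mul_div_cancel₀ _ (by norm_num : (2 : ℝ) ≠ 0), Real.cos_arccos h1 h2]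
  set t := Real.arccos X / 2
  have h3 : (1 + X) / 2 = Real.cos t ^ 2 := by
    rw [← hX, Real.cos_two_mul]; ring
  rw [h3, ← mul_pow, ← hX, uu_trig]
  exact Real.cos_sq_le_one _

/-- `(1-X)/2 = sin^2 t`, use `vv_trig`. -/
theorem vv_bound (X : ℝ) (h1 : -1 ≤ X) (h2 : X ≤ 1) (j : ℕ) : (1 - X) / 2 * (VV X j) ^ 2 ≤ 1 := by
  have hX : Real.cos (2 * (Real.arccos X / 2)) = X := by
    rw [mul_div_cancel₀ _ (by norm_num : (2 : ℝ) ≠ 0), Real.cos_arccos h1 h2]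
  set t := Real.arccos X / 2
  have h3 : (1 - X) / 2 = Real.sin t ^ 2 := by
    rw [← hX, Real.cos_two_mul, Real.sin_sq]; ring
  rw [h3, ← mul_pow, ← hX, vv_trig]
  exact Real.sin_sq_le_one _

private theorem ft_eq (ψ : ℤ → ℂ) (k : ℤ) (t : ℝ) (j : ℕ) :
    FT ψ k t j = ((Real.cos t : ℝ) : ℂ) * ((TL ψ k j + TR ψ k j) * ((UU (Real.cos (2 * t)) j : ℝ) : ℂ))
      - I * ((Real.sin t : ℝ) : ℂ) *
        ((TL ψ k j - TR ψ k j) * ((VV (Real.cos (2 * t)) j : ℝ) : ℂ)) := by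
  have hu : ((Real.cos t : ℝ) : ℂ) * ((UU (Real.cos (2 * t)) j : ℝ) : ℂ) =
      ((Real.cos ((2 * (j : ℝ) + 1) * t) : ℝ) : ℂ) := by
    rw [← uu_trig t j]; push_cast; ring
  have hv : ((Real.sin t : ℝ) : ℂ) * ((VV (Real.cos (2 * t)) j : ℝ) : ℂ) =
      ((Real.sin ((2 * (j : ℝ) + 1) * t) : ℝ) : ℂ) := by
    rw [← vv_trig t j]; push_cast; ring
  have e1 : exp ((2 * (j : ℂ) + 1) * t * I) = ((Real.cos ((2 * (j : ℝ) + 1) * t) : ℝ) : ℂ) +
      ((Real.sin ((2 * (j : ℝ) + 1) * t) : ℝ) : ℂ) * I := by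
    rw [Complex.exp_mul_I]; push_cast; ring
  have e2 : exp (-((2 * (j : ℂ) + 1) * t * I)) = ((Real.cos ((2 * (j : ℝ) + 1) * t) : ℝ) : ℂ) -
      ((Real.sin ((2 * (j : ℝ) + 1) * t) : ℝ) : ℂ) * I := by
    rw [← neg_mul, Complex.exp_mul_I, Complex.cos_neg, Complex.sin_neg]; push_cast; ring
  unfold FT
  rw [e1, e2, ← hu, ← hv]
  ring

/-- With `X = cos 2t`: `FJ (±t) = E ± O`, `E = cos t * ∑ (TL+TR) UU X j`, `O = I sin t * ∑ (TR-TL) VV X j`
(the terms are `TL e^{-i(2j+1)t} + TR e^{i(2j+1)t}`); `‖E+O‖^2 + ‖E-O‖^2 = 2‖E‖^2+2‖O‖^2`, and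
`cos^2 t = (1+X)/2`, `sin^2 t = (1-X)/2`. -/
theorem xform (J : ℕ) (ψ : ℤ → ℂ) (k : ℤ) (M : ℝ) (h : ∀ t : ℝ, ‖FJ J ψ k t‖ ^ 2 ≤ M) :
    XIneq J ψ k M := by
  intro X h1 h2
  have hX : Real.cos (2 * (Real.arccos X / 2)) = X := by
    rw [mul_div_cancel₀ _ (by norm_num : (2 : ℝ) ≠ 0), Real.cos_arccos h1 h2]
  set t := Real.arccos X / 2
  have h3 : (1 + X) / 2 = Real.cos t ^ 2 := by
    rw [← hX, Real.cos_two_mul]; ring
  have h4 : (1 - X) / 2 = Real.sin t ^ 2 := by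
    rw [← hX, Real.cos_two_mul, Real.sin_sq]; ring
  set A := ∑ j ∈ Finset.range (J + 1), (TL ψ k j + TR ψ k j) * ((UU X j : ℝ) : ℂ) with hA
  set B := ∑ j ∈ Finset.range (J + 1), (TL ψ k j - TR ψ k j) * ((VV X j : ℝ) : ℂ) with hB
  have f1 : FJ J ψ k t = ((Real.cos t : ℝ) : ℂ) * A - I * ((Real.sin t : ℝ) : ℂ) * B := by
    unfold FJ
    rw [Finset.sum_congr rfl fun j _ => ft_eq ψ k t j, Finset.sum_sub_distrib, ← Finset.mul_sum,
      ← Finset.mul_sum, hX]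
  have f2 : FJ J ψ k (-t) = ((Real.cos t : ℝ) : ℂ) * A + I * ((Real.sin t : ℝ) : ℂ) * B := by
    unfold FJ
    have hX' : Real.cos (2 * -t) = X := by rw [mul_neg, Real.cos_neg, hX]
    rw [Finset.sum_congr rfl fun j _ => ft_eq ψ k (-t) j, Finset.sum_sub_distrib, ← Finset.mul_sum,
      ← Finset.mul_sum, hX', Real.cos_neg, Real.sin_neg]
    push_cast
    ring
  have g1 := h t
  have g2 := h (-t)
  rw [f1] at g1
  rw [f2] at g2
  have par := parallelogram_law_with_norm ℝ (((Real.cos t : ℝ) : ℂ) * A)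
    (I * ((Real.sin t : ℝ) : ℂ) * B)
  have n1 : ‖((Real.cos t : ℝ) : ℂ) * A‖ ^ 2 = Real.cos t ^ 2 * ‖A‖ ^ 2 := by
    rw [norm_mul, mul_pow, Complex.norm_real, Real.norm_eq_abs, sq_abs]
  have n2 : ‖I * ((Real.sin t : ℝ) : ℂ) * B‖ ^ 2 = Real.sin t ^ 2 * ‖B‖ ^ 2 := by
    rw [norm_mul, norm_mul, Complex.norm_I, one_mul, mul_pow, Complex.norm_real, Real.norm_eq_abs,
      sq_abs]
  rw [h3, h4, ← n1, ← n2]
  nlinarith

/-- `ThJ J q t = cos t * (2 * PP J q (cos 2t))`, `cos^2 t = (1 + cos 2t)/2`. -/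
theorem th_gj (J : ℕ) (q : ℂ) (t : ℝ) : ‖ThJ J q t‖ ^ 2 = GJ J q (Real.cos (2 * t)) := by
  have h3 : (1 + Real.cos (2 * t)) / 2 = Real.cos t ^ 2 := by
    rw [Real.cos_two_mul]; ring
  have h1 : ThJ J q t = ((Real.cos t : ℝ) : ℂ) * (2 * PP J q (Real.cos (2 * t))) := by
    unfold ThJ PP
    rw [Finset.mul_sum, Finset.mul_sum]
    refine Finset.sum_congr rfl fun j _ => ?_
    unfold ThT
    rw [← uu_trig t j]
    push_cast
    ring
  rw [h1, norm_mul, mul_pow, Complex.norm_real, Real.norm_eq_abs, sq_abs, GJ, h3]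

private theorem sum_tri (j : ℕ) : ∑ i ∈ Finset.range j, (j - i) = tri j := by
  have h1 : ∑ i ∈ Finset.range j, (j - i) = ∑ i ∈ Finset.range j, (i + 1) := by
    rw [← Finset.sum_range_reflect]
    refine Finset.sum_congr rfl fun i hi => ?_
    have := Finset.mem_range.1 hi
    omega
  rw [h1, Finset.sum_add_distrib]
  unfold tri
  have h2 := Finset.sum_range_id_mul_two j
  simp only [Finset.sum_const, Finset.card_range, smul_eq_mul, mul_one]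
  have h3 : j * (j + 1) = 2 * (∑ i ∈ Finset.range j, i + j) := by
    rcases j with _ | j
    · simp
    · simp only [Nat.add_sub_cancel] at h2
      nlinarith
  rw [h3]
  omega

/-- For a constant sequence `TL = TR = q ^ tri j`. -/
theorem fj_const (J : ℕ) (q : ℂ) (k : ℤ) (t : ℝ) : FJ J (fun _ => q) k t = ThJ J q t := by
  unfold FJ ThJ
  refine Finset.sum_congr rfl fun j _ => ?_
  have h1 : TL (fun _ => q) k j = q ^ tri j := by
    unfold TL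
    rw [Finset.prod_pow_eq_pow_sum, sum_tri]
  have h2 : TR (fun _ => q) k j = q ^ tri j := by
    unfold TR
    rw [Finset.prod_pow_eq_pow_sum, sum_tri]
  rw [ft_eq, h1, h2]
  unfold ThT
  rw [← uu_trig t j]
  push_cast
  ring

/-- `TL ψ k 0 = 1`, `TL ψ k 1 = ψ k`, `TL ψ k 2 = ψ k ^ 2 * ψ (k-1)` and the mirror images. -/
theorem tl_small (ψ : ℤ → ℂ) (k : ℤ) : TL ψ k 0 = 1 ∧ TR ψ k 0 = 1 ∧ TL ψ k 1 = ψ k ∧
    TR ψ k 1 = ψ (k + 1) ∧ TL ψ k 2 = ψ k ^ 2 * ψ (k - 1) ∧ TR ψ k 2 = ψ (k + 1) ^ 2 * ψ (k + 2) := by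
  have e : k + 1 + 1 = k + 2 := by ring
  refine ⟨by simp [TL], by simp [TR], by simp [TL], by simp [TR], ?_, ?_⟩
  · simp [TL, Finset.prod_range_succ]
  · simp [TR, Finset.prod_range_succ, e]

/-- Multiply `FJ 2 ψ k t` by `e^{it}`, `ζ = e^{2it}` (every `ζ` of modulus one is of this form). -/
theorem zform2 (ψ : ℤ → ℂ) (k : ℤ) (M : ℝ) (h : ∀ t : ℝ, ‖FJ 2 ψ k t‖ ^ 2 ≤ M) (ζ : ℂ)
    (hζ : ‖ζ‖ = 1) :
    ‖1 + ζ + ψ k * conj ζ + ψ (k + 1) * ζ ^ 2 + ψ k ^ 2 * ψ (k - 1) * (conj ζ) ^ 2 +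
      ψ (k + 1) ^ 2 * ψ (k + 2) * ζ ^ 3‖ ^ 2 ≤ M := by
  set t := Complex.arg ζ / 2 with ht
  set w := exp (t * I) with hw
  have hw1 : ‖w‖ = 1 := by rw [hw, Complex.norm_exp_ofReal_mul_I]
  have hw0 : w ≠ 0 := Complex.exp_ne_zero _
  have hζw : ζ = w ^ 2 := by
    rw [hw, ← Complex.exp_nat_mul]
    have h2 := Complex.norm_mul_exp_arg_mul_I ζ
    rw [hζ] at h2
    simp only [Complex.ofReal_one, one_mul] at h2
    rw [← h2]
    congr 1
    rw [ht]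
    have h5 : (cexp (↑ζ.arg * I)).arg = ζ.arg := by rw [h2]
    push_cast [h5]
    ring
  have hcw : conj w = w⁻¹ := by
    rw [Complex.inv_def, Complex.normSq_eq_norm_sq, hw1]
    simp
  have hcζ : conj ζ = (w⁻¹) ^ 2 := by rw [hζw, map_pow, hcw]
  have hp : ∀ j : ℕ, exp ((2 * (j : ℂ) + 1) * t * I) = w ^ (2 * j + 1) := by
    intro j
    rw [hw, ← Complex.exp_nat_mul]
    congr 1
    push_cast
    ring
  have hm : ∀ j : ℕ, exp (-((2 * (j : ℂ) + 1) * t * I)) = (w⁻¹) ^ (2 * j + 1) := by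
    intro j
    rw [Complex.exp_neg, hp, inv_pow]
  obtain ⟨a0, b0, a1, b1, a2, b2⟩ := tl_small ψ k
  have hF : FJ 2 ψ k t * w = 1 + ζ + ψ k * conj ζ + ψ (k + 1) * ζ ^ 2 +
      ψ k ^ 2 * ψ (k - 1) * (conj ζ) ^ 2 + ψ (k + 1) ^ 2 * ψ (k + 2) * ζ ^ 3 := by
    unfold FJ FT
    simp only [Finset.sum_range_succ, Finset.sum_range_zero, hp, hm, a0, b0, a1, b1, a2, b2]
    rw [hcζ, hζw]
    have hv : w⁻¹ * w = 1 := inv_mul_cancel₀ hw0
    linear_combination (1 + ψ k * w⁻¹ ^ 2 + ψ k ^ 2 * ψ (k - 1) * w⁻¹ ^ 4) * hv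
  have := h t
  rw [← hF, norm_mul, hw1, mul_one]
  exact this

end Pool.Agent.MaxTerm8
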