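import Pool.Agent.MaxTerm8.Quad
import Pool.Agent.MaxTerm8.UBounds
import Pool.Agent.MaxTerm8.XForm

/-! Numerical bounds of the local quantities and their consequences for the expansion (abstract form). -/

namespace Pool.Agent.MaxTerm8

open Complex ComplexConjugate

structure LocN (w x : ℝ) (p Y0 q0 Y1 q1 qx P1 P2 f0 f1 fx : ℂ) : Prop where
  hw : |w - 28989 / 100000| ≤ 7 / 10000
  hx : |x - 27608 / 100000| ≤ 4 / 10000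
  hp : ‖p‖ ≤ 2803 / 10000
  hY0 : ‖Y0‖ ≤ 17093 / 10000
  hY1 : ‖Y1‖ ≤ 21404 / 10000
  hq0 : ‖q0‖ ≤ 20103 / 10000
  hq1 : ‖q1‖ ≤ 9568 / 10000
  hqx : ‖qx‖ ≤ 39708 / 10000
  hP1 : ‖P1‖ ≤ 5592 / 10000
  hP2 : ‖P2‖ ≤ 1783 / 10000
  hf0 : ‖f0‖ ≤ 1625 / 10000
  hf1 : ‖f1‖ ≤ 1975 / 10000
  hfx : ‖fx‖ ≤ 218 / 10000

/-- displaced data: the window function at the two displaced nodes -/
structure Disp (x : ℝ) (p Y0 q0 Y1 q1 qx P1 P2 δ E0 E1 : ℂ) (ω ξ : ℝ) : Prop where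
  hδ : ‖δ‖ ≤ 503 / 100000
  hω : |ω| ≤ 225 / 100 * ‖δ‖
  hξ : |ξ| ≤ 3401 / 1000 * ‖δ‖
  hE0 : E0 = Y0 + q0 * δ + 2 * p * δ ^ 2
  hE1 : ‖E1 - Y1 - (2 * P1 * ξ + q1 * δ) -
    (P2 * ξ ^ 2 + qx * ξ * δ + 2 * p * ((UU x 2 : ℝ) : ℂ) * δ ^ 2)‖ ≤ 338 / 10 * ‖δ‖ ^ 3

private theorem ln_real {ξ a d : ℝ} (h : |ξ| ≤ a * d) : ‖(ξ : ℂ)‖ ≤ a * d := by
  rw [Complex.norm_real, Real.norm_eq_abs]; exact h

private theorem ln_UU {x : ℝ} (hx : |x - 27608 / 100000| ≤ 4 / 10000) :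
    ‖((UU x 2 : ℝ) : ℂ)‖ ≤ 12481 / 10000 := by
  rw [Complex.norm_real, Real.norm_eq_abs]
  have e : UU x 2 = 4 * x ^ 2 - 2 * x - 1 := by
    simp only [UU]; ring
  rw [e]
  rw [abs_le] at hx
  obtain ⟨h1, h2⟩ := hx
  rw [abs_le]
  constructor <;> nlinarith

private theorem ln_mul {x y : ℂ} {a b : ℝ} (hx : ‖x‖ ≤ a) (hy : ‖y‖ ≤ b) : ‖x * y‖ ≤ a * b := by
  rw [norm_mul]
  exact mul_le_mul hx hy (norm_nonneg _) ((norm_nonneg _).trans hx)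

private theorem ln_pow {x : ℂ} {a : ℝ} (hx : ‖x‖ ≤ a) (n : ℕ) : ‖x ^ n‖ ≤ a ^ n := by
  rw [norm_pow]
  exact pow_le_pow_left₀ (norm_nonneg _) hx n

/-- jet of `E0` -/
theorem jet_E0 {w x : ℝ} {p Y0 q0 Y1 q1 qx P1 P2 f0 f1 fx δ E0 E1 : ℂ} {ω ξ : ℝ}
    (h : LocN w x p Y0 q0 Y1 q1 qx P1 P2 f0 f1 fx)
    (hd : Disp x p Y0 q0 Y1 q1 qx P1 P2 δ E0 E1 ω ξ) :
    Jt ‖δ‖ E0 Y0 (q0 * δ) (2 * p * δ ^ 2) (17093 / 10000) (20103 / 10000) (5606 / 10000) 0 := by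
  have h2p : ‖(2 : ℂ) * p‖ ≤ 5606 / 10000 := by
    rw [norm_mul, Complex.norm_ofNat]; linarith [h.hp]
  refine ⟨h.hY0, ln_mul h.hq0 le_rfl, ?_, ?_⟩
  · exact ln_mul h2p (ln_pow le_rfl 2)
  · have e : E0 - Y0 - q0 * δ - 2 * p * δ ^ 2 = 0 := by rw [hd.hE0]; ring
    rw [e, norm_zero, zero_mul]

/-- jet of `E1`: `2 * .5592 * 3.401 + .9568 ≤ 4.7605`,
`.1783 * 3.401^2 + 3.9708 * 3.401 + .5606 * 1.2481 ≤ 16.267` -/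
theorem jet_E1 {w x : ℝ} {p Y0 q0 Y1 q1 qx P1 P2 f0 f1 fx δ E0 E1 : ℂ} {ω ξ : ℝ}
    (h : LocN w x p Y0 q0 Y1 q1 qx P1 P2 f0 f1 fx)
    (hd : Disp x p Y0 q0 Y1 q1 qx P1 P2 δ E0 E1 ω ξ) :
    Jt ‖δ‖ E1 Y1 (2 * P1 * ξ + q1 * δ)
      (P2 * ξ ^ 2 + qx * ξ * δ + 2 * p * ((UU x 2 : ℝ) : ℂ) * δ ^ 2)
      (21404 / 10000) (47605 / 10000) (16267 / 1000) (338 / 10) := by
  have hd0 : 0 ≤ ‖δ‖ := norm_nonneg _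
  have hξ := ln_real hd.hξ
  have hU := ln_UU h.hx
  have h2p : ‖(2 : ℂ) * p‖ ≤ 5606 / 10000 := by
    rw [norm_mul, Complex.norm_ofNat]; linarith [h.hp]
  have h2P : ‖(2 : ℂ) * P1‖ ≤ 2 * (5592 / 10000) := by
    rw [norm_mul, Complex.norm_ofNat]; linarith [h.hP1]
  refine ⟨h.hY1, ?_, ?_, ?_⟩
  · refine (norm_add_le _ _).trans ?_
    have e1 := ln_mul h2P hξ
    have e2 := ln_mul h.hq1 (le_refl ‖δ‖)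
    nlinarith [e1, e2, hd0]
  · refine (norm_add_le _ _).trans ((add_le_add (norm_add_le _ _) le_rfl).trans ?_)
    have e1 := ln_mul h.hP2 (ln_pow hξ 2)
    have e2 := ln_mul (ln_mul h.hqx hξ) (le_refl ‖δ‖)
    have e3 := ln_mul (ln_mul h2p hU) (ln_pow (le_refl ‖δ‖) 2)
    have hs : 0 ≤ ‖δ‖ ^ 2 := by positivity
    nlinarith [e1, e2, e3, hs]
  · have e : E1 - Y1 - (2 * P1 * ξ + q1 * δ) -
        (P2 * ξ ^ 2 + qx * ξ * δ + 2 * p * ((UU x 2 : ℝ) : ℂ) * δ ^ 2) = E1 - Y1 - (2 * P1 * ξ + q1 * δ) -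
        (P2 * ξ ^ 2 + qx * ξ * δ + 2 * p * ((UU x 2 : ℝ) : ℂ) * δ ^ 2) := rfl
    exact hd.hE1

end Pool.Agent.MaxTerm8
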