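import Pool.Agent.MaxTerm8.QuadBall
import Pool.Agent.MaxTerm8.LocN
import Pool.Agent.MaxTerm8.AvEx

/-! The local quantities at the critical point satisfy the numerical bounds. -/

namespace Pool.Agent.MaxTerm8

open Complex ComplexConjugate

private theorem lf_cv {B : Bl} {z w : ℂ} (h : B.Mem z) (e : w = z) : B.Mem w := by
  rw [e]; exact h

private theorem lf_norm {B : Bl} {z : ℂ} (h : B.Mem z) (c : ℚ)
    (h1 : B.re ^ 2 + B.im ^ 2 ≤ (c - B.rad) ^ 2) (h2 : B.rad ≤ c) : ‖z‖ ≤ (c : ℝ) := by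
  have h3 := Bl.norm_le h (c - B.rad) (by linarith) h1
  rwa [sub_add_cancel] at h3

private theorem lf_real (B : Bl) (hB : B.im = 0) (x : ℝ) (h : |x - (B.re : ℝ)| ≤ (B.rad : ℝ)) :
    B.Mem (x : ℂ) := by
  unfold Bl.Mem
  have e : (x : ℂ) - B.ctr = ((x - (B.re : ℝ) : ℝ) : ℂ) := by
    unfold Bl.ctr
    apply Complex.ext
    · simp
    · simp [hB]
  rw [e, Complex.norm_real]
  exact h

private theorem lf_q1 : (Bl.q 1).Mem (((1 : ℝ)) : ℂ) := by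
  have h := Bl.mem_q 1
  have e : (((1 : ℚ) : ℝ) : ℂ) = (((1 : ℝ)) : ℂ) := by norm_num
  rwa [e] at h

private theorem lf_sm2 {B : Bl} {z : ℂ} (h : B.Mem z) : (Bl.sm 2 B).Mem (2 * z) :=
  lf_cv (Bl.mem_sm 2 h) (by push_cast; ring)

private theorem lf_sm4 {B : Bl} {z : ℂ} (h : B.Mem z) : (Bl.sm 4 B).Mem (4 * z) :=
  lf_cv (Bl.mem_sm 4 h) (by push_cast; ring)

private theorem lf_smh {B : Bl} {z : ℂ} (h : B.Mem z) : (Bl.sm (1 / 2) B).Mem (1 / 2 * z) :=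
  lf_cv (Bl.mem_sm (1 / 2) h) (by push_cast; ring)

private theorem lf_nsq {B : Bl} {z : ℂ} (h : B.Mem z) :
    (B * B.cj).rl.Mem ((‖z‖ ^ 2 : ℝ) : ℂ) := by
  refine lf_cv (Bl.mem_rl (Bl.mem_mul h (Bl.mem_cj h))) ?_
  rw [Complex.mul_conj, Complex.ofReal_re, Complex.normSq_eq_norm_sq]

private theorem lf_oo : pB.ctr = oo := by
  unfold Bl.ctr pB oo
  apply Complex.ext
  · simp only
    push_cast
    norm_num
  · simp only
    push_cast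
    norm_num

private theorem lf_norm_oo : ‖oo‖ ≤ 28026 / 100000 := by
  rw [← Real.sqrt_sq (by norm_num : (0 : ℝ) ≤ 28026 / 100000), Complex.norm_eq_sqrt_sq_add_sq]
  apply Real.sqrt_le_sqrt
  simp only [oo]
  norm_num

private theorem lf_th : thB.Mem thc := by
  have e : thc = thB.ctr := by
    unfold Bl.ctr thB thc
    apply Complex.ext
    · simp only
      push_cast
      norm_num
    · simp only
      push_cast
      norm_num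
  unfold Bl.Mem
  rw [e, sub_self, norm_zero]
  unfold thB
  push_cast
  exact le_rfl

private theorem lf_et : etB.Mem etc := by
  have e : etc = etB.ctr := by
    unfold Bl.ctr etB etc
    apply Complex.ext
    · simp only
      push_cast
      norm_num
    · simp only
      push_cast
      norm_num
  unfold Bl.Mem
  rw [e, sub_self, norm_zero]
  unfold etB
  push_cast
  exact le_rfl

private theorem lf_thn : ‖thc‖ ^ 2 = 2 ^ 2 + (11 / 4) ^ 2 := by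
  rw [Complex.sq_norm, Complex.normSq_apply]
  unfold thc
  norm_num

private theorem lf_th_re (δ : ℂ) : |(thc * δ).re| ≤ 3401 / 1000 * ‖δ‖ := by
  refine (Complex.abs_re_le_norm _).trans ?_
  rw [norm_mul]
  refine mul_le_mul_of_nonneg_right ?_ (norm_nonneg _)
  refine abs_le_of_sq_le_sq' ?_ (by norm_num) |>.2
  rw [lf_thn]
  norm_num

private theorem lf_et_re (δ : ℂ) : |(etc * δ).re| ≤ 225 / 100 * ‖δ‖ := by
  refine (Complex.abs_re_le_norm _).trans ?_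
  rw [norm_mul]
  refine mul_le_mul_of_nonneg_right ?_ (norm_nonneg _)
  refine abs_le_of_sq_le_sq' ?_ (by norm_num) |>.2
  rw [Complex.sq_norm, Complex.normSq_apply]
  unfold etc
  norm_num

/-- all the memberships -/
private structure LM (w β : ℝ) (p μ2 Y0 q0 Y1 q1 qx P1 P2 f0 f1 fx : ℂ) : Prop where
  mp : pB.Mem p
  mw : wB.Mem (w : ℂ)
  mb : beB.Mem (β : ℂ)
  m2 : (muB 2).Mem μ2
  mY0 : Y0B.Mem Y0
  mq0 : q0B.Mem q0
  mY1 : Y1B.Mem Y1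
  mq1 : q1B.Mem q1
  mqx : qxB.Mem qx
  mP1 : P1B.Mem P1
  mP2 : P2B.Mem P2
  mf0 : f0B.Mem f0
  mf1 : f1B.Mem f1
  mfx : fxB.Mem fx

private theorem lf_w1 {w : ℝ} (h : wB.Mem (w : ℂ)) : w1B.Mem ((1 - w : ℝ) : ℂ) := by
  refine lf_cv (Bl.mem_sub lf_q1 h) ?_
  push_cast
  ring

section
variable {w β : ℝ} {p μ2 Y0 q0 Y1 q1 qx P1 P2 f0 f1 fx : ℂ}

private theorem lf_qA (m : LM w β p μ2 Y0 q0 Y1 q1 qx P1 P2 f0 f1 fx) :
    qAB.Mem (qA w β Y1 q1 qx P1) := by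
  have h1 := lf_sm4 (Bl.mem_mul (Bl.mem_mul m.mb (Bl.mem_cj m.mP1)) m.mq1)
  have h2 := Bl.mem_mul (Bl.mem_cj m.mY1) m.mq1
  have h3 := lf_sm2 (Bl.mem_mul (Bl.mem_mul m.mb (Bl.mem_cj m.mY1)) m.mqx)
  have h4 := Bl.mem_mul (lf_w1 m.mw) (Bl.mem_add (Bl.mem_add h1 h2) h3)
  refine lf_cv h4 ?_
  unfold qA
  push_cast
  ring

private theorem lf_qB (m : LM w β p μ2 Y0 q0 Y1 q1 qx P1 P2 f0 f1 fx) :
    qBB.Mem (qB β Y0 q0 Y1 q1) := by
  have h1 := lf_sm2 (Bl.mem_mul (Bl.mem_cj m.mY0) m.mq0)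
  have h3 := lf_sm2 (Bl.mem_mul (Bl.mem_mul m.mb (Bl.mem_cj m.mY1)) m.mq1)
  refine lf_cv (Bl.mem_sub h1 h3) ?_
  unfold qB
  ring

private theorem lf_qF (m : LM w β p μ2 Y0 q0 Y1 q1 qx P1 P2 f0 f1 fx) :
    qFB.Mem ((qF β Y1 P1 P2 : ℝ) : ℂ) := by
  have h1 := lf_sm4 (lf_nsq m.mP1)
  have h2 := lf_sm2 (Bl.mem_rl (Bl.mem_mul (Bl.mem_cj m.mY1) m.mP2))
  have h3 := lf_sm2 (Bl.mem_rl (Bl.mem_mul (Bl.mem_cj m.mY1) m.mP1))
  refine lf_cv (Bl.mem_add (Bl.mem_mul m.mb (Bl.mem_add h1 h2)) h3) ?_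
  unfold qF
  push_cast
  ring

private theorem lf_qa1 (m : LM w β p μ2 Y0 q0 Y1 q1 qx P1 P2 f0 f1 fx) :
    qa1B.Mem (qa1 w β Y1 P1 f1 fx) := by
  have h1 := lf_smh (Bl.mem_mul (Bl.mem_cj m.mY1) m.mf1)
  have h2 := lf_sm2 (Bl.mem_mul (Bl.mem_mul m.mb (Bl.mem_cj m.mP1)) m.mf1)
  have h3 := Bl.mem_mul (Bl.mem_mul m.mb (Bl.mem_cj m.mY1)) m.mfx
  refine lf_cv (Bl.mem_mul (lf_w1 m.mw) (Bl.mem_add (Bl.mem_add h1 h2) h3)) ?_
  unfold qa1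
  push_cast
  ring

private theorem lf_qa2 (m : LM w β p μ2 Y0 q0 Y1 q1 qx P1 P2 f0 f1 fx) :
    qa2B.Mem (qa2 β Y0 Y1 f0 f1) :=
  Bl.mem_sub (Bl.mem_mul (Bl.mem_cj m.mY0) m.mf0)
    (Bl.mem_mul (Bl.mem_mul m.mb (Bl.mem_cj m.mY1)) m.mf1)

private theorem lf_qa4 (m : LM w β p μ2 Y0 q0 Y1 q1 qx P1 P2 f0 f1 fx) :
    qa4B.Mem (qa4 w β q0 q1 f0 f1) := by
  have h1 := Bl.mem_q (9 / 20)
  have h2 := Bl.mem_mul (Bl.mem_mul m.mw (Bl.mem_cj m.mq0)) m.mf0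
  have h3 := Bl.mem_mul (Bl.mem_mul (Bl.mem_mul (lf_w1 m.mw) m.mb) (Bl.mem_cj m.mq1)) m.mf1
  refine lf_cv (Bl.mem_add (Bl.mem_add h1 h2) h3) ?_
  unfold qa4
  push_cast
  ring

private theorem lf_qal (m : LM w β p μ2 Y0 q0 Y1 q1 qx P1 P2 f0 f1 fx) :
    qalB.Mem (qal w β p μ2 Y0 Y1 P1 f0 f1 fx thc etc) := by
  have h1 := lf_sm4 (Bl.mem_mul m.mp m.m2)
  have h2 := lf_smh (Bl.mem_add (Bl.mem_mul lf_th (lf_qa1 m)) (Bl.mem_mul lf_et (lf_qa2 m)))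
  refine lf_cv (Bl.mem_add h1 h2) ?_
  unfold qal
  ring

private theorem lf_qga (m : LM w β p μ2 Y0 q0 Y1 q1 qx P1 P2 f0 f1 fx) :
    qgaB.Mem (qga w β Y0 q0 Y1 q1 P1 f0 f1 fx thc etc) := by
  have h2 := lf_smh (Bl.mem_add (Bl.mem_mul (Bl.mem_cj lf_th) (lf_qa1 m))
    (Bl.mem_mul (Bl.mem_cj lf_et) (lf_qa2 m)))
  exact Bl.mem_add (lf_qa4 m) h2

private theorem lf_qK (m : LM w β p μ2 Y0 q0 Y1 q1 qx P1 P2 f0 f1 fx) :
    qKB.Mem (qK w β p μ2 Y0 q0 Y1 q1 qx P1 P2 f0 f1 fx thc etc ((SpQ : ℚ) : ℝ)) := by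
  have h1 := lf_sm4 (Bl.mem_mul m.mp m.m2)
  have h2 := lf_smh (Bl.mem_mul (lf_qA m) lf_th)
  have h3 := lf_smh (Bl.mem_mul (lf_qB m) lf_et)
  have h4 := Bl.mem_mul (lf_smh (Bl.mem_mul (lf_qF m) (lf_w1 m.mw))) (Bl.mem_mul lf_th lf_th)
  have h5 := Bl.mem_sm (1 / SpQ) (Bl.mem_mul (lf_qal m) (Bl.mem_cj (lf_qga m)))
  refine lf_cv (Bl.mem_sub (Bl.mem_add (Bl.mem_add (Bl.mem_add h1 h2) h3) h4) h5) ?_
  unfold qK
  push_cast
  ring

private theorem lf_qk (m : LM w β p μ2 Y0 q0 Y1 q1 qx P1 P2 f0 f1 fx) :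
    qkB.Mem ((qk w β p μ2 Y0 q0 Y1 q1 qx P1 P2 f0 f1 fx thc etc ((rho0Q : ℚ) : ℝ)
      ((SpQ : ℚ) : ℝ) : ℝ) : ℂ) := by
  have h1 := Bl.mem_mul m.mw (lf_nsq m.mq0)
  have h2 := Bl.mem_mul (lf_w1 m.mw) (Bl.mem_mul m.mb (lf_nsq m.mq1))
  have h3 := Bl.mem_q (11 / 5 + 2 * rho0Q)
  have h4 := lf_smh (Bl.mem_rl (Bl.mem_mul (lf_qA m) (Bl.mem_cj lf_th)))
  have h5 := lf_smh (Bl.mem_rl (Bl.mem_mul (lf_qB m) (Bl.mem_cj lf_et)))
  have h6 := Bl.mem_mul (lf_smh (Bl.mem_mul (lf_qF m) (lf_w1 m.mw)))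
    (Bl.mem_q (2 ^ 2 + (11 / 4) ^ 2))
  have h7 := Bl.mem_sm (1 / (2 * SpQ)) (Bl.mem_add (lf_nsq (lf_qal m)) (lf_nsq (lf_qga m)))
  refine lf_cv (Bl.mem_sub (Bl.mem_add (Bl.mem_add (Bl.mem_add (Bl.mem_sub (Bl.mem_add h1 h2) h3)
    h4) h5) h6) h7) ?_
  unfold qk
  rw [lf_thn]
  push_cast
  ring

end

private theorem lf_LM (J : ℕ) (hJ : 5 ≤ J) (p : ℂ) (κ w x : ℝ) (h : CritPt J p κ)
    (hk : KKT J p κ w x) :
    ‖p‖ ≤ 2803 / 10000 ∧ LM w ((1 + x) / 2) p (muc J p w x 2) (2 * PP J p 1) (QT J p 1)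
      (2 * PP J p x) (QT J p x) (QTX J p x) (PX J p x) (PXX J p x) (RT J p 1) (RT J p x)
      (RTX J p x) := by
  have h1 := crit_loc J hJ p κ h
  have hn : ‖p‖ ≤ 2803 / 10000 := by
    have h2 : ‖p‖ ≤ ‖p - oo‖ + ‖oo‖ := by
      have := norm_add_le (p - oo) oo
      rwa [sub_add_cancel] at this
    have h3 := lf_norm_oo
    linarith
  have hn' : ‖p‖ ≤ 2804 / 10000 := by linarith
  have mp : pB.Mem p := by
    unfold Bl.Mem
    rw [lf_oo]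
    have e : ((pB.rad : ℚ) : ℝ) = 2 / 100000 := by
      unfold pB
      push_cast
      norm_num
    rw [e]
    exact h1.le
  have hx := hk.hx
  have mx : xB.Mem (x : ℂ) := by
    refine lf_real xB rfl x ?_
    have e1 : ((xB.re : ℚ) : ℝ) = 27608 / 100000 := by
      unfold xB
      push_cast
      norm_num
    have e2 : ((xB.rad : ℚ) : ℝ) = 4 / 10000 := by
      unfold xB
      push_cast
      norm_num
    rw [e1, e2]
    exact hx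
  have hx1 : |x| ≤ 1 := by
    obtain ⟨x1, x2⟩ := abs_le.1 hx
    rw [abs_le]
    constructor <;> linarith
  have h11 : |(1 : ℝ)| ≤ 1 := by norm_num
  refine ⟨hn, mp, mem_wB J hJ p κ w x h hk, ?_, mem_muB J hJ p κ w x h hk 2,
    lf_sm2 (mem_PPB J hJ mp hn' lf_q1 h11), mem_QTB J hJ mp hn' lf_q1 h11,
    lf_sm2 (mem_PPB J hJ mp hn' mx hx1), mem_QTB J hJ mp hn' mx hx1, mem_QTXB J hJ mp hn' mx hx1,
    mem_PXB J hJ mp hn' mx hx1, mem_PXXB J hJ mp hn' mx hx1, mem_RTB J hJ mp hn' lf_q1 h11,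
    mem_RTB J hJ mp hn' mx hx1, mem_RTXB J hJ mp hn' mx hx1⟩
  refine lf_cv (lf_smh (Bl.mem_add lf_q1 mx)) ?_
  push_cast
  ring

/-- `mem_wB`, `KKT.hx`, `crit_loc` (`‖oo‖ ≤ .28026`), ball memberships (`mem_PPB`, ..., `mem_RTXB`) with
`chk_norms` and `Bl.norm_le`. -/
theorem locN (J : ℕ) (hJ : 5 ≤ J) (p : ℂ) (κ w x : ℝ) (h : CritPt J p κ) (hk : KKT J p κ w x) :
    LocN w x p (2 * PP J p 1) (QT J p 1) (2 * PP J p x) (QT J p x) (QTX J p x) (PX J p x)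
      (PXX J p x) (RT J p 1) (RT J p x) (RTX J p x) := by
  obtain ⟨hn, m⟩ := lf_LM J hJ p κ w x h hk
  obtain ⟨a1, a2, b1, b2, c1, c2, d1, d2, e1, e2, f1, f2, g1, g2, i1, i2, j1, j2, k1, k2⟩ :=
    chk_norms
  refine ⟨?_, hk.hx, hn, ?_, ?_, ?_, ?_, ?_, ?_, ?_, ?_, ?_, ?_⟩
  · have hw := m.mw
    unfold Bl.Mem at hw
    have e : (w : ℂ) - wB.ctr = ((w - 28989 / 100000 : ℝ) : ℂ) := by
      unfold Bl.ctr wB
      apply Complex.ext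
      · simp
      · simp
    have e2 : ((wB.rad : ℚ) : ℝ) = 7 / 10000 := by
      unfold wB
      push_cast
      norm_num
    rw [e, e2, Complex.norm_real] at hw
    exact hw
  · have := lf_norm m.mY0 (17093 / 10000) a1 (a2.trans (by norm_num))
    refine this.trans (le_of_eq (by push_cast; norm_num))
  · have := lf_norm m.mY1 (21404 / 10000) b1 (b2.trans (by norm_num))
    refine this.trans (le_of_eq (by push_cast; norm_num))
  · have := lf_norm m.mq0 (20103 / 10000) c1 (c2.trans (by norm_num))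
    refine this.trans (le_of_eq (by push_cast; norm_num))
  · have := lf_norm m.mq1 (9568 / 10000) d1 (d2.trans (by norm_num))
    refine this.trans (le_of_eq (by push_cast; norm_num))
  · have := lf_norm m.mqx (39708 / 10000) e1 (e2.trans (by norm_num))
    refine this.trans (le_of_eq (by push_cast; norm_num))
  · have := lf_norm m.mP1 (5592 / 10000) f1 (f2.trans (by norm_num))
    refine this.trans (le_of_eq (by push_cast; norm_num))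
  · have := lf_norm m.mP2 (1783 / 10000) g1 (g2.trans (by norm_num))
    refine this.trans (le_of_eq (by push_cast; norm_num))
  · have := lf_norm m.mf0 (1625 / 10000) i1 (i2.trans (by norm_num))
    refine this.trans (le_of_eq (by push_cast; norm_num))
  · have := lf_norm m.mf1 (1975 / 10000) j1 (j2.trans (by norm_num))
    refine this.trans (le_of_eq (by push_cast; norm_num))
  · have := lf_norm m.mfx (218 / 10000) k1 (k2.trans (by norm_num))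
    refine this.trans (le_of_eq (by push_cast; norm_num))

/-- `pp_tay`, `qt_tay`, `U_2(x+ξ) - U_2(x) = (8x-2) ξ + 4 ξ^2`: the remainder of `E1` is at most
`(.125 * 3.401^3 + 2.44 * 3.401^2 + .5606 (.213 * 3.401 + 4 * 3.401^2 * .00503)) ρ^3 ≤ 33.7 ρ^3`.
`‖thc‖ ≤ 3.401`, `‖etc‖ = 2.25`; `UU 1 2 = 1`. -/
theorem disp (J : ℕ) (hJ : 5 ≤ J) (p : ℂ) (κ w x : ℝ) (h : CritPt J p κ) (hk : KKT J p κ w x)
    (δ : ℂ) (hδ : ‖δ‖ ≤ 503 / 100000) :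
    Disp x p (2 * PP J p 1) (QT J p 1) (2 * PP J p x) (QT J p x) (QTX J p x) (PX J p x)
      (PXX J p x) δ (Et J p δ 1) (Et J p δ (x + (thc * δ).re)) (etc * δ).re (thc * δ).re := by
  obtain ⟨hn, m⟩ := lf_LM J hJ p κ w x h hk
  have hn' : ‖p‖ ≤ 2804 / 10000 := by linarith
  obtain ⟨ξ, hξe⟩ : ∃ ξ, ξ = (thc * δ).re := ⟨_, rfl⟩
  have hξ : |ξ| ≤ 3401 / 1000 * ‖δ‖ := hξe ▸ lf_th_re δ
  rw [← hξe]
  refine ⟨hδ, lf_et_re δ, hξ, ?_, ?_⟩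
  · unfold Et
    rw [uu_one]
    push_cast
    ring
  · obtain ⟨x1, x2⟩ := abs_le.1 hk.hx
    have hξ2 : |ξ| ≤ 172 / 10000 := by linarith
    obtain ⟨k1, k2⟩ := abs_le.1 hξ2
    have hx1 : |x| ≤ 1 := by rw [abs_le]; constructor <;> linarith
    have hy1 : |x + ξ| ≤ 1 := by rw [abs_le]; constructor <;> linarith
    have t1 := pp_tay J p hn' x (x + ξ) hx1 hy1
    have t2 := qt_tay J p hn' x (x + ξ) hx1 hy1
    have exy : x + ξ - x = ξ := by ring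
    rw [exy] at t1 t2
    have e : ∀ y : ℝ, UU y 2 = 4 * y ^ 2 - 2 * y - 1 := by
      intro y; simp only [UU]; ring
    have t3 : |UU (x + ξ) 2 - UU x 2| ≤ 2807 / 10000 * |ξ| := by
      rw [e, e, show 4 * (x + ξ) ^ 2 - 2 * (x + ξ) - 1 - (4 * x ^ 2 - 2 * x - 1) =
        (8 * x - 2 + 4 * ξ) * ξ by ring, abs_mul]
      refine mul_le_mul_of_nonneg_right ?_ (abs_nonneg _)
      rw [abs_le]; constructor <;> linarith
    have e2 : Et J p δ (x + ξ) - 2 * PP J p x - (2 * PX J p x * ξ + QT J p x * δ) -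
        (PXX J p x * ξ ^ 2 + QTX J p x * ξ * δ + 2 * p * ((UU x 2 : ℝ) : ℂ) * δ ^ 2) =
        2 * (PP J p (x + ξ) - PP J p x - PX J p x * ((ξ : ℝ) : ℂ) -
          PXX J p x / 2 * ((ξ : ℝ) : ℂ) ^ 2) +
        (QT J p (x + ξ) - QT J p x - QTX J p x * ((ξ : ℝ) : ℂ)) * δ +
        2 * p * δ ^ 2 * ((UU (x + ξ) 2 - UU x 2 : ℝ) : ℂ) := by
      unfold Et
      push_cast
      ring
    rw [e2]
    have hd0 := norm_nonneg δ
    have hx0 := abs_nonneg ξ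
    obtain ⟨ρ, hρ⟩ : ∃ ρ, ρ = ‖δ‖ := ⟨_, rfl⟩
    rw [← hρ] at hξ hd0 ⊢
    have s2 : |ξ| ^ 2 ≤ (3401 / 1000 * ρ) ^ 2 := pow_le_pow_left₀ hx0 hξ 2
    have s3 : |ξ| ^ 3 ≤ (3401 / 1000 * ρ) ^ 3 := pow_le_pow_left₀ hx0 hξ 3
    have b1 : ‖2 * (PP J p (x + ξ) - PP J p x - PX J p x * ((ξ : ℝ) : ℂ) -
          PXX J p x / 2 * ((ξ : ℝ) : ℂ) ^ 2)‖ ≤ 2 * (625 / 10000 * (3401 / 1000 * ρ) ^ 3) := by
      rw [norm_mul, Complex.norm_ofNat]
      refine mul_le_mul_of_nonneg_left (t1.trans ?_) (by norm_num)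
      exact mul_le_mul_of_nonneg_left s3 (by norm_num)
    have b2 : ‖(QT J p (x + ξ) - QT J p x - QTX J p x * ((ξ : ℝ) : ℂ)) * δ‖ ≤
        244 / 100 * (3401 / 1000 * ρ) ^ 2 * ρ := by
      rw [norm_mul, ← hρ]
      refine mul_le_mul_of_nonneg_right (t2.trans ?_) hd0
      exact mul_le_mul_of_nonneg_left s2 (by norm_num)
    have b3 : ‖2 * p * δ ^ 2 * ((UU (x + ξ) 2 - UU x 2 : ℝ) : ℂ)‖ ≤
        2 * (2803 / 10000) * ρ ^ 2 * (2807 / 10000 * (3401 / 1000 * ρ)) := by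
      rw [norm_mul, norm_mul, norm_mul, norm_pow, Complex.norm_ofNat, Complex.norm_real,
        Real.norm_eq_abs, ← hρ]
      refine mul_le_mul ?_ (t3.trans ?_) (abs_nonneg _) (by positivity)
      · refine mul_le_mul_of_nonneg_right ?_ (by positivity)
        exact mul_le_mul_of_nonneg_left hn (by norm_num)
      · exact mul_le_mul_of_nonneg_left hξ (by norm_num)
    refine (norm_add_le _ _).trans ((add_le_add (norm_add_le _ _) le_rfl).trans ?_)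
    have p3 : 0 ≤ ρ ^ 3 := by positivity
    calc _ ≤ 2 * (625 / 10000 * (3401 / 1000 * ρ) ^ 3) + 244 / 100 * (3401 / 1000 * ρ) ^ 2 * ρ +
          2 * (2803 / 10000) * ρ ^ 2 * (2807 / 10000 * (3401 / 1000 * ρ)) :=
          add_le_add (add_le_add b1 b2) b3
      _ = (2 * (625 / 10000) * (3401 / 1000) ^ 3 + 244 / 100 * (3401 / 1000) ^ 2 +
          2 * (2803 / 10000) * (2807 / 10000 * (3401 / 1000))) * ρ ^ 3 := by ring
      _ ≤ 338 / 10 * ρ ^ 3 := mul_le_mul_of_nonneg_right (by norm_num) p3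

/-- `qkB`, `qKB` contain the two coefficients (`Sp = SpQ`, `ρ0 = rho0Q`), `chk_quad`:
`k ‖δ‖^2 + Re (K δ^2) ≥ (k - ‖K‖) ‖δ‖^2`. -/
theorem quad_lower (J : ℕ) (hJ : 5 ≤ J) (p : ℂ) (κ w x : ℝ) (h : CritPt J p κ)
    (hk : KKT J p κ w x) (δ : ℂ) :
    56 / 10 * ‖δ‖ ^ 2 ≤
    qk w ((1 + x) / 2) p (muc J p w x 2) (2 * PP J p 1) (QT J p 1) (2 * PP J p x) (QT J p x)
      (QTX J p x) (PX J p x) (PXX J p x) (RT J p 1) (RT J p x) (RTX J p x) thc etc (rho0Q : ℝ)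
      (SpQ : ℝ) * ‖δ‖ ^ 2 +
    (qK w ((1 + x) / 2) p (muc J p w x 2) (2 * PP J p 1) (QT J p 1) (2 * PP J p x) (QT J p x)
      (QTX J p x) (PX J p x) (PXX J p x) (RT J p 1) (RT J p x) (RTX J p x) thc etc (SpQ : ℝ) *
      δ ^ 2).re := by
  obtain ⟨_, m⟩ := lf_LM J hJ p κ w x h hk
  have m1 := lf_qk m
  have m2 := lf_qK m
  obtain ⟨k, hk1⟩ : ∃ k, k = qk w ((1 + x) / 2) p (muc J p w x 2) (2 * PP J p 1) (QT J p 1)
      (2 * PP J p x) (QT J p x) (QTX J p x) (PX J p x) (PXX J p x) (RT J p 1) (RT J p x)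
      (RTX J p x) thc etc ((rho0Q : ℚ) : ℝ) ((SpQ : ℚ) : ℝ) := ⟨_, rfl⟩
  obtain ⟨K, hK1⟩ : ∃ K, K = qK w ((1 + x) / 2) p (muc J p w x 2) (2 * PP J p 1) (QT J p 1)
      (2 * PP J p x) (QT J p x) (QTX J p x) (PX J p x) (PXX J p x) (RT J p 1) (RT J p x)
      (RTX J p x) thc etc ((SpQ : ℚ) : ℝ) := ⟨_, rfl⟩
  rw [← hk1] at m1 ⊢
  rw [← hK1] at m2 ⊢
  have r1 := Bl.le_re m1
  rw [Complex.ofReal_re] at r1
  have r2 := lf_norm m2 (qkB.re - qkB.rad - 56 / 10) (by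
    have := chk_quad.2
    rwa [show qkB.re - qkB.rad - 56 / 10 - qKB.rad = qkB.re - qkB.rad - qKB.rad - 56 / 10 by ring])
    (by linarith [chk_quad.1])
  obtain ⟨A, hA⟩ : ∃ A : ℚ, A = qkB.re - qkB.rad := ⟨_, rfl⟩
  rw [← hA] at r1 r2
  push_cast at r2
  have h5 : 56 / 10 ≤ k - ‖K‖ := by linarith
  have h6 : -(‖K‖ * ‖δ‖ ^ 2) ≤ (K * δ ^ 2).re := by
    have := (abs_le.1 (Complex.abs_re_le_norm (K * δ ^ 2))).1
    rwa [norm_mul, norm_pow] at this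
  have h7 := mul_le_mul_of_nonneg_right h5 (sq_nonneg ‖δ‖)
  linarith

/-- `z1_eq`, `chk_alga`. -/
theorem z1_bound (J : ℕ) (hJ : 5 ≤ J) (p : ℂ) (κ w x : ℝ) (h : CritPt J p κ)
    (hk : KKT J p κ w x) (δ : ℂ) :
    ‖Z1 w ((1 + x) / 2) (etc * δ).re (thc * δ).re p (muc J p w x 2) (2 * PP J p 1) (QT J p 1)
      (2 * PP J p x) (QT J p x) (PX J p x) (RT J p 1) (RT J p x) (RTX J p x) δ‖ ≤
    1487 / 1000 * ‖δ‖ := by
  obtain ⟨_, m⟩ := lf_LM J hJ p κ w x h hk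
  rw [z1_eq]
  have m1 := Bl.norm_le (lf_qal m) (2204 / 10000) (by norm_num) chk_alga.1
  have m2 := Bl.norm_le (lf_qga m) (12556 / 10000) (by norm_num) chk_alga.2.1
  have m3 : ((2204 / 10000 + 12556 / 10000 + qalB.rad + qgaB.rad : ℚ) : ℝ) ≤
      ((1487 / 1000 : ℚ) : ℝ) := by exact_mod_cast chk_alga.2.2
  obtain ⟨a, ha⟩ : ∃ a, a = qalB.rad := ⟨_, rfl⟩
  obtain ⟨b, hb⟩ : ∃ b, b = qgaB.rad := ⟨_, rfl⟩
  rw [← ha] at m1 m3
  rw [← hb] at m2 m3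
  push_cast at m1 m2 m3
  refine (norm_add_le _ _).trans ?_
  rw [norm_mul, norm_mul, Complex.norm_conj, ← add_mul]
  exact mul_le_mul_of_nonneg_right (by linarith) (norm_nonneg _)

end Pool.Agent.MaxTerm8
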