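import Pool.Agent.MaxTerm8.Defs
import Pool.Agent.MaxTerm59.FinAux

/-! The lower bound: the entire functions `∑ q^(n(n-1)/2) z^n`. -/

namespace Pool.Agent.MaxTerm8

open Complex ComplexConjugate Filter Pool.Agent.MaxTerm59

/-- the exponents `n (n-1) / 2` -/
def te (n : ℕ) : ℕ := n * (n - 1) / 2

/-- the entire function with coefficients `q^(n(n-1)/2)` -/
noncomputable def fq (q z : ℂ) : ℂ := ∑' n : ℕ, q ^ te n * z ^ n

/-- `te (n+1) = te n + n`, `te (N+1+j) = te (N+1) + N j + tri j`, `te (N-j) + N j = te N + tri j`. -/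
theorem te_succ (n : ℕ) : te (n + 1) = te n + n := Nat.triangle_succ n

private theorem Lower_tri_succ (j : ℕ) : tri (j + 1) = tri j + (j + 1) := by
  have h1 : ∀ m, tri m = te (m + 1) := by
    intro m
    rw [tri, te, Nat.add_sub_cancel, mul_comm]
  rw [h1, h1, te_succ]

theorem te_add (N j : ℕ) : te (N + 1 + j) = te (N + 1) + N * j + tri j := by
  induction j with
  | zero => simp [tri]
  | succ j ih =>
    rw [← add_assoc, te_succ, ih, Lower_tri_succ]
    ring

theorem te_sub (N j : ℕ) (h : j ≤ N) : te (N - j) + N * j = te N + tri j := by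
  obtain ⟨m, rfl⟩ := Nat.exists_eq_add_of_le h
  rw [Nat.add_sub_cancel_left]
  clear h
  induction j with
  | zero => simp [tri]
  | succ j ih =>
    rw [show j + 1 + m = (j + m) + 1 by ring, te_succ, Lower_tri_succ]
    have h2 : (j + m + 1) * (j + 1) = (j + m) * j + (j + m) + (j + 1) := by ring
    rw [h2]
    omega

/-- Ratio test: the quotient of consecutive terms is `‖q‖^n r → 0`. -/
theorem fq_summable (q : ℂ) (hq : ‖q‖ < 1) (r : ℝ) (hr : 0 ≤ r) :
    Summable fun n : ℕ => ‖q‖ ^ te n * r ^ n := by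
  have hlim : Tendsto (fun n : ℕ => ‖q‖ ^ n * r) atTop (nhds (0 * r)) :=
    (tendsto_pow_atTop_nhds_zero_of_lt_one (norm_nonneg q) hq).mul_const r
  rw [zero_mul] at hlim
  have hev : ∀ᶠ n : ℕ in atTop, ‖q‖ ^ n * r < 1 / 2 := hlim.eventually_lt_const (by norm_num)
  refine summable_of_ratio_norm_eventually_le (r := 1 / 2) (by norm_num) ?_
  filter_upwards [hev] with n hn
  have h0 : 0 ≤ ‖q‖ ^ te n * r ^ n := by positivity
  rw [Real.norm_of_nonneg (by positivity), Real.norm_of_nonneg h0, te_succ]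
  calc ‖q‖ ^ (te n + n) * r ^ (n + 1) = (‖q‖ ^ n * r) * (‖q‖ ^ te n * r ^ n) := by ring
    _ ≤ 1 / 2 * (‖q‖ ^ te n * r ^ n) := mul_le_mul_of_nonneg_right hn.le h0

private theorem Lower_series (c : ℕ → ℂ) (hc : ∀ r : NNReal, Summable fun n => ‖c n‖ * (r : ℝ) ^ n) :
    Differentiable ℂ (fun z => ∑' n, c n * z ^ n) ∧
      ∀ n, coeff (fun z => ∑' n, c n * z ^ n) n = c n := by
  have hrad : (FormalMultilinearSeries.ofScalars ℂ c).radius = ⊤ := by
    apply FormalMultilinearSeries.radius_eq_top_of_summable_norm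
    intro r
    refine (hc r).congr fun n => ?_
    rw [FormalMultilinearSeries.ofScalars_norm]
  have hball := (FormalMultilinearSeries.ofScalars ℂ c).hasFPowerSeriesOnBall
    (by rw [hrad]; exact ENNReal.zero_lt_top)
  have hfun : (FormalMultilinearSeries.ofScalars ℂ c).sum = fun z => ∑' n, c n * z ^ n := by
    funext z
    exact FormalMultilinearSeries.ofScalars_sum_eq c z
  rw [hfun, hrad] at hball
  refine ⟨?_, ?_⟩
  · have h1 := hball.differentiableOn
    rw [Metric.eball_top] at h1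
    exact differentiableOn_univ.1 h1
  · intro n
    have h2 := hball.factorial_smul 1 n
    rw [coeff, iteratedDeriv_eq_iteratedFDeriv, ← h2, FormalMultilinearSeries.ofScalars_apply_eq]
    have h3 : ((n.factorial : ℕ) : ℂ) ≠ 0 := by exact_mod_cast n.factorial_ne_zero
    simp only [one_pow, smul_eq_mul, mul_one, nsmul_eq_mul]
    field_simp

/-- A power series with infinite radius of convergence is differentiable and its Taylor coefficients are
the given ones. -/
theorem fq_coeff (q : ℂ) (hq : ‖q‖ < 1) :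
    Differentiable ℂ (fq q) ∧ ∀ n, coeff (fq q) n = q ^ te n := by
  apply Lower_series (fun n => q ^ te n)
  intro r
  simp only [norm_pow]
  exact fq_summable q hq r r.2

/-- A polynomial has only finitely many nonzero coefficients. -/
theorem fq_trans (q : ℂ) (hq : ‖q‖ < 1) (h0 : q ≠ 0) : TransEntire (fq q) := by
  obtain ⟨h1, h2⟩ := fq_coeff q hq
  refine ⟨h1, ?_⟩
  intro p hp
  have h3 : (fun z => p.eval z) = fun z => ∑' n, p.coeff n * z ^ n := by
    funext z
    rw [Polynomial.eval_eq_sum_range, tsum_eq_sum]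
    intro n hn
    rw [Finset.mem_range, not_lt] at hn
    rw [Polynomial.coeff_eq_zero_of_natDegree_lt (by omega), zero_mul]
  have h4 := (Lower_series (fun n => p.coeff n) (by
    intro r
    apply summable_of_ne_finset_zero (s := Finset.range (p.natDegree + 1))
    intro n hn
    rw [Finset.mem_range, not_lt] at hn
    rw [Polynomial.coeff_eq_zero_of_natDegree_lt (by omega), norm_zero, zero_mul])).2 (p.natDegree + 1)
  rw [← h3, ← hp, h2, Polynomial.coeff_eq_zero_of_natDegree_lt (by omega)] at h4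
  exact pow_ne_zero _ h0 h4

/-- The term `N + 1` is maximal for `‖q‖^(-N) ≤ r ≤ ‖q‖^(-(N+1))`. -/
theorem fq_maxTerm (q : ℂ) (hq : ‖q‖ < 1) (h0 : q ≠ 0) (N : ℕ) (r : ℝ) (h1 : ‖q‖⁻¹ ^ N ≤ r)
    (h2 : r ≤ ‖q‖⁻¹ ^ (N + 1)) : maxTerm (fq q) r = ‖q‖ ^ te (N + 1) * r ^ (N + 1) := by
  have hc := (fq_coeff q hq).2
  have hq0 : 0 < ‖q‖ := norm_pos_iff.2 h0
  have hr : 0 < r := lt_of_lt_of_le (by positivity) h1
  have hfun : (fun n : ℕ => ‖coeff (fq q) n‖ * r ^ n) = fun n : ℕ => ‖q‖ ^ te n * r ^ n := by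
    funext n
    rw [hc, norm_pow]
  have hlow : 1 ≤ ‖q‖ ^ N * r := by
    have h3 : ‖q‖ ^ N * ‖q‖⁻¹ ^ N = 1 := by
      rw [← mul_pow, mul_inv_cancel₀ hq0.ne', one_pow]
    calc (1 : ℝ) = ‖q‖ ^ N * ‖q‖⁻¹ ^ N := h3.symm
      _ ≤ ‖q‖ ^ N * r := mul_le_mul_of_nonneg_left h1 (by positivity)
  have hupp : ‖q‖ ^ (N + 1) * r ≤ 1 := by
    have h3 : ‖q‖ ^ (N + 1) * ‖q‖⁻¹ ^ (N + 1) = 1 := by
      rw [← mul_pow, mul_inv_cancel₀ hq0.ne', one_pow]
    calc ‖q‖ ^ (N + 1) * r ≤ ‖q‖ ^ (N + 1) * ‖q‖⁻¹ ^ (N + 1) :=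
          mul_le_mul_of_nonneg_left h2 (by positivity)
      _ = 1 := h3
  have hstep : ∀ n : ℕ, ‖q‖ ^ te (n + 1) * r ^ (n + 1) = (‖q‖ ^ n * r) * (‖q‖ ^ te n * r ^ n) := by
    intro n
    rw [te_succ]
    ring
  have hup : ∀ m : ℕ, m ≤ N + 1 → ‖q‖ ^ te (N + 1 - m) * r ^ (N + 1 - m) ≤
      ‖q‖ ^ te (N + 1) * r ^ (N + 1) := by
    intro m
    induction m with
    | zero => intro _; simp
    | succ m ih =>
      intro hm
      refine le_trans ?_ (ih (by omega))
      obtain ⟨n, hn⟩ : ∃ n, N + 1 - m = n + 1 := ⟨N + 1 - m - 1, by omega⟩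
      have hn' : N + 1 - (m + 1) = n := by omega
      rw [hn, hn', hstep]
      have hle : ‖q‖ ^ N ≤ ‖q‖ ^ n := pow_le_pow_of_le_one hq0.le hq.le (by omega)
      have h4 : 1 ≤ ‖q‖ ^ n * r := le_trans hlow (mul_le_mul_of_nonneg_right hle hr.le)
      have h5 : 0 ≤ ‖q‖ ^ te n * r ^ n := by positivity
      exact le_mul_of_one_le_left h5 h4
  have hdown : ∀ m : ℕ, ‖q‖ ^ te (N + 1 + m) * r ^ (N + 1 + m) ≤
      ‖q‖ ^ te (N + 1) * r ^ (N + 1) := by
    intro m
    induction m with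
    | zero => simp
    | succ m ih =>
      refine le_trans ?_ ih
      rw [← add_assoc, hstep]
      have hle : ‖q‖ ^ (N + 1 + m) ≤ ‖q‖ ^ (N + 1) := pow_le_pow_of_le_one hq0.le hq.le (by omega)
      have h4 : ‖q‖ ^ (N + 1 + m) * r ≤ 1 := le_trans (mul_le_mul_of_nonneg_right hle hr.le) hupp
      have h5 : 0 ≤ ‖q‖ ^ te (N + 1 + m) * r ^ (N + 1 + m) := by positivity
      exact mul_le_of_le_one_left h5 h4
  have hall : ∀ n : ℕ, ‖q‖ ^ te n * r ^ n ≤ ‖q‖ ^ te (N + 1) * r ^ (N + 1) := by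
    intro n
    by_cases h : n ≤ N + 1
    · have h3 := hup (N + 1 - n) (by omega)
      rwa [show N + 1 - (N + 1 - n) = n by omega] at h3
    · have h3 := hdown (n - (N + 1))
      rwa [show N + 1 + (n - (N + 1)) = n by omega] at h3
  rw [maxTerm, hfun]
  apply le_antisymm
  · exact ciSup_le hall
  · refine le_ciSup (f := fun n : ℕ => ‖q‖ ^ te n * r ^ n)
      ⟨‖q‖ ^ te (N + 1) * r ^ (N + 1), ?_⟩ (N + 1)
    rintro _ ⟨n, rfl⟩
    exact hall n

end Pool.Agent.MaxTerm8
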