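import Pool.Agent.MaxTerm8.Lower

/-! The lower bound: the value at the corners. -/

namespace Pool.Agent.MaxTerm8

open Complex ComplexConjugate Filter Pool.Agent.MaxTerm59

private theorem tri_te (j : ℕ) : te (j + 1) = tri j := by
  have h := te_add 0 j
  have h1 : te (0 + 1) = 0 := by simp [te]
  rw [h1, zero_mul, zero_add] at h
  have h2 : 0 + 1 + j = j + 1 := by omega
  rw [← h2, h, zero_add, zero_add]

private theorem tri_summable (q : ℂ) (hq : ‖q‖ < 1) : Summable fun j : ℕ => ‖q‖ ^ tri j := by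
  have h := (summable_nat_add_iff 1).2 (fq_summable q hq 1 zero_le_one)
  simp only [one_pow, mul_one, tri_te] at h
  exact h

private theorem norm_exp_odd (t : ℝ) (j : ℕ) : ‖exp ((2 * (j : ℂ) + 1) * t * I)‖ = 1 := by
  have : (2 * (j : ℂ) + 1) * t * I = (((2 * (j : ℝ) + 1) * t : ℝ) : ℂ) * I := by push_cast; ring
  rw [this, norm_exp_ofReal_mul_I]

private theorem norm_exp_odd' (t : ℝ) (j : ℕ) : ‖exp (-((2 * (j : ℂ) + 1) * t * I))‖ = 1 := by
  have : -((2 * (j : ℂ) + 1) * t * I) = ((-((2 * (j : ℝ) + 1) * t) : ℝ) : ℂ) * I := by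
    push_cast; ring
  rw [this, norm_exp_ofReal_mul_I]

private theorem ThT_split (q : ℂ) (t : ℝ) (j : ℕ) :
    ThT q t j = q ^ tri j * exp ((2 * (j : ℂ) + 1) * t * I) +
      q ^ tri j * exp (-((2 * (j : ℂ) + 1) * t * I)) := by
  unfold ThT
  rw [Complex.ofReal_cos]
  have h := Complex.two_cos (((2 * (j : ℝ) + 1) * t : ℝ) : ℂ)
  have e1 : (((2 * (j : ℝ) + 1) * t : ℝ) : ℂ) * I = (2 * (j : ℂ) + 1) * t * I := by
    push_cast; ring
  have e2 : -(((2 * (j : ℝ) + 1) * t : ℝ) : ℂ) * I = -((2 * (j : ℂ) + 1) * t * I) := by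
    push_cast; ring
  rw [e1, e2] at h
  rw [← mul_add, ← h]
  ring

/-- Write `z = q^(-N) ζ`, `ζ = e^{2it}`: `fq q z = q^(-N(N+1)/2) ζ^N e^{it} (∑_{j ≥ 0} q^(tri j) e^{(2j+1)it} +
∑_{j ≤ N} q^(tri j) e^{-(2j+1)it})` (`te_add`, `te_sub`), and the bracket is
`Th q t - ∑_{j > N} q^(tri j) e^{-(2j+1)it}`. -/
theorem fq_corner (q : ℂ) (hq : ‖q‖ < 1) (h0 : q ≠ 0) (A : ℝ) (hA : ∀ t, ‖Th q t‖ ≤ A) (N : ℕ)
    (z : ℂ) (hz : ‖z‖ = ‖q‖⁻¹ ^ N) :
    ‖fq q z‖ ≤ (A + ∑' j : ℕ, ‖q‖ ^ tri (j + (N + 1))) * (‖q‖ ^ te (N + 1) * ‖z‖ ^ (N + 1)) := by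
  have hq0 : ‖q‖ ≠ 0 := norm_ne_zero_iff.2 h0
  have hz0 : z ≠ 0 := by
    rw [← norm_ne_zero_iff, hz]
    exact pow_ne_zero _ (inv_ne_zero hq0)
  -- the number on the unit circle
  have hζ : ‖q ^ N * z‖ = 1 := by
    rw [norm_mul, norm_pow, hz, ← mul_pow, mul_inv_cancel₀ hq0, one_pow]
  obtain ⟨t, ht⟩ : ∃ t : ℝ, q ^ N * z = exp (2 * t * I) := by
    refine ⟨arg (q ^ N * z) / 2, ?_⟩
    have h := norm_mul_exp_arg_mul_I (q ^ N * z)
    rw [hζ, ofReal_one, one_mul] at h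
    rw [← h]
    congr 1
    rw [h]
    push_cast
    ring
  obtain ⟨f, hf⟩ : ∃ f : ℕ → ℂ, f = fun n => q ^ te n * z ^ n := ⟨_, rfl⟩
  obtain ⟨a, ha⟩ : ∃ a : ℕ → ℂ, a = fun j => q ^ tri j * exp ((2 * (j : ℂ) + 1) * t * I) := ⟨_, rfl⟩
  obtain ⟨b, hb⟩ : ∃ b : ℕ → ℂ, b = fun j => q ^ tri j * exp (-((2 * (j : ℂ) + 1) * t * I)) :=
    ⟨_, rfl⟩
  have hfs : Summable f := by
    apply Summable.of_norm
    rw [hf]
    simp only [norm_mul, norm_pow]
    exact fq_summable q hq ‖z‖ (norm_nonneg _)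
  have hbn : ∀ j, ‖b j‖ = ‖q‖ ^ tri j := by
    intro j
    rw [hb]
    simp only [norm_mul, norm_pow]
    rw [norm_exp_odd', mul_one]
  have han : ∀ j, ‖a j‖ = ‖q‖ ^ tri j := by
    intro j
    rw [ha]
    simp only [norm_mul, norm_pow]
    rw [norm_exp_odd, mul_one]
  have has : Summable a := by
    apply Summable.of_norm
    simp only [han]
    exact tri_summable q hq
  have hbs : Summable b := by
    apply Summable.of_norm
    simp only [hbn]
    exact tri_summable q hq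
  have hup : ∀ j, f (j + (N + 1)) = q ^ te N * z ^ N * exp (t * I) * a j := by
    intro j
    have e1 : j + (N + 1) = N + 1 + j := by omega
    have e2 : z ^ (N + 1 + j) = z ^ N * z * z ^ j := by ring
    have e3 : exp (t * I) * exp ((2 * (j : ℂ) + 1) * t * I) =
        exp (2 * t * I) * exp (2 * t * I) ^ j := by
      rw [← Complex.exp_nat_mul, ← Complex.exp_add, ← Complex.exp_add]
      congr 1
      ring
    rw [hf, ha]
    simp only
    rw [e1, te_add, te_succ, e2]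
    calc q ^ (te N + N + N * j + tri j) * (z ^ N * z * z ^ j)
        = q ^ te N * z ^ N * q ^ tri j * ((q ^ N * z) * (q ^ N * z) ^ j) := by ring
      _ = q ^ te N * z ^ N * q ^ tri j * (exp (2 * t * I) * exp (2 * t * I) ^ j) := by rw [ht]
      _ = q ^ te N * z ^ N * q ^ tri j * (exp (t * I) * exp ((2 * (j : ℂ) + 1) * t * I)) := by
          rw [e3]
      _ = q ^ te N * z ^ N * exp (t * I) * (q ^ tri j * exp ((2 * (j : ℂ) + 1) * t * I)) := by
          ring
  have hlow : ∀ j, j ≤ N → f (N - j) = q ^ te N * z ^ N * exp (t * I) * b j := by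
    intro j hj
    have hne : (q ^ N * z) ^ j ≠ 0 := pow_ne_zero _ (mul_ne_zero (pow_ne_zero _ h0) hz0)
    apply mul_right_cancel₀ hne
    have e3 : exp (t * I) * exp (-((2 * (j : ℂ) + 1) * t * I)) * exp (2 * t * I) ^ j = 1 := by
      rw [← Complex.exp_nat_mul, ← Complex.exp_add, ← Complex.exp_add]
      have h00 : (t : ℂ) * I + -((2 * (j : ℂ) + 1) * t * I) + (j : ℂ) * (2 * t * I) = 0 := by ring
      rw [h00, Complex.exp_zero]
    rw [hf, hb]
    simp only
    have e4 : q ^ te (N - j) * z ^ (N - j) * (q ^ N * z) ^ j =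
        q ^ (te (N - j) + N * j) * z ^ N := by
      have : z ^ N = z ^ (N - j) * z ^ j := by rw [← pow_add, Nat.sub_add_cancel hj]
      rw [this]
      ring
    rw [e4, te_sub N j hj]
    calc q ^ (te N + tri j) * z ^ N = q ^ te N * z ^ N * q ^ tri j * 1 := by ring
      _ = q ^ te N * z ^ N * q ^ tri j *
          (exp (t * I) * exp (-((2 * (j : ℂ) + 1) * t * I)) * exp (2 * t * I) ^ j) := by rw [e3]
      _ = q ^ te N * z ^ N * exp (t * I) * (q ^ tri j * exp (-((2 * (j : ℂ) + 1) * t * I))) *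
          exp (2 * t * I) ^ j := by ring
      _ = _ := by rw [ht]
  have hTh : Th q t = ∑' j, a j + ∑' j, b j := by
    rw [← has.tsum_add hbs]
    unfold Th
    refine tsum_congr fun j => ?_
    rw [ThT_split, ha, hb]
  have hsplit : fq q z = q ^ te N * z ^ N * exp (t * I) *
      (Th q t - ∑' j, b (j + (N + 1))) := by
    have h1 : fq q z = ∑ i ∈ Finset.range (N + 1), f i + ∑' i, f (i + (N + 1)) := by
      rw [hfs.sum_add_tsum_nat_add (N + 1), hf]
      rfl
    have h2 : ∑ i ∈ Finset.range (N + 1), f i =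
        q ^ te N * z ^ N * exp (t * I) * ∑ j ∈ Finset.range (N + 1), b j := by
      rw [← Finset.sum_range_reflect, Finset.mul_sum]
      refine Finset.sum_congr rfl fun j hj => ?_
      rw [Finset.mem_range] at hj
      have : N + 1 - 1 - j = N - j := by omega
      rw [this, hlow j (by omega)]
    have h3 : ∑' i, f (i + (N + 1)) = q ^ te N * z ^ N * exp (t * I) * ∑' j, a j := by
      rw [← tsum_mul_left]
      exact tsum_congr hup
    have h4 := hbs.sum_add_tsum_nat_add (N + 1)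
    rw [h1, h2, h3, hTh, ← h4]
    ring
  have hQ : ‖q ^ te N * z ^ N * exp (t * I)‖ = ‖q‖ ^ te (N + 1) * ‖z‖ ^ (N + 1) := by
    rw [norm_mul, norm_mul, norm_exp_ofReal_mul_I, mul_one, norm_pow, norm_pow, te_succ]
    have : ‖q‖ ^ N * ‖z‖ = 1 := by rw [← norm_pow, ← norm_mul, hζ]
    calc ‖q‖ ^ te N * ‖z‖ ^ N = ‖q‖ ^ te N * ‖z‖ ^ N * (‖q‖ ^ N * ‖z‖) := by rw [this, mul_one]
      _ = _ := by ring
  rw [hsplit, norm_mul, hQ, mul_comm]
  apply mul_le_mul_of_nonneg_right _ (by positivity)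
  refine (norm_sub_le _ _).trans (add_le_add (hA t) ?_)
  have hs : Summable fun j => ‖b (j + (N + 1))‖ := by
    simp only [hbn]
    exact (summable_nat_add_iff (N + 1)).2 (tri_summable q hq)
  refine (norm_tsum_le_tsum_norm hs).trans (le_of_eq ?_)
  exact tsum_congr fun j => hbn _

end Pool.Agent.MaxTerm8
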