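import Pool.Agent.MaxTerm8.Jets

/-! The local expansion at the critical point, in abstract form (no theta functions).

`Y0, q0` belong to the node `1`, `Y1, q1, qx, P1, P2, U2, f1, fx` to the node `x`, `β = (1+x)/2`;
`ω`, `ξ` are the displacements of the weight and of the node. -/

namespace Pool.Agent.MaxTerm8

open Complex ComplexConjugate

/-- second order part of `nu` -/
noncomputable def TT (w β U2 ω ξ : ℝ) (p Y0 q0 Y1 q1 qx P1 P2 δ : ℂ) : ℝ :=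
  w * (‖q0 * δ‖ ^ 2 + 2 * (conj Y0 * (2 * p * δ ^ 2)).re) + ω * (2 * (conj Y0 * (q0 * δ)).re) +
  (1 - w) * (β * (‖2 * P1 * ξ + q1 * δ‖ ^ 2 +
      2 * (conj Y1 * (P2 * ξ ^ 2 + qx * ξ * δ + 2 * p * U2 * δ ^ 2)).re) +
    ξ / 2 * (2 * (conj Y1 * (2 * P1 * ξ + q1 * δ)).re)) -
  ω * (β * (2 * (conj Y1 * (2 * P1 * ξ + q1 * δ)).re) + ξ / 2 * ‖Y1‖ ^ 2)

/-- first order part of `zz` -/
noncomputable def Z1 (w β ω ξ : ℝ) (p μ2 Y0 q0 Y1 q1 P1 f0 f1 fx δ : ℂ) : ℂ :=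
  4 * p * μ2 * δ + (9 / 20 : ℝ) * conj δ + w * conj (q0 * δ) * f0 + ω * conj Y0 * f0 +
  (1 - w : ℝ) * β * conj Y1 * fx * ξ + (1 - w : ℝ) * β * conj (2 * P1 * ξ + q1 * δ) * f1 +
  (1 - w : ℝ) * (ξ / 2 : ℝ) * conj Y1 * f1 - ω * β * conj Y1 * f1

noncomputable def qA (w β : ℝ) (Y1 q1 qx P1 : ℂ) : ℂ :=
  (1 - w : ℝ) * (4 * β * conj P1 * q1 + conj Y1 * q1 + 2 * β * conj Y1 * qx)

noncomputable def qB (β : ℝ) (Y0 q0 Y1 q1 : ℂ) : ℂ := 2 * conj Y0 * q0 - 2 * β * conj Y1 * q1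

noncomputable def qF (β : ℝ) (Y1 P1 P2 : ℂ) : ℝ :=
  β * (4 * ‖P1‖ ^ 2 + 2 * (conj Y1 * P2).re) + 2 * (conj Y1 * P1).re

noncomputable def qa1 (w β : ℝ) (Y1 P1 f1 fx : ℂ) : ℂ :=
  (1 - w : ℝ) * (1 / 2 * conj Y1 * f1 + 2 * β * conj P1 * f1 + β * conj Y1 * fx)

noncomputable def qa2 (β : ℝ) (Y0 Y1 f0 f1 : ℂ) : ℂ := conj Y0 * f0 - β * conj Y1 * f1

noncomputable def qa4 (w β : ℝ) (q0 q1 f0 f1 : ℂ) : ℂ :=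
  (9 / 20 : ℝ) + w * conj q0 * f0 + (1 - w : ℝ) * β * conj q1 * f1

noncomputable def qal (w β : ℝ) (p μ2 Y0 Y1 P1 f0 f1 fx θ η : ℂ) : ℂ :=
  4 * p * μ2 + 1 / 2 * (θ * qa1 w β Y1 P1 f1 fx + η * qa2 β Y0 Y1 f0 f1)

noncomputable def qga (w β : ℝ) (Y0 q0 Y1 q1 P1 f0 f1 fx θ η : ℂ) : ℂ :=
  qa4 w β q0 q1 f0 f1 + 1 / 2 * (conj θ * qa1 w β Y1 P1 f1 fx + conj η * qa2 β Y0 Y1 f0 f1)

/-- coefficient of `|δ|^2` -/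
noncomputable def qk (w β : ℝ) (p μ2 Y0 q0 Y1 q1 qx P1 P2 f0 f1 fx θ η : ℂ) (ρ0 Sp : ℝ) : ℝ :=
  w * ‖q0‖ ^ 2 + (1 - w) * (β * ‖q1‖ ^ 2) - (11 / 5 + 2 * ρ0) +
  1 / 2 * (qA w β Y1 q1 qx P1 * conj θ).re + 1 / 2 * (qB β Y0 q0 Y1 q1 * conj η).re +
  1 / 2 * (qF β Y1 P1 P2 * (1 - w)) * ‖θ‖ ^ 2 -
  (‖qal w β p μ2 Y0 Y1 P1 f0 f1 fx θ η‖ ^ 2 + ‖qga w β Y0 q0 Y1 q1 P1 f0 f1 fx θ η‖ ^ 2) / (2 * Sp)

/-- coefficient of `δ^2` -/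
noncomputable def qK (w β : ℝ) (p μ2 Y0 q0 Y1 q1 qx P1 P2 f0 f1 fx θ η : ℂ) (Sp : ℝ) : ℂ :=
  4 * p * μ2 + 1 / 2 * (qA w β Y1 q1 qx P1 * θ) + 1 / 2 * (qB β Y0 q0 Y1 q1 * η) +
  1 / 2 * ((qF β Y1 P1 P2 * (1 - w) : ℝ) : ℂ) * θ ^ 2 -
  ((1 / Sp : ℝ) : ℂ) * (qal w β p μ2 Y0 Y1 P1 f0 f1 fx θ η *
    conj (qga w β Y0 q0 Y1 q1 P1 f0 f1 fx θ η))

/-- `Z1 = al δ + ga conj δ` for `ξ = Re (θ δ) = (θ δ + conj θ conj δ)/2`, `ω = Re (η δ)`. -/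
theorem z1_eq (w β : ℝ) (p μ2 Y0 q0 Y1 q1 P1 f0 f1 fx θ η δ : ℂ) :
    Z1 w β (η * δ).re (θ * δ).re p μ2 Y0 q0 Y1 q1 P1 f0 f1 fx δ =
    qal w β p μ2 Y0 Y1 P1 f0 f1 fx θ η * δ +
      qga w β Y0 q0 Y1 q1 P1 f0 f1 fx θ η * conj δ := by
  have hX : (((θ * δ).re : ℝ) : ℂ) = (θ * δ + conj θ * conj δ) / 2 := by
    rw [← map_mul, Complex.add_conj]
    push_cast
    ring
  have hE : (((η * δ).re : ℝ) : ℂ) = (η * δ + conj η * conj δ) / 2 := by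
    rw [← map_mul, Complex.add_conj]
    push_cast
    ring
  unfold Z1 qal qga qa4 qa1 qa2
  simp only [map_add, map_mul, Complex.conj_ofReal, map_ofNat, Complex.ofReal_div,
    Complex.ofReal_ofNat]
  rw [hX, hE]
  push_cast
  ring

/-- expansion of `TT` in powers of `ω`, `ξ` -/
private theorem quad_TT (w β U2 ω ξ : ℝ) (p μ2 Y0 q0 Y1 q1 qx P1 P2 δ : ℂ)
    (h3 : 1 / 2 * ‖Y1‖ ^ 2 + 4 * β * (conj Y1 * P1).re = 0)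
    (hμ : μ2 = w * conj Y0 + ((1 - w) * β * U2 : ℝ) * conj Y1) :
    TT w β U2 ω ξ p Y0 q0 Y1 q1 qx P1 P2 δ =
    (w * ‖q0‖ ^ 2 + (1 - w) * (β * ‖q1‖ ^ 2)) * ‖δ‖ ^ 2 + (4 * p * μ2 * δ ^ 2).re +
      ω * (qB β Y0 q0 Y1 q1 * δ).re + ξ * (qA w β Y1 q1 qx P1 * δ).re +
      qF β Y1 P1 P2 * (1 - w) * ξ ^ 2 := by
  rw [hμ]
  unfold TT qB qA qF
  simp only [Complex.sq_norm, Complex.normSq_apply] at h3 ⊢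
  simp only [Complex.mul_re, Complex.mul_im, Complex.add_re, Complex.add_im, Complex.sub_re,
    Complex.sub_im, Complex.conj_re, Complex.conj_im, Complex.ofReal_re, Complex.ofReal_im,
    pow_two, Complex.re_ofNat, Complex.im_ofNat] at h3 ⊢
  linear_combination (-(ω * ξ)) * h3

private theorem quad_prod (a b δ : ℂ) : (a * δ).re * (b * δ).re =
    1 / 2 * (b * a * δ ^ 2).re + 1 / 2 * (b * conj a).re * ‖δ‖ ^ 2 := by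
  simp only [Complex.sq_norm, Complex.normSq_apply]
  simp only [Complex.mul_re, Complex.mul_im, Complex.conj_re, Complex.conj_im, pow_two]
  ring

private theorem quad_norm (a b δ : ℂ) : ‖a * δ + b * conj δ‖ ^ 2 =
    (‖a‖ ^ 2 + ‖b‖ ^ 2) * ‖δ‖ ^ 2 + 2 * (a * conj b * δ ^ 2).re := by
  simp only [Complex.sq_norm, Complex.normSq_apply]
  simp only [Complex.mul_re, Complex.mul_im, Complex.conj_re, Complex.conj_im, pow_two,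
    Complex.add_re, Complex.add_im]
  ring

/-- `GX = 0` in the form `h3`, `μ2 = w conj Y0 + (1-w) β U2 conj Y1`. First
`TT = |δ|^2 (w|q0|^2 + (1-w) β |q1|^2) + Re (4 p μ2 δ^2) + ω Re (qB δ) + ξ Re (qA δ) + (1-w) qF ξ^2`
(here `h3` is used for the coefficient of `ω ξ`), then
`ω Re (B δ) = 1/2 Re (B η δ^2) + 1/2 Re (B conj η) |δ|^2`, same for `ξ`,
`ξ^2 = 1/2 Re (θ^2 δ^2) + 1/2 |θ|^2 |δ|^2`, `‖al δ + ga conj δ‖^2 = (‖al‖^2 + ‖ga‖^2)|δ|^2 +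
2 Re (al conj ga δ^2)` (`z1_eq`). -/
theorem quad_id (w β U2 : ℝ) (p μ2 Y0 q0 Y1 q1 qx P1 P2 f0 f1 fx θ η δ : ℂ) (ρ0 Sp : ℝ)
    (h3 : 1 / 2 * ‖Y1‖ ^ 2 + 4 * β * (conj Y1 * P1).re = 0)
    (hμ : μ2 = w * conj Y0 + ((1 - w) * β * U2 : ℝ) * conj Y1) (hSp : Sp ≠ 0) :
    TT w β U2 (η * δ).re (θ * δ).re p Y0 q0 Y1 q1 qx P1 P2 δ - (11 / 5 + 2 * ρ0) * ‖δ‖ ^ 2 -
      ‖Z1 w β (η * δ).re (θ * δ).re p μ2 Y0 q0 Y1 q1 P1 f0 f1 fx δ‖ ^ 2 / (2 * Sp) =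
    qk w β p μ2 Y0 q0 Y1 q1 qx P1 P2 f0 f1 fx θ η ρ0 Sp * ‖δ‖ ^ 2 +
      (qK w β p μ2 Y0 q0 Y1 q1 qx P1 P2 f0 f1 fx θ η Sp * δ ^ 2).re := by
  rw [quad_TT w β U2 (η * δ).re (θ * δ).re p μ2 Y0 q0 Y1 q1 qx P1 P2 δ h3 hμ, z1_eq, quad_norm,
    quad_prod η, quad_prod θ]
  have h4 : (θ * δ).re ^ 2 = 1 / 2 * (θ ^ 2 * δ ^ 2).re + 1 / 2 * ‖θ‖ ^ 2 * ‖δ‖ ^ 2 := by
    rw [pow_two (θ * δ).re, quad_prod θ θ]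
    have e : (θ * conj θ).re = ‖θ‖ ^ 2 := by
      rw [Complex.mul_conj, Complex.ofReal_re, Complex.normSq_eq_norm_sq]
    rw [e, pow_two θ]
  rw [h4]
  unfold qk qK
  generalize qal w β p μ2 Y0 Y1 P1 f0 f1 fx θ η = al
  generalize qga w β Y0 q0 Y1 q1 P1 f0 f1 fx θ η = ga
  generalize qA w β Y1 q1 qx P1 = A
  generalize qB β Y0 q0 Y1 q1 = B
  generalize qF β Y1 P1 P2 = F
  have e1 : ((4 * p * μ2 + 1 / 2 * (A * θ) + 1 / 2 * (B * η) +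
      1 / 2 * ((F * (1 - w) : ℝ) : ℂ) * θ ^ 2 - ((1 / Sp : ℝ) : ℂ) * (al * conj ga)) * δ ^ 2).re =
      (4 * p * μ2 * δ ^ 2).re + 1 / 2 * (A * θ * δ ^ 2).re + 1 / 2 * (B * η * δ ^ 2).re +
      1 / 2 * (F * (1 - w)) * (θ ^ 2 * δ ^ 2).re - 1 / Sp * (al * conj ga * δ ^ 2).re := by
    have e2 : (4 * p * μ2 + 1 / 2 * (A * θ) + 1 / 2 * (B * η) +
      1 / 2 * ((F * (1 - w) : ℝ) : ℂ) * θ ^ 2 - ((1 / Sp : ℝ) : ℂ) * (al * conj ga)) * δ ^ 2 =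
      4 * p * μ2 * δ ^ 2 + ((1 / 2 : ℝ) : ℂ) * (A * θ * δ ^ 2) +
      ((1 / 2 : ℝ) : ℂ) * (B * η * δ ^ 2) +
      ((1 / 2 * (F * (1 - w)) : ℝ) : ℂ) * (θ ^ 2 * δ ^ 2) -
      ((1 / Sp : ℝ) : ℂ) * (al * conj ga * δ ^ 2) := by
      push_cast
      ring
    rw [e2]
    simp only [Complex.add_re, Complex.sub_re, Complex.re_ofReal_mul]
  rw [e1]
  field_simp
  ring

end Pool.Agent.MaxTerm8
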