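import Pool.Agent.MaxTerm8.Quad
import Pool.Agent.MaxTerm8.TaylorP
import Pool.Agent.MaxTerm8.EnclPf

/-! Ball enclosure of the quadratic form at the critical point. -/

namespace Pool.Agent.MaxTerm8

open Complex ComplexConjugate

noncomputable def thc : ℂ := ⟨2, 11 / 4⟩
noncomputable def etc : ℂ := ⟨0, -9 / 4⟩

/-- constants of the master inequality for `‖lam 3‖ ≤ 1/2`, `|sg 3| ≤ 7/10` -/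
def r3Q : ℚ := 5 * (17 / 50) ^ 4 * (1 / 2) + 2 * (17 / 50) ^ 5 * (7 / 10)
def rho0Q : ℚ := 15 * (17 / 50) ^ 4 * (1 / 2) + 124 / 10000
def rho1Q : ℚ := 2 * r3Q + 7 / 100 + 240 / 10000
def SpQ : ℚ := 13 / 20 - rho1Q

def thB : Bl := ⟨2, 11 / 4, 0⟩
def etB : Bl := ⟨0, -9 / 4, 0⟩
def q0B : Bl := QTB pB (Bl.q 1)
def q1B : Bl := QTB pB xB
def qxB : Bl := QTXB pB xB
def P1B : Bl := PXB pB xB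
def P2B : Bl := PXXB pB xB
def f0B : Bl := RTB pB (Bl.q 1)
def f1B : Bl := RTB pB xB
def fxB : Bl := RTXB pB xB
def w1B : Bl := Bl.q 1 - wB
def qAB : Bl := w1B * (Bl.sm 4 (beB * P1B.cj * q1B) + Y1B.cj * q1B + Bl.sm 2 (beB * Y1B.cj * qxB))
def qBB : Bl := Bl.sm 2 (Y0B.cj * q0B) - Bl.sm 2 (beB * Y1B.cj * q1B)
def qFB : Bl := beB * (Bl.sm 4 (P1B * P1B.cj).rl + Bl.sm 2 (Y1B.cj * P2B).rl) +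
  Bl.sm 2 (Y1B.cj * P1B).rl
def qa1B : Bl := w1B * (Bl.sm (1 / 2) (Y1B.cj * f1B) + Bl.sm 2 (beB * P1B.cj * f1B) +
  beB * Y1B.cj * fxB)
def qa2B : Bl := Y0B.cj * f0B - beB * Y1B.cj * f1B
def qa4B : Bl := Bl.q (9 / 20) + wB * q0B.cj * f0B + w1B * beB * q1B.cj * f1B
def qalB : Bl := Bl.sm 4 (pB * muB 2) + Bl.sm (1 / 2) (thB * qa1B + etB * qa2B)
def qgaB : Bl := qa4B + Bl.sm (1 / 2) (thB.cj * qa1B + etB.cj * qa2B)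
def qkB : Bl := wB * (q0B * q0B.cj).rl + w1B * (beB * (q1B * q1B.cj).rl) - Bl.q (11 / 5 + 2 * rho0Q) +
  Bl.sm (1 / 2) (qAB * thB.cj).rl + Bl.sm (1 / 2) (qBB * etB.cj).rl +
  Bl.sm (1 / 2) (qFB * w1B) * Bl.q (2 ^ 2 + (11 / 4) ^ 2) -
  Bl.sm (1 / (2 * SpQ)) ((qalB * qalB.cj).rl + (qgaB * qgaB.cj).rl)
def qKB : Bl := Bl.sm 4 (pB * muB 2) + Bl.sm (1 / 2) (qAB * thB) + Bl.sm (1 / 2) (qBB * etB) +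
  Bl.sm (1 / 2) (qFB * w1B) * (thB * thB) - Bl.sm (1 / SpQ) (qalB * qgaB.cj)

/-- `k - |K| ≥ 5.6` -/
theorem chk_quad : 0 ≤ qkB.re - qkB.rad - qKB.rad - 56 / 10 ∧
    qKB.re ^ 2 + qKB.im ^ 2 ≤ (qkB.re - qkB.rad - qKB.rad - 56 / 10) ^ 2 := by
  decide +kernel

/-- `‖al‖ + ‖ga‖ ≤ 1.487` -/
theorem chk_alga : qalB.re ^ 2 + qalB.im ^ 2 ≤ (2204 / 10000) ^ 2 ∧
    qgaB.re ^ 2 + qgaB.im ^ 2 ≤ (12556 / 10000) ^ 2 ∧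
    2204 / 10000 + 12556 / 10000 + qalB.rad + qgaB.rad ≤ 1487 / 1000 := by
  decide +kernel

/-- numerical bounds for the local quantities -/
theorem chk_norms : Y0B.re ^ 2 + Y0B.im ^ 2 ≤ (17093 / 10000 - Y0B.rad) ^ 2 ∧ Y0B.rad ≤ 1 ∧
    Y1B.re ^ 2 + Y1B.im ^ 2 ≤ (21404 / 10000 - Y1B.rad) ^ 2 ∧ Y1B.rad ≤ 1 ∧
    q0B.re ^ 2 + q0B.im ^ 2 ≤ (20103 / 10000 - q0B.rad) ^ 2 ∧ q0B.rad ≤ 1 ∧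
    q1B.re ^ 2 + q1B.im ^ 2 ≤ (9568 / 10000 - q1B.rad) ^ 2 ∧ q1B.rad ≤ 1 / 2 ∧
    qxB.re ^ 2 + qxB.im ^ 2 ≤ (39708 / 10000 - qxB.rad) ^ 2 ∧ qxB.rad ≤ 1 ∧
    P1B.re ^ 2 + P1B.im ^ 2 ≤ (5592 / 10000 - P1B.rad) ^ 2 ∧ P1B.rad ≤ 1 / 2 ∧
    P2B.re ^ 2 + P2B.im ^ 2 ≤ (1783 / 10000 - P2B.rad) ^ 2 ∧ P2B.rad ≤ 1 / 10 ∧
    f0B.re ^ 2 + f0B.im ^ 2 ≤ (1625 / 10000 - f0B.rad) ^ 2 ∧ f0B.rad ≤ 1 / 10 ∧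
    f1B.re ^ 2 + f1B.im ^ 2 ≤ (1975 / 10000 - f1B.rad) ^ 2 ∧ f1B.rad ≤ 1 / 10 ∧
    fxB.re ^ 2 + fxB.im ^ 2 ≤ (218 / 10000 - fxB.rad) ^ 2 ∧ fxB.rad ≤ 1 / 100 := by
  decide +kernel

end Pool.Agent.MaxTerm8
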