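import Pool.Agent.MaxTerm8.WdVT2
import Pool.Agent.MaxTerm8.RedOut3
import Pool.Agent.MaxTerm8.AsmDef

namespace Pool.Agent.MaxTerm8
open Pool.Agent.MaxTerm59 Pool.Agent.MaxTerm58 Pool.Agent.MaxTerm59b
namespace Wd

/-- Window around a mismatched vertex (gaps `a h`, `b h`, `a < b`) → `HypM` and the outer data. `u w s` from `exists_vt_M`,
`v = W.vt h 0 u w s`. `ht`: `‖s‖^a = X0^(a h) = Y 0 < 19/25`. `hD`: from `H.hD2`. `hD1`: from `H.hD3`, `H.hbig`.
Right: `v (b+1+k)` is `vt_norm_r` with `j = b + 1 + k`, `N 0 + (b+1+k) h = N 1 + (k+1) h`: `outN_r 1` if `G 1 ≠ b h`, `outU_r 1`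
otherwise (`X1^(b h) ≤ Y 1 ≤ D`, `X2^(b h) ≤ Y 2 ≤ D`). Left: `v (-a-1-k)` is `vt_norm_l` with `j = a + 1 + k`,
`N 0 - (a+1+k) h = N (-1) - (k+1) h`: `outN_l (-1)` if `G (-2) ≠ a h`, `outU_l (-1)` otherwise. -/
theorem hypMU_of_wd (W : Wd (170919/100000) 4) (D : ℝ) (H : MV W D) (h a b : ℕ) (hh : 0 < h) (ha : 0 < a)
    (hab : a < b) (hL : W.G (-1) = a * h) (hR : W.G 0 = b * h) : ∃ (x : ℂ) (v : ℤ → ℂ), HypM a b x D v ∧
    (D ≤ 7501/10000 ∨ D ≤ ‖x‖ ^ a + 1/10000) ∧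
    (OutU b D (fun i => v (b + 1 + (i:ℤ))) ∨ OutN b D (fun i => v (b + 1 + (i:ℤ)))) ∧
    (OutU a D (fun i => v (-(a:ℤ) - 1 - (i:ℤ))) ∨ OutN a D (fun i => v (-(a:ℤ) - 1 - (i:ℤ)))) := by
  obtain ⟨u, w, s, hu, hw, hs, v1, v2, v3⟩ := W.exists_vt_M h a b hh ha (by omega) hL hR
  have hX0 := W.X_pos 0 (by omega) (by omega)
  have hah : a * h < b * h := Nat.mul_lt_mul_of_pos_right hab hh
  have hY0 : ‖s‖ ^ a = W.Y 0 := by
    have e1 : min (W.G (0 - 1)) (W.G 0) = a * h := by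
      rw [show (0 : ℤ) - 1 = -1 by norm_num, hL, hR]
      exact min_eq_left hah.le
    unfold Y
    rw [e1, hs, ← pow_mul, mul_comm h a]
  refine ⟨s, W.vt h 0 u w s, ⟨v1, v2, v3, ?_, ?_, ?_, ?_, ?_⟩, ?_, ?_, ?_⟩
  · intro h0
    rw [h0, norm_zero] at hs
    exact absurd hs (pow_pos hX0 _).ne
  · rw [hY0]; exact H.hbig.le
  · rw [hY0]
    rcases H.hD2 with h1 | h1
    · exact Or.inl h1
    · right; linarith
  · have := H.hbig
    rcases H.hD3 with h1 | h1 <;> linarith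
  · exact W.vt_bd h 0 hh u w s hu hw hs
  · rw [hY0]; exact H.hD3
  · have hr : ∀ k : ℕ, ‖W.vt h 0 u w s (b + 1 + (k:ℤ))‖ =
        ‖W.c (1-1) (W.N 1 + ((k+1) * h : ℕ))‖ := by
      intro k
      have h1 := W.vt_norm_r h 0 u w s hu hw (b + 1 + k)
      have h2 := W.N_succ 0 (by omega) (by omega)
      rw [zero_add, hR] at h2
      have e1 : (((b + 1 + k : ℕ) : ℤ) - ((0 : ℕ) : ℤ)) = b + 1 + (k:ℤ) := by push_cast; ring
      have e2 : W.N 0 + (((b + 1 + k) * h : ℕ) : ℤ) = W.N 1 + (((k+1) * h : ℕ) : ℤ) := by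
        rw [h2]; push_cast; ring
      rw [e1, e2] at h1
      rw [h1, sub_self]
    have hD1 : W.X 1 ^ (b * h) ≤ D := by
      have h1 := W.pow_l_le_Y 1 (by omega) (by omega)
      rw [sub_self, hR] at h1
      exact h1.trans (H.hD 1 (by omega) (by omega))
    by_cases hm : W.G 1 = b * h
    · left
      refine W.outU_r 1 (by omega) (by omega) h b hh (by omega) (by rw [sub_self]; exact hR) hm D hD1
        ?_ _ hr
      have h1 := W.pow_l_le_Y 2 (by omega) (by omega)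
      rw [show (2 : ℤ) - 1 = 1 by norm_num, hm] at h1
      rw [show (1 : ℤ) + 1 = 2 by norm_num]
      exact h1.trans (H.hD 2 (by omega) (by omega))
    · right
      exact W.outN_r 1 (by omega) (by omega) h b hh (by omega) (by rw [sub_self]; exact hR) hm D hD1
        _ hr
  · have hr : ∀ k : ℕ, ‖W.vt h 0 u w s (-(a:ℤ) - 1 - (k:ℤ))‖ =
        ‖W.c (-1) (W.N (-1) - ((k+1) * h : ℕ))‖ := by
      intro k
      have h1 := W.vt_norm_l h 0 u w s hu hw hs (a + 1 + k)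
      have h2 := W.N_succ (-1) (by omega) (by omega)
      rw [show (-1 : ℤ) + 1 = 0 by norm_num, hL] at h2
      have e1 : (-((0 : ℕ) : ℤ) - ((a + 1 + k : ℕ) : ℤ)) = -(a:ℤ) - 1 - (k:ℤ) := by push_cast; ring
      have e2 : W.N 0 - (((a + 1 + k) * h : ℕ) : ℤ) = W.N (-1) - (((k+1) * h : ℕ) : ℤ) := by
        rw [h2]; push_cast; ring
      rw [e1, e2] at h1
      exact h1
    have hD1 : W.X (-1) ^ (a * h) ≤ D := by
      have h1 := W.pow_r_le_Y (-1) (by omega) (by omega)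
      rw [hL] at h1
      exact h1.trans (H.hD (-1) (by omega) (by omega))
    by_cases hm : W.G (-1-1) = a * h
    · left
      refine W.outU_l (-1) (by omega) (by omega) h a hh ha hL hm D hD1 ?_ _ hr
      have h1 := W.pow_r_le_Y (-1-1) (by omega) (by omega)
      rw [hm] at h1
      exact h1.trans (H.hD (-1-1) (by omega) (by omega))
    · right
      exact W.outN_l (-1) (by omega) (by omega) h a hh ha hL hm D hD1 _ hr

end Wd
end Pool.Agent.MaxTerm8
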