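import Pool.Agent.MaxTerm8.WdVV1
import Pool.Agent.MaxTerm8.WdVV2
import Pool.Agent.MaxTerm8.WdVV3
import Pool.Agent.MaxTerm8.WdVV4
import Pool.Agent.MaxTerm8.WdSplit
import Pool.Agent.MaxTerm58.HypS

namespace Pool.Agent.MaxTerm8
open Pool.Agent.MaxTerm59 Pool.Agent.MaxTerm58
namespace Wd
variable {B : ℝ} {n : ℕ}

private theorem redS0_A (v : ℤ → ℂ) (s t z : ℂ) (hm2 : v (-2) = 1) (hm1 : v (-1) = 1)
    (h0 : v 0 = 1) (h2 : v 2 = 1)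
    (hf : Summable fun j : ℤ => v j * (s ^ eaZ 1 0 j * t ^ ebZ 1 0 j) * z ^ j) :
    ∑' j : ℤ, v j * (s ^ eaZ 1 0 j * t ^ ebZ 1 0 j) * z ^ j =
      sA s t (v 1) (fun i : ℕ => v (-3 - (i:ℤ))) (fun i : ℕ => v (3 + (i:ℤ))) z := by
  rw [tsum_split5 _ hf]
  have e1 : ∀ i : ℕ, v (-3 - (i:ℤ)) * (s ^ eaZ 1 0 (-3 - (i:ℤ)) * t ^ ebZ 1 0 (-3 - (i:ℤ))) *
      z ^ (-3 - (i:ℤ)) = v (-3 - (i:ℤ)) * z ^ (-((i:ℤ) + 3)) := by
    intro i
    have a1 : eaZ 1 0 (-3 - (i:ℤ)) = 0 := by simp only [eaZ, if_true]; omega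
    have a2 : ebZ 1 0 (-3 - (i:ℤ)) = 0 := by
      simp only [ebZ, one_ne_zero, if_false]
      rw [if_neg (by norm_num)]
      omega
    rw [a1, a2, pow_zero, pow_zero, mul_one, mul_one, show (-3 - (i:ℤ)) = -((i:ℤ) + 3) by ring]
  have e2 : ∀ i : ℕ, v (3 + (i:ℤ)) * (s ^ eaZ 1 0 (3 + (i:ℤ)) * t ^ ebZ 1 0 (3 + (i:ℤ))) *
      z ^ (3 + (i:ℤ)) = v (3 + (i:ℤ)) * (s ^ (i + 4) * t ^ (i + 3)) * z ^ ((i:ℤ) + 3) := by
    intro i
    have a1 : eaZ 1 0 (3 + (i:ℤ)) = i + 4 := by simp only [eaZ, if_true]; omega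
    have a2 : ebZ 1 0 (3 + (i:ℤ)) = i + 3 := by
      simp only [ebZ, one_ne_zero, if_false]
      rw [if_neg (by norm_num)]
      omega
    rw [a1, a2, show (3 + (i:ℤ)) = (i:ℤ) + 3 by ring]
  rw [tsum_congr e1, tsum_congr e2]
  have b1 : eaZ 1 0 (-2) = 0 := by simp [eaZ]
  have b2 : ebZ 1 0 (-2) = 0 := by simp [ebZ]
  have b3 : eaZ 1 0 (-1) = 0 := by simp [eaZ]
  have b4 : ebZ 1 0 (-1) = 0 := by simp [ebZ]
  have b5 : eaZ 1 0 0 = 1 := by simp [eaZ]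
  have b6 : ebZ 1 0 0 = 0 := by simp [ebZ]
  have b7 : eaZ 1 0 1 = 2 := by simp [eaZ]
  have b8 : ebZ 1 0 1 = 1 := by simp [ebZ]
  have b9 : eaZ 1 0 2 = 3 := by simp [eaZ]
  have b10 : ebZ 1 0 2 = 2 := by simp [ebZ]
  rw [b1, b2, b3, b4, b5, b6, b7, b8, b9, b10, hm2, hm1, h0, h2]
  unfold sA
  have c1 : z ^ (2:ℤ) = z ^ 2 := by norm_cast
  rw [c1, zpow_zero, zpow_one]
  ring

private theorem redS0_B (v : ℤ → ℂ) (s t z : ℂ) (hm2 : v (-2) = 1) (hm1 : v (-1) = 1)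
    (h0 : v 0 = 1) (h2 : v 2 = 1)
    (hf : Summable fun j : ℤ => v j * (s ^ eaZ 1 1 j * t ^ ebZ 1 1 j) * z ^ j) :
    ∑' j : ℤ, v j * (s ^ eaZ 1 1 j * t ^ ebZ 1 1 j) * z ^ j =
      sB s t (v 1) (fun i : ℕ => v (-3 - (i:ℤ))) (fun i : ℕ => v (3 + (i:ℤ))) z := by
  rw [tsum_split5 _ hf]
  have e1 : ∀ i : ℕ, v (-3 - (i:ℤ)) * (s ^ eaZ 1 1 (-3 - (i:ℤ)) * t ^ ebZ 1 1 (-3 - (i:ℤ))) *
      z ^ (-3 - (i:ℤ)) = v (-3 - (i:ℤ)) * s ^ (i + 2) * z ^ (-((i:ℤ) + 3)) := by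
    intro i
    have a1 : eaZ 1 1 (-3 - (i:ℤ)) = i + 2 := by
      simp only [eaZ, one_ne_zero, if_false]; omega
    have a2 : ebZ 1 1 (-3 - (i:ℤ)) = 0 := by
      simp only [ebZ, one_ne_zero, if_false]
      rw [if_neg (by norm_num)]
      omega
    rw [a1, a2, pow_zero, mul_one, show (-3 - (i:ℤ)) = -((i:ℤ) + 3) by ring]
  have e2 : ∀ i : ℕ, v (3 + (i:ℤ)) * (s ^ eaZ 1 1 (3 + (i:ℤ)) * t ^ ebZ 1 1 (3 + (i:ℤ))) *
      z ^ (3 + (i:ℤ)) = v (3 + (i:ℤ)) * t ^ (i + 3) * z ^ ((i:ℤ) + 3) := by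
    intro i
    have a1 : eaZ 1 1 (3 + (i:ℤ)) = 0 := by
      simp only [eaZ, one_ne_zero, if_false]; omega
    have a2 : ebZ 1 1 (3 + (i:ℤ)) = i + 3 := by
      simp only [ebZ, one_ne_zero, if_false]
      rw [if_neg (by norm_num)]
      omega
    rw [a1, a2, pow_zero, one_mul, show (3 + (i:ℤ)) = (i:ℤ) + 3 by ring]
  rw [tsum_congr e1, tsum_congr e2]
  have b1 : eaZ 1 1 (-2) = 1 := by simp [eaZ]
  have b2 : ebZ 1 1 (-2) = 0 := by simp [ebZ]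
  have b3 : eaZ 1 1 (-1) = 0 := by simp [eaZ]
  have b4 : ebZ 1 1 (-1) = 0 := by simp [ebZ]
  have b5 : eaZ 1 1 0 = 0 := by simp [eaZ]
  have b6 : ebZ 1 1 0 = 0 := by simp [ebZ]
  have b7 : eaZ 1 1 1 = 0 := by simp [eaZ]
  have b8 : ebZ 1 1 1 = 1 := by simp [ebZ]
  have b9 : eaZ 1 1 2 = 0 := by simp [eaZ]
  have b10 : ebZ 1 1 2 = 2 := by simp [ebZ]
  rw [b1, b2, b3, b4, b5, b6, b7, b8, b9, b10, hm2, hm1, h0, h2]
  unfold sB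
  have c1 : z ^ (2:ℤ) = z ^ 2 := by norm_cast
  rw [c1, zpow_zero, zpow_one]
  ring

private theorem redS0_C (v : ℤ → ℂ) (s t z : ℂ) (hm2 : v (-2) = 1) (hm1 : v (-1) = 1)
    (h0 : v 0 = 1) (h2 : v 2 = 1)
    (hf : Summable fun j : ℤ => v j * (s ^ eaZ 1 2 j * t ^ ebZ 1 2 j) * z ^ j) :
    ∑' j : ℤ, v j * (s ^ eaZ 1 2 j * t ^ ebZ 1 2 j) * z ^ j =
      sC s t (v 1) (fun i : ℕ => v (-3 - (i:ℤ))) (fun i : ℕ => v (3 + (i:ℤ))) z := by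
  rw [tsum_split5 _ hf]
  have e1 : ∀ i : ℕ, v (-3 - (i:ℤ)) * (s ^ eaZ 1 2 (-3 - (i:ℤ)) * t ^ ebZ 1 2 (-3 - (i:ℤ))) *
      z ^ (-3 - (i:ℤ)) = v (-3 - (i:ℤ)) * (s ^ (i + 2) * t ^ (i + 3)) * z ^ (-((i:ℤ) + 3)) := by
    intro i
    have a1 : eaZ 1 2 (-3 - (i:ℤ)) = i + 2 := by
      simp only [eaZ]; rw [if_neg (by norm_num)]; omega
    have a2 : ebZ 1 2 (-3 - (i:ℤ)) = i + 3 := by
      simp only [ebZ, one_ne_zero, if_false, if_true]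
      omega
    rw [a1, a2, show (-3 - (i:ℤ)) = -((i:ℤ) + 3) by ring]
  have e2 : ∀ i : ℕ, v (3 + (i:ℤ)) * (s ^ eaZ 1 2 (3 + (i:ℤ)) * t ^ ebZ 1 2 (3 + (i:ℤ))) *
      z ^ (3 + (i:ℤ)) = v (3 + (i:ℤ)) * z ^ ((i:ℤ) + 3) := by
    intro i
    have a1 : eaZ 1 2 (3 + (i:ℤ)) = 0 := by
      simp only [eaZ]; rw [if_neg (by norm_num)]; omega
    have a2 : ebZ 1 2 (3 + (i:ℤ)) = 0 := by
      simp only [ebZ, one_ne_zero, if_false, if_true]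
      omega
    rw [a1, a2, pow_zero, pow_zero, mul_one, mul_one, show (3 + (i:ℤ)) = (i:ℤ) + 3 by ring]
  rw [tsum_congr e1, tsum_congr e2]
  have b1 : eaZ 1 2 (-2) = 1 := by simp [eaZ]
  have b2 : ebZ 1 2 (-2) = 2 := by simp [ebZ]
  have b3 : eaZ 1 2 (-1) = 0 := by simp [eaZ]
  have b4 : ebZ 1 2 (-1) = 1 := by simp [ebZ]
  have b5 : eaZ 1 2 0 = 0 := by simp [eaZ]
  have b6 : ebZ 1 2 0 = 0 := by simp [ebZ]
  have b7 : eaZ 1 2 1 = 0 := by simp [eaZ]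
  have b8 : ebZ 1 2 1 = 0 := by simp [ebZ]
  have b9 : eaZ 1 2 2 = 0 := by simp [eaZ]
  have b10 : ebZ 1 2 2 = 0 := by simp [ebZ]
  rw [b1, b2, b3, b4, b5, b6, b7, b8, b9, b10, hm2, hm1, h0, h2]
  unfold sC
  have c1 : z ^ (2:ℤ) = z ^ 2 := by norm_cast
  rw [c1, zpow_zero, zpow_one]
  ring

/-- Common part for the ratio `2`: matched vertex `0`, mismatched vertices `-1` and `1`, `G 1 = 2 g`. Take `u w s t` from
`exists_vv` with `h = g`, `m1 = 1`; `v = W.vv g 1 u w s t`, `s = q0`, `v (-2) = v (-1) = v 0 = v 2 = 1` (`ρ = 2`);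
`r1 = v 1`, `l i = v (-3 - i)`, `r i = v (3 + i)`. `t_le`: `‖t‖ = X1^g ≤ Y 1`. `sl`: `‖l i‖ = ‖c (-1) (N (-1) - (i+1) g)‖
≤ X(-1)^((i+1) g) ≤ (X1^g)^(i+1)`. `sl0`: `‖l 0‖ = ‖c (-2) (N (-1) - g)‖ X(-1)^g` (`norm_l (-1)`), and by `ball_r (-1)` with
`S = {N (-1) - g}` (`N (-1) - g ≠ N (-2)` as `G (-2) ≠ g`) `‖c (-2) (N (-1) - g)‖² ≤ E - y²`, `y = X(-1)^g` (`G (-1) = g`);
`y² (E - y²) ≤ t² (E - t²)` as `y ≤ ‖t‖ ≤ .9 (3/4 + 1/100000)`, `2 t² ≤ E`. `sr1`: `ball_l 1` with `S = {N 1 + g}`.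
`bA`, `bB`, `bC`: `sA q t r1 l r z = ∑' j, v j (s^eaZ 1 0 j * t^ebZ 1 0 j) z^j` etc. (`tsum_split5`).
The last two conclusions: `vv_norm_r` with `j = 3 + i`. -/
theorem hypS0_of_wd (W : Wd (170919/100000) n) (hn : 3 ≤ n) (g : ℕ) (hL : W.G (-1) = g) (hR : W.G 0 = g)
    (hR1 : W.G 1 = 2 * g) (hLm : W.G (-2) ≠ g) (hY1 : W.Y 1 ≤ 9/10 * (‖W.q0‖ + 1/100000))
    (htl : W.X (-1) ^ g ≤ W.X 1 ^ g) (hq : ‖W.q0‖ ≤ 3/4) :
    ∃ t r1 l r, HypS0 W.q0 t r1 l r ∧ ∀ i : ℕ, ‖r i‖ = ‖W.c 1 (W.N 2 + ((i+1) * g : ℕ))‖ := by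
  have hn1 : 1 ≤ n := by omega
  have hg : 0 < g := by
    have := W.G_pos 0 (by omega) (by omega)
    omega
  obtain ⟨u, w, s, t, hu, hw, hs, ht, hsq, v2, v1, v0, vρ⟩ :=
    W.exists_vv hn1 g 1 hg one_pos (by rw [hL, one_mul]) (by rw [hR, one_mul])
  rw [pow_one] at hsq
  have hR' : W.G 0 = 1 * g := by rw [hR, one_mul]
  obtain ⟨v, hv⟩ : ∃ v : ℤ → ℂ, v = W.vv g 1 u w s t := ⟨_, rfl⟩
  have hvm2 : v (-2) = 1 := by
    rw [hv]; have h := v2; norm_num at h; exact h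
  have hvm1 : v (-1) = 1 := by
    rw [hv]; have h := v1; norm_num at h; exact h
  have hv0 : v 0 = 1 := by rw [hv]; exact v0
  have hv2 : v 2 = 1 := by
    rw [hv]; have h := vρ 2 (by norm_num) hR1; norm_num at h; exact h
  have hX1 := W.X_pos 1 (by omega) (by omega)
  have hXm := W.X_pos (-1) (by omega) (by omega)
  -- the vertices
  have N0 : W.N 0 = W.N (-1) + (g:ℤ) := by
    have h1 := W.N_succ (-1) (by omega) (by omega)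
    rw [hL] at h1
    have e : (-1 : ℤ) + 1 = 0 := by norm_num
    rw [e] at h1
    exact h1
  have N1 : W.N 1 = W.N 0 + (g:ℤ) := by
    have h1 := W.N_succ 0 (by omega) (by omega)
    rw [hR, zero_add] at h1
    exact h1
  have N2 : W.N 2 = W.N 1 + 2 * (g:ℤ) := by
    have h1 := W.N_succ 1 (by omega) (by omega)
    rw [hR1] at h1
    have e : (1 : ℤ) + 1 = 2 := by norm_num
    rw [e] at h1
    rw [h1]; push_cast; ring
  have Nm : W.N (-1) = W.N (-2) + (W.G (-2) : ℤ) := by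
    have h1 := W.N_succ (-2) (by omega) (by omega)
    have e : (-2 : ℤ) + 1 = -1 := by norm_num
    rw [e] at h1
    exact h1
  have tY : ‖t‖ ≤ W.Y 1 := by
    rw [ht]
    refine W.pow_le_Y 1 (by omega) (by omega) g ?_
    rw [sub_self, hR]
    exact min_le_left _ _
  have tle : ‖t‖ ≤ 9 / 10 * (‖W.q0‖ + 1 / 100000) := tY.trans hY1
  have tb : ‖t‖ ≤ 0.675009 := by
    have := tle
    linarith
  have t0 : 0 ≤ ‖t‖ := norm_nonneg _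
  -- norms of the left side
  have nl : ∀ i : ℕ, ‖v (-3 - (i:ℤ))‖ = ‖W.c (-1) (W.N (-1) - (((i + 1) * g : ℕ) : ℤ))‖ := by
    intro i
    have h1 := W.vv_norm_l hn1 g 1 hR' u w s t hu hw hs (i + 2)
    rw [show (-((1:ℕ):ℤ) - ((i + 2 : ℕ) : ℤ)) = -3 - (i:ℤ) by push_cast; ring,
      show W.N 0 - (((i + 2) * g : ℕ) : ℤ) = W.N (-1) - (((i + 1) * g : ℕ) : ℤ) by
        rw [N0]; push_cast; ring] at h1
    rw [hv]
    exact h1
  have nr : ∀ i : ℕ, ‖v (3 + (i:ℤ))‖ = ‖W.c 1 (W.N 2 + (((i + 1) * g : ℕ) : ℤ))‖ := by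
    intro i
    have h1 := W.vv_norm_r hn1 g 1 u w s t hu hw ht (i + 3)
    rw [show (((i + 3 : ℕ) : ℤ)) = 3 + (i:ℤ) by push_cast; ring,
      show W.N 1 + (((i + 3) * g : ℕ) : ℤ) = W.N 2 + (((i + 1) * g : ℕ) : ℤ) by
        rw [N2]; push_cast; ring] at h1
    rw [hv]
    exact h1
  have nr1 : ‖v 1‖ = ‖W.c 1 (W.N 1 + (g : ℤ))‖ := by
    have h1 := W.vv_norm_r hn1 g 1 u w s t hu hw ht 1
    rw [show (((1 : ℕ) : ℤ)) = 1 by norm_num, one_mul] at h1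
    rw [hv]
    exact h1
  -- summability and bounds
  have hsum : ∀ X < 3, ∀ z : ℂ, ‖z‖ = 1 →
      Summable fun j : ℤ => v j * (s ^ eaZ 1 X j * t ^ ebZ 1 X j) * z ^ j := by
    intro X hX z hz
    apply Summable.of_norm
    refine (W.vv_summ hn1 g 1 hg hR' u w s t hu hw hs ht X hX).congr fun j => ?_
    rw [hv, norm_mul _ (z ^ j), norm_zpow, hz, one_zpow, mul_one]
  have hbd := W.vv_bd hn1 g 1 hg hR' u w s t hu hw hs ht
  rw [← hv] at hbd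
  refine ⟨t, v 1, fun i : ℕ => v (-3 - (i:ℤ)), fun i : ℕ => v (3 + (i:ℤ)), ⟨?_, tle, ?_, ?_, ?_, ?_, ?_, ?_⟩,
    nr⟩
  · linarith
  · intro i
    show ‖v (-3 - (i:ℤ))‖ ≤ _
    rw [nl i]
    refine (W.size_l (-1) (by omega) (by omega) ((i + 1) * g)).trans ?_
    rw [ht, mul_comm (i + 1) g, pow_mul]
    exact pow_le_pow_left₀ (pow_pos hXm g).le htl (i + 1)
  · show ‖v (-3 - ((0:ℕ):ℤ))‖ ^ 2 ≤ _
    rw [nl 0]
    have h1 := W.norm_l (-1) (by omega) (by omega) ((0 + 1) * g)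
    have h2 := W.ball_r (-1) (by omega) (by omega) {W.N (-1) - (((0 + 1) * g : ℕ) : ℤ)}
      (by rw [Finset.mem_singleton]; push_cast; omega)
      (by
        rw [Finset.mem_singleton, show (-1:ℤ) + 1 = 0 by norm_num, N0]; push_cast; omega)
      (by
        rw [Finset.mem_singleton, show (-1:ℤ) - 1 = -2 by norm_num, Nm]
        intro h
        push_cast at h
        apply hLm
        omega)
    rw [Finset.sum_singleton, hL] at h2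
    rw [h1, mul_pow, ht, zero_add, one_mul]
    rw [zero_add, one_mul] at h2
    rw [ht] at tb
    set y := W.X (-1) ^ g with hy
    set x := W.X 1 ^ g with hx
    have y0 : 0 ≤ y := (pow_pos hXm g).le
    have x0 : 0 ≤ x := (pow_pos hX1 g).le
    set a := ‖W.c (-1 - 1) (W.N (-1) - (g:ℤ))‖ ^ 2 with ha
    have h3 : a * y ^ 2 ≤ ((170919 / 100000) ^ 2 - 2 - y ^ 2) * y ^ 2 :=
      mul_le_mul_of_nonneg_right h2 (sq_nonneg y)
    have h4 : y ^ 2 ≤ x ^ 2 := pow_le_pow_left₀ y0 htl 2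
    have h5 : x ^ 2 ≤ 0.675009 ^ 2 := pow_le_pow_left₀ x0 tb 2
    have h6 : 0 ≤ (x ^ 2 - y ^ 2) * ((170919 / 100000) ^ 2 - 2 - x ^ 2 - y ^ 2) := by
      apply mul_nonneg (by linarith)
      have : (0.675009 : ℝ) ^ 2 + 0.675009 ^ 2 ≤ (170919 / 100000) ^ 2 - 2 := by norm_num
      linarith
    nlinarith
  · rw [nr1]
    have h2 := W.ball_l 1 (by omega) (by omega) {W.N 1 + (g : ℤ)}
      (by rw [Finset.mem_singleton]; omega)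
      (by rw [Finset.mem_singleton, show (1:ℤ) + 1 = 2 by norm_num, N2]; omega)
      (by rw [Finset.mem_singleton, sub_self, N1]; omega)
    rw [Finset.sum_singleton, sub_self, hR] at h2
    rw [ht]
    exact h2
  · intro z hz
    have h1 := hbd 0 (by norm_num) z hz
    rw [redS0_A v s t z hvm2 hvm1 hv0 hv2 (hsum 0 (by norm_num) z hz), hsq] at h1
    exact h1
  · intro z hz
    have h1 := hbd 1 (by norm_num) z hz
    rw [redS0_B v s t z hvm2 hvm1 hv0 hv2 (hsum 1 (by norm_num) z hz), hsq] at h1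
    exact h1
  · intro z hz
    have h1 := hbd 2 (by norm_num) z hz
    rw [redS0_C v s t z hvm2 hvm1 hv0 hv2 (hsum 2 (by norm_num) z hz), hsq] at h1
    exact h1

end Wd
end Pool.Agent.MaxTerm8
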