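import Pool.Agent.MaxTerm8.WdVT2
import Pool.Agent.MaxTerm8.RedOut
import Pool.Agent.MaxTerm8.RedOut2
import Pool.Agent.MaxTerm8.AsmDef

namespace Pool.Agent.MaxTerm8
open Pool.Agent.MaxTerm59 Pool.Agent.MaxTerm58
namespace Wd

/-- Window → `HypT` (and the outer data). `u w` from `exists_vt_T` with `g = W.G 0`, `v = W.vt g 1 u w W.q0`,
`T = X 1 ^ g`. `bd`: `vt_bd`. `oR`: `v (1 + i)` is `vt_norm_r` with `j = i + 2`: `‖c 0 (N 0 + (i+2) g)‖ = ‖c 0 (N 1 + (i+1) g)‖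
≤ X1^((i+1) g)` (`size_r 1`). `oL`: `v (-3 - i)` is `vt_norm_l` with `j = i + 2`: `‖c (-1) (N 0 - (i+2) g)‖ =
‖c (-1) (N (-1) - (i+1) g)‖ ≤ X(-1)^((i+1) g) ≤ T^(i+1)` (`size_l (-1)`, `hlt`). Outer data: `outN_l (-1)`, `outN_r 1` with
`h = g`, `a = 1`. The last one (`17 G 0 ≥ 20 G 1`): `‖v (1+i)‖ = ‖c 0 (N 1 + (i+1) g)‖ = ‖c 1 (N 2 + ((i+1) g - b))‖ T^(i+1)`, `b = G 1`,
`≤ X2^((i+1) g - b) T^(i+1)`, `17 ((i+1) g - b) ≥ b (20 i + 3)`, `X2^b ≤ Y 2 ≤ ‖q0‖ + 1/100000`. -/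
theorem hypT_of_wd (W : Wd (170919/100000) 4) (H : GoodMM W) : ∃ v : ℤ → ℂ,
    HypT W.q0 (W.X 1 ^ W.G 0) v ∧ OutN 1 (W.X 1 ^ W.G 0) (fun i => v (-3 - (i:ℤ))) ∧
    OutN 1 (W.X 1 ^ W.G 0) (fun i => v (1 + (i:ℤ))) ∧
    (20 * W.G 1 ≤ 17 * W.G 0 → ∀ i : ℕ, ‖v (1 + (i:ℤ))‖ ^ 17 ≤
      ((W.X 1 ^ W.G 0) ^ 17) ^ (i + 1) * (‖W.q0‖ + 1/100000) ^ (20 * i + 3)) := by
  have hg0 : 0 < W.G 0 := W.G_pos 0 (by norm_num) (by norm_num)
  have m0 : W.G (-1) = W.G 0 := H.m0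
  have hXp : ∀ i : ℤ, -4 ≤ i → i ≤ 4 → 0 < W.X i := fun i h1 h2 =>
    W.X_pos i (by push_cast; exact h1) (by push_cast; exact h2)
  have nq : ‖W.q0‖ = W.X 0 ^ W.G 0 := by rw [W.norm_q0 (by norm_num), m0]
  obtain ⟨u, w, hu, hw, e2, e1, e0⟩ := W.exists_vt_T (W.G 0) m0 rfl
  have N1 : W.N 1 = W.N 0 + (W.G 0 : ℤ) := by
    have h := W.N_succ 0 (by norm_num) (by norm_num)
    simpa using h
  have N0 : W.N 0 = W.N (-1) + (W.G 0 : ℤ) := by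
    have h := W.N_succ (-1) (by norm_num) (by norm_num)
    rw [m0] at h
    simpa using h
  have N2 : W.N 2 = W.N 1 + (W.G 1 : ℤ) := by
    have h := W.N_succ 1 (by norm_num) (by norm_num)
    rw [show (1:ℤ) + 1 = 2 by norm_num] at h
    exact h
  have kR : ∀ i : ℕ, ‖W.vt (W.G 0) 1 u w W.q0 (1 + (i:ℤ))‖ =
      ‖W.c 0 (W.N 1 + ((i+1) * W.G 0 : ℕ))‖ := by
    intro i
    have h := W.vt_norm_r (W.G 0) 1 u w W.q0 hu hw (i+2)
    rw [show (((i + 2 : ℕ) : ℤ)) - ((1 : ℕ) : ℤ) = 1 + (i:ℤ) by push_cast; ring] at h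
    rw [h, N1]
    congr 2
    push_cast
    ring
  have kL : ∀ i : ℕ, ‖W.vt (W.G 0) 1 u w W.q0 (-3 - (i:ℤ))‖ =
      ‖W.c (-1) (W.N (-1) - ((i+1) * W.G 0 : ℕ))‖ := by
    intro i
    have h := W.vt_norm_l (W.G 0) 1 u w W.q0 hu hw nq (i+2)
    rw [show -((1 : ℕ) : ℤ) - ((i + 2 : ℕ) : ℤ) = -3 - (i:ℤ) by push_cast; ring] at h
    rw [h, N0]
    congr 2
    push_cast
    ring
  have T0 : 0 ≤ W.X 1 ^ W.G 0 := pow_nonneg (hXp 1 (by norm_num) (by norm_num)).le _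
  have pe : ∀ (x : ℝ) (i : ℕ), x ^ ((i+1) * W.G 0) = (x ^ W.G 0) ^ (i+1) := by
    intro x i
    rw [← pow_mul, mul_comm]
  refine ⟨W.vt (W.G 0) 1 u w W.q0, ⟨e2, e1, e0, T0, ?_, ?_, ?_⟩, ?_, ?_, ?_⟩
  · intro i
    rw [kL i]
    have h := W.size_l (-1) (by norm_num) (by norm_num) ((i+1) * W.G 0)
    rw [pe] at h
    refine h.trans (pow_le_pow_left₀ (pow_nonneg (hXp (-1) (by norm_num) (by norm_num)).le _) H.hlt _)
  · intro i
    rw [kR i]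
    have h := W.size_r 1 (by norm_num) (by norm_num) ((i+1) * W.G 0)
    rw [pe, sub_self] at h
    exact h
  · exact W.vt_bd (W.G 0) 1 hg0 u w W.q0 hu hw nq
  · refine W.outN_l (-1) (by norm_num) (by norm_num) (W.G 0) 1 hg0 one_pos (by rw [one_mul]; exact m0)
      (by rw [one_mul]; exact H.mL) _ (by rw [one_mul]; exact H.hlt) _ kL
  · refine W.outN_r 1 (by norm_num) (by norm_num) (W.G 0) 1 hg0 one_pos (by rw [one_mul, sub_self])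
      (by rw [one_mul]; exact H.mR) _ (by rw [one_mul]) _ ?_
    intro k
    rw [sub_self]
    exact kR k
  · intro hb i
    rw [kR i]
    have h1 := W.norm_r 1 (by norm_num) (by norm_num) ((i+1) * W.G 0)
    rw [sub_self] at h1
    have hm : W.G 1 ≤ (i+1) * W.G 0 := by nlinarith
    have h2 := W.size_r 2 (by norm_num) (by norm_num) ((i+1) * W.G 0 - W.G 1)
    rw [show (2:ℤ) - 1 = 1 by norm_num, N2, Nat.cast_sub hm] at h2
    rw [show W.N 1 + (W.G 1 : ℤ) + ((((i+1) * W.G 0 : ℕ) : ℤ) - (W.G 1 : ℤ)) =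
      W.N 1 + (((i+1) * W.G 0 : ℕ) : ℤ) by ring] at h2
    have hX2 := hXp 2 (by norm_num) (by norm_num)
    have hX2' : W.X 2 ≤ 1 := (W.X_lt 2 (by norm_num) (by norm_num)).le
    have h3 : W.X 2 ^ W.G 1 ≤ ‖W.q0‖ + 1/100000 := by
      have h4 := W.pow_l_le_Y 2 (by norm_num) (by norm_num)
      rw [show (2:ℤ) - 1 = 1 by norm_num] at h4
      refine h4.trans ((H.all 2 (by norm_num) (by norm_num)).trans (le_of_eq ?_))
      unfold Y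
      rw [zero_sub, m0, min_self, nq]
    have h5 : W.G 1 * (20 * i + 3) ≤ ((i+1) * W.G 0 - W.G 1) * 17 := by
      rw [Nat.sub_mul]
      have : (i+1) * (20 * W.G 1) ≤ (i+1) * (17 * W.G 0) := Nat.mul_le_mul_left _ hb
      apply Nat.le_sub_of_add_le
      nlinarith
    rw [h1, mul_pow, pe, mul_comm]
    refine mul_le_mul (le_of_eq ?_) ?_ (pow_nonneg (norm_nonneg _) _) (pow_nonneg (pow_nonneg T0 _) _)
    · exact pow_right_comm _ _ _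
    · refine (pow_le_pow_left₀ (norm_nonneg _) h2 17).trans ?_
      rw [← pow_mul]
      refine (pow_le_pow_of_le_one hX2.le hX2' h5).trans ?_
      rw [pow_mul]
      exact pow_le_pow_left₀ (pow_nonneg hX2.le _) h3 _

end Wd
end Pool.Agent.MaxTerm8
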