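import Pool.Agent.MaxTerm8.ChkS
import Pool.Agent.MaxTerm8.DataS
import Pool.Agent.MaxTerm8.Stage1Defs

/-! Stage 1a: pointwise exclusion outside the box `A`. -/

namespace Pool.Agent.MaxTerm8

open Complex ComplexConjugate

private theorem s1a_re (a : GQ) : ((a.re : ℚ) : ℝ) = a.toC.re := rfl

private theorem s1a_im (a : GQ) : ((a.im : ℚ) : ℝ) = a.toC.im := rfl

private theorem s1a_quad {k2 A τ s : ℝ} (hk : 0 < k2) (h : A ^ 2 ≤ 4 * k2 * τ) :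
    -τ ≤ k2 * s ^ 2 - A * s := by
  have h1 : 0 ≤ (2 * k2 * s - A) ^ 2 := sq_nonneg _
  have h2 : 0 ≤ 4 * k2 * (k2 * s ^ 2 - A * s + τ) := by nlinarith
  have h3 : 0 ≤ k2 * s ^ 2 - A * s + τ := by
    by_contra h4
    push Not at h4
    nlinarith [mul_pos_of_neg_of_neg h4 (by linarith : -(4 * k2) < 0)]
  linarith

/-- Put `a = c + d`, `b = c - d`; `‖c‖^2 + ‖d‖^2 = (‖a‖^2+‖b‖^2)/2 ≤ (17/50)^2`,
`‖a^2 u ± b^2 v‖ ≤ 2 R (‖c‖^2+‖d‖^2)`, `R = 17/50`. So the dual inequality of the certificate gives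
`kp ≥ 4 Re (λ0 + λ1 c) - ν - k ‖c‖^2 + k2 ‖d‖^2 - 8 R^3 |σ2| ‖d‖`, `k = 4 R l2 + 927/10000`,
`k2 = 4 σ1 - 4 R l2 - 927/10000`, and `k2 s^2 - 8 R^3 |σ2| s ≥ -tau`. Write `c = c1 + h`, `c1` the centre:
`4 Re (λ1 h) - k (2 Re (conj c1 h) + ‖h‖^2) = Re (al h) - k ‖h‖^2`. -/
theorem cs_sound (B : Bx) (z : CS) (h : CS.chk B z = true) (a b u v : ℂ)
    (hc : B.Mem ((a + b) / 2)) (ha : ‖a‖ ≤ 17 / 50) (hb : ‖b‖ ≤ 17 / 50) (hu : ‖u‖ ≤ 17 / 50)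
    (hv : ‖v‖ ≤ 17 / 50) (hD : DualBound a b u v (kp + 927 / 20000 * (‖a‖ ^ 2 + ‖b‖ ^ 2))) :
    False := by
  -- unpack the checks
  rw [CS.chk, Bool.and_eq_true] at h
  obtain ⟨hs, hm⟩ := h
  simp only [CS.side, Bool.and_eq_true, decide_eq_true_eq] at hs
  obtain ⟨⟨⟨⟨⟨⟨⟨⟨⟨⟨s1, s2⟩, s3⟩, s4⟩, s5⟩, s6⟩, s7⟩, s8⟩, s9⟩, s10⟩, s11⟩ := hs
  simp only [CS.main, decide_eq_true_eq] at hm
  have w0 : (0 : ℝ) ≤ (z.w : ℝ) := by exact_mod_cast s1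
  have w1 : (z.w : ℝ) ≤ 1 := by exact_mod_cast s2
  have x0 : (-1 : ℝ) ≤ (z.x : ℝ) := by exact_mod_cast s3
  have x1 : (z.x : ℝ) ≤ 1 := by exact_mod_cast s4
  have l0 : (0 : ℝ) ≤ (z.l2 : ℝ) := by exact_mod_cast s5
  have t0 : (0 : ℝ) ≤ (z.tau : ℝ) := by exact_mod_cast s6
  set Y0 := z.Y0.toC with hY0
  set Y1 := z.Y1.toC with hY1
  set L0 := lam (z.w : ℝ) (z.x : ℝ) Y0 Y1 0 with hL0
  set L1 := lam (z.w : ℝ) (z.x : ℝ) Y0 Y1 1 with hL1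
  set L2 := lam (z.w : ℝ) (z.x : ℝ) Y0 Y1 2 with hL2
  set ν := nu (z.w : ℝ) (z.x : ℝ) Y0 Y1 with hν
  set σ1 := sg (z.w : ℝ) (z.x : ℝ) 1 with hσ1
  set σ2 := sg (z.w : ℝ) (z.x : ℝ) 2 with hσ2
  have eL0 : (z.lm 0).toC = L0 := lamQ_eq _ _ _ _ _
  have eL1 : (z.lm 1).toC = L1 := lamQ_eq _ _ _ _ _
  have eL2 : (z.lm 2).toC = L2 := lamQ_eq _ _ _ _ _
  have eν : ((nuQ z.w z.x z.Y0 z.Y1 : ℚ) : ℝ) = ν := nuQ_eq _ _ _ _
  have eσ1 : ((sgQ z.w z.x 1 : ℚ) : ℝ) = σ1 := sgQ_eq _ _ _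
  have eσ2 : ((sgQ z.w z.x 2 : ℚ) : ℝ) = σ2 := sgQ_eq _ _ _
  have hl2 : ‖L2‖ ≤ (z.l2 : ℝ) := by
    have h1 : (((z.lm 2).n2 : ℚ) : ℝ) ≤ (z.l2 : ℝ) ^ 2 := by exact_mod_cast s7
    rw [GQ.n2_eq, eL2] at h1
    exact (sq_le_sq₀ (norm_nonneg _) l0).1 h1
  set k : ℝ := 4 * (17 / 50) * (z.l2 : ℝ) + 927 / 10000 with hk
  set k2 : ℝ := 4 * σ1 - 4 * (17 / 50) * (z.l2 : ℝ) - 927 / 10000 with hk2
  have ek : ((z.k : ℚ) : ℝ) = k := by rw [CS.k]; push_cast; ring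
  have ek2 : ((z.k2 : ℚ) : ℝ) = k2 := by rw [CS.k2]; push_cast; rw [eσ1]
  have k0 : 0 ≤ k := by positivity
  have k20 : 0 < k2 := by rw [← ek2]; exact_mod_cast s8
  have hτ : (8 * (17 / 50) ^ 3 * |σ2|) ^ 2 ≤ 4 * k2 * (z.tau : ℝ) := by
    have h1 : (((64 * (17 / 50) ^ 6 * (sgQ z.w z.x 2) ^ 2 : ℚ)) : ℝ) ≤
        ((4 * z.k2 * z.tau : ℚ) : ℝ) := Rat.cast_le.2 s9
    push_cast at h1
    rw [eσ2, ek2] at h1
    have h2 : (8 * (17 / 50 : ℝ) ^ 3 * |σ2|) ^ 2 = 64 * (17 / 50) ^ 6 * σ2 ^ 2 := by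
      rw [mul_pow, sq_abs]; ring
    rw [h2]
    exact h1
  -- the geometry
  set c := (a + b) / 2 with hcdef
  set d := (a - b) / 2 with hddef
  have eac : a = c + d := by rw [hcdef, hddef]; ring
  have ebc : b = c - d := by rw [hcdef, hddef]; ring
  have par : ‖a‖ ^ 2 + ‖b‖ ^ 2 = 2 * (‖c‖ ^ 2 + ‖d‖ ^ 2) := by
    have := parallelogram_law_with_norm ℝ c d
    rw [← eac, ← ebc] at this
    nlinarith
  have eab : a + b = 2 * c := by rw [hcdef]; ring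
  have eamb : a - b = 2 * d := by rw [hddef]; ring
  have na : ‖a ^ 2 * u‖ ≤ 17 / 50 * ‖a‖ ^ 2 := by
    rw [norm_mul, norm_pow]
    nlinarith [sq_nonneg ‖a‖, norm_nonneg u]
  have nb : ‖b ^ 2 * v‖ ≤ 17 / 50 * ‖b‖ ^ 2 := by
    rw [norm_mul, norm_pow]
    nlinarith [sq_nonneg ‖b‖, norm_nonneg v]
  have na2 : ‖a‖ ^ 2 ≤ (17 / 50) ^ 2 := by
    exact pow_le_pow_left₀ (norm_nonneg _) ha 2
  have nb2 : ‖b‖ ^ 2 ≤ (17 / 50) ^ 2 := by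
    exact pow_le_pow_left₀ (norm_nonneg _) hb 2
  have n1 : ‖a ^ 2 * u + b ^ 2 * v‖ ≤ 2 * (17 / 50) * (‖c‖ ^ 2 + ‖d‖ ^ 2) := by
    have := norm_add_le (a ^ 2 * u) (b ^ 2 * v)
    nlinarith
  have n2 : ‖a ^ 2 * u - b ^ 2 * v‖ ≤ 2 * (17 / 50) ^ 3 := by
    have := norm_sub_le (a ^ 2 * u) (b ^ 2 * v)
    nlinarith
  have key := hD (z.w : ℝ) (z.x : ℝ) Y0 Y1 w0 w1 x0 x1
  rw [← hL0, ← hL1, ← hL2, ← hν, ← hσ1, ← hσ2] at key
  have p1 : (L1 * (a + b)).re = 2 * (L1 * c).re := by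
    rw [eab]
    have : L1 * (2 * c) = ((2 : ℝ) : ℂ) * (L1 * c) := by push_cast; ring
    rw [this, Complex.re_ofReal_mul]
  have p2 : -((z.l2 : ℝ) * (2 * (17 / 50) * (‖c‖ ^ 2 + ‖d‖ ^ 2))) ≤
      (L2 * (a ^ 2 * u + b ^ 2 * v)).re := by
    have h1 := Complex.abs_re_le_norm (L2 * (a ^ 2 * u + b ^ 2 * v))
    rw [norm_mul] at h1
    have h2 : ‖L2‖ * ‖a ^ 2 * u + b ^ 2 * v‖ ≤
        (z.l2 : ℝ) * (2 * (17 / 50) * (‖c‖ ^ 2 + ‖d‖ ^ 2)) :=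
      mul_le_mul hl2 n1 (norm_nonneg _) l0
    have h3 := neg_abs_le (L2 * (a ^ 2 * u + b ^ 2 * v)).re
    linarith
  have p3 : ‖a - b‖ ^ 2 = 4 * ‖d‖ ^ 2 := by
    rw [eamb, norm_mul]; norm_num; ring
  have p4 : -(|σ2| * (4 * (17 / 50) ^ 3 * ‖d‖)) ≤
      σ2 * (conj (a - b) * (a ^ 2 * u - b ^ 2 * v)).re := by
    have h1 := Complex.abs_re_le_norm (conj (a - b) * (a ^ 2 * u - b ^ 2 * v))
    rw [norm_mul, Complex.norm_conj, eamb, norm_mul] at h1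
    have h2 : ‖(2 : ℂ)‖ = 2 := by norm_num
    rw [h2] at h1
    have h3 : 2 * ‖d‖ * ‖a ^ 2 * u - b ^ 2 * v‖ ≤ 2 * ‖d‖ * (2 * (17 / 50) ^ 3) :=
      mul_le_mul_of_nonneg_left n2 (by positivity)
    have h4 : |(conj (a - b) * (a ^ 2 * u - b ^ 2 * v)).re| ≤ 4 * (17 / 50) ^ 3 * ‖d‖ := by
      rw [eamb]
      linarith
    have h5 : |σ2 * (conj (a - b) * (a ^ 2 * u - b ^ 2 * v)).re| ≤
        |σ2| * (4 * (17 / 50) ^ 3 * ‖d‖) := by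
      rw [abs_mul]
      exact mul_le_mul_of_nonneg_left h4 (abs_nonneg _)
    have h6 := neg_abs_le (σ2 * (conj (a - b) * (a ^ 2 * u - b ^ 2 * v)).re)
    linarith
  have p5 := s1a_quad (s := ‖d‖) k20 hτ
  have main1 : 4 * L0.re + 4 * (L1 * c).re - ν - k * ‖c‖ ^ 2 - (z.tau : ℝ) ≤ kp := by
    rw [p1, p3, par] at key
    have h1 : k2 * ‖d‖ ^ 2 = 4 * σ1 * ‖d‖ ^ 2 - 4 * (17 / 50) * (z.l2 : ℝ) * ‖d‖ ^ 2
        - 927 / 10000 * ‖d‖ ^ 2 := by rw [hk2]; ring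
    have h2 : k * ‖c‖ ^ 2 = 4 * (17 / 50) * (z.l2 : ℝ) * ‖c‖ ^ 2 + 927 / 10000 * ‖c‖ ^ 2 := by
      rw [hk]; ring
    rw [h2]
    rw [h1] at p5
    nlinarith
  -- Taylor expansion at the centre
  set c1 := B.ct.toC with hc1
  set al := (z.al B.ct).toC with hal
  have eal : al = 4 * L1 - 2 * (k : ℂ) * conj c1 := by
    rw [hal, CS.al, GQ.toC_sub, GQ.toC_sm, GQ.toC_sm, GQ.toC_cj, eL1, ← ek]
    push_cast
    ring
  have hre : |c.re - c1.re| ≤ (B.hx : ℝ) := by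
    have e1 : c1.re = ((B.x1 : ℝ) + B.x2) / 2 := by
      rw [hc1, ← s1a_re, Bx.ct]; push_cast; ring
    have e2 : (B.hx : ℝ) = ((B.x2 : ℝ) - B.x1) / 2 := by rw [Bx.hx]; push_cast; ring
    rw [e1, e2, abs_le]
    constructor <;> linarith [hc.1, hc.2.1]
  have him : |c.im - c1.im| ≤ (B.hy : ℝ) := by
    have e1 : c1.im = ((B.y1 : ℝ) + B.y2) / 2 := by
      rw [hc1, ← s1a_im, Bx.ct]; push_cast; ring
    have e2 : (B.hy : ℝ) = ((B.y2 : ℝ) - B.y1) / 2 := by rw [Bx.hy]; push_cast; ring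
    rw [e1, e2, abs_le]
    constructor <;> linarith [hc.2.2.1, hc.2.2.2]
  have hx0 : (0 : ℝ) ≤ (B.hx : ℝ) := by exact_mod_cast s10
  have hy0 : (0 : ℝ) ≤ (B.hy : ℝ) := by exact_mod_cast s11
  have hm' : (2921266961 / 1000000000 + 1 / 1000000 : ℝ) ≤
      4 * (L0 + L1 * c1).re - ν - k * ‖c1‖ ^ 2 - |al.re| * (B.hx : ℝ) - |al.im| * (B.hy : ℝ) -
        k * ((B.hx : ℝ) ^ 2 + (B.hy : ℝ) ^ 2) - (z.tau : ℝ) := by
    have h1 := (Rat.cast_le (K := ℝ)).2 hm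
    push_cast at h1
    rw [s1a_re, s1a_re, s1a_im, GQ.toC_add, GQ.toC_mul, eL0, eL1, eν, ek, GQ.n2_eq] at h1
    exact h1
  have taylor : 4 * (L1 * c).re - k * ‖c‖ ^ 2 = 4 * (L1 * c1).re - k * ‖c1‖ ^ 2 +
      (al.re * (c.re - c1.re) - al.im * (c.im - c1.im)) -
      k * ((c.re - c1.re) ^ 2 + (c.im - c1.im) ^ 2) := by
    have e1 : al.re = 4 * L1.re - 2 * k * c1.re := by
      rw [eal]; simp
    have e2 : al.im = 4 * L1.im + 2 * k * c1.im := by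
      rw [eal]; simp
    rw [e1, e2, ← Complex.normSq_eq_norm_sq, ← Complex.normSq_eq_norm_sq, Complex.normSq_apply,
      Complex.normSq_apply, Complex.mul_re, Complex.mul_re]
    ring
  have q1 : -(|al.re| * (B.hx : ℝ)) ≤ al.re * (c.re - c1.re) := by
    have h1 := neg_abs_le (al.re * (c.re - c1.re))
    rw [abs_mul] at h1
    have h2 := mul_le_mul_of_nonneg_left hre (abs_nonneg al.re)
    linarith
  have q2 : al.im * (c.im - c1.im) ≤ |al.im| * (B.hy : ℝ) := by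
    have h1 := le_abs_self (al.im * (c.im - c1.im))
    rw [abs_mul] at h1
    have h2 := mul_le_mul_of_nonneg_left him (abs_nonneg al.im)
    linarith
  have q3 : (c.re - c1.re) ^ 2 ≤ (B.hx : ℝ) ^ 2 := by
    rw [← sq_abs]
    exact pow_le_pow_left₀ (abs_nonneg _) hre 2
  have q4 : (c.im - c1.im) ^ 2 ≤ (B.hy : ℝ) ^ 2 := by
    rw [← sq_abs]
    exact pow_le_pow_left₀ (abs_nonneg _) him 2
  have q5 : k * ((c.re - c1.re) ^ 2 + (c.im - c1.im) ^ 2) ≤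
      k * ((B.hx : ℝ) ^ 2 + (B.hy : ℝ) ^ 2) := mul_le_mul_of_nonneg_left (by linarith) k0
  rw [Complex.add_re] at hm'
  rw [kp] at main1
  linarith

/-- `cs_sound`, `outDisc_sound` and `Tr.sound` for the three trees `treeS0, treeS1, treeS2`. -/
theorem stage1a (a b u v : ℂ) (ha : ‖a‖ ≤ 17 / 50) (hb : ‖b‖ ≤ 17 / 50) (hu : ‖u‖ ≤ 17 / 50)
    (hv : ‖v‖ ≤ 17 / 50) (hD : DualBound a b u v (kp + 927 / 20000 * (‖a‖ ^ 2 + ‖b‖ ^ 2)))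
    (him : 0 ≤ ((a + b) / 2).im) : InA ((a + b) / 2) := by
  have hn : ‖(a + b) / 2‖ ≤ 17 / 50 := by
    rw [norm_div]
    have h1 := norm_add_le a b
    have h2 : ‖(2 : ℂ)‖ = 2 := by norm_num
    rw [h2]
    linarith
  have hre := (Complex.abs_re_le_norm ((a + b) / 2)).trans hn
  have him' := (Complex.abs_im_le_norm ((a + b) / 2)).trans hn
  rw [abs_le] at hre him'
  have hex : ∀ (T : Tr CS) (B : Bx), T.check CS.chk outDisc (fun _ => false) B = true →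
      ¬ B.Mem ((a + b) / 2) := by
    intro T B hT hB
    refine Tr.sound CS.chk outDisc (fun _ => false) (fun c => ¬ (c = (a + b) / 2)) ?_ ?_ ?_ T B hT
      ((a + b) / 2) hB rfl
    · intro B' z hz c hc hcc
      rw [hcc] at hc
      exact cs_sound B' z hz a b u v hc ha hb hu hv hD
    · intro B' hB' c hc hcc
      have := outDisc_sound B' hB' c hc
      rw [hcc] at this
      linarith
    · intro B' hB'
      exact absurd hB' (by simp)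
  by_contra hA
  unfold InA at hA
  have h0 := hex treeS0 bxS0 treeS0_ok
  have h1 := hex treeS1 bxS1 treeS1_ok
  have h2 := hex treeS2 bxS2 treeS2_ok
  simp only [Bx.Mem, bxS0, bxS1, bxS2] at h0 h1 h2
  push_cast at h0 h1 h2
  rcases le_total ((a + b) / 2).re (-6 / 25) with h3 | h3
  · refine h0 ⟨by linarith, by linarith, him, by linarith⟩
  · rcases le_total ((a + b) / 2).re (-4 / 25) with h4 | h4
    · rcases le_total ((a + b) / 2).im (1 / 20) with h5 | h5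
      · exact h1 ⟨by linarith, by linarith, him, by linarith⟩
      · exact hA ⟨by linarith, by linarith, by linarith⟩
    · exact h2 ⟨by linarith, by linarith, him, by linarith⟩

end Pool.Agent.MaxTerm8
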