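import Pool.Agent.MaxTerm8.Defs
import Pool.Agent.MaxTerm59.SysDef
import Pool.Agent.MaxTerm59.ClassFn

/-! Step C for the corner systems of an entire function: the coefficients in a matched chain. -/

namespace Pool.Agent.MaxTerm8

open Complex ComplexConjugate Pool.Agent.MaxTerm59

/-- from the corner `K` on all gaps are equal to `g` -/
def Matched {B : ℝ} (S : Sys B) (K g : ℕ) : Prop := ∀ k, K ≤ k → S.N (k + 1) = S.N k + g

/-- the unit coefficients -/
noncomputable def uS {B : ℝ} (S : Sys B) (k : ℕ) : ℂ := S.c k (S.N k)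

/-- the quotient at the vertex `k + 1` -/
noncomputable def psS {B : ℝ} (S : Sys B) (g k : ℕ) : ℂ :=
  ((S.x k ^ g : ℝ) : ℂ) * (uS S (k + 2) * uS S k / uS S (k + 1) ^ 2)

theorem uS_norm {B : ℝ} (S : Sys B) (k : ℕ) : ‖uS S k‖ = 1 := S.unit_l k

private theorem sa_ne {B : ℝ} (S : Sys B) (k : ℕ) : uS S k ≠ 0 := by
  intro h
  have h1 := uS_norm S k
  rw [h, norm_zero] at h1
  exact zero_ne_one h1

private theorem sa_xne {B : ℝ} (S : Sys B) (k : ℕ) : ((S.x k : ℝ) : ℂ) ≠ 0 := by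
  exact_mod_cast (S.x_pos k).ne'

/-- `Sys.rel` at `n = N (k+1)`. -/
theorem uS_right {B : ℝ} (S : Sys B) (k : ℕ) : S.c k (S.N (k + 1)) = uS S (k + 1) := by
  have h := S.rel k (S.N (k + 1))
  rw [sub_self, zpow_zero, mul_one] at h
  unfold uS
  exact h.symm

theorem psS_norm {B : ℝ} (S : Sys B) (g k : ℕ) : ‖psS S g k‖ = S.x k ^ g := by
  unfold psS
  rw [norm_mul, norm_div, norm_mul, norm_pow, uS_norm, uS_norm, uS_norm, Complex.norm_real,
    Real.norm_of_nonneg (pow_nonneg (S.x_pos k).le g)]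
  norm_num

/-- `Sys.rel` at `n = N (k+1) + j g`: `x^(N (k+1) - n) = x^(-j g)`. -/
theorem rel_right {B : ℝ} (S : Sys B) (K g : ℕ) (hS : Matched S K g) (k : ℕ) (hk : K ≤ k) (j : ℕ) :
    S.c k (S.N k + (j + 1) * g) = S.c (k + 1) (S.N (k + 1) + j * g) * ((S.x k ^ g : ℝ) : ℂ) ^ j := by
  have h1 := S.rel k (S.N (k + 1) + j * g)
  have h2 : S.N k + (j + 1) * g = S.N (k + 1) + j * g := by
    rw [hS k hk]
    ring
  have h3 : S.N (k + 1) - (S.N (k + 1) + j * g) = -((j * g : ℕ) : ℤ) := by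
    push_cast
    ring
  rw [h3, zpow_neg, zpow_natCast] at h1
  rw [h2, h1]
  have h4 : ((S.x k ^ g : ℝ) : ℂ) ^ j = ((S.x k : ℝ) : ℂ) ^ (j * g) := by
    push_cast
    rw [← pow_mul, mul_comm g j]
  rw [h4, mul_assoc, inv_mul_cancel₀ (pow_ne_zero _ (sa_xne S k)), mul_one]

theorem rel_left {B : ℝ} (S : Sys B) (K g : ℕ) (hS : Matched S K g) (k : ℕ) (hk : K ≤ k) (j : ℕ) :
    S.c (k + 1) (S.N (k + 1) - (j + 1) * g) = S.c k (S.N k - j * g) *
      ((S.x k ^ g : ℝ) : ℂ) ^ (j + 1) := by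
  have h1 := S.rel k (S.N k - j * g)
  have h2 : S.N (k + 1) - (j + 1) * g = S.N k - j * g := by
    rw [hS k hk]
    ring
  have h3 : S.N (k + 1) - (S.N k - j * g) = (((j + 1) * g : ℕ) : ℤ) := by
    rw [hS k hk]
    push_cast
    ring
  rw [h3, zpow_natCast] at h1
  rw [h2, h1]
  congr 1
  push_cast
  rw [← pow_mul, mul_comm g (j + 1)]

/-- Induction on `j` with `rel_right`:
`c_k (N k + (j+2) g) (u_k/u_{k+1})^(j+2) = [y_k u_k u_{k+2}/u_{k+1}^2]^(j+1) u_k ∏_{i<j} psS(k+1+i)^(j-i)`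
(with `j` replaced by `j+1` in the claim). -/
theorem coef_right {B : ℝ} (S : Sys B) (K g : ℕ) (hS : Matched S K g) (j : ℕ) (k : ℕ)
    (hk : K ≤ k) : S.c k (S.N k + (j + 1) * g) * (uS S k / uS S (k + 1)) ^ (j + 1) =
    uS S k * ∏ i ∈ Finset.range j, psS S g (k + i) ^ (j - i) := by
  induction j generalizing k with
  | zero =>
    have h1 : S.N k + (((0 : ℕ) : ℤ) + 1) * g = S.N (k + 1) := by
      rw [hS k hk]
      push_cast
      ring
    rw [h1, uS_right, Finset.prod_range_zero, zero_add, pow_one, mul_one,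
      mul_div_cancel₀ _ (sa_ne S (k + 1))]
  | succ j ih =>
    have h1 := rel_right S K g hS k hk (j + 1)
    have h2 := ih (k + 1) (by omega)
    rw [Finset.prod_range_succ', h1]
    have h3 : ∏ i ∈ Finset.range j, psS S g (k + (i + 1)) ^ (j + 1 - (i + 1)) =
        ∏ i ∈ Finset.range j, psS S g (k + 1 + i) ^ (j - i) := by
      refine Finset.prod_congr rfl fun i _ => ?_
      rw [show k + (i + 1) = k + 1 + i by omega, Nat.add_sub_add_right]
    rw [h3, Nat.sub_zero, show k + 0 = k from rfl]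
    have a0 := sa_ne S k
    have a1 := sa_ne S (k + 1)
    have a2 := sa_ne S (k + 1 + 1)
    obtain ⟨P, hP⟩ : ∃ P, P = ∏ i ∈ Finset.range j, psS S g (k + 1 + i) ^ (j - i) := ⟨_, rfl⟩
    rw [← hP] at h2 ⊢
    have h4 : ((j + 1 : ℕ) : ℤ) = (j : ℤ) + 1 := by push_cast; rfl
    rw [h4]
    obtain ⟨C, hC⟩ : ∃ C, C = S.c (k + 1) (S.N (k + 1) + ((j : ℤ) + 1) * g) := ⟨_, rfl⟩
    rw [← hC] at h2 ⊢
    have h5 : C = uS S (k + 1) * P * (uS S (k + 1 + 1) / uS S (k + 1)) ^ (j + 1) := by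
      rw [← h2, mul_assoc, ← mul_pow]
      have : uS S (k + 1) / uS S (k + 1 + 1) * (uS S (k + 1 + 1) / uS S (k + 1)) = 1 := by
        field_simp
      rw [this, one_pow, mul_one]
    rw [h5]
    have h6 : psS S g k = ((S.x k ^ g : ℝ) : ℂ) *
      (uS S (k + 1 + 1) * uS S k / uS S (k + 1) ^ 2) := rfl
    rw [h6]
    generalize ((S.x k ^ g : ℝ) : ℂ) = y
    generalize uS S k = u0 at *
    generalize uS S (k + 1) = u1 at *
    generalize uS S (k + 1 + 1) = u2 at *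
    have h7 : (u2 / u1) ^ (j + 1) * y ^ (j + 1) * (u0 / u1) ^ (j + 1) =
        (y * (u2 * u0 / u1 ^ 2)) ^ (j + 1) := by
      rw [← mul_pow, ← mul_pow]
      congr 1
      field_simp
    calc u1 * P * (u2 / u1) ^ (j + 1) * y ^ (j + 1) * (u0 / u1) ^ (j + 1 + 1) =
          u1 * P * ((u2 / u1) ^ (j + 1) * y ^ (j + 1) * (u0 / u1) ^ (j + 1)) * (u0 / u1) := by ring
      _ = u0 * (P * (y * (u2 * u0 / u1 ^ 2)) ^ (j + 1)) := by
          rw [h7]
          field_simp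

/-- Induction on `j` with `rel_left`. -/
theorem coef_left {B : ℝ} (S : Sys B) (K g : ℕ) (hS : Matched S K g) (j : ℕ) (k : ℕ)
    (hk : K + j ≤ k) : S.c k (S.N k - j * g) * (uS S (k + 1) / uS S k) ^ j =
    uS S k * ∏ i ∈ Finset.range j, psS S g (k - 1 - i) ^ (j - i) := by
  induction j generalizing k with
  | zero =>
    have h1 : S.N k - (((0 : ℕ) : ℤ)) * g = S.N k := by
      push_cast
      ring
    rw [h1, Finset.prod_range_zero, pow_zero, mul_one, mul_one]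
    rfl
  | succ j ih =>
    obtain ⟨m, rfl⟩ : ∃ m, k = m + 1 := ⟨k - 1, by omega⟩
    have h1 := rel_left S K g hS m (by omega) j
    have h2 := ih m (by omega)
    have h0 : ((j + 1 : ℕ) : ℤ) = (j : ℤ) + 1 := by push_cast; rfl
    rw [Finset.prod_range_succ', h0, h1]
    have h3 : ∏ i ∈ Finset.range j, psS S g (m + 1 - 1 - (i + 1)) ^ (j + 1 - (i + 1)) =
        ∏ i ∈ Finset.range j, psS S g (m - 1 - i) ^ (j - i) := by
      refine Finset.prod_congr rfl fun i _ => ?_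
      rw [show m + 1 - 1 - (i + 1) = m - 1 - i by omega, Nat.add_sub_add_right]
    rw [h3, Nat.sub_zero, Nat.sub_zero, Nat.add_sub_cancel]
    have a0 := sa_ne S m
    have a1 := sa_ne S (m + 1)
    have a2 := sa_ne S (m + 1 + 1)
    obtain ⟨P, hP⟩ : ∃ P, P = ∏ i ∈ Finset.range j, psS S g (m - 1 - i) ^ (j - i) := ⟨_, rfl⟩
    rw [← hP] at h2 ⊢
    obtain ⟨C, hC⟩ : ∃ C, C = S.c m (S.N m - (j : ℤ) * g) := ⟨_, rfl⟩
    rw [← hC] at h2 ⊢
    have h5 : C = uS S m * P * (uS S m / uS S (m + 1)) ^ j := by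
      rw [← h2, mul_assoc, ← mul_pow]
      have : uS S (m + 1) / uS S m * (uS S m / uS S (m + 1)) = 1 := by
        field_simp
      rw [this, one_pow, mul_one]
    rw [h5]
    have h6 : psS S g m = ((S.x m ^ g : ℝ) : ℂ) *
      (uS S (m + 1 + 1) * uS S m / uS S (m + 1) ^ 2) := rfl
    rw [h6]
    generalize ((S.x m ^ g : ℝ) : ℂ) = y
    generalize uS S m = u0 at *
    generalize uS S (m + 1) = u1 at *
    generalize uS S (m + 1 + 1) = u2 at *
    have h7 : (u0 / u1) ^ (j + 1) * y ^ (j + 1) * (u2 / u1) ^ (j + 1) =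
        (y * (u2 * u0 / u1 ^ 2)) ^ (j + 1) := by
      rw [← mul_pow, ← mul_pow]
      congr 1
      field_simp
    have h8 : u0 * (u0 / u1) ^ j = u1 * (u0 / u1) ^ (j + 1) := by
      rw [pow_succ]
      field_simp
    calc u0 * P * (u0 / u1) ^ j * y ^ (j + 1) * (u2 / u1) ^ (j + 1) =
          (u0 * (u0 / u1) ^ j) * P * (y ^ (j + 1) * (u2 / u1) ^ (j + 1)) := by ring
      _ = u1 * P * ((u0 / u1) ^ (j + 1) * y ^ (j + 1) * (u2 / u1) ^ (j + 1)) := by
          rw [h8]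
          ring
      _ = u1 * (P * (y * (u2 * u0 / u1 ^ 2)) ^ (j + 1)) := by
          rw [h7]
          ring

private theorem sa_split (c : ℤ → ℂ) (N : ℤ) (g : ℕ) (z : ℂ)
    (h3 : Summable fun i : ℤ => c (N + i * g) * z ^ i) :
    ∑' j : ℕ, (c (N + (j + 1) * g) * z ^ (j + 1) + c (N - j * g) * (z⁻¹) ^ j) = cls c g N z := by
  have h4 : Summable fun i : ℤ => c (N + (-i) * g) * z ^ (-i) :=
    h3.comp_injective neg_injective
  have h5 : cls c g N z = ∑' i : ℤ, c (N + (-i) * g) * z ^ (-i) := by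
    unfold cls
    exact ((Equiv.neg ℤ).tsum_eq (fun i : ℤ => c (N + i * g) * z ^ i)).symm
  have i2 : Function.Injective (fun j : ℕ => -((j : ℤ) + 1)) := by
    intro a b hab
    have h := hab
    simp only [neg_inj, add_left_inj, Nat.cast_inj] at h
    exact h
  have s1 : Summable fun j : ℕ => c (N + (-(j : ℤ)) * g) * z ^ (-(j : ℤ)) :=
    h4.comp_injective Nat.cast_injective
  have s2 : Summable fun j : ℕ => c (N + (-(-((j : ℤ) + 1))) * g) *
      z ^ (-(-((j : ℤ) + 1))) := h4.comp_injective i2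
  have h6 := tsum_of_nat_of_neg_add_one (f := fun i : ℤ => c (N + (-i) * g) * z ^ (-i)) s1 s2
  rw [h5, h6, add_comm, ← s2.tsum_add s1]
  refine tsum_congr fun j => ?_
  have e1 : z ^ (-(-((j : ℤ) + 1))) = z ^ (j + 1) := by
    rw [neg_neg]
    exact_mod_cast zpow_natCast z (j + 1)
  have e2 : N + (-(-((j : ℤ) + 1))) * g = N + (j + 1) * g := by ring
  have e3 : N + (-(j : ℤ)) * g = N - j * g := by ring
  have e4 : z ^ (-(j : ℤ)) = (z⁻¹) ^ j := by rw [zpow_neg, zpow_natCast, inv_pow]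
  rw [e1, e2, e3, e4]

/-- `cls_bound` for `cls (c k) g (N k)`; split the sum over `ℤ` into `i ≥ 1` and `i ≤ 0`. -/
theorem cls_split {B : ℝ} (S : Sys B) (g : ℕ) (hg : 0 < g) (k : ℕ) (z : ℂ) (hz : ‖z‖ = 1) :
    ‖∑' j : ℕ, (S.c k (S.N k + (j + 1) * g) * z ^ (j + 1) + S.c k (S.N k - j * g) * (z⁻¹) ^ j)‖ ≤
      B := by
  rw [sa_split (S.c k) (S.N k) g z (cls_summable (S.c k) (S.summ k) g hg (S.N k) z hz).of_norm]
  exact cls_bound (S.c k) (S.summ k) B (S.bound k) g hg (S.N k) z hz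

/-- For `n ≤ N K` and `k > K`: `‖c k n‖ = ‖c K n‖ ∏_{K ≤ i < k} x_i^(N (i+1) - n)`, the last factor is at
most `(x_{k-1}^g)^(k-K) ≤ (1/2)^(k-K)`. -/
theorem coef_far {B : ℝ} (S : Sys B) (K g : ℕ) (hS : Matched S K g)
    (hy : ∀ k, K ≤ k → S.x k ^ g ≤ 1 / 2) (k : ℕ) (hk : K < k) (n : ℤ) (hn : n ≤ S.N K) :
    ‖S.c k n‖ ≤ ‖S.c K n‖ * (1 / 2) ^ (k - K) := by
  have hmono : ∀ m, S.N K ≤ S.N (K + m) := by
    intro m
    induction m with
    | zero => exact le_rfl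
    | succ m ih => exact ih.trans (S.Nlt (K + m)).le
  obtain ⟨m, rfl⟩ : ∃ m, k = K + m := ⟨k - K, by omega⟩
  clear hk
  rw [Nat.add_sub_cancel_left]
  induction m with
  | zero => simp
  | succ m ih =>
    have h1 := S.rel (K + m) n
    have h2 := hmono m
    have h3 := hS (K + m) (by omega)
    obtain ⟨e, he⟩ : ∃ e : ℕ, S.N (K + m + 1) - n = ((g + e : ℕ) : ℤ) :=
      ⟨(S.N (K + m + 1) - n - g).toNat, by push_cast; omega⟩
    rw [he, zpow_natCast] at h1
    rw [show K + (m + 1) = K + m + 1 by omega, h1, norm_mul, norm_pow, Complex.norm_real,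
      Real.norm_of_nonneg (S.x_pos _).le, pow_add, pow_succ (1 / 2 : ℝ) m]
    have h4 := hy (K + m) (by omega)
    have h5 : S.x (K + m) ^ e ≤ 1 := pow_le_one₀ (S.x_pos _).le (S.x_lt _).le
    have h6 : S.x (K + m) ^ g * S.x (K + m) ^ e ≤ 1 / 2 * 1 :=
      mul_le_mul h4 h5 (pow_nonneg (S.x_pos _).le _) (by norm_num)
    calc ‖S.c (K + m) n‖ * (S.x (K + m) ^ g * S.x (K + m) ^ e) ≤
          (‖S.c K n‖ * (1 / 2) ^ m) * (1 / 2 * 1) :=
          mul_le_mul ih h6 (mul_nonneg (pow_nonneg (S.x_pos _).le _)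
            (pow_nonneg (S.x_pos _).le _)) (by positivity)
      _ = _ := by ring

end Pool.Agent.MaxTerm8
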