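import Pool.Agent.MaxTerm8.SysA

/-! The shifted sequences of quotients of a matched chain. -/

namespace Pool.Agent.MaxTerm8

open Complex ComplexConjugate Pool.Agent.MaxTerm59

/-- the sequence of quotients seen from the corner `n`: `Ψ_n(m)` is the quotient at the vertex `n + m`
(`0` to the left of the matched chain) -/
noncomputable def Psi {B : ℝ} (S : Sys B) (K g n : ℕ) (m : ℤ) : ℂ :=
  if (K : ℤ) + 1 ≤ n + m then psS S g (n + m - 1).toNat else 0

private theorem sysB_psi_add {B : ℝ} (S : Sys B) (K g n : ℕ) (m r : ℤ) (h : 0 ≤ (n : ℤ) + m) :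
    Psi S K g n (m + r) = Psi S K g ((n : ℤ) + m).toNat r := by
  unfold Psi
  have e : ((((n : ℤ) + m).toNat : ℕ) : ℤ) = (n : ℤ) + m := Int.toNat_of_nonneg h
  rw [e]
  have e2 : (n : ℤ) + (m + r) = (n : ℤ) + m + r := by ring
  rw [e2]

/-- With `z = e^{2it} u_k/u_{k+1}`: `FF (Psi k) 0 t = conj (u_k e^{it}) * (∑' j, c_k (N k + (j+1) g) z^(j+1) +
∑_{j ≤ k-K} c_k (N k - j g) z^(-j))` by `coef_right`, `coef_left`; for `j > k - K` the product
`TL (Psi k) 0 j` contains `Psi k (K - k) = 0`. The missing terms `j > k - K` of `cls_split` are at most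
`(∑ ‖c K n‖) (1/2)^(k-K)` (`coef_far`). -/
theorem psi_bound_zero {B : ℝ} (S : Sys B) (K g : ℕ) (hg : 0 < g) (hS : Matched S K g)
    (hy : ∀ k, K ≤ k → S.x k ^ g ≤ 1 / 2) (k : ℕ) (hk : K < k) (t : ℝ) :
    ‖FF (Psi S K g k) 0 t‖ ≤ B + (∑' n : ℤ, ‖S.c K n‖) * (1 / 2) ^ (k - K) := by
  have hu : ∀ k, uS S k ≠ 0 := by
    intro k h
    have := uS_norm S k
    rw [h, norm_zero] at this
    exact zero_ne_one this
  obtain ⟨z, hz⟩ : ∃ z : ℂ, z = exp (2 * t * I) * (uS S k / uS S (k + 1)) := ⟨_, rfl⟩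
  have hexp : ∀ a : ℝ, ‖exp (a * I)‖ = 1 := fun a => Complex.norm_exp_ofReal_mul_I a
  have hz1 : ‖z‖ = 1 := by
    have h1 := hexp (2 * t)
    push_cast at h1
    rw [hz, norm_mul, norm_div, uS_norm, uS_norm, h1]
    norm_num
  have hzinv : z⁻¹ = exp (-(2 * t * I)) * (uS S (k + 1) / uS S k) := by
    rw [hz, mul_inv, inv_div, ← Complex.exp_neg]
  obtain ⟨w, hw⟩ : ∃ w : ℂ, w = uS S k * exp (t * I) := ⟨_, rfl⟩
  have hw1 : ‖w‖ = 1 := by
    rw [hw, norm_mul, uS_norm, hexp, one_mul]
  -- the two sequences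
  have hg0 : (g : ℤ) ≠ 0 := by exact_mod_cast hg.ne'
  have hinjL : Function.Injective fun j : ℕ => S.N k - j * g := by
    intro a b h
    have h1 : (a : ℤ) * g = b * g := by
      have h2 : S.N k - a * g = S.N k - b * g := h
      linarith
    exact_mod_cast mul_right_cancel₀ hg0 h1
  have hinjR : Function.Injective fun j : ℕ => S.N k + (j + 1) * g := by
    intro a b h
    have h1 : ((a : ℤ) + 1) * g = (b + 1) * g := by
      have h2 : S.N k + (a + 1) * g = S.N k + (b + 1) * g := h
      linarith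
    have h3 := mul_right_cancel₀ hg0 h1
    have h4 : (a : ℤ) = b := by linarith
    exact_mod_cast h4
  have hsL : Summable fun j : ℕ => ‖S.c k (S.N k - j * g)‖ := (S.summ k).comp_injective hinjL
  have hsR : Summable fun j : ℕ => ‖S.c k (S.N k + (j + 1) * g)‖ :=
    (S.summ k).comp_injective hinjR
  have hLt : Summable fun j : ℕ => S.c k (S.N k - j * g) * (z⁻¹) ^ j := by
    apply Summable.of_norm
    refine hsL.congr fun j => ?_
    rw [norm_mul, norm_pow, norm_inv, hz1, inv_one, one_pow, mul_one]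
  have hRt : Summable fun j : ℕ => S.c k (S.N k + (j + 1) * g) * z ^ (j + 1) := by
    apply Summable.of_norm
    refine hsR.congr fun j => ?_
    rw [norm_mul, norm_pow, hz1, one_pow, mul_one]
  obtain ⟨f, hf⟩ : ∃ f : ℕ → ℂ, f = fun j : ℕ =>
      S.c k (S.N k + (j + 1) * g) * z ^ (j + 1) + S.c k (S.N k - j * g) * (z⁻¹) ^ j := ⟨_, rfl⟩
  obtain ⟨e, he⟩ : ∃ e : ℕ → ℂ, e = fun j : ℕ =>
      if k - K < j then S.c k (S.N k - j * g) * (z⁻¹) ^ j else 0 := ⟨_, rfl⟩
  have hfs : Summable f := by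
    rw [hf]
    exact hRt.add hLt
  have hNk : S.N k = S.N K + (k - K : ℕ) * g := by
    have h1 : ∀ d : ℕ, S.N (K + d) = S.N K + d * g := by
      intro d
      induction d with
      | zero => simp
      | succ d ih =>
        have h2 := hS (K + d) (by omega)
        rw [← add_assoc, h2, ih]
        push_cast
        ring
    have h2 := h1 (k - K)
    have h3 : K + (k - K) = k := by omega
    rw [h3] at h2
    exact h2
  have hen : ∀ j, ‖e j‖ ≤ ‖S.c K (S.N k - j * g)‖ * (1 / 2) ^ (k - K) := by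
    intro j
    rw [he]
    simp only
    split_ifs with hj
    · rw [norm_mul, norm_pow, norm_inv, hz1, inv_one, one_pow, mul_one]
      refine coef_far S K g hS hy k hk _ ?_
      rw [hNk]
      have h1 : ((k - K : ℕ) : ℤ) * g ≤ (j : ℤ) * g := by
        apply mul_le_mul_of_nonneg_right _ (by positivity)
        exact_mod_cast hj.le
      linarith
    · rw [norm_zero]
      positivity
  have hsK : Summable fun j : ℕ => ‖S.c K (S.N k - j * g)‖ := (S.summ K).comp_injective hinjL
  have hes' : Summable fun j => ‖e j‖ :=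
    Summable.of_nonneg_of_le (fun j => norm_nonneg _) hen (hsK.mul_right _)
  have hes : Summable e := hes'.of_norm
  have hR : ∀ j : ℕ, S.c k (S.N k + (j + 1) * g) * z ^ (j + 1) =
      w * (TR (Psi S K g k) 0 j * exp ((2 * (j : ℂ) + 1) * t * I)) := by
    intro j
    have h1 := coef_right S K g hS j k hk.le
    have h2 : TR (Psi S K g k) 0 j = ∏ i ∈ Finset.range j, psS S g (k + i) ^ (j - i) := by
      unfold TR
      refine Finset.prod_congr rfl fun i _ => ?_
      congr 1
      unfold Psi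
      rw [if_pos (by omega)]
      congr 1
      omega
    rw [hz, mul_pow, h2, hw]
    have h3 : exp (2 * t * I) ^ (j + 1) = exp (t * I) * exp ((2 * (j : ℂ) + 1) * t * I) := by
      rw [← Complex.exp_nat_mul, ← Complex.exp_add]
      congr 1
      push_cast
      ring
    rw [h3]
    calc S.c k (S.N k + (j + 1) * g) * (exp (t * I) * exp ((2 * (j : ℂ) + 1) * t * I) *
          (uS S k / uS S (k + 1)) ^ (j + 1)) =
          (S.c k (S.N k + (j + 1) * g) * (uS S k / uS S (k + 1)) ^ (j + 1)) *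
          (exp (t * I) * exp ((2 * (j : ℂ) + 1) * t * I)) := by ring
      _ = _ := by
          rw [h1]
          ring
  have hL : ∀ j : ℕ, S.c k (S.N k - j * g) * (z⁻¹) ^ j - e j =
      w * (TL (Psi S K g k) 0 j * exp (-((2 * (j : ℂ) + 1) * t * I))) := by
    intro j
    rw [he]
    simp only
    split_ifs with hj
    · have h0 : TL (Psi S K g k) 0 j = 0 := by
        unfold TL
        refine Finset.prod_eq_zero (i := k - K) (Finset.mem_range.mpr hj) ?_
        have h1 : Psi S K g k (0 - ((k - K : ℕ) : ℤ)) = 0 := by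
          unfold Psi
          rw [if_neg (by omega)]
        rw [h1]
        exact zero_pow (by omega)
      rw [h0]
      ring
    · have h1 := coef_left S K g hS j k (by omega)
      have h2 : TL (Psi S K g k) 0 j =
          ∏ i ∈ Finset.range j, psS S g (k - 1 - i) ^ (j - i) := by
        unfold TL
        refine Finset.prod_congr rfl fun i hi => ?_
        rw [Finset.mem_range] at hi
        congr 1
        unfold Psi
        rw [if_pos (by omega)]
        congr 1
        omega
      rw [hzinv, mul_pow, h2, hw, sub_zero]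
      have h3 : exp (-(2 * t * I)) ^ j = exp (t * I) * exp (-((2 * (j : ℂ) + 1) * t * I)) := by
        rw [← Complex.exp_nat_mul, ← Complex.exp_add]
        congr 1
        ring
      rw [h3]
      calc S.c k (S.N k - j * g) * (exp (t * I) * exp (-((2 * (j : ℂ) + 1) * t * I)) *
            (uS S (k + 1) / uS S k) ^ j) =
            (S.c k (S.N k - j * g) * (uS S (k + 1) / uS S k) ^ j) *
            (exp (t * I) * exp (-((2 * (j : ℂ) + 1) * t * I))) := by ring
        _ = _ := by
            rw [h1]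
            ring
  have hterm : ∀ j, f j - e j = w * FT (Psi S K g k) 0 t j := by
    intro j
    have h1 := hR j
    have h2 := hL j
    rw [hf]
    simp only
    unfold FT
    rw [mul_add, ← h1, ← h2]
    ring
  have hFF : w * FF (Psi S K g k) 0 t = ∑' j, f j - ∑' j, e j := by
    unfold FF
    rw [← tsum_mul_left, ← hfs.tsum_sub hes]
    exact tsum_congr fun j => (hterm j).symm
  have hB : ‖∑' j, f j‖ ≤ B := by
    rw [hf]
    exact cls_split S g hg k z hz1
  have hE : ‖∑' j, e j‖ ≤ (∑' n : ℤ, ‖S.c K n‖) * (1 / 2) ^ (k - K) := by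
    refine (norm_tsum_le_tsum_norm hes').trans ?_
    refine (hes'.tsum_le_tsum hen (hsK.mul_right _)).trans ?_
    rw [tsum_mul_right]
    apply mul_le_mul_of_nonneg_right _ (by positivity)
    exact tsum_comp_le_tsum_of_inj (S.summ K) (fun n => norm_nonneg _) hinjL
  calc ‖FF (Psi S K g k) 0 t‖ = ‖w * FF (Psi S K g k) 0 t‖ := by rw [norm_mul, hw1, one_mul]
    _ = ‖∑' j, f j - ∑' j, e j‖ := by rw [hFF]
    _ ≤ ‖∑' j, f j‖ + ‖∑' j, e j‖ := norm_sub_le _ _
    _ ≤ _ := add_le_add hB hE

/-- `FF (Psi n) m t = FF (Psi (n+m)) 0 t`. -/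
theorem psi_shift {B : ℝ} (S : Sys B) (K g n : ℕ) (m : ℤ) (h : 0 ≤ (n : ℤ) + m) (t : ℝ) :
    FF (Psi S K g n) m t = FF (Psi S K g ((n : ℤ) + m).toNat) 0 t := by
  unfold FF
  refine tsum_congr fun j => ?_
  have h1 : TL (Psi S K g n) m j = TL (Psi S K g ((n : ℤ) + m).toNat) 0 j := by
    unfold TL
    refine Finset.prod_congr rfl fun i _ => ?_
    rw [← sysB_psi_add S K g n m (0 - i) h]
    congr 2
    ring
  have h2 : TR (Psi S K g n) m j = TR (Psi S K g ((n : ℤ) + m).toNat) 0 j := by
    unfold TR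
    refine Finset.prod_congr rfl fun i _ => ?_
    rw [← sysB_psi_add S K g n m (0 + 1 + i) h]
    congr 2
    ring
  unfold FT
  rw [h1, h2]

/-- `‖Psi n m‖ ≤ 1/2`. -/
theorem psi_le {B : ℝ} (S : Sys B) (K g : ℕ) (hy : ∀ k, K ≤ k → S.x k ^ g ≤ 1 / 2) (n : ℕ) (m : ℤ) :
    ‖Psi S K g n m‖ ≤ 1 / 2 := by
  unfold Psi
  split_ifs with h
  · rw [psS_norm]
    exact hy _ (by omega)
  · rw [norm_zero]
    norm_num

end Pool.Agent.MaxTerm8
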