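import Pool.Agent.MaxTerm8.SysB
import Pool.Agent.MaxTerm8.Compact
import Pool.Agent.MaxTerm8.Final

/-! Step C for the corner systems of an entire function. -/

namespace Pool.Agent.MaxTerm8

open Complex ComplexConjugate Filter Pool.Agent.MaxTerm59

/-- **Step C for corner systems.** If all gaps are eventually equal and `limsup x_k^g ≤ 17/50`, then
`κ ≤ B^2`. Enlarge `K` such that `x_k^g ≤ 1/2` for `k ≥ K`; apply `exists_limit` to `Psi S K g n`; the
limit `ψ` satisfies `‖ψ m‖ ≤ 17/50` (`psS_norm`, the hypothesis) and, by `psi_shift`, `psi_bound_zero`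
and `ff_tendsto`, `‖FF ψ k t‖ ≤ B`; `stepC` with `M = B^2`. -/
theorem stepC_sys {B : ℝ} (S : Sys B) (K g : ℕ) (hg : 0 < g)
    (hS : ∀ k, K ≤ k → S.N (k + 1) = S.N k + g)
    (hY : ∀ ε : ℝ, 0 < ε → ∃ K' : ℕ, ∀ k, K' ≤ k → S.x k ^ g ≤ 17 / 50 + ε) (κ : ℝ)
    (hκ : ∀ q : ℂ, ‖q‖ ≤ 17 / 50 → ∃ t : ℝ, κ ≤ ‖Th q t‖ ^ 2) : κ ≤ B ^ 2 := by
  obtain ⟨K', hK'⟩ := hY (4 / 25) (by norm_num)
  set L := max K K' with hL
  have hSL : Matched S L g := fun k hk => hS k ((le_max_left K K').trans hk)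
  have hy : ∀ k, L ≤ k → S.x k ^ g ≤ 1 / 2 := fun k hk =>
    (hK' k ((le_max_right K K').trans hk)).trans (by norm_num)
  obtain ⟨ψ, φ, hφ, hlim⟩ := exists_limit (fun n => Psi S L g n)
    (fun n m => psi_le S L g hy n m)
  have hφt : Tendsto φ atTop atTop := hφ.tendsto_atTop
  -- the limit is bounded by `17/50`
  have hψ : ∀ m, ‖ψ m‖ ≤ 17 / 50 := by
    intro m
    refine le_of_forall_pos_le_add fun ε hε => ?_
    obtain ⟨K'', hK''⟩ := hY ε hε
    refine le_of_tendsto (hlim m).norm ?_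
    filter_upwards [hφt.eventually_ge_atTop (K'' + (-m).toNat + 1)] with n hn
    show ‖Psi S L g (φ n) m‖ ≤ 17 / 50 + ε
    unfold Psi
    split_ifs with h
    · rw [psS_norm]
      refine hK'' _ ?_
      omega
    · rw [norm_zero]; positivity
  -- the functions at the corners
  have hFF : ∀ (k : ℤ) (t : ℝ), ‖FF ψ k t‖ ≤ B := by
    intro k t
    have h1 := (ff_tendsto (fun n => Psi S L g (φ n)) (fun n m => psi_le S L g hy (φ n) m) ψ hlim
      k t).norm
    set C : ℝ := ∑' n : ℤ, ‖S.c L n‖ with hC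
    have h2 : Tendsto (fun n : ℕ => B + C * (1 / 2 : ℝ) ^ (((φ n : ℤ) + k).toNat - L)) atTop
        (nhds (B + C * 0)) := by
      refine tendsto_const_nhds.add (tendsto_const_nhds.mul ?_)
      refine (tendsto_pow_atTop_nhds_zero_of_lt_one (by norm_num) (by norm_num)).comp ?_
      refine tendsto_atTop.2 fun b => ?_
      filter_upwards [hφt.eventually_ge_atTop (b + L + (-k).toNat)] with n hn
      omega
    rw [mul_zero, add_zero] at h2
    refine le_of_tendsto_of_tendsto h1 h2 ?_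
    filter_upwards [hφt.eventually_ge_atTop (L + 1 + (-k).toNat)] with n hn
    show ‖FF (Psi S L g (φ n)) k t‖ ≤ _
    rw [psi_shift S L g (φ n) k (by omega) t]
    exact psi_bound_zero S L g hg hSL hy _ (by omega) t
  exact stepC κ hκ ψ hψ (B ^ 2) fun k t => pow_le_pow_left₀ (norm_nonneg _) (hFF k t) 2

end Pool.Agent.MaxTerm8
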