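import Pool.Agent.MaxTerm8.ExactK
import Pool.Agent.MaxTerm59.SysDef

/-! The theta function as a system of corners. -/

namespace Pool.Agent.MaxTerm8

open Complex ComplexConjugate Filter Pool.Agent.MaxTerm59

/-- coefficients at the corner `k` -/
noncomputable def ctheta (q : ℂ) (k : ℕ) (n : ℤ) : ℂ :=
  q ^ (n * (n - 1) / 2) * ((‖q‖ : ℝ) : ℂ) ^ ((k : ℤ) * (k + 1) / 2 - k * n)

private theorem st_two (n : ℤ) : 2 * (n * (n - 1) / 2) = n * (n - 1) :=
  Int.mul_ediv_cancel' (Int.even_mul_pred_self n).two_dvd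

private theorem st_two' (n : ℤ) : 2 * (n * (n + 1) / 2) = n * (n + 1) :=
  Int.mul_ediv_cancel' (Int.even_mul_succ_self n).two_dvd

private theorem st_nonneg (m : ℤ) : |m| - 1 ≤ m * (m - 1) / 2 := by
  have h := st_two m
  rcases le_or_gt m 0 with hm | hm
  · rw [abs_of_nonpos hm]
    nlinarith [sq_nonneg (2 * m + 1)]
  · rw [abs_of_pos hm]
    rcases eq_or_lt_of_le (show (1 : ℤ) ≤ m by omega) with h1 | h1
    · subst h1
      norm_num
    · nlinarith [mul_nonneg (show (0 : ℤ) ≤ m - 1 by omega) (show (0 : ℤ) ≤ m - 2 by omega)]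

private theorem st_nonneg' (m : ℤ) : 0 ≤ m * (m - 1) / 2 := by
  have h := st_two m
  rcases le_or_gt m 0 with hm | hm
  · nlinarith [mul_nonneg (show (0 : ℤ) ≤ -m by omega) (show (0 : ℤ) ≤ 1 - m by omega)]
  · nlinarith [mul_nonneg (show (0 : ℤ) ≤ m by omega) (show (0 : ℤ) ≤ m - 1 by omega)]

/-- `‖c k (k + m)‖ = ‖q‖ ^ (m (m-1) / 2)` -/
theorem ctheta_norm (q : ℂ) (h0 : q ≠ 0) (k : ℕ) (m : ℤ) :
    ‖ctheta q k (k + m)‖ = ‖q‖ ^ (m * (m - 1) / 2) := by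
  have hq : ‖q‖ ≠ 0 := norm_ne_zero_iff.2 h0
  unfold ctheta
  rw [norm_mul, norm_zpow, norm_zpow, Complex.norm_real, Real.norm_eq_abs,
    abs_of_nonneg (norm_nonneg q), ← zpow_add₀ hq]
  congr 1
  have h1 := st_two ((k : ℤ) + m)
  have h2 := st_two' (k : ℤ)
  have h3 := st_two m
  linarith [show ((k : ℤ) + m) * ((k : ℤ) + m - 1) + (k : ℤ) * (k + 1) - 2 * (k * (k + m)) =
    m * (m - 1) by ring]

/-- Factorisation of the terms. -/
private theorem st_factor (q : ℂ) (h0 : q ≠ 0) (k : ℕ) (z : ℂ) (hz : z ≠ 0) (m : ℤ) :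
    ctheta q k (k + m) * z ^ ((k : ℤ) + m) =
      (q ^ ((k : ℤ) * (k - 1) / 2) * ((‖q‖ : ℝ) : ℂ) ^ ((k : ℤ) * (k + 1) / 2 - k * k) *
        z ^ (k : ℤ)) * (q ^ (m * (m - 1) / 2) *
          (q ^ (k : ℤ) * ((‖q‖ : ℝ) : ℂ) ^ (-(k : ℤ)) * z) ^ m) := by
  have hq : ((‖q‖ : ℝ) : ℂ) ≠ 0 := by
    rw [Complex.ofReal_ne_zero]
    exact norm_ne_zero_iff.2 h0
  unfold ctheta
  rw [mul_zpow, mul_zpow, ← zpow_mul, ← zpow_mul, zpow_add₀ hz]
  have e1 : ((k : ℤ) + m) * ((k : ℤ) + m - 1) / 2 =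
      (k : ℤ) * (k - 1) / 2 + m * (m - 1) / 2 + k * m := by
    have h1 := st_two ((k : ℤ) + m)
    have h2 := st_two (k : ℤ)
    have h3 := st_two m
    linarith [show ((k : ℤ) + m) * ((k : ℤ) + m - 1) = (k : ℤ) * (k - 1) + m * (m - 1) +
      2 * (k * m) by ring]
  have e2 : (k : ℤ) * (k + 1) / 2 - k * (k + m) = ((k : ℤ) * (k + 1) / 2 - k * k) + -(k : ℤ) * m := by
    ring
  rw [e1, e2, zpow_add₀ h0, zpow_add₀ h0, zpow_add₀ hq]
  ring

theorem ctheta_summ (q : ℂ) (h0 : q ≠ 0) (h1 : ‖q‖ < 1) (k : ℕ) : Summable fun n => ‖ctheta q k n‖ := by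
  have hq : 0 < ‖q‖ := norm_pos_iff.2 h0
  rw [← (Equiv.addLeft (k : ℤ)).summable_iff]
  have e : (fun n => ‖ctheta q k n‖) ∘ (Equiv.addLeft (k : ℤ)) =
      fun m : ℤ => ‖q‖ ^ (m * (m - 1) / 2) := by
    funext m
    exact ctheta_norm q h0 k m
  rw [e]
  have hb : ∀ m : ℤ, ‖q‖ ^ (m * (m - 1) / 2) ≤ ‖q‖ ^ (|m| - 1) := fun m =>
    zpow_le_zpow_right_of_le_one₀ hq h1.le (st_nonneg m)
  have hs : Summable fun m : ℤ => ‖q‖ ^ (|m| - 1) := by
    have hg : Summable fun n : ℕ => ‖q‖ ^ n := summable_geometric_of_lt_one hq.le h1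
    refine Summable.of_nat_of_neg_add_one ?_ ?_
    · refine (hg.mul_left ‖q‖⁻¹).congr fun n => ?_
      rw [abs_of_nonneg (by positivity), zpow_sub₀ hq.ne', zpow_one, zpow_natCast]
      field_simp
    · refine hg.congr fun n => ?_
      have : |(-((n : ℤ) + 1))| - 1 = (n : ℤ) := by
        rw [abs_neg, abs_of_nonneg (by positivity)]
        ring
      rw [this, zpow_natCast]
  exact Summable.of_nonneg_of_le (fun m => (zpow_pos hq _).le) hb hs

/-- `∑ c k (k+m) z^(k+m)` equals a unit times `∑ q^(m(m-1)/2) w^m` with `w = (q / ‖q‖)^k z`; and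
`∑_m q^(m(m-1)/2) w^m = w^(1/2)·Th q t` for `w = e^{2 i t}` (pair `m = j + 1` and `m = -j`:
`q^(j(j+1)/2) (w^(j+1) + w^(-j)) = w^(1/2) 2 q^(tri j) cos ((2j+1) t)`). -/
theorem ctheta_bound (q : ℂ) (h0 : q ≠ 0) (h1 : ‖q‖ < 1) (k : ℕ) (z : ℂ) (hz : ‖z‖ = 1) :
    ‖∑' n : ℤ, ctheta q k n * z ^ n‖ ≤ Kq q := by
  have hq : ‖q‖ ≠ 0 := norm_ne_zero_iff.2 h0
  have hq' : ((‖q‖ : ℝ) : ℂ) ≠ 0 := by
    rw [Complex.ofReal_ne_zero]
    exact hq
  have hz0 : z ≠ 0 := by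
    intro h
    rw [h, norm_zero] at hz
    exact zero_ne_one hz
  obtain ⟨U, hU⟩ : ∃ U : ℂ, U = q ^ ((k : ℤ) * (k - 1) / 2) *
      ((‖q‖ : ℝ) : ℂ) ^ ((k : ℤ) * (k + 1) / 2 - k * k) * z ^ (k : ℤ) := ⟨_, rfl⟩
  obtain ⟨W, hW⟩ : ∃ W : ℂ, W = q ^ (k : ℤ) * ((‖q‖ : ℝ) : ℂ) ^ (-(k : ℤ)) * z := ⟨_, rfl⟩
  have hU1 : ‖U‖ = 1 := by
    rw [hU, norm_mul, norm_mul, norm_zpow, norm_zpow, norm_zpow, Complex.norm_real,
      Real.norm_eq_abs, abs_of_nonneg (norm_nonneg q), hz, one_zpow, mul_one, ← zpow_add₀ hq]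
    have e : (k : ℤ) * (k - 1) / 2 + ((k : ℤ) * (k + 1) / 2 - k * k) = 0 := by
      have h1 := st_two (k : ℤ)
      have h2 := st_two' (k : ℤ)
      linarith [show (k : ℤ) * (k - 1) + (k : ℤ) * (k + 1) = 2 * (k * k) by ring]
    rw [e, zpow_zero]
  have hW1 : ‖W‖ = 1 := by
    rw [hW, norm_mul, norm_mul, norm_zpow, norm_zpow, Complex.norm_real,
      Real.norm_eq_abs, abs_of_nonneg (norm_nonneg q), hz, mul_one, ← zpow_add₀ hq,
      add_neg_cancel, zpow_zero]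
  obtain ⟨t, ht⟩ : ∃ t : ℝ, exp (2 * t * I) = W := by
    refine ⟨W.arg / 2, ?_⟩
    have h := Complex.norm_mul_exp_arg_mul_I W
    rw [hW1, Complex.ofReal_one, one_mul] at h
    refine Eq.trans ?_ h
    congr 1
    push_cast
    ring
  have hterm : ∀ m : ℤ, ctheta q k (k + m) * z ^ ((k : ℤ) + m) =
      U * (q ^ (m * (m - 1) / 2) * exp (2 * m * t * I)) := by
    intro m
    rw [st_factor q h0 k z hz0 m, ← hU, ← hW, ← ht, ← Complex.exp_int_mul]
    congr 3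
    ring
  -- the shift by `k + 1`
  have hsum : Summable fun n : ℤ => ctheta q k n * z ^ n := by
    refine Summable.of_norm ?_
    refine (ctheta_summ q h0 h1 k).congr fun n => ?_
    rw [norm_mul, norm_zpow, hz, one_zpow, mul_one]
  have hg : Summable fun m : ℤ => ctheta q k ((k + 1 : ℤ) + m) * z ^ ((k + 1 : ℤ) + m) :=
    hsum.comp_injective (add_right_injective (k + 1 : ℤ))
  have htri : ∀ j : ℕ, ((tri j : ℕ) : ℤ) = ((j : ℤ) + 1) * ((j : ℤ) + 1 - 1) / 2 := by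
    intro j
    unfold tri
    push_cast
    congr 1
    ring
  have hpos : ∀ j : ℕ, ctheta q k ((k + 1 : ℤ) + (j : ℤ)) * z ^ ((k + 1 : ℤ) + (j : ℤ)) =
      U * (q ^ tri j * exp (2 * ((j : ℂ) + 1) * t * I)) := by
    intro j
    have e : (k + 1 : ℤ) + (j : ℤ) = (k : ℤ) + ((j : ℤ) + 1) := by ring
    rw [e, hterm, ← htri, zpow_natCast]
    push_cast
    rfl
  have hneg : ∀ j : ℕ, ctheta q k ((k + 1 : ℤ) + -((j : ℤ) + 1)) *
      z ^ ((k + 1 : ℤ) + -((j : ℤ) + 1)) = U * (q ^ tri j * exp (-(2 * (j : ℂ) * t * I))) := by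
    intro j
    have e : (k + 1 : ℤ) + -((j : ℤ) + 1) = (k : ℤ) + (-(j : ℤ)) := by ring
    have e2 : -(j : ℤ) * (-(j : ℤ) - 1) = ((j : ℤ) + 1) * ((j : ℤ) + 1 - 1) := by ring
    rw [e, hterm, e2, ← htri, zpow_natCast]
    congr 3
    push_cast
    ring
  have hinj : Function.Injective fun j : ℕ => -((j : ℤ) + 1) := by
    intro i j hij
    have : -((i : ℤ) + 1) = -((j : ℤ) + 1) := hij
    omega
  have hs1 : Summable fun j : ℕ => U * (q ^ tri j * exp (2 * ((j : ℂ) + 1) * t * I)) :=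
    (hg.comp_injective Nat.cast_injective).congr fun j => hpos j
  have hs2 : Summable fun j : ℕ => U * (q ^ tri j * exp (-(2 * (j : ℂ) * t * I))) :=
    (hg.comp_injective hinj).congr fun j => hneg j
  have hS : HasSum (fun m : ℤ => ctheta q k ((k + 1 : ℤ) + m) * z ^ ((k + 1 : ℤ) + m))
      ((∑' j : ℕ, U * (q ^ tri j * exp (2 * ((j : ℂ) + 1) * t * I))) +
        ∑' j : ℕ, U * (q ^ tri j * exp (-(2 * (j : ℂ) * t * I)))) := by
    refine HasSum.of_nat_of_neg_add_one ?_ ?_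
    · simp only [hpos]
      exact hs1.hasSum
    · simp only [hneg]
      exact hs2.hasSum
  have hTs : ∀ j : ℕ, U * (q ^ tri j * exp (2 * ((j : ℂ) + 1) * t * I)) +
      U * (q ^ tri j * exp (-(2 * (j : ℂ) * t * I))) = (U * exp (t * I)) * ThT q t j := by
    intro j
    have e1 : exp (2 * ((j : ℂ) + 1) * t * I) = exp (t * I) * exp ((2 * (j : ℂ) + 1) * t * I) := by
      rw [← Complex.exp_add]
      congr 1
      ring
    have e2 : exp (-(2 * (j : ℂ) * t * I)) = exp (t * I) * exp (-((2 * (j : ℂ) + 1) * t) * I) := by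
      rw [← Complex.exp_add]
      congr 1
      ring
    have e3 : 2 * (((Real.cos ((2 * (j : ℝ) + 1) * t) : ℝ)) : ℂ) =
        exp ((2 * (j : ℂ) + 1) * t * I) + exp (-((2 * (j : ℂ) + 1) * t) * I) := by
      rw [Complex.ofReal_cos, Complex.two_cos]
      push_cast
      rfl
    unfold ThT
    rw [e1, e2, mul_right_comm 2, e3]
    ring
  have hval : ∑' n : ℤ, ctheta q k n * z ^ n = (U * exp (t * I)) * Th q t := by
    rw [← (Equiv.addLeft (k + 1 : ℤ)).tsum_eq]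
    have e1 : ∑' m : ℤ, ctheta q k ((Equiv.addLeft (k + 1 : ℤ)) m) *
        z ^ ((Equiv.addLeft (k + 1 : ℤ)) m) =
          (∑' j : ℕ, U * (q ^ tri j * exp (2 * ((j : ℂ) + 1) * t * I))) +
            ∑' j : ℕ, U * (q ^ tri j * exp (-(2 * (j : ℂ) * t * I))) := hS.tsum_eq
    rw [e1, ← hs1.tsum_add hs2, Th, ← tsum_mul_left]
    exact tsum_congr hTs
  rw [hval, norm_mul, norm_mul, hU1, Complex.norm_exp_ofReal_mul_I, one_mul, one_mul]
  exact le_ciSup (th_cont q h1).2 t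

theorem ctheta_rel (q : ℂ) (h0 : q ≠ 0) (k : ℕ) (n : ℤ) :
    ctheta q (k+1) n = ctheta q k n * ((‖q‖ : ℝ) : ℂ) ^ (((k+1 : ℕ) : ℤ) - n) := by
  have hq : ((‖q‖ : ℝ) : ℂ) ≠ 0 := by
    rw [Complex.ofReal_ne_zero]
    exact norm_ne_zero_iff.2 h0
  unfold ctheta
  rw [mul_assoc, ← zpow_add₀ hq]
  congr 2
  have h1 := st_two' (k : ℤ)
  have h2 := st_two' ((k + 1 : ℕ) : ℤ)
  push_cast at h2 ⊢
  linarith [show ((k : ℤ) + 1) * (k + 1 + 1) = (k : ℤ) * (k + 1) + 2 * (k + 1) by ring]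

/-- the system of the theta function: `N k = k`, `x k = ‖q‖` -/
theorem exists_thetaSys (q : ℂ) (h0 : q ≠ 0) (h1 : ‖q‖ < 1) :
    ∃ S : Sys (Kq q), (∀ k, S.N k = k) ∧ ∀ k, S.x k = ‖q‖ := by
  have hq : 0 < ‖q‖ := norm_pos_iff.2 h0
  refine ⟨{ N := fun k => (k : ℤ)
            x := fun _ => ‖q‖
            c := ctheta q
            Nlt := fun k => by push_cast; omega
            x_pos := fun _ => hq
            x_lt := fun _ => h1
            summ := ctheta_summ q h0 h1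
            le_one := fun k n => ?_
            unit_l := fun k => ?_
            unit_r := fun k => ?_
            rel := fun k n => ctheta_rel q h0 k n
            bound := fun k z hz => ctheta_bound q h0 h1 k z hz }, fun _ => rfl, fun _ => rfl⟩
  · have e : n = (k : ℤ) + (n - k) := by ring
    rw [e, ctheta_norm q h0]
    obtain ⟨p, hp⟩ := Int.eq_ofNat_of_zero_le (st_nonneg' (n - k))
    rw [hp, zpow_natCast]
    exact pow_le_one₀ hq.le h1.le
  · have h := ctheta_norm q h0 k 0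
    rw [add_zero] at h
    rw [h]
    norm_num
  · have h := ctheta_norm q h0 k 1
    have e : ((k + 1 : ℕ) : ℤ) = (k : ℤ) + 1 := by push_cast; rfl
    rw [e, h]
    norm_num

end Pool.Agent.MaxTerm8
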