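import Pool.Agent.MaxTerm59.Parseval
import Pool.Agent.MaxTerm59.ClassFn

/-! Compressions of the multiplication operator by a bounded Laurent series. -/

namespace Pool.Agent.MaxTerm8

open Complex ComplexConjugate Pool.Agent.MaxTerm59

open MeasureTheory AddCircle in
private theorem toep_aux (c : ℤ → ℂ) (hs : Summable fun n => ‖c n‖) (B : ℝ)
    (hB : ∀ z : ℂ, ‖z‖ = 1 → ‖∑' n : ℤ, c n * z ^ n‖ ≤ B) {n : ℕ} (e : Fin n → ℤ)
    (he : Function.Injective e) (g h : Fin n → ℂ) :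
    ‖∑ p, ∑ q, g p * h q * c (e p - e q)‖ ≤
      B * (Real.sqrt (∑ p, ‖g p‖ ^ 2) * Real.sqrt (∑ q, ‖h q‖ ^ 2)) := by
  have hT : Fact ((0 : ℝ) < 1) := ⟨one_pos⟩
  have hB0 : 0 ≤ B := (norm_nonneg _).trans (hB 1 (by simp))
  have hsum : Summable (fun n => c n • (fourier n : C(AddCircle (1 : ℝ), ℂ))) := by
    refine Summable.of_norm ?_
    simp_rw [norm_smul, fourier_norm, mul_one]
    exact hs
  set F : C(AddCircle (1 : ℝ), ℂ) := ∑' n, c n • fourier n with hF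
  have hFB : ∀ t, ‖F t‖ ≤ B := by
    intro t
    have h1 : F t = ∑' n : ℤ, c n * ((toCircle t : Circle) : ℂ) ^ n := by
      have h2 := (ContinuousMap.evalCLM ℂ t).hasSum hsum.hasSum
      have h3 := h2.tsum_eq
      have h4 : (ContinuousMap.evalCLM ℂ t) (∑' n, c n • fourier n) = F t := rfl
      rw [h4] at h3
      rw [← h3]
      refine tsum_congr fun n => ?_
      show c n * (fourier n t : ℂ) = _
      rw [fourier_apply, toCircle_zsmul, Circle.coe_zpow]
    rw [h1]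
    exact hB _ (Circle.norm_coe _)
  set TL : C(AddCircle (1 : ℝ), ℂ) →L[ℂ] Lp ℂ 2 (@haarAddCircle (1 : ℝ) hT) :=
    ContinuousMap.toLp (E := ℂ) 2 haarAddCircle ℂ with hTL
  have horth := orthonormal_fourier (T := (1 : ℝ)) (hT := hT)
  have horthe := horth.comp e he
  -- the function `H`
  set H : C(AddCircle (1 : ℝ), ℂ) := ∑ q, h q • fourier (e q) with hH
  have hTH : TL H = ∑ q, h q • (@fourierLp (1 : ℝ) hT 2 _ (e q)) := by
    rw [hH, map_sum]
    refine Finset.sum_congr rfl fun q _ => ?_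
    rw [map_smul]
  have hnormsq : ∀ a : Fin n → ℂ, ‖∑ q, a q • (@fourierLp (1 : ℝ) hT 2 _ (e q))‖ =
      Real.sqrt (∑ q, ‖a q‖ ^ 2) := by
    intro a
    have h1 := horthe.inner_sum a a Finset.univ
    have h2 : (inner ℂ (∑ q, a q • (@fourierLp (1 : ℝ) hT 2 _ (e q)))
        (∑ q, a q • (@fourierLp (1 : ℝ) hT 2 _ (e q))) : ℂ) = ((∑ q, ‖a q‖ ^ 2 : ℝ) : ℂ) := by
      refine h1.trans ?_
      push_cast
      refine Finset.sum_congr rfl fun q _ => ?_
      rw [← Complex.normSq_eq_conj_mul_self, Complex.normSq_eq_norm_sq]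
      push_cast
      rfl
    rw [inner_self_eq_norm_sq_to_K] at h2
    have h3 : ‖∑ q, a q • (@fourierLp (1 : ℝ) hT 2 _ (e q))‖ ^ 2 = ∑ q, ‖a q‖ ^ 2 := by
      refine Complex.ofReal_injective ?_
      rw [Complex.ofReal_pow]
      exact h2
    rw [← h3, Real.sqrt_sq (norm_nonneg _)]
  have hFH : ‖TL (F * H)‖ ≤ B * ‖TL H‖ := by
    refine Lp.norm_le_mul_norm_of_ae_le_mul ?_
    filter_upwards [ContinuousMap.coeFn_toLp (p := 2) (𝕜 := ℂ) (@haarAddCircle (1 : ℝ) hT) (F * H),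
      ContinuousMap.coeFn_toLp (p := 2) (𝕜 := ℂ) (@haarAddCircle (1 : ℝ) hT) H] with x h1 h2
    rw [hTL, h1, h2, ContinuousMap.mul_apply, norm_mul]
    exact mul_le_mul_of_nonneg_right (hFB x) (norm_nonneg _)
  have hinner : ∀ m : ℤ, ∀ q : Fin n,
      inner ℂ (@fourierLp (1 : ℝ) hT 2 _ m) (TL (F * fourier (e q))) = c (m - e q) := by
    intro m q
    have h0 : HasSum (fun k : ℤ => c k • (fourier (k + e q) : C(AddCircle (1 : ℝ), ℂ)))
        (F * fourier (e q)) := by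
      have h1 := hsum.hasSum.mul_right (fourier (e q) : C(AddCircle (1 : ℝ), ℂ))
      have h2 : (fun k : ℤ => c k • (fourier (k + e q) : C(AddCircle (1 : ℝ), ℂ))) =
          fun k : ℤ => c k • (fourier k : C(AddCircle (1 : ℝ), ℂ)) * fourier (e q) := by
        funext k
        ext t
        simp only [ContinuousMap.smul_apply, ContinuousMap.mul_apply, fourier_add, smul_eq_mul,
          mul_assoc]
      rw [h2]
      exact h1
    have h1 := TL.hasSum h0
    have h2 := (innerSL ℂ (@fourierLp (1 : ℝ) hT 2 _ m)).hasSum h1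
    have h3 : HasSum (fun k => if k = m - e q then c (m - e q) else 0) (c (m - e q)) :=
      hasSum_ite_eq (m - e q) (c (m - e q))
    refine h2.unique ?_
    have h5 : (fun k : ℤ => (innerSL ℂ (@fourierLp (1 : ℝ) hT 2 _ m))
        (TL (c k • fourier (k + e q)))) = fun k => if k = m - e q then c (m - e q) else 0 := by
      funext k
      rw [map_smul, map_smul, innerSL_apply_apply, smul_eq_mul]
      have h4 : inner ℂ (@fourierLp (1 : ℝ) hT 2 _ m) (TL (fourier (k + e q))) =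
          if m = k + e q then 1 else 0 := (orthonormal_iff_ite.1 horth) m (k + e q)
      rw [h4]
      by_cases hk : k = m - e q
      · have hk2 : m = k + e q := by omega
        rw [if_pos hk2, if_pos hk, mul_one, hk]
      · have hk2 : ¬ m = k + e q := by omega
        rw [if_neg hk2, if_neg hk, mul_zero]
    rw [h5]
    exact h3
  have hinnerH : ∀ m : ℤ, inner ℂ (@fourierLp (1 : ℝ) hT 2 _ m) (TL (F * H)) =
      ∑ q, h q * c (m - e q) := by
    intro m
    have h1 : F * H = ∑ q, h q • (F * fourier (e q)) := by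
      rw [hH, Finset.mul_sum]
      exact Finset.sum_congr rfl fun q _ => mul_smul_comm _ _ _
    rw [h1, map_sum, inner_sum]
    refine Finset.sum_congr rfl fun q _ => ?_
    rw [map_smul, inner_smul_right, hinner]
  have hkey : inner ℂ (∑ p, conj (g p) • (@fourierLp (1 : ℝ) hT 2 _ (e p))) (TL (F * H)) =
      ∑ p, ∑ q, g p * h q * c (e p - e q) := by
    rw [sum_inner]
    refine Finset.sum_congr rfl fun p _ => ?_
    rw [inner_smul_left, hinnerH, Finset.mul_sum, Complex.conj_conj]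
    exact Finset.sum_congr rfl fun q _ => by ring
  rw [← hkey]
  refine (norm_inner_le_norm _ _).trans ?_
  have h1 := hnormsq (fun p => conj (g p))
  have h2 := hnormsq h
  simp only [RCLike.norm_conj] at h1
  rw [h1]
  rw [← hTH] at h2
  rw [h2] at hFH
  have h3 := mul_le_mul_of_nonneg_left hFH (Real.sqrt_nonneg (∑ p, ‖g p‖ ^ 2))
  calc Real.sqrt (∑ p, ‖g p‖ ^ 2) * ‖TL (F * H)‖
      ≤ Real.sqrt (∑ p, ‖g p‖ ^ 2) * (B * Real.sqrt (∑ q, ‖h q‖ ^ 2)) := h3
    _ = _ := by ring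

/-- `H(w) = ∑ h q w^(e q)`: the coefficients of `f H` at `e p` are `∑ h q c (e p - e q)`;
`∑_p |(fH)_(e p)|^2 ≤ ∫ |f H|^2 ≤ B^2 ∫ |H|^2 = B^2 ∑ |h q|^2` (Parseval on `AddCircle`, see the proof of
`parseval_le`); then Cauchy-Schwarz with `g`. -/
theorem toep (c : ℤ → ℂ) (hs : Summable fun n => ‖c n‖) (B : ℝ)
    (hB : ∀ z : ℂ, ‖z‖ = 1 → ‖∑' n : ℤ, c n * z ^ n‖ ≤ B) {n : ℕ} (e : Fin n → ℤ)
    (he : Function.Injective e) (g h : Fin n → ℂ) :
    ‖∑ p, ∑ q, g p * h q * c (e p - e q)‖ ≤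
      B * (Real.sqrt (∑ p, ‖g p‖ ^ 2) * Real.sqrt (∑ q, ‖h q‖ ^ 2)) :=
  toep_aux c hs B hB e he g h

theorem toep_avg (c : ℤ → ℂ) (hs : Summable fun n => ‖c n‖) (B : ℝ)
    (hB : ∀ z : ℂ, ‖z‖ = 1 → ‖∑' n : ℤ, c n * z ^ n‖ ≤ B) {n : ℕ} (e : Fin n → ℤ)
    (he : Function.Injective e) (g h : Fin n → ℂ) :
    ‖∑ p, ∑ q, g p * h q * c (e p - e q)‖ ≤
      B * (((∑ p, ‖g p‖ ^ 2) + ∑ q, ‖h q‖ ^ 2) / 2) := by
  have hB0 : 0 ≤ B := (norm_nonneg _).trans (hB 1 (by simp))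
  refine (toep c hs B hB e he g h).trans (mul_le_mul_of_nonneg_left ?_ hB0)
  have hx : 0 ≤ ∑ p, ‖g p‖ ^ 2 := Finset.sum_nonneg fun _ _ => sq_nonneg _
  have hy : 0 ≤ ∑ q, ‖h q‖ ^ 2 := Finset.sum_nonneg fun _ _ => sq_nonneg _
  have h1 := Real.sq_sqrt hx
  have h2 := Real.sq_sqrt hy
  nlinarith [sq_nonneg (Real.sqrt (∑ p, ‖g p‖ ^ 2) - Real.sqrt (∑ q, ‖h q‖ ^ 2))]

end Pool.Agent.MaxTerm8
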