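import Pool.Agent.MaxTerm8.WdDef
import Pool.Agent.MaxTerm59.Parseval

/-! Basic facts about windows. -/

namespace Pool.Agent.MaxTerm8
open Pool.Agent.MaxTerm59
namespace Wd
variable {B : ℝ} {n : ℕ}

theorem G_pos (W : Wd B n) (i : ℤ) (h1 : -(n:ℤ) - 1 ≤ i) (h2 : i ≤ n) : 0 < W.G i := by
  have := W.Nlt i h1 h2
  unfold G
  omega

theorem N_succ (W : Wd B n) (i : ℤ) (h1 : -(n:ℤ) - 1 ≤ i) (h2 : i ≤ n) :
    W.N (i+1) = W.N i + (W.G i : ℤ) := by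
  have := W.Nlt i h1 h2
  unfold G
  omega

/-- right of the vertex `i` the corner `i-1` is smaller than the corner `i` -/
theorem eq_r (W : Wd B n) (i : ℤ) (h1 : -(n:ℤ) ≤ i) (h2 : i ≤ n) (m : ℕ) :
    W.c (i-1) (W.N i + m) = W.c i (W.N i + m) * ((W.X i : ℝ) : ℂ) ^ m := by
  have hX := W.X_pos i h1 h2
  have hXC : ((W.X i : ℝ) : ℂ) ≠ 0 := by exact_mod_cast hX.ne'
  rw [W.rel i h1 h2 (W.N i + m), mul_assoc, ← zpow_natCast, ← zpow_add₀ hXC,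
    show W.N i - (W.N i + (m:ℤ)) + m = 0 by ring, zpow_zero, mul_one]

/-- left of the vertex `i` the corner `i` is smaller than the corner `i-1` -/
theorem eq_l (W : Wd B n) (i : ℤ) (h1 : -(n:ℤ) ≤ i) (h2 : i ≤ n) (m : ℕ) :
    W.c i (W.N i - m) = W.c (i-1) (W.N i - m) * ((W.X i : ℝ) : ℂ) ^ m := by
  rw [W.rel i h1 h2 (W.N i - m), show W.N i - (W.N i - (m:ℤ)) = m by ring, zpow_natCast]

theorem norm_r (W : Wd B n) (i : ℤ) (h1 : -(n:ℤ) ≤ i) (h2 : i ≤ n) (m : ℕ) :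
    ‖W.c (i-1) (W.N i + m)‖ = ‖W.c i (W.N i + m)‖ * W.X i ^ m := by
  rw [W.eq_r i h1 h2 m, norm_mul, norm_pow, Complex.norm_real, Real.norm_eq_abs,
    abs_of_pos (W.X_pos i h1 h2)]

theorem norm_l (W : Wd B n) (i : ℤ) (h1 : -(n:ℤ) ≤ i) (h2 : i ≤ n) (m : ℕ) :
    ‖W.c i (W.N i - m)‖ = ‖W.c (i-1) (W.N i - m)‖ * W.X i ^ m := by
  rw [W.eq_l i h1 h2 m, norm_mul, norm_pow, Complex.norm_real, Real.norm_eq_abs,
    abs_of_pos (W.X_pos i h1 h2)]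

theorem size_r (W : Wd B n) (i : ℤ) (h1 : -(n:ℤ) ≤ i) (h2 : i ≤ n) (m : ℕ) :
    ‖W.c (i-1) (W.N i + m)‖ ≤ W.X i ^ m := by
  rw [W.norm_r i h1 h2 m]
  have h := W.le_one i (by omega) h2 (W.N i + m)
  have hX := pow_pos (W.X_pos i h1 h2) m
  nlinarith

theorem size_l (W : Wd B n) (i : ℤ) (h1 : -(n:ℤ) ≤ i) (h2 : i ≤ n) (m : ℕ) :
    ‖W.c i (W.N i - m)‖ ≤ W.X i ^ m := by
  rw [W.norm_l i h1 h2 m]
  have h := W.le_one (i-1) (by omega) (by omega) (W.N i - m)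
  have hX := pow_pos (W.X_pos i h1 h2) m
  nlinarith

/-- the coefficient of the next vertex on the right -/
theorem next_r (W : Wd B n) (i : ℤ) (h1 : -(n:ℤ) ≤ i) (h2 : i ≤ n) :
    ‖W.c (i-1) (W.N (i+1))‖ = W.X i ^ W.G i := by
  have h := W.norm_r i h1 h2 (W.G i)
  rw [← W.N_succ i (by omega) h2, W.unit_r i (by omega) h2, one_mul] at h
  exact h

/-- the coefficient of the next vertex on the left -/
theorem next_l (W : Wd B n) (i : ℤ) (h1 : -(n:ℤ) ≤ i) (h2 : i ≤ n) :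
    ‖W.c i (W.N (i-1))‖ = W.X i ^ W.G (i-1) := by
  have h := W.norm_l i h1 h2 (W.G (i-1))
  have h3 := W.N_succ (i-1) (by omega) (by omega)
  rw [sub_add_cancel] at h3
  rw [show W.N i - (W.G (i-1) : ℤ) = W.N (i-1) by omega, W.unit_l (i-1) (by omega) (by omega), one_mul] at h
  exact h

theorem Y_pos (W : Wd B n) (i : ℤ) (h1 : -(n:ℤ) ≤ i) (h2 : i ≤ n) : 0 < W.Y i :=
  pow_pos (W.X_pos i h1 h2) _

theorem Y_lt (W : Wd B n) (i : ℤ) (h1 : -(n:ℤ) ≤ i) (h2 : i ≤ n) : W.Y i < 1 := by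
  refine pow_lt_one₀ (W.X_pos i h1 h2).le (W.X_lt i h1 h2) ?_
  have := W.G_pos (i-1) (by omega) (by omega)
  have := W.G_pos i (by omega) (by omega)
  omega

/-- powers of `X` with large exponents are below `Y` -/
theorem pow_le_Y (W : Wd B n) (i : ℤ) (h1 : -(n:ℤ) ≤ i) (h2 : i ≤ n) (m : ℕ)
    (hm : min (W.G (i-1)) (W.G i) ≤ m) : W.X i ^ m ≤ W.Y i :=
  pow_le_pow_of_le_one (W.X_pos i h1 h2).le (W.X_lt i h1 h2).le hm

theorem pow_l_le_Y (W : Wd B n) (i : ℤ) (h1 : -(n:ℤ) ≤ i) (h2 : i ≤ n) :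
    W.X i ^ W.G (i-1) ≤ W.Y i := W.pow_le_Y i h1 h2 _ (min_le_left _ _)

theorem pow_r_le_Y (W : Wd B n) (i : ℤ) (h1 : -(n:ℤ) ≤ i) (h2 : i ≤ n) :
    W.X i ^ W.G i ≤ W.Y i := W.pow_le_Y i h1 h2 _ (min_le_right _ _)

/-- Parseval -/
theorem parseval (W : Wd B n) (i : ℤ) (h1 : -(n:ℤ) - 1 ≤ i) (h2 : i ≤ n) (S : Finset ℤ) :
    ∑ m ∈ S, ‖W.c i m‖ ^ 2 ≤ B ^ 2 :=
  parseval_le (W.c i) (W.summ i h1 h2) B (W.bound i h1 h2) S

/-- the ball at the corner `i`: all coefficients except the two units -/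
theorem ball (W : Wd B n) (i : ℤ) (h1 : -(n:ℤ) - 1 ≤ i) (h2 : i ≤ n) (S : Finset ℤ)
    (h3 : W.N i ∉ S) (h4 : W.N (i+1) ∉ S) : ∑ m ∈ S, ‖W.c i m‖ ^ 2 ≤ B ^ 2 - 2 := by
  have h5 := W.parseval i h1 h2 (insert (W.N i) (insert (W.N (i+1)) S))
  have h6 : W.N i ∉ insert (W.N (i+1)) S := by
    simp only [Finset.mem_insert, not_or]
    exact ⟨(W.Nlt i h1 h2).ne, h3⟩
  rw [Finset.sum_insert h6, Finset.sum_insert h4, W.unit_l i h1 h2, W.unit_r i h1 h2] at h5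
  linarith

/-- the ball at the corner `i`, with the previous vertex: `c i (N (i-1)) = X i ^ G (i-1)` -/
theorem ball_l (W : Wd B n) (i : ℤ) (h1 : -(n:ℤ) ≤ i) (h2 : i ≤ n) (S : Finset ℤ)
    (h3 : W.N i ∉ S) (h4 : W.N (i+1) ∉ S) (h5 : W.N (i-1) ∉ S) :
    ∑ m ∈ S, ‖W.c i m‖ ^ 2 ≤ B ^ 2 - 2 - (W.X i ^ W.G (i-1)) ^ 2 := by
  have h8 := W.Nlt i (by omega) h2
  have h9 := W.Nlt (i-1) (by omega) (by omega)
  rw [sub_add_cancel] at h9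
  have h6 := W.ball i (by omega) h2 (insert (W.N (i-1)) S)
    (by simp only [Finset.mem_insert, not_or]; exact ⟨by omega, h3⟩)
    (by simp only [Finset.mem_insert, not_or]; exact ⟨by omega, h4⟩)
  rw [Finset.sum_insert h5, W.next_l i h1 h2] at h6
  linarith

/-- the ball at the corner `i-1`, with the vertex after the next: `c (i-1) (N (i+1)) = X i ^ G i` -/
theorem ball_r (W : Wd B n) (i : ℤ) (h1 : -(n:ℤ) ≤ i) (h2 : i ≤ n) (S : Finset ℤ)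
    (h3 : W.N i ∉ S) (h4 : W.N (i+1) ∉ S) (h5 : W.N (i-1) ∉ S) :
    ∑ m ∈ S, ‖W.c (i-1) m‖ ^ 2 ≤ B ^ 2 - 2 - (W.X i ^ W.G i) ^ 2 := by
  have h8 := W.Nlt i (by omega) h2
  have h9 := W.Nlt (i-1) (by omega) (by omega)
  rw [sub_add_cancel] at h9
  have h6 := W.ball (i-1) (by omega) (by omega) (insert (W.N (i+1)) S)
    (by simp only [Finset.mem_insert, not_or]; exact ⟨by omega, h5⟩)
    (by rw [sub_add_cancel]; simp only [Finset.mem_insert, not_or]; exact ⟨by omega, h3⟩)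
  rw [Finset.sum_insert h4, W.next_r i h1 h2] at h6
  linarith

end Wd
end Pool.Agent.MaxTerm8
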