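import Pool.Agent.MaxTerm59.SysDef

namespace Pool.Agent.MaxTerm8
open Pool.Agent.MaxTerm59

/-- A window of `2n+2` consecutive corners, indexed two-sidedly. Vertices are `i = -n-1, …, n+1`
(`N i` is the exponent of the vertex `i`), corner `i` (`-n-1 ≤ i ≤ n`) lies between the vertices `i`
and `i+1` and `c i` is its normalised coefficient sequence (absolute exponents); `X i` (`-n ≤ i ≤ n`)
is the quotient of the radii of the corners `i-1` and `i`. -/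
structure Wd (B : ℝ) (n : ℕ) where
  N : ℤ → ℤ
  X : ℤ → ℝ
  c : ℤ → ℤ → ℂ
  Nlt : ∀ i : ℤ, -(n:ℤ) - 1 ≤ i → i ≤ n → N i < N (i+1)
  X_pos : ∀ i : ℤ, -(n:ℤ) ≤ i → i ≤ n → 0 < X i
  X_lt : ∀ i : ℤ, -(n:ℤ) ≤ i → i ≤ n → X i < 1
  summ : ∀ i : ℤ, -(n:ℤ) - 1 ≤ i → i ≤ n → Summable fun m => ‖c i m‖
  le_one : ∀ i : ℤ, -(n:ℤ) - 1 ≤ i → i ≤ n → ∀ m, ‖c i m‖ ≤ 1
  unit_l : ∀ i : ℤ, -(n:ℤ) - 1 ≤ i → i ≤ n → ‖c i (N i)‖ = 1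
  unit_r : ∀ i : ℤ, -(n:ℤ) - 1 ≤ i → i ≤ n → ‖c i (N (i+1))‖ = 1
  rel : ∀ i : ℤ, -(n:ℤ) ≤ i → i ≤ n → ∀ m, c i m = c (i-1) m * ((X i : ℝ) : ℂ) ^ (N i - m)
  bound : ∀ i : ℤ, -(n:ℤ) - 1 ≤ i → i ≤ n → ∀ z : ℂ, ‖z‖ = 1 → ‖∑' m : ℤ, c i m * z ^ m‖ ≤ B

namespace Wd
variable {B : ℝ} {n : ℕ}

/-- the gap of corner `i` -/
def G (W : Wd B n) (i : ℤ) : ℕ := (W.N (i+1) - W.N i).toNat

/-- the normalised quotient at the vertex `i` -/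
noncomputable def Y (W : Wd B n) (i : ℤ) : ℝ := W.X i ^ (min (W.G (i-1)) (W.G i))

end Wd
end Pool.Agent.MaxTerm8
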