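import Pool.Agent.MaxTerm8.WdBase

/-! Mirror image and recentering of windows; windows of a `Sys`. -/

namespace Pool.Agent.MaxTerm8
open Pool.Agent.MaxTerm59
namespace Wd
variable {B : ℝ} {n : ℕ}

/-- the mirror image -/
def mirror (W : Wd B n) : Wd B n where
  N i := -W.N (-i)
  X i := W.X (-i)
  c i m := W.c (-i-1) (-m)
  Nlt i h1 h2 := by
    have h := W.Nlt (-i-1) (by omega) (by omega)
    rw [sub_add_cancel, show -i - 1 = -(i+1) by ring] at h
    omega
  X_pos i h1 h2 := W.X_pos (-i) (by omega) (by omega)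
  X_lt i h1 h2 := W.X_lt (-i) (by omega) (by omega)
  summ i h1 h2 := (W.summ (-i-1) (by omega) (by omega)).comp_injective neg_injective
  le_one i h1 h2 m := W.le_one (-i-1) (by omega) (by omega) (-m)
  unit_l i h1 h2 := by
    have h := W.unit_r (-i-1) (by omega) (by omega)
    rwa [sub_add_cancel, ← neg_neg (W.N (-i))] at h
  unit_r i h1 h2 := by
    have h := W.unit_l (-i-1) (by omega) (by omega)
    rw [show -i - 1 = -(i+1) by ring, ← neg_neg (W.N (-(i+1)))] at h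
    rwa [show -i - 1 = -(i+1) by ring]
  rel i h1 h2 m := by
    have hX := W.X_pos (-i) (by omega) (by omega)
    have hXC : ((W.X (-i) : ℝ) : ℂ) ≠ 0 := by exact_mod_cast hX.ne'
    have h := W.rel (-i) (by omega) (by omega) (-m)
    rw [show -(i-1) - 1 = -i by ring, h, mul_assoc, ← zpow_add₀ hXC,
      show W.N (-i) - -m + (-W.N (-i) - m) = 0 by ring, zpow_zero, mul_one]
  bound i h1 h2 z hz := by
    have h := W.bound (-i-1) (by omega) (by omega) z⁻¹ (by rw [norm_inv, hz, inv_one])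
    rw [← (Equiv.neg ℤ).tsum_eq] at h
    simp only [Equiv.neg_apply, inv_zpow', neg_neg] at h
    exact h

@[simp] theorem mirror_N (W : Wd B n) (i : ℤ) : W.mirror.N i = -W.N (-i) := rfl
@[simp] theorem mirror_X (W : Wd B n) (i : ℤ) : W.mirror.X i = W.X (-i) := rfl
@[simp] theorem mirror_c (W : Wd B n) (i m : ℤ) : W.mirror.c i m = W.c (-i-1) (-m) := rfl

@[simp] theorem mirror_G (W : Wd B n) (i : ℤ) : W.mirror.G i = W.G (-i-1) := by
  unfold G
  rw [mirror_N, mirror_N, sub_add_cancel, show -(i+1) = -i - 1 by ring]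
  congr 1
  ring

@[simp] theorem mirror_Y (W : Wd B n) (i : ℤ) : W.mirror.Y i = W.Y (-i) := by
  unfold Y
  rw [mirror_X, mirror_G, mirror_G, show -(i-1) - 1 = -i by ring, min_comm]

/-- recentering at the vertex `s`, `|s| ≤ k` -/
def shift (W : Wd B n) (k : ℕ) (s : ℤ) (h1 : -(k:ℤ) ≤ s) (h2 : s ≤ k) (m : ℕ) (hm : m + k ≤ n) : Wd B m where
  N i := W.N (i+s)
  X i := W.X (i+s)
  c i := W.c (i+s)
  Nlt i h3 h4 := by
    have h := W.Nlt (i+s) (by omega) (by omega)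
    rwa [show i + s + 1 = i + 1 + s by ring] at h
  X_pos i h3 h4 := W.X_pos (i+s) (by omega) (by omega)
  X_lt i h3 h4 := W.X_lt (i+s) (by omega) (by omega)
  summ i h3 h4 := W.summ (i+s) (by omega) (by omega)
  le_one i h3 h4 := W.le_one (i+s) (by omega) (by omega)
  unit_l i h3 h4 := W.unit_l (i+s) (by omega) (by omega)
  unit_r i h3 h4 := by
    have h := W.unit_r (i+s) (by omega) (by omega)
    rwa [show i + s + 1 = i + 1 + s by ring] at h
  rel i h3 h4 m := by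
    have h := W.rel (i+s) (by omega) (by omega) m
    rwa [show i + s - 1 = i - 1 + s by ring] at h
  bound i h3 h4 := W.bound (i+s) (by omega) (by omega)

theorem shift_G (W : Wd B n) (k : ℕ) (s : ℤ) (h1 : -(k:ℤ) ≤ s) (h2 : s ≤ k) (m : ℕ) (hm : m + k ≤ n)
    (i : ℤ) : (W.shift k s h1 h2 m hm).G i = W.G (i+s) := by
  unfold G shift
  rw [show i + s + 1 = i + 1 + s by ring]

theorem shift_Y (W : Wd B n) (k : ℕ) (s : ℤ) (h1 : -(k:ℤ) ≤ s) (h2 : s ≤ k) (m : ℕ) (hm : m + k ≤ n)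
    (i : ℤ) : (W.shift k s h1 h2 m hm).Y i = W.Y (i+s) := by
  unfold Y
  rw [shift_G, shift_G, show i - 1 + s = i + s - 1 by ring]
  rfl

/-- the window of radius `n` around the vertex `k` of a `Sys` -/
def ofSys (S : Sys B) (k n : ℕ) (hk : n + 1 ≤ k) : Wd B n where
  N i := S.N ((k:ℤ) + i).toNat
  X i := S.x ((k:ℤ) + i - 1).toNat
  c i := S.c ((k:ℤ) + i).toNat
  Nlt i h3 h4 := by
    have h := S.Nlt ((k:ℤ) + i).toNat
    rwa [show ((k:ℤ) + i).toNat + 1 = ((k:ℤ) + (i+1)).toNat by omega] at h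
  X_pos i h3 h4 := S.x_pos _
  X_lt i h3 h4 := S.x_lt _
  summ i h3 h4 := S.summ _
  le_one i h3 h4 := S.le_one _
  unit_l i h3 h4 := S.unit_l _
  unit_r i h3 h4 := by
    have h := S.unit_r ((k:ℤ) + i).toNat
    rwa [show ((k:ℤ) + i).toNat + 1 = ((k:ℤ) + (i+1)).toNat by omega] at h
  rel i h3 h4 m := by
    have h := S.rel ((k:ℤ) + i - 1).toNat m
    rw [show ((k:ℤ) + i - 1).toNat + 1 = ((k:ℤ) + i).toNat by omega] at h
    rw [show (k:ℤ) + (i - 1) = (k:ℤ) + i - 1 by ring]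
    exact h
  bound i h3 h4 := S.bound _

/-- gap of corner `k` of a `Sys` -/
def gapS (S : Sys B) (k : ℕ) : ℕ := (S.N (k+1) - S.N k).toNat

/-- the normalised quotient at the vertex `k` (between the corners `k-1` and `k`) of a `Sys` -/
noncomputable def YS (S : Sys B) (k : ℕ) : ℝ := S.x (k-1) ^ (min (gapS S (k-1)) (gapS S k))

theorem ofSys_G (S : Sys B) (k n : ℕ) (hk : n + 1 ≤ k) (i : ℤ) (h1 : -(n:ℤ) - 1 ≤ i) :
    (ofSys S k n hk).G i = gapS S ((k:ℤ) + i).toNat := by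
  unfold G gapS
  show (S.N ((k:ℤ) + (i+1)).toNat - S.N ((k:ℤ) + i).toNat).toNat = _
  rw [show ((k:ℤ) + i).toNat + 1 = ((k:ℤ) + (i+1)).toNat by omega]

theorem ofSys_Y (S : Sys B) (k n : ℕ) (hk : n + 1 ≤ k) (i : ℤ) (h1 : -(n:ℤ) ≤ i) :
    (ofSys S k n hk).Y i = YS S ((k:ℤ) + i).toNat := by
  unfold Y YS
  rw [ofSys_G S k n hk _ (by omega), ofSys_G S k n hk _ (by omega)]
  show S.x ((k:ℤ) + i - 1).toNat ^ _ = _
  rw [show (k:ℤ) + (i - 1) = (k:ℤ) + i - 1 by ring,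
    show ((k:ℤ) + i - 1).toNat = ((k:ℤ) + i).toNat - 1 by omega]

end Wd
end Pool.Agent.MaxTerm8
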