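import Pool.Agent.MaxTerm8.WdVVDef
import Pool.Agent.MaxTerm59.ClassFn

namespace Pool.Agent.MaxTerm8
open Pool.Agent.MaxTerm59 Pool.Agent.MaxTerm58
namespace Wd
variable {B : ℝ} {n : ℕ}

/-- A class of a coefficient sequence, multiplied by `κ λ^j`, still satisfies the bound. Hints: `cls_bound`
at the point `λ z`. -/
theorem rot_bound (c : ℤ → ℂ) (hs : Summable fun m => ‖c m‖)
    (hB : ∀ z : ℂ, ‖z‖ = 1 → ‖∑' m : ℤ, c m * z ^ m‖ ≤ B) (a : ℤ) (h : ℕ) (hh : 0 < h) (κ lam : ℂ)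
    (h1 : ‖κ‖ = 1) (h2 : ‖lam‖ = 1) (z : ℂ) (hz : ‖z‖ = 1) :
    ‖∑' j : ℤ, κ * lam ^ j * c (a + j * h) * z ^ j‖ ≤ B := by
  have hb := cls_bound c hs B hB h hh a (lam * z) (by rw [norm_mul, h2, hz, one_mul])
  have he : ∑' j : ℤ, κ * lam ^ j * c (a + j * h) * z ^ j = κ * cls c h a (lam * z) := by
    unfold cls
    rw [← tsum_mul_left]
    refine tsum_congr fun j => ?_
    rw [mul_zpow]
    ring
  rw [he, norm_mul, h1, one_mul]
  exact hb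

private theorem wdvv1_toNat (a : ℂ) (ha : a ≠ 0) (x : ℤ) :
    a ^ x.toNat = a ^ x * a ^ (-x).toNat := by
  rw [← zpow_natCast, ← zpow_natCast, ← zpow_add₀ ha]
  congr 1
  omega

/-- The three corner bounds. Proof: `eaZ m1 0 j - (-j-m1)^+ = j + m1`, so for `X = 0` the summand is
`u w^j c 0 (N 1 + j h) s^(j+m1)`, and `c 0 (N 1 + j h) X0^(h (j+m1)) = c (-1) (N 1 + j h)` by `W.rel 0`
(`N 0 - (N 1 + j h) = -(m1 + j) h`), so with `s = X0^h e`, `‖e‖ = 1`: the summand is `u e^m1 (w e)^j c (-1) (N 1 + j h) z^j`: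
use `rot_bound`. `X = 1`: the summand is `u w^j c 0 (N 1 + j h) z^j`. `X = 2`: `t^((-j)^+ - j^+) = t^(-j)` and
`c 0 (N 1 + j h) X1^(-j h) = c 1 (N 1 + j h)` by `W.rel 1`. -/
theorem vv_bd (W : Wd B n) (hn : 1 ≤ n) (h m1 : ℕ) (hh : 0 < h) (hR : W.G 0 = m1 * h)
    (u w s t : ℂ) (hu : ‖u‖ = 1) (hw : ‖w‖ = 1) (hs : ‖s‖ = W.X 0 ^ h) (ht : ‖t‖ = W.X 1 ^ h) :
    ∀ X < 3, ∀ z : ℂ, ‖z‖ = 1 →
      ‖∑' j : ℤ, W.vv h m1 u w s t j * (s ^ eaZ m1 X j * t ^ ebZ 1 X j) * z ^ j‖ ≤ B := by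
  intro X hX z hz
  have hX0 : 0 < W.X 0 := W.X_pos 0 (by omega) (by omega)
  have hX1 : 0 < W.X 1 := W.X_pos 1 (by omega) (by omega)
  have hX0C : ((W.X 0 : ℝ) : ℂ) ≠ 0 := by exact_mod_cast hX0.ne'
  have hX1C : ((W.X 1 : ℝ) : ℂ) ≠ 0 := by exact_mod_cast hX1.ne'
  have hs0 : s ≠ 0 := by
    intro h0; rw [h0, norm_zero] at hs
    exact (pow_pos hX0 h).ne hs
  have ht0 : t ≠ 0 := by
    intro h0; rw [h0, norm_zero] at ht
    exact (pow_pos hX1 h).ne ht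
  interval_cases X
  · -- corner 0
    have hN : W.N 1 = W.N 0 + (m1 : ℤ) * h := by
      have h3 := W.N_succ 0 (by omega) (by omega)
      rw [zero_add, hR] at h3
      rw [h3]; push_cast; ring
    set e : ℂ := s / ((W.X 0 : ℝ) : ℂ) ^ h with he
    have hen : ‖e‖ = 1 := by
      rw [he, norm_div, norm_pow, Complex.norm_real, Real.norm_eq_abs, abs_of_pos hX0, hs,
        div_self (pow_pos hX0 h).ne']
    have he0 : e ≠ 0 := by
      intro h0; rw [h0, norm_zero] at hen; exact zero_ne_one hen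
    have hse : s = e * ((W.X 0 : ℝ) : ℂ) ^ h := by
      rw [he, div_mul_cancel₀ _ (pow_ne_zero _ hX0C)]
    have hb := rot_bound (W.c (-1)) (W.summ (-1) (by omega) (by omega))
      (W.bound (-1) (by omega) (by omega)) (W.N 1) h hh (u * e ^ m1) (w * e)
      (by rw [norm_mul, norm_pow, hu, hen, one_pow, one_mul]) (by rw [norm_mul, hw, hen, one_mul]) z hz
    refine le_of_eq_of_le ?_ hb
    congr 1
    refine tsum_congr fun j => ?_
    congr 1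
    unfold vv eaZ ebZ
    rw [if_pos rfl, if_neg one_ne_zero, if_neg (by norm_num : ¬ ((0:ℕ) = 2))]
    have hrel := W.rel 0 (by omega) (by omega) (W.N 1 + j * h)
    rw [zero_sub, show W.N 0 - (W.N 1 + j * h) = (h : ℤ) * (-(j + m1)) by rw [hN]; ring, zpow_mul,
      zpow_natCast] at hrel
    rw [hrel, wdvv1_toNat s hs0 (j + m1), show -(j + (m1:ℤ)) = -j - m1 by ring]
    have hp1 : s ^ (-j - (m1:ℤ)).toNat ≠ 0 := pow_ne_zero _ hs0
    have hp2 : t ^ j.toNat ≠ 0 := pow_ne_zero _ ht0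
    have hs2 : s ^ (j + (m1:ℤ)) = e ^ (j + (m1:ℤ)) * (((W.X 0 : ℝ) : ℂ) ^ h) ^ (j + (m1:ℤ)) := by
      rw [← mul_zpow, ← hse]
    have hs3 : (((W.X 0 : ℝ) : ℂ) ^ h) ^ (-j - (m1:ℤ)) * (((W.X 0 : ℝ) : ℂ) ^ h) ^ (j + (m1:ℤ)) = 1 := by
      rw [← zpow_add₀ (pow_ne_zero _ hX0C), show -j - (m1:ℤ) + (j + m1) = 0 by ring, zpow_zero]
    have hs4 : e ^ (j + (m1:ℤ)) = e ^ j * e ^ m1 := by
      rw [zpow_add₀ he0, zpow_natCast]
    calc u * w ^ j * (W.c (-1) (W.N 1 + j * h) * (((W.X 0 : ℝ) : ℂ) ^ h) ^ (-j - (m1:ℤ))) /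
          (s ^ (-j - (m1:ℤ)).toNat * t ^ j.toNat) *
          (s ^ (j + (m1:ℤ)) * s ^ (-j - (m1:ℤ)).toNat * t ^ j.toNat)
        = u * w ^ j * (W.c (-1) (W.N 1 + j * h) * (((W.X 0 : ℝ) : ℂ) ^ h) ^ (-j - (m1:ℤ))) *
          s ^ (j + (m1:ℤ)) := by
          field_simp
      _ = u * w ^ j * W.c (-1) (W.N 1 + j * h) * e ^ (j + (m1:ℤ)) *
          ((((W.X 0 : ℝ) : ℂ) ^ h) ^ (-j - (m1:ℤ)) * (((W.X 0 : ℝ) : ℂ) ^ h) ^ (j + (m1:ℤ))) := by
          rw [hs2]; ring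
      _ = u * e ^ m1 * (w * e) ^ j * W.c (-1) (W.N 1 + j * h) := by
          rw [hs3, hs4, mul_zpow]; ring
  · -- corner 1
    have hb := rot_bound (W.c 0) (W.summ 0 (by omega) (by omega))
      (W.bound 0 (by omega) (by omega)) (W.N 1) h hh u w hu hw z hz
    refine le_of_eq_of_le ?_ hb
    congr 1
    refine tsum_congr fun j => ?_
    congr 1
    unfold vv eaZ ebZ
    rw [if_neg one_ne_zero, if_neg one_ne_zero, if_neg (by norm_num : ¬ ((1:ℕ) = 2))]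
    have hp1 : s ^ (-j - (m1:ℤ)).toNat ≠ 0 := pow_ne_zero _ hs0
    have hp2 : t ^ j.toNat ≠ 0 := pow_ne_zero _ ht0
    field_simp
  · -- corner 2
    set f : ℂ := ((W.X 1 : ℝ) : ℂ) ^ h / t with hf
    have hfn : ‖f‖ = 1 := by
      rw [hf, norm_div, norm_pow, Complex.norm_real, Real.norm_eq_abs, abs_of_pos hX1, ht,
        div_self (pow_pos hX1 h).ne']
    have hb := rot_bound (W.c 1) (W.summ 1 (by omega) (by omega))
      (W.bound 1 (by omega) (by omega)) (W.N 1) h hh u (w * f) hu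
      (by rw [norm_mul, hw, hfn, one_mul]) z hz
    refine le_of_eq_of_le ?_ hb
    congr 1
    refine tsum_congr fun j => ?_
    congr 1
    unfold vv eaZ ebZ
    rw [if_neg two_ne_zero, if_neg one_ne_zero, if_pos rfl]
    have hrel := W.rel 1 (by omega) (by omega) (W.N 1 + j * h)
    rw [sub_self, show W.N 1 - (W.N 1 + j * h) = (h : ℤ) * (-j) by ring, zpow_mul,
      zpow_natCast] at hrel
    rw [hrel]
    have hp1 : s ^ (-j - (m1:ℤ)).toNat ≠ 0 := pow_ne_zero _ hs0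
    have hp2 : t ^ j.toNat ≠ 0 := pow_ne_zero _ ht0
    have ht2 : t ^ (-j).toNat = t ^ (-j) * t ^ j.toNat := by
      have := wdvv1_toNat t ht0 (-j)
      rwa [neg_neg] at this
    have hx1 : (((W.X 1 : ℝ) : ℂ) ^ h) ^ j * (((W.X 1 : ℝ) : ℂ) ^ h) ^ (-j) = 1 := by
      rw [← zpow_add₀ (pow_ne_zero _ hX1C), add_neg_cancel, zpow_zero]
    have hfj : f ^ j = (((W.X 1 : ℝ) : ℂ) ^ h) ^ j * t ^ (-j) := by
      rw [hf, div_zpow, zpow_neg, div_eq_mul_inv]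
    rw [ht2]
    calc u * w ^ j * W.c 0 (W.N 1 + j * h) / (s ^ (-j - (m1:ℤ)).toNat * t ^ j.toNat) *
          (s ^ (-j - (m1:ℤ)).toNat * (t ^ (-j) * t ^ j.toNat))
        = u * w ^ j * W.c 0 (W.N 1 + j * h) * t ^ (-j) := by
          field_simp
      _ = u * w ^ j * (W.c 0 (W.N 1 + j * h) *
          ((((W.X 1 : ℝ) : ℂ) ^ h) ^ j * (((W.X 1 : ℝ) : ℂ) ^ h) ^ (-j))) * t ^ (-j) := by
          rw [hx1, mul_one]
      _ = u * (w * f) ^ j * (W.c 0 (W.N 1 + j * h) * (((W.X 1 : ℝ) : ℂ) ^ h) ^ (-j)) := by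
          rw [mul_zpow, hfj]; ring

end Wd
end Pool.Agent.MaxTerm8
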