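import Pool.Agent.MaxTerm8.WdVVDef
import Pool.Agent.MaxTerm8.WdVV1
import Pool.Agent.MaxTerm59.ClassFn

/-! The normal form for the two corners at the vertex `0` (step `h`, the vertex `0` is at the position `-m`). -/

namespace Pool.Agent.MaxTerm8
open Pool.Agent.MaxTerm59 Pool.Agent.MaxTerm58
namespace Wd
variable {B : ℝ} {n : ℕ}

noncomputable def vt (W : Wd B n) (h m : ℕ) (u w s : ℂ) (j : ℤ) : ℂ :=
  u * w ^ j * W.c 0 (W.N 0 + (j + m) * h) / s ^ (-j - m).toNat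

private theorem wdvt_toNat (a : ℂ) (ha : a ≠ 0) (x : ℤ) :
    a ^ x.toNat = a ^ x * a ^ (-x).toNat := by
  rw [← zpow_natCast, ← zpow_natCast, ← zpow_add₀ ha]
  congr 1
  omega

/-- The two corner bounds. `X = 1`: `eaZ m 1 j = (-j-m)^+`, the summand is `u w^j c 0 (N 0 + (j+m) h) z^j` (`rot_bound`).
`X = 0`: `(j+m)^+ - (-j-m)^+ = j + m`, the summand is `u w^j s^(j+m) c 0 (N 0 + (j+m) h)`, and
`c 0 (N 0 + (j+m) h) X0^((j+m) h) = c (-1) (N 0 + (j+m) h)` by `W.rel 0`. Model: `vv_bd` in WdVV1.lean. -/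
theorem vt_bd (W : Wd B n) (h m : ℕ) (hh : 0 < h)
    (u w s : ℂ) (hu : ‖u‖ = 1) (hw : ‖w‖ = 1) (hs : ‖s‖ = W.X 0 ^ h) :
    ∀ X < 2, ∀ z : ℂ, ‖z‖ = 1 → ‖∑' j : ℤ, W.vt h m u w s j * s ^ eaZ m X j * z ^ j‖ ≤ B := by
  intro X hX z hz
  have hX0 : 0 < W.X 0 := W.X_pos 0 (by omega) (by omega)
  have hX0C : ((W.X 0 : ℝ) : ℂ) ≠ 0 := by exact_mod_cast hX0.ne'
  have hs0 : s ≠ 0 := by
    intro h0; rw [h0, norm_zero] at hs
    exact (pow_pos hX0 h).ne hs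
  have hidx : ∀ j : ℤ, W.N 0 + (j + (m:ℤ)) * h = W.N 0 + (m:ℤ) * h + j * h := fun j => by ring
  interval_cases X
  · -- corner 0
    set e : ℂ := s / ((W.X 0 : ℝ) : ℂ) ^ h with he
    have hen : ‖e‖ = 1 := by
      rw [he, norm_div, norm_pow, Complex.norm_real, Real.norm_eq_abs, abs_of_pos hX0, hs,
        div_self (pow_pos hX0 h).ne']
    have he0 : e ≠ 0 := by
      intro h0; rw [h0, norm_zero] at hen; exact zero_ne_one hen
    have hse : s = e * ((W.X 0 : ℝ) : ℂ) ^ h := by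
      rw [he, div_mul_cancel₀ _ (pow_ne_zero _ hX0C)]
    have hb := rot_bound (W.c (-1)) (W.summ (-1) (by omega) (by omega))
      (W.bound (-1) (by omega) (by omega)) (W.N 0 + (m:ℤ) * h) h hh (u * e ^ m) (w * e)
      (by rw [norm_mul, norm_pow, hu, hen, one_pow, one_mul]) (by rw [norm_mul, hw, hen, one_mul]) z hz
    refine le_of_eq_of_le ?_ hb
    congr 1
    refine tsum_congr fun j => ?_
    congr 1
    unfold vt eaZ
    rw [if_pos rfl]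
    have hrel := W.rel 0 (by omega) (by omega) (W.N 0 + (j + m) * h)
    rw [zero_sub, show W.N 0 - (W.N 0 + (j + (m:ℤ)) * h) = (h : ℤ) * (-(j + m)) by ring, zpow_mul,
      zpow_natCast] at hrel
    rw [hrel, wdvt_toNat s hs0 (j + m), show -(j + (m:ℤ)) = -j - m by ring, ← hidx j]
    have hp1 : s ^ (-j - (m:ℤ)).toNat ≠ 0 := pow_ne_zero _ hs0
    have hs2 : s ^ (j + (m:ℤ)) = e ^ (j + (m:ℤ)) * (((W.X 0 : ℝ) : ℂ) ^ h) ^ (j + (m:ℤ)) := by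
      rw [← mul_zpow, ← hse]
    have hs3 : (((W.X 0 : ℝ) : ℂ) ^ h) ^ (-j - (m:ℤ)) * (((W.X 0 : ℝ) : ℂ) ^ h) ^ (j + (m:ℤ)) = 1 := by
      rw [← zpow_add₀ (pow_ne_zero _ hX0C), show -j - (m:ℤ) + (j + m) = 0 by ring, zpow_zero]
    have hs4 : e ^ (j + (m:ℤ)) = e ^ j * e ^ m := by
      rw [zpow_add₀ he0, zpow_natCast]
    calc u * w ^ j * (W.c (-1) (W.N 0 + (j + m) * h) * (((W.X 0 : ℝ) : ℂ) ^ h) ^ (-j - (m:ℤ))) /
          s ^ (-j - (m:ℤ)).toNat *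
          (s ^ (j + (m:ℤ)) * s ^ (-j - (m:ℤ)).toNat)
        = u * w ^ j * (W.c (-1) (W.N 0 + (j + m) * h) * (((W.X 0 : ℝ) : ℂ) ^ h) ^ (-j - (m:ℤ))) *
          s ^ (j + (m:ℤ)) := by
          field_simp
      _ = u * w ^ j * W.c (-1) (W.N 0 + (j + m) * h) * e ^ (j + (m:ℤ)) *
          ((((W.X 0 : ℝ) : ℂ) ^ h) ^ (-j - (m:ℤ)) * (((W.X 0 : ℝ) : ℂ) ^ h) ^ (j + (m:ℤ))) := by
          rw [hs2]; ring
      _ = u * e ^ m * (w * e) ^ j * W.c (-1) (W.N 0 + (j + m) * h) := by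
          rw [hs3, hs4, mul_zpow]; ring
  · -- corner 1
    have hb := rot_bound (W.c 0) (W.summ 0 (by omega) (by omega))
      (W.bound 0 (by omega) (by omega)) (W.N 0 + (m:ℤ) * h) h hh u w hu hw z hz
    refine le_of_eq_of_le ?_ hb
    congr 1
    refine tsum_congr fun j => ?_
    congr 1
    unfold vt eaZ
    rw [if_neg one_ne_zero, ← hidx j]
    have hp1 : s ^ (-j - (m:ℤ)).toNat ≠ 0 := pow_ne_zero _ hs0
    rw [div_mul_cancel₀ _ hp1]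

theorem vt_norm_r (W : Wd B n) (h m : ℕ) (u w s : ℂ) (hu : ‖u‖ = 1) (hw : ‖w‖ = 1) (j : ℕ) :
    ‖W.vt h m u w s ((j : ℤ) - m)‖ = ‖W.c 0 (W.N 0 + (j * h : ℕ))‖ := by
  have e1 : (-((j:ℤ) - (m:ℤ)) - (m:ℤ)).toNat = 0 := by omega
  have e3 : W.N 0 + ((j:ℤ) - (m:ℤ) + m) * (h:ℤ) = W.N 0 + ((j * h : ℕ) : ℤ) := by push_cast; ring
  unfold vt
  rw [e1, e3, norm_div, norm_mul, norm_mul, norm_zpow, hu, hw, one_zpow, one_mul,
    one_mul, pow_zero, norm_one, div_one]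

theorem vt_norm_l (W : Wd B n) (h m : ℕ) (u w s : ℂ) (hu : ‖u‖ = 1) (hw : ‖w‖ = 1)
    (hs : ‖s‖ = W.X 0 ^ h) (j : ℕ) :
    ‖W.vt h m u w s (-(m : ℤ) - j)‖ = ‖W.c (-1) (W.N 0 - (j * h : ℕ))‖ := by
  have hX := W.X_pos 0 (by omega) (by omega)
  have h1 := W.norm_l 0 (by omega) (by omega) (j * h)
  rw [zero_sub] at h1
  have e1 : (-(-(m:ℤ) - (j:ℤ)) - (m:ℤ)).toNat = j := by omega
  have e3 : W.N 0 + (-(m:ℤ) - (j:ℤ) + m) * (h:ℤ) = W.N 0 - ((j * h : ℕ) : ℤ) := by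
    push_cast; ring
  have hp : (W.X 0) ^ (j * h) ≠ 0 := (pow_pos hX _).ne'
  unfold vt
  rw [e1, e3, norm_div, norm_mul, norm_mul, norm_zpow, hu, hw, one_zpow, one_mul,
    one_mul, norm_pow, hs, ← pow_mul, mul_comm h j, h1]
  field_simp

end Wd
end Pool.Agent.MaxTerm8
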