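import Pool.Agent.MaxTerm8.WdVT

namespace Pool.Agent.MaxTerm8
open Pool.Agent.MaxTerm59 Pool.Agent.MaxTerm58
namespace Wd
variable {B : ℝ} {n : ℕ}

private theorem vt2_unit_r (W : Wd B n) : ‖W.c 0 (W.N 1)‖ = 1 := by
  have h1 := W.unit_r 0 (by omega) (by omega)
  rwa [zero_add] at h1

private theorem vt2_unit_l (W : Wd B n) : ‖W.c 0 (W.N 0)‖ = 1 :=
  W.unit_l 0 (by omega) (by omega)

private theorem vt2_prev (W : Wd B n) : ‖W.c 0 (W.N (-1))‖ = W.X 0 ^ W.G (-1) := by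
  have h1 := W.next_l 0 (by omega) (by omega)
  rwa [zero_sub] at h1

private theorem vt2_N0 (W : Wd B n) : W.N 0 = W.N (-1) + (W.G (-1) : ℤ) := by
  have h1 := W.N_succ (-1) (by omega) (by omega)
  have e : (-1 : ℤ) + 1 = 0 := by norm_num
  rwa [e] at h1

private theorem vt2_N1 (W : Wd B n) : W.N 1 = W.N 0 + (W.G 0 : ℤ) := by
  have h1 := W.N_succ 0 (by omega) (by omega)
  rwa [zero_add] at h1

/-- Normalisation at a matched vertex (`m = 1`, step `g`): `u = (c 0 (N 1))⁻¹`, `w = c 0 (N 0) / c 0 (N 1)`, `s = q0`. -/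
theorem exists_vt_T (W : Wd B n) (g : ℕ) (hL : W.G (-1) = g) (hR : W.G 0 = g) :
    ∃ u w : ℂ, ‖u‖ = 1 ∧ ‖w‖ = 1 ∧ W.vt g 1 u w W.q0 (-2) = 1 ∧ W.vt g 1 u w W.q0 (-1) = 1 ∧
      W.vt g 1 u w W.q0 0 = 1 := by
  have n1 := vt2_unit_r W
  have n0 := vt2_unit_l W
  have np := vt2_prev W
  have hN0 := vt2_N0 W
  have hN1 := vt2_N1 W
  rw [hL] at hN0
  rw [hR] at hN1
  have c1 : W.c 0 (W.N 1) ≠ 0 := by
    intro h0
    rw [h0, norm_zero] at n1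
    exact zero_ne_one n1
  have c0 : W.c 0 (W.N 0) ≠ 0 := by
    intro h0
    rw [h0, norm_zero] at n0
    exact zero_ne_one n0
  have hX0 := W.X_pos 0 (by omega) (by omega)
  have cp : W.c 0 (W.N (-1)) ≠ 0 := by
    intro h0
    rw [h0, norm_zero] at np
    exact absurd np.symm (pow_pos hX0 _).ne'
  refine ⟨(W.c 0 (W.N 1))⁻¹, W.c 0 (W.N 0) / W.c 0 (W.N 1), ?_, ?_, ?_, ?_, ?_⟩
  · rw [norm_inv, n1, inv_one]
  · rw [norm_div, n0, n1, div_one]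
  · unfold vt
    have e1 : (-(-2 : ℤ) - ((1 : ℕ) : ℤ)).toNat = 1 := by
      norm_num
    have e3 : W.N 0 + (-2 + ((1 : ℕ) : ℤ)) * (g : ℤ) = W.N (-1) := by
      rw [hN0]
      push_cast
      ring
    have e4 : (W.c 0 (W.N 0) / W.c 0 (W.N 1)) ^ (-2 : ℤ)
        = ((W.c 0 (W.N 0) / W.c 0 (W.N 1)) ^ 2)⁻¹ := by
      rw [zpow_neg]
      congr 1
    rw [e1, e3, e4, pow_one]
    unfold q0
    field_simp
  · unfold vt
    have e1 : (-(-1 : ℤ) - ((1 : ℕ) : ℤ)).toNat = 0 := by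
      norm_num
    have e3 : W.N 0 + (-1 + ((1 : ℕ) : ℤ)) * (g : ℤ) = W.N 0 := by
      push_cast
      ring
    rw [e1, e3, pow_zero, div_one, zpow_neg_one]
    field_simp
  · unfold vt
    have e1 : (-(0 : ℤ) - ((1 : ℕ) : ℤ)).toNat = 0 := by
      norm_num
    have e3 : W.N 0 + (0 + ((1 : ℕ) : ℤ)) * (g : ℤ) = W.N 1 := by
      rw [hN1]
      push_cast
      ring
    rw [e1, e3, pow_zero, div_one, zpow_zero, mul_one]
    exact inv_mul_cancel₀ c1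

/-- Normalisation at a mismatched vertex (`m = 0`): `u = (c 0 (N 0))⁻¹`, `w ^ b = c 0 (N 0) / c 0 (N 1)`,
`s ^ a = u w^(-a) c 0 (N (-1))` (roots: `Complex.cpow_nat_inv_pow`; model: `exists_vv` in WdVV3.lean). -/
theorem exists_vt_M (W : Wd B n) (h a b : ℕ) (hh : 0 < h) (ha : 0 < a) (hb : 0 < b)
    (hL : W.G (-1) = a * h) (hR : W.G 0 = b * h) :
    ∃ u w s : ℂ, ‖u‖ = 1 ∧ ‖w‖ = 1 ∧ ‖s‖ = W.X 0 ^ h ∧ W.vt h 0 u w s (-(a : ℤ)) = 1 ∧
      W.vt h 0 u w s 0 = 1 ∧ W.vt h 0 u w s b = 1 := by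
  have n1 := vt2_unit_r W
  have n0 := vt2_unit_l W
  have np := vt2_prev W
  have hN0 := vt2_N0 W
  have hN1 := vt2_N1 W
  rw [hL] at hN0 np
  rw [hR] at hN1
  have c1 : W.c 0 (W.N 1) ≠ 0 := by
    intro h0
    rw [h0, norm_zero] at n1
    exact zero_ne_one n1
  have c0 : W.c 0 (W.N 0) ≠ 0 := by
    intro h0
    rw [h0, norm_zero] at n0
    exact zero_ne_one n0
  have hX0 := W.X_pos 0 (by omega) (by omega)
  have croot : ∀ (x : ℂ) (m : ℕ), 0 < m → ∃ y : ℂ, y ^ m = x := fun x m hm' =>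
    ⟨x ^ ((m : ℂ)⁻¹), Complex.cpow_nat_inv_pow x hm'.ne'⟩
  obtain ⟨u, hu⟩ : ∃ u, u = (W.c 0 (W.N 0))⁻¹ := ⟨_, rfl⟩
  obtain ⟨w, hw⟩ := croot (W.c 0 (W.N 0) / W.c 0 (W.N 1)) b hb
  have nu : ‖u‖ = 1 := by
    rw [hu, norm_inv, n0, inv_one]
  have nw : ‖w‖ = 1 := by
    have h1 : ‖w‖ ^ b = 1 := by
      rw [← norm_pow, hw, norm_div, n0, n1, div_one]
    exact (pow_eq_one_iff_of_nonneg (norm_nonneg _) hb.ne').1 h1
  obtain ⟨s, hs⟩ := croot (u * w ^ (-(a : ℤ)) * W.c 0 (W.N (-1))) a ha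
  have ns : ‖s‖ = W.X 0 ^ h := by
    have h1 : ‖s‖ ^ a = (W.X 0 ^ h) ^ a := by
      rw [← norm_pow, hs, norm_mul, norm_mul, norm_zpow, nu, nw, np, ← pow_mul, mul_comm a h]
      simp
    exact (pow_left_inj₀ (norm_nonneg _) (pow_pos hX0 _).le ha.ne').1 h1
  have sne : s ≠ 0 := by
    intro h0
    rw [h0, norm_zero] at ns
    exact absurd ns (pow_pos hX0 _).ne
  refine ⟨u, w, s, nu, nw, ns, ?_, ?_, ?_⟩
  · unfold vt
    have e1 : (-(-(a : ℤ)) - ((0 : ℕ) : ℤ)).toNat = a := by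
      simp
    have e3 : W.N 0 + (-(a : ℤ) + ((0 : ℕ) : ℤ)) * (h : ℤ) = W.N (-1) := by
      rw [hN0]
      push_cast
      ring
    rw [e1, e3, hs]
    refine div_self ?_
    rw [← hs]
    exact pow_ne_zero _ sne
  · unfold vt
    have e1 : (-(0 : ℤ) - ((0 : ℕ) : ℤ)).toNat = 0 := by
      norm_num
    have e3 : W.N 0 + (0 + ((0 : ℕ) : ℤ)) * (h : ℤ) = W.N 0 := by
      push_cast
      ring
    rw [e1, e3, pow_zero, div_one, zpow_zero, mul_one, hu]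
    exact inv_mul_cancel₀ c0
  · unfold vt
    have e1 : (-(b : ℤ) - ((0 : ℕ) : ℤ)).toNat = 0 := by
      have : (0 : ℤ) ≤ b := Int.natCast_nonneg b
      omega
    have e3 : W.N 0 + ((b : ℤ) + ((0 : ℕ) : ℤ)) * (h : ℤ) = W.N 1 := by
      rw [hN1]
      push_cast
      ring
    rw [e1, e3, pow_zero, div_one, zpow_natCast, hw, hu]
    field_simp

end Wd
end Pool.Agent.MaxTerm8
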